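import Pool.Agent.LibST49.A1

/-
PLAN (A2, SHORT). Write (B, sigma, A) = Lk κ c Z. With x + 2 s c = 2^κ B, s = 4^κ sigma, d = c' - c, ‖d‖ <= c0 2^-κ:
first component of Lk k c' Z: 2^-k (x + 2 s c') = 2^-k (2^κ B + 2 4^κ sigma d): norm <= |B| + 2 c0 |sigma| (2^-k 2^κ <= 1);
second: 4^-k s = 4^(κ-k) sigma; third: t + <x,c'> + s|c'|^2 = A + <x + 2 s c, d> + s |d|^2 = A + 2^κ <B,d> + 4^κ sigma |d|^2: <= |A| + c0 |B| + c0^2 |sigma|.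
All <= (1+c0)^2 * max.
-/

set_option autoImplicit false

noncomputable section

open MeasureTheory Metric Set Filter

namespace Pool.LibST49

open Pool.LibSR53

/-- plank coordinates of a finer scale and a neighbouring direction are controlled by those of the
coarser scale -/
theorem Lk_comp {m : ℕ} (c0 : ℝ) (hc0 : 0 ≤ c0) (k κ : ℕ) (hk : κ ≤ k) (c c' : E m)
    (hc : ‖c' - c‖ ≤ c0 * (2 : ℝ)⁻¹ ^ κ) (Z : X m) :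
    ‖Lk k c' Z‖ ≤ (1 + c0) ^ 2 * ‖Lk κ c Z‖ := by
  obtain ⟨x, s, t⟩ := Z
  set M : ℝ := ‖Lk κ c (x, s, t)‖ with hM
  have hM0 : 0 ≤ M := norm_nonneg _
  set y : E m := x + (2 * s) • c with hy
  set d : E m := c' - c with hd
  have hc' : c' = c + d := by rw [hd]; abel
  have ha : (0 : ℝ) < (2 : ℝ)⁻¹ ^ κ := by positivity
  have hb : (0 : ℝ) < (4 : ℝ)⁻¹ ^ κ := by positivity
  have hab : (2 : ℝ)⁻¹ ^ κ * (2 : ℝ)⁻¹ ^ κ = (4 : ℝ)⁻¹ ^ κ := by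
    rw [← mul_pow]
    norm_num
  have hk2 : (2 : ℝ)⁻¹ ^ k ≤ (2 : ℝ)⁻¹ ^ κ :=
    pow_le_pow_of_le_one (by norm_num) (by norm_num) hk
  have hk4 : (4 : ℝ)⁻¹ ^ k ≤ (4 : ℝ)⁻¹ ^ κ :=
    pow_le_pow_of_le_one (by norm_num) (by norm_num) hk
  -- the three bounds
  have h1 : (2 : ℝ)⁻¹ ^ κ * ‖y‖ ≤ M := by
    have h : ‖(Lk κ c (x, s, t)).1‖ ≤ M := norm_fst_le _
    have h' : (Lk κ c (x, s, t)).1 = (2 : ℝ)⁻¹ ^ κ • y := rfl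
    rw [h', norm_smul, Real.norm_of_nonneg ha.le] at h
    exact h
  have h2 : (4 : ℝ)⁻¹ ^ κ * |s| ≤ M := by
    have h : ‖(Lk κ c (x, s, t)).2.1‖ ≤ M := (norm_fst_le _).trans (norm_snd_le _)
    have h' : (Lk κ c (x, s, t)).2.1 = (4 : ℝ)⁻¹ ^ κ * s := rfl
    rw [h', Real.norm_eq_abs, abs_mul, abs_of_pos hb] at h
    exact h
  have h3 : |t + inner ℝ x c + s * ‖c‖ ^ 2| ≤ M := by
    have h : ‖(Lk κ c (x, s, t)).2.2‖ ≤ M := (norm_snd_le _).trans (norm_snd_le _)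
    exact h
  have hs0 : 0 ≤ |s| := abs_nonneg s
  have hy0 : 0 ≤ ‖y‖ := norm_nonneg y
  have hd0 : 0 ≤ ‖d‖ := norm_nonneg d
  -- |s| ‖d‖ ≤ c0 M 2^κ in the form 2^-κ |s| ‖d‖ ≤ c0 M
  have h4 : (2 : ℝ)⁻¹ ^ κ * (|s| * ‖d‖) ≤ c0 * M := by
    calc (2 : ℝ)⁻¹ ^ κ * (|s| * ‖d‖) ≤ (2 : ℝ)⁻¹ ^ κ * (|s| * (c0 * (2 : ℝ)⁻¹ ^ κ)) := by gcongr
      _ = c0 * ((2 : ℝ)⁻¹ ^ κ * (2 : ℝ)⁻¹ ^ κ * |s|) := by ring
      _ = c0 * ((4 : ℝ)⁻¹ ^ κ * |s|) := by rw [hab]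
      _ ≤ c0 * M := by gcongr
  have h5 : ‖y‖ * ‖d‖ ≤ c0 * M := by
    calc ‖y‖ * ‖d‖ ≤ ‖y‖ * (c0 * (2 : ℝ)⁻¹ ^ κ) := by gcongr
      _ = c0 * ((2 : ℝ)⁻¹ ^ κ * ‖y‖) := by ring
      _ ≤ c0 * M := by gcongr
  have h6 : |s| * ‖d‖ ^ 2 ≤ c0 ^ 2 * M := by
    calc |s| * ‖d‖ ^ 2 ≤ |s| * (c0 * (2 : ℝ)⁻¹ ^ κ) ^ 2 := by gcongr
      _ = c0 ^ 2 * ((2 : ℝ)⁻¹ ^ κ * (2 : ℝ)⁻¹ ^ κ * |s|) := by ring
      _ = c0 ^ 2 * ((4 : ℝ)⁻¹ ^ κ * |s|) := by rw [hab]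
      _ ≤ c0 ^ 2 * M := by gcongr
  have hone : M ≤ (1 + c0) ^ 2 * M := by nlinarith [mul_nonneg hc0 hM0, mul_nonneg (sq_nonneg c0) hM0]
  have e1 : (Lk k c' (x, s, t)).1 = (2 : ℝ)⁻¹ ^ k • (y + (2 * s) • d) := by
    show (2 : ℝ)⁻¹ ^ k • (x + (2 * s) • c') = _
    rw [hc', hy, smul_add (2 * s) c d, add_assoc]
  have e3 : (Lk k c' (x, s, t)).2.2 = (t + inner ℝ x c + s * ‖c‖ ^ 2) + inner ℝ y d + s * ‖d‖ ^ 2 := by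
    show t + inner ℝ x c' + s * ‖c'‖ ^ 2 = _
    rw [hc', hy, inner_add_right, norm_add_sq_real, inner_add_left, real_inner_smul_left]
    ring
  refine max_le ?_ (max_le ?_ ?_)
  · rw [e1, norm_smul, Real.norm_of_nonneg (by positivity)]
    calc (2 : ℝ)⁻¹ ^ k * ‖y + (2 * s) • d‖ ≤ (2 : ℝ)⁻¹ ^ κ * (‖y‖ + 2 * (|s| * ‖d‖)) := by
          refine mul_le_mul hk2 ?_ (norm_nonneg _) ha.le
          refine (norm_add_le _ _).trans (le_of_eq ?_)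
          rw [norm_smul, Real.norm_eq_abs, abs_mul, abs_two, mul_assoc]
      _ = (2 : ℝ)⁻¹ ^ κ * ‖y‖ + 2 * ((2 : ℝ)⁻¹ ^ κ * (|s| * ‖d‖)) := by ring
      _ ≤ M + 2 * (c0 * M) := by gcongr
      _ ≤ (1 + c0) ^ 2 * M := by nlinarith [mul_nonneg (sq_nonneg c0) hM0]
  · show ‖(4 : ℝ)⁻¹ ^ k * s‖ ≤ _
    rw [Real.norm_eq_abs, abs_mul, abs_of_nonneg (by positivity : (0 : ℝ) ≤ (4 : ℝ)⁻¹ ^ k)]
    calc (4 : ℝ)⁻¹ ^ k * |s| ≤ (4 : ℝ)⁻¹ ^ κ * |s| := by gcongr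
      _ ≤ M := h2
      _ ≤ _ := hone
  · rw [e3, Real.norm_eq_abs]
    calc |(t + inner ℝ x c + s * ‖c‖ ^ 2) + inner ℝ y d + s * ‖d‖ ^ 2|
        ≤ |t + inner ℝ x c + s * ‖c‖ ^ 2| + |inner ℝ y d| + |s * ‖d‖ ^ 2| := abs_add_three _ _ _
      _ ≤ M + c0 * M + c0 ^ 2 * M := by
          have h7 : |inner ℝ y d| ≤ c0 * M := (abs_real_inner_le_norm y d).trans h5
          have h8 : |s * ‖d‖ ^ 2| ≤ c0 ^ 2 * M := by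
            rw [abs_mul, abs_of_nonneg (sq_nonneg ‖d‖)]
            exact h6
          linarith
      _ ≤ (1 + c0) ^ 2 * M := by nlinarith [mul_nonneg hc0 hM0]

end Pool.LibST49
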