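import Pool.Agent.LibST49.A1

/-
PLAN (K5, MEDIUM/STRONG, elementary). Write ω = w k j, ‖ω‖ <= 2 sqrt m, (B,σ,A) = Lk k ω Z, Z = (x,s,t). Identity: ‖x + 2 s ω‖^2 - 4 s A = ‖x‖^2 - 4 s t = ny^2 - rad^2. And
ny + |rad| >= ‖Z‖ >= c0 4^k (norm_le_ny). So |ny - |rad|| (c0 4^k) <= |ny^2 - rad^2| <= 4^k ‖B‖^2 + 4 |s| |A| with |s| <= ‖Z‖ <= c0^-1 4^k: |ny - |rad|| <= C (1+‖Lk..‖)^2. Hence
1/(1+‖L_j‖)^(2N+M') <= C / (1+|ny-|rad||)^N * 1/(1+‖L_j‖)^M'. It remains: SUM_(j in J m k) 1/(1+‖L_j‖)^M' <= C, M' = m+1. Put c1 = c0/(40 m) (m >= 1).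
Case |s| >= c1 4^k: ‖L_j‖ >= ‖B‖ = 2|s| 4^-k ‖iv j - a‖ with a = -2^k x/(2s), >= 2 c1 ‖iv j - a‖; SUM_j 1/(1+2c1‖iv j - a‖)^(m+1) <= C uniformly in a (compare coordinates, like row P5).
Case |s| < c1 4^k: (a) ‖x‖ >= 8 sqrt m c1 4^k: ‖x + 2 s ω‖ >= ‖x‖/2, so ‖L_j‖ >= 4 sqrt m c1 2^k, and card (J m k) <= 5^m 2^(km) (card_J_le). (b) else |t| = ‖Z‖ >= c0 4^k and
|A| >= c0 4^k - ‖x‖‖ω‖ - |s|‖ω‖^2 >= c0 4^k - 16 m c1 4^k - 4 m c1 4^k >= c0 4^k/2: same count.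
-/

set_option autoImplicit false

noncomputable section

open MeasureTheory Metric Set Filter

namespace Pool.LibST49

open Pool.LibSR53

private lemma k5_summable (c : ℝ) (hc : 0 < c) :
    Summable (fun n : ℤ => 1 / (1 + c * |(n : ℝ)|) ^ 2) := by
  have h1 : Summable (fun n : ℤ => 1 / c ^ 2 * (1 / (n : ℝ) ^ 2)) :=
    (Real.summable_one_div_int_pow.2 one_lt_two).mul_left _
  have h2 : Summable (fun n : ℤ => if n = 0 then (1 : ℝ) else 0) :=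
    (hasSum_ite_eq (0 : ℤ) (1 : ℝ)).summable
  refine Summable.of_nonneg_of_le (fun n => by positivity) (fun n => ?_) (h1.add h2)
  by_cases hn : n = 0
  · subst hn
    simp
  · have h3 : (0 : ℝ) < |(n : ℝ)| := by
      rw [abs_pos]
      exact_mod_cast hn
    rw [if_neg hn, add_zero]
    have h4 : 1 / c ^ 2 * (1 / (n : ℝ) ^ 2) = 1 / (c * |(n : ℝ)|) ^ 2 := by
      rw [mul_pow, sq_abs, one_div_mul_one_div]
    rw [h4]
    refine one_div_le_one_div_of_le (by positivity) ?_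
    refine pow_le_pow_left₀ (by positivity) ?_ 2
    linarith

private lemma k5_one (c : ℝ) (hc : 0 < c) : ∃ C : ℝ, 0 < C ∧ ∀ (T : Finset ℤ) (a : ℝ),
    ∑ n ∈ T, 1 / (1 + c * |(n : ℝ) - a|) ^ 2 ≤ C := by
  have hs := k5_summable c hc
  refine ⟨(1 + c) ^ 2 * ∑' n : ℤ, 1 / (1 + c * |(n : ℝ)|) ^ 2, ?_, ?_⟩
  · have h1 : (1 : ℝ) ≤ ∑' n : ℤ, 1 / (1 + c * |(n : ℝ)|) ^ 2 := by
      refine le_trans ?_ (hs.le_tsum (0 : ℤ) (fun n _ => by positivity))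
      simp
    positivity
  · intro T a
    have h1 : ∀ n ∈ T, 1 / (1 + c * |(n : ℝ) - a|) ^ 2 ≤
        (1 + c) ^ 2 * (1 / (1 + c * |((n - ⌊a⌋ : ℤ) : ℝ)|) ^ 2) := by
      intro n _
      have h2 : |((n - ⌊a⌋ : ℤ) : ℝ)| ≤ |(n : ℝ) - a| + 1 := by
        have h3 : ((n - ⌊a⌋ : ℤ) : ℝ) = ((n : ℝ) - a) + (a - ⌊a⌋) := by
          push_cast
          ring
        rw [h3]
        refine (abs_add_le _ _).trans ?_
        have h4 : |a - ⌊a⌋| ≤ 1 := by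
          rw [abs_le]
          have := Int.floor_le a
          have := Int.lt_floor_add_one a
          constructor <;> linarith
        linarith
      have h5 : 1 + c * |((n - ⌊a⌋ : ℤ) : ℝ)| ≤ (1 + c) * (1 + c * |(n : ℝ) - a|) := by
        have h6 : c * |((n - ⌊a⌋ : ℤ) : ℝ)| ≤ c * (|(n : ℝ) - a| + 1) :=
          mul_le_mul_of_nonneg_left h2 hc.le
        have h7 : 0 ≤ c * (c * |(n : ℝ) - a|) := by positivity
        nlinarith
      rw [mul_one_div, div_le_div_iff₀ (by positivity) (by positivity), one_mul, ← mul_pow]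
      exact pow_le_pow_left₀ (by positivity) h5 2
    refine (Finset.sum_le_sum h1).trans ?_
    rw [← Finset.mul_sum]
    refine mul_le_mul_of_nonneg_left ?_ (by positivity)
    have h8 : Summable (fun n : ℤ => 1 / (1 + c * |((n - ⌊a⌋ : ℤ) : ℝ)|) ^ 2) :=
      (Equiv.subRight ⌊a⌋).summable_iff.2 hs
    refine (h8.sum_le_tsum T (fun n _ => by positivity)).trans (le_of_eq ?_)
    exact (Equiv.subRight ⌊a⌋).tsum_eq (fun n : ℤ => 1 / (1 + c * |(n : ℝ)|) ^ 2)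

private lemma k5_pi (m : ℕ) (c : ℝ) (hc : 0 < c) : ∃ C : ℝ, 0 < C ∧ ∀ (k : ℕ) (a : E m),
    ∑ j ∈ J m k, 1 / (1 + c * ‖iv j - a‖) ^ (2 * m) ≤ C := by
  obtain ⟨C, hC, hCT⟩ := k5_one c hc
  refine ⟨C ^ m, by positivity, ?_⟩
  intro k a
  have h1 : ∀ j ∈ J m k, 1 / (1 + c * ‖iv j - a‖) ^ (2 * m) ≤
      ∏ i : Fin m, 1 / (1 + c * |(j i : ℝ) - a i|) ^ 2 := by
    intro j _
    have h2 : 1 / (1 + c * ‖iv j - a‖) ^ (2 * m) =
        ∏ _i : Fin m, 1 / (1 + c * ‖iv j - a‖) ^ 2 := by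
      rw [Finset.prod_const, Finset.card_univ, Fintype.card_fin, div_pow, one_pow, ← pow_mul]
    rw [h2]
    refine Finset.prod_le_prod (fun i _ => by positivity) (fun i _ => ?_)
    refine one_div_le_one_div_of_le (by positivity) ?_
    refine pow_le_pow_left₀ (by positivity) ?_ 2
    have h3 : |(j i : ℝ) - a i| ≤ ‖iv j - a‖ := by
      have h4 := PiLp.norm_apply_le (iv j - a) i
      rw [PiLp.sub_apply, Real.norm_eq_abs] at h4
      exact h4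
    have h5 := mul_le_mul_of_nonneg_left h3 hc.le
    linarith
  refine (Finset.sum_le_sum h1).trans ?_
  unfold J
  rw [← Finset.prod_univ_sum (fun _ => Finset.Icc (-(2 : ℤ) ^ (k + 1)) ((2 : ℤ) ^ (k + 1)))
    (fun i n => 1 / (1 + c * |(n : ℝ) - a i|) ^ 2)]
  refine (Finset.prod_le_prod (fun i _ => Finset.sum_nonneg fun n _ => by positivity)
    (fun i _ => hCT _ (a i))).trans (le_of_eq ?_)
  rw [Finset.prod_const, Finset.card_univ, Fintype.card_fin]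

private lemma k5_norm {m : ℕ} (Z : X m) : ‖Z‖ = max ‖Z.1‖ (max |Z.2.1| |Z.2.2|) := rfl

private lemma k5_fst {m : ℕ} (Z : X m) : ‖Z.1‖ ≤ ‖Z‖ := norm_fst_le Z

private lemma k5_thd {m : ℕ} (Z : X m) : |Z.2.2| ≤ ‖Z‖ :=
  (norm_snd_le Z.2).trans (norm_snd_le Z)

private lemma k5_snd {m : ℕ} (Z : X m) : |Z.2.1| ≤ ‖Z‖ :=
  (norm_fst_le Z.2).trans (norm_snd_le Z)

private lemma k5_defect {m : ℕ} (c0 : ℝ) (hc0 : 0 < c0) (k : ℕ) (Z : X m)
    (h1 : c0 * 4 ^ k ≤ ‖Z‖) (h2 : ‖Z‖ ≤ c0⁻¹ * 4 ^ k) (ω : E m) :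
    1 + abs (ny Z - |rad Z|) ≤ (1 + c0⁻¹ * (1 + 4 * c0⁻¹)) * (1 + ‖Lk k ω Z‖) ^ 2 := by
  set L : X m := Lk k ω Z with hL
  have hL1 : ‖L.1‖ ≤ ‖L‖ := k5_fst L
  have hL3 : |L.2.2| ≤ ‖L‖ := k5_thd L
  have hs : |Z.2.1| ≤ c0⁻¹ * 4 ^ k := (k5_snd Z).trans h2
  have h4 : (0 : ℝ) < 4 ^ k := by positivity
  have hB : ‖Z.1 + (2 * Z.2.1) • ω‖ ^ 2 = 4 ^ k * ‖L.1‖ ^ 2 := by
    rw [hL]
    simp only [Lk]
    rw [norm_smul, mul_pow, norm_pow, norm_inv, Real.norm_ofNat, ← pow_mul, mul_comm k 2,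
      pow_mul, ← mul_assoc]
    have h5 : (4 : ℝ) ^ k * ((2⁻¹ : ℝ) ^ 2) ^ k = 1 := by
      rw [← mul_pow]
      norm_num
    rw [h5, one_mul]
  have hA : L.2.2 = Z.2.2 + inner ℝ Z.1 ω + Z.2.1 * ‖ω‖ ^ 2 := rfl
  have hid : ny Z ^ 2 - |rad Z| ^ 2 = 4 ^ k * ‖L.1‖ ^ 2 - 4 * Z.2.1 * L.2.2 := by
    rw [← hB, hA, sq_abs]
    unfold ny rad
    rw [Real.sq_sqrt (by positivity), norm_add_sq_real, norm_smul, real_inner_smul_right,
      mul_pow, Real.norm_eq_abs, sq_abs]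
    ring
  have hnn := ny_nonneg Z
  have hsum : c0 * 4 ^ k ≤ ny Z + |rad Z| := h1.trans (norm_le_ny Z)
  have h6 : abs (ny Z - |rad Z|) * (c0 * 4 ^ k) ≤ 4 ^ k * (1 + 4 * c0⁻¹) * (1 + ‖L‖) ^ 2 := by
    calc abs (ny Z - |rad Z|) * (c0 * 4 ^ k)
        ≤ abs (ny Z - |rad Z|) * (ny Z + |rad Z|) :=
          mul_le_mul_of_nonneg_left hsum (abs_nonneg _)
      _ = abs (ny Z ^ 2 - |rad Z| ^ 2) := by
          rw [← abs_of_nonneg (add_nonneg hnn (abs_nonneg (rad Z))), ← abs_mul]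
          congr 1
          ring
      _ = abs (4 ^ k * ‖L.1‖ ^ 2 - 4 * Z.2.1 * L.2.2) := by rw [hid]
      _ ≤ 4 ^ k * ‖L.1‖ ^ 2 + 4 * |Z.2.1| * |L.2.2| := by
          refine (abs_sub _ _).trans (le_of_eq ?_)
          rw [abs_of_nonneg (by positivity : (0 : ℝ) ≤ 4 ^ k * ‖L.1‖ ^ 2), abs_mul, abs_mul]
          norm_num
      _ ≤ 4 ^ k * ‖L‖ ^ 2 + 4 * (c0⁻¹ * 4 ^ k) * ‖L‖ := by
          gcongr
      _ ≤ 4 ^ k * (1 + 4 * c0⁻¹) * (1 + ‖L‖) ^ 2 := by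
          have h7 : ‖L‖ ^ 2 ≤ (1 + ‖L‖) ^ 2 := by
            have := norm_nonneg L
            nlinarith
          have h8 : ‖L‖ ≤ (1 + ‖L‖) ^ 2 := by
            have := norm_nonneg L
            nlinarith
          have h9 : 4 ^ k * ‖L‖ ^ 2 ≤ 4 ^ k * (1 + ‖L‖) ^ 2 := by gcongr
          have h10 : 4 * (c0⁻¹ * 4 ^ k) * ‖L‖ ≤ 4 * (c0⁻¹ * 4 ^ k) * (1 + ‖L‖) ^ 2 := by gcongr
          calc _ ≤ 4 ^ k * (1 + ‖L‖) ^ 2 + 4 * (c0⁻¹ * 4 ^ k) * (1 + ‖L‖) ^ 2 :=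
                add_le_add h9 h10
            _ = _ := by ring
  have h11 : abs (ny Z - |rad Z|) ≤ c0⁻¹ * (1 + 4 * c0⁻¹) * (1 + ‖L‖) ^ 2 := by
    have h12 : abs (ny Z - |rad Z|) * (c0 * 4 ^ k) ≤
        (c0⁻¹ * (1 + 4 * c0⁻¹) * (1 + ‖L‖) ^ 2) * (c0 * 4 ^ k) := by
      refine h6.trans (le_of_eq ?_)
      field_simp
    exact le_of_mul_le_mul_right h12 (by positivity)
  have h13 : (1 : ℝ) ≤ (1 + ‖L‖) ^ 2 := by
    have := norm_nonneg L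
    nlinarith
  calc 1 + abs (ny Z - |rad Z|) ≤ (1 + ‖L‖) ^ 2 + c0⁻¹ * (1 + 4 * c0⁻¹) * (1 + ‖L‖) ^ 2 :=
        add_le_add h13 h11
    _ = _ := by ring

private lemma k5_far {m : ℕ} (hm : 1 ≤ m) (c0 : ℝ) (hc0 : 0 < c0) (k : ℕ) (Z : X m)
    (h1 : c0 * 4 ^ k ≤ ‖Z‖) (hs : |Z.2.1| < c0 / (40 * m) * 4 ^ k) (ω : E m)
    (hω : ‖ω‖ ≤ 2 * Real.sqrt m) : c0 / (10 * m) * 2 ^ k ≤ ‖Lk k ω Z‖ := by
  have hm1 : (1 : ℝ) ≤ m := by exact_mod_cast hm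
  have hm0 : (0 : ℝ) < m := by linarith
  have hq1 : (1 : ℝ) ≤ Real.sqrt m := Real.one_le_sqrt.2 hm1
  have hqq : Real.sqrt m * Real.sqrt m = m := Real.mul_self_sqrt hm0.le
  have h4 : (0 : ℝ) < 4 ^ k := by positivity
  have h42 : (4 : ℝ) ^ k = 2 ^ k * 2 ^ k := by
    rw [← mul_pow]
    norm_num
  set c1 : ℝ := c0 / (40 * m) with hc1
  have hc1p : 0 < c1 := by positivity
  have hc1m : 40 * (m * c1) = c0 := by
    rw [hc1]
    field_simp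
  have h10 : c0 / (10 * m) = 4 * c1 := by
    rw [hc1]
    field_simp
    norm_num
  rw [h10]
  by_cases hx : 8 * Real.sqrt m * c1 * 4 ^ k ≤ ‖Z.1‖
  · have h5 : ‖(2 * Z.2.1) • ω‖ ≤ 4 * Real.sqrt m * c1 * 4 ^ k := by
      rw [norm_smul, Real.norm_eq_abs, abs_mul, abs_two]
      calc 2 * |Z.2.1| * ‖ω‖ ≤ 2 * (c1 * 4 ^ k) * (2 * Real.sqrt m) := by
            gcongr
        _ = _ := by ring
    have h6 : 4 * Real.sqrt m * c1 * 4 ^ k ≤ ‖Z.1 + (2 * Z.2.1) • ω‖ := by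
      have h7 : ‖Z.1‖ ≤ ‖Z.1 + (2 * Z.2.1) • ω‖ + ‖(2 * Z.2.1) • ω‖ := by
        have h8 : Z.1 = (Z.1 + (2 * Z.2.1) • ω) - (2 * Z.2.1) • ω := by abel
        calc ‖Z.1‖ = ‖(Z.1 + (2 * Z.2.1) • ω) - (2 * Z.2.1) • ω‖ := by rw [← h8]
          _ ≤ _ := norm_sub_le _ _
      linarith
    refine le_trans ?_ (k5_fst (Lk k ω Z))
    simp only [Lk]
    rw [norm_smul, norm_pow, norm_inv, Real.norm_ofNat]
    calc 4 * c1 * 2 ^ k ≤ 4 * c1 * Real.sqrt m * 2 ^ k := by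
          have : 4 * c1 ≤ 4 * c1 * Real.sqrt m := by
            have h9 : 4 * c1 * 1 ≤ 4 * c1 * Real.sqrt m :=
              mul_le_mul_of_nonneg_left hq1 (by positivity)
            linarith
          gcongr
      _ = (2⁻¹ : ℝ) ^ k * (4 * Real.sqrt m * c1 * 4 ^ k) := by
          rw [h42, inv_pow]
          field_simp
      _ ≤ _ := mul_le_mul_of_nonneg_left h6 (by positivity)
  · push Not at hx
    have ht : c0 * 4 ^ k ≤ |Z.2.2| := by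
      rw [k5_norm] at h1
      have h5 : 8 * Real.sqrt m * c1 * 4 ^ k < c0 * 4 ^ k := by
        have h6 : 8 * Real.sqrt m * c1 < c0 := by
          have h7 : Real.sqrt m ≤ m := by
            nlinarith
          have h8 : Real.sqrt m * c1 ≤ m * c1 := by gcongr
          have h9 : 0 < m * c1 := by positivity
          linarith
        gcongr
      have h6 : c1 * 4 ^ k < c0 * 4 ^ k := by
        have h7 : c1 < c0 := by
          have h8 : 1 * c1 ≤ m * c1 := by gcongr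
          have h9 : 0 < m * c1 := by positivity
          linarith
        gcongr
      rcases le_max_iff.1 h1 with h7 | h7
      · linarith
      · rcases le_max_iff.1 h7 with h8 | h8
        · linarith
        · exact h8
    refine le_trans ?_ (k5_thd (Lk k ω Z))
    simp only [Lk]
    have h5 : |inner ℝ Z.1 ω| ≤ 8 * Real.sqrt m * c1 * 4 ^ k * (2 * Real.sqrt m) :=
      (abs_real_inner_le_norm _ _).trans (mul_le_mul hx.le hω (norm_nonneg _) (by positivity))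
    have h6 : |Z.2.1 * ‖ω‖ ^ 2| ≤ c1 * 4 ^ k * (2 * Real.sqrt m) ^ 2 := by
      rw [abs_mul, abs_of_nonneg (by positivity : (0 : ℝ) ≤ ‖ω‖ ^ 2)]
      gcongr
    have h7 : |Z.2.2| ≤ |Z.2.2 + inner ℝ Z.1 ω + Z.2.1 * ‖ω‖ ^ 2| + |inner ℝ Z.1 ω| +
        |Z.2.1 * ‖ω‖ ^ 2| := by
      have h8 : Z.2.2 = (Z.2.2 + inner ℝ Z.1 ω + Z.2.1 * ‖ω‖ ^ 2) - inner ℝ Z.1 ω -
          Z.2.1 * ‖ω‖ ^ 2 := by ring
      calc |Z.2.2| = |(Z.2.2 + inner ℝ Z.1 ω + Z.2.1 * ‖ω‖ ^ 2) - inner ℝ Z.1 ω -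
          Z.2.1 * ‖ω‖ ^ 2| := by rw [← h8]
        _ ≤ |(Z.2.2 + inner ℝ Z.1 ω + Z.2.1 * ‖ω‖ ^ 2) - inner ℝ Z.1 ω| +
          |Z.2.1 * ‖ω‖ ^ 2| := abs_sub _ _
        _ ≤ _ := by
          gcongr
          exact abs_sub _ _
    have h8 : 8 * Real.sqrt m * c1 * 4 ^ k * (2 * Real.sqrt m) = 16 * (m * c1) * 4 ^ k := by
      calc 8 * Real.sqrt m * c1 * 4 ^ k * (2 * Real.sqrt m) =
          16 * ((Real.sqrt m * Real.sqrt m) * c1) * 4 ^ k := by ring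
        _ = _ := by rw [hqq]
    have h9 : c1 * 4 ^ k * (2 * Real.sqrt m) ^ 2 = 4 * (m * c1) * 4 ^ k := by
      calc c1 * 4 ^ k * (2 * Real.sqrt m) ^ 2 =
          4 * ((Real.sqrt m * Real.sqrt m) * c1) * 4 ^ k := by ring
        _ = _ := by rw [hqq]
    rw [h8] at h5
    rw [h9] at h6
    have h11 : 20 * (m * c1) * 4 ^ k ≤ |Z.2.2 + inner ℝ Z.1 ω + Z.2.1 * ‖ω‖ ^ 2| := by
      have h12 : c0 * 4 ^ k = 40 * (m * c1) * 4 ^ k := by rw [hc1m]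
      rw [h12] at ht
      linarith
    refine le_trans ?_ h11
    have h12 : c1 ≤ m * c1 := by
      have : 1 * c1 ≤ m * c1 := by gcongr
      linarith
    have h13 : (2 : ℝ) ^ k ≤ 4 ^ k := pow_le_pow_left₀ (by norm_num) (by norm_num) k
    calc 4 * c1 * 2 ^ k ≤ 20 * (m * c1) * 2 ^ k := by
          have : 4 * c1 ≤ 20 * (m * c1) := by
            have : 0 < m * c1 := by positivity
            linarith
          gcongr
      _ ≤ _ := by gcongr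

private lemma k5_near {m : ℕ} (c1 : ℝ) (hc1 : 0 < c1) (k : ℕ) (Z : X m)
    (hs : c1 * 4 ^ k ≤ |Z.2.1|) : ∃ a : E m, ∀ j : Fin m → ℤ,
    2 * c1 * ‖iv j - a‖ ≤ ‖Lk k (w k j) Z‖ := by
  have h4 : (0 : ℝ) < 4 ^ k := by positivity
  have h42 : (4 : ℝ) ^ k = 2 ^ k * 2 ^ k := by
    rw [← mul_pow]
    norm_num
  have hs0 : 0 < |Z.2.1| := lt_of_lt_of_le (by positivity) hs
  have hsne : Z.2.1 ≠ 0 := abs_pos.1 hs0
  refine ⟨-((2 ^ k / (2 * Z.2.1)) • Z.1), ?_⟩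
  intro j
  refine le_trans ?_ (k5_fst (Lk k (w k j) Z))
  have h5 : (Lk k (w k j) Z).1 = (2 * Z.2.1 / 4 ^ k) • (iv j - -((2 ^ k / (2 * Z.2.1)) • Z.1)) := by
    simp only [Lk, w]
    rw [sub_neg_eq_add, smul_add, smul_add, smul_smul, smul_smul, smul_smul, add_comm]
    congr 1
    · congr 1
      rw [h42, inv_pow]
      field_simp
    · congr 1
      rw [h42, inv_pow]
      field_simp
  rw [h5, norm_smul, Real.norm_eq_abs, abs_div, abs_mul, abs_two, abs_of_pos h4]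
  refine mul_le_mul_of_nonneg_right ?_ (norm_nonneg _)
  rw [le_div_iff₀ h4]
  linarith

/-- sum over the directions -/
theorem dirsum (m : ℕ) (hm : 1 ≤ m) (N : ℕ) (c0 : ℝ) (hc0 : 0 < c0) : ∃ (C : ℝ) (M : ℕ), 0 < C ∧
    ∀ (k : ℕ) (Z : X m), c0 * 4 ^ k ≤ ‖Z‖ → ‖Z‖ ≤ c0⁻¹ * 4 ^ k →
    ∑ j ∈ J m k, 1 / (1 + ‖Lk k (w k j) Z‖) ^ M ≤ C / (1 + abs (ny Z - |rad Z|)) ^ N := by
  have hm0 : (0 : ℝ) < m := by exact_mod_cast hm
  set c1 : ℝ := c0 / (40 * m) with hc1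
  have hc1p : 0 < c1 := by positivity
  obtain ⟨C1, hC1, hC1J⟩ := k5_pi m (2 * c1) (by positivity)
  set c3 : ℝ := c0 / (10 * m) with hc3
  have hc3p : 0 < c3 := by positivity
  set K1 : ℝ := 1 + c0⁻¹ * (1 + 4 * c0⁻¹) with hK1
  have hK1p : 0 < K1 := by positivity
  refine ⟨K1 ^ N * (C1 + (5 / c3) ^ m), 2 * N + 2 * m, by positivity, ?_⟩
  intro k Z h1 h2
  have hmain : ∑ j ∈ J m k, 1 / (1 + ‖Lk k (w k j) Z‖) ^ (2 * m) ≤ C1 + (5 / c3) ^ m := by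
    by_cases hs : c1 * 4 ^ k ≤ |Z.2.1|
    · obtain ⟨a, ha⟩ := k5_near c1 hc1p k Z hs
      have h3 : ∑ j ∈ J m k, 1 / (1 + ‖Lk k (w k j) Z‖) ^ (2 * m) ≤
          ∑ j ∈ J m k, 1 / (1 + 2 * c1 * ‖iv j - a‖) ^ (2 * m) := by
        refine Finset.sum_le_sum fun j _ => ?_
        refine one_div_le_one_div_of_le (by positivity) ?_
        refine pow_le_pow_left₀ (by positivity) ?_ _
        have := ha j
        linarith
      have h4 : (0 : ℝ) ≤ (5 / c3) ^ m := by positivity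
      linarith [h3.trans (hC1J k a)]
    · push Not at hs
      have h3 : ∀ j ∈ J m k, 1 / (1 + ‖Lk k (w k j) Z‖) ^ (2 * m) ≤ 1 / (c3 * 2 ^ k) ^ m := by
        intro j hj
        have h4 := k5_far hm c0 hc0 k Z h1 hs (w k j) (norm_w_le k j hj)
        refine one_div_le_one_div_of_le (by positivity) ?_
        have h5 : c3 * 2 ^ k ≤ 1 + ‖Lk k (w k j) Z‖ := by linarith
        have h6 : (1 : ℝ) ≤ 1 + ‖Lk k (w k j) Z‖ := by
          have := norm_nonneg (Lk k (w k j) Z)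
          linarith
        calc (c3 * 2 ^ k) ^ m ≤ (1 + ‖Lk k (w k j) Z‖) ^ m :=
              pow_le_pow_left₀ (by positivity) h5 _
          _ ≤ _ := pow_le_pow_right₀ h6 (by omega)
      have h4 : ∑ j ∈ J m k, 1 / (1 + ‖Lk k (w k j) Z‖) ^ (2 * m) ≤ (5 / c3) ^ m := by
        refine (Finset.sum_le_sum h3).trans ?_
        rw [Finset.sum_const, nsmul_eq_mul]
        calc ((J m k).card : ℝ) * (1 / (c3 * 2 ^ k) ^ m) ≤
            5 ^ m * 2 ^ (k * m) * (1 / (c3 * 2 ^ k) ^ m) := by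
              gcongr
              exact card_J_le m k
          _ = (5 / c3) ^ m := by
              have h5 : (c3 * (2 : ℝ) ^ k) ^ m = c3 ^ m * 2 ^ (k * m) := by
                rw [mul_pow, pow_mul]
              have h6 : (5 / c3) ^ m = 5 ^ m / c3 ^ m := div_pow _ _ _
              have h7 : (0 : ℝ) < c3 ^ m := by positivity
              have h8 : (0 : ℝ) < 2 ^ (k * m) := by positivity
              rw [h5, h6]
              generalize c3 ^ m = u at h7 ⊢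
              generalize (2 : ℝ) ^ (k * m) = v at h8 ⊢
              field_simp
      linarith
  have hden : 0 < 1 + abs (ny Z - |rad Z|) := by positivity
  have hterm : ∀ j ∈ J m k, 1 / (1 + ‖Lk k (w k j) Z‖) ^ (2 * N + 2 * m) ≤
      K1 ^ N / (1 + abs (ny Z - |rad Z|)) ^ N * (1 / (1 + ‖Lk k (w k j) Z‖) ^ (2 * m)) := by
    intro j _
    have h3 := k5_defect c0 hc0 k Z h1 h2 (w k j)
    rw [← hK1] at h3
    have h4 : (1 + abs (ny Z - |rad Z|)) ^ N ≤ K1 ^ N * (1 + ‖Lk k (w k j) Z‖) ^ (2 * N) := by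
      calc (1 + abs (ny Z - |rad Z|)) ^ N ≤ (K1 * (1 + ‖Lk k (w k j) Z‖) ^ 2) ^ N :=
            pow_le_pow_left₀ hden.le h3 N
        _ = _ := by rw [mul_pow, ← pow_mul]
    have h5 : 1 / (1 + ‖Lk k (w k j) Z‖) ^ (2 * N) ≤
        K1 ^ N / (1 + abs (ny Z - |rad Z|)) ^ N := by
      rw [div_le_div_iff₀ (by positivity) (by positivity), one_mul]
      exact h4
    calc 1 / (1 + ‖Lk k (w k j) Z‖) ^ (2 * N + 2 * m) =
        1 / (1 + ‖Lk k (w k j) Z‖) ^ (2 * N) * (1 / (1 + ‖Lk k (w k j) Z‖) ^ (2 * m)) := by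
          rw [pow_add, one_div_mul_one_div]
      _ ≤ _ := mul_le_mul_of_nonneg_right h5 (by positivity)
  refine (Finset.sum_le_sum hterm).trans ?_
  rw [← Finset.mul_sum]
  calc K1 ^ N / (1 + abs (ny Z - |rad Z|)) ^ N *
      ∑ j ∈ J m k, 1 / (1 + ‖Lk k (w k j) Z‖) ^ (2 * m) ≤
      K1 ^ N / (1 + abs (ny Z - |rad Z|)) ^ N * (C1 + (5 / c3) ^ m) :=
        mul_le_mul_of_nonneg_left hmain (by positivity)
    _ = _ := by ring

end Pool.LibST49
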