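import Pool.Agent.LibST49.Defs

/-
PLAN (P2, MEDIUM). u(x) = Real.smoothTransition (x+1) - Real.smoothTransition x: smooth, values in [0,1] (smoothTransition is monotone), zero for |x| >= 1, and SUM_(j in Z) u(x - j) = 1
(telescoping; for fixed x at most two nonzero terms, j = floor x and floor x + 1). χ(z) = PROD_i u(z i). HasSum over Fin m -> Z: the function is supported in the finite set of j with
j i in {floor (z i), floor (z i) + 1} (Fintype.piFinset), and Finset.prod_univ_sum gives the product of the sums = 1 (hasSum_sum_of_ne_finset_zero).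
-/

set_option autoImplicit false

noncomputable section

open MeasureTheory Metric Set Filter

namespace Pool.LibST49

open Pool.LibSR53

/-- the one-dimensional function -/
private def P2u (x : ℝ) : ℝ := Real.smoothTransition (x + 1) - Real.smoothTransition x

private theorem P2u_smooth : ContDiff ℝ (⊤ : ℕ∞) P2u :=
  (Real.smoothTransition.contDiff.comp (contDiff_id.add contDiff_const)).sub
    Real.smoothTransition.contDiff

private theorem P2u_nonneg (x : ℝ) : 0 ≤ P2u x :=
  sub_nonneg.2 (Real.smoothTransition.monotone (by linarith))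

private theorem P2u_le_one (x : ℝ) : P2u x ≤ 1 := by
  have h1 := Real.smoothTransition.le_one (x + 1)
  have h2 := Real.smoothTransition.nonneg x
  show Real.smoothTransition (x + 1) - Real.smoothTransition x ≤ 1
  linarith

private theorem P2u_zero {x : ℝ} (hx : 1 ≤ |x|) : P2u x = 0 := by
  show Real.smoothTransition (x + 1) - Real.smoothTransition x = 0
  rcases le_abs.1 hx with h | h
  · rw [Real.smoothTransition.one_of_one_le h, Real.smoothTransition.one_of_one_le (by linarith), sub_self]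
  · rw [Real.smoothTransition.zero_of_nonpos (by linarith : x ≤ 0),
      Real.smoothTransition.zero_of_nonpos (by linarith : x + 1 ≤ 0), sub_self]

private theorem P2u_zero' (x : ℝ) (j : ℤ) (hj : j ∉ ({⌊x⌋, ⌊x⌋ + 1} : Finset ℤ)) : P2u (x - j) = 0 := by
  rw [Finset.mem_insert, Finset.mem_singleton, not_or] at hj
  apply P2u_zero
  have h1 := Int.floor_le x
  have h2 := Int.lt_floor_add_one x
  rcases lt_or_gt_of_ne hj.1 with h | h
  · have h3 : (j : ℝ) + 1 ≤ ⌊x⌋ := by exact_mod_cast h
    rw [abs_of_nonneg (by linarith)]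
    linarith
  · have h4 : ⌊x⌋ + 2 ≤ j := by omega
    have h3 : (⌊x⌋ : ℝ) + 2 ≤ j := by exact_mod_cast h4
    rw [abs_of_nonpos (by linarith)]
    linarith

private theorem P2u_sum (x : ℝ) : ∑ j ∈ ({⌊x⌋, ⌊x⌋ + 1} : Finset ℤ), P2u (x - j) = 1 := by
  have hne : ⌊x⌋ ≠ ⌊x⌋ + 1 := by omega
  rw [Finset.sum_pair hne]
  have h1 := Int.floor_le x
  have h2 := Int.lt_floor_add_one x
  show Real.smoothTransition (x - ⌊x⌋ + 1) - Real.smoothTransition (x - ⌊x⌋) +
    (Real.smoothTransition (x - ((⌊x⌋ + 1 : ℤ) : ℝ) + 1) - Real.smoothTransition (x - ((⌊x⌋ + 1 : ℤ) : ℝ))) = 1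
  have h3 : x - ((⌊x⌋ + 1 : ℤ) : ℝ) + 1 = x - ⌊x⌋ := by
    push_cast
    ring
  rw [h3, Real.smoothTransition.one_of_one_le (by linarith : 1 ≤ x - ⌊x⌋ + 1),
    Real.smoothTransition.zero_of_nonpos (by push_cast; linarith : x - ((⌊x⌋ + 1 : ℤ) : ℝ) ≤ 0)]
  ring

/-- a smooth partition of unity by integer translates -/
theorem exists_Pu (m : ℕ) : ∃ χ : E m → ℝ, Pu χ := by
  refine ⟨fun z => ∏ i, P2u (z i), ⟨⟨?_, ?_⟩, ?_, ?_⟩⟩
  · refine contDiff_prod fun i _ => ?_
    have h : ContDiff ℝ (⊤ : ℕ∞) fun z : E m => z i :=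
      (EuclideanSpace.proj i : E m →L[ℝ] ℝ).contDiff
    exact P2u_smooth.comp h
  · intro z hz i
    by_contra h
    rw [not_lt] at h
    exact hz (Finset.prod_eq_zero (Finset.mem_univ i) (P2u_zero h))
  · intro z
    exact ⟨Finset.prod_nonneg fun i _ => P2u_nonneg _,
      Finset.prod_le_one (fun i _ => P2u_nonneg _) fun i _ => P2u_le_one _⟩
  · intro z
    have h1 := hasSum_sum_of_ne_finset_zero (L := SummationFilter.unconditional _)
      (s := Fintype.piFinset fun i => ({⌊z i⌋, ⌊z i⌋ + 1} : Finset ℤ))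
      (f := fun j : Fin m → ℤ => ∏ i, P2u (z i - j i)) (by
        intro j hj
        rw [Fintype.mem_piFinset] at hj
        push Not at hj
        obtain ⟨i, hi⟩ := hj
        exact Finset.prod_eq_zero (Finset.mem_univ i) (P2u_zero' (z i) (j i) hi))
    have h2 : ∑ b ∈ Fintype.piFinset (fun i => ({⌊z i⌋, ⌊z i⌋ + 1} : Finset ℤ)), ∏ i, P2u (z i - b i) = 1 := by
      rw [← Finset.prod_univ_sum (fun i => ({⌊z i⌋, ⌊z i⌋ + 1} : Finset ℤ)) (fun i (j : ℤ) => P2u (z i - j))]
      exact Finset.prod_eq_one fun i _ => P2u_sum (z i)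
    rw [h2] at h1
    exact h1

end Pool.LibST49
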