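import Pool.Agent.LibST49.SD
import Pool.Agent.LibST49.K5
import Pool.Agent.LibST49.A2
import Pool.Agent.LibST49.P2

/-
PLAN (K7, STRONG). Fix κ, j in J m κ, Z, s0; ρ := -s0 - rad Z (radius of Y := Lam (x,-s0) - Z for every x). Y = Lam (x - y0, ρ) where y0 is the centre of Z (Z = Lam (y0, rad Z); surjectivity of Lam),
so by translation invariance of volume it is enough to bound INT |Kb (cb χ b κ j) (Lam (z, ρ))| dz. k := least k >= κ with |ρ| <= 4^k; 2^((k-κ)m) <= C (1+|ρ|/4^κ)^(m/2).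
Region I, ‖Lam (z,ρ)‖ <= 8 4^k: subdec (χ2 = χ, a = iv j) with N = m+4, |4^-k s| <= 8: <= C 2^(-km) SUM_(j'' near) (1+‖Lk k w'' (Lam (z,ρ))‖)^-(m+4); number of near j'' <= C 2^((k-κ)m); and for each j''
INT dz (1+‖Lk k w'' (Lam (z,ρ))‖)^-(m+4) <= C 2^(km): with z = (z', z_d), s = (ρ - z_d)/2, t = (ρ+z_d)/2, B = 2^-k (z' + 2 s w), A = t + <z',w> + s|w|^2: for fixed z_d substitute z' -> B
(Jacobian 2^(km)); A = (affine function of z_d with slope (1+|w|^2)/2 >= 1/2) + 2^k<B,w>; integrate in z_d, then B.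
Region II, ‖Y‖ > 8 4^k: 4^k' <= ‖Y‖ < 4^(k'+1) with k' > k >= κ: subdec at scale k' (exponent >= M of dirsum with N = m+4, c0 = 1/4, |4^-k' s| <= 4) and dirsum: |Kb| <= C (1+|ny Y - |ρ||)^-(m+4);
‖Y‖ <= ny Y + |ρ|, |ρ| <= 4^k <= ‖Y‖/8, so ny - |ρ| >= 3‖Y‖/4 >= c|z| (ny (Lam (z,ρ)) = ‖z‖, ‖z‖ <= 3‖Y‖): integrable over R^(m+1) with constant C. Sum: <= C 2^((k-κ)m) + C.
Second statement: Kb_sum with κ = 0 and card (J m 0) = 5^m.
-/

set_option autoImplicit false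

noncomputable section

open MeasureTheory Metric Set Filter

namespace Pool.LibST49

open Pool.LibSR53

private lemma Lam_surj {m : ℕ} (Z : X m) : ∃ y0 : E (m + 1), Lam (y0, rad Z) = Z := by
  refine ⟨WithLp.toLp 2 (Fin.snoc (fun i => Z.1 i) (Z.2.2 - Z.2.1) : Fin (m + 1) → ℝ), ?_⟩
  unfold Lam rad ini las
  refine Prod.ext ?_ (Prod.ext ?_ ?_)
  · ext i
    simp
  · simp
    ring
  · simp
    ring

private lemma mp_split (m : ℕ) :
    MeasurePreserving (fun z : E (m + 1) => ((ini z, las z) : E m × ℝ)) := by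
  have h1 : MeasurePreserving (WithLp.ofLp : E (m + 1) → (Fin (m + 1) → ℝ)) :=
    PiLp.volume_preserving_ofLp _
  have h2 : MeasurePreserving
      (MeasurableEquiv.piFinSuccAbove (fun _ : Fin (m + 1) => ℝ) (Fin.last m)) :=
    volume_preserving_piFinSuccAbove (fun _ => ℝ) (Fin.last m)
  have h3 : MeasurePreserving (Prod.swap : ℝ × (Fin m → ℝ) → (Fin m → ℝ) × ℝ) :=
    Measure.measurePreserving_swap
  have h4 : MeasurePreserving (WithLp.toLp 2 : (Fin m → ℝ) → E m) :=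
    PiLp.volume_preserving_toLp _
  have h5 := (h4.prod (MeasurePreserving.id (volume : Measure ℝ))).comp (h3.comp (h2.comp h1))
  have h6 : (fun z : E (m + 1) => ((ini z, las z) : E m × ℝ)) =
      (Prod.map (WithLp.toLp 2) id) ∘ (Prod.swap ∘
        ((MeasurableEquiv.piFinSuccAbove (fun _ : Fin (m + 1) => ℝ) (Fin.last m)) ∘
          WithLp.ofLp)) := by
    ext z
    · simp [ini, MeasurableEquiv.piFinSuccAbove, Fin.init]
    · simp [las, MeasurableEquiv.piFinSuccAbove]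
  rw [h6]
  exact h5

private lemma lint_smul {F : Type*} [NormedAddCommGroup F] [NormedSpace ℝ F] [MeasurableSpace F]
    [BorelSpace F] [FiniteDimensional ℝ F] (μ : Measure F) [μ.IsAddHaarMeasure] {r : ℝ}
    (hr : 0 < r) {f : F → ENNReal} (hf : Measurable f) :
    ∫⁻ x, f (r • x) ∂μ = ENNReal.ofReal ((r ^ Module.finrank ℝ F)⁻¹) * ∫⁻ x, f x ∂μ := by
  rw [← lintegral_map hf (measurable_const_smul r), Measure.map_addHaar_smul μ hr.ne',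
    lintegral_smul_measure, abs_of_pos (by positivity), smul_eq_mul]

private lemma fin_int {F : Type*} [NormedAddCommGroup F] [NormedSpace ℝ F] [MeasurableSpace F]
    [BorelSpace F] [FiniteDimensional ℝ F] (μ : Measure F) [μ.IsAddHaarMeasure] (n : ℕ)
    (hn : Module.finrank ℝ F < n) :
    ∃ C : ℝ, 0 < C ∧ ∫⁻ x, ENNReal.ofReal (1 / (1 + ‖x‖) ^ n) ∂μ ≤ ENNReal.ofReal C := by
  have h := finite_integral_one_add_norm (μ := μ) (r := (n : ℝ)) (by exact_mod_cast hn)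
  have h1 : ∀ x : F, ENNReal.ofReal (1 / (1 + ‖x‖) ^ n) =
      ENNReal.ofReal ((1 + ‖x‖) ^ (-(n : ℝ))) := by
    intro x
    rw [Real.rpow_neg (by positivity), Real.rpow_natCast, one_div]
  simp_rw [h1]
  refine ⟨(∫⁻ x, ENNReal.ofReal ((1 + ‖x‖) ^ (-(n : ℝ))) ∂μ).toReal + 1, by positivity, ?_⟩
  calc _ = ENNReal.ofReal (∫⁻ x, ENNReal.ofReal ((1 + ‖x‖) ^ (-(n : ℝ))) ∂μ).toReal :=
        (ENNReal.ofReal_toReal h.ne).symm
    _ ≤ _ := ENNReal.ofReal_le_ofReal (by linarith)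

private lemma int1 : ∃ C : ℝ, 0 < C ∧ ∀ α β : ℝ, 1 / 2 ≤ α →
    ∫⁻ t : ℝ, ENNReal.ofReal (1 / (1 + |α * t + β|) ^ 2) ≤ ENNReal.ofReal C := by
  obtain ⟨C, hC, h⟩ := fin_int (volume : Measure ℝ) 2 (by simp)
  refine ⟨2 * C, by positivity, fun α β hα => ?_⟩
  have hm : Measurable (fun u : ℝ => ENNReal.ofReal (1 / (1 + |u + β|) ^ 2)) := by fun_prop
  have h1 := lint_smul (volume : Measure ℝ) (r := α) (by linarith) hm
  simp only [smul_eq_mul] at h1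
  rw [h1, lintegral_add_right_eq_self (fun u : ℝ => ENNReal.ofReal (1 / (1 + |u|) ^ 2)) β,
    ENNReal.ofReal_mul (by norm_num)]
  refine mul_le_mul' (ENNReal.ofReal_le_ofReal ?_) h
  rw [Module.finrank_self, pow_one]
  exact inv_le_of_inv_le₀ (by norm_num) (by linarith)

private def HH {m : ℕ} (k : ℕ) (c : E m) (ρ : ℝ) (zd : ℝ) (x : E m) : ℝ :=
  1 / (1 + ‖x‖) ^ (m + 2) * (1 / (1 + |(1 + ‖c‖ ^ 2) / 2 * zd +
      (ρ * (1 - ‖c‖ ^ 2) / 2 + 2 ^ k * inner ℝ x c)|) ^ 2)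

private lemma cont_HH {m : ℕ} (k : ℕ) (c : E m) (ρ : ℝ) :
    Continuous (fun p : ℝ × E m => HH k c ρ p.1 p.2) := by
  unfold HH
  refine Continuous.mul (Continuous.div continuous_const (by fun_prop) (fun p => by positivity))
    (Continuous.div continuous_const (by fun_prop) (fun p => by positivity))

private lemma meas_HH {m : ℕ} (k : ℕ) (c : E m) (ρ : ℝ) :
    Measurable (fun p : ℝ × E m => ENNReal.ofReal (HH k c ρ p.1 p.2)) :=
  (cont_HH k c ρ).measurable.ennreal_ofReal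

private lemma meas_HH2 {m : ℕ} (k : ℕ) (c : E m) (ρ zd : ℝ) :
    Measurable (fun x : E m => ENNReal.ofReal (HH k c ρ zd x)) :=
  (((cont_HH k c ρ).comp (f := fun x : E m => ((zd, x) : ℝ × E m)) (by fun_prop))).measurable.ennreal_ofReal

private lemma meas_G {m : ℕ} (k : ℕ) (c : E m) (ρ : ℝ) :
    Measurable (fun p : E m × ℝ =>
      ENNReal.ofReal (HH k c ρ p.2 ((2 : ℝ)⁻¹ ^ k • (p.1 + (ρ - p.2) • c)))) :=
  ((cont_HH k c ρ).comp (f := fun p : E m × ℝ =>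
    ((p.2, (2 : ℝ)⁻¹ ^ k • (p.1 + (ρ - p.2) • c)) : ℝ × E m)) (by fun_prop)).measurable.ennreal_ofReal

private lemma HH_pt {m : ℕ} (k : ℕ) (c : E m) (ρ : ℝ) (z : E (m + 1)) :
    1 / (1 + ‖Lk k c (Lam (z, ρ))‖) ^ (m + 4) ≤
      HH k c ρ (las z) ((2 : ℝ)⁻¹ ^ k • (ini z + (ρ - las z) • c)) := by
  have e1 : (2 : ℝ)⁻¹ ^ k • (ini z + (ρ - las z) • c) = (Lk k c (Lam (z, ρ))).1 := by
    simp only [Lk, Lam]
    congr 3
    ring
  have e2 : (1 + ‖c‖ ^ 2) / 2 * las z + (ρ * (1 - ‖c‖ ^ 2) / 2 +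
      2 ^ k * inner ℝ ((2 : ℝ)⁻¹ ^ k • (ini z + (ρ - las z) • c)) c) =
      (Lk k c (Lam (z, ρ))).2.2 := by
    simp only [Lk, Lam]
    rw [real_inner_smul_left, inner_add_left, real_inner_smul_left, real_inner_self_eq_norm_sq,
      ← mul_assoc, ← mul_pow]
    norm_num
    ring
  unfold HH
  rw [e2, e1]
  have n1 : ‖(Lk k c (Lam (z, ρ))).1‖ ≤ ‖Lk k c (Lam (z, ρ))‖ := norm_fst_le _
  have n2 : |(Lk k c (Lam (z, ρ))).2.2| ≤ ‖Lk k c (Lam (z, ρ))‖ :=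
    (norm_snd_le (Lk k c (Lam (z, ρ))).2).trans (norm_snd_le _)
  rw [one_div_mul_one_div]
  refine one_div_le_one_div_of_le (by positivity) ?_
  have e5 : (1 + ‖Lk k c (Lam (z, ρ))‖) ^ (m + 4) =
      (1 + ‖Lk k c (Lam (z, ρ))‖) ^ (m + 2) * (1 + ‖Lk k c (Lam (z, ρ))‖) ^ 2 := by
    rw [← pow_add]
  rw [e5]
  exact mul_le_mul (pow_le_pow_left₀ (by positivity) (by linarith) _)
    (pow_le_pow_left₀ (by positivity) (by linarith) _) (by positivity) (by positivity)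

private lemma intL (m : ℕ) : ∃ C : ℝ, 0 < C ∧ ∀ (k : ℕ) (c : E m) (ρ : ℝ),
    ∫⁻ z : E (m + 1), ENNReal.ofReal (1 / (1 + ‖Lk k c (Lam (z, ρ))‖) ^ (m + 4)) ≤
      ENNReal.ofReal (C * 2 ^ (k * m)) := by
  obtain ⟨C1, hC1, h1⟩ := fin_int (volume : Measure (E m)) (m + 2) (by simp)
  obtain ⟨C2, hC2, h2⟩ := int1
  refine ⟨C1 * C2, by positivity, fun k c ρ => ?_⟩
  calc ∫⁻ z : E (m + 1), ENNReal.ofReal (1 / (1 + ‖Lk k c (Lam (z, ρ))‖) ^ (m + 4))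
      ≤ ∫⁻ z : E (m + 1), ENNReal.ofReal
          (HH k c ρ (las z) ((2 : ℝ)⁻¹ ^ k • (ini z + (ρ - las z) • c))) :=
        lintegral_mono fun z => ENNReal.ofReal_le_ofReal (HH_pt k c ρ z)
    _ = ∫⁻ p : E m × ℝ, ENNReal.ofReal
          (HH k c ρ p.2 ((2 : ℝ)⁻¹ ^ k • (p.1 + (ρ - p.2) • c))) :=
        (mp_split m).lintegral_comp (meas_G k c ρ)
    _ = ∫⁻ zd : ℝ, ∫⁻ x : E m, ENNReal.ofReal
          (HH k c ρ zd ((2 : ℝ)⁻¹ ^ k • (x + (ρ - zd) • c))) := by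
        rw [Measure.volume_eq_prod, lintegral_prod_symm _ (meas_G k c ρ).aemeasurable]
    _ = ∫⁻ zd : ℝ, ENNReal.ofReal (2 ^ (k * m)) *
          ∫⁻ x : E m, ENNReal.ofReal (HH k c ρ zd x) := by
        congr 1
        ext zd
        have e3 := lint_smul (volume : Measure (E m)) (r := (2 : ℝ)⁻¹ ^ k) (by positivity)
          (meas_HH2 k c ρ zd)
        rw [lintegral_add_right_eq_self
          (fun x : E m => ENNReal.ofReal (HH k c ρ zd ((2 : ℝ)⁻¹ ^ k • x))), e3]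
        congr 2
        rw [finrank_euclideanSpace, Fintype.card_fin, ← pow_mul, inv_pow, inv_inv]
    _ = ENNReal.ofReal (2 ^ (k * m)) * ∫⁻ zd : ℝ, ∫⁻ x : E m, ENNReal.ofReal (HH k c ρ zd x) :=
        lintegral_const_mul' _ _ ENNReal.ofReal_ne_top
    _ = ENNReal.ofReal (2 ^ (k * m)) *
          ∫⁻ x : E m, ∫⁻ zd : ℝ, ENNReal.ofReal (HH k c ρ zd x) := by
        rw [lintegral_lintegral_swap (meas_HH k c ρ).aemeasurable]
    _ ≤ ENNReal.ofReal (2 ^ (k * m)) *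
          ∫⁻ x : E m, ENNReal.ofReal (1 / (1 + ‖x‖) ^ (m + 2)) * ENNReal.ofReal C2 := by
        refine mul_le_mul' le_rfl (lintegral_mono fun x => ?_)
        have e4 : ∀ zd : ℝ, ENNReal.ofReal (HH k c ρ zd x) =
            ENNReal.ofReal (1 / (1 + ‖x‖) ^ (m + 2)) *
            ENNReal.ofReal (1 / (1 + |(1 + ‖c‖ ^ 2) / 2 * zd +
              (ρ * (1 - ‖c‖ ^ 2) / 2 + 2 ^ k * inner ℝ x c)|) ^ 2) := by
          intro zd
          rw [HH, ENNReal.ofReal_mul (by positivity)]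
        simp_rw [e4]
        rw [lintegral_const_mul' _ _ ENNReal.ofReal_ne_top]
        refine mul_le_mul' le_rfl (h2 _ _ ?_)
        have := sq_nonneg ‖c‖
        linarith
    _ = ENNReal.ofReal (2 ^ (k * m)) *
          ((∫⁻ x : E m, ENNReal.ofReal (1 / (1 + ‖x‖) ^ (m + 2))) * ENNReal.ofReal C2) := by
        rw [lintegral_mul_const' _ _ ENNReal.ofReal_ne_top]
    _ ≤ ENNReal.ofReal (2 ^ (k * m)) * (ENNReal.ofReal C1 * ENNReal.ofReal C2) :=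
        mul_le_mul' le_rfl (mul_le_mul' h1 le_rfl)
    _ = ENNReal.ofReal (C1 * C2 * 2 ^ (k * m)) := by
        rw [← ENNReal.ofReal_mul hC1.le, ← ENNReal.ofReal_mul (by positivity)]
        congr 1
        ring

private lemma near_card (m : ℕ) : ∃ C : ℝ, 0 < C ∧ ∀ (κ k : ℕ), κ ≤ k → ∀ (j : Fin m → ℤ)
    (S : Finset (Fin m → ℤ)), (∀ j' ∈ S, ‖w k j' - (2 : ℝ)⁻¹ ^ κ • (iv j : E m)‖ ≤
      Real.sqrt m * (1 + 1) * (2 : ℝ)⁻¹ ^ κ) → (S.card : ℝ) ≤ C * 2 ^ ((k - κ) * m) := by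
  obtain ⟨n, hn⟩ : ∃ n : ℕ, Real.sqrt m * (1 + 1) ≤ n := exists_nat_ge _
  refine ⟨(2 * n + 1) ^ m, by positivity, fun κ k hk j S hS => ?_⟩
  have hpow : (2 : ℝ)⁻¹ ^ κ = 2 ^ (k - κ) * (2 : ℝ)⁻¹ ^ k := by
    rw [inv_pow, inv_pow, ← div_eq_mul_inv, pow_sub₀ _ (by norm_num) hk]
    field_simp
  have hsub : S ⊆ Fintype.piFinset (fun i => Finset.Icc
      (2 ^ (k - κ) * j i - n * 2 ^ (k - κ)) (2 ^ (k - κ) * j i + n * 2 ^ (k - κ))) := by
    intro j' hj'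
    rw [Fintype.mem_piFinset]
    intro i
    have h1 := hS j' hj'
    have h2 : |(2 : ℝ)⁻¹ ^ k * (j' i : ℝ) - (2 : ℝ)⁻¹ ^ κ * (j i : ℝ)| ≤
        n * (2 : ℝ)⁻¹ ^ κ := by
      have h3 := PiLp.norm_apply_le (w k j' - (2 : ℝ)⁻¹ ^ κ • (iv j : E m)) i
      have h4 : (w k j' - (2 : ℝ)⁻¹ ^ κ • (iv j : E m)) i =
          (2 : ℝ)⁻¹ ^ k * (j' i : ℝ) - (2 : ℝ)⁻¹ ^ κ * (j i : ℝ) := by
        simp [w, iv]
      rw [h4, Real.norm_eq_abs] at h3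
      refine h3.trans (h1.trans ?_)
      gcongr
    have h5 : |(j' i : ℝ) - 2 ^ (k - κ) * (j i : ℝ)| ≤ n * 2 ^ (k - κ) := by
      rw [hpow] at h2
      have h6 : (2 : ℝ)⁻¹ ^ k * (j' i : ℝ) - 2 ^ (k - κ) * (2 : ℝ)⁻¹ ^ k * (j i : ℝ) =
          (2 : ℝ)⁻¹ ^ k * ((j' i : ℝ) - 2 ^ (k - κ) * (j i : ℝ)) := by ring
      have h7 : (0 : ℝ) < (2 : ℝ)⁻¹ ^ k := by positivity
      rw [h6, abs_mul, abs_of_pos h7] at h2
      have h8 : (n : ℝ) * (2 ^ (k - κ) * (2 : ℝ)⁻¹ ^ k) =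
          (2 : ℝ)⁻¹ ^ k * (n * 2 ^ (k - κ)) := by ring
      rw [h8] at h2
      exact le_of_mul_le_mul_left h2 h7
    rw [abs_le] at h5
    rw [Finset.mem_Icc]
    constructor
    · have : ((2 ^ (k - κ) * j i - n * 2 ^ (k - κ) : ℤ) : ℝ) ≤ ((j' i : ℤ) : ℝ) := by
        push_cast
        linarith [h5.1]
      exact_mod_cast this
    · have : ((j' i : ℤ) : ℝ) ≤ ((2 ^ (k - κ) * j i + n * 2 ^ (k - κ) : ℤ) : ℝ) := by
        push_cast
        linarith [h5.2]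
      exact_mod_cast this
  have hc := Finset.card_le_card hsub
  rw [Fintype.card_piFinset] at hc
  have h9 : ∀ i : Fin m, (Finset.Icc (2 ^ (k - κ) * j i - (n : ℤ) * 2 ^ (k - κ))
      (2 ^ (k - κ) * j i + n * 2 ^ (k - κ))).card ≤ (2 * n + 1) * 2 ^ (k - κ) := by
    intro i
    rw [Int.card_Icc, Int.toNat_le]
    push_cast
    have : (1 : ℤ) ≤ 2 ^ (k - κ) := one_le_pow₀ (by norm_num)
    linarith
  have h10 := hc.trans (Finset.prod_le_prod' fun i _ => h9 i)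
  rw [Finset.prod_const, Finset.card_univ, Fintype.card_fin, mul_pow, ← pow_mul] at h10
  calc (S.card : ℝ) ≤ (((2 * n + 1) ^ m * 2 ^ ((k - κ) * m) : ℕ) : ℝ) := by exact_mod_cast h10
    _ = (2 * n + 1) ^ m * 2 ^ ((k - κ) * m) := by push_cast; ring

private lemma ar1 {K C1 D p q S t P : ℝ} (h : K ≤ C1 * p * q * S) (hq : q ≤ P) (hC1 : 0 ≤ C1)
    (hD : 0 ≤ D) (hp : 0 ≤ p) (hS : 0 ≤ S) (ht : 0 ≤ t) (hP : 0 ≤ P) :
    K ≤ (C1 * P + D) * p * S + (C1 * P + D) * t := by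
  have e1 : C1 * p * q * S ≤ C1 * p * P * S := by gcongr
  have e2 : 0 ≤ D * p * S := mul_nonneg (mul_nonneg hD hp) hS
  have e3 : 0 ≤ (C1 * P + D) * t := by positivity
  have e4 : (C1 * P + D) * p * S = C1 * p * P * S + D * p * S := by ring
  linarith

private lemma ar2 {K C2 D p q S1 S p' t P T x c : ℝ} (h : K ≤ C2 * p * q * S) (hq : q ≤ P)
    (hq0 : 0 ≤ q) (hp0 : 0 ≤ p)
    (hp1 : p ≤ 1) (hS : S ≤ T) (hS0 : 0 ≤ S) (hT : T ≤ x) (hx : x ≤ c * t) (hC2 : 0 ≤ C2)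
    (hD : 0 ≤ D) (hp' : 0 ≤ p') (hS1 : 0 ≤ S1) (ht : 0 ≤ t) (hc : 0 ≤ c) :
    K ≤ (D + C2 * P * c) * p' * S1 + (D + C2 * P * c) * t := by
  have hP : 0 ≤ P := hq0.trans hq
  have e1 : C2 * p * q * S ≤ C2 * 1 * P * (c * t) := by
    have : S ≤ c * t := hS.trans (hT.trans hx)
    gcongr
  have e2 : 0 ≤ (D + C2 * P * c) * p' * S1 := by positivity
  have e3 : 0 ≤ D * t := mul_nonneg hD ht
  have e4 : (D + C2 * P * c) * t = D * t + C2 * 1 * P * (c * t) := by ring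
  linarith

open scoped Classical in
private lemma pt_bound {m : ℕ} (hm : 1 ≤ m) {v0 v1 : ℝ} {χ : E m → ℝ} (hχ : Pu χ) {b : V m → ℂ}
    (hb : Sb v0 v1 1 b) : ∃ C : ℝ, 0 < C ∧ ∀ (κ k : ℕ), κ ≤ k → ∀ (j : Fin m → ℤ) (ρ : ℝ),
    |ρ| ≤ 4 ^ k → ∀ z : E (m + 1), ‖Kb (cb χ b κ j) (Lam (z, ρ))‖ ≤
      C * (2 : ℝ)⁻¹ ^ (k * m) * (∑ j' ∈ (J m k).filter
          (fun j' => ‖w k j' - (2 : ℝ)⁻¹ ^ κ • (iv j : E m)‖ ≤
            Real.sqrt m * (1 + 1) * (2 : ℝ)⁻¹ ^ κ),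
          1 / (1 + ‖Lk k (w k j') (Lam (z, ρ))‖) ^ (m + 4)) + C * (1 / (1 + ‖z‖) ^ (m + 2)) := by
  obtain ⟨C1, hC1, h1⟩ := subdec hχ hb hχ.toCt zero_le_one (m + 4)
  obtain ⟨Cd, M, hCd, hd⟩ := dirsum m hm (m + 2) (1 / 4) (by norm_num)
  obtain ⟨C2, hC2, h2⟩ := subdec hχ hb hχ.toCt zero_le_one M
  obtain ⟨P9, hP9⟩ : ∃ P : ℝ, P = 9 ^ (4 * (m + 4)) := ⟨_, rfl⟩
  obtain ⟨P5, hP5⟩ : ∃ P : ℝ, P = 5 ^ (4 * M) := ⟨_, rfl⟩
  have hP9p : 0 < P9 := by rw [hP9]; positivity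
  have hP5p : 0 < P5 := by rw [hP5]; positivity
  refine ⟨C1 * P9 + C2 * P5 * (Cd * 2 ^ (m + 2)), by positivity, fun κ k hk j ρ hρ z => ?_⟩
  obtain ⟨Y, hY⟩ : ∃ Y : X m, Y = Lam (z, ρ) := ⟨_, rfl⟩
  rw [← hY]
  have hY21 : |Y.2.1| ≤ ‖Y‖ := (norm_fst_le Y.2).trans (norm_snd_le Y)
  have hz1 : ny Y = ‖z‖ := by rw [hY]; exact ny_Lam (z, ρ)
  have hr1 : rad Y = ρ := by rw [hY]; exact rad_Lam (z, ρ)
  have hterm : (0 : ℝ) ≤ 1 / (1 + ‖z‖) ^ (m + 2) := by positivity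
  have hpm : (0 : ℝ) ≤ (2 : ℝ)⁻¹ ^ (k * m) := by positivity
  rcases le_or_gt ‖Y‖ (8 * 4 ^ k) with hI | hII
  · have h3 := h1 k κ hk (iv j) Y
    have h4 : |(4 : ℝ)⁻¹ ^ k * Y.2.1| ≤ 8 := by
      rw [abs_mul, abs_of_pos (by positivity), inv_pow, inv_mul_le_iff₀ (by positivity)]
      linarith
    have h5 : (1 + |(4 : ℝ)⁻¹ ^ k * Y.2.1|) ^ (4 * (m + 4)) ≤ P9 := by
      rw [hP9]
      exact pow_le_pow_left₀ (by positivity) (by linarith) _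
    exact ar1 h3 h5 hC1.le (by positivity) hpm (Finset.sum_nonneg fun _ _ => by positivity)
      hterm hP9p.le
  · have h4k : (1 : ℝ) ≤ 4 ^ k := one_le_pow₀ (by norm_num)
    obtain ⟨k', hk1, hk2⟩ := exists_nat_pow_near (x := ‖Y‖) (y := (4 : ℝ)) (by linarith)
      (by norm_num)
    have hkk : k ≤ k' := by
      have h6 : (4 : ℝ) ^ k < 4 ^ (k' + 1) := by linarith
      have h7 := (pow_lt_pow_iff_right₀ (by norm_num : (1 : ℝ) < 4)).1 h6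
      omega
    have h3 := h2 k' κ (hk.trans hkk) (iv j) Y
    have h4 : |(4 : ℝ)⁻¹ ^ k' * Y.2.1| ≤ 4 := by
      rw [abs_mul, abs_of_pos (by positivity), inv_pow, inv_mul_le_iff₀ (by positivity)]
      rw [pow_succ] at hk2
      linarith
    have h5 : (1 + |(4 : ℝ)⁻¹ ^ k' * Y.2.1|) ^ (4 * M) ≤ P5 := by
      rw [hP5]
      exact pow_le_pow_left₀ (by positivity) (by linarith) _
    have h6 := hd k' Y (by linarith [show (0 : ℝ) ≤ 4 ^ k' by positivity])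
      (by rw [pow_succ] at hk2; norm_num; linarith)
    have h7 : (2 : ℝ)⁻¹ ^ (k' * m) ≤ 1 := pow_le_one₀ (by norm_num) (by norm_num)
    have h9 : ‖Y‖ ≤ ‖z‖ + |ρ| := by
      have := norm_le_ny Y
      rwa [hz1, hr1] at this
    have h10 : (1 + ‖z‖) / 2 ≤ 1 + abs (ny Y - |rad Y|) := by
      rw [hz1, hr1]
      have := le_abs_self (‖z‖ - |ρ|)
      have := norm_nonneg z
      linarith
    have h11 : Cd / (1 + abs (ny Y - |rad Y|)) ^ (m + 2) ≤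
        Cd * 2 ^ (m + 2) * (1 / (1 + ‖z‖) ^ (m + 2)) := by
      have e1 : Cd * 2 ^ (m + 2) * (1 / (1 + ‖z‖) ^ (m + 2)) =
          Cd / ((1 + ‖z‖) / 2) ^ (m + 2) := by
        rw [div_pow]
        field_simp
      rw [e1]
      exact div_le_div_of_nonneg_left hCd.le (by positivity)
        (pow_le_pow_left₀ (by positivity) h10 _)
    exact ar2 h3 h5 (by positivity) (by positivity) h7
      (Finset.sum_le_sum_of_subset_of_nonneg (Finset.filter_subset _ _)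
        fun _ _ _ => by positivity) (Finset.sum_nonneg fun _ _ => by positivity) h6 h11 hC2.le
      (by positivity) hpm (Finset.sum_nonneg fun _ _ => by positivity) hterm (by positivity)

private lemma choose_k (m κ : ℕ) (ρ : ℝ) : ∃ k : ℕ, κ ≤ k ∧ |ρ| ≤ 4 ^ k ∧
    (2 : ℝ) ^ ((k - κ) * m) ≤ 2 ^ m * (1 + |ρ| / 4 ^ κ) ^ ((m : ℝ) / 2) := by
  have hx0 : 0 ≤ |ρ| / 4 ^ κ := by positivity
  rcases le_or_gt (|ρ|) (4 ^ κ) with h | h
  · refine ⟨κ, le_rfl, h, ?_⟩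
    rw [Nat.sub_self, zero_mul, pow_zero]
    exact one_le_mul_of_one_le_of_one_le (one_le_pow₀ (by norm_num))
      (Real.one_le_rpow (by linarith) (by positivity))
  · have h1 : 1 ≤ |ρ| / 4 ^ κ := by
      rw [one_le_div (by positivity)]
      exact h.le
    obtain ⟨n, hn1, hn2⟩ := exists_nat_pow_near (x := |ρ| / 4 ^ κ) (y := (4 : ℝ)) h1
      (by norm_num)
    refine ⟨κ + (n + 1), by omega, ?_, ?_⟩
    · rw [div_lt_iff₀ (by positivity)] at hn2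
      rw [pow_add]
      linarith
    · rw [Nat.add_sub_cancel_left, add_mul, one_mul, pow_add, mul_comm]
      refine mul_le_mul_of_nonneg_left ?_ (by positivity)
      have h2 : (2 : ℝ) ^ (n * m) = ((4 : ℝ) ^ n) ^ ((m : ℝ) / 2) := by
        have h3 : ((4 : ℝ) ^ n) = ((2 : ℝ) ^ n) ^ (2 : ℝ) := by
          rw [Real.rpow_two, ← pow_mul, mul_comm, pow_mul]
          norm_num
        rw [h3, ← Real.rpow_mul (by positivity), mul_div_cancel₀ _ (by norm_num : (2 : ℝ) ≠ 0),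
          Real.rpow_natCast, ← pow_mul]
      rw [h2]
      exact Real.rpow_le_rpow (by positivity) (by linarith) (by positivity)

private lemma meas_L {m : ℕ} (k : ℕ) (c : E m) (ρ : ℝ) :
    Measurable (fun z : E (m + 1) =>
      ENNReal.ofReal (1 / (1 + ‖Lk k c (Lam (z, ρ))‖) ^ (m + 4))) := by
  have h1 : Continuous (fun z : E (m + 1) => Lk k c (Lam (z, ρ))) :=
    (continuous_Lk k c).comp (continuous_Lam.comp (by fun_prop))
  have h2 : Continuous (fun z : E (m + 1) => 1 / (1 + ‖Lk k c (Lam (z, ρ))‖) ^ (m + 4)) :=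
    Continuous.div continuous_const ((continuous_const.add h1.norm).pow _)
      (fun z => by positivity)
  exact h2.measurable.ennreal_ofReal

private lemma meas_t (m : ℕ) :
    Measurable (fun z : E (m + 1) => ENNReal.ofReal (1 / (1 + ‖z‖) ^ (m + 2))) := by
  have h2 : Continuous (fun z : E (m + 1) => 1 / (1 + ‖z‖) ^ (m + 2)) :=
    Continuous.div continuous_const (by fun_prop) (fun z => by positivity)
  exact h2.measurable.ennreal_ofReal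

private lemma packet_aux {m : ℕ} (hm : 1 ≤ m) {v0 v1 : ℝ} {χ : E m → ℝ} (hχ : Pu χ) {b : V m → ℂ}
    (hb : Sb v0 v1 1 b) : ∃ C : ℝ, 0 < C ∧ ∀ (κ : ℕ) (j : Fin m → ℤ) (ρ : ℝ),
    ∃ D : E (m + 1) → ENNReal, Measurable D ∧
      (∀ z, ‖Kb (cb χ b κ j) (Lam (z, ρ))‖ₑ ≤ D z) ∧
      ∫⁻ z : E (m + 1), D z ≤ ENNReal.ofReal (C * (1 + |ρ| / 4 ^ κ) ^ ((m : ℝ) / 2)) := by
  classical
  obtain ⟨C1, hC1, h1⟩ := pt_bound hm hχ hb
  obtain ⟨C2, hC2, h2⟩ := intL m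
  obtain ⟨C3, hC3, h3⟩ := near_card m
  obtain ⟨C4, hC4, h4⟩ := fin_int (volume : Measure (E (m + 1))) (m + 2) (by simp)
  refine ⟨C3 * 2 ^ m * (C1 * C2) + C1 * C4, by positivity, fun κ j ρ => ?_⟩
  obtain ⟨k, hk, hρ, hk2⟩ := choose_k m κ ρ
  obtain ⟨W, hW⟩ : ∃ W : ℝ, W = (1 + |ρ| / 4 ^ κ) ^ ((m : ℝ) / 2) := ⟨_, rfl⟩
  rw [← hW] at hk2 ⊢
  have hW1 : 1 ≤ W := by
    rw [hW]
    have : 0 ≤ |ρ| / 4 ^ κ := by positivity
    exact Real.one_le_rpow (by linarith) (by positivity)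
  obtain ⟨F, hF⟩ : ∃ F : Finset (Fin m → ℤ), F = (J m k).filter
          (fun j' => ‖w k j' - (2 : ℝ)⁻¹ ^ κ • (iv j : E m)‖ ≤
            Real.sqrt m * (1 + 1) * (2 : ℝ)⁻¹ ^ κ) := ⟨_, rfl⟩
  have hcard : (F.card : ℝ) ≤ C3 * 2 ^ ((k - κ) * m) := by
    refine h3 κ k hk j F fun j' hj' => ?_
    rw [hF, Finset.mem_filter] at hj'
    exact hj'.2
  have hpt : ∀ z : E (m + 1), ‖Kb (cb χ b κ j) (Lam (z, ρ))‖ₑ ≤
      (∑ j' ∈ F, ENNReal.ofReal (C1 * (2 : ℝ)⁻¹ ^ (k * m)) *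
        ENNReal.ofReal (1 / (1 + ‖Lk k (w k j') (Lam (z, ρ))‖) ^ (m + 4))) +
      ENNReal.ofReal C1 * ENNReal.ofReal (1 / (1 + ‖z‖) ^ (m + 2)) := by
    intro z
    have h5 := h1 κ k hk j ρ hρ z
    rw [← hF] at h5
    rw [← ofReal_norm_eq_enorm]
    refine (ENNReal.ofReal_le_ofReal h5).trans_eq ?_
    rw [ENNReal.ofReal_add (by
      have : 0 ≤ ∑ j' ∈ F, 1 / (1 + ‖Lk k (w k j') (Lam (z, ρ))‖) ^ (m + 4) :=
        Finset.sum_nonneg fun _ _ => by positivity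
      positivity) (by positivity), ENNReal.ofReal_mul (p := C1) hC1.le,
      ENNReal.ofReal_mul (by positivity), ENNReal.ofReal_sum_of_nonneg (fun _ _ => by positivity),
      Finset.mul_sum]
  have hpw : C1 * (2 : ℝ)⁻¹ ^ (k * m) * (C2 * 2 ^ (k * m)) = C1 * C2 := by
    have : (2 : ℝ)⁻¹ ^ (k * m) * 2 ^ (k * m) = 1 := by
      rw [← mul_pow]
      norm_num
    calc C1 * (2 : ℝ)⁻¹ ^ (k * m) * (C2 * 2 ^ (k * m)) =
        C1 * C2 * ((2 : ℝ)⁻¹ ^ (k * m) * 2 ^ (k * m)) := by ring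
      _ = C1 * C2 := by rw [this, mul_one]
  refine ⟨fun z => (∑ j' ∈ F, ENNReal.ofReal (C1 * (2 : ℝ)⁻¹ ^ (k * m)) *
      ENNReal.ofReal (1 / (1 + ‖Lk k (w k j') (Lam (z, ρ))‖) ^ (m + 4))) +
      ENNReal.ofReal C1 * ENNReal.ofReal (1 / (1 + ‖z‖) ^ (m + 2)),
    (Finset.measurable_fun_sum _ fun j' _ => (meas_L k (w k j') ρ).const_mul _).add
      ((meas_t m).const_mul _), hpt, ?_⟩
  calc ∫⁻ z : E (m + 1), ((∑ j' ∈ F, ENNReal.ofReal (C1 * (2 : ℝ)⁻¹ ^ (k * m)) *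
          ENNReal.ofReal (1 / (1 + ‖Lk k (w k j') (Lam (z, ρ))‖) ^ (m + 4))) +
        ENNReal.ofReal C1 * ENNReal.ofReal (1 / (1 + ‖z‖) ^ (m + 2)))
      = (∑ j' ∈ F, ENNReal.ofReal (C1 * (2 : ℝ)⁻¹ ^ (k * m)) *
          ∫⁻ z : E (m + 1), ENNReal.ofReal (1 / (1 + ‖Lk k (w k j') (Lam (z, ρ))‖) ^ (m + 4))) +
        ENNReal.ofReal C1 * ∫⁻ z : E (m + 1), ENNReal.ofReal (1 / (1 + ‖z‖) ^ (m + 2)) := by
        rw [lintegral_add_right _ ((meas_t m).const_mul _), lintegral_finset_sum _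
          (fun j' _ => (meas_L k (w k j') ρ).const_mul _),
          lintegral_const_mul' _ _ ENNReal.ofReal_ne_top]
        congr 1
        refine Finset.sum_congr rfl fun j' _ => ?_
        rw [lintegral_const_mul' _ _ ENNReal.ofReal_ne_top]
    _ ≤ (∑ j' ∈ F, ENNReal.ofReal (C1 * (2 : ℝ)⁻¹ ^ (k * m)) * ENNReal.ofReal (C2 * 2 ^ (k * m))) +
        ENNReal.ofReal C1 * ENNReal.ofReal C4 :=
        add_le_add (Finset.sum_le_sum fun j' _ => mul_le_mul' le_rfl (h2 k (w k j') ρ))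
          (mul_le_mul' le_rfl h4)
    _ = ENNReal.ofReal (F.card * (C1 * C2) + C1 * C4) := by
        rw [← ENNReal.ofReal_mul (by positivity), hpw, ← ENNReal.ofReal_mul hC1.le,
          Finset.sum_const, nsmul_eq_mul, ENNReal.ofReal_add (by positivity) (by positivity),
          ENNReal.ofReal_mul (p := (F.card : ℝ)) (by positivity), ENNReal.ofReal_natCast]
    _ ≤ ENNReal.ofReal ((C3 * 2 ^ m * (C1 * C2) + C1 * C4) * W) := by
        refine ENNReal.ofReal_le_ofReal ?_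
        have h6 : (F.card : ℝ) ≤ C3 * (2 ^ m * W) :=
          hcard.trans (mul_le_mul_of_nonneg_left hk2 hC3.le)
        have h7 : (F.card : ℝ) * (C1 * C2) ≤ C3 * (2 ^ m * W) * (C1 * C2) :=
          mul_le_mul_of_nonneg_right h6 (by positivity)
        have h8 : C1 * C4 ≤ C1 * C4 * W := le_mul_of_one_le_right (by positivity) hW1
        nlinarith

private lemma shift_eq {m : ℕ} (f : X m → ℂ) (Z : X m) (s0 : ℝ) :
    ∫⁻ x : E (m + 1), ‖f (Lam (x, -s0) - Z)‖ₑ =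
      ∫⁻ x : E (m + 1), ‖f (Lam (x, -s0 - rad Z))‖ₑ := by
  obtain ⟨y0, hy0⟩ := Lam_surj Z
  have h1 : ∀ x : E (m + 1), Lam (x, -s0) - Z = Lam (x - y0, -s0 - rad Z) := by
    intro x
    conv_lhs => rw [← hy0]
    rw [← Lam_sub]
    rfl
  simp_rw [h1]
  exact lintegral_sub_right_eq_self
    (fun x : E (m + 1) => ‖f (Lam (x, -s0 - rad Z))‖ₑ) y0

private lemma abs_sh {m : ℕ} (Z : X m) (s0 : ℝ) : |(-s0 - rad Z)| ≤ |rad Z| + |s0| := by
  have := abs_sub (-s0) (rad Z)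
  rw [abs_neg] at this
  linarith

/-- L1 norm of a wave packet -/
theorem packet_L1 {m : ℕ} (hm : 1 ≤ m) {v0 v1 : ℝ} {χ : E m → ℝ} (hχ : Pu χ) {b : V m → ℂ}
    (hb : Sb v0 v1 1 b) : ∃ C : ℝ, 0 < C ∧ ∀ (κ : ℕ) (j : Fin m → ℤ), j ∈ J m κ →
    ∀ (Z : X m) (s0 : ℝ), ∫⁻ x : E (m + 1), ‖Kb (cb χ b κ j) (Lam (x, -s0) - Z)‖ₑ ≤
      ENNReal.ofReal (C * (1 + (|rad Z| + |s0|) / 4 ^ κ) ^ ((m : ℝ) / 2)) := by
  obtain ⟨C, hC, h⟩ := packet_aux hm hχ hb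
  refine ⟨C, hC, fun κ j _ Z s0 => ?_⟩
  obtain ⟨D, _, hD2, hD3⟩ := h κ j (-s0 - rad Z)
  rw [shift_eq]
  refine (lintegral_mono hD2).trans (hD3.trans (ENNReal.ofReal_le_ofReal ?_))
  have h2 := abs_sh Z s0
  gcongr

/-- L1 norm of a half wave atom -/
theorem atom_L1 {m : ℕ} (hm : 1 ≤ m) {v0 v1 : ℝ} {b : V m → ℂ} (hb : Sb v0 v1 1 b) :
    ∃ C : ℝ, 0 < C ∧ ∀ (Z : X m) (s0 : ℝ),
      ∫⁻ x : E (m + 1), ‖Kb b (Lam (x, -s0) - Z)‖ₑ ≤
        ENNReal.ofReal (C * (1 + |rad Z| + |s0|) ^ ((m : ℝ) / 2)) := by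
  obtain ⟨χ, hχ⟩ := exists_Pu m
  obtain ⟨C, hC, h⟩ := packet_aux hm hχ hb
  refine ⟨((J m 0).card + 1) * C, by positivity, fun Z s0 => ?_⟩
  choose D hD1 hD2 hD3 using fun j : Fin m → ℤ => h 0 j (-s0 - rad Z)
  obtain ⟨W, hW⟩ : ∃ W : ℝ, W = (1 + |rad Z| + |s0|) ^ ((m : ℝ) / 2) := ⟨_, rfl⟩
  rw [← hW]
  have hW0 : 0 ≤ W := by rw [hW]; positivity
  have hD4 : ∀ j : Fin m → ℤ, ∫⁻ z, D j z ≤ ENNReal.ofReal (C * W) := by
    intro j
    refine (hD3 j).trans (ENNReal.ofReal_le_ofReal ?_)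
    rw [hW, pow_zero, div_one]
    have h2 := abs_sh Z s0
    refine mul_le_mul_of_nonneg_left (Real.rpow_le_rpow (by positivity) (by linarith)
      (by positivity)) hC.le
  rw [shift_eq]
  calc ∫⁻ x : E (m + 1), ‖Kb b (Lam (x, -s0 - rad Z))‖ₑ
      ≤ ∫⁻ x : E (m + 1), ∑ j ∈ J m 0, D j x := by
        refine lintegral_mono fun x => ?_
        rw [Kb_sum hχ hb 0]
        exact (enorm_sum_le _ _).trans (Finset.sum_le_sum fun j _ => hD2 j x)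
    _ = ∑ j ∈ J m 0, ∫⁻ x : E (m + 1), D j x := lintegral_finset_sum _ fun j _ => hD1 j
    _ ≤ ∑ j ∈ J m 0, ENNReal.ofReal (C * W) := Finset.sum_le_sum fun j _ => hD4 j
    _ = ENNReal.ofReal ((J m 0).card * (C * W)) := by
        rw [Finset.sum_const, nsmul_eq_mul,
          ENNReal.ofReal_mul (p := ((J m 0).card : ℝ)) (by positivity), ENNReal.ofReal_natCast]
    _ ≤ ENNReal.ofReal (((J m 0).card + 1) * C * W) := by
        refine ENNReal.ofReal_le_ofReal ?_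
        have : 0 ≤ C * W := by positivity
        nlinarith

end Pool.LibST49
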