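import Pool.Agent.LibST49.A1

/-
Sums over separated points of X m (dimension m + 2): disjoint balls and comparison with an integral.
-/

set_option autoImplicit false

noncomputable section

open MeasureTheory Metric Set Filter

namespace Pool.LibST49

open Pool.LibSR53

private instance haarX (m : ℕ) : (volume : Measure (X m)).IsAddHaarMeasure :=
  Measure.prod.instIsAddHaarMeasure (volume : Measure (E m)) (volume : Measure (ℝ × ℝ))

private lemma finrank_X (m : ℕ) : Module.finrank ℝ (X m) = m + 2 := by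
  rw [Module.finrank_prod, Module.finrank_prod, finrank_euclideanSpace_fin, Module.finrank_self]

private lemma sep_aux (m : ℕ) (δ : ℝ) (hδ : 0 < δ) : ∃ C : ℝ, 0 < C ∧ ∀ T : Finset (X m),
    (∀ p ∈ T, ∀ q ∈ T, p ≠ q → δ ≤ ‖p - q‖) → ∀ a : X m,
    ∑ p ∈ T, 1 / (1 + ‖p - a‖) ^ (m + 3) ≤ C := by
  have hint : Integrable (fun y : X m => (1 + ‖y‖) ^ (-((m : ℝ) + 3))) := by
    apply integrable_one_add_norm
    rw [finrank_X]
    push_cast
    linarith
  have hF : ∀ y : X m, (1 + ‖y‖) ^ (-((m : ℝ) + 3)) = 1 / (1 + ‖y‖) ^ (m + 3) := by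
    intro y
    have h1 : 0 < 1 + ‖y‖ := by positivity
    rw [Real.rpow_neg h1.le, one_div]
    congr 1
    rw [← Real.rpow_natCast]
    push_cast
    rfl
  have hint2 : Integrable (fun y : X m => 1 / (1 + ‖y‖) ^ (m + 3)) := by
    refine hint.congr (Filter.Eventually.of_forall fun y => ?_)
    exact hF y
  obtain ⟨v, hv⟩ : ∃ v, v = (volume : Measure (X m)) (ball 0 (δ / 2)) := ⟨_, rfl⟩
  have hv0 : v ≠ 0 := by
    rw [hv]
    exact (measure_ball_pos _ _ (by positivity)).ne'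
  have hvt : v ≠ ⊤ := by
    rw [hv]
    exact measure_ball_lt_top.ne
  have hvb : ∀ p : X m, (volume : Measure (X m)) (ball p (δ / 2)) = v := by
    intro p
    rw [hv]
    exact Measure.addHaar_ball_center _ _ _
  obtain ⟨L, hL⟩ : ∃ L, L = ∫⁻ y : X m, ENNReal.ofReal (1 / (1 + ‖y‖) ^ (m + 3)) := ⟨_, rfl⟩
  have hLt : L ≠ ⊤ := by
    rw [hL]
    exact (hint2.lintegral_lt_top).ne
  obtain ⟨K, hK⟩ : ∃ K : ℝ, K = (1 + δ) ^ (m + 3) := ⟨_, rfl⟩
  have hK0 : 0 < K := by rw [hK]; positivity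
  refine ⟨(ENNReal.ofReal K * L / v).toReal + 1, by positivity, ?_⟩
  intro T hT a
  have hpt : ∀ p : X m, ∀ y ∈ ball p (δ / 2),
      ENNReal.ofReal (1 / (1 + ‖p - a‖) ^ (m + 3)) ≤
        ENNReal.ofReal K * ENNReal.ofReal (1 / (1 + ‖y - a‖) ^ (m + 3)) := by
    intro p y hy
    rw [← ENNReal.ofReal_mul hK0.le]
    apply ENNReal.ofReal_le_ofReal
    rw [mul_one_div, div_le_div_iff₀ (by positivity) (by positivity), one_mul, hK, ← mul_pow]
    apply pow_le_pow_left₀ (by positivity)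
    have h1 : ‖y - a‖ ≤ ‖y - p‖ + ‖p - a‖ := by
      have : y - a = (y - p) + (p - a) := by abel
      rw [this]
      exact norm_add_le _ _
    have h2 : ‖y - p‖ < δ / 2 := by
      rw [← dist_eq_norm]
      exact hy
    nlinarith [norm_nonneg (p - a)]
  have hdisj : (T : Set (X m)).PairwiseDisjoint (fun p => ball p (δ / 2)) := by
    intro p hp q hq hpq
    apply ball_disjoint_ball
    rw [dist_eq_norm]
    have := hT p hp q hq hpq
    linarith
  have key : (∑ p ∈ T, ENNReal.ofReal (1 / (1 + ‖p - a‖) ^ (m + 3))) * v ≤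
      ENNReal.ofReal K * L := by
    rw [Finset.sum_mul]
    calc ∑ p ∈ T, ENNReal.ofReal (1 / (1 + ‖p - a‖) ^ (m + 3)) * v
        = ∑ p ∈ T, ∫⁻ _ in ball p (δ / 2), ENNReal.ofReal (1 / (1 + ‖p - a‖) ^ (m + 3)) := by
          apply Finset.sum_congr rfl
          intro p _
          rw [setLIntegral_const, hvb]
      _ ≤ ∑ p ∈ T, ∫⁻ y in ball p (δ / 2),
            ENNReal.ofReal K * ENNReal.ofReal (1 / (1 + ‖y - a‖) ^ (m + 3)) := by
          apply Finset.sum_le_sum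
          intro p _
          apply setLIntegral_mono' measurableSet_ball
          intro y hy
          exact hpt p y hy
      _ = ∫⁻ y in ⋃ p ∈ T, ball p (δ / 2),
            ENNReal.ofReal K * ENNReal.ofReal (1 / (1 + ‖y - a‖) ^ (m + 3)) := by
          rw [lintegral_biUnion_finset hdisj (fun p _ => measurableSet_ball)]
      _ ≤ ∫⁻ y, ENNReal.ofReal K * ENNReal.ofReal (1 / (1 + ‖y - a‖) ^ (m + 3)) :=
          setLIntegral_le_lintegral _ _
      _ = ENNReal.ofReal K * ∫⁻ y : X m, ENNReal.ofReal (1 / (1 + ‖y - a‖) ^ (m + 3)) := by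
          rw [lintegral_const_mul' _ _ ENNReal.ofReal_ne_top]
      _ = ENNReal.ofReal K * L := by
          rw [hL, lintegral_sub_right_eq_self
            (fun y : X m => ENNReal.ofReal (1 / (1 + ‖y‖) ^ (m + 3))) a]
  have key2 : (∑ p ∈ T, ENNReal.ofReal (1 / (1 + ‖p - a‖) ^ (m + 3))) ≤
      ENNReal.ofReal K * L / v := by
    rw [ENNReal.le_div_iff_mul_le (Or.inl hv0) (Or.inl hvt)]
    exact key
  have hfin : ENNReal.ofReal K * L / v ≠ ⊤ :=
    ENNReal.div_ne_top (ENNReal.mul_ne_top ENNReal.ofReal_ne_top hLt) hv0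
  rw [← ENNReal.ofReal_sum_of_nonneg (fun p _ => by positivity)] at key2
  have := ENNReal.toReal_mono hfin key2
  rw [ENNReal.toReal_ofReal (Finset.sum_nonneg fun p _ => by positivity)] at this
  linarith

private lemma norm_iv_ge {m : ℕ} (j : Fin m → ℤ) (hj : j ≠ 0) : 1 ≤ ‖(iv j : E m)‖ := by
  obtain ⟨i, hi⟩ : ∃ i, j i ≠ 0 := by
    by_contra h
    push Not at h
    exact hj (funext h)
  have h1 : ‖(iv j : E m) i‖ ≤ ‖(iv j : E m)‖ := PiLp.norm_apply_le _ i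
  have h2 : (iv j : E m) i = (j i : ℝ) := rfl
  rw [h2, Real.norm_eq_abs] at h1
  have h3 : (1 : ℝ) ≤ |(j i : ℝ)| := by
    rw [← Int.cast_abs]
    exact_mod_cast Int.one_le_abs hi
  linarith

private lemma nd_sub_ge {m : ℕ} (h : ℝ) (hh : 0 < h) (n n' : Zn m) (hn : n ≠ n') :
    h ≤ ‖(nd h n : X m) - nd h n'‖ := by
  have e : (nd h n : X m) - nd h n' =
      (h • (iv (n.1 - n'.1) : E m), h * ((n.2.1 - n'.2.1 : ℤ) : ℝ),
        h * ((n.2.2 - n'.2.2 : ℤ) : ℝ)) := by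
    unfold nd
    ext1
    · change h • (iv n.1 : E m) - h • (iv n'.1 : E m) = h • (iv (n.1 - n'.1) : E m)
      rw [← smul_sub]
      congr 1
      ext i
      change (n.1 i : ℝ) - (n'.1 i : ℝ) = (((n.1 - n'.1) i : ℤ) : ℝ)
      push_cast [Pi.sub_apply]
      rfl
    · ext1
      · change h * (n.2.1 : ℝ) - h * (n'.2.1 : ℝ) = h * ((n.2.1 - n'.2.1 : ℤ) : ℝ)
        push_cast
        ring
      · change h * (n.2.2 : ℝ) - h * (n'.2.2 : ℝ) = h * ((n.2.2 - n'.2.2 : ℤ) : ℝ)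
        push_cast
        ring
  rw [e, Prod.norm_def, Prod.norm_def]
  by_cases h1 : n.1 = n'.1
  · by_cases h2 : n.2.1 = n'.2.1
    · have h3 : n.2.2 - n'.2.2 ≠ 0 := by
        intro h0
        apply hn
        exact Prod.ext h1 (Prod.ext h2 (sub_eq_zero.1 h0))
      refine le_trans ?_ (le_max_right _ _)
      refine le_trans ?_ (le_max_right _ _)
      change h ≤ ‖h * ((n.2.2 - n'.2.2 : ℤ) : ℝ)‖
      rw [norm_mul, Real.norm_of_nonneg hh.le, Real.norm_eq_abs]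
      have h4 : (1 : ℝ) ≤ |((n.2.2 - n'.2.2 : ℤ) : ℝ)| := by
        rw [← Int.cast_abs]
        exact_mod_cast Int.one_le_abs h3
      nlinarith
    · have h3 : n.2.1 - n'.2.1 ≠ 0 := sub_ne_zero.2 h2
      refine le_trans ?_ (le_max_right _ _)
      refine le_trans ?_ (le_max_left _ _)
      change h ≤ ‖h * ((n.2.1 - n'.2.1 : ℤ) : ℝ)‖
      rw [norm_mul, Real.norm_of_nonneg hh.le, Real.norm_eq_abs]
      have h4 : (1 : ℝ) ≤ |((n.2.1 - n'.2.1 : ℤ) : ℝ)| := by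
        rw [← Int.cast_abs]
        exact_mod_cast Int.one_le_abs h3
      nlinarith
  · refine le_trans ?_ (le_max_left _ _)
    change h ≤ ‖h • (iv (n.1 - n'.1) : E m)‖
    rw [norm_smul, Real.norm_of_nonneg hh.le]
    have h4 := norm_iv_ge (n.1 - n'.1) (sub_ne_zero.2 h1)
    nlinarith

theorem sum_nd (m : ℕ) (h : ℝ) (hh : 0 < h) : ∃ C : ℝ, 0 < C ∧ ∀ (T : Finset (Zn m)) (a : X m),
    ∑ n ∈ T, 1 / (1 + ‖nd h n - a‖) ^ (m + 3) ≤ C := by
  classical
  obtain ⟨C, hC, hb⟩ := sep_aux m h hh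
  refine ⟨C, hC, fun T a => ?_⟩
  have hinj : Function.Injective (nd h : Zn m → X m) := by
    intro n n' hnn
    by_contra hne
    have h1 := nd_sub_ge h hh n n' hne
    rw [hnn, sub_self, norm_zero] at h1
    linarith
  have h1 := hb (T.image (nd h)) (by
    intro p hp q hq hpq
    rw [Finset.mem_image] at hp hq
    obtain ⟨n, _, rfl⟩ := hp
    obtain ⟨n', _, rfl⟩ := hq
    exact nd_sub_ge h hh n n' (fun e => hpq (by rw [e]))) a
  rw [Finset.sum_image (fun x _ y _ e => hinj e)] at h1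
  exact h1

theorem sum_sep (m : ℕ) (δ : ℝ) (hδ : 0 < δ) : ∃ C : ℝ, 0 < C ∧ ∀ T : Finset (X m),
    (∀ p ∈ T, ∀ q ∈ T, p ≠ q → δ ≤ ‖p - q‖) → ∀ a : X m,
    ∑ p ∈ T, 1 / (1 + ‖p - a‖) ^ (m + 3) ≤ C :=
  sep_aux m δ hδ

theorem sum_sep_Lk (m : ℕ) (δ R0 : ℝ) (hδ : 0 < δ) : ∃ C : ℝ, 0 < C ∧ ∀ T : Finset (X m),
    (∀ p ∈ T, ∀ q ∈ T, p ≠ q → δ ≤ ‖p - q‖) → ∀ (k : ℕ) (c : E m), ‖c‖ ≤ R0 → ∀ a : X m,
    ∑ p ∈ T, 1 / (1 + ‖a - Lk k c p‖) ^ (m + 3) ≤ C * 4 ^ (k * (m + 3)) := by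
  obtain ⟨C, hC, hb⟩ := sep_aux m δ hδ
  obtain ⟨M, hM⟩ : ∃ M : ℝ, M = (1 + |R0|) ^ 2 := ⟨_, rfl⟩
  have hM1 : 1 ≤ M := by
    rw [hM]
    nlinarith [abs_nonneg R0]
  refine ⟨M ^ (m + 3) * C, by positivity, ?_⟩
  intro T hT k c hc a
  have h4 : (1 : ℝ) ≤ 4 ^ k := one_le_pow₀ (by norm_num)
  have hpt : ∀ p : X m, 1 / (1 + ‖a - Lk k c p‖) ^ (m + 3) ≤
      (M * 4 ^ k) ^ (m + 3) * (1 / (1 + ‖p - Li k c a‖) ^ (m + 3)) := by
    intro p
    have e : p - Li k c a = Li k c (Lk k c p - a) := by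
      have h1 : Lk k c (p - Li k c a) = Lk k c p - a := by rw [Lk_sub, Lk_Li]
      rw [← h1, Li_Lk]
    have h1 : ‖p - Li k c a‖ ≤ 4 ^ k * (1 + ‖c‖) ^ 2 * ‖Lk k c p - a‖ := by
      rw [e]
      exact norm_Li_le k c _
    have h2 : (1 + ‖c‖) ^ 2 ≤ M := by
      rw [hM]
      apply pow_le_pow_left₀ (by positivity)
      have := le_abs_self R0
      linarith
    have h3 : ‖p - Li k c a‖ ≤ M * 4 ^ k * ‖a - Lk k c p‖ := by
      rw [norm_sub_rev a]
      refine h1.trans ?_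
      have := norm_nonneg (Lk k c p - a)
      nlinarith [mul_le_mul_of_nonneg_right h2
        (by positivity : (0 : ℝ) ≤ 4 ^ k * ‖Lk k c p - a‖)]
    have h5 : 1 + ‖p - Li k c a‖ ≤ (M * 4 ^ k) * (1 + ‖a - Lk k c p‖) := by
      have h6 : 1 ≤ M * 4 ^ k := by nlinarith
      nlinarith
    rw [mul_one_div, div_le_div_iff₀ (by positivity) (by positivity), one_mul, ← mul_pow]
    exact pow_le_pow_left₀ (by positivity) h5 _
  calc ∑ p ∈ T, 1 / (1 + ‖a - Lk k c p‖) ^ (m + 3)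
      ≤ ∑ p ∈ T, (M * 4 ^ k) ^ (m + 3) * (1 / (1 + ‖p - Li k c a‖) ^ (m + 3)) :=
        Finset.sum_le_sum fun p _ => hpt p
    _ = (M * 4 ^ k) ^ (m + 3) * ∑ p ∈ T, 1 / (1 + ‖p - Li k c a‖) ^ (m + 3) := by
        rw [Finset.mul_sum]
    _ ≤ (M * 4 ^ k) ^ (m + 3) * C :=
        mul_le_mul_of_nonneg_left (hb T hT _) (by positivity)
    _ = M ^ (m + 3) * C * 4 ^ (k * (m + 3)) := by
        rw [mul_pow, ← pow_mul]
        ring

end Pool.LibST49
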