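import Pool.Agent.LibST49.D4
import Pool.Agent.LibST49.P5

/-
PLAN (D5, MEDIUM/STRONG). S nonempty (else 0). p := q/(q-1) in (1,2). Choose ε1 > 0 with ε1 M p + (ε/2)/(q-1) <= ε/(q-1). Near part of G: rh <= 2^(κ ε1): (1+rh)^(Mp) <= 2^(Mp) 2^(κ ε1 M p), then
coef_dual with ε/2. Far part: rh > 2^(κ ε1). For p in S: rh <= ‖nd h a.2 - Lk κ (w κ a.1) p‖ =: α_p (infDist_le_dist_of_mem). |c_a| (1+rh)^M <= SUM_p C_N (1+α_p)^(M-N) with N = M + (m+3) + N1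
(Rp.dec) <= C 2^(-κ ε1 N1) SUM_p (1+α_p)^-(m+3). Put T_a := SUM_p (1+α_p)^-(m+3) <= C 4^(κ(m+3)) (sum_sep_Lk, ‖w‖ <= 2 sqrt m) so T_a^p <= (C 4^(κ(m+3)))^(p-1) T_a and
SUM_(a in G) T_a <= card (J m κ) C #S (sum_nd for each direction and each p). Total far <= C 2^(-κ ε1 N1 p) 4^(κ(m+3)(p-1)) 2^(κ m) #S <= C #S for N1 large (depending on ε1, m, p).
-/

set_option autoImplicit false

noncomputable section

open MeasureTheory Metric Set Filter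

namespace Pool.LibST49

open Pool.LibSR53

private theorem d5_rh_le {m : ℕ} {h : ℝ} {κ : ℕ} {S : Finset (X m)} {a : Pk m} {p : X m}
    (hp : p ∈ S) : rh h κ S a ≤ ‖nd h a.2 - Lk κ (w κ a.1) p‖ := by
  unfold rh
  rw [← dist_eq_norm]
  exact Metric.infDist_le_dist_of_mem (Set.mem_image_of_mem _ hp)

private theorem d5_rh_nonneg {m : ℕ} {h : ℝ} {κ : ℕ} {S : Finset (X m)} {a : Pk m} :
    0 ≤ rh h κ S a := Metric.infDist_nonneg

private theorem d5_cf_le {m : ℕ} {Φ : X m → ℂ} {h : ℝ} {κ : ℕ} {S : Finset (X m)}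
    {γ : X m → ℂ} (hγ : ∀ p, ‖γ p‖ ≤ 1) {C : ℝ} {N : ℕ}
    (hΦ : ∀ Z, ‖Φ Z‖ ≤ C / (1 + ‖Z‖) ^ N) (a : Pk m) :
    ‖cf Φ h κ S γ a‖ ≤ ∑ p ∈ S, C / (1 + ‖nd h a.2 - Lk κ (w κ a.1) p‖) ^ N := by
  unfold cf
  refine norm_sum_le_of_le _ fun p _ => ?_
  rw [norm_mul]
  calc ‖γ p‖ * ‖Φ (nd h a.2 - Lk κ (w κ a.1) p)‖
      ≤ 1 * ‖Φ (nd h a.2 - Lk κ (w κ a.1) p)‖ :=
        mul_le_mul_of_nonneg_right (hγ p) (norm_nonneg _)
    _ = ‖Φ (nd h a.2 - Lk κ (w κ a.1) p)‖ := one_mul _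
    _ ≤ _ := hΦ _

private theorem d5_far {m : ℕ} {Φ : X m → ℂ} {h : ℝ} {κ : ℕ} {S : Finset (X m)}
    {γ : X m → ℂ} (hγ : ∀ p, ‖γ p‖ ≤ 1) {C R : ℝ} (hC : 0 < C) (hR : 0 < R) {M N1 : ℕ}
    (hΦ : ∀ Z, ‖Φ Z‖ ≤ C / (1 + ‖Z‖) ^ (M + (m + 3) + N1)) (a : Pk m) (ha : R ≤ rh h κ S a) :
    ‖cf Φ h κ S γ a‖ * (1 + rh h κ S a) ^ M ≤
      C / R ^ N1 * ∑ p ∈ S, 1 / (1 + ‖nd h a.2 - Lk κ (w κ a.1) p‖) ^ (m + 3) := by
  have h0 : 0 ≤ rh h κ S a := d5_rh_nonneg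
  calc ‖cf Φ h κ S γ a‖ * (1 + rh h κ S a) ^ M
      ≤ (∑ p ∈ S, C / (1 + ‖nd h a.2 - Lk κ (w κ a.1) p‖) ^ (M + (m + 3) + N1)) *
          (1 + rh h κ S a) ^ M :=
        mul_le_mul_of_nonneg_right (d5_cf_le hγ hΦ a) (by positivity)
    _ = ∑ p ∈ S, C / (1 + ‖nd h a.2 - Lk κ (w κ a.1) p‖) ^ (M + (m + 3) + N1) *
          (1 + rh h κ S a) ^ M := by rw [Finset.sum_mul]
    _ ≤ ∑ p ∈ S, C / R ^ N1 * (1 / (1 + ‖nd h a.2 - Lk κ (w κ a.1) p‖) ^ (m + 3)) := by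
        refine Finset.sum_le_sum fun p hp => ?_
        have hα : rh h κ S a ≤ ‖nd h a.2 - Lk κ (w κ a.1) p‖ := d5_rh_le hp
        set α := ‖nd h a.2 - Lk κ (w κ a.1) p‖ with hαd
        have hα0 : 0 ≤ α := norm_nonneg _
        have h1 : (1 + rh h κ S a) ^ M ≤ (1 + α) ^ M := by gcongr
        have h2 : R ^ N1 ≤ (1 + α) ^ N1 := by
          gcongr
          linarith
        have e1 : C / (1 + α) ^ (M + (m + 3) + N1) * (1 + rh h κ S a) ^ M =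
            ((1 + rh h κ S a) ^ M / (1 + α) ^ M) * (C / (1 + α) ^ N1 * (1 / (1 + α) ^ (m + 3))) := by
          rw [pow_add, pow_add]
          field_simp
        rw [e1]
        calc ((1 + rh h κ S a) ^ M / (1 + α) ^ M) * (C / (1 + α) ^ N1 * (1 / (1 + α) ^ (m + 3)))
            ≤ 1 * (C / (1 + α) ^ N1 * (1 / (1 + α) ^ (m + 3))) := by
              refine mul_le_mul_of_nonneg_right ?_ (by positivity)
              rw [div_le_one (by positivity)]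
              exact h1
          _ = C / (1 + α) ^ N1 * (1 / (1 + α) ^ (m + 3)) := one_mul _
          _ ≤ C / R ^ N1 * (1 / (1 + α) ^ (m + 3)) := by
              refine mul_le_mul_of_nonneg_right ?_ (by positivity)
              exact div_le_div_of_nonneg_left hC.le (by positivity) h2
    _ = _ := by rw [Finset.mul_sum]

private theorem d5_sumT {m : ℕ} {h Cn : ℝ}
    (Hn : ∀ (T : Finset (Zn m)) (a : X m), ∑ n ∈ T, 1 / (1 + ‖nd h n - a‖) ^ (m + 3) ≤ Cn)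
    (κ : ℕ) (S : Finset (X m)) (G : Finset (Pk m)) (hG : ∀ a ∈ G, a.1 ∈ J m κ) :
    ∑ a ∈ G, ∑ p ∈ S, 1 / (1 + ‖nd h a.2 - Lk κ (w κ a.1) p‖) ^ (m + 3) ≤
      (S.card : ℝ) * (((J m κ).card : ℝ) * Cn) := by
  classical
  rw [Finset.sum_comm]
  have h1 : ∀ p ∈ S, ∑ a ∈ G, 1 / (1 + ‖nd h a.2 - Lk κ (w κ a.1) p‖) ^ (m + 3) ≤
      ((J m κ).card : ℝ) * Cn := by
    intro p _
    rw [← Finset.sum_fiberwise_of_maps_to (g := fun a : Pk m => a.1) (t := J m κ) hG]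
    have h2 : ∀ j ∈ J m κ, ∑ a ∈ G with a.1 = j,
        1 / (1 + ‖nd h a.2 - Lk κ (w κ a.1) p‖) ^ (m + 3) ≤ Cn := by
      intro j _
      have hinj : Set.InjOn (fun a : Pk m => a.2) (G.filter (fun a => a.1 = j) : Set (Pk m)) := by
        intro a ha b hb hab
        simp only [Finset.coe_filter, Set.mem_ofPred_eq] at ha hb
        exact Prod.ext (ha.2.trans hb.2.symm) hab
      have h3 : ∑ a ∈ G with a.1 = j,
          1 / (1 + ‖nd h a.2 - Lk κ (w κ a.1) p‖) ^ (m + 3) =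
          ∑ n ∈ (G.filter (fun a => a.1 = j)).image (fun a : Pk m => a.2),
            1 / (1 + ‖nd h n - Lk κ (w κ j) p‖) ^ (m + 3) := by
        rw [Finset.sum_image hinj]
        refine Finset.sum_congr rfl fun a ha => ?_
        rw [(Finset.mem_filter.1 ha).2]
      rw [h3]
      exact Hn _ _
    calc _ ≤ ∑ _j ∈ J m κ, Cn := Finset.sum_le_sum h2
      _ = _ := by rw [Finset.sum_const, nsmul_eq_mul]
  calc _ ≤ ∑ _p ∈ S, ((J m κ).card : ℝ) * Cn := Finset.sum_le_sum h1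
    _ = _ := by rw [Finset.sum_const, nsmul_eq_mul]

/-- the powers of two in the far part -/
private theorem d5_pow {m κ N1 : ℕ} {ε1 p CN Cs : ℝ} (hCN : 0 < CN) (hCs : 0 < Cs)
    (hp1 : 1 < p) (hp2 : p < 2) (hε1 : 0 < ε1)
    (hN1 : 2 * ((m : ℝ) + 3) + m ≤ ε1 * N1) :
    (CN / ((2 : ℝ) ^ ((κ : ℝ) * ε1)) ^ N1) ^ p * (Cs * 4 ^ (κ * (m + 3))) ^ (p - 1) *
      (2 : ℝ) ^ (κ * m) ≤ CN ^ p * Cs ^ (p - 1) := by
  have e1 : ((2 : ℝ) ^ ((κ : ℝ) * ε1)) ^ N1 = (2 : ℝ) ^ ((κ : ℝ) * ε1 * N1) := by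
    rw [← Real.rpow_natCast, ← Real.rpow_mul (by norm_num)]
  have e2 : (CN / (2 : ℝ) ^ ((κ : ℝ) * ε1 * N1)) ^ p =
      CN ^ p * (2 : ℝ) ^ (-((κ : ℝ) * ε1 * N1 * p)) := by
    rw [Real.div_rpow hCN.le (by positivity), ← Real.rpow_mul (by norm_num), div_eq_mul_inv,
      ← Real.rpow_neg (by norm_num)]
  have e3 : ((4 : ℝ) ^ (κ * (m + 3))) = (2 : ℝ) ^ (2 * ((κ : ℝ) * ((m : ℝ) + 3))) := by
    have h4 : (4 : ℝ) = (2 : ℝ) ^ (2 : ℝ) := by norm_num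
    rw [← Real.rpow_natCast, h4, ← Real.rpow_mul (by norm_num)]
    push_cast
    ring_nf
  have e4 : (Cs * 4 ^ (κ * (m + 3))) ^ (p - 1) =
      Cs ^ (p - 1) * (2 : ℝ) ^ (2 * ((κ : ℝ) * ((m : ℝ) + 3)) * (p - 1)) := by
    rw [e3, Real.mul_rpow hCs.le (by positivity), ← Real.rpow_mul (by norm_num)]
  have e5 : (2 : ℝ) ^ (κ * m) = (2 : ℝ) ^ ((κ : ℝ) * m) := by
    rw [← Real.rpow_natCast]
    push_cast
    rfl
  rw [e1, e2, e4, e5]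
  have e6 : CN ^ p * (2 : ℝ) ^ (-((κ : ℝ) * ε1 * N1 * p)) *
      (Cs ^ (p - 1) * (2 : ℝ) ^ (2 * ((κ : ℝ) * ((m : ℝ) + 3)) * (p - 1))) *
      (2 : ℝ) ^ ((κ : ℝ) * m) =
      CN ^ p * Cs ^ (p - 1) * ((2 : ℝ) ^ (-((κ : ℝ) * ε1 * N1 * p)) *
        (2 : ℝ) ^ (2 * ((κ : ℝ) * ((m : ℝ) + 3)) * (p - 1)) * (2 : ℝ) ^ ((κ : ℝ) * m)) := by
    ring
  rw [e6, ← Real.rpow_add (by norm_num), ← Real.rpow_add (by norm_num)]
  have h7 : (2 : ℝ) ^ (-((κ : ℝ) * ε1 * N1 * p) + 2 * ((κ : ℝ) * ((m : ℝ) + 3)) * (p - 1) +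
      (κ : ℝ) * m) ≤ 1 := by
    refine Real.rpow_le_one_of_one_le_of_nonpos (by norm_num) ?_
    have hκ : (0 : ℝ) ≤ κ := Nat.cast_nonneg _
    have hm0 : (0 : ℝ) ≤ m := Nat.cast_nonneg _
    have hN0 : (0 : ℝ) ≤ N1 := Nat.cast_nonneg _
    have a1 : 2 * ((m : ℝ) + 3) * (p - 1) + m ≤ ε1 * N1 * p := by
      have b1 : 2 * ((m : ℝ) + 3) * (p - 1) ≤ 2 * ((m : ℝ) + 3) * 1 :=
        mul_le_mul_of_nonneg_left (by linarith) (by positivity)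
      have b2 : ε1 * N1 * 1 ≤ ε1 * N1 * p :=
        mul_le_mul_of_nonneg_left hp1.le (by positivity)
      linarith
    have a2 := mul_le_mul_of_nonneg_left a1 hκ
    linarith
  calc CN ^ p * Cs ^ (p - 1) * _ ≤ CN ^ p * Cs ^ (p - 1) * 1 :=
        mul_le_mul_of_nonneg_left h7 (by positivity)
    _ = _ := mul_one _

/-- weighted bound for the coefficients -/
theorem coef_w {m : ℕ} (hm : 1 ≤ m) {h v0 v1 ρ R : ℝ} {Φ Φh : X m → ℂ}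
    (hR : Rp h v0 v1 ρ R Φ Φh) (h0 : 0 < v0) (q : ℝ) (hq : 2 < q) (hC : CDec m q) (ε : ℝ)
    (hε : 0 < ε) (δ : ℝ) (hδ : 0 < δ) (M : ℕ) : ∃ C : ℝ, 0 < C ∧ ∀ (κ : ℕ) (S : Finset (X m)),
    (∀ p ∈ S, ∀ q' ∈ S, p ≠ q' → δ ≤ ‖p - q'‖) → ∀ γ : X m → ℂ, (∀ p, ‖γ p‖ ≤ 1) →
    ∀ G : Finset (Pk m), (∀ a ∈ G, a.1 ∈ J m κ) →
    ∑ a ∈ G, (‖cf Φ h κ S γ a‖ * (1 + rh h κ S a) ^ M) ^ (q / (q - 1)) ≤
      C * (2 : ℝ) ^ ((κ : ℝ) * ((ε + m * q / 2 + 2) / (q - 1))) * (S.card : ℝ) := by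
  set p : ℝ := q / (q - 1) with hp
  have hq1 : 0 < q - 1 := by linarith
  have hp1 : 1 < p := by
    rw [hp, lt_div_iff₀ hq1]
    linarith
  have hp2 : p < 2 := by
    rw [hp, div_lt_iff₀ hq1]
    linarith
  have hp0 : 0 < p := by linarith
  have hp3 : 0 < p - 1 := by linarith
  obtain ⟨C0, hC0, H0⟩ := coef_dual hm hR h0 q hq hC (ε / 2) (by positivity) δ hδ
  obtain ⟨Cn, hCn, Hn⟩ := sum_nd m h hR.hpos
  obtain ⟨Cs, hCs, Hs⟩ := sum_sep_Lk m δ (2 * Real.sqrt m) hδ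
  set ε1 : ℝ := (ε / 2) / (q - 1) / (M * p + 1) with hε1d
  have hMp : 0 ≤ (M : ℝ) * p := by positivity
  have hε1 : 0 < ε1 := by positivity
  have hε1' : ε1 * (M * p) ≤ (ε / 2) / (q - 1) := by
    rw [hε1d, div_mul_eq_mul_div, div_le_iff₀ (by positivity)]
    refine mul_le_mul_of_nonneg_left (by linarith) (by positivity)
  obtain ⟨N1, hN1'⟩ := exists_nat_ge ((2 * ((m : ℝ) + 3) + m) / ε1)
  have hN1 : 2 * ((m : ℝ) + 3) + m ≤ ε1 * N1 := by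
    rw [div_le_iff₀ hε1] at hN1'
    linarith
  obtain ⟨CN, hCN, HN⟩ := hR.dec (M + (m + 3) + N1)
  refine ⟨(2 : ℝ) ^ ((M : ℝ) * p) * C0 + CN ^ p * Cs ^ (p - 1) * (5 ^ m * Cn), by positivity,
    fun κ S hS γ hγ G hG => ?_⟩
  classical
  set E : ℝ := (2 : ℝ) ^ ((κ : ℝ) * ((ε + m * q / 2 + 2) / (q - 1))) with hE
  set Rr : ℝ := (2 : ℝ) ^ ((κ : ℝ) * ε1) with hRr
  have hRr1 : 1 ≤ Rr := Real.one_le_rpow (by norm_num) (by positivity)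
  have hRr0 : 0 < Rr := by linarith
  have hE1 : 1 ≤ E := by
    refine Real.one_le_rpow (by norm_num) ?_
    have : 0 < q := by linarith
    positivity
  rw [← Finset.sum_filter_add_sum_filter_not G (fun a => rh h κ S a ≤ Rr)]
  have hnear : ∑ a ∈ G with rh h κ S a ≤ Rr,
      (‖cf Φ h κ S γ a‖ * (1 + rh h κ S a) ^ M) ^ p ≤
      (2 : ℝ) ^ ((M : ℝ) * p) * C0 * E * (S.card : ℝ) := by
    have h1 : ∀ a ∈ G.filter (fun a => rh h κ S a ≤ Rr),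
        (‖cf Φ h κ S γ a‖ * (1 + rh h κ S a) ^ M) ^ p ≤
        ‖cf Φ h κ S γ a‖ ^ p * ((2 : ℝ) ^ ((M : ℝ) * p) * (2 : ℝ) ^ ((κ : ℝ) * ε1 * (M * p))) := by
      intro a ha
      have ha2 := (Finset.mem_filter.1 ha).2
      have h0' : 0 ≤ rh h κ S a := d5_rh_nonneg
      rw [Real.mul_rpow (norm_nonneg _) (by positivity)]
      refine mul_le_mul_of_nonneg_left ?_ (by positivity)
      have h2 : ((1 + rh h κ S a) ^ M) ^ p = (1 + rh h κ S a) ^ ((M : ℝ) * p) := by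
        rw [← Real.rpow_natCast, ← Real.rpow_mul (by positivity)]
      rw [h2]
      have h3 : (2 : ℝ) ^ ((M : ℝ) * p) * (2 : ℝ) ^ ((κ : ℝ) * ε1 * (M * p)) =
          (2 * Rr) ^ ((M : ℝ) * p) := by
        rw [Real.mul_rpow (by norm_num) hRr0.le, hRr, ← Real.rpow_mul (by norm_num)]
      rw [h3]
      exact Real.rpow_le_rpow (by positivity) (by linarith) hMp
    refine (Finset.sum_le_sum h1).trans ?_
    rw [← Finset.sum_mul]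
    have h4 := H0 κ S hS γ hγ (G.filter (fun a => rh h κ S a ≤ Rr))
      (fun a ha => hG a (Finset.mem_filter.1 ha).1)
    refine (mul_le_mul_of_nonneg_right h4 (by positivity)).trans ?_
    have h5 : (2 : ℝ) ^ ((κ : ℝ) * ((ε / 2 + m * q / 2 + 2) / (q - 1))) *
        (2 : ℝ) ^ ((κ : ℝ) * ε1 * (M * p)) ≤ E := by
      rw [← Real.rpow_add (by norm_num), hE]
      refine Real.rpow_le_rpow_of_exponent_le (by norm_num) ?_
      have hκ : (0 : ℝ) ≤ κ := Nat.cast_nonneg _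
      have h6 := mul_le_mul_of_nonneg_left hε1' hκ
      have h7 : (κ : ℝ) * ((ε + m * q / 2 + 2) / (q - 1)) =
          (κ : ℝ) * ((ε / 2 + m * q / 2 + 2) / (q - 1)) + (κ : ℝ) * (ε / 2 / (q - 1)) := by
        field_simp
        ring
      rw [h7]
      linarith
    calc C0 * (2 : ℝ) ^ ((κ : ℝ) * ((ε / 2 + m * q / 2 + 2) / (q - 1))) * (S.card : ℝ) *
          ((2 : ℝ) ^ ((M : ℝ) * p) * (2 : ℝ) ^ ((κ : ℝ) * ε1 * (M * p)))
        = (2 : ℝ) ^ ((M : ℝ) * p) * C0 *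
            ((2 : ℝ) ^ ((κ : ℝ) * ((ε / 2 + m * q / 2 + 2) / (q - 1))) *
              (2 : ℝ) ^ ((κ : ℝ) * ε1 * (M * p))) * (S.card : ℝ) := by ring
      _ ≤ (2 : ℝ) ^ ((M : ℝ) * p) * C0 * E * (S.card : ℝ) := by gcongr
  have hfar : ∑ a ∈ G with ¬ rh h κ S a ≤ Rr,
      (‖cf Φ h κ S γ a‖ * (1 + rh h κ S a) ^ M) ^ p ≤
      CN ^ p * Cs ^ (p - 1) * (5 ^ m * Cn) * (S.card : ℝ) := by
    set T : Pk m → ℝ := fun a => ∑ p ∈ S, 1 / (1 + ‖nd h a.2 - Lk κ (w κ a.1) p‖) ^ (m + 3)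
      with hT
    have hT0 : ∀ a, 0 ≤ T a := fun a => Finset.sum_nonneg fun p _ => by positivity
    set B : ℝ := Cs * 4 ^ (κ * (m + 3)) with hB
    have hB0 : 0 < B := by positivity
    have h1 : ∀ a ∈ G.filter (fun a => ¬ rh h κ S a ≤ Rr),
        (‖cf Φ h κ S γ a‖ * (1 + rh h κ S a) ^ M) ^ p ≤
        (CN / Rr ^ N1) ^ p * B ^ (p - 1) * T a := by
      intro a ha
      obtain ⟨haG, ha2⟩ := Finset.mem_filter.1 ha
      have h0' : 0 ≤ rh h κ S a := d5_rh_nonneg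
      have h2 := d5_far (M := M) (N1 := N1) hγ hCN hRr0 HN a (le_of_lt (not_le.1 ha2))
      have h3 : (‖cf Φ h κ S γ a‖ * (1 + rh h κ S a) ^ M) ^ p ≤ (CN / Rr ^ N1 * T a) ^ p :=
        Real.rpow_le_rpow (by positivity) h2 hp0.le
      refine h3.trans ?_
      rw [Real.mul_rpow (by positivity) (hT0 a), mul_assoc]
      refine mul_le_mul_of_nonneg_left ?_ (by positivity)
      have h4 : T a ≤ B := Hs S hS κ (w κ a.1) (norm_w_le κ a.1 (hG a haG)) (nd h a.2)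
      have h5 : T a ^ p = T a ^ (p - 1) * T a := by
        rcases (hT0 a).eq_or_lt with h6 | h6
        · rw [← h6, Real.zero_rpow hp0.ne', mul_zero]
        · have h10 := Real.rpow_add h6 (p - 1) 1
          rw [Real.rpow_one] at h10
          rw [← h10]
          congr 1
          ring
      rw [h5]
      exact mul_le_mul_of_nonneg_right (Real.rpow_le_rpow (hT0 a) h4 hp3.le) (hT0 a)
    refine (Finset.sum_le_sum h1).trans ?_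
    rw [← Finset.mul_sum]
    have h7 : ∑ a ∈ G with ¬ rh h κ S a ≤ Rr, T a ≤
        (S.card : ℝ) * (5 ^ m * 2 ^ (κ * m) * Cn) := by
      refine (d5_sumT Hn κ S _ (fun a ha => hG a (Finset.mem_filter.1 ha).1)).trans ?_
      refine mul_le_mul_of_nonneg_left ?_ (Nat.cast_nonneg _)
      exact mul_le_mul_of_nonneg_right (card_J_le m κ) hCn.le
    refine (mul_le_mul_of_nonneg_left h7 (by positivity)).trans ?_
    have h8 := d5_pow (m := m) (κ := κ) hCN hCs hp1 hp2 hε1 hN1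
    calc (CN / Rr ^ N1) ^ p * B ^ (p - 1) * ((S.card : ℝ) * (5 ^ m * 2 ^ (κ * m) * Cn))
        = ((CN / Rr ^ N1) ^ p * B ^ (p - 1) * 2 ^ (κ * m)) * (5 ^ m * Cn) * (S.card : ℝ) := by
          ring
      _ ≤ (CN ^ p * Cs ^ (p - 1)) * (5 ^ m * Cn) * (S.card : ℝ) := by
          refine mul_le_mul_of_nonneg_right (mul_le_mul_of_nonneg_right h8 (by positivity))
            (Nat.cast_nonneg _)
      _ = _ := by ring
  have hfar2 : CN ^ p * Cs ^ (p - 1) * (5 ^ m * Cn) * (S.card : ℝ) ≤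
      CN ^ p * Cs ^ (p - 1) * (5 ^ m * Cn) * E * (S.card : ℝ) := by
    refine mul_le_mul_of_nonneg_right ?_ (Nat.cast_nonneg _)
    have h9 : 0 ≤ CN ^ p * Cs ^ (p - 1) * (5 ^ m * Cn) := by positivity
    calc CN ^ p * Cs ^ (p - 1) * (5 ^ m * Cn) = CN ^ p * Cs ^ (p - 1) * (5 ^ m * Cn) * 1 := by
          rw [mul_one]
      _ ≤ _ := mul_le_mul_of_nonneg_left hE1 h9
  calc _ ≤ (2 : ℝ) ^ ((M : ℝ) * p) * C0 * E * (S.card : ℝ) +
        CN ^ p * Cs ^ (p - 1) * (5 ^ m * Cn) * E * (S.card : ℝ) :=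
        add_le_add hnear (hfar.trans hfar2)
    _ = _ := by ring

end Pool.LibST49
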