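import Pool.Agent.LibST49.CV

/-
PLAN (G1, MEDIUM/STRONG). By ph_sub, ph_xi and int_ab, x -> Kb b (Lam (x,-s0) - Z) = INT over E(m+1) of e1(<x,ξ>) a_Z(ξ) dξ with a_Z(ξ) = ab b ξ * e1(-s0 ‖ξ‖ - ph Z (oi ξ)): a smooth compactly
supported function (on the support v(ξ) >= v0 > 0), i.e. the inverse Fourier transform of the Schwartz function a_Z (HasCompactSupport.toSchwartzMap). Hence MemLp 2 (Schwartz), continuous, and
Plancherel (SchwartzMap.integral_inner_fourier_fourier, or its version for the inverse transform) gives INT conj(.) (.)' = INT conj(a_Z) a'_Z' dξ = INT conj(ab b) ab b' e1(ph Z - ph Z')(oi ξ) dξ.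
On v > 0: conj(ab b)(xi z) ab b'(xi z) Jac z = conj(b z) b' z / Jac z = gb b b' z, so int_ab-type change of variables (cv) gives Kb (gb b b') (Z - Z') (ph_sub). gb_sb: Jac > 0 is smooth on v > 0 and
b vanishes for v < v0. Also prove that x -> Kb b (Lam (x,-s0) - Z) is continuous.
-/

set_option autoImplicit false

noncomputable section

open MeasureTheory Metric Set Filter

namespace Pool.LibST49

open Pool.LibSR53

private theorem G1_e1_add (s t : ℝ) : e1 (s + t) = e1 s * e1 t := by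
  unfold e1
  rw [← Complex.exp_add]
  congr 1
  push_cast
  ring

private theorem G1_e1_norm (t : ℝ) : ‖e1 t‖ = 1 := by
  unfold e1
  have h : 2 * (Real.pi : ℂ) * Complex.I * (t : ℂ) = ((2 * Real.pi * t : ℝ) : ℂ) * Complex.I := by
    push_cast
    ring
  rw [h, Complex.norm_exp_ofReal_mul_I]

private theorem G1_e1_conj (t : ℝ) : (starRingEnd ℂ) (e1 t) = e1 (-t) := by
  unfold e1
  rw [← Complex.exp_conj]
  congr 1
  simp only [map_mul, Complex.conj_I, Complex.conj_ofReal, Complex.ofReal_neg, map_ofNat]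
  ring

private theorem G1_e1_cd {F : Type*} [NormedAddCommGroup F] [NormedSpace ℝ F] {n : WithTop ℕ∞}
    {f : F → ℝ} (hf : ContDiff ℝ n f) : ContDiff ℝ n (fun z => e1 (f z)) := by
  unfold e1
  exact (contDiff_const.mul (Complex.ofRealCLM.contDiff.comp hf)).cexp

private theorem G1_ph_cd {m : ℕ} (Z : X m) : ContDiff ℝ (⊤ : ℕ∞) (fun z : V m => ph Z z) := by
  unfold ph
  exact contDiff_snd.mul (((contDiff_const.inner ℝ contDiff_fst).add
    (contDiff_const.mul (contDiff_fst.norm_sq ℝ))).add contDiff_const)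

private theorem G1_ph_cont {m : ℕ} (z : V m) : Continuous (fun Z : X m => ph Z z) := by
  unfold ph
  fun_prop

private theorem G1_hcs {m : ℕ} {v0 v1 ρ : ℝ} {b : V m → ℂ} (hb : Sb v0 v1 ρ b) :
    HasCompactSupport b := by
  refine HasCompactSupport.intro
    ((isCompact_closedBall (0 : E m) ρ).prod (isCompact_Icc (a := v0) (b := v1))) ?_
  intro z hz
  by_contra h
  obtain ⟨h1, h2, h3⟩ := hb.supp z h
  exact hz ⟨mem_closedBall_zero_iff.2 h3, h1, h2⟩

private theorem G1_intg {m : ℕ} {v0 v1 ρ : ℝ} {b : V m → ℂ} (hb : Sb v0 v1 ρ b) :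
    Integrable b := hb.smooth.continuous.integrable_of_hasCompactSupport (G1_hcs hb)

private theorem G1_tw {m : ℕ} {v0 v1 ρ : ℝ} {b : V m → ℂ} (hb : Sb v0 v1 ρ b) (Z : X m) :
    Sb v0 v1 ρ (fun z => e1 (ph Z z) * b z) where
  pos := hb.pos
  le := hb.le
  smooth := (G1_e1_cd (G1_ph_cd Z)).mul hb.smooth
  supp := fun z hz => hb.supp z (right_ne_zero_of_mul hz)

theorem gb_sb {m : ℕ} {v0 v1 ρ : ℝ} {b b' : V m → ℂ} (hb : Sb v0 v1 ρ b) (hb' : Sb v0 v1 ρ b') :
    Sb v0 v1 ρ (gb b b') := by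
  refine ⟨hb.pos, hb.le, ?_, ?_⟩
  · rw [contDiff_iff_contDiffAt]
    intro z
    have hJ : ContDiff ℝ (⊤ : ℕ∞) (fun z : V m => ((Jac z : ℝ) : ℂ)) := by
      unfold Jac
      exact Complex.ofRealCLM.contDiff.comp (((contDiff_snd.pow m).mul
        (contDiff_const.add (contDiff_fst.norm_sq ℝ))).div_const 2)
    by_cases hz : 0 < z.2
    · have h0 : ((Jac z : ℝ) : ℂ) ≠ 0 := by
        rw [Complex.ofReal_ne_zero]
        unfold Jac
        positivity
      have hc : ContDiff ℝ (⊤ : ℕ∞) (fun z : V m => (starRingEnd ℂ) (b z)) :=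
        Complex.conjCLE.contDiff.comp hb.smooth
      have h1 : ContDiffAt ℝ (⊤ : ℕ∞)
          (fun z : V m => (starRingEnd ℂ) (b z) * b' z * (((Jac z : ℝ) : ℂ))⁻¹) z :=
        (hc.contDiffAt.mul hb'.smooth.contDiffAt).mul (hJ.contDiffAt.inv h0)
      refine h1.congr_of_eventuallyEq (Eventually.of_forall fun y => ?_)
      simp only [gb, div_eq_mul_inv]
    · have hev : gb b b' =ᶠ[nhds z] fun _ => 0 := by
        have ho : {y : V m | y.2 < v0} ∈ nhds z :=
          (isOpen_lt continuous_snd continuous_const).mem_nhds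
            (lt_of_le_of_lt (not_lt.1 hz) hb.pos)
        filter_upwards [ho] with y hy
        have : b y = 0 := by
          by_contra h
          exact absurd (hb.supp y h).1 (not_le.2 hy)
        unfold gb
        rw [this]
        simp
      exact contDiffAt_const.congr_of_eventuallyEq hev
  · intro z hz
    refine hb.supp z ?_
    intro h
    apply hz
    unfold gb
    rw [h]
    simp

theorem Kb_cont {m : ℕ} {v0 v1 ρ : ℝ} {b : V m → ℂ} (hb : Sb v0 v1 ρ b) :
    Continuous (Kb b) ∧ ∃ C : ℝ, ∀ Z, ‖Kb b Z‖ ≤ C := by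
  have hn : ∀ (Z : X m) (z : V m), ‖e1 (ph Z z) * b z‖ ≤ ‖b z‖ := by
    intro Z z
    rw [norm_mul, G1_e1_norm, one_mul]
  refine ⟨?_, ∫ z, ‖b z‖, fun Z => ?_⟩
  · unfold Kb
    refine continuous_of_dominated (bound := fun z => ‖b z‖) ?_ ?_ (G1_intg hb).norm ?_
    · intro Z
      exact ((G1_tw hb Z).smooth.continuous).aestronglyMeasurable
    · intro Z
      exact Eventually.of_forall fun z => hn Z z
    · refine Eventually.of_forall fun z => ?_
      refine Continuous.mul ?_ continuous_const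
      exact (G1_e1_cd (f := fun t : ℝ => t) (n := 0) contDiff_id).continuous.comp (G1_ph_cont z)
  · unfold Kb
    exact norm_integral_le_of_norm_le (G1_intg hb).norm (Eventually.of_forall fun z => hn Z z)

/-- the half wave kernel at time `s0` as an inverse Fourier transform -/
private theorem G1_four {m : ℕ} (hm : 1 ≤ m) {v0 v1 ρ : ℝ} {b : V m → ℂ} (hb : Sb v0 v1 ρ b)
    (s0 : ℝ) (Z : X m) (x : E (m + 1)) :
    Kb b (Lam (x, -s0) - Z) =
      ∫ ξ : E (m + 1), ab (fun z => e1 (ph (Lam ((0 : E (m + 1)), -s0) - Z) z) * b z) ξ *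
        e1 (inner ℝ x ξ) := by
  have hψ : Continuous (fun ξ : E (m + 1) => e1 (inner ℝ x ξ)) :=
    (G1_e1_cd (f := fun ξ : E (m + 1) => inner ℝ x ξ) (n := 0)
      (contDiff_const.inner ℝ contDiff_id)).continuous
  rw [int_ab hm (G1_tw hb (Lam ((0 : E (m + 1)), -s0) - Z)) _ hψ]
  unfold Kb
  refine integral_congr_ae (Eventually.of_forall fun z => ?_)
  simp only
  by_cases h : b z = 0
  · rw [h]; ring
  · have hz : 0 < z.2 := lt_of_lt_of_le hb.pos (hb.supp z h).1
    have h1 : ph (Lam (x, -s0) - Z) z =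
        ph (Lam ((0 : E (m + 1)), -s0) - Z) z + inner ℝ x (xi z) := by
      rw [ph_sub, ph_sub, ph_xi x (-s0) z hz, ph_xi 0 (-s0) z hz, inner_zero_left]
      ring
    rw [h1, G1_e1_add]
    ring

open scoped FourierTransform SchwartzMap in
private theorem G1_inv {m : ℕ} (S : 𝓢(E (m + 1), ℂ)) (x : E (m + 1)) :
    (𝓕⁻ S) x = ∫ ξ : E (m + 1), S ξ * e1 (inner ℝ x ξ) := by
  rw [SchwartzMap.fourierInv_coe, Real.fourierInv_eq']
  refine integral_congr_ae (Eventually.of_forall fun ξ => ?_)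
  simp only [smul_eq_mul]
  rw [mul_comm]
  congr 1
  unfold e1
  congr 1
  rw [real_inner_comm]
  push_cast
  ring

/-- the Gram kernel of half wave kernels -/
theorem gram {m : ℕ} (hm : 1 ≤ m) {v0 v1 ρ : ℝ} {b b' : V m → ℂ} (hb : Sb v0 v1 ρ b)
    (hb' : Sb v0 v1 ρ b') (s0 : ℝ) (Z Z' : X m) :
    MemLp (fun x : E (m + 1) => Kb b (Lam (x, -s0) - Z)) 2 volume ∧
    ∫ x : E (m + 1), (starRingEnd ℂ) (Kb b (Lam (x, -s0) - Z)) * Kb b' (Lam (x, -s0) - Z') =
      Kb (gb b b') (Z - Z') := by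
  open scoped FourierTransform SchwartzMap in
  set b1 : V m → ℂ := fun z => e1 (ph (Lam ((0 : E (m + 1)), -s0) - Z) z) * b z with hb1
  set b2 : V m → ℂ := fun z => e1 (ph (Lam ((0 : E (m + 1)), -s0) - Z') z) * b' z with hb2
  have h1 : Sb v0 v1 ρ b1 := G1_tw hb _
  have h2 : Sb v0 v1 ρ b2 := G1_tw hb' _
  let S1 : 𝓢(E (m + 1), ℂ) := (ab_smooth hm h1).2.toSchwartzMap (ab_smooth hm h1).1
  let S2 : 𝓢(E (m + 1), ℂ) := (ab_smooth hm h2).2.toSchwartzMap (ab_smooth hm h2).1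
  have k1 : ∀ x : E (m + 1), Kb b (Lam (x, -s0) - Z) = (𝓕⁻ S1) x := by
    intro x
    rw [G1_four hm hb s0 Z x, G1_inv]
    rfl
  have k2 : ∀ x : E (m + 1), Kb b' (Lam (x, -s0) - Z') = (𝓕⁻ S2) x := by
    intro x
    rw [G1_four hm hb' s0 Z' x, G1_inv]
    rfl
  refine ⟨?_, ?_⟩
  · have e : (fun x : E (m + 1) => Kb b (Lam (x, -s0) - Z)) =
        ((𝓕⁻ S1 : 𝓢(E (m + 1), ℂ)) : E (m + 1) → ℂ) := funext k1
    rw [e]
    exact (𝓕⁻ S1 : 𝓢(E (m + 1), ℂ)).memLp 2 volume
  · have e : ∀ x : E (m + 1), (starRingEnd ℂ) (Kb b (Lam (x, -s0) - Z)) *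
        Kb b' (Lam (x, -s0) - Z') = inner ℂ ((𝓕⁻ S1) x) ((𝓕⁻ S2) x) := by
      intro x
      rw [k1, k2, RCLike.inner_apply, mul_comm]
    simp_rw [e]
    have pl := SchwartzMap.integral_inner_fourier_fourier (𝓕⁻ S1) (𝓕⁻ S2)
    rw [FourierTransform.fourier_fourierInv_eq, FourierTransform.fourier_fourierInv_eq] at pl
    rw [← pl]
    have e2 : ∀ ξ : E (m + 1), inner ℂ (S1 ξ) (S2 ξ) = ab (gb b1 b2) ξ * 1 := by
      intro ξ
      rw [RCLike.inner_apply, mul_one]
      change ab b2 ξ * (starRingEnd ℂ) (ab b1 ξ) = _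
      unfold ab gb
      rw [map_div₀, Complex.conj_ofReal]
      ring
    simp_rw [e2]
    rw [int_ab hm (gb_sb h1 h2) (fun _ => 1) continuous_const]
    unfold Kb
    refine integral_congr_ae (Eventually.of_forall fun z => ?_)
    simp only [mul_one]
    have h3 : e1 (ph (Z - Z') z) = (starRingEnd ℂ) (e1 (ph (Lam ((0 : E (m + 1)), -s0) - Z) z)) *
        e1 (ph (Lam ((0 : E (m + 1)), -s0) - Z') z) := by
      rw [G1_e1_conj, ← G1_e1_add, ph_sub, ph_sub, ph_sub]
      congr 1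
      ring
    rw [h3, hb1, hb2]
    unfold gb
    simp only [map_mul]
    ring

end Pool.LibST49
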