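import Pool.Agent.LibST49.Defs

/-
PLAN (A1, SHORT/MEDIUM, algebra). All statements are coordinate computations; the third is
<2^-k (x + 2 s c), 2^k v (omega - c)> + 4^-k s 4^k v |omega-c|^2 + (t + <x,c> + s |c|^2) v = v (<x,omega> + s |omega|^2 + t)
(expand |omega - c|^2 = |omega|^2 - 2 <omega,c> + |c|^2 with norm_sub_sq_real / real_inner_self_eq_norm_sq). For Lam use
‖y‖^2 = ‖ini y‖^2 + (las y)^2 (EuclideanSpace.norm_sq_eq, Fin.sum_univ_castSucc). Norms on X m and P d are sup norms (Prod.norm_def).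
-/

set_option autoImplicit false

noncomputable section

open MeasureTheory Metric Set Filter

namespace Pool.LibST49

open Pool.LibSR53

private theorem A1_two (k : ℕ) : (2 : ℝ)⁻¹ ^ k * (2 : ℝ) ^ k = 1 := by
  rw [← mul_pow, inv_mul_cancel₀ (by norm_num), one_pow]

private theorem A1_four (k : ℕ) : (4 : ℝ)⁻¹ ^ k * (4 : ℝ) ^ k = 1 := by
  rw [← mul_pow, inv_mul_cancel₀ (by norm_num), one_pow]

private theorem A1_norm1 {m : ℕ} (Z : X m) : ‖Z.1‖ ≤ ‖Z‖ := norm_fst_le Z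

private theorem A1_norm2 {m : ℕ} (Z : X m) : |Z.2.1| ≤ ‖Z‖ :=
  (norm_fst_le Z.2).trans (norm_snd_le Z)

private theorem A1_norm3 {m : ℕ} (Z : X m) : |Z.2.2| ≤ ‖Z‖ :=
  (norm_snd_le Z.2).trans (norm_snd_le Z)

private theorem A1_norm_le {m : ℕ} (Z : X m) {r : ℝ} (h1 : ‖Z.1‖ ≤ r) (h2 : |Z.2.1| ≤ r)
    (h3 : |Z.2.2| ≤ r) : ‖Z‖ ≤ r := by
  rw [Prod.norm_def, Prod.norm_def]
  exact max_le h1 (max_le h2 h3)

private theorem A1_ini_sub {m : ℕ} (x y : E (m + 1)) : ini (x - y) = ini x - ini y := by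
  ext i
  simp [ini]

private theorem A1_las_sub {m : ℕ} (x y : E (m + 1)) : las (x - y) = las x - las y := by
  simp [las]

private theorem A1_norm_ini {m : ℕ} (y : E (m + 1)) : ‖ini y‖ ^ 2 + las y ^ 2 = ‖y‖ ^ 2 := by
  rw [EuclideanSpace.norm_sq_eq, EuclideanSpace.norm_sq_eq, Fin.sum_univ_castSucc]
  simp [ini, las]

theorem Lk_sub {m : ℕ} (k : ℕ) (c : E m) (Z Z' : X m) : Lk k c (Z - Z') = Lk k c Z - Lk k c Z' := by
  unfold Lk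
  refine Prod.ext ?_ (Prod.ext ?_ ?_)
  · simp only [Prod.fst_sub, Prod.snd_sub]
    module
  · simp only [Prod.fst_sub, Prod.snd_sub]
    ring
  · simp only [Prod.fst_sub, Prod.snd_sub, inner_sub_left]
    ring

theorem Lk_add {m : ℕ} (k : ℕ) (c : E m) (Z Z' : X m) : Lk k c (Z + Z') = Lk k c Z + Lk k c Z' := by
  unfold Lk
  refine Prod.ext ?_ (Prod.ext ?_ ?_)
  · simp only [Prod.fst_add, Prod.snd_add]
    module
  · simp only [Prod.fst_add, Prod.snd_add]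
    ring
  · simp only [Prod.fst_add, Prod.snd_add, inner_add_left]
    ring

theorem Lk_Li {m : ℕ} (k : ℕ) (c : E m) (Y : X m) : Lk k c (Li k c Y) = Y := by
  unfold Lk Li
  have h2 := A1_two k
  have h4 := A1_four k
  refine Prod.ext ?_ (Prod.ext ?_ ?_)
  · simp only
    rw [sub_add_cancel, smul_smul, h2, one_smul]
  · simp only
    rw [← mul_assoc, h4, one_mul]
  · simp only [inner_sub_left, real_inner_smul_left, real_inner_self_eq_norm_sq]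
    ring

theorem Li_Lk {m : ℕ} (k : ℕ) (c : E m) (Z : X m) : Li k c (Lk k c Z) = Z := by
  unfold Lk Li
  have h2 := A1_two k
  have h4 := A1_four k
  have h2' : (2 : ℝ) ^ k * (2 : ℝ)⁻¹ ^ k = 1 := by rw [mul_comm, h2]
  have h4' : (4 : ℝ) ^ k * ((4 : ℝ)⁻¹ ^ k * Z.2.1) = Z.2.1 := by
    rw [← mul_assoc, mul_comm ((4 : ℝ) ^ k), h4, one_mul]
  refine Prod.ext ?_ (Prod.ext ?_ ?_)
  · simp only
    rw [h4', smul_smul, h2', one_smul, add_sub_cancel_right]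
  · simp only
    rw [h4']
  · simp only
    rw [h4', real_inner_smul_left, ← mul_assoc, h2', one_mul, inner_add_left,
      real_inner_smul_left, real_inner_self_eq_norm_sq]
    ring

theorem ph_sub {m : ℕ} (Z Z' : X m) (z : V m) : ph (Z - Z') z = ph Z z - ph Z' z := by
  unfold ph
  simp only [Prod.fst_sub, Prod.snd_sub, inner_sub_left]
  ring

/-- the phase in plank coordinates -/
theorem ph_eq {m : ℕ} (k : ℕ) (c : E m) (Z : X m) (z : V m) :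
    ph Z z = pr3 (Lk k c Z) (ze k c z) := by
  unfold ph pr3 Lk ze
  have h2 := A1_two k
  have h4 := A1_four k
  simp only
  rw [real_inner_smul_left, real_inner_smul_right, inner_add_left, real_inner_smul_left,
    inner_sub_right, inner_sub_right, real_inner_self_eq_norm_sq, norm_sub_sq_real,
    real_inner_comm z.1 c]
  have e : (2 : ℝ)⁻¹ ^ k * ((2 : ℝ) ^ k * z.2 *
      (inner ℝ Z.1 z.1 - inner ℝ Z.1 c + 2 * Z.2.1 * (inner ℝ z.1 c - ‖c‖ ^ 2))) =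
      ((2 : ℝ)⁻¹ ^ k * (2 : ℝ) ^ k) * (z.2 *
      (inner ℝ Z.1 z.1 - inner ℝ Z.1 c + 2 * Z.2.1 * (inner ℝ z.1 c - ‖c‖ ^ 2))) := by ring
  have e' : (4 : ℝ)⁻¹ ^ k * Z.2.1 * ((4 : ℝ) ^ k * (z.2 * (‖z.1‖ ^ 2 - 2 * inner ℝ z.1 c +
      ‖c‖ ^ 2))) = ((4 : ℝ)⁻¹ ^ k * (4 : ℝ) ^ k) * (Z.2.1 * (z.2 * (‖z.1‖ ^ 2 -
      2 * inner ℝ z.1 c + ‖c‖ ^ 2))) := by ring
  rw [e, e', h2, h4]
  ring

/-- Mp is the adjoint of Lk -/
theorem pr3_Lk {m : ℕ} (k : ℕ) (c : E m) (Z y : X m) : pr3 (Lk k c Z) y = pr3 Z (Mp k c y) := by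
  unfold pr3 Lk Mp
  simp only
  rw [real_inner_smul_left, inner_add_left, real_inner_smul_left, inner_add_right,
    real_inner_smul_right, real_inner_smul_right, real_inner_comm c y.1]
  ring

theorem norm_Lk_le {m : ℕ} (k : ℕ) (c : E m) (Z : X m) :
    ‖Lk k c Z‖ ≤ (1 + ‖c‖) ^ 2 * ‖Z‖ := by
  have n1 := A1_norm1 Z
  have n2 := A1_norm2 Z
  have n3 := A1_norm3 Z
  have hc := norm_nonneg c
  have hZ := norm_nonneg Z
  have h2 : (2 : ℝ)⁻¹ ^ k ≤ 1 := pow_le_one₀ (by norm_num) (by norm_num)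
  have h4 : (4 : ℝ)⁻¹ ^ k ≤ 1 := pow_le_one₀ (by norm_num) (by norm_num)
  have h2p : (0 : ℝ) ≤ (2 : ℝ)⁻¹ ^ k := by positivity
  have h4p : (0 : ℝ) ≤ (4 : ℝ)⁻¹ ^ k := by positivity
  refine A1_norm_le _ ?_ ?_ ?_
  · show ‖(2 : ℝ)⁻¹ ^ k • (Z.1 + (2 * Z.2.1) • c)‖ ≤ _
    rw [norm_smul, Real.norm_of_nonneg h2p]
    have h5 : ‖Z.1 + (2 * Z.2.1) • c‖ ≤ ‖Z‖ + 2 * ‖Z‖ * ‖c‖ := by
      refine (norm_add_le _ _).trans (add_le_add n1 ?_)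
      rw [norm_smul, Real.norm_eq_abs, abs_mul, abs_two]
      gcongr
    calc (2 : ℝ)⁻¹ ^ k * ‖Z.1 + (2 * Z.2.1) • c‖ ≤ 1 * (‖Z‖ + 2 * ‖Z‖ * ‖c‖) :=
          mul_le_mul h2 h5 (norm_nonneg _) zero_le_one
      _ ≤ _ := by nlinarith [mul_nonneg hZ (mul_nonneg hc hc)]
  · show |(4 : ℝ)⁻¹ ^ k * Z.2.1| ≤ _
    rw [abs_mul, abs_of_nonneg h4p]
    calc (4 : ℝ)⁻¹ ^ k * |Z.2.1| ≤ 1 * ‖Z‖ := mul_le_mul h4 n2 (abs_nonneg _) zero_le_one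
      _ ≤ _ := by nlinarith [mul_nonneg hZ (mul_nonneg hc hc), mul_nonneg hZ hc]
  · show |Z.2.2 + inner ℝ Z.1 c + Z.2.1 * ‖c‖ ^ 2| ≤ _
    have h5 : |inner ℝ Z.1 c| ≤ ‖Z‖ * ‖c‖ :=
      (abs_real_inner_le_norm _ _).trans (mul_le_mul_of_nonneg_right n1 hc)
    have h6 : |Z.2.1 * ‖c‖ ^ 2| ≤ ‖Z‖ * ‖c‖ ^ 2 := by
      rw [abs_mul, abs_of_nonneg (sq_nonneg ‖c‖)]
      exact mul_le_mul_of_nonneg_right n2 (sq_nonneg _)
    calc |Z.2.2 + inner ℝ Z.1 c + Z.2.1 * ‖c‖ ^ 2|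
        ≤ |Z.2.2| + |inner ℝ Z.1 c| + |Z.2.1 * ‖c‖ ^ 2| := abs_add_three _ _ _
      _ ≤ ‖Z‖ + ‖Z‖ * ‖c‖ + ‖Z‖ * ‖c‖ ^ 2 := by linarith
      _ ≤ _ := by nlinarith [mul_nonneg hZ (mul_nonneg hc hc), mul_nonneg hZ hc]

theorem norm_Li_le {m : ℕ} (k : ℕ) (c : E m) (Y : X m) :
    ‖Li k c Y‖ ≤ 4 ^ k * (1 + ‖c‖) ^ 2 * ‖Y‖ := by
  have n1 := A1_norm1 Y
  have n2 := A1_norm2 Y
  have n3 := A1_norm3 Y
  have hc := norm_nonneg c
  have hZ := norm_nonneg Y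
  have h24 : (2 : ℝ) ^ k ≤ 4 ^ k := pow_le_pow_left₀ (by norm_num) (by norm_num) k
  have h1 : (1 : ℝ) ≤ 4 ^ k := one_le_pow₀ (by norm_num)
  have h2p : (0 : ℝ) ≤ (2 : ℝ) ^ k := by positivity
  have h4p : (0 : ℝ) ≤ (4 : ℝ) ^ k := by positivity
  have hcY := mul_nonneg hZ hc
  have hccY := mul_nonneg hZ (mul_nonneg hc hc)
  refine A1_norm_le _ ?_ ?_ ?_
  · show ‖(2 : ℝ) ^ k • Y.1 - (2 * ((4 : ℝ) ^ k * Y.2.1)) • c‖ ≤ _
    have h5 : ‖(2 : ℝ) ^ k • Y.1‖ ≤ 4 ^ k * ‖Y‖ := by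
      rw [norm_smul, Real.norm_of_nonneg h2p]
      exact mul_le_mul h24 n1 (norm_nonneg _) h4p
    have h6 : ‖(2 * ((4 : ℝ) ^ k * Y.2.1)) • c‖ ≤ 4 ^ k * (2 * (‖Y‖ * ‖c‖)) := by
      rw [norm_smul, Real.norm_eq_abs, abs_mul, abs_two, abs_mul, abs_of_nonneg h4p]
      calc 2 * (4 ^ k * |Y.2.1|) * ‖c‖ = 4 ^ k * (2 * (|Y.2.1| * ‖c‖)) := by ring
        _ ≤ 4 ^ k * (2 * (‖Y‖ * ‖c‖)) := by gcongr
    calc ‖(2 : ℝ) ^ k • Y.1 - (2 * ((4 : ℝ) ^ k * Y.2.1)) • c‖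
        ≤ ‖(2 : ℝ) ^ k • Y.1‖ + ‖(2 * ((4 : ℝ) ^ k * Y.2.1)) • c‖ := norm_sub_le _ _
      _ ≤ 4 ^ k * ‖Y‖ + 4 ^ k * (2 * (‖Y‖ * ‖c‖)) := add_le_add h5 h6
      _ = 4 ^ k * (‖Y‖ + 2 * (‖Y‖ * ‖c‖)) := by ring
      _ ≤ 4 ^ k * ((1 + ‖c‖) ^ 2 * ‖Y‖) := by
          apply mul_le_mul_of_nonneg_left _ h4p
          nlinarith
      _ = _ := by ring
  · show |(4 : ℝ) ^ k * Y.2.1| ≤ _
    rw [abs_mul, abs_of_nonneg h4p]
    calc (4 : ℝ) ^ k * |Y.2.1| ≤ 4 ^ k * ((1 + ‖c‖) ^ 2 * ‖Y‖) := by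
          apply mul_le_mul_of_nonneg_left _ h4p
          nlinarith
      _ = _ := by ring
  · show |Y.2.2 - (2 : ℝ) ^ k * inner ℝ Y.1 c + (4 : ℝ) ^ k * Y.2.1 * ‖c‖ ^ 2| ≤ _
    have h5 : |(2 : ℝ) ^ k * inner ℝ Y.1 c| ≤ 4 ^ k * (‖Y‖ * ‖c‖) := by
      rw [abs_mul, abs_of_nonneg h2p]
      exact mul_le_mul h24 ((abs_real_inner_le_norm _ _).trans
        (mul_le_mul_of_nonneg_right n1 hc)) (abs_nonneg _) h4p
    have h6 : |(4 : ℝ) ^ k * Y.2.1 * ‖c‖ ^ 2| ≤ 4 ^ k * (‖Y‖ * ‖c‖ ^ 2) := by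
      rw [abs_mul, abs_mul, abs_of_nonneg (sq_nonneg ‖c‖), abs_of_nonneg h4p, mul_assoc]
      gcongr
    have h7 : |Y.2.2| ≤ 4 ^ k * ‖Y‖ := by nlinarith
    calc |Y.2.2 - (2 : ℝ) ^ k * inner ℝ Y.1 c + (4 : ℝ) ^ k * Y.2.1 * ‖c‖ ^ 2|
        ≤ |Y.2.2 - (2 : ℝ) ^ k * inner ℝ Y.1 c| + |(4 : ℝ) ^ k * Y.2.1 * ‖c‖ ^ 2| :=
          abs_add_le _ _
      _ ≤ (|Y.2.2| + |(2 : ℝ) ^ k * inner ℝ Y.1 c|) + |(4 : ℝ) ^ k * Y.2.1 * ‖c‖ ^ 2| := by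
          gcongr
          exact abs_sub _ _
      _ ≤ (4 ^ k * ‖Y‖ + 4 ^ k * (‖Y‖ * ‖c‖)) + 4 ^ k * (‖Y‖ * ‖c‖ ^ 2) := by linarith
      _ = 4 ^ k * (‖Y‖ + ‖Y‖ * ‖c‖ + ‖Y‖ * ‖c‖ ^ 2) := by ring
      _ ≤ 4 ^ k * ((1 + ‖c‖) ^ 2 * ‖Y‖) := by
          apply mul_le_mul_of_nonneg_left _ h4p
          nlinarith
      _ = _ := by ring

theorem continuous_Lk {m : ℕ} (k : ℕ) (c : E m) : Continuous (Lk k c : X m → X m) := by
  unfold Lk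
  fun_prop

theorem continuous_Li {m : ℕ} (k : ℕ) (c : E m) : Continuous (Li k c : X m → X m) := by
  unfold Li
  fun_prop

theorem Lam_sub {m : ℕ} (p q : P (m + 1)) : Lam (p - q) = Lam p - Lam q := by
  unfold Lam
  refine Prod.ext ?_ (Prod.ext ?_ ?_)
  · simp only [Prod.fst_sub, A1_ini_sub]
  · simp only [Prod.fst_sub, Prod.snd_sub, A1_las_sub]
    ring
  · simp only [Prod.fst_sub, Prod.snd_sub, A1_las_sub]
    ring

theorem continuous_Lam {m : ℕ} : Continuous (Lam : P (m + 1) → X m) := by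
  have h1 : Continuous (ini : E (m + 1) → E m) := by
    unfold ini
    fun_prop
  have h2 : Continuous (las : E (m + 1) → ℝ) := by
    unfold las
    fun_prop
  unfold Lam
  fun_prop

theorem rad_Lam {m : ℕ} (p : P (m + 1)) : rad (Lam p) = p.2 := by
  unfold rad Lam
  ring

theorem ny_Lam {m : ℕ} (p : P (m + 1)) : ny (Lam p) = ‖p.1‖ := by
  unfold ny Lam
  have h : (p.2 + las p.1) / 2 - (p.2 - las p.1) / 2 = las p.1 := by ring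
  simp only
  rw [h, A1_norm_ini, Real.sqrt_sq (norm_nonneg _)]

theorem rad_sub {m : ℕ} (Z Z' : X m) : rad (Z - Z') = rad Z - rad Z' := by
  unfold rad
  simp only [Prod.fst_sub, Prod.snd_sub]
  ring

theorem abs_rad_le {m : ℕ} (Z : X m) : |rad Z| ≤ 2 * ‖Z‖ := by
  unfold rad
  have h1 := A1_norm2 Z
  have h2 := A1_norm3 Z
  have h3 := abs_add_le Z.2.1 Z.2.2
  linarith

theorem ny_nonneg {m : ℕ} (Z : X m) : 0 ≤ ny Z := by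
  exact Real.sqrt_nonneg _

/-- the norm of a point is at most |y| + |r| -/
theorem norm_le_ny {m : ℕ} (Z : X m) : ‖Z‖ ≤ ny Z + |rad Z| := by
  have h1 : ‖Z.1‖ ≤ ny Z := by
    unfold ny
    apply Real.le_sqrt_of_sq_le
    nlinarith [sq_nonneg (Z.2.2 - Z.2.1)]
  have h2 : |Z.2.2 - Z.2.1| ≤ ny Z := by
    unfold ny
    apply Real.le_sqrt_of_sq_le
    rw [sq_abs]
    nlinarith [sq_nonneg ‖Z.1‖]
  have h3 := abs_nonneg (rad Z)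
  have h0 := ny_nonneg Z
  have h4 := abs_le.1 h2
  have h5 := neg_abs_le (rad Z)
  have h6 := le_abs_self (rad Z)
  have h7 : rad Z = Z.2.1 + Z.2.2 := rfl
  refine A1_norm_le _ (by linarith) ?_ ?_
  · rw [abs_le]
    constructor <;> linarith [h4.1, h4.2]
  · rw [abs_le]
    constructor <;> linarith [h4.1, h4.2]

theorem ny_le {m : ℕ} (Z : X m) : ny Z ≤ 3 * ‖Z‖ := by
  unfold ny
  have h1 := A1_norm1 Z
  have h2 := abs_le.1 (A1_norm2 Z)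
  have h3 := abs_le.1 (A1_norm3 Z)
  have hZ := norm_nonneg Z
  rw [Real.sqrt_le_left (by positivity)]
  have h4 : (Z.2.2 - Z.2.1) ^ 2 ≤ (2 * ‖Z‖) ^ 2 := by
    apply sq_le_sq'
    · linarith [h2.1, h2.2, h3.1, h3.2]
    · linarith [h2.1, h2.2, h3.1, h3.2]
  have h5 : ‖Z.1‖ ^ 2 ≤ ‖Z‖ ^ 2 := pow_le_pow_left₀ (norm_nonneg _) h1 2
  nlinarith [sq_nonneg ‖Z‖]

theorem dist_le_Lam {m : ℕ} (p q : P (m + 1)) : dist p q ≤ 3 * ‖Lam p - Lam q‖ := by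
  rw [← Lam_sub, dist_eq_norm, Prod.norm_def]
  refine max_le ?_ ?_
  · rw [← ny_Lam]
    exact ny_le _
  · rw [Real.norm_eq_abs, ← rad_Lam (p - q)]
    have := abs_rad_le (Lam (p - q))
    have h := norm_nonneg (Lam (p - q))
    linarith

theorem Lam_le_dist {m : ℕ} (p q : P (m + 1)) : ‖Lam p - Lam q‖ ≤ 2 * dist p q := by
  rw [← Lam_sub, dist_eq_norm]
  have h1 := norm_le_ny (Lam (p - q))
  rw [ny_Lam, rad_Lam] at h1
  have h2 : ‖(p - q).1‖ ≤ ‖p - q‖ := norm_fst_le _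
  have h3 : |(p - q).2| ≤ ‖p - q‖ := norm_snd_le (p - q)
  linarith

theorem norm_w_le {m : ℕ} (k : ℕ) (j : Fin m → ℤ) (hj : j ∈ J m k) :
    ‖(w k j : E m)‖ ≤ 2 * Real.sqrt m := by
  have hj' : ∀ i, |((j i : ℤ) : ℝ)| ≤ 2 ^ (k + 1) := by
    intro i
    have h := Fintype.mem_piFinset.1 hj i
    rw [Finset.mem_Icc] at h
    rw [abs_le]
    constructor
    · exact_mod_cast h.1
    · exact_mod_cast h.2
  have h1 : ‖(iv j : E m)‖ ≤ Real.sqrt m * 2 ^ (k + 1) := by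
    rw [EuclideanSpace.norm_eq]
    rw [Real.sqrt_le_left (by positivity), mul_pow, Real.sq_sqrt (Nat.cast_nonneg m)]
    calc ∑ i, ‖(iv j : E m) i‖ ^ 2 ≤ ∑ _i : Fin m, ((2 : ℝ) ^ (k + 1)) ^ 2 := by
          refine Finset.sum_le_sum fun i _ => ?_
          exact pow_le_pow_left₀ (norm_nonneg _) (hj' i) 2
      _ = _ := by simp
  unfold w
  rw [norm_smul, Real.norm_of_nonneg (by positivity)]
  calc (2 : ℝ)⁻¹ ^ k * ‖(iv j : E m)‖ ≤ (2 : ℝ)⁻¹ ^ k * (Real.sqrt m * 2 ^ (k + 1)) := by gcongr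
    _ = ((2 : ℝ)⁻¹ ^ k * 2 ^ k) * (2 * Real.sqrt m) := by ring
    _ = _ := by rw [A1_two, one_mul]

theorem card_J_le (m k : ℕ) : ((J m k).card : ℝ) ≤ 5 ^ m * 2 ^ (k * m) := by
  unfold J
  rw [Fintype.card_piFinset, Finset.prod_const, Finset.card_univ, Fintype.card_fin, Int.card_Icc]
  have h : ((2 : ℤ) ^ (k + 1) + 1 - -(2 : ℤ) ^ (k + 1)).toNat = 4 * 2 ^ k + 1 := by
    have : (2 : ℤ) ^ (k + 1) + 1 - -(2 : ℤ) ^ (k + 1) = ((4 * 2 ^ k + 1 : ℕ) : ℤ) := by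
      push_cast
      ring
    rw [this, Int.toNat_natCast]
  rw [h, pow_mul, ← mul_pow]
  push_cast
  apply pow_le_pow_left₀ (by positivity)
  have : (1 : ℝ) ≤ 2 ^ k := one_le_pow₀ (by norm_num)
  linarith

end Pool.LibST49
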