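import Pool.Agent.LibST49.A1
import Pool.Agent.LibST49.P5

/-
PLAN (S0, MEDIUM). Elementary facts about Mk. Mk_neg: ny and |rad| are even. same_far: for p, q in sc k S: rad (Lam p - Lam q) = p.2 - q.2, |.| <= 2^k; ny = ‖p.1 - q.1‖; dist = max. If dist <= 8 2^k then
(1+dist/2^k)^(m+3) <= 9^(m+3), and (1+‖Z‖)^(-m/2) <= C (1+dist)^(-m/2) (dist_le_Lam). If dist > 8 2^k then ny = dist (|p.2-q.2| < dist) and ny - |rad| >= (7/8) dist >= dist/2^k, N >= m+3.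
(nu (m+1) = m/2.) cross_pt: ‖Lam p - Lam q‖ >= |rad|/2 = (q.2 - p.2)/2 >= (3/8) 2^l (q.2 >= 2^l, p.2 < 2^(k+1) <= 2^l/4), so (1+‖Z‖)^(-m/2) <= C 2^(-l m/2); |‖p.1-q.1‖ - q.2| <= |ny - |rad|| + p.2
<= |ny-|rad|| + 2^(k+1), so 1 + |..|/2^(k+1) <= 2 (1 + |ny-|rad||).
-/

set_option autoImplicit false

noncomputable section

open MeasureTheory Metric Set Filter

namespace Pool.LibST49

open Pool.LibSR53

theorem Mk_neg {m : ℕ} (N : ℕ) (Z : X m) : Mk N (-Z) = Mk N Z := by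
  have h1 : ny (-Z) = ny Z := by
    unfold ny
    congr 1
    simp only [Prod.fst_neg, Prod.snd_neg, norm_neg]
    ring
  have h2 : |rad (-Z)| = |rad Z| := by
    have : rad (-Z) = -rad Z := by
      unfold rad
      simp only [Prod.fst_neg, Prod.snd_neg]
      ring
    rw [this, abs_neg]
  unfold Mk
  rw [h1, h2, norm_neg]

theorem Mk_nonneg {m : ℕ} (N : ℕ) (Z : X m) : 0 ≤ Mk N Z := by
  unfold Mk
  positivity

private theorem S0_ny (m : ℕ) (p q : P (m + 1)) : ny (Lam p - Lam q) = ‖p.1 - q.1‖ := by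
  rw [← Lam_sub, ny_Lam]
  rfl

private theorem S0_rad (m : ℕ) (p q : P (m + 1)) : rad (Lam p - Lam q) = p.2 - q.2 := by
  rw [← Lam_sub, rad_Lam]
  rfl

private theorem S0_pow {a b c : ℝ} {n N : ℕ} (hn : n ≤ N) (ha : 1 ≤ a) (hb : 0 < b) (hc : 0 < c)
    (h : b ≤ c * a) : 1 / a ^ N ≤ c ^ n * (1 / b ^ n) := by
  have h1 : a ^ n ≤ a ^ N := pow_le_pow_right₀ ha hn
  have ha0 : 0 < a := by linarith
  have h2 : 1 / a ^ N ≤ 1 / a ^ n := one_div_le_one_div_of_le (by positivity) h1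
  have h3 : b ^ n ≤ c ^ n * a ^ n := by
    rw [← mul_pow]
    exact pow_le_pow_left₀ hb.le h n
  refine h2.trans ?_
  rw [mul_one_div, div_le_div_iff₀ (by positivity) (by positivity)]
  linarith

/-- Mk for points of the same scale, in the form used by far_sum -/
theorem Mk_same (m : ℕ) (N : ℕ) (hN : m + 3 ≤ N) : ∃ C : ℝ, 0 < C ∧ ∀ (k : ℕ)
    (p q : P (m + 1)), (2 : ℝ) ^ k ≤ p.2 → p.2 < 2 ^ (k + 1) → (2 : ℝ) ^ k ≤ q.2 →
    q.2 < 2 ^ (k + 1) → Mk N (Lam p - Lam q) ≤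
      C * ((1 + dist p q) ^ (-nu (m + 1)) / (1 + dist p q / 2 ^ k) ^ (m + 1 + 2)) := by
  have hnu : nu (m + 1) = (m : ℝ) / 2 := by
    unfold nu
    push_cast
    ring
  refine ⟨(1 / 3 : ℝ) ^ (-((m : ℝ) / 2)) * 9 ^ (m + 1 + 2), by positivity, ?_⟩
  intro k p q hp1 hp2 hq1 hq2
  rw [hnu]
  have hD0 : 0 ≤ dist p q := dist_nonneg
  have h2k : (1 : ℝ) ≤ 2 ^ k := one_le_pow₀ (by norm_num)
  have hpow : (2 : ℝ) ^ (k + 1) = 2 * 2 ^ k := by ring
  have hL := dist_le_Lam p q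
  -- first factor
  have hA : (1 + ‖Lam p - Lam q‖) ^ (-((m : ℝ) / 2)) ≤
      (1 / 3 : ℝ) ^ (-((m : ℝ) / 2)) * (1 + dist p q) ^ (-((m : ℝ) / 2)) := by
    rw [← Real.mul_rpow (by norm_num) (by positivity)]
    apply Real.rpow_le_rpow_of_nonpos (by positivity)
    · linarith
    · have : (0 : ℝ) ≤ m := Nat.cast_nonneg m
      linarith
  -- second factor
  have hB : 1 / (1 + abs (ny (Lam p - Lam q) - |rad (Lam p - Lam q)|)) ^ N ≤
      9 ^ (m + 1 + 2) * (1 / (1 + dist p q / 2 ^ k) ^ (m + 1 + 2)) := by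
    apply S0_pow (by omega) (by linarith [abs_nonneg (ny (Lam p - Lam q) - |rad (Lam p - Lam q)|)])
      (by positivity) (by norm_num)
    have hDk : dist p q / 2 ^ k ≤ dist p q := div_le_self hD0 h2k
    rcases le_or_gt (dist p q) (8 * 2 ^ k) with h | h
    · have h1 : dist p q / 2 ^ k ≤ 8 := by
        rw [div_le_iff₀ (by positivity)]
        exact h
      have := abs_nonneg (ny (Lam p - Lam q) - |rad (Lam p - Lam q)|)
      linarith
    · have hr : |p.2 - q.2| ≤ 2 ^ k := by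
        rw [abs_le]
        constructor <;> linarith
      have hd : dist p q = ‖p.1 - q.1‖ := by
        rw [Prod.dist_eq] at h ⊢
        rw [dist_eq_norm, Real.dist_eq] at h ⊢
        rcases le_total ‖p.1 - q.1‖ |p.2 - q.2| with h' | h'
        · rw [max_eq_right h'] at h
          linarith
        · rw [max_eq_left h']
      rw [S0_ny, S0_rad, ← hd]
      have h3 := le_abs_self (dist p q - |p.2 - q.2|)
      linarith
  have hA0 : 0 ≤ (1 + ‖Lam p - Lam q‖) ^ (-((m : ℝ) / 2)) := by positivity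
  have hB0 : 0 ≤ 1 / (1 + abs (ny (Lam p - Lam q) - |rad (Lam p - Lam q)|)) ^ N := by positivity
  have := mul_le_mul hA hB hB0 (by positivity)
  unfold Mk
  rw [div_eq_mul_one_div]
  refine this.trans (le_of_eq ?_)
  ring

/-- Mk for points of distant scales, in the form used by row_L3 -/
theorem Mk_cross (m : ℕ) (N : ℕ) (hN : m + 2 ≤ N) : ∃ C : ℝ, 0 < C ∧ ∀ (k l : ℕ), k + 3 ≤ l →
    ∀ (p q : P (m + 1)), (2 : ℝ) ^ k ≤ p.2 → p.2 < 2 ^ (k + 1) → (2 : ℝ) ^ l ≤ q.2 →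
    q.2 < 2 ^ (l + 1) → Mk N (Lam p - Lam q) ≤
      C * (2 : ℝ) ^ (-((l : ℝ) * ((m : ℝ) / 2))) *
        (1 / (1 + |‖p.1 - q.1‖ - q.2| / 2 ^ (k + 1)) ^ (m + 1 + 1)) := by
  refine ⟨(3 / 8 : ℝ) ^ (-((m : ℝ) / 2)) * 2 ^ (m + 1 + 1), by positivity, ?_⟩
  intro k l hkl p q hp1 hp2 hq1 hq2
  have hm0 : (0 : ℝ) ≤ m := Nat.cast_nonneg m
  have h2k : (1 : ℝ) ≤ 2 ^ (k + 1) := one_le_pow₀ (by norm_num)
  have hkl2 : (4 : ℝ) * 2 ^ (k + 1) ≤ 2 ^ l := by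
    have : (2 : ℝ) ^ (k + 3) ≤ 2 ^ l := pow_le_pow_right₀ (by norm_num) hkl
    have h4 : (2 : ℝ) ^ (k + 3) = 4 * 2 ^ (k + 1) := by ring
    linarith
  have hr0 : p.2 - q.2 < 0 := by
    have : (0 : ℝ) < 2 ^ (k + 1) := by positivity
    linarith
  have hrad : |rad (Lam p - Lam q)| = q.2 - p.2 := by
    rw [S0_rad, abs_of_neg hr0]
    ring
  have hZ := abs_rad_le (Lam p - Lam q)
  rw [hrad] at hZ
  have hZ' : (3 / 8 : ℝ) * 2 ^ l ≤ 1 + ‖Lam p - Lam q‖ := by linarith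
  have hA : (1 + ‖Lam p - Lam q‖) ^ (-((m : ℝ) / 2)) ≤
      (3 / 8 : ℝ) ^ (-((m : ℝ) / 2)) * (2 : ℝ) ^ (-((l : ℝ) * ((m : ℝ) / 2))) := by
    have h1 : (2 : ℝ) ^ (-((l : ℝ) * ((m : ℝ) / 2))) = ((2 : ℝ) ^ l) ^ (-((m : ℝ) / 2)) := by
      rw [← Real.rpow_natCast, ← Real.rpow_mul (by norm_num)]
      congr 1
      ring
    rw [h1, ← Real.mul_rpow (by norm_num) (by positivity)]
    apply Real.rpow_le_rpow_of_nonpos (by positivity) hZ'
    linarith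
  have hB : 1 / (1 + abs (ny (Lam p - Lam q) - |rad (Lam p - Lam q)|)) ^ N ≤
      2 ^ (m + 1 + 1) * (1 / (1 + |‖p.1 - q.1‖ - q.2| / 2 ^ (k + 1)) ^ (m + 1 + 1)) := by
    apply S0_pow (by omega) (by linarith [abs_nonneg (ny (Lam p - Lam q) - |rad (Lam p - Lam q)|)])
      (by positivity) (by norm_num)
    rw [hrad, S0_ny]
    have hp0 : 0 < p.2 := lt_of_lt_of_le (by positivity) hp1
    have h1 : |‖p.1 - q.1‖ - q.2| ≤ |‖p.1 - q.1‖ - (q.2 - p.2)| + 2 ^ (k + 1) := by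
      have h2 : ‖p.1 - q.1‖ - q.2 = (‖p.1 - q.1‖ - (q.2 - p.2)) - p.2 := by ring
      rw [h2]
      refine (abs_sub _ _).trans ?_
      rw [abs_of_pos hp0]
      linarith
    have h3 : |‖p.1 - q.1‖ - q.2| / 2 ^ (k + 1) ≤ |‖p.1 - q.1‖ - (q.2 - p.2)| + 1 := by
      rw [div_le_iff₀ (by positivity)]
      have h5 := abs_nonneg (‖p.1 - q.1‖ - (q.2 - p.2))
      nlinarith
    have h5 := abs_nonneg (‖p.1 - q.1‖ - (q.2 - p.2))
    linarith
  have hA0 : 0 ≤ (1 + ‖Lam p - Lam q‖) ^ (-((m : ℝ) / 2)) := by positivity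
  have hB0 : 0 ≤ 1 / (1 + abs (ny (Lam p - Lam q) - |rad (Lam p - Lam q)|)) ^ N := by positivity
  have := mul_le_mul hA hB hB0 (by positivity)
  unfold Mk
  rw [div_eq_mul_one_div]
  refine this.trans (le_of_eq ?_)
  ring

end Pool.LibST49
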