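import Pool.Agent.LibST49.B4
import Pool.Agent.LibST49.S0

set_option autoImplicit false

noncomputable section

open MeasureTheory Metric Set Filter

namespace Pool.LibST49

open Pool.LibSR53

private theorem Lam_inj {m : ℕ} : Function.Injective (Lam : P (m + 1) → X m) := by
  intro p q h
  have h1 := dist_le_Lam p q
  rw [h, sub_self, norm_zero, mul_zero] at h1
  exact dist_le_zero.1 h1

private theorem ex0_nonneg {m : ℕ} {q : ℝ} (hq : 2 < q) (hq2 : q * m ≤ 2 * ((m : ℝ) + 2)) :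
    0 ≤ ex0 m q := by
  unfold ex0
  have h0 : 0 < q - 1 := by linarith
  have h1 : (m : ℝ) ≤ ((m : ℝ) * q / 2 + 2) / (q - 1) := by
    rw [le_div_iff₀ h0]
    nlinarith
  linarith

/-- the coefficient of a point in its block -/
private def gam {m : ℕ} (γ : P (m + 1) → ℂ) (k : ℕ) (Z : X m) : ℂ :=
  open scoped Classical in
  if (2 : ℝ) ^ k ≤ rad Z ∧ rad Z ≤ 2 ^ (k + 1) then
    γ (Function.invFun Lam Z) *
      (((rad Z / 2 ^ k) ^ ((m : ℝ) / 2) * (2 : ℝ) ^ (-((m : ℝ) / 2)) : ℝ) : ℂ)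
  else 0

private theorem gam_le {m : ℕ} (γ : P (m + 1) → ℂ) (hγ : ∀ p, ‖γ p‖ ≤ 1) (k : ℕ) (Z : X m) :
    ‖gam γ k Z‖ ≤ 1 := by
  unfold gam
  split_ifs with h
  · rw [norm_mul, Complex.norm_real, Real.norm_eq_abs]
    have h2 : (0 : ℝ) < 2 ^ k := by positivity
    have h3 : 1 ≤ rad Z / 2 ^ k := by rw [le_div_iff₀ h2]; linarith [h.1]
    have h4 : rad Z / 2 ^ k ≤ 2 := by
      rw [div_le_iff₀ h2]
      have := h.2
      rw [pow_succ] at this
      linarith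
    have hm0 : (0 : ℝ) ≤ (m : ℝ) / 2 := by positivity
    have h5 : (rad Z / 2 ^ k) ^ ((m : ℝ) / 2) ≤ (2 : ℝ) ^ ((m : ℝ) / 2) :=
      Real.rpow_le_rpow (by linarith) h4 hm0
    have h6 : (2 : ℝ) ^ ((m : ℝ) / 2) * (2 : ℝ) ^ (-((m : ℝ) / 2)) = 1 := by
      rw [← Real.rpow_add (by norm_num), add_neg_cancel, Real.rpow_zero]
    have h7 : 0 ≤ (rad Z / 2 ^ k) ^ ((m : ℝ) / 2) * (2 : ℝ) ^ (-((m : ℝ) / 2)) := by positivity
    rw [abs_of_nonneg h7]
    have h8 : (rad Z / 2 ^ k) ^ ((m : ℝ) / 2) * (2 : ℝ) ^ (-((m : ℝ) / 2)) ≤ 1 := by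
      rw [← h6]
      gcongr
    calc _ ≤ 1 * 1 := mul_le_mul (hγ _) h8 h7 zero_le_one
      _ = 1 := one_mul 1
  · simp

private theorem gam_Lam {m : ℕ} (γ : P (m + 1) → ℂ) (b : V m → ℂ) (s0 : ℝ) (k : ℕ)
    (p : P (m + 1)) (h1 : (2 : ℝ) ^ k ≤ p.2) (h2 : p.2 < 2 ^ (k + 1)) (x : E (m + 1)) :
    γ p * Fb b s0 p x = (((2 : ℝ) ^ ((m : ℝ) / 2) : ℝ) : ℂ) *
      ((((2 : ℝ) ^ ((k : ℝ) * ((m : ℝ) / 2)) : ℝ) : ℂ) *
        (gam γ k (Lam p) * Kb b (Lam (x, -s0) - Lam p))) := by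
  unfold gam Fb
  have h3 : (0 : ℝ) < 2 ^ k := by positivity
  have hp : 0 < p.2 := lt_of_lt_of_le h3 h1
  rw [if_pos (by rw [rad_Lam]; exact ⟨h1, h2.le⟩), rad_Lam,
    Function.leftInverse_invFun Lam_inj p]
  have h4 : p.2 ^ nu (m + 1) = (2 : ℝ) ^ ((m : ℝ) / 2) * ((2 : ℝ) ^ ((k : ℝ) * ((m : ℝ) / 2)) *
      ((p.2 / 2 ^ k) ^ ((m : ℝ) / 2) * (2 : ℝ) ^ (-((m : ℝ) / 2)))) := by
    have e1 : nu (m + 1) = (m : ℝ) / 2 := by
      unfold nu; push_cast; ring
    have e2 : (2 : ℝ) ^ ((k : ℝ) * ((m : ℝ) / 2)) = ((2 : ℝ) ^ k) ^ ((m : ℝ) / 2) := by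
      rw [Real.rpow_mul (by norm_num), Real.rpow_natCast]
    have e3 : (2 : ℝ) ^ ((m : ℝ) / 2) * (2 : ℝ) ^ (-((m : ℝ) / 2)) = 1 := by
      rw [← Real.rpow_add (by norm_num), add_neg_cancel, Real.rpow_zero]
    rw [e1, e2, Real.div_rpow hp.le h3.le]
    have e4 : ((2 : ℝ) ^ k) ^ ((m : ℝ) / 2) ≠ 0 := (Real.rpow_pos_of_pos h3 _).ne'
    calc p.2 ^ ((m : ℝ) / 2) = ((2 : ℝ) ^ ((m : ℝ) / 2) * (2 : ℝ) ^ (-((m : ℝ) / 2))) *
        p.2 ^ ((m : ℝ) / 2) := by rw [e3, one_mul]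
      _ = _ := by field_simp
  rw [h4]
  push_cast
  ring

private theorem Wt_nn {m : ℕ} {β : Type} (B : Finset β) (k : β → ℕ) (S : β → Finset (X m)) :
    0 ≤ Wt B k S := by
  unfold Wt
  positivity

private theorem color_blk {m : ℕ} (hm : 1 ≤ m) {v0 v1 : ℝ} {b : V m → ℂ} (hb : Sb v0 v1 1 b)
    (q : ℝ) (hq : 2 < q) (hq2 : q * m ≤ 2 * ((m : ℝ) + 2)) (hC : CDec m q) (ε : ℝ)
    (hε : 0 < ε) (q1 : ℝ) (h1 : 1 < q1) (h2 : q1 < q / (q - 1)) (n : ℕ) : ∃ C : ℝ, 0 < C ∧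
    ∀ (C1 : ℝ), 0 ≤ C1 → ∀ (κ : ℕ) (T : Finset (P (m + 1))) (β : Type) [DecidableEq β]
    (kk : β → ℕ) (key : P (m + 1) → β) (col : β → ℕ),
    (∀ p ∈ T, col (key p) < n) →
    (∀ p ∈ T, (2 : ℝ) ^ (kk (key p)) ≤ p.2 ∧ p.2 < 2 ^ (kk (key p) + 1)) →
    (∀ c < n, Bl κ (m + 3) C1 ((T.image key).filter (fun i => col i = c)) kk
      (fun i => (T.filter (fun p => key p = i)).image Lam)) →
    ∀ γ : P (m + 1) → ℂ, (∀ p, ‖γ p‖ ≤ 1) →
    ∀ s0 : ℝ, ∫⁻ x, ‖∑ p ∈ T, γ p * Fb b s0 p x‖ₑ ^ q1 ≤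
      ENNReal.ofReal (C * (1 + C1) * (1 + |s0|) ^ ((m : ℝ) / 2) *
        (2 : ℝ) ^ ((κ : ℝ) * (ex0 m q + ε)) * wt T) := by
  obtain ⟨C, hCpos, hblk⟩ := strong_blk hm hb q hq hq2 hC (m + 3) ε hε q1 h1 h2
  set M : ℝ := (2 : ℝ) ^ ((m : ℝ) / 2) with hM
  have hMpos : 0 < M := by positivity
  refine ⟨M ^ q1 * ((n : ℝ) + 1) ^ (q1 - 1) * C, by positivity, ?_⟩
  intro C1 hC1 κ T β _ kk key col hcol hkk hBl γ hγ s0
  set B : ℕ → Finset β := fun c => (T.image key).filter (fun i => col i = c) with hB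
  set Sf : β → Finset (X m) := fun i => (T.filter (fun p => key p = i)).image Lam with hSf
  set g : β → X m → ℂ := fun i => gam γ (kk i) with hg
  have hg1 : ∀ i p, ‖g i p‖ ≤ 1 := fun i p => gam_le γ hγ (kk i) p
  -- the decomposition
  have hdec : ∀ x, ∑ p ∈ T, γ p * Fb b s0 p x =
      (M : ℂ) * ∑ c ∈ Finset.range n, Fn b s0 (B c) kk Sf g x := by
    intro x
    have e1 : ∑ p ∈ T, γ p * Fb b s0 p x =
        ∑ i ∈ T.image key, ∑ p ∈ T.filter (fun p => key p = i), γ p * Fb b s0 p x := by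
      rw [Finset.sum_fiberwise_of_maps_to]
      intro p hp
      exact Finset.mem_image_of_mem _ hp
    have e2 : ∀ i ∈ T.image key, ∑ p ∈ T.filter (fun p => key p = i), γ p * Fb b s0 p x =
        (M : ℂ) * ((((2 : ℝ) ^ ((kk i : ℝ) * ((m : ℝ) / 2)) : ℝ) : ℂ) *
          ∑ Z ∈ Sf i, g i Z * Kb b (Lam (x, -s0) - Z)) := by
      intro i _
      rw [hSf, Finset.sum_image (fun a _ b _ h => Lam_inj h), Finset.mul_sum, Finset.mul_sum]
      refine Finset.sum_congr rfl fun p hp => ?_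
      rw [Finset.mem_filter] at hp
      have h3 := hkk p hp.1
      rw [hp.2] at h3
      exact gam_Lam γ b s0 (kk i) p h3.1 h3.2 x
    rw [e1, Finset.sum_congr rfl e2, ← Finset.mul_sum]
    congr 1
    have e3 : ∀ i ∈ T.image key, col i ∈ Finset.range n := by
      intro i hi
      rw [Finset.mem_image] at hi
      obtain ⟨p, hp, rfl⟩ := hi
      exact Finset.mem_range.2 (hcol p hp)
    rw [← Finset.sum_fiberwise_of_maps_to e3]
    rfl
  -- measurability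
  have hmeas : ∀ c, Measurable (fun x => ‖Fn b s0 (B c) kk Sf g x‖ₑ ^ q1) := by
    intro c
    have hcont : Continuous (fun x => Fn b s0 (B c) kk Sf g x) := by
      unfold Fn
      refine continuous_finsetSum _ fun i _ => continuous_const.mul ?_
      refine continuous_finsetSum _ fun Z _ => continuous_const.mul ?_
      refine (Kb_cont hb).1.comp ?_
      exact (continuous_Lam.comp (by fun_prop)).sub continuous_const
    exact (hcont.measurable.enorm).pow_const q1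
  have hpt : ∀ x, ‖∑ p ∈ T, γ p * Fb b s0 p x‖ₑ ^ q1 ≤
      ENNReal.ofReal (M ^ q1 * ((n : ℝ) + 1) ^ (q1 - 1)) *
        ∑ c ∈ Finset.range n, ‖Fn b s0 (B c) kk Sf g x‖ₑ ^ q1 := by
    intro x
    rw [hdec x, enorm_mul, ENNReal.mul_rpow_of_nonneg _ _ (by linarith)]
    have e1 : ‖(M : ℂ)‖ₑ ^ q1 = ENNReal.ofReal (M ^ q1) := by
      rw [← ofReal_norm, Complex.norm_real, Real.norm_of_nonneg hMpos.le,
        ENNReal.ofReal_rpow_of_pos hMpos]
    rw [e1, ENNReal.ofReal_mul (by positivity), mul_assoc]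
    gcongr
    calc ‖∑ c ∈ Finset.range n, Fn b s0 (B c) kk Sf g x‖ₑ ^ q1
        ≤ (∑ c ∈ Finset.range n, ‖Fn b s0 (B c) kk Sf g x‖ₑ) ^ q1 := by
          gcongr
          exact enorm_sum_le _ _
      _ ≤ ((Finset.range n).card : ENNReal) ^ (q1 - 1) *
          ∑ c ∈ Finset.range n, ‖Fn b s0 (B c) kk Sf g x‖ₑ ^ q1 :=
          ENNReal.rpow_sum_le_const_mul_sum_rpow _ _ h1.le
      _ ≤ _ := by
          gcongr
          rw [Finset.card_range, ← ENNReal.ofReal_rpow_of_pos (by positivity)]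
          refine ENNReal.rpow_le_rpow ?_ (by linarith)
          rw [← ENNReal.ofReal_natCast]
          exact ENNReal.ofReal_le_ofReal (by linarith)
  have hWt : ∑ c ∈ Finset.range n, Wt (B c) kk Sf ≤ wt T := by
    have e3 : ∀ i ∈ T.image key, col i ∈ Finset.range n := by
      intro i hi
      rw [Finset.mem_image] at hi
      obtain ⟨p, hp, rfl⟩ := hi
      exact Finset.mem_range.2 (hcol p hp)
    have e4 : ∑ c ∈ Finset.range n, Wt (B c) kk Sf =
        ∑ i ∈ T.image key, (2 : ℝ) ^ (kk i * m) * ((Sf i).card : ℝ) := by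
      rw [← Finset.sum_fiberwise_of_maps_to e3]
      rfl
    rw [e4]
    have e5 : wt T = ∑ i ∈ T.image key, ∑ p ∈ T.filter (fun p => key p = i),
        p.2 ^ (m + 1 - 1) := by
      unfold wt
      rw [Finset.sum_fiberwise_of_maps_to]
      intro p hp
      exact Finset.mem_image_of_mem _ hp
    rw [e5]
    refine Finset.sum_le_sum fun i _ => ?_
    calc (2 : ℝ) ^ (kk i * m) * ((Sf i).card : ℝ)
        ≤ (2 : ℝ) ^ (kk i * m) * ((T.filter (fun p => key p = i)).card : ℝ) := by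
          gcongr
          exact Finset.card_image_le
      _ = ∑ p ∈ T.filter (fun p => key p = i), ((2 : ℝ) ^ (kk i)) ^ m := by
          rw [Finset.sum_const, nsmul_eq_mul, pow_mul, mul_comm]
      _ ≤ _ := by
          refine Finset.sum_le_sum fun p hp => ?_
          rw [Finset.mem_filter] at hp
          have h3 := hkk p hp.1
          rw [hp.2] at h3
          rw [Nat.add_sub_cancel]
          exact pow_le_pow_left₀ (by positivity) h3.1 m
  have hD0 : 0 ≤ C * (1 + C1) * (1 + |s0|) ^ ((m : ℝ) / 2) *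
        (2 : ℝ) ^ ((κ : ℝ) * (ex0 m q + ε)) := by positivity
  obtain ⟨D, hD⟩ : ∃ D : ℝ, D = C * (1 + C1) * (1 + |s0|) ^ ((m : ℝ) / 2) *
        (2 : ℝ) ^ ((κ : ℝ) * (ex0 m q + ε)) := ⟨_, rfl⟩
  rw [← hD] at hD0
  have hb2 : ∀ c ∈ Finset.range n, ∫⁻ x, ‖Fn b s0 (B c) kk Sf g x‖ₑ ^ q1 ≤
      ENNReal.ofReal (D * Wt (B c) kk Sf) := by
    intro c hc
    have := hblk C1 hC1 κ β (B c) kk Sf (hBl c (Finset.mem_range.1 hc)) g hg1 s0
    rw [← hD] at this
    exact this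
  have hnn : ∀ c ∈ Finset.range n, 0 ≤ D * Wt (B c) kk Sf := by
    intro c _
    exact mul_nonneg hD0 (Wt_nn _ _ _)
  obtain ⟨K, hK⟩ : ∃ K : ℝ, K = M ^ q1 * ((n : ℝ) + 1) ^ (q1 - 1) := ⟨_, rfl⟩
  have hK0 : 0 ≤ K := by rw [hK]; positivity
  rw [← hK] at hpt
  have hgoal : M ^ q1 * ((n : ℝ) + 1) ^ (q1 - 1) * C * (1 + C1) * (1 + |s0|) ^ ((m : ℝ) / 2) *
        (2 : ℝ) ^ ((κ : ℝ) * (ex0 m q + ε)) * wt T = K * (D * wt T) := by
    rw [hK, hD]; ring
  rw [hgoal]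
  calc ∫⁻ x, ‖∑ p ∈ T, γ p * Fb b s0 p x‖ₑ ^ q1
      ≤ ∫⁻ x, ENNReal.ofReal K *
        ∑ c ∈ Finset.range n, ‖Fn b s0 (B c) kk Sf g x‖ₑ ^ q1 := lintegral_mono hpt
    _ = ENNReal.ofReal K *
        ∑ c ∈ Finset.range n, ∫⁻ x, ‖Fn b s0 (B c) kk Sf g x‖ₑ ^ q1 := by
        rw [lintegral_const_mul' _ _ ENNReal.ofReal_ne_top, lintegral_finsetSum]
        exact fun c _ => hmeas c
    _ ≤ ENNReal.ofReal K *
        ∑ c ∈ Finset.range n, ENNReal.ofReal (D * Wt (B c) kk Sf) :=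
        mul_le_mul_right (Finset.sum_le_sum hb2) _
    _ = ENNReal.ofReal (K * (D * ∑ c ∈ Finset.range n, Wt (B c) kk Sf)) := by
        rw [← ENNReal.ofReal_sum_of_nonneg hnn, ← ENNReal.ofReal_mul hK0, ← Finset.mul_sum]
    _ ≤ _ := by
        refine ENNReal.ofReal_le_ofReal ?_
        exact mul_le_mul_of_nonneg_left (mul_le_mul_of_nonneg_left hWt hD0) hK0

private theorem Mk_far {m : ℕ} (Z : X m) (h : 4 * |rad Z| ≤ ‖Z‖) :
    Mk (m + 3) Z ≤ 2 ^ (m + 3) * (1 / (1 + ‖Z‖) ^ (m + 3)) := by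
  unfold Mk
  have h1 := norm_le_ny Z
  have h2 : (1 + ‖Z‖) / 2 ≤ 1 + abs (ny Z - |rad Z|) := by
    have := le_abs_self (ny Z - |rad Z|)
    have := abs_nonneg (rad Z)
    linarith
  have h3 : 0 ≤ ‖Z‖ := norm_nonneg _
  have h4 : (1 + ‖Z‖) ^ (-((m : ℝ) / 2)) ≤ 1 :=
    Real.rpow_le_one_of_one_le_of_nonpos (by linarith) (by
      have : (0 : ℝ) ≤ (m : ℝ) / 2 := by positivity
      linarith)
  calc (1 + ‖Z‖) ^ (-((m : ℝ) / 2)) / (1 + abs (ny Z - |rad Z|)) ^ (m + 3)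
      ≤ 1 / ((1 + ‖Z‖) / 2) ^ (m + 3) := by
        gcongr
    _ = _ := by
        rw [div_pow]
        field_simp

/-- one scale -/
theorem one_scale {m : ℕ} (hm : 1 ≤ m) {v0 v1 : ℝ} {b : V m → ℂ} (hb : Sb v0 v1 1 b)
    (q : ℝ) (hq : 2 < q) (hq2 : q * m ≤ 2 * ((m : ℝ) + 2)) (hC : CDec m q) (ε : ℝ)
    (hε : 0 < ε) (q1 : ℝ) (h1 : 1 < q1) (h2 : q1 < q / (q - 1)) : ∃ C : ℝ, 0 < C ∧
    ∀ (k : ℕ) (S : Finset (P (m + 1))), Sp S → ∀ γ : P (m + 1) → ℂ, (∀ p, ‖γ p‖ ≤ 1) →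
    ∀ s0 : ℝ, ∫⁻ x, ‖∑ p ∈ sc k S, γ p * Fb b s0 p x‖ₑ ^ q1 ≤
      ENNReal.ofReal (C * (1 + |s0|) ^ ((m : ℝ) / 2) * (2 : ℝ) ^ ((k : ℝ) * (ex0 m q + ε)) *
        wt (sc k S)) := by
  classical
  obtain ⟨C, hCpos, hcb⟩ := color_blk hm hb q hq hq2 hC ε hε q1 h1 h2 200
  obtain ⟨C2, hC2, hsep⟩ := sum_sep m (1 / 3) (by norm_num)
  set C1 : ℝ := 2 ^ (m + 3) * C2 with hC1
  have hC1pos : 0 < C1 := by positivity
  refine ⟨C * (1 + C1), by positivity, ?_⟩
  intro k S hS γ hγ s0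
  obtain ⟨κ, hκ1, hκ2⟩ : ∃ κ : ℕ, 2 * κ ≤ k ∧ k ≤ 2 * κ + 1 := ⟨k / 2, by omega, by omega⟩
  have h4κ : (4 : ℝ) ^ κ ≤ 2 ^ k := by
    calc (4 : ℝ) ^ κ = 2 ^ (2 * κ) := by rw [pow_mul]; norm_num
      _ ≤ 2 ^ k := pow_le_pow_right₀ (by norm_num) hκ1
  have h2k : (2 : ℝ) ^ k ≤ 2 * 4 ^ κ := by
    calc (2 : ℝ) ^ k ≤ 2 ^ (2 * κ + 1) := pow_le_pow_right₀ (by norm_num) hκ2
      _ = 2 * 4 ^ κ := by rw [pow_succ, pow_mul]; norm_num; ring
  have h4pos : (0 : ℝ) < 4 ^ κ := by positivity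
  set T : Finset (P (m + 1)) := sc k S with hT
  have hTS : ∀ p ∈ T, p ∈ S ∧ (2 : ℝ) ^ k ≤ p.2 ∧ p.2 < 2 ^ (k + 1) := by
    intro p hp
    rw [hT] at hp
    unfold sc at hp
    rw [Finset.mem_filter] at hp
    exact hp
  set key : P (m + 1) → ℤ := fun p => ⌊(Lam p).2.1 / 4 ^ κ⌋ with hkey
  have hkey1 : ∀ p, (key p : ℝ) * 4 ^ κ ≤ (Lam p).2.1 ∧ (Lam p).2.1 < (key p + 1) * 4 ^ κ := by
    intro p
    constructor
    · rw [← le_div_iff₀ h4pos]; exact Int.floor_le _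
    · rw [← div_lt_iff₀ h4pos]; exact Int.lt_floor_add_one _
  have hfar : ∀ p q : P (m + 1), key p ≠ key q → ((key p) % 200).toNat = ((key q) % 200).toNat →
      199 * (4 : ℝ) ^ κ ≤ ‖Lam p - Lam q‖ := by
    intro p q hne hcol
    have e1 := Int.emod_nonneg (key p) (show (200 : ℤ) ≠ 0 by norm_num)
    have e2 := Int.emod_nonneg (key q) (show (200 : ℤ) ≠ 0 by norm_num)
    have e3 : (key p) % 200 = (key q) % 200 := by omega
    have e4 : (200 : ℤ) ≤ |key p - key q| := by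
      rcases abs_cases (key p - key q) with ⟨h, _⟩ | ⟨h, _⟩ <;> rw [h] <;> omega
    have e5 : (200 : ℝ) ≤ |(key p : ℝ) - (key q : ℝ)| := by exact_mod_cast e4
    have e6 : 199 * (4 : ℝ) ^ κ ≤ |(Lam p).2.1 - (Lam q).2.1| := by
      have hp := hkey1 p
      have hq' := hkey1 q
      rcases abs_cases ((key p : ℝ) - (key q : ℝ)) with ⟨h, _⟩ | ⟨h, _⟩
      · rw [h] at e5
        refine le_trans ?_ (le_abs_self _)
        nlinarith
      · rw [h] at e5
        refine le_trans ?_ (neg_le_abs _)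
        nlinarith
    refine e6.trans ?_
    have e7 : ‖(Lam p - Lam q).2‖ ≤ ‖Lam p - Lam q‖ := norm_snd_le _
    have e8 : ‖(Lam p - Lam q).2.1‖ ≤ ‖(Lam p - Lam q).2‖ := norm_fst_le _
    rw [Real.norm_eq_abs] at e8
    exact e8.trans e7
  have hsepT : ∀ p ∈ T, ∀ q ∈ T, p ≠ q → 1 / 3 ≤ ‖Lam p - Lam q‖ := by
    intro p hp q hq' hpq
    have e1 := hS.sep p (hTS p hp).1 q (hTS q hq').1 hpq
    have e2 := dist_le_Lam p q
    linarith
  have hBl : ∀ c < 200, Bl κ (m + 3) C1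
      ((T.image key).filter (fun i => ((i % 200).toNat) = c)) (fun _ : ℤ => k)
      (fun i => (T.filter (fun p => key p = i)).image Lam) := by
    intro c _
    refine ⟨fun _ _ => h4κ, ?_, ?_, ?_, ?_, ?_⟩
    · intro i _ Z hZ
      rw [Finset.mem_image] at hZ
      obtain ⟨p, hp, rfl⟩ := hZ
      rw [Finset.mem_filter] at hp
      have := hTS p hp.1
      rw [rad_Lam]
      exact ⟨this.2.1, this.2.2.le⟩
    · intro i _ Z hZ Z' hZ'
      rw [Finset.mem_image] at hZ hZ'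
      obtain ⟨p, hp, rfl⟩ := hZ
      obtain ⟨p', hp', rfl⟩ := hZ'
      rw [Finset.mem_filter] at hp hp'
      have e1 := hkey1 p
      have e2 := hkey1 p'
      rw [hp.2] at e1
      rw [hp'.2] at e2
      rw [abs_le]
      constructor <;> nlinarith
    · intro i _ Z hZ Z' hZ' hne
      rw [Finset.mem_image] at hZ hZ'
      obtain ⟨p, hp, rfl⟩ := hZ
      obtain ⟨p', hp', rfl⟩ := hZ'
      rw [Finset.mem_filter] at hp hp'
      exact hsepT p hp.1 p' hp'.1 (fun h => hne (by rw [h]))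
    · intro i hi i' hi' hne Z hZ Z' hZ'
      rw [Finset.mem_image] at hZ hZ'
      obtain ⟨p, hp, rfl⟩ := hZ
      obtain ⟨p', hp', rfl⟩ := hZ'
      rw [Finset.mem_filter] at hp hp' hi hi'
      have := hfar p p' (by rw [hp.2, hp'.2]; exact hne)
        (by rw [hp.2, hp'.2, hi.2, hi'.2])
      nlinarith
    · rw [Finset.mul_sum]
      refine Finset.sum_le_sum fun i hi => ?_
      set Si : Finset (X m) := (T.filter (fun p => key p = i)).image Lam with hSi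
      have hb1 : ∀ Z ∈ Si, ∑ i' ∈ (((T.image key).filter
          (fun i => ((i % 200).toNat) = c)).erase i),
          ∑ Z' ∈ (T.filter (fun p => key p = i')).image Lam, Mk (m + 3) (Z - Z') ≤ C1 := by
        intro Z hZ
        rw [hSi, Finset.mem_image] at hZ
        obtain ⟨p, hp, rfl⟩ := hZ
        rw [Finset.mem_filter] at hp hi
        calc _ ≤ ∑ i' ∈ (((T.image key).filter (fun i => ((i % 200).toNat) = c)).erase i),
            ∑ p' ∈ T.filter (fun p => key p = i'),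
              2 ^ (m + 3) * (1 / (1 + ‖Lam p' - Lam p‖) ^ (m + 3)) := by
              refine Finset.sum_le_sum fun i' hi' => ?_
              rw [Finset.sum_image (fun a _ b _ h => Lam_inj h)]
              refine Finset.sum_le_sum fun p' hp' => ?_
              rw [Finset.mem_erase, Finset.mem_filter] at hi'
              rw [Finset.mem_filter] at hp'
              have e1 := hfar p p' (by rw [hp.2, hp'.2]; exact fun h => hi'.1 h.symm)
                (by rw [hp.2, hp'.2, hi.2, hi'.2.2])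
              have e2 : |rad (Lam p - Lam p')| ≤ 2 ^ k := by
                rw [rad_sub, rad_Lam, rad_Lam, abs_le]
                have u1 := hTS p hp.1
                have u2 := hTS p' hp'.1
                rw [pow_succ] at u1 u2
                constructor <;> linarith
              rw [norm_sub_rev (Lam p')]
              exact Mk_far _ (by linarith)
          _ ≤ ∑ p' ∈ T, 2 ^ (m + 3) * (1 / (1 + ‖Lam p' - Lam p‖) ^ (m + 3)) := by
              have e1 : ∑ p' ∈ T, (2 : ℝ) ^ (m + 3) * (1 / (1 + ‖Lam p' - Lam p‖) ^ (m + 3)) =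
                  ∑ i' ∈ T.image key, ∑ p' ∈ T.filter (fun p => key p = i'),
                    (2 : ℝ) ^ (m + 3) * (1 / (1 + ‖Lam p' - Lam p‖) ^ (m + 3)) := by
                rw [Finset.sum_fiberwise_of_maps_to]
                intro p hp
                exact Finset.mem_image_of_mem _ hp
              rw [e1]
              refine Finset.sum_le_sum_of_subset_of_nonneg ?_ ?_
              · intro i' hi'
                exact (Finset.mem_filter.1 (Finset.mem_erase.1 hi').2).1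
              · intro i' _ _
                exact Finset.sum_nonneg fun p' _ => by positivity
          _ = 2 ^ (m + 3) * ∑ Z' ∈ T.image Lam, 1 / (1 + ‖Z' - Lam p‖) ^ (m + 3) := by
              rw [Finset.sum_image (fun a _ b _ h => Lam_inj h), Finset.mul_sum]
          _ ≤ 2 ^ (m + 3) * C2 := by
              gcongr
              refine hsep (T.image Lam) ?_ (Lam p)
              intro Z hZ Z' hZ' hne
              rw [Finset.mem_image] at hZ hZ'
              obtain ⟨a, ha, rfl⟩ := hZ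
              obtain ⟨a', ha', rfl⟩ := hZ'
              exact hsepT a ha a' ha' (fun h => hne (by rw [h]))
      have e2 : (2 : ℝ) ^ ((((k : ℕ) : ℝ) + ((k : ℕ) : ℝ)) * ((m : ℝ) / 2)) = 2 ^ (k * m) := by
        rw [← Real.rpow_natCast]
        congr 1
        push_cast
        ring
      calc _ = 2 ^ (k * m) * ∑ Z ∈ Si, ∑ i' ∈ (((T.image key).filter
          (fun i => ((i % 200).toNat) = c)).erase i),
          ∑ Z' ∈ (T.filter (fun p => key p = i')).image Lam, Mk (m + 3) (Z - Z') := by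
            rw [Finset.sum_comm' (t' := Si) (s' := fun _ => (((T.image key).filter
              (fun i => ((i % 200).toNat) = c)).erase i)) (by tauto), Finset.mul_sum]
            refine Finset.sum_congr rfl fun Z _ => ?_
            rw [Finset.mul_sum]
            refine Finset.sum_congr rfl fun i' _ => ?_
            rw [Finset.mul_sum]
            refine Finset.sum_congr rfl fun Z' _ => ?_
            rw [e2]
        _ ≤ 2 ^ (k * m) * ∑ Z ∈ Si, C1 := by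
            gcongr with Z hZ
            exact hb1 Z hZ
        _ = _ := by
            rw [Finset.sum_const, nsmul_eq_mul]
            ring
  have hmain := hcb C1 hC1pos.le κ T ℤ (fun _ => k) key (fun i => (i % 200).toNat)
    (fun p _ => by
      have e1 := Int.emod_nonneg (key p) (show (200 : ℤ) ≠ 0 by norm_num)
      have e2 := Int.emod_lt_of_pos (key p) (show (0 : ℤ) < 200 by norm_num)
      show ((key p) % 200).toNat < 200
      omega)
    (fun p hp => (hTS p hp).2) hBl γ hγ s0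
  refine hmain.trans (ENNReal.ofReal_le_ofReal ?_)
  have hexp : (2 : ℝ) ^ ((κ : ℝ) * (ex0 m q + ε)) ≤ (2 : ℝ) ^ ((k : ℝ) * (ex0 m q + ε)) := by
    refine Real.rpow_le_rpow_of_exponent_le (by norm_num) ?_
    have e1 := ex0_nonneg hq hq2
    have e2 : (κ : ℝ) ≤ k := by exact_mod_cast (by omega : κ ≤ k)
    exact mul_le_mul_of_nonneg_right e2 (by linarith)
  have hwt : 0 ≤ wt T := by
    unfold wt
    refine Finset.sum_nonneg fun p hp => ?_
    have := (hTS p hp).2.1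
    have h3 : (0 : ℝ) < 2 ^ k := by positivity
    exact pow_nonneg (by linarith) _
  gcongr

end Pool.LibST49
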