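import Pool.Agent.LibST49.Defs

/-
PLAN (P1, MEDIUM/STRONG). Product of one variable functions. One variable: for a < b, a' < a, b < b' there is a smooth u : R -> R, u = 1 on [a,b], support in
[a',b'] (products of Real.smoothTransition or ContDiffBump), as Schwartz function (HasCompactSupport.toSchwartzMap); φ = inverse Fourier transform of u, a Schwartz function, so
φ(y) = INT e1(y t) u(t) dt. Take u_B with [a,b] = [-ρ,ρ], support in [-(ρ+1), ρ+1] (used for the m coordinates of zeta.1 and for zeta.2.1) and u_A with [a,b] = [v0,v1], support in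
[v0/2, 2 v1]. h > 0 small: h <= 1, 1/h > 2ρ+2 and 1/h > 3 v1 (so the translates by l/h, l /= 0, of the supports do not meet the reproducing intervals). Poisson summation
(SchwartzMap.tsum_eq_tsum_fourier, applied to y -> h φ(h y - a) e1(-(h y - a) t)): SUM_n h φ(h n - a) e1(-(h n - a) t) = SUM_l u(t + l/h) = 1 for t in [a,b]; summability from decay.
Φ Z = PROD_i h φ_B(Z.1 i) * h φ_B(Z.2.1) * h φ_A(Z.2.2), Φh ζ = h^(m+2) PROD_i u_B(ζ.1 i) * u_B(ζ.2.1) * u_A(ζ.2.2), R = sqrt m (ρ+1) + ρ + 1 or larger (‖ζ.1‖ <= sqrt m max|ζ.1 i|).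
four: Fubini for products (integral_fintype_prod_eq_prod after EuclideanSpace.volume_preserving_..., integral_prod_mul). rep: HasSum of products (HasSum.mul_of_nonneg / Summable.mul_norm,
induction on the number of coordinates, or hasSum over Fin m -> Z via Fintype induction with the equivalence Fin.consEquiv). dec: product of one variable decays; 1 + ‖Z‖ <= PROD (1+|.|).
-/

set_option autoImplicit false

noncomputable section

open MeasureTheory Metric Set Filter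

namespace Pool.LibST49

open Pool.LibSR53
open scoped SchwartzMap FourierTransform


private theorem P1_e1_add (s t : ℝ) : e1 (s + t) = e1 s * e1 t := by
  unfold e1
  rw [← Complex.exp_add]
  congr 1
  push_cast
  ring

private theorem P1_e1_zero : e1 0 = 1 := by
  unfold e1
  simp

private theorem P1_norm_e1 (t : ℝ) : ‖e1 t‖ = 1 := by
  unfold e1
  rw [show (2 * (Real.pi : ℂ) * Complex.I * (t : ℂ)) = ((2 * Real.pi * t : ℝ) : ℂ) * Complex.I by
    push_cast; ring]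
  exact Complex.norm_exp_ofReal_mul_I _

private theorem P1_contDiff_e1 : ContDiff ℝ (↑(⊤ : ℕ∞)) e1 := by
  unfold e1
  exact (contDiff_const.mul Complex.ofRealCLM.contDiff).cexp

private theorem P1_cont_e1 : Continuous e1 := P1_contDiff_e1.continuous

private theorem P1_fourierInv (f : 𝓢(ℝ, ℂ)) (y : ℝ) : 𝓕⁻ f y = ∫ t, e1 (y * t) * f t := by
  rw [SchwartzMap.fourierInv_coe, Real.fourierInv_eq']
  refine integral_congr_ae (Filter.Eventually.of_forall fun t => ?_)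
  simp only [e1, smul_eq_mul]
  congr 2
  have : inner ℝ t y = y * t := by
    rw [RCLike.inner_apply, conj_trivial]
  rw [this]
  push_cast
  ring

private theorem P1_bump (a b a' b' : ℝ) (hab : a ≤ b) (ha : a' < a) (hb : b < b') :
    ∃ u : 𝓢(ℝ, ℂ), (∀ t, a ≤ t → t ≤ b → u t = 1) ∧ (∀ t, u t ≠ 0 → a' ≤ t ∧ t ≤ b') := by
  obtain ⟨δ, hδ, hδa, hδb⟩ : ∃ δ : ℝ, 0 < δ ∧ 2 * δ ≤ a - a' ∧ 2 * δ ≤ b' - b := by
    refine ⟨min ((a - a') / 2) ((b' - b) / 2), lt_min (by linarith) (by linarith), ?_, ?_⟩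
    · linarith [min_le_left ((a - a') / 2) ((b' - b) / 2)]
    · linarith [min_le_right ((a - a') / 2) ((b' - b) / 2)]
  let f : ContDiffBump ((a + b) / 2 : ℝ) := ⟨(b - a) / 2 + δ, (b - a) / 2 + 2 * δ, by linarith, by linarith⟩
  have h1 : ContDiff ℝ (↑(⊤ : ℕ∞)) (fun x => ((f x : ℝ) : ℂ)) := Complex.ofRealCLM.contDiff.comp f.contDiff
  have h2 : HasCompactSupport (fun x => ((f x : ℝ) : ℂ)) :=
    f.hasCompactSupport.comp_left (g := fun t : ℝ => (t : ℂ)) Complex.ofReal_zero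
  refine ⟨h2.toSchwartzMap h1, ?_, ?_⟩
  · intro t ht ht'
    have : f t = 1 := by
      apply f.one_of_mem_closedBall
      rw [mem_closedBall, Real.dist_eq, abs_le]
      constructor
      · change -((b - a) / 2 + δ) ≤ t - (a + b) / 2
        linarith
      · change t - (a + b) / 2 ≤ (b - a) / 2 + δ
        linarith
    change ((f t : ℝ) : ℂ) = 1
    rw [this]
    simp
  · intro t ht
    by_contra h
    apply ht
    change ((f t : ℝ) : ℂ) = 0
    rw [f.zero_of_le_dist]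
    · simp
    · change (b - a) / 2 + 2 * δ ≤ dist t ((a + b) / 2)
      rw [Real.dist_eq, le_abs]
      by_cases h1 : a' ≤ t
      · left
        have h2 : b' < t := by
          by_contra h3
          exact h ⟨h1, not_lt.1 h3⟩
        linarith
      · right
        push Not at h1
        linarith

private theorem P1_decay (f : 𝓢(ℝ, ℂ)) (k : ℕ) : ∃ C : ℝ, 0 < C ∧ ∀ x, ‖f x‖ ≤ C / (1 + |x|) ^ k := by
  refine ⟨2 ^ k * (Finset.Iic (k, 0)).sup (fun m => SchwartzMap.seminorm ℝ m.1 m.2) f + 1, by positivity, fun x => ?_⟩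
  have h := SchwartzMap.one_add_le_sup_seminorm_apply (𝕜 := ℝ) (m := (k, 0)) (k := k) (n := 0) le_rfl le_rfl f x
  rw [norm_iteratedFDeriv_zero] at h
  have hp : 0 < (1 + |x|) ^ k := by positivity
  rw [le_div_iff₀ hp, mul_comm]
  rw [Real.norm_eq_abs] at h
  linarith

private theorem P1_summable (f : 𝓢(ℝ, ℂ)) : Summable fun n : ℤ => f n :=
  summable_of_isBigO (Real.summable_abs_int_rpow one_lt_two)
    ((f.isBigO_cocompact_rpow (-2)).comp_tendsto Int.tendsto_coe_cofinite)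

/-- the sampling function of one variable -/
private theorem P1_one (a b a' b' h : ℝ) (hab : a ≤ b) (ha : a' < a) (hb : b < b') (h0 : 0 < h)
    (h1 : b' - a < 1 / h) (h2 : b - a' < 1 / h) :
    ∃ φ u : 𝓢(ℝ, ℂ), (∀ y, φ y = ∫ t, e1 (y * t) * u t) ∧ (∀ t, u t ≠ 0 → a' ≤ t ∧ t ≤ b') ∧
      ∀ s t, a ≤ t → t ≤ b → HasSum (fun n : ℤ => (h : ℂ) * φ (h * n - s) * e1 (-((h * n - s) * t))) 1 := by
  obtain ⟨u, hu1, hus⟩ := P1_bump a b a' b' hab ha hb
  refine ⟨𝓕⁻ u, u, P1_fourierInv u, hus, fun s t ht ht' => ?_⟩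
  have hsm : ContDiff ℝ (↑(⊤ : ℕ∞)) (fun l : ℝ => u (t + l / h) * e1 (-(l * s / h))) := by
    refine ContDiff.mul ((u.smooth _).comp (by fun_prop)) (P1_contDiff_e1.comp (by fun_prop))
  have hcs : HasCompactSupport (fun l : ℝ => u (t + l / h) * e1 (-(l * s / h))) := by
    refine HasCompactSupport.of_support_subset_isCompact (isCompact_Icc (a := h * (a' - t)) (b := h * (b' - t))) ?_
    intro l hl
    rw [Function.mem_support] at hl
    obtain ⟨h3, h4⟩ := hus _ (left_ne_zero_of_mul hl)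
    constructor
    · have : a' - t ≤ l / h := by linarith
      rw [le_div_iff₀ h0] at this
      linarith
    · have : l / h ≤ b' - t := by linarith
      rw [div_le_iff₀ h0] at this
      linarith
  set v : 𝓢(ℝ, ℂ) := hcs.toSchwartzMap hsm with hv
  have hva : ∀ l, v l = u (t + l / h) * e1 (-(l * s / h)) := fun l => rfl
  have hval : ∀ y, 𝓕⁻ v y = (h : ℂ) * 𝓕⁻ u (h * y - s) * e1 (-((h * y - s) * t)) := by
    intro y
    rw [P1_fourierInv, P1_fourierInv]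
    set F : ℝ → ℂ := fun τ => e1 ((h * y - s) * (τ - t)) * u τ with hF
    have e1' : ∫ l, e1 (y * l) * v l = ∫ l, (fun x => F (t + x)) (l / h) := by
      refine integral_congr_ae (Filter.Eventually.of_forall fun l => ?_)
      simp only [hF]
      rw [hva, add_sub_cancel_left, mul_comm (u (t + l / h)), ← mul_assoc, ← P1_e1_add]
      congr 2
      field_simp
      ring
    have e2' : ∫ l, (fun x => F (t + x)) (l / h) = |h| • ∫ x, (fun x => F (t + x)) x :=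
      MeasureTheory.Measure.integral_comp_div (fun x => F (t + x)) h
    have e3' : ∫ x, (fun x => F (t + x)) x = ∫ x, F x := integral_add_left_eq_self F t
    rw [e1', e2', e3', abs_of_pos h0, Complex.real_smul, mul_assoc]
    congr 1
    rw [← integral_mul_const]
    refine integral_congr_ae (Filter.Eventually.of_forall fun τ => ?_)
    simp only [hF]
    rw [mul_comm (e1 ((h * y - s) * τ)) (u τ), mul_assoc, ← P1_e1_add, mul_comm]
    congr 2
    ring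
  have hs : Summable fun n : ℤ => 𝓕⁻ v n := P1_summable _
  have hts : ∑' n : ℤ, 𝓕⁻ v n = 1 := by
    have h3 := SchwartzMap.tsum_eq_tsum_fourier (𝓕⁻ v) 0
    simp only [zero_add] at h3
    rw [h3, FourierTransform.fourier_fourierInv_eq]
    rw [tsum_eq_single (0 : ℤ)]
    · rw [Int.cast_zero, hva, zero_div, add_zero, hu1 t ht ht', zero_mul, zero_div, neg_zero, P1_e1_zero]
      simp
    · intro n hn
      have h4 : v n = 0 := by
        rw [hva]
        by_contra h5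
        obtain ⟨h6, h7⟩ := hus _ (left_ne_zero_of_mul h5)
        have hnh : (n : ℝ) / h = n * (1 / h) := by ring
        rw [hnh] at h6 h7
        have hpos : 0 < 1 / h := by positivity
        rcases lt_or_gt_of_ne hn with h8 | h8
        · have h9 : (n : ℝ) ≤ -1 := by exact_mod_cast (by omega : n ≤ -1)
          nlinarith
        · have h9 : (1 : ℝ) ≤ n := by exact_mod_cast (by omega : 1 ≤ n)
          nlinarith
      rw [h4, zero_mul]
  have h5 := hs.hasSum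
  rw [hts] at h5
  have h6 : (fun n : ℤ => (h : ℂ) * 𝓕⁻ u (h * n - s) * e1 (-((h * n - s) * t))) = fun n : ℤ => 𝓕⁻ v n := by
    funext n
    exact (hval n).symm
  rw [h6]
  exact h5

private theorem P1_e1_sum {ι : Type} (s : Finset ι) (f : ι → ℝ) : e1 (∑ i ∈ s, f i) = ∏ i ∈ s, e1 (f i) := by
  classical
  induction s using Finset.induction_on with
  | empty => simp [P1_e1_zero]
  | insert a s ha ih => rw [Finset.sum_insert ha, Finset.prod_insert ha, P1_e1_add, ih]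

private theorem P1_sum_succ {m : ℕ} (f : ℤ → ℂ) (g : (Fin m → ℤ) → ℂ) (c d : ℂ) (hf : HasSum f c) (hg : HasSum g d)
    (hg' : Summable fun n => ‖g n‖) (G : (Fin (m + 1) → ℤ) → ℂ)
    (hG : ∀ x : ℤ × (Fin m → ℤ), G (Fin.cons x.1 x.2) = f x.1 * g x.2) :
    (Summable fun n => ‖G n‖) ∧ HasSum G (c * d) := by
  have h3 : Summable fun n : ℤ => ‖f n‖ := hf.summable.norm
  have h5 : G ∘ (Fin.consEquiv (fun _ : Fin (m + 1) => ℤ)) = fun x : ℤ × (Fin m → ℤ) => f x.1 * g x.2 := by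
    funext x
    exact hG x
  have h6 : (fun n => ‖G n‖) ∘ (Fin.consEquiv (fun _ : Fin (m + 1) => ℤ)) =
      fun x : ℤ × (Fin m → ℤ) => ‖f x.1 * g x.2‖ := by
    funext x
    exact congrArg norm (hG x)
  have h7 : Summable fun x : ℤ × (Fin m → ℤ) => ‖f x.1 * g x.2‖ := Summable.mul_norm h3 hg'
  have h8 : Summable fun x : ℤ × (Fin m → ℤ) => f x.1 * g x.2 := h7.of_norm
  have h9 : HasSum (fun x : ℤ × (Fin m → ℤ) => f x.1 * g x.2) (c * d) := HasSum.mul hf hg h8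
  constructor
  · rw [← (Fin.consEquiv (fun _ : Fin (m + 1) => ℤ)).summable_iff, h6]
    exact h7
  · rw [← (Fin.consEquiv (fun _ : Fin (m + 1) => ℤ)).hasSum_iff, h5]
    exact h9

private theorem P1_sum_pi : ∀ (m : ℕ) (f : Fin m → ℤ → ℂ) (c : Fin m → ℂ), (∀ i, HasSum (f i) (c i)) →
    (Summable fun n : Fin m → ℤ => ‖∏ i, f i (n i)‖) ∧ HasSum (fun n : Fin m → ℤ => ∏ i, f i (n i)) (∏ i, c i) := by
  intro m
  induction m with
  | zero =>
    intro f c _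
    constructor
    · exact (hasSum_unique _).summable
    · have := hasSum_unique (fun n : Fin 0 → ℤ => ∏ i, f i (n i))
      simp
  | succ m ih =>
    intro f c hf
    obtain ⟨h1, h2⟩ := ih (fun i => f i.succ) (fun i => c i.succ) (fun i => hf i.succ)
    rw [Fin.prod_univ_succ c]
    refine P1_sum_succ (f 0) (fun n => ∏ i : Fin m, f i.succ (n i)) (c 0) _ (hf 0) h2 h1 _ ?_
    intro x
    rw [Fin.prod_univ_succ]
    rfl

private theorem P1_one_add {m : ℕ} (x : Fin m → ℝ) (hx : ∀ i, 0 ≤ x i) : 1 + ∑ i, x i ≤ ∏ i, (1 + x i) := by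
  classical
  have : ∀ s : Finset (Fin m), 1 + ∑ i ∈ s, x i ≤ ∏ i ∈ s, (1 + x i) ∧ 1 ≤ ∏ i ∈ s, (1 + x i) := by
    intro s
    induction s using Finset.induction_on with
    | empty => simp
    | insert a s ha ih =>
      rw [Finset.sum_insert ha, Finset.prod_insert ha]
      obtain ⟨h1, h2⟩ := ih
      constructor
      · nlinarith [hx a]
      · nlinarith [hx a]
  exact (this Finset.univ).1

private theorem P1_norm_le {m : ℕ} (x : E m) : ‖x‖ ≤ ∑ i, |x i| := by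
  classical
  rw [EuclideanSpace.norm_eq]
  refine Real.sqrt_le_iff.2 ⟨Finset.sum_nonneg fun i _ => abs_nonneg _, ?_⟩
  have : ∀ s : Finset (Fin m), ∑ i ∈ s, ‖x i‖ ^ 2 ≤ (∑ i ∈ s, |x i|) ^ 2 := by
    intro s
    induction s using Finset.induction_on with
    | empty => simp
    | insert a s ha ih =>
      rw [Finset.sum_insert ha, Finset.sum_insert ha, Real.norm_eq_abs]
      have h1 : 0 ≤ ∑ i ∈ s, |x i| := Finset.sum_nonneg fun i _ => abs_nonneg _
      nlinarith [abs_nonneg (x a)]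
  exact this Finset.univ

private theorem P1_int_E {m : ℕ} (f : Fin m → ℝ → ℂ) : ∫ x : E m, ∏ i, f i (x i) = ∏ i, ∫ t, f i t := by
  have h1 := (EuclideanSpace.volume_preserving_symm_measurableEquiv_toLp (Fin m)).symm.integral_comp'
    (fun x : E m => ∏ i, f i (x i))
  rw [← h1, ← integral_fintype_prod_volume_eq_prod]
  rfl

private theorem P1_int_prod {m : ℕ} (f : E m → ℂ) (g : ℝ × ℝ → ℂ) :
    ∫ z : X m, f z.1 * g z.2 = (∫ x, f x) * ∫ y, g y := integral_prod_mul f g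

private theorem P1_int_prod2 (f g : ℝ → ℂ) :
    ∫ z : ℝ × ℝ, f z.1 * g z.2 = (∫ x, f x) * ∫ y, g y := integral_prod_mul f g

private def P1_Phi {m : ℕ} (h : ℝ) (f g : ℝ → ℂ) (Z : X m) : ℂ :=
  (∏ i, (h : ℂ) * f (Z.1 i)) * (((h : ℂ) * f Z.2.1) * ((h : ℂ) * g Z.2.2))

private theorem P1_Phi_cont {m : ℕ} (h : ℝ) (f g : ℝ → ℂ) (hf : Continuous f) (hg : Continuous g) :
    Continuous (P1_Phi (m := m) h f g) := by
  unfold P1_Phi
  refine Continuous.mul ?_ ((continuous_const.mul (hf.comp ?_)).mul (continuous_const.mul (hg.comp ?_)))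
  · refine continuous_finsetProd _ fun i _ => continuous_const.mul (hf.comp ?_)
    exact (EuclideanSpace.proj i).continuous.comp continuous_fst
  · exact continuous_fst.comp continuous_snd
  · exact continuous_snd.comp continuous_snd

private theorem P1_Phi_supp {m : ℕ} (h : ℝ) (f g : ℝ → ℂ) (r v0 v1 : ℝ) (hr : 0 ≤ r)
    (hf : ∀ t, f t ≠ 0 → -r ≤ t ∧ t ≤ r) (hg : ∀ t, g t ≠ 0 → v0 ≤ t ∧ t ≤ v1)
    (ζ : X m) (hζ : P1_Phi h f g ζ ≠ 0) :
      v0 ≤ ζ.2.2 ∧ ζ.2.2 ≤ v1 ∧ ‖ζ.1‖ ≤ (m + 1) * r ∧ |ζ.2.1| ≤ (m + 1) * r := by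
  unfold P1_Phi at hζ
  have e1' := left_ne_zero_of_mul hζ
  have e2' := right_ne_zero_of_mul hζ
  have e3 := hf _ (right_ne_zero_of_mul (left_ne_zero_of_mul e2'))
  have e4 := hg _ (right_ne_zero_of_mul (right_ne_zero_of_mul e2'))
  have hm : (0 : ℝ) ≤ m := Nat.cast_nonneg m
  refine ⟨e4.1, e4.2, ?_, ?_⟩
  · refine (P1_norm_le _).trans ?_
    have h5 : ∀ i ∈ Finset.univ, |ζ.1 i| ≤ r := by
      intro i hi
      have := hf _ (right_ne_zero_of_mul (Finset.prod_ne_zero_iff.1 e1' i hi))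
      exact abs_le.2 this
    refine (Finset.sum_le_sum h5).trans ?_
    rw [Finset.sum_const, Finset.card_univ, Fintype.card_fin, nsmul_eq_mul]
    nlinarith
  · refine (abs_le.2 e3).trans ?_
    nlinarith

private theorem P1_Phi_int {m : ℕ} (h : ℝ) (f g : ℝ → ℂ) (hf : Continuous f) (hg : Continuous g)
    (v0 v1 R : ℝ) (h0 : 0 ≤ v0) (hs : ∀ ζ : X m, P1_Phi h f g ζ ≠ 0 →
      v0 ≤ ζ.2.2 ∧ ζ.2.2 ≤ v1 ∧ ‖ζ.1‖ ≤ R ∧ |ζ.2.1| ≤ R) : Integrable (P1_Phi (m := m) h f g) := by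
  refine (P1_Phi_cont h f g hf hg).integrable_of_hasCompactSupport ?_
  refine HasCompactSupport.of_support_subset_isCompact
    (isCompact_closedBall (0 : X m) (max R v1)) ?_
  intro ζ hζ
  obtain ⟨e1', e2', e3, e4⟩ := hs ζ hζ
  rw [mem_closedBall_zero_iff, Prod.norm_def, Prod.norm_def]
  refine max_le (e3.trans (le_max_left _ _)) (max_le ?_ ?_)
  · exact (Real.norm_eq_abs ζ.2.1).le.trans (e4.trans (le_max_left _ _))
  · rw [Real.norm_eq_abs, abs_le]
    constructor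
    · have : v1 ≤ max R v1 := le_max_right _ _
      linarith
    · exact e2'.trans (le_max_right _ _)

private theorem P1_Phi_four {m : ℕ} (h : ℝ) (φ ψ f g : ℝ → ℂ) (hφ : ∀ y, φ y = ∫ t, e1 (y * t) * f t)
    (hψ : ∀ y, ψ y = ∫ t, e1 (y * t) * g t) (Z : X m) : P1_Phi h φ ψ Z = Fi3 (P1_Phi h f g) Z := by
  unfold Fi3
  have e1' : ∀ z : X m, e1 (pr3 Z z) * P1_Phi h f g z =
      (∏ i, (h : ℂ) * (e1 (Z.1 i * z.1 i) * f (z.1 i))) * (((h : ℂ) * (e1 (Z.2.1 * z.2.1) * f z.2.1)) *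
        ((h : ℂ) * (e1 (Z.2.2 * z.2.2) * g z.2.2))) := by
    intro z
    have e2' : e1 (pr3 Z z) = (∏ i, e1 (Z.1 i * z.1 i)) * (e1 (Z.2.1 * z.2.1) * e1 (Z.2.2 * z.2.2)) := by
      unfold pr3
      rw [P1_e1_add, P1_e1_add, ← P1_e1_sum, PiLp.inner_apply, mul_assoc]
      congr 2
      refine Finset.sum_congr rfl fun i _ => ?_
      rw [RCLike.inner_apply, conj_trivial, mul_comm]
    rw [e2']
    unfold P1_Phi
    simp only [Finset.prod_mul_distrib]
    ring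
  rw [integral_congr_ae (Filter.Eventually.of_forall e1')]
  rw [P1_int_prod (fun x : E m => ∏ i, (h : ℂ) * (e1 (Z.1 i * x i) * f (x i)))
    (fun y : ℝ × ℝ => ((h : ℂ) * (e1 (Z.2.1 * y.1) * f y.1)) * ((h : ℂ) * (e1 (Z.2.2 * y.2) * g y.2)))]
  rw [P1_int_prod2 (fun t => (h : ℂ) * (e1 (Z.2.1 * t) * f t)) (fun t => (h : ℂ) * (e1 (Z.2.2 * t) * g t))]
  rw [P1_int_E (fun i t => (h : ℂ) * (e1 (Z.1 i * t) * f t))]
  unfold P1_Phi
  simp only [integral_const_mul, ← hφ, ← hψ]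

private theorem P1_Phi_dec {m : ℕ} (h : ℝ) (hh0 : 0 < h) (φ ψ : ℝ → ℂ) (N : ℕ) (C D : ℝ) (hC0 : 0 < C) (hD0 : 0 < D)
    (hC : ∀ x, ‖φ x‖ ≤ C / (1 + |x|) ^ N) (hD : ∀ x, ‖ψ x‖ ≤ D / (1 + |x|) ^ N) (Z : X m) :
    ‖P1_Phi h φ ψ Z‖ ≤ ((h * C) ^ m * ((h * C) * (h * D))) / (1 + ‖Z‖) ^ N := by
  have hb : ∀ y, ‖(h : ℂ) * φ y‖ ≤ h * C / (1 + |y|) ^ N := by
    intro y
    rw [norm_mul, Complex.norm_real, Real.norm_of_nonneg hh0.le, mul_div_assoc]
    exact mul_le_mul_of_nonneg_left (hC y) hh0.le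
  have ha : ∀ y, ‖(h : ℂ) * ψ y‖ ≤ h * D / (1 + |y|) ^ N := by
    intro y
    rw [norm_mul, Complex.norm_real, Real.norm_of_nonneg hh0.le, mul_div_assoc]
    exact mul_le_mul_of_nonneg_left (hD y) hh0.le
  have hp0 : 0 ≤ ∏ i, h * C / (1 + |Z.1 i|) ^ N := Finset.prod_nonneg fun i _ => by positivity
  have e5 : ‖P1_Phi h φ ψ Z‖ ≤
      (∏ i, h * C / (1 + |Z.1 i|) ^ N) * ((h * C / (1 + |Z.2.1|) ^ N) * (h * D / (1 + |Z.2.2|) ^ N)) := by
    unfold P1_Phi
    rw [norm_mul, norm_mul, norm_prod]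
    refine mul_le_mul ?_ ?_ (mul_nonneg (norm_nonneg _) (norm_nonneg _)) hp0
    · exact Finset.prod_le_prod (fun i _ => norm_nonneg _) fun i _ => hb _
    · exact mul_le_mul (hb _) (ha _) (norm_nonneg _) (by positivity)
  refine e5.trans ?_
  have hp1 : 0 < ∏ i, (1 + |Z.1 i|) := Finset.prod_pos fun i _ => by positivity
  have e6 : (∏ i, h * C / (1 + |Z.1 i|) ^ N) * ((h * C / (1 + |Z.2.1|) ^ N) * (h * D / (1 + |Z.2.2|) ^ N)) =
      ((h * C) ^ m * ((h * C) * (h * D))) / ((∏ i, (1 + |Z.1 i|)) * ((1 + |Z.2.1|) * (1 + |Z.2.2|))) ^ N := by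
    rw [Finset.prod_div_distrib, Finset.prod_pow, mul_pow (∏ i, (1 + |Z.1 i|)), mul_pow (1 + |Z.2.1|),
      Finset.prod_const, Finset.card_univ, Fintype.card_fin, div_mul_div_comm, div_mul_div_comm]
  rw [e6]
  have e7 : 1 + ‖Z.1‖ ≤ ∏ i, (1 + |Z.1 i|) :=
    le_trans (by linarith [P1_norm_le Z.1]) (P1_one_add _ fun i => abs_nonneg _)
  have e8 : ‖Z‖ ≤ ‖Z.1‖ + (|Z.2.1| + |Z.2.2|) := by
    rw [Prod.norm_def, Prod.norm_def, Real.norm_eq_abs, Real.norm_eq_abs]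
    have := norm_nonneg Z.1
    have := abs_nonneg Z.2.1
    have := abs_nonneg Z.2.2
    exact max_le (by linarith) (max_le (by linarith) (by linarith))
  have e9 := norm_nonneg Z.1
  have e10 := abs_nonneg Z.2.1
  have e11 := abs_nonneg Z.2.2
  have e12 : 1 + ‖Z‖ ≤ (∏ i, (1 + |Z.1 i|)) * ((1 + |Z.2.1|) * (1 + |Z.2.2|)) := by
    calc 1 + ‖Z‖ ≤ (1 + ‖Z.1‖) * ((1 + |Z.2.1|) * (1 + |Z.2.2|)) := by
          nlinarith [mul_nonneg e9 e10, mul_nonneg e9 e11, mul_nonneg e10 e11, mul_nonneg e9 (mul_nonneg e10 e11)]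
      _ ≤ (∏ i, (1 + |Z.1 i|)) * ((1 + |Z.2.1|) * (1 + |Z.2.2|)) :=
          mul_le_mul_of_nonneg_right e7 (by positivity)
  have e13 : 0 < 1 + ‖Z‖ := by have := norm_nonneg Z; linarith
  exact div_le_div_of_nonneg_left (by positivity) (pow_pos e13 N) (pow_le_pow_left₀ e13.le e12 N)

private theorem P1_Phi_rep {m : ℕ} (h v0 v1 ρ : ℝ) (φ ψ : ℝ → ℂ)
    (hB : ∀ s t, -ρ ≤ t → t ≤ ρ → HasSum (fun n : ℤ => (h : ℂ) * φ (h * n - s) * e1 (-((h * n - s) * t))) 1)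
    (hA : ∀ s t, v0 ≤ t → t ≤ v1 → HasSum (fun n : ℤ => (h : ℂ) * ψ (h * n - s) * e1 (-((h * n - s) * t))) 1)
    (ζ : X m) (h1 : v0 ≤ ζ.2.2) (h2 : ζ.2.2 ≤ v1) (h3 : ‖ζ.1‖ ≤ ρ) (h4 : |ζ.2.1| ≤ ρ) (a : X m) :
    HasSum (fun n : Zn m => P1_Phi h φ ψ (nd h n - a) * e1 (-pr3 (nd h n - a) ζ)) 1 := by
  have hone : ∀ i, HasSum (fun n : ℤ => (h : ℂ) * φ (h * n - a.1 i) * e1 (-((h * n - a.1 i) * ζ.1 i))) 1 := by
    intro i
    have h5 : |ζ.1 i| ≤ ρ := by
      have := PiLp.norm_apply_le ζ.1 i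
      rw [Real.norm_eq_abs] at this
      exact this.trans h3
    obtain ⟨h6, h7⟩ := abs_le.1 h5
    exact hB (a.1 i) (ζ.1 i) h6 h7
  obtain ⟨h5, h6⟩ := P1_sum_pi m (fun i n => (h : ℂ) * φ (h * n - a.1 i) * e1 (-((h * n - a.1 i) * ζ.1 i)))
    (fun _ => 1) hone
  obtain ⟨h7, h8⟩ := abs_le.1 h4
  have h9 := hB a.2.1 ζ.2.1 h7 h8
  have h10 := hA a.2.2 ζ.2.2 h1 h2
  set F1 : ℤ → ℂ := fun n : ℤ => (h : ℂ) * φ (h * n - a.2.1) * e1 (-((h * n - a.2.1) * ζ.2.1)) with hF1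
  set F2 : ℤ → ℂ := fun n : ℤ => (h : ℂ) * ψ (h * n - a.2.2) * e1 (-((h * n - a.2.2) * ζ.2.2)) with hF2
  set F0 : (Fin m → ℤ) → ℂ := fun n : Fin m → ℤ => ∏ i, (h : ℂ) * φ (h * (n i : ℤ) - a.1 i) *
    e1 (-((h * (n i : ℤ) - a.1 i) * ζ.1 i)) with hF0
  have h11 : Summable fun x : ℤ × ℤ => ‖F1 x.1 * F2 x.2‖ := Summable.mul_norm h9.summable.norm h10.summable.norm
  have h12 : HasSum (fun x : ℤ × ℤ => F1 x.1 * F2 x.2) (1 * 1) := HasSum.mul h9 h10 h11.of_norm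
  have h13 : Summable fun x : (Fin m → ℤ) × (ℤ × ℤ) => ‖F0 x.1 * (F1 x.2.1 * F2 x.2.2)‖ :=
    Summable.mul_norm (f := F0) (g := fun x : ℤ × ℤ => F1 x.1 * F2 x.2) h5 h11
  have h14 : HasSum (fun x : (Fin m → ℤ) × (ℤ × ℤ) => F0 x.1 * (F1 x.2.1 * F2 x.2.2))
      ((∏ _i : Fin m, (1 : ℂ)) * (1 * 1)) :=
    HasSum.mul (f := F0) (g := fun x : ℤ × ℤ => F1 x.1 * F2 x.2) h6 h12 h13.of_norm
  have h15 : (∏ _i : Fin m, (1 : ℂ)) * (1 * 1) = 1 := by simp
  rw [h15] at h14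
  have h16 : (fun n : Zn m => P1_Phi h φ ψ (nd h n - a) * e1 (-pr3 (nd h n - a) ζ)) =
      fun x : (Fin m → ℤ) × (ℤ × ℤ) => F0 x.1 * (F1 x.2.1 * F2 x.2.2) := by
    funext n
    have h14 : ∀ i, (nd h n - a).1 i = h * n.1 i - a.1 i := by
      intro i
      simp [nd, iv]
    have h15 : (nd h n - a).2.1 = h * n.2.1 - a.2.1 := rfl
    have h16 : (nd h n - a).2.2 = h * n.2.2 - a.2.2 := rfl
    have h17 : e1 (-pr3 (nd h n - a) ζ) = (∏ i, e1 (-((h * n.1 i - a.1 i) * ζ.1 i))) *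
        (e1 (-((h * n.2.1 - a.2.1) * ζ.2.1)) * e1 (-((h * n.2.2 - a.2.2) * ζ.2.2))) := by
      unfold pr3
      rw [neg_add, neg_add, P1_e1_add, P1_e1_add, ← P1_e1_sum, PiLp.inner_apply, mul_assoc, h15, h16]
      congr 2
      rw [← Finset.sum_neg_distrib]
      refine Finset.sum_congr rfl fun i _ => ?_
      rw [RCLike.inner_apply, conj_trivial, h14, mul_comm]
    rw [h17]
    unfold P1_Phi
    simp only [hF0, hF1, hF2, h14, h15, h16, Finset.prod_mul_distrib]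
    ring
  rw [h16]
  exact h14

/-- sampling functions exist -/
theorem exists_Rp (m : ℕ) (v0 v1 ρ : ℝ) (h0 : 0 < v0) (h1 : v0 ≤ v1) (hρ : 0 ≤ ρ) :
    ∃ (h R : ℝ) (Φ Φh : X m → ℂ), 0 ≤ R ∧ Rp h v0 v1 ρ R Φ Φh := by
  obtain ⟨h, hh0, hh1, hB1, hA1, hA2⟩ : ∃ h : ℝ, 0 < h ∧ h ≤ 1 ∧ 2 * ρ + 1 < 1 / h ∧ 2 * v1 - v0 < 1 / h ∧
      v1 - v0 / 2 < 1 / h := by
    refine ⟨1 / (2 * ρ + 2 + 2 * v1), div_pos one_pos (by linarith), ?_, ?_, ?_, ?_⟩
    · rw [div_le_one (by linarith)]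
      linarith
    · rw [one_div_one_div]
      linarith
    · rw [one_div_one_div]
      linarith
    · rw [one_div_one_div]
      linarith
  obtain ⟨φB, uB, hφB, huB, hB⟩ := P1_one (-ρ) ρ (-(ρ + 1)) (ρ + 1) h (by linarith) (by linarith) (by linarith)
    hh0 (by linarith) (by linarith)
  obtain ⟨φA, uA, hφA, huA, hA⟩ := P1_one v0 v1 (v0 / 2) (2 * v1) h h1 (by linarith) (by linarith)
    hh0 (by linarith) (by linarith)
  have hm : (0 : ℝ) ≤ m := Nat.cast_nonneg m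
  have hs := P1_Phi_supp (m := m) h uB uA (ρ + 1) (v0 / 2) (2 * v1) (by linarith) huB huA
  refine ⟨h, (m + 1) * (ρ + 1), P1_Phi h φB φA, P1_Phi h uB uA, mul_nonneg (by linarith) (by linarith), ?_⟩
  refine ⟨hh0, hh1, ?_, ?_, hs, ?_, ?_, ?_⟩
  · exact P1_Phi_int h uB uA uB.continuous uA.continuous (v0 / 2) (2 * v1) _ (by linarith) hs
  · exact P1_Phi_cont h φB φA φB.continuous φA.continuous
  · exact P1_Phi_four h φB φA uB uA hφB hφA
  · intro N
    obtain ⟨C, hC0, hC⟩ := P1_decay φB N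
    obtain ⟨D, hD0, hD⟩ := P1_decay φA N
    exact ⟨(h * C) ^ m * ((h * C) * (h * D)), by positivity, P1_Phi_dec h hh0 φB φA N C D hC0 hD0 hC hD⟩
  · intro ζ hζ0 hζ1 hζρ hζs a
    exact P1_Phi_rep h v0 v1 ρ φB φA hB hA ζ hζ0 hζ1 hζρ hζs a

end Pool.LibST49
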