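import Pool.Agent.LibST49.A1
import Pool.Agent.LibST49.P5

/-
PLAN (P3, MEDIUM). For z with cb χ b k j z /= 0: |2^k z.1 i - j i| < 1 for all i, so ‖z.1 - w k j‖ <= sqrt m 2^-k, v0 <= z.2 <= v1, hence ζ := ze k (w k j) z satisfies
v0 <= ζ.2.2 <= v1, ‖ζ.1‖ <= v1 sqrt m <= v1 m, |ζ.2.1| <= v1 m (m >= 1). Rp.rep at a = Lk k c p, c = w k j gives SUM_n Φ(nd h n - Lk p) e1(-pr3 (nd h n - Lk p) ζ) = 1.
Since nd h n - Lk p = Lk (pos h k (j,n) - p) (Lk_Li, Lk_sub) and ph_eq, e1(-pr3 ..) = e1(-ph (pos - p) z); multiply by e1(ph (Z - p) z) cb(z): e1(ph (Z - pos) z) by ph_sub. So for every z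
HasSum_n Φ(nd h n - Lk p) e1(ph (Z - pos) z) cb z = e1(ph (Z-p) z) cb z. Integrate: hasSum_integral_of_summable_integral_norm with bound |Φ(nd h n - a)| |cb z| , summable by
Rp.dec with N = m+3 (SUM_n (1+‖nd h n - a‖)^-(m+3) < oo: row P5 sum_nd). Second statement: Kb is linear in the symbol, SUM_(j in J m k) χ(2^k ω - iv j) = 1 for ‖ω‖ <= 1
(terms with j not in J vanish: |2^k ω_i - j_i| < 1 implies |j_i| < 2^k + 1 <= 2^(k+1)).
-/

set_option autoImplicit false

noncomputable section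

open MeasureTheory Metric Set Filter

namespace Pool.LibST49

open Pool.LibSR53

private lemma p3_e1_add (a b : ℝ) : e1 (a + b) = e1 a * e1 b := by
  unfold e1
  rw [← Complex.exp_add]
  congr 1
  push_cast
  ring

private lemma p3_norm_e1 (a : ℝ) : ‖e1 a‖ = 1 := by
  unfold e1
  rw [show 2 * (Real.pi : ℂ) * Complex.I * (a : ℂ) = ((2 * Real.pi * a : ℝ) : ℂ) * Complex.I by
    push_cast; ring]
  exact Complex.norm_exp_ofReal_mul_I _

private lemma p3_cont_e1 : Continuous e1 := by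
  unfold e1
  fun_prop

private lemma p3_cont_ph {m : ℕ} (Z : X m) : Continuous (ph Z) := by
  unfold ph
  fun_prop

/-- the support of a localised symbol -/
private lemma p3_supp {m : ℕ} {v0 v1 ρ R : ℝ} {χ : E m → ℝ} (hχ : Ct R χ) {b : V m → ℂ}
    (hb : Sb v0 v1 ρ b) (k : ℕ) (j : Fin m → ℤ) (z : V m) (h : cb χ b k j z ≠ 0) :
    (∀ i, |((2 : ℝ) ^ k • z.1 - iv j) i| < R) ∧ v0 ≤ z.2 ∧ z.2 ≤ v1 ∧ ‖z.1‖ ≤ ρ := by
  unfold cb at h
  have h1 : (χ ((2 : ℝ) ^ k • z.1 - iv j) : ℂ) ≠ 0 := left_ne_zero_of_mul h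
  have h2 : b z ≠ 0 := right_ne_zero_of_mul h
  have h3 : χ ((2 : ℝ) ^ k • z.1 - iv j) ≠ 0 := by
    intro h0
    apply h1
    rw [h0]
    norm_num
  exact ⟨hχ.supp _ h3, hb.supp z h2⟩

private lemma p3_compact {m : ℕ} {v0 v1 ρ : ℝ} {b : V m → ℂ}
    (hb : ∀ z, b z ≠ 0 → v0 ≤ z.2 ∧ z.2 ≤ v1 ∧ ‖z.1‖ ≤ ρ) : HasCompactSupport b := by
  apply HasCompactSupport.of_support_subset_isCompact
    (K := (closedBall (0 : E m) ρ) ×ˢ (Icc v0 v1))
  · exact (isCompact_closedBall _ _).prod isCompact_Icc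
  · intro z hz
    obtain ⟨h1, h2, h3⟩ := hb z hz
    refine ⟨?_, h1, h2⟩
    simpa using h3

private lemma p3_cont_cb {m : ℕ} {v0 v1 ρ R : ℝ} {χ : E m → ℝ} (hχ : Ct R χ) {b : V m → ℂ}
    (hb : Sb v0 v1 ρ b) (k : ℕ) (j : Fin m → ℤ) : Continuous (cb χ b k j) := by
  unfold cb
  have h1 : Continuous χ := hχ.smooth.continuous
  have h2 : Continuous b := hb.smooth.continuous
  fun_prop

private lemma p3_int {m : ℕ} {v0 v1 ρ : ℝ} {b : V m → ℂ} (hc : Continuous b)
    (hb : ∀ z, b z ≠ 0 → v0 ≤ z.2 ∧ z.2 ≤ v1 ∧ ‖z.1‖ ≤ ρ) (Z : X m) :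
    Integrable (fun z : V m => e1 (ph Z z) * b z) := by
  apply Continuous.integrable_of_hasCompactSupport
  · exact (p3_cont_e1.comp (p3_cont_ph Z)).mul hc
  · exact (p3_compact hb).mul_left

private lemma p3_norm_le {m : ℕ} (x : E m) (h : ∀ i, |x i| < 1) : ‖x‖ ^ 2 ≤ m := by
  rw [EuclideanSpace.norm_sq_eq]
  calc ∑ i, ‖x i‖ ^ 2 ≤ ∑ _i : Fin m, (1 : ℝ) := by
        apply Finset.sum_le_sum
        intro i _
        rw [Real.norm_eq_abs]
        have := h i
        have h0 := abs_nonneg (x i)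
        nlinarith
    _ = m := by simp

private lemma p3_w {m : ℕ} (k : ℕ) (j : Fin m → ℤ) (x : E m) :
    (2 : ℝ) ^ k • (x - w k j) = (2 : ℝ) ^ k • x - iv j := by
  unfold w
  rw [smul_sub, smul_smul, ← mul_pow]
  norm_num

/-- the reproducing formula: a localised half wave kernel is a sum of wave packets -/
theorem repro {m : ℕ} (hm : 1 ≤ m) {h v0 v1 R : ℝ} {Φ Φh : X m → ℂ}
    (hR : Rp h v0 v1 (v1 * m) R Φ Φh) {χ : E m → ℝ} (hχ : Ct 1 χ) {b : V m → ℂ} {ρ : ℝ}
    (hb : Sb v0 v1 ρ b) (k : ℕ) (j : Fin m → ℤ) (Z p : X m) :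
    HasSum (fun n : Zn m => Φ (nd h n - Lk k (w k j) p) * Kb (cb χ b k j) (Z - pos h k (j, n)))
      (Kb (cb χ b k j) (Z - p)) := by
  have hcont : Continuous (cb χ b k j) := p3_cont_cb hχ hb k j
  have hsupp := p3_supp hχ hb k j
  have hsupp' : ∀ z, cb χ b k j z ≠ 0 → v0 ≤ z.2 ∧ z.2 ≤ v1 ∧ ‖z.1‖ ≤ ρ :=
    fun z hz => (hsupp z hz).2
  have hm' : (1 : ℝ) ≤ m := by exact_mod_cast hm
  set F : Zn m → V m → ℂ := fun n z =>
    Φ (nd h n - Lk k (w k j) p) * (e1 (ph (Z - pos h k (j, n)) z) * cb χ b k j z) with hF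
  have hpt : ∀ z, HasSum (fun n => F n z) (e1 (ph (Z - p) z) * cb χ b k j z) := by
    intro z
    by_cases hz : cb χ b k j z = 0
    · simp only [hF, hz, mul_zero]
      exact hasSum_zero
    · obtain ⟨h1, h2, h3, h4⟩ := hsupp z hz
      have hv1 : 0 ≤ v1 := hb.pos.le.trans hb.le
      have hz2 : 0 ≤ z.2 := hb.pos.le.trans h2
      have hn := p3_norm_le _ h1
      have hn1 : ‖(2 : ℝ) ^ k • z.1 - iv j‖ ≤ m := by
        have h0 := norm_nonneg ((2 : ℝ) ^ k • z.1 - iv j)
        nlinarith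
      have e1' : ‖(ze k (w k j) z).1‖ ≤ v1 * m := by
        have : (ze k (w k j) z).1 = z.2 • ((2 : ℝ) ^ k • z.1 - iv j) := by
          unfold ze
          rw [← p3_w, smul_smul]
          rw [mul_comm ((2 : ℝ) ^ k)]
        rw [this, norm_smul, Real.norm_eq_abs, abs_of_nonneg hz2]
        exact mul_le_mul h3 hn1 (norm_nonneg _) hv1
      have e2' : |(ze k (w k j) z).2.1| ≤ v1 * m := by
        have : (ze k (w k j) z).2.1 = z.2 * ‖(2 : ℝ) ^ k • z.1 - iv j‖ ^ 2 := by
          unfold ze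
          rw [← p3_w, norm_smul, mul_pow, Real.norm_eq_abs, abs_of_nonneg (by positivity)]
          have : (4 : ℝ) ^ k = ((2 : ℝ) ^ k) ^ 2 := by
            rw [← pow_mul, mul_comm, pow_mul]
            norm_num
          rw [this]
          ring
        rw [this, abs_of_nonneg (by positivity)]
        exact mul_le_mul h3 hn (by positivity) hv1
      have hrep := hR.rep (ze k (w k j) z) h2 h3 e1' e2' (Lk k (w k j) p)
      have hrep2 := hrep.mul_right (e1 (ph (Z - p) z) * cb χ b k j z)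
      rw [one_mul] at hrep2
      have hfun : (fun n => F n z) = fun n : Zn m => Φ (nd h n - Lk k (w k j) p) *
          e1 (-pr3 (nd h n - Lk k (w k j) p) (ze k (w k j) z)) *
            (e1 (ph (Z - p) z) * cb χ b k j z) := by
        funext n
        simp only [hF]
        have hph : pr3 (nd h n - Lk k (w k j) p) (ze k (w k j) z) =
            ph (pos h k (j, n) - p) z := by
          rw [ph_eq k (w k j), Lk_sub]
          unfold pos
          rw [Lk_Li]
        have hsplit : ph (Z - pos h k (j, n)) z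
            = -pr3 (nd h n - Lk k (w k j) p) (ze k (w k j) z) + ph (Z - p) z := by
          rw [hph, ph_sub, ph_sub, ph_sub]
          ring
        rw [hsplit, p3_e1_add]
        ring
      rw [hfun]
      exact hrep2
  have hint : ∀ n, Integrable (F n) := fun n => (p3_int hcont hsupp' _).const_mul _
  have hnorm : ∀ n z, ‖F n z‖ = ‖Φ (nd h n - Lk k (w k j) p)‖ * ‖cb χ b k j z‖ := by
    intro n z
    simp only [hF]
    rw [norm_mul, norm_mul, p3_norm_e1, one_mul]
  obtain ⟨C, hC, hdec⟩ := hR.dec (m + 3)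
  obtain ⟨C', hC', hsum⟩ := sum_nd m h hR.hpos
  have hS1 : Summable fun n : Zn m => 1 / (1 + ‖nd h n - Lk k (w k j) p‖) ^ (m + 3) := by
    apply summable_of_sum_le (c := C')
    · intro n
      positivity
    · intro T
      exact hsum T _
  have hS2 : Summable fun n : Zn m => ‖Φ (nd h n - Lk k (w k j) p)‖ := by
    apply Summable.of_nonneg_of_le (fun n => norm_nonneg _) _ (hS1.mul_left C)
    intro n
    have := hdec (nd h n - Lk k (w k j) p)
    rwa [div_eq_mul_one_div] at this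
  have hS3 : Summable fun n => ∫ z, ‖F n z‖ := by
    simp only [hnorm, integral_const_mul]
    exact hS2.mul_right _
  have key := hasSum_integral_of_summable_integral_norm hint hS3
  have e3 : (∫ z, ∑' n, F n z) = Kb (cb χ b k j) (Z - p) := by
    unfold Kb
    apply integral_congr_ae
    exact Eventually.of_forall fun z => (hpt z).tsum_eq
  rw [e3] at key
  have hfun : (fun n : Zn m => Φ (nd h n - Lk k (w k j) p) *
      Kb (cb χ b k j) (Z - pos h k (j, n))) = fun n => ∫ z, F n z := by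
    funext n
    simp only [hF]
    rw [integral_const_mul]
    rfl
  rw [hfun]
  exact key

/-- decomposition into sectors -/
theorem Kb_sum {m : ℕ} {χ : E m → ℝ} (hχ : Pu χ) {b : V m → ℂ} {v0 v1 : ℝ}
    (hb : Sb v0 v1 1 b) (k : ℕ) (Z : X m) : Kb b Z = ∑ j ∈ J m k, Kb (cb χ b k j) Z := by
  have hint : ∀ j ∈ J m k, Integrable fun z : V m => e1 (ph Z z) * cb χ b k j z := by
    intro j _
    exact p3_int (p3_cont_cb hχ.toCt hb k j) (fun z hz => (p3_supp hχ.toCt hb k j z hz).2) Z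
  unfold Kb
  rw [← integral_finsetSum _ hint]
  congr 1
  funext z
  rw [← Finset.mul_sum]
  congr 1
  unfold cb
  rw [← Finset.sum_mul]
  by_cases hz : b z = 0
  · rw [hz, mul_zero]
  · have h1 := (hb.supp z hz).2.2
    have hs : ∑ j ∈ J m k, χ ((2 : ℝ) ^ k • z.1 - iv j) = 1 := by
      have h2 := hχ.sum ((2 : ℝ) ^ k • z.1)
      have h3 : ∀ j ∉ J m k, χ ((2 : ℝ) ^ k • z.1 - iv j) = 0 := by
        intro j hj
        by_contra h4
        apply hj
        have h5 := hχ.supp _ h4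
        unfold J
        rw [Fintype.mem_piFinset]
        intro i
        have h6 := h5 i
        have h7 : ((2 : ℝ) ^ k • z.1 - iv j) i = (2 : ℝ) ^ k * z.1 i - j i := by
          simp [iv]
        rw [h7, abs_lt] at h6
        have h8 : |z.1 i| ≤ 1 := by
          have := PiLp.norm_apply_le z.1 i
          rw [Real.norm_eq_abs] at this
          linarith
        rw [abs_le] at h8
        have h9 : (0 : ℝ) < 2 ^ k := by positivity
        have h10 : (1 : ℝ) ≤ 2 ^ k := one_le_pow₀ (by norm_num)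
        rw [Finset.mem_Icc]
        constructor
        · have : (-(2 : ℝ) ^ (k + 1)) ≤ j i := by
            rw [pow_succ]
            nlinarith
          exact_mod_cast this
        · have : (j i : ℝ) ≤ (2 : ℝ) ^ (k + 1) := by
            rw [pow_succ]
            nlinarith
          exact_mod_cast this
      exact (hasSum_sum_of_ne_finset_zero h3).unique h2
    have h11 : ∑ j ∈ J m k, (χ ((2 : ℝ) ^ k • z.1 - iv j) : ℂ) = 1 := by
      exact_mod_cast hs
    rw [h11, one_mul]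

end Pool.LibST49
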