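import Pool.Agent.LibST49.B1
import Pool.Agent.LibST49.P1
import Pool.Agent.LibST49.P2
import Pool.Agent.LibST49.P3

/-
PLAN (B2, MEDIUM/STRONG). Take χ, (h,R,Φ,Φh) from exists_Pu, exists_Rp with ρ = v1 * m. By Kb_sum and repro, for every i, p, x: Kb b (Lam(x,-s0) - p) = SUM_(j in J m κ) SUM_n Φ(nd h n - Lk κ (w κ j) p)
Kb (cb χ b κ j)(Lam(x,-s0) - pos h κ (j,n)) (HasSum in n), so Fn x = SUM_i 2^(k i m/2) SUM'_(j in J, n) cf_i (j,n) Wv (j,n) x. |Wv| <= C (Kb_cont) and SUM_n ‖cf_i (j,n)‖ < oo (Rp.dec, sum_nd: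
summable of nonneg with bounded finite sums), so there is a finite T : Finset (Zn m) with |Fn x - Fg ... G x| <= lam/2 for all x (G i = J m κ ×ˢ T for all i): {lam < ‖Fn‖} is contained in
{lam/2 < ‖Fg‖}; apply weak_fin with lam/2 >= 1/2. L1_full: atom_L1 with |rad p| <= 2^(k i + 1), (1+2^(k+1)+|s0|)^(m/2) <= C 2^(k m/2)(1+|s0|)^(m/2). strong_blk: layer cake
(lintegral_rpow_eq_lintegral_meas_lt_mul): for lam <= 1 use volume{lam < ‖f‖} <= ‖f‖_1/lam and INT_0^1 lam^(q1-2) < oo; for lam >= 1 the weak bound and INT_1^oo lam^(q1-1-p) < oo, p = q/(q-1) > q1.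
W <= 2^(κ(ex0+ε)) W as ex0 >= 0.
-/

set_option autoImplicit false

noncomputable section

open MeasureTheory Metric Set Filter

namespace Pool.LibST49

open Pool.LibSR53

private theorem b2_Sb {m : ℕ} {v0 v1 : ℝ} {χ : E m → ℝ} (hχ : Pu χ) {b : V m → ℂ}
    (hb : Sb v0 v1 1 b) (k : ℕ) (j : Fin m → ℤ) : Sb v0 v1 1 (cb χ b k j) where
  pos := hb.pos
  le := hb.le
  smooth := by
    have h1 : ContDiff ℝ (⊤ : ℕ∞) (fun z : V m => χ ((2 : ℝ) ^ k • z.1 - iv j)) :=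
      hχ.smooth.comp ((contDiff_fst.const_smul _).sub contDiff_const)
    exact (Complex.ofRealCLM.contDiff.comp h1).mul hb.smooth
  supp := fun z hz => hb.supp z (fun h0 => hz (by unfold cb; rw [h0, mul_zero]))

/-- tails of a dominated series -/
private theorem b2_tail {ι : Type} {f : ι → ℂ} {s : ℂ} (hf : HasSum f s) {g : ι → ℝ}
    (hg : Summable g) {K : ℝ} (hK : 0 ≤ K) (hfg : ∀ n, ‖f n‖ ≤ K * g n) (hg0 : ∀ n, 0 ≤ g n)
    (T : Finset ι) : ‖s - ∑ n ∈ T, f n‖ ≤ K * (∑' n, g n - ∑ n ∈ T, g n) := by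
  classical
  have h1 : Tendsto (fun T' : Finset ι => ‖∑ n ∈ T', f n - ∑ n ∈ T, f n‖) atTop
      (nhds ‖s - ∑ n ∈ T, f n‖) := (hf.sub_const _).norm
  refine le_of_tendsto h1 ?_
  filter_upwards [eventually_ge_atTop T] with T' hT'
  rw [← Finset.sum_sdiff hT', add_sub_cancel_right]
  calc ‖∑ n ∈ T' \ T, f n‖ ≤ ∑ n ∈ T' \ T, ‖f n‖ := norm_sum_le _ _
    _ ≤ ∑ n ∈ T' \ T, K * g n := Finset.sum_le_sum fun n _ => hfg n
    _ = K * (∑ n ∈ T', g n - ∑ n ∈ T, g n) := by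
        rw [← Finset.mul_sum, ← Finset.sum_sdiff hT', add_sub_cancel_right]
    _ ≤ K * (∑' n, g n - ∑ n ∈ T, g n) := by
        refine mul_le_mul_of_nonneg_left (sub_le_sub_right ?_ _) hK
        exact hg.sum_le_tsum _ fun n _ => hg0 n

private theorem b2_summable {m : ℕ} {h v0 v1 ρ R : ℝ} {Φ Φh : X m → ℂ}
    (hR : Rp h v0 v1 ρ R Φ Φh) (a : X m) : Summable (fun n : Zn m => ‖Φ (nd h n - a)‖) := by
  obtain ⟨C1, hC1, h1⟩ := hR.dec (m + 3)
  obtain ⟨C2, hC2, h2⟩ := sum_nd m h hR.hpos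
  refine summable_of_sum_le (c := C1 * C2) (fun n => norm_nonneg _) fun T => ?_
  calc ∑ n ∈ T, ‖Φ (nd h n - a)‖ ≤ ∑ n ∈ T, C1 * (1 / (1 + ‖nd h n - a‖) ^ (m + 3)) := by
        refine Finset.sum_le_sum fun n _ => (h1 _).trans (le_of_eq ?_)
        ring
    _ = C1 * ∑ n ∈ T, 1 / (1 + ‖nd h n - a‖) ^ (m + 3) := by rw [Finset.mul_sum]
    _ ≤ C1 * C2 := mul_le_mul_of_nonneg_left (h2 T a) hC1.le

/-- the partial sums approximate, uniformly in x -/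
private theorem b2_approx {m : ℕ} (hm : 1 ≤ m) {h v0 v1 R : ℝ} {Φ Φh : X m → ℂ}
    (hR : Rp h v0 v1 (v1 * m) R Φ Φh) {χ : E m → ℝ} (hχ : Pu χ) {b : V m → ℂ}
    (hb : Sb v0 v1 1 b) (κ : ℕ) {β : Type} (B : Finset β) (k : β → ℕ) (S : β → Finset (X m))
    (γ : β → X m → ℂ) (hγ : ∀ i p, ‖γ i p‖ ≤ 1) (s0 : ℝ) {δ : ℝ} (hδ : 0 < δ) :
    ∃ T : Finset (Zn m), ∀ x : E (m + 1), ‖Fn b s0 B k S γ x -
      Fg χ b Φ h κ s0 B k S γ (fun _ => J m κ ×ˢ T) x‖ ≤ δ := by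
  choose K hK using fun j : Fin m → ℤ => (Kb_cont (b2_Sb hχ hb κ j)).2
  have hK0 : ∀ j, 0 ≤ K j := fun j => (norm_nonneg _).trans (hK j 0)
  set g : (Fin m → ℤ) → X m → Zn m → ℝ := fun j p n => ‖Φ (nd h n - Lk κ (w κ j) p)‖ with hg
  have hgs : ∀ j p, Summable (g j p) := fun j p => b2_summable hR _
  have htend : Tendsto (fun T : Finset (Zn m) => ∑ i ∈ B, (2 : ℝ) ^ ((k i : ℝ) * ((m : ℝ) / 2)) *
      ∑ p ∈ S i, ∑ j ∈ J m κ, K j * (∑' n, g j p n - ∑ n ∈ T, g j p n)) atTop (nhds 0) := by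
    have h0 : (0 : ℝ) = ∑ i ∈ B, (2 : ℝ) ^ ((k i : ℝ) * ((m : ℝ) / 2)) *
        ∑ p ∈ S i, ∑ j ∈ J m κ, K j * 0 := by simp
    rw [h0]
    refine tendsto_finsetSum _ fun i _ => Tendsto.const_mul _ ?_
    refine tendsto_finsetSum _ fun p _ => tendsto_finsetSum _ fun j _ => Tendsto.const_mul _ ?_
    have h1 : Tendsto (fun T : Finset (Zn m) => ∑ n ∈ T, g j p n) atTop
        (nhds (∑' n, g j p n)) := (hgs j p).hasSum
    simpa using h1.const_sub (∑' n, g j p n)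
  obtain ⟨T, hT⟩ := (htend.eventually (eventually_le_nhds hδ)).exists
  refine ⟨T, fun x => le_trans ?_ hT⟩
  unfold Fn Fg
  rw [← Finset.sum_sub_distrib]
  refine (norm_sum_le _ _).trans (Finset.sum_le_sum fun i _ => ?_)
  rw [← mul_sub, norm_mul, Complex.norm_real, Real.norm_of_nonneg (by positivity)]
  refine mul_le_mul_of_nonneg_left ?_ (by positivity)
  have hsw : ∑ a ∈ J m κ ×ˢ T, cf Φ h κ (S i) (γ i) a * Wv χ b h κ s0 a x =
      ∑ p ∈ S i, γ i p * ∑ j ∈ J m κ, ∑ n ∈ T, Φ (nd h n - Lk κ (w κ j) p) *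
        Kb (cb χ b κ j) (Lam (x, -s0) - pos h κ (j, n)) := by
    rw [Finset.sum_product]
    simp only [cf, Wv, Finset.sum_mul, Finset.mul_sum]
    rw [Finset.sum_comm (s := S i) (t := J m κ)]
    refine Finset.sum_congr rfl fun j _ => ?_
    rw [Finset.sum_comm (s := S i) (t := T)]
    refine Finset.sum_congr rfl fun n _ => Finset.sum_congr rfl fun p _ => ?_
    ring
  rw [hsw, ← Finset.sum_sub_distrib]
  refine (norm_sum_le _ _).trans (Finset.sum_le_sum fun p _ => ?_)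
  rw [← mul_sub, norm_mul]
  refine (mul_le_mul_of_nonneg_right (hγ i p) (norm_nonneg _)).trans ?_
  rw [one_mul, Kb_sum hχ hb κ, ← Finset.sum_sub_distrib]
  refine (norm_sum_le _ _).trans (Finset.sum_le_sum fun j _ => ?_)
  refine b2_tail (repro hm hR hχ.toCt hb κ j (Lam (x, -s0)) p) (hgs j p) (hK0 j) (fun n => ?_)
    (fun n => norm_nonneg _) T
  rw [norm_mul, mul_comm]
  exact mul_le_mul_of_nonneg_right (hK j _) (norm_nonneg _)

/-- weak type bound for families of blocks -/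
theorem weak_full {m : ℕ} (hm : 1 ≤ m) {v0 v1 : ℝ} {b : V m → ℂ} (hb : Sb v0 v1 1 b)
    (q : ℝ) (hq : 2 < q) (hq2 : q * m ≤ 2 * ((m : ℝ) + 2)) (hC : CDec m q) (N : ℕ) (ε : ℝ)
    (hε : 0 < ε) : ∃ C : ℝ, 0 < C ∧ ∀ (C1 : ℝ), 0 ≤ C1 → ∀ (κ : ℕ) (β : Type) [DecidableEq β]
    (B : Finset β) (k : β → ℕ) (S : β → Finset (X m)), Bl κ N C1 B k S →
    ∀ γ : β → X m → ℂ, (∀ i p, ‖γ i p‖ ≤ 1) → ∀ s0 lam : ℝ, 1 ≤ lam →
    ENNReal.ofReal (lam ^ (q / (q - 1))) *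
      volume {x : E (m + 1) | lam < ‖Fn b s0 B k S γ x‖} ≤
      ENNReal.ofReal (C * (1 + C1) * (1 + |s0|) ^ ((m : ℝ) / 2) *
        (2 : ℝ) ^ ((κ : ℝ) * (ex0 m q + ε)) * Wt B k S) := by
  obtain ⟨χ, hχ⟩ := exists_Pu m
  obtain ⟨h, R, Φ, Φh, -, hR⟩ := exists_Rp m v0 v1 (v1 * m) hb.pos hb.le
    (mul_nonneg (hb.pos.le.trans hb.le) (Nat.cast_nonneg m))
  obtain ⟨C, hC0, H⟩ := weak_fin hm hR hχ hb q hq hq2 hC N ε hε
  refine ⟨(2 : ℝ) ^ (q / (q - 1)) * C, by positivity, ?_⟩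
  intro C1 hC1 κ β _ B k S hBl γ hγ s0 lam hlam
  obtain ⟨T, hT⟩ := b2_approx hm hR hχ hb κ B k S γ hγ s0 (δ := lam / 2) (by linarith)
  have h1 := H C1 hC1 κ β B k S hBl γ hγ (fun _ => J m κ ×ˢ T)
    (fun i a ha => (Finset.mem_product.1 ha).1) s0 (lam / 2) (by linarith)
  have hsub : {x : E (m + 1) | lam < ‖Fn b s0 B k S γ x‖} ⊆
      {x : E (m + 1) | lam / 2 < ‖Fg χ b Φ h κ s0 B k S γ (fun _ => J m κ ×ˢ T) x‖} := by
    intro x hx
    simp only [mem_ofPred_eq] at hx ⊢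
    have h2 := hT x
    have h3 := norm_sub_norm_le (Fn b s0 B k S γ x)
      (Fg χ b Φ h κ s0 B k S γ (fun _ => J m κ ×ˢ T) x)
    linarith
  have hpow : lam ^ (q / (q - 1)) = (2 : ℝ) ^ (q / (q - 1)) * (lam / 2) ^ (q / (q - 1)) := by
    rw [← Real.mul_rpow (by norm_num) (by linarith)]
    congr 1
    ring
  calc ENNReal.ofReal (lam ^ (q / (q - 1))) * volume {x : E (m + 1) | lam < ‖Fn b s0 B k S γ x‖}
      ≤ ENNReal.ofReal ((2 : ℝ) ^ (q / (q - 1))) * (ENNReal.ofReal ((lam / 2) ^ (q / (q - 1))) *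
          volume {x : E (m + 1) | lam / 2 <
            ‖Fg χ b Φ h κ s0 B k S γ (fun _ => J m κ ×ˢ T) x‖}) := by
        rw [hpow, ENNReal.ofReal_mul (by positivity), mul_assoc]
        exact mul_le_mul' le_rfl (mul_le_mul' le_rfl (measure_mono hsub))
    _ ≤ ENNReal.ofReal ((2 : ℝ) ^ (q / (q - 1))) *
          ENNReal.ofReal (C * (1 + C1) * (1 + |s0|) ^ ((m : ℝ) / 2) *
            (2 : ℝ) ^ ((κ : ℝ) * (ex0 m q + ε)) * Wt B k S) := mul_le_mul' le_rfl h1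
    _ = _ := by
        rw [← ENNReal.ofReal_mul (by positivity)]
        congr 1
        ring

theorem L1_full {m : ℕ} (hm : 1 ≤ m) {v0 v1 : ℝ} {b : V m → ℂ} (hb : Sb v0 v1 1 b) (N : ℕ) :
    ∃ C : ℝ, 0 < C ∧ ∀ (C1 : ℝ), 0 ≤ C1 → ∀ (κ : ℕ) (β : Type) [DecidableEq β]
    (B : Finset β) (k : β → ℕ) (S : β → Finset (X m)), Bl κ N C1 B k S →
    ∀ γ : β → X m → ℂ, (∀ i p, ‖γ i p‖ ≤ 1) → ∀ s0 : ℝ,
    ∫⁻ x, ‖Fn b s0 B k S γ x‖ₑ ≤
      ENNReal.ofReal (C * (1 + |s0|) ^ ((m : ℝ) / 2) * Wt B k S) := by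
  obtain ⟨C, hC, H⟩ := atom_L1 hm hb
  refine ⟨C * 3 ^ ((m : ℝ) / 2), by positivity, ?_⟩
  intro C1 hC1 κ β _ B k S hBl γ hγ s0
  have hmeas : ∀ p : X m, Measurable (fun x : E (m + 1) => ‖Kb b (Lam (x, -s0) - p)‖ₑ) := by
    intro p
    have h2 : Continuous (fun x : E (m + 1) => Lam (x, -s0) - p) :=
      (continuous_Lam.comp (continuous_id.prodMk continuous_const)).sub continuous_const
    exact ((Kb_cont hb).1.comp h2).measurable.enorm
  calc ∫⁻ x, ‖Fn b s0 B k S γ x‖ₑ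
      ≤ ∫⁻ x, ∑ i ∈ B, ∑ p ∈ S i, ENNReal.ofReal ((2 : ℝ) ^ ((k i : ℝ) * ((m : ℝ) / 2))) *
          ‖Kb b (Lam (x, -s0) - p)‖ₑ := by
        refine lintegral_mono fun x => ?_
        unfold Fn
        refine (enorm_sum_le _ _).trans (Finset.sum_le_sum fun i _ => ?_)
        rw [enorm_mul, ← Finset.mul_sum]
        refine mul_le_mul' (le_of_eq ?_) ?_
        · rw [← ofReal_norm, Complex.norm_real, Real.norm_of_nonneg (by positivity)]
        · refine (enorm_sum_le _ _).trans (Finset.sum_le_sum fun p _ => ?_)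
          rw [enorm_mul]
          refine (mul_le_mul' (?_ : ‖γ i p‖ₑ ≤ 1) le_rfl).trans (one_mul _).le
          rw [← ofReal_norm]
          exact ENNReal.ofReal_le_one.2 (hγ i p)
    _ = ∑ i ∈ B, ∑ p ∈ S i, ENNReal.ofReal ((2 : ℝ) ^ ((k i : ℝ) * ((m : ℝ) / 2))) *
          ∫⁻ x : E (m + 1), ‖Kb b (Lam (x, -s0) - p)‖ₑ := by
        rw [lintegral_finsetSum _ (fun i _ => Finset.measurable_fun_sum _ (fun p _ =>
          (hmeas p).const_mul _))]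
        refine Finset.sum_congr rfl fun i _ => ?_
        rw [lintegral_finsetSum _ (fun p _ => (hmeas p).const_mul _)]
        refine Finset.sum_congr rfl fun p _ => ?_
        rw [lintegral_const_mul _ (hmeas p)]
    _ ≤ ∑ i ∈ B, ∑ p ∈ S i, ENNReal.ofReal
          (C * 3 ^ ((m : ℝ) / 2) * (1 + |s0|) ^ ((m : ℝ) / 2) * (2 : ℝ) ^ (k i * m)) := by
        refine Finset.sum_le_sum fun i hi => Finset.sum_le_sum fun p hp => ?_
        refine (mul_le_mul' le_rfl (H p s0)).trans ?_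
        rw [← ENNReal.ofReal_mul (by positivity)]
        refine ENNReal.ofReal_le_ofReal ?_
        obtain ⟨h1, h2⟩ := hBl.rad i hi p hp
        have h3 : (1 : ℝ) ≤ 2 ^ k i := one_le_pow₀ (by norm_num)
        have h4 : |rad p| ≤ 2 * 2 ^ k i := by
          rw [abs_of_nonneg (by linarith)]
          calc rad p ≤ 2 ^ (k i + 1) := h2
            _ = 2 * 2 ^ k i := by ring
        have h5 : 1 + |rad p| + |s0| ≤ 3 * 2 ^ k i * (1 + |s0|) := by
          nlinarith [abs_nonneg s0]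
        have h6 : (1 + |rad p| + |s0|) ^ ((m : ℝ) / 2) ≤
            3 ^ ((m : ℝ) / 2) * (2 : ℝ) ^ ((k i : ℝ) * ((m : ℝ) / 2)) *
              (1 + |s0|) ^ ((m : ℝ) / 2) := by
          refine (Real.rpow_le_rpow (by positivity) h5 (by positivity)).trans (le_of_eq ?_)
          rw [Real.mul_rpow (by positivity) (by positivity),
            Real.mul_rpow (by positivity) (by positivity), Real.rpow_mul (by norm_num),
            Real.rpow_natCast]
        have h7 : (2 : ℝ) ^ (k i * m) = (2 : ℝ) ^ ((k i : ℝ) * ((m : ℝ) / 2)) *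
            (2 : ℝ) ^ ((k i : ℝ) * ((m : ℝ) / 2)) := by
          rw [← Real.rpow_add (by norm_num), ← Real.rpow_natCast]
          congr 1
          push_cast
          ring
        rw [h7]
        calc (2 : ℝ) ^ ((k i : ℝ) * ((m : ℝ) / 2)) * (C * (1 + |rad p| + |s0|) ^ ((m : ℝ) / 2))
            ≤ (2 : ℝ) ^ ((k i : ℝ) * ((m : ℝ) / 2)) * (C * (3 ^ ((m : ℝ) / 2) *
              (2 : ℝ) ^ ((k i : ℝ) * ((m : ℝ) / 2)) * (1 + |s0|) ^ ((m : ℝ) / 2))) := by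
              gcongr
          _ = _ := by ring
    _ = _ := by
        unfold Wt
        have h8 : ∀ i ∈ B, ∑ p ∈ S i, ENNReal.ofReal
            (C * 3 ^ ((m : ℝ) / 2) * (1 + |s0|) ^ ((m : ℝ) / 2) * (2 : ℝ) ^ (k i * m)) =
            ENNReal.ofReal (C * 3 ^ ((m : ℝ) / 2) * (1 + |s0|) ^ ((m : ℝ) / 2) *
              ((2 : ℝ) ^ (k i * m) * ((S i).card : ℝ))) := by
          intro i _
          rw [Finset.sum_const, nsmul_eq_mul, ← ENNReal.ofReal_natCast,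
            ← ENNReal.ofReal_mul (by positivity)]
          congr 1
          ring
        rw [Finset.sum_congr rfl h8, ← ENNReal.ofReal_sum_of_nonneg (fun i _ => by positivity),
          ← Finset.mul_sum]

end Pool.LibST49
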