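import Pool.Agent.LibST49.ZD
import Pool.Agent.LibSR53.Q1

/-
PLAN (Z16, MEDIUM: adaptation of level in LibSR53/Q1.lean, copy that proof and its private lemmas). q < q1 := (q + p1)/2 < p1; ε > 0 small: ε q/q1 <= (1 - q/q1)/2. Strong F q1 ε gives C0 with
∫ |f|^q1 <= C0 u^ε wt T for T = lev S m n, u = 2^(n+1) (Sp T from Sp S, Lev.dens), wt T <= wt S. A from exceptional (D2), |A| <= CA wt S/2^n. On A Hoelder with exponents q1/q:
∫_A |f|^q <= |A|^(1-q/q1) (∫|f|^q1)^(q/q1) <= C wt S 2^(-n(1-q/q1) + n ε q/q1). Outside A: ∫_{A^c}|f| <= C wt S 2^(-nN) for every N (hT as in Q1), and with t = (q-1)/(q1-1) in (0,1), q = (1-t) + t q1: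
∫_{A^c}|f|^q <= (∫_{A^c}|f|)^(1-t) (∫|f|^q1)^t; choose N with N (1-t) >= ε t + δ. δ = (1-q/q1)/2.
-/

set_option autoImplicit false

noncomputable section

open MeasureTheory Metric Set Filter

namespace Pool.LibST49

open Pool.LibSR53

private lemma Z16_pow {a b W X e1 e2 s t δ : ℝ} (ha : 0 ≤ a) (hb : 0 ≤ b) (hW : 0 ≤ W)
    (hX : 1 ≤ X) (hs : 0 ≤ s) (ht : 0 ≤ t) (hst : s + t = 1) (h : e1 * s + e2 * t ≤ -δ) :
    (a * W * X ^ e1) ^ s * (b * W * X ^ e2) ^ t ≤ a ^ s * b ^ t * (W * X ^ (-δ)) := by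
  have hX0 : 0 < X := lt_of_lt_of_le one_pos hX
  have h1 : W ^ s * W ^ t = W := by
    rw [← Real.rpow_add_of_nonneg hW hs ht, hst, Real.rpow_one]
  have h2 : (X ^ e1) ^ s * (X ^ e2) ^ t = X ^ (e1 * s + e2 * t) := by
    rw [← Real.rpow_mul hX0.le, ← Real.rpow_mul hX0.le, ← Real.rpow_add hX0]
  have h3 : X ^ (e1 * s + e2 * t) ≤ X ^ (-δ) := Real.rpow_le_rpow_of_exponent_le hX h
  calc (a * W * X ^ e1) ^ s * (b * W * X ^ e2) ^ t
      = a ^ s * b ^ t * ((W ^ s * W ^ t) * ((X ^ e1) ^ s * (X ^ e2) ^ t)) := by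
        rw [Real.mul_rpow (mul_nonneg ha hW) (Real.rpow_nonneg hX0.le _), Real.mul_rpow ha hW,
          Real.mul_rpow (mul_nonneg hb hW) (Real.rpow_nonneg hX0.le _), Real.mul_rpow hb hW]
        ring
    _ ≤ a ^ s * b ^ t * (W * X ^ (-δ)) := by
        rw [h1, h2]
        have : 0 ≤ a ^ s * b ^ t := mul_nonneg (Real.rpow_nonneg ha _) (Real.rpow_nonneg hb _)
        exact mul_le_mul_of_nonneg_left (mul_le_mul_of_nonneg_left h3 hW) this

private lemma Z16_wt {d : ℕ} {S T : Finset (P d)} (hT : T ⊆ S) (h1 : ∀ p ∈ S, 1 ≤ p.2) :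
    0 ≤ wt T ∧ wt T ≤ wt S := by
  constructor
  · exact Finset.sum_nonneg fun p hp => pow_nonneg (zero_le_one.trans (h1 p (hT hp))) _
  · exact Finset.sum_le_sum_of_subset_of_nonneg hT fun p hp _ =>
      pow_nonneg (zero_le_one.trans (h1 p hp)) _

/-- Hoelder on a set of finite measure -/
private lemma Z16_A {d : ℕ} {g : E d → ENNReal} (hg : AEMeasurable g volume) (A : Set (E d)) {q q1 : ℝ}
    (hq0 : 0 < q) (hq : q < q1) :
    ∫⁻ x in A, g x ^ q ≤ (volume A) ^ (1 - q / q1) * (∫⁻ x, g x ^ q1) ^ (q / q1) := by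
  have hq1 : 0 < q1 := hq0.trans hq
  have hlt : q / q1 < 1 := (div_lt_one hq1).2 hq
  have h := ENNReal.lintegral_mul_norm_pow_le (μ := volume.restrict A) (f := fun _ => 1)
    (g := fun x => g x ^ q1) aemeasurable_const (hg.restrict.pow_const q1)
    (p := 1 - q / q1) (q := q / q1) (by linarith) (by positivity) (by ring)
  have e : ∀ x, (1 : ENNReal) ^ (1 - q / q1) * (g x ^ q1) ^ (q / q1) = g x ^ q := by
    intro x
    rw [ENNReal.one_rpow, one_mul, ← ENNReal.rpow_mul]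
    congr 1
    field_simp
  simp only [e] at h
  refine h.trans ?_
  rw [lintegral_const, Measure.restrict_apply_univ, one_mul]
  gcongr
  exact Measure.restrict_le_self

/-- Hoelder between 1 and q1 -/
private lemma Z16_B {d : ℕ} {g : E d → ENNReal} (hg : AEMeasurable g volume) (A : Set (E d)) {q q1 t : ℝ}
    (ht0 : 0 ≤ t) (ht1 : t ≤ 1) (hq1 : 0 ≤ q1) (hq : q = (1 - t) + t * q1) :
    ∫⁻ x in A, g x ^ q ≤ (∫⁻ x in A, g x) ^ (1 - t) * (∫⁻ x, g x ^ q1) ^ t := by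
  have h := ENNReal.lintegral_mul_norm_pow_le (μ := volume.restrict A) (f := g)
    (g := fun x => g x ^ q1) hg.restrict (hg.restrict.pow_const q1)
    (p := 1 - t) (q := t) (by linarith) ht0 (by ring)
  have e : ∀ x, (g x) ^ (1 - t) * (g x ^ q1) ^ t = g x ^ q := by
    intro x
    rw [← ENNReal.rpow_mul, ← ENNReal.rpow_add_of_nonneg _ _ (by linarith) (by positivity)]
    congr 1
    rw [hq]
    ring
  simp only [e] at h
  refine h.trans ?_
  gcongr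
  exact Measure.restrict_le_self

private lemma Z16_L1 {d : ℕ} (F : P d → E d → ℂ) (T : Finset (P d))
    (hF : ∀ p ∈ T, AEStronglyMeasurable (F p) volume) (A : Set (E d)) (c : ℝ) (hc : 0 ≤ c)
    (h1 : ∀ p ∈ T, 1 ≤ p.2)
    (h : ∀ p ∈ T, ∫⁻ x in A, ‖F p x‖ₑ ≤ ENNReal.ofReal (c * p.2 ^ (d - 1)))
    (γ : P d → ℂ) (hγ : ∀ p, ‖γ p‖ ≤ 1) :
    ∫⁻ x in A, ‖∑ p ∈ T, γ p * F p x‖ₑ ≤ ENNReal.ofReal (c * wt T) := by
  have e1 : ∀ x, ‖∑ p ∈ T, γ p * F p x‖ₑ ≤ ∑ p ∈ T, ‖F p x‖ₑ := by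
    intro x
    refine (enorm_sum_le _ _).trans (Finset.sum_le_sum fun p _ => ?_)
    rw [enorm_mul]
    have : ‖γ p‖ₑ ≤ 1 := by
      rw [← ofReal_norm]
      exact ENNReal.ofReal_le_one.2 (hγ p)
    calc ‖γ p‖ₑ * ‖F p x‖ₑ ≤ 1 * ‖F p x‖ₑ := mul_le_mul_left this _
      _ = ‖F p x‖ₑ := one_mul _
  calc ∫⁻ x in A, ‖∑ p ∈ T, γ p * F p x‖ₑ ≤ ∫⁻ x in A, ∑ p ∈ T, ‖F p x‖ₑ := lintegral_mono e1
    _ = ∑ p ∈ T, ∫⁻ x in A, ‖F p x‖ₑ :=
        lintegral_finsetSum' _ fun p hp => (hF p hp).restrict.enorm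
    _ ≤ ∑ p ∈ T, ENNReal.ofReal (c * p.2 ^ (d - 1)) := Finset.sum_le_sum h
    _ = ENNReal.ofReal (c * wt T) := by
        rw [← ENNReal.ofReal_sum_of_nonneg, wt, Finset.mul_sum]
        intro p hp
        exact mul_nonneg hc (pow_nonneg (zero_le_one.trans (h1 p hp)) _)

/-- the estimate for one level -/
theorem levelS (d : ℕ) (hd : 2 ≤ d) (F : P d → E d → ℂ) (p1 : ℝ)
    (hF : ∀ p : P d, 1 ≤ p.2 → AEStronglyMeasurable (F p) volume)
    (hS : ∀ q : ℝ, 1 < q → q < p1 → ∀ ε : ℝ, 0 < ε → ∃ C : ℝ, 0 < C ∧ Strong F q ε C)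
    (hT : ∀ M : ℕ, ∃ C : ℝ, 0 < C ∧ ∀ (p : P d) (D : ℝ), 1 ≤ p.2 → 1 ≤ D →
      ∫⁻ x in {x : E d | D < |‖x - p.1‖ - p.2|}, ‖F p x‖ₑ ≤
        ENNReal.ofReal (C * p.2 ^ (d - 1) / D ^ M))
    (q : ℝ) (hq1 : 1 < q) (hq2 : q < p1) :
    ∃ C δ : ℝ, 0 < C ∧ 0 < δ ∧ ∀ (S : Finset (P d)) (m : P d → ℕ), Sp S → Lev S m →
      ∀ (n : ℕ) (γ : P d → ℂ), (∀ p, ‖γ p‖ ≤ 1) →
      ∫⁻ x, ‖∑ p ∈ lev S m n, γ p * F p x‖ₑ ^ q ≤
        ENNReal.ofReal (C * (2 : ℝ) ^ (-(δ * n)) * wt S) := by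
  classical
  obtain ⟨CA, hCA, hA⟩ := exceptional d hd
  set q1 : ℝ := (q + p1) / 2 with hq1def
  have hqq1 : q < q1 := by rw [hq1def]; linarith
  have hq1p : q1 < p1 := by rw [hq1def]; linarith
  have hq11 : 1 < q1 := hq1.trans hqq1
  have hq10 : 0 < q1 := by linarith
  have hq0 : 0 < q := by linarith
  have hlt : q / q1 < 1 := (div_lt_one hq10).2 hqq1
  have hpos : 0 < q / q1 := by positivity
  set δ : ℝ := (1 - q / q1) / 2 with hδdef
  have hδ : 0 < δ := by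
    rw [hδdef]
    linarith
  set t : ℝ := (q - 1) / (q1 - 1) with htdef
  have ht0 : 0 < t := by
    rw [htdef]
    exact div_pos (by linarith) (by linarith)
  have ht1 : t < 1 := by
    rw [htdef, div_lt_one (by linarith)]
    linarith
  have hqt : q = (1 - t) + t * q1 := by
    have h1 : t * (q1 - 1) = q - 1 := by
      rw [htdef]
      exact div_mul_cancel₀ _ (by linarith)
    linarith
  obtain ⟨C0, hC0, hS0⟩ := hS q1 hq11 hq1p δ hδ
  obtain ⟨N, hN⟩ := exists_nat_ge ((δ * t + δ) / (1 - t))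
  rw [div_le_iff₀ (by linarith)] at hN
  obtain ⟨CM, hCM, hTM⟩ := hT (d * N)
  set B : ℝ := C0 * (2 : ℝ) ^ δ with hB
  have hB0 : 0 ≤ B := by positivity
  set a3 : ℝ := CM * CA ^ N with ha3
  have ha30 : 0 ≤ a3 := by positivity
  refine ⟨CA ^ (1 - q / q1) * B ^ (q / q1) + a3 ^ (1 - t) * B ^ t + 1, δ, by positivity, hδ, ?_⟩
  intro S m hSp hm n γ hγ
  have hTS : lev S m n ⊆ S := Finset.filter_subset _ _
  set T := lev S m n with hTdef
  obtain ⟨hwT0, hwTS⟩ := Z16_wt hTS hSp.one_le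
  set W := wt S with hW
  have hW0 : 0 ≤ W := hwT0.trans hwTS
  set X : ℝ := (2 : ℝ) ^ n with hX
  have hX1 : 1 ≤ X := one_le_pow₀ (by norm_num)
  have hX0 : 0 < X := lt_of_lt_of_le one_pos hX1
  have hFT : ∀ p ∈ T, AEStronglyMeasurable (F p) volume := fun p hp => hF p (hSp.one_le p (hTS hp))
  have hfm : AEStronglyMeasurable (fun x => ∑ p ∈ T, γ p * F p x) volume :=
    Finset.aestronglyMeasurable_fun_sum T fun p hp => (hFT p hp).const_mul (γ p)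
  have hg : AEMeasurable (fun x => ‖∑ p ∈ T, γ p * F p x‖ₑ) volume := hfm.enorm
  -- the strong type bound
  have hL : ∫⁻ x, ‖∑ p ∈ T, γ p * F p x‖ₑ ^ q1 ≤
      ENNReal.ofReal (B * W * X ^ δ) := by
    have hSpT : Sp T := ⟨fun p hp => hSp.one_le p (hTS hp),
      fun p hp q hq hpq => hSp.sep p (hTS hp) q (hTS hq) hpq⟩
    refine (hS0 T ((2 : ℝ) ^ (n + 1)) hSpT (one_le_pow₀ (by norm_num))
      (hm.dens n) γ hγ).trans (ENNReal.ofReal_le_ofReal ?_)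
    have h3 : ((2 : ℝ) ^ (n + 1)) ^ δ = (2 : ℝ) ^ δ * X ^ δ := by
      rw [pow_succ, mul_comm, Real.mul_rpow (by norm_num) hX0.le]
    rw [h3]
    calc C0 * ((2 : ℝ) ^ δ * X ^ δ) * wt T ≤ C0 * ((2 : ℝ) ^ δ * X ^ δ) * W :=
          mul_le_mul_of_nonneg_left hwTS (by positivity)
      _ = B * W * X ^ δ := by
          rw [hB]
          ring
  obtain ⟨A, hAm, hAv, hAp⟩ := hA S m hSp.one_le hSp.sep hm n
  have hAv' : volume A ≤ ENNReal.ofReal (CA * W * X ^ (-1 : ℝ)) := by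
    rw [Real.rpow_neg_one, ← div_eq_mul_inv]
    exact hAv
  have hpA : ∫⁻ x in A, ‖∑ p ∈ T, γ p * F p x‖ₑ ^ q ≤
      ENNReal.ofReal (CA ^ (1 - q / q1) * B ^ (q / q1) * (W * X ^ (-δ))) := by
    refine (Z16_A hg A hq0 hqq1).trans ?_
    calc (volume A) ^ (1 - q / q1) * (∫⁻ x, ‖∑ p ∈ T, γ p * F p x‖ₑ ^ q1) ^ (q / q1)
        ≤ (ENNReal.ofReal (CA * W * X ^ (-1 : ℝ))) ^ (1 - q / q1) *
          (ENNReal.ofReal (B * W * X ^ δ)) ^ (q / q1) := by
          gcongr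
      _ = ENNReal.ofReal ((CA * W * X ^ (-1 : ℝ)) ^ (1 - q / q1) *
          (B * W * X ^ δ) ^ (q / q1)) := by
          rw [ENNReal.ofReal_rpow_of_nonneg (by positivity) (by linarith),
            ENNReal.ofReal_rpow_of_nonneg (by positivity) (by linarith),
            ← ENNReal.ofReal_mul (by positivity)]
      _ ≤ _ := by
          refine ENNReal.ofReal_le_ofReal (Z16_pow hCA.le hB0 hW0 hX1 (by linarith) (by linarith)
            (by ring) ?_)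
          have h1 : δ * (q / q1) ≤ δ * 1 := mul_le_mul_of_nonneg_left (by linarith) hδ.le
          have h2 : -1 * (1 - q / q1) + δ * (q / q1) = -2 * δ + δ * (q / q1) := by
            rw [hδdef]
            ring
          rw [h2]
          linarith
  have hLc : ∫⁻ x in Aᶜ, ‖∑ p ∈ T, γ p * F p x‖ₑ ≤
      ENNReal.ofReal (a3 * W * X ^ (-(N : ℝ))) := by
    refine (Z16_L1 F T hFT Aᶜ (a3 * X ^ (-(N : ℝ))) (by positivity)
      (fun p hp => hSp.one_le p (hTS hp)) (fun p hp => ?_) γ hγ).trans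
      (ENNReal.ofReal_le_ofReal ?_)
    · have hpS := hTS hp
      have hmp : m p = n := (Finset.mem_filter.1 hp).2
      obtain ⟨D, hD1, hD2, hD3⟩ := hAp p hpS hmp
      have hsub : Aᶜ ⊆ {x : E d | D < |‖x - p.1‖ - p.2|} := by
        intro x hx
        by_contra h
        exact hx (hD3 x (not_lt.1 h))
      refine (lintegral_mono_set hsub).trans ((hTM p D (hSp.one_le p hpS) hD1).trans
        (ENNReal.ofReal_le_ofReal ?_))
      have hD0 : 0 < D ^ d := pow_pos (lt_of_lt_of_le one_pos hD1) d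
      have h1 : (D ^ (d * N))⁻¹ ≤ CA ^ N * X ^ (-(N : ℝ)) := by
        have g1 : (D ^ (d * N))⁻¹ = ((D ^ d)⁻¹) ^ N := by rw [pow_mul, inv_pow (D ^ d) N]
        have g2 : CA ^ N * X ^ (-(N : ℝ)) = (CA * X⁻¹) ^ N := by
          rw [Real.rpow_neg hX0.le, Real.rpow_natCast, mul_pow, inv_pow]
        rw [g1, g2]
        apply pow_le_pow_left₀ (by positivity)
        rw [inv_le_iff_one_le_mul₀ hD0]
        have h2 : X ≤ CA * D ^ d := hD2
        calc (1 : ℝ) = X * X⁻¹ := (mul_inv_cancel₀ hX0.ne').symm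
          _ ≤ (CA * D ^ d) * X⁻¹ := mul_le_mul_of_nonneg_right h2 (inv_nonneg.2 hX0.le)
          _ = CA * X⁻¹ * D ^ d := by ring
      have hp0 : 0 ≤ p.2 ^ (d - 1) := pow_nonneg (zero_le_one.trans (hSp.one_le p hpS)) _
      rw [div_eq_mul_inv]
      calc CM * p.2 ^ (d - 1) * (D ^ (d * N))⁻¹
          ≤ CM * p.2 ^ (d - 1) * (CA ^ N * X ^ (-(N : ℝ))) :=
            mul_le_mul_of_nonneg_left h1 (mul_nonneg hCM.le hp0)
        _ = a3 * X ^ (-(N : ℝ)) * p.2 ^ (d - 1) := by rw [ha3]; ring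
    · have h1 : 0 ≤ a3 * X ^ (-(N : ℝ)) := by positivity
      calc a3 * X ^ (-(N : ℝ)) * wt T ≤ a3 * X ^ (-(N : ℝ)) * W :=
            mul_le_mul_of_nonneg_left hwTS h1
        _ = a3 * W * X ^ (-(N : ℝ)) := by ring
  have hpB : ∫⁻ x in Aᶜ, ‖∑ p ∈ T, γ p * F p x‖ₑ ^ q ≤
      ENNReal.ofReal (a3 ^ (1 - t) * B ^ t * (W * X ^ (-δ))) := by
    refine (Z16_B hg Aᶜ ht0.le ht1.le hq10.le hqt).trans ?_
    calc (∫⁻ x in Aᶜ, ‖∑ p ∈ T, γ p * F p x‖ₑ) ^ (1 - t) *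
          (∫⁻ x, ‖∑ p ∈ T, γ p * F p x‖ₑ ^ q1) ^ t
        ≤ (ENNReal.ofReal (a3 * W * X ^ (-(N : ℝ)))) ^ (1 - t) *
          (ENNReal.ofReal (B * W * X ^ δ)) ^ t := by
          gcongr
      _ = ENNReal.ofReal ((a3 * W * X ^ (-(N : ℝ))) ^ (1 - t) *
          (B * W * X ^ δ) ^ t) := by
          rw [ENNReal.ofReal_rpow_of_nonneg (by positivity) (by linarith),
            ENNReal.ofReal_rpow_of_nonneg (by positivity) (by linarith),
            ← ENNReal.ofReal_mul (by positivity)]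
      _ ≤ _ := by
          refine ENNReal.ofReal_le_ofReal (Z16_pow ha30 hB0 hW0 hX1 (by linarith) (by linarith)
            (by ring) ?_)
          linarith
  rw [← lintegral_add_compl _ hAm]
  refine (add_le_add hpA hpB).trans ?_
  rw [← ENNReal.ofReal_add (by positivity) (by positivity)]
  refine ENNReal.ofReal_le_ofReal ?_
  have h1 : X ^ (-δ) = (2 : ℝ) ^ (-(δ * n)) := by
    rw [hX, ← Real.rpow_natCast, ← Real.rpow_mul (by norm_num)]
    congr 1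
    ring
  rw [h1]
  have h2 : 0 ≤ (2 : ℝ) ^ (-(δ * n)) * W := by positivity
  linarith [h2]

end Pool.LibST49
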