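import Pool.Agent.LibST49.Z15
import Pool.Agent.LibST49.Z16
import Pool.Agent.LibST49.Z17
import Pool.Agent.LibSR53.F4

/-
PLAN (Z18, chief). discreteS: as LibSR53.discrete (F1.lean): strong_all, Fk_tail, levelS, exists_lev, restrictedS for every q < pS m; interpolate (I1) with s < p, (p-1)s/(s-1) < pS m.
main_of_hst: averaging (F3) with G = Sp and the proof of sep in good_of_sparse (F4).
-/

set_option autoImplicit false

noncomputable section

open MeasureTheory Metric Set Filter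

namespace Pool.LibST49

open Pool.LibSR53

private theorem Z18_subset {d : ℕ} {S T : Finset (P d)} (hS : Sp S) (hT : T ⊆ S) : Sp T :=
  ⟨fun p hp => hS.one_le p (hT hp), fun p hp q hq hpq => hS.sep p (hT hp) q (hT hq) hpq⟩

private theorem Z18_pS (m : ℕ) : pS m < 2 := by
  unfold pS
  have hm : (0 : ℝ) ≤ m := Nat.cast_nonneg m
  rw [div_lt_iff₀ (by linarith)]
  linarith

/-- the discrete inequality -/
theorem discreteS (m : ℕ) (hm : 2 ≤ m) (h : HST m) (η : SchwartzMap (E (m + 1)) ℂ) (ε0 : ℝ)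
    (hε0 : 0 < ε0) (hη : Van η ε0) (p : ℝ) (hp1 : 1 < p) (hp2 : p < pS m) :
    ∃ C : ℝ, 0 < C ∧ ∀ S : Finset (P (m + 1)), Sp S → ∀ γ : P (m + 1) → ℂ,
      ∫⁻ x, ‖∑ a ∈ S, γ a * Fk η a.1 a.2 x‖ₑ ^ p ≤
        ENNReal.ofReal (C * ∑ a ∈ S, ‖γ a‖ ^ p * a.2 ^ m) := by
  have hd2 : 2 ≤ m + 1 := by omega
  set F : P (m + 1) → E (m + 1) → ℂ := fun a => Fk η a.1 a.2 with hFdef
  have hFm : ∀ a : P (m + 1), 1 ≤ a.2 → AEStronglyMeasurable (F a) volume := fun a ha =>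
    (Fk_continuous hd2 η a.1 a.2 (by linarith)).aestronglyMeasurable
  have hT : ∀ M : ℕ, ∃ C : ℝ, 0 < C ∧ ∀ (p : P (m + 1)) (D : ℝ), 1 ≤ p.2 → 1 ≤ D →
      ∫⁻ x in {x : E (m + 1) | D < |‖x - p.1‖ - p.2|}, ‖F p x‖ₑ ≤
        ENNReal.ofReal (C * p.2 ^ (m + 1 - 1) / D ^ M) := by
    intro M
    obtain ⟨C, hC, h⟩ := Fk_tail hd2 η M
    exact ⟨C, hC, fun p D hp hD => h p.1 p.2 D (by linarith) hD⟩
  have hSt : ∀ q : ℝ, 1 < q → q < pS m → ∀ ε : ℝ, 0 < ε → ∃ C : ℝ, 0 < C ∧ Strong F q ε C :=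
    fun q hq1 hq2 ε hε => strong_all m hm h η ε0 hε0 hη q hq1 hq2 ε hε
  have hres : ∀ q : ℝ, 1 < q → q < pS m → ∃ C : ℝ, 0 < C ∧ ∀ S : Finset (P (m + 1)),
      Sp S → ∀ γ : P (m + 1) → ℂ, (∀ p, ‖γ p‖ ≤ 1) →
      ∫⁻ x, ‖∑ p ∈ S, γ p * F p x‖ₑ ^ q ≤ ENNReal.ofReal (C * wt S) := by
    intro q hq1 hq2
    obtain ⟨C, δ, hC, hδ, h⟩ := levelS (m + 1) hd2 F (pS m) hFm hSt hT q hq1 hq2
    exact restrictedS (m + 1) F hFm (fun S hS => exists_lev S hS) q hq1 C δ hC hδ h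
  have hp3 : p < 2 := hp2.trans (Z18_pS m)
  obtain ⟨s, hs1, hs2, hs3⟩ : ∃ s : ℝ, 1 < s ∧ s < p ∧ (p - 1) * s / (s - 1) < pS m := by
    have hcont : ContinuousAt (fun s : ℝ => (p - 1) * s / (s - 1)) p := by
      apply ContinuousAt.div
      · exact (continuous_const.mul continuous_id).continuousAt
      · exact (continuous_id.sub continuous_const).continuousAt
      · linarith
    have hval : (p - 1) * p / (p - 1) < pS m := by
      rw [mul_div_assoc, mul_div_cancel₀ _ (by linarith : p - 1 ≠ 0)]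
      exact hp2
    have hev : ∀ᶠ s in nhds p, (p - 1) * s / (s - 1) < pS m :=
      hcont.eventually_lt continuousAt_const hval
    obtain ⟨r, hr, hball⟩ := Metric.eventually_nhds_iff.mp hev
    refine ⟨max ((1 + p) / 2) (p - r / 2), ?_, ?_, ?_⟩
    · exact lt_of_lt_of_le (by linarith) (le_max_left _ _)
    · exact max_lt (by linarith) (by linarith)
    · apply hball
      rw [Real.dist_eq, abs_lt]
      constructor
      · have := le_max_right ((1 + p) / 2) (p - r / 2)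
        linarith
      · have : max ((1 + p) / 2) (p - r / 2) < p := max_lt (by linarith) (by linarith)
        linarith
  have hq2 : 1 < (p - 1) * s / (s - 1) := by
    rw [lt_div_iff₀ (by linarith)]
    nlinarith
  obtain ⟨Ca, hCa, ha⟩ := hres s hs1 (by linarith)
  obtain ⟨Cb, hCb, hb⟩ := hres _ hq2 hs3
  have hwt : ∀ S : Finset (P (m + 1)), Sp S → 0 ≤ wt S := by
    intro S hS
    exact Finset.sum_nonneg (fun p hp => pow_nonneg (by linarith [hS.one_le p hp]) _)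
  obtain ⟨C, hC, h⟩ := interpolate (volume : Measure (E (m + 1))) F
    (fun a : P (m + 1) => a.2 ^ (m + 1 - 1))
    Sp (fun S T hS hT => Z18_subset hS hT)
    (fun S hS i hi => pow_nonneg (by linarith [hS.one_le i hi]) _)
    (fun S hS i hi => hFm i (hS.one_le i hi)) p s (Ca + Cb) hp1 hp3 hs1 hs2
    (fun S hS γ hγ => (ha S hS γ hγ).trans (ENNReal.ofReal_le_ofReal (by
      have := hwt S hS
      have : Ca * wt S ≤ (Ca + Cb) * wt S := by nlinarith
      exact this)))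
    (fun S hS γ hγ => (hb S hS γ hγ).trans (ENNReal.ofReal_le_ofReal (by
      have := hwt S hS
      have : Cb * wt S ≤ (Ca + Cb) * wt S := by nlinarith
      exact this)))
  refine ⟨C, hC, fun S hS γ => ?_⟩
  have := h S hS γ
  simpa only [Nat.add_sub_cancel] using this

private theorem Z18_sep {d : ℕ} (S : Finset (P d)) (h1 : ∀ a ∈ S, ∀ b ∈ S, IsInt (a - b))
    (h2 : ∀ a ∈ S, 1 < a.2) : Sp S := by
  refine ⟨fun p hp => (h2 p hp).le, ?_⟩
  intro p hp q hq hpq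
  obtain ⟨hc, n, hn⟩ := h1 p hp q hq
  rw [dist_eq_norm]
  by_cases h2' : p.2 = q.2
  · have h1' : p.1 ≠ q.1 := fun h => hpq (Prod.ext h h2')
    have : ∃ i, p.1 i ≠ q.1 i := by
      by_contra hcon
      push Not at hcon
      exact h1' (by ext i; exact hcon i)
    obtain ⟨i, hi⟩ := this
    obtain ⟨m, hm⟩ := hc i
    have hm' : p.1 i - q.1 i = m := hm
    have hm0 : m ≠ 0 := by
      rintro rfl
      apply hi
      simp at hm'
      linarith
    have h3 : (1 : ℝ) ≤ |p.1 i - q.1 i| := by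
      rw [hm', ← Int.cast_abs]
      exact_mod_cast Int.one_le_abs hm0
    have h4 : |p.1 i - q.1 i| ≤ ‖p.1 - q.1‖ := by
      have h5 : ‖(p.1 - q.1) i‖ ≤ ‖p.1 - q.1‖ := PiLp.norm_apply_le _ i
      simpa using h5
    have h6 : ‖(p - q).1‖ ≤ ‖p - q‖ := norm_fst_le _
    have h7 : (p - q).1 = p.1 - q.1 := rfl
    rw [h7] at h6
    linarith
  · have hn' : p.2 - q.2 = n := hn
    have hn0 : n ≠ 0 := by
      rintro rfl
      apply h2'
      simp at hn'
      linarith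
    have h3 : (1 : ℝ) ≤ |p.2 - q.2| := by
      rw [hn', ← Int.cast_abs]
      exact_mod_cast Int.one_le_abs hn0
    have h6 : ‖(p - q).2‖ ≤ ‖p - q‖ := norm_snd_le _
    have h7 : ‖(p - q).2‖ = |p.2 - q.2| := by
      rw [Real.norm_eq_abs]; rfl
    linarith

/-- reduction of Q1 in the Stein-Tomas range to strong type bounds for half wave atoms -/
theorem main_of_hst (m : ℕ) (hm : 2 ≤ m) (h : HST m) (p : ℝ) (hp1 : 1 < p) (hp2 : p < pS m)
    (η : SchwartzMap (EuclideanSpace ℝ (Fin (m + 1))) ℂ)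
    (hη : ∃ ε : ℝ, 0 < ε ∧ ∀ ξ : EuclideanSpace ℝ (Fin (m + 1)), ‖ξ‖ < ε →
      ∫ x : EuclideanSpace ℝ (Fin (m + 1)),
        Complex.exp (-(2 * (Real.pi : ℂ) * Complex.I * ((inner ℝ x ξ : ℝ) : ℂ))) * η x = 0) :
    ∃ C : ℝ, ∀ g : EuclideanSpace ℝ (Fin (m + 1)) × ℝ → ℂ, Measurable g →
      (∃ B : ℝ, ∀ z, ‖g z‖ ≤ B) → HasCompactSupport g →
      MeasureTheory.eLpNorm
        (fun x : EuclideanSpace ℝ (Fin (m + 1)) =>
          ∫ r in Set.Ioi (1 : ℝ), ∫ z : EuclideanSpace ℝ (Fin (m + 1)),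
            (∫ y in Metric.sphere (0 : EuclideanSpace ℝ (Fin (m + 1))) r, η (x - y - z)
              ∂(MeasureTheory.Measure.hausdorffMeasure (((m + 1 : ℕ) : ℝ) - 1))) * g (z, r))
        (ENNReal.ofReal p) MeasureTheory.volume
      ≤ ENNReal.ofReal C *
        (∫⁻ r in Set.Ioi (1 : ℝ), ∫⁻ x : EuclideanSpace ℝ (Fin (m + 1)),
            ‖g (x, r)‖ₑ ^ p * ENNReal.ofReal (r ^ m)) ^ (1 / p) := by
  obtain ⟨ε0, hε0, hη'⟩ := hη
  obtain ⟨C, hC, hdis⟩ := discreteS m hm h η ε0 hε0 hη' p hp1 hp2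
  obtain ⟨C1, hC1, hav⟩ := averaging (m + 1) (by omega) η p hp1 C hC Sp
    (fun S hS γ => by simpa only [Nat.add_sub_cancel] using hdis S hS γ)
  refine ⟨C1, fun g hg hgb hgc => ?_⟩
  have h2 := hav g hg hgb hgc (fun S hS1 hS2 => Z18_sep S hS1 (fun a ha => (hS2 a ha).1))
  simp only [Nat.add_sub_cancel] at h2
  exact h2

end Pool.LibST49
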