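import Pool.Agent.LibST49.Hst
import Pool.Agent.LibST49.Z18

set_option autoImplicit false

noncomputable section

open MeasureTheory Metric Set Filter

namespace Pool.LibST49

open Pool.LibSR53

theorem main (d : ℕ) (hd : 4 ≤ d) (p : ℝ) (hp1 : 1 < p)
    (hp2 : p < 2 * ((d : ℝ) + 1) / ((d : ℝ) + 3))
    (η : SchwartzMap (EuclideanSpace ℝ (Fin d)) ℂ)
    (hη : ∃ ε : ℝ, 0 < ε ∧ ∀ ξ : EuclideanSpace ℝ (Fin d), ‖ξ‖ < ε →
      ∫ x : EuclideanSpace ℝ (Fin d),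
        Complex.exp (-(2 * (Real.pi : ℂ) * Complex.I * ((inner ℝ x ξ : ℝ) : ℂ))) * η x = 0) :
    ∃ C : ℝ, ∀ g : EuclideanSpace ℝ (Fin d) × ℝ → ℂ, Measurable g → (∃ B : ℝ, ∀ z, ‖g z‖ ≤ B) →
      HasCompactSupport g →
      MeasureTheory.eLpNorm
        (fun x : EuclideanSpace ℝ (Fin d) =>
          ∫ r in Set.Ioi (1 : ℝ), ∫ z : EuclideanSpace ℝ (Fin d),
            (∫ y in Metric.sphere (0 : EuclideanSpace ℝ (Fin d)) r, η (x - y - z)
              ∂(MeasureTheory.Measure.hausdorffMeasure ((d : ℝ) - 1))) * g (z, r))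
        (ENNReal.ofReal p) MeasureTheory.volume
      ≤ ENNReal.ofReal C *
        (∫⁻ r in Set.Ioi (1 : ℝ), ∫⁻ x : EuclideanSpace ℝ (Fin d),
            ‖g (x, r)‖ₑ ^ p * ENNReal.ofReal (r ^ (d - 1))) ^ (1 / p) := by
  obtain ⟨m, rfl⟩ : ∃ m, d = m + 1 := ⟨d - 1, by omega⟩
  have hm : 3 ≤ m := by omega
  have hp2' : p < pS m := by
    unfold pS
    refine hp2.trans_eq ?_
    push_cast
    ring_nf
  exact main_of_hst m (by omega) (hst m hm) p hp1 hp2' η hη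

end Pool.LibST49
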