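import Pool.Agent.LibST49.SD
import Pool.Agent.LibST49.K5
import Pool.Agent.LibST49.A2
import Pool.Agent.LibST49.P5
import Pool.Agent.LibST49.G1

/-
PLAN (K6, STRONG). Z0 := p - q, τ = ‖Z0‖ >= c0 4^κ. Choose k >= κ: k = κ if τ < 4^κ, else the k with 4^k <= τ < 4^(k+1) (k >= κ); then c 4^k <= τ <= c^-1 4^k with c = min(c0,1/4).
gb (cb χ b κ j) (cb χ b κ j') z = χ(2^κ ω - iv j) χ(2^κ ω - iv j') gb b b z: it is zero unless |j - j'|_oo <= 1 and then it is χ2(2^κ z.1 - iv j) * gb b b z with χ2(u) = χ(u) χ(u - iv (j'-j)), one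
of 3^m fixed cut off functions (Ct 1). subdec (symbol gb b b, gb_sb) with exponent M from dirsum (N given), M' = max: for D = pos a - pos a':
|Kb(..)(D)| <= C 2^(-km) (1+|4^-k D.2.1|)^(4M) SUM_(j'' near) (1+‖Lk k w'' D‖)^-M, near = ‖w k j'' - w κ j‖ <= 2 sqrt m 2^-κ, hence also ‖w k j'' - w κ j'‖ <= 3 sqrt m 2^-κ.
D = Z0 + (pos a - p) - (pos a' - q); by A2 (Lk_comp, c0 = 3 sqrt m) ‖Lk k w'' (pos a - p)‖ <= C ‖Lk κ (w κ j) (pos a - p)‖ = C α, α = ‖nd h n - Lk κ (w κ j) p‖, same for α' (with j').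
Peetre: (1+‖L''D‖)^-M <= (1+‖L''Z0‖)^-M (1+Cα)^M (1+Cα')^M; |4^-k D.2.1| <= |4^-k Z0.2.1| + C(α+α') and |4^-k Z0.2.1| <= 4^-k τ <= C (second component of Lk is 4^-k s). So every term is
<= C 2^(-km) (1+‖L''Z0‖)^-M (1+α)^(5M) (1+α')^(5M). |Φ| <= C (1+α)^(-5M-m-3) (Rp.dec). Sum over n, n' by sum_nd; for fixed j'' at most (C)^m labels j and 3^m labels j' are near; then dirsum at
scale k; 2^(-km) = (4^k)^(-m/2) <= C (1+τ)^(-m/2) (1+τ <= C 4^k).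
Finsets G, G': bound the double sum by summing over all j, j' in J m κ (near) and over the finite sets of n that occur.
-/

set_option autoImplicit false

noncomputable section

open MeasureTheory Metric Set Filter

namespace Pool.LibST49

open Pool.LibSR53

private theorem K6_scale {c0 : ℝ} (hc0 : 0 < c0) (κ : ℕ) (τ : ℝ) (h : c0 * 4 ^ κ ≤ τ) :
    ∃ k : ℕ, κ ≤ k ∧ min c0 (1 / 4) * 4 ^ k ≤ τ ∧ τ ≤ (min c0 (1 / 4))⁻¹ * 4 ^ k := by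
  have hc : 0 < min c0 (1 / 4) := lt_min hc0 (by norm_num)
  have hinv : 4 ≤ (min c0 (1 / 4))⁻¹ := by
    rw [le_inv_comm₀ (by norm_num) hc]
    have := min_le_right c0 (1 / 4 : ℝ)
    norm_num at this ⊢
  by_cases hτ : τ < 4 ^ κ
  · refine ⟨κ, le_rfl, ?_, ?_⟩
    · exact le_trans (mul_le_mul_of_nonneg_right (min_le_left _ _) (by positivity)) h
    · have h4 : (0 : ℝ) < 4 ^ κ := by positivity
      nlinarith
  · rw [not_lt] at hτ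
    have h1 : (1 : ℝ) ≤ τ := le_trans (one_le_pow₀ (by norm_num)) hτ
    obtain ⟨k, hk1, hk2⟩ := exists_nat_pow_near h1 (by norm_num : (1 : ℝ) < 4)
    refine ⟨k, ?_, ?_, ?_⟩
    · by_contra hlt
      rw [not_le] at hlt
      have h2 : (4 : ℝ) ^ (k + 1) ≤ 4 ^ κ := pow_le_pow_right₀ (by norm_num) hlt
      linarith
    · have h3 : min c0 (1 / 4) ≤ 1 := le_trans (min_le_right _ _) (by norm_num)
      have h4 : (0 : ℝ) < 4 ^ k := by positivity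
      nlinarith
    · have h4 : (0 : ℝ) < 4 ^ k := by positivity
      rw [pow_succ] at hk2
      nlinarith

private theorem K6_iv_sub {m : ℕ} (j j' : Fin m → ℤ) : (iv j' - iv j : E m) = iv (j' - j) := by
  ext i
  simp [iv]

private theorem K6_gb {m : ℕ} (χ : E m → ℝ) (b : V m → ℂ) (κ : ℕ) (j j' : Fin m → ℤ) :
    gb (cb χ b κ j) (cb χ b κ j') =
      fun z => (((fun u => χ u * χ (u - iv (j' - j))) ((2 : ℝ) ^ κ • z.1 - iv j) : ℝ) : ℂ) * gb b b z := by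
  funext z
  have h1 : (2 : ℝ) ^ κ • z.1 - iv j - iv (j' - j) = (2 : ℝ) ^ κ • z.1 - iv j' := by
    rw [← K6_iv_sub]
    abel
  simp only [gb, cb, h1, map_mul, Complex.conj_ofReal, Complex.ofReal_mul]
  ring

private theorem K6_ct {m : ℕ} {χ : E m → ℝ} (hχ : Pu χ) (δ : Fin m → ℤ) :
    Ct 1 (fun u => χ u * χ (u - iv δ)) := by
  refine ⟨?_, ?_⟩
  · exact hχ.smooth.mul (hχ.smooth.comp (contDiff_id.sub contDiff_const))
  · intro z hz i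
    exact hχ.supp z (left_ne_zero_of_mul hz) i

private theorem K6_zero {m : ℕ} {χ : E m → ℝ} (hχ : Pu χ) (δ : Fin m → ℤ) (hδ : ¬ ∀ i, |δ i| ≤ 1) (u : E m) :
    χ u * χ (u - iv δ) = 0 := by
  by_contra h
  apply hδ
  intro i
  have h1 := hχ.supp u (left_ne_zero_of_mul h) i
  have h2 := hχ.supp _ (right_ne_zero_of_mul h) i
  have h3 : (u - iv δ : E m) i = u i - (δ i : ℝ) := by simp [iv]
  rw [h3] at h2
  have h4 : |(δ i : ℝ)| < 2 := by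
    have : (δ i : ℝ) = u i - (u i - δ i) := by ring
    rw [this]
    calc |u i - (u i - δ i)| ≤ |u i| + |u i - δ i| := abs_sub _ _
      _ < 2 := by linarith
  have h5 : |δ i| < 2 := by exact_mod_cast h4
  omega

open scoped Classical in
private theorem K6_kern {m : ℕ} {v0 v1 : ℝ} {χ : E m → ℝ} (hχ : Pu χ) {b : V m → ℂ} (hb : Sb v0 v1 1 b)
    (M : ℕ) : ∃ C : ℝ, 0 < C ∧ ∀ (k κ : ℕ), κ ≤ k → ∀ (j j' : Fin m → ℤ) (Z : X m),
    ((¬ ∀ i, |j' i - j i| ≤ 1) → Kb (gb (cb χ b κ j) (cb χ b κ j')) Z = 0) ∧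
    ‖Kb (gb (cb χ b κ j) (cb χ b κ j')) Z‖ ≤
      C * (2 : ℝ)⁻¹ ^ (k * m) * (1 + |(4 : ℝ)⁻¹ ^ k * Z.2.1|) ^ (4 * M) *
        ∑ i ∈ (J m k).filter
          (fun i => ‖w k i - w κ j‖ ≤ 2 * Real.sqrt m * (2 : ℝ)⁻¹ ^ κ),
          1 / (1 + ‖Lk k (w k i) Z‖) ^ M := by
  have hsd := fun δ : Fin m → ℤ => subdec hχ (gb_sb hb hb) (K6_ct hχ δ) (by norm_num : (0 : ℝ) ≤ 1) M
  choose C hC hsd using hsd
  set D : Finset (Fin m → ℤ) := Fintype.piFinset fun _ => Finset.Icc (-1) 1 with hD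
  have hzero : ∀ (κ : ℕ) (j j' : Fin m → ℤ) (Z : X m), (¬ ∀ i, |j' i - j i| ≤ 1) →
      Kb (gb (cb χ b κ j) (cb χ b κ j')) Z = 0 := by
    intro κ j j' Z hj
    have h1 : gb (cb χ b κ j) (cb χ b κ j') = fun _ => 0 := by
      rw [K6_gb]
      funext z
      have := K6_zero hχ (j' - j) (by simpa using hj) ((2 : ℝ) ^ κ • z.1 - iv j)
      simp only [this]
      simp
    rw [h1]
    simp [Kb]
  refine ⟨∑ δ ∈ D, C δ + 1, ?_, ?_⟩
  · have : 0 ≤ ∑ δ ∈ D, C δ := Finset.sum_nonneg fun δ _ => (hC δ).le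
    linarith
  · intro k κ hk j j' Z
    refine ⟨hzero κ j j' Z, ?_⟩
    have hsn : 0 ≤ ∑ i ∈ (J m k).filter
          (fun i => ‖w k i - w κ j‖ ≤ 2 * Real.sqrt m * (2 : ℝ)⁻¹ ^ κ),
          1 / (1 + ‖Lk k (w k i) Z‖) ^ M := Finset.sum_nonneg fun i _ => by positivity
    have hsum0 : 0 ≤ ∑ δ ∈ D, C δ := Finset.sum_nonneg fun δ _ => (hC δ).le
    by_cases hj : ∀ i, |j' i - j i| ≤ 1
    · have h1 := hsd (j' - j) k κ hk (iv j) Z
      rw [K6_gb]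
      refine le_trans h1 ?_
      have h2 : C (j' - j) ≤ ∑ δ ∈ D, C δ + 1 := by
        have hmem : j' - j ∈ D := by
          rw [hD, Fintype.mem_piFinset]
          intro i
          rw [Finset.mem_Icc, ← abs_le]
          exact hj i
        have := Finset.single_le_sum (f := C) (fun δ _ => (hC δ).le) hmem
        linarith
      have h3 : ∀ i : Fin m → ℤ, ‖w k i - (2 : ℝ)⁻¹ ^ κ • iv j‖ = ‖w k i - w κ j‖ := fun i => rfl
      have h4 : Real.sqrt m * (1 + 1) * (2 : ℝ)⁻¹ ^ κ = 2 * Real.sqrt m * (2 : ℝ)⁻¹ ^ κ := by ring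
      simp only [h3, h4]
      gcongr
    · rw [hzero κ j j' Z hj, norm_zero]
      positivity

private theorem K6_count {m : ℕ} (r : ℝ) (hr : 0 ≤ r) (y : E m) (T : Finset (Fin m → ℤ))
    (hT : ∀ j ∈ T, ‖y - iv j‖ ≤ r) : (T.card : ℝ) ≤ (2 * r + 1) ^ m := by
  have h1 : T ⊆ Fintype.piFinset (fun i => Finset.Icc ⌈y i - r⌉ ⌊y i + r⌋) := by
    intro j hj
    rw [Fintype.mem_piFinset]
    intro i
    have h2 := hT j hj
    have h3 : ‖(y - iv j : E m) i‖ ≤ ‖y - iv j‖ := PiLp.norm_apply_le _ i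
    have h4 : (y - iv j : E m) i = y i - (j i : ℝ) := by simp [iv]
    rw [h4, Real.norm_eq_abs] at h3
    have h5 := abs_le.1 (le_trans h3 h2)
    rw [Finset.mem_Icc, Int.ceil_le, Int.le_floor]
    constructor <;> linarith [h5.1, h5.2]
  have h2 := Finset.card_le_card h1
  rw [Fintype.card_piFinset] at h2
  have h3 : (T.card : ℝ) ≤ ∏ i : Fin m, ((Finset.Icc ⌈y i - r⌉ ⌊y i + r⌋).card : ℝ) := by exact_mod_cast h2
  refine le_trans h3 ?_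
  have h4 : ∀ i ∈ (Finset.univ : Finset (Fin m)), ((Finset.Icc ⌈y i - r⌉ ⌊y i + r⌋).card : ℝ) ≤ 2 * r + 1 := by
    intro i _
    rw [Int.card_Icc]
    have h5 := Int.floor_le (y i + r)
    have h6 := Int.le_ceil (y i - r)
    rcases le_total 0 (⌊y i + r⌋ + 1 - ⌈y i - r⌉) with h7 | h7
    · have h8 : (((⌊y i + r⌋ + 1 - ⌈y i - r⌉).toNat : ℕ) : ℝ) = ((⌊y i + r⌋ + 1 - ⌈y i - r⌉ : ℤ) : ℝ) := by
        exact_mod_cast congrArg (Int.cast : ℤ → ℝ) (Int.toNat_of_nonneg h7)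
      rw [h8]
      push_cast
      linarith
    · rw [Int.toNat_of_nonpos h7]
      simp
      linarith
  refine le_trans (Finset.prod_le_prod (fun i _ => by positivity) h4) ?_
  simp

private theorem K6_comp {m : ℕ} {k κ : ℕ} (hk : κ ≤ k) (j : Fin m → ℤ) (c : E m)
    (hc : ‖c - w κ j‖ ≤ 3 * Real.sqrt m * (2 : ℝ)⁻¹ ^ κ) (Y p : X m) :
    ‖Lk k c (Li κ (w κ j) Y - p)‖ ≤ (1 + 3 * Real.sqrt m) ^ 2 * ‖Y - Lk κ (w κ j) p‖ := by
  have h1 := Lk_comp (3 * Real.sqrt m) (by positivity) k κ hk (w κ j) c hc (Li κ (w κ j) Y - p)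
  rwa [Lk_sub κ, Lk_Li] at h1

private theorem K6_near {m : ℕ} (κ : ℕ) (j j' : Fin m → ℤ) (hj : ∀ i, |j' i - j i| ≤ 1) :
    ‖(iv j - iv j' : E m)‖ ≤ Real.sqrt m ∧ ‖(w κ j - w κ j' : E m)‖ ≤ Real.sqrt m * (2 : ℝ)⁻¹ ^ κ := by
  have h1 : ‖(iv j - iv j' : E m)‖ ≤ Real.sqrt m := by
    rw [EuclideanSpace.norm_eq]
    apply Real.sqrt_le_sqrt
    have h2 : ∀ i ∈ (Finset.univ : Finset (Fin m)), ‖(iv j - iv j' : E m) i‖ ^ 2 ≤ 1 := by
      intro i _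
      have h3 : (iv j - iv j' : E m) i = (j i : ℝ) - (j' i : ℝ) := by simp [iv]
      have h4 : |(j' i : ℝ) - (j i : ℝ)| ≤ 1 := by exact_mod_cast hj i
      rw [h3, Real.norm_eq_abs, abs_sub_comm]
      exact pow_le_one₀ (abs_nonneg _) h4
    refine le_trans (Finset.sum_le_sum h2) ?_
    simp
  refine ⟨h1, ?_⟩
  have h5 : (w κ j - w κ j' : E m) = (2 : ℝ)⁻¹ ^ κ • (iv j - iv j') := by
    rw [w, w, smul_sub]
  rw [h5, norm_smul, Real.norm_eq_abs, abs_of_nonneg (by positivity : (0 : ℝ) ≤ (2 : ℝ)⁻¹ ^ κ), mul_comm]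
  exact mul_le_mul_of_nonneg_right h1 (by positivity)

private theorem K6_peetre {m : ℕ} {k κ : ℕ} (hk : κ ≤ k) (M : ℕ) (j j' : Fin m → ℤ)
    (hj : ∀ i, |j' i - j i| ≤ 1) (Y Y' p q : X m) (c : E m)
    (hc : ‖c - w κ j‖ ≤ 2 * Real.sqrt m * (2 : ℝ)⁻¹ ^ κ) :
    1 / (1 + ‖Lk k c (Li κ (w κ j) Y - Li κ (w κ j') Y')‖) ^ M ≤
      ((1 + 3 * Real.sqrt m) ^ 2) ^ (2 * M) * ((1 + ‖Y - Lk κ (w κ j) p‖) ^ M *
        (1 + ‖Y' - Lk κ (w κ j') q‖) ^ M) * (1 / (1 + ‖Lk k c (p - q)‖) ^ M) := by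
  set A : ℝ := (1 + 3 * Real.sqrt m) ^ 2 with hA
  set α := ‖Y - Lk κ (w κ j) p‖ with hα
  set α' := ‖Y' - Lk κ (w κ j') q‖ with hα'
  have hs : (0 : ℝ) ≤ Real.sqrt m := Real.sqrt_nonneg _
  have h2k : (0 : ℝ) < (2 : ℝ)⁻¹ ^ κ := by positivity
  have hA1 : 1 ≤ A := by
    rw [hA]
    nlinarith
  have hα0 : 0 ≤ α := norm_nonneg _
  have hα0' : 0 ≤ α' := norm_nonneg _
  have h1 : ‖Lk k c (Li κ (w κ j) Y - p)‖ ≤ A * α := by
    refine K6_comp hk j c (le_trans hc ?_) Y p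
    nlinarith [mul_nonneg hs h2k.le]
  have h2 : ‖Lk k c (Li κ (w κ j') Y' - q)‖ ≤ A * α' := by
    refine K6_comp hk j' c ?_ Y' q
    have h3 := (K6_near κ j j' hj).2
    calc ‖c - w κ j'‖ = ‖(c - w κ j) + (w κ j - w κ j')‖ := by congr 1; abel
      _ ≤ ‖c - w κ j‖ + ‖w κ j - w κ j'‖ := norm_add_le _ _
      _ ≤ 3 * Real.sqrt m * (2 : ℝ)⁻¹ ^ κ := by linarith
  have h3 : Lk k c (p - q) = Lk k c (Li κ (w κ j) Y - Li κ (w κ j') Y') - Lk k c (Li κ (w κ j) Y - p) +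
      Lk k c (Li κ (w κ j') Y' - q) := by
    rw [← Lk_sub, ← Lk_add]
    congr 1
    abel
  have h4 : ‖Lk k c (p - q)‖ ≤ ‖Lk k c (Li κ (w κ j) Y - Li κ (w κ j') Y')‖ + A * α + A * α' := by
    rw [h3]
    refine le_trans (norm_add_le _ _) ?_
    have := norm_sub_le (Lk k c (Li κ (w κ j) Y - Li κ (w κ j') Y')) (Lk k c (Li κ (w κ j) Y - p))
    linarith
  set x := ‖Lk k c (Li κ (w κ j) Y - Li κ (w κ j') Y')‖ with hx
  have hx0 : 0 ≤ x := norm_nonneg _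
  set y := ‖Lk k c (p - q)‖ with hy
  have hy0 : 0 ≤ y := norm_nonneg _
  have h5 : 1 + y ≤ (1 + x) * (A * (1 + α)) * (A * (1 + α')) := by
    have h6 : 1 + y ≤ (1 + x) * (1 + A * α) * (1 + A * α') := by
      have e1 : 0 ≤ A * α := by positivity
      have e2 : 0 ≤ A * α' := by positivity
      nlinarith [mul_nonneg e1 e2, mul_nonneg hx0 e1, mul_nonneg hx0 e2, mul_nonneg (mul_nonneg hx0 e1) e2]
    refine le_trans h6 ?_
    have e3 : 1 + A * α ≤ A * (1 + α) := by nlinarith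
    have e4 : 1 + A * α' ≤ A * (1 + α') := by nlinarith
    gcongr
  have h7 : (1 + y) ^ M ≤ ((1 + x) * (A * (1 + α)) * (A * (1 + α'))) ^ M :=
    pow_le_pow_left₀ (by positivity) h5 M
  rw [mul_one_div, div_le_div_iff₀ (by positivity) (by positivity), one_mul]
  refine le_trans h7 (le_of_eq ?_)
  rw [mul_pow, mul_pow, mul_pow, mul_pow, pow_mul, pow_two, mul_pow]
  ring

private theorem K6_sec {m : ℕ} {k κ : ℕ} (hk : κ ≤ k) (j j' : Fin m → ℤ) (Y Y' p q : X m) {c : ℝ}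
    (hpq : ‖p - q‖ ≤ c⁻¹ * 4 ^ k) (hc : 0 < c) :
    1 + |(4 : ℝ)⁻¹ ^ k * (Li κ (w κ j) Y - Li κ (w κ j') Y').2.1| ≤
      (1 + c⁻¹ + (1 + 3 * Real.sqrt m) ^ 2) * ((1 + ‖Y - Lk κ (w κ j) p‖) * (1 + ‖Y' - Lk κ (w κ j') q‖)) := by
  set A : ℝ := (1 + 3 * Real.sqrt m) ^ 2 with hA
  set α := ‖Y - Lk κ (w κ j) p‖ with hα
  set α' := ‖Y' - Lk κ (w κ j') q‖ with hα'
  have hα0 : 0 ≤ α := norm_nonneg _
  have hα0' : 0 ≤ α' := norm_nonneg _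
  have hA0 : 0 ≤ A := by positivity
  have hsec : ∀ (cc : E m) (Z : X m), |(4 : ℝ)⁻¹ ^ k * Z.2.1| ≤ ‖Lk k cc Z‖ := by
    intro cc Z
    calc |(4 : ℝ)⁻¹ ^ k * Z.2.1| = ‖(Lk k cc Z).2.1‖ := rfl
      _ ≤ ‖(Lk k cc Z).2‖ := norm_fst_le _
      _ ≤ ‖Lk k cc Z‖ := norm_snd_le _
  have hz : ∀ j : Fin m → ℤ, ‖w κ j - w κ j‖ ≤ 3 * Real.sqrt m * (2 : ℝ)⁻¹ ^ κ := by
    intro j
    rw [sub_self, norm_zero]
    positivity
  have h1 : |(4 : ℝ)⁻¹ ^ k * (Li κ (w κ j) Y - p).2.1| ≤ A * α :=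
    le_trans (hsec (w κ j) _) (K6_comp hk j (w κ j) (hz j) Y p)
  have h2 : |(4 : ℝ)⁻¹ ^ k * (Li κ (w κ j') Y' - q).2.1| ≤ A * α' :=
    le_trans (hsec (w κ j') _) (K6_comp hk j' (w κ j') (hz j') Y' q)
  have h3 : |(4 : ℝ)⁻¹ ^ k * (p - q).2.1| ≤ c⁻¹ := by
    rw [abs_mul, abs_of_nonneg (by positivity : (0 : ℝ) ≤ (4 : ℝ)⁻¹ ^ k)]
    have h4 : |(p - q).2.1| ≤ ‖p - q‖ := le_trans (norm_fst_le (p - q).2) (norm_snd_le (p - q))
    calc (4 : ℝ)⁻¹ ^ k * |(p - q).2.1| ≤ (4 : ℝ)⁻¹ ^ k * (c⁻¹ * 4 ^ k) := by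
          gcongr
          exact le_trans h4 hpq
      _ = c⁻¹ := by
          rw [inv_pow]
          field_simp
  have h5 : (4 : ℝ)⁻¹ ^ k * (Li κ (w κ j) Y - Li κ (w κ j') Y').2.1 =
      (4 : ℝ)⁻¹ ^ k * (Li κ (w κ j) Y - p).2.1 + (4 : ℝ)⁻¹ ^ k * (p - q).2.1 -
        (4 : ℝ)⁻¹ ^ k * (Li κ (w κ j') Y' - q).2.1 := by
    simp only [Prod.snd_sub, Prod.fst_sub]
    ring
  have h6 : |(4 : ℝ)⁻¹ ^ k * (Li κ (w κ j) Y - Li κ (w κ j') Y').2.1| ≤ A * α + c⁻¹ + A * α' := by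
    rw [h5]
    refine le_trans (abs_sub _ _) ?_
    have := abs_add_le ((4 : ℝ)⁻¹ ^ k * (Li κ (w κ j) Y - p).2.1) ((4 : ℝ)⁻¹ ^ k * (p - q).2.1)
    linarith
  have hc' : 0 < c⁻¹ := by positivity
  nlinarith [mul_nonneg hα0 hα0', mul_nonneg hc'.le hα0, mul_nonneg hc'.le hα0', mul_nonneg hA0 (mul_nonneg hα0 hα0'),
    mul_nonneg hc'.le (mul_nonneg hα0 hα0')]

private theorem K6_fub {m : ℕ} (G : Finset (Pk m)) (I : Finset (Fin m → ℤ)) (hG : ∀ a ∈ G, a.1 ∈ I)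
    (F : (Fin m → ℤ) → Zn m → ℝ) (hF : ∀ j n, 0 ≤ F j n) :
    ∑ a ∈ G, F a.1 a.2 ≤ ∑ j ∈ I, ∑ n ∈ G.image Prod.snd, F j n := by
  classical
  rw [← Finset.sum_product']
  refine Finset.sum_le_sum_of_subset_of_nonneg ?_ (fun a _ _ => hF _ _)
  intro a ha
  rw [Finset.mem_product]
  exact ⟨hG a ha, Finset.mem_image_of_mem _ ha⟩

private theorem K6_pow {P : ℝ} (hP : 0 < P) (M m : ℕ) (C4 : ℝ) :
    C4 / P ^ (5 * M + (m + 3)) * (P ^ (4 * M) * P ^ M) = C4 * (1 / P ^ (m + 3)) := by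
  have h1 : P ^ (5 * M + (m + 3)) = (P ^ (4 * M) * P ^ M) * P ^ (m + 3) := by
    rw [← pow_add, ← pow_add]
    congr 1
    ring
  rw [h1]
  field_simp

private theorem K6_alg {C2 t B A C4 α α' s3 s4 S x1 x2 x3 : ℝ} {M m : ℕ} (hC2 : 0 ≤ C2) (ht : 0 ≤ t)
    (hC4 : 0 ≤ C4) (hα : 0 ≤ α) (hα' : 0 ≤ α') (hs3 : 0 ≤ s3) (hs4 : 0 ≤ s4)
    (hx2 : 0 ≤ x2) (hx3 : 0 ≤ x3)
    (h1 : x1 ≤ C4 / (1 + α) ^ (5 * M + (m + 3))) (h2 : x2 ≤ C4 / (1 + α') ^ (5 * M + (m + 3)))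
    (h3 : s3 ≤ B * ((1 + α) * (1 + α'))) (h4 : s4 ≤ A ^ (2 * M) * ((1 + α) ^ M * (1 + α') ^ M) * S)
    (h5 : x3 ≤ C2 * t * s3 ^ (4 * M) * s4) :
    x1 * x2 * x3 ≤ C2 * t * B ^ (4 * M) * A ^ (2 * M) * C4 ^ 2 *
      (1 / (1 + α) ^ (m + 3) * S * (1 / (1 + α') ^ (m + 3))) := by
  have e1 : s3 ^ (4 * M) ≤ (B * ((1 + α) * (1 + α'))) ^ (4 * M) := pow_le_pow_left₀ hs3 h3 _
  have e2 : C2 * t * s3 ^ (4 * M) ≤ C2 * t * (B * ((1 + α) * (1 + α'))) ^ (4 * M) :=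
    mul_le_mul_of_nonneg_left e1 (mul_nonneg hC2 ht)
  have e0 : 0 ≤ C2 * t * (B * ((1 + α) * (1 + α'))) ^ (4 * M) :=
    le_trans (mul_nonneg (mul_nonneg hC2 ht) (pow_nonneg hs3 _)) e2
  have e3 : x3 ≤ C2 * t * (B * ((1 + α) * (1 + α'))) ^ (4 * M) *
      (A ^ (2 * M) * ((1 + α) ^ M * (1 + α') ^ M) * S) :=
    le_trans h5 (mul_le_mul e2 h4 hs4 e0)
  have hp1 : 0 < 1 + α := by linarith
  have hp2 : 0 < 1 + α' := by linarith
  have q1 : 0 ≤ C4 / (1 + α) ^ (5 * M + (m + 3)) := div_nonneg hC4 (pow_nonneg hp1.le _)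
  have q2 : 0 ≤ C4 / (1 + α') ^ (5 * M + (m + 3)) := div_nonneg hC4 (pow_nonneg hp2.le _)
  have e4 : x1 * x2 ≤ C4 / (1 + α) ^ (5 * M + (m + 3)) * (C4 / (1 + α') ^ (5 * M + (m + 3))) :=
    mul_le_mul h1 h2 hx2 q1
  refine le_trans (mul_le_mul e4 e3 hx3 (mul_nonneg q1 q2)) (le_of_eq ?_)
  calc C4 / (1 + α) ^ (5 * M + (m + 3)) * (C4 / (1 + α') ^ (5 * M + (m + 3))) *
        (C2 * t * (B * ((1 + α) * (1 + α'))) ^ (4 * M) * (A ^ (2 * M) * ((1 + α) ^ M * (1 + α') ^ M) * S))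
      = C2 * t * B ^ (4 * M) * A ^ (2 * M) *
            ((C4 / (1 + α) ^ (5 * M + (m + 3)) * ((1 + α) ^ (4 * M) * (1 + α) ^ M)) *
            (C4 / (1 + α') ^ (5 * M + (m + 3)) * ((1 + α') ^ (4 * M) * (1 + α') ^ M))) * S := by
            rw [mul_pow, mul_pow]
            ring
    _ = C2 * t * B ^ (4 * M) * A ^ (2 * M) * C4 ^ 2 *
      (1 / (1 + α) ^ (m + 3) * S * (1 / (1 + α') ^ (m + 3))) := by
            rw [K6_pow hp1 M m C4, K6_pow hp2 M m C4]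
            ring

/-- interaction of distant points: the sum over all pairs of packets is bounded by Mk -/
theorem gram_far {m : ℕ} (hm : 1 ≤ m) {h v0 v1 ρ R : ℝ} {Φ Φh : X m → ℂ}
    (hR : Rp h v0 v1 ρ R Φ Φh) {χ : E m → ℝ} (hχ : Pu χ) {b : V m → ℂ} (hb : Sb v0 v1 1 b)
    (N : ℕ) (c0 : ℝ) (hc0 : 0 < c0) : ∃ C : ℝ, 0 < C ∧ ∀ (κ : ℕ) (p q : X m),
    c0 * 4 ^ κ ≤ ‖p - q‖ → ∀ G G' : Finset (Pk m), (∀ a ∈ G, a.1 ∈ J m κ) →
    (∀ a ∈ G', a.1 ∈ J m κ) →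
    ∑ a ∈ G, ∑ a' ∈ G', ‖Φ (nd h a.2 - Lk κ (w κ a.1) p)‖ * ‖Φ (nd h a'.2 - Lk κ (w κ a'.1) q)‖ *
      ‖Kb (gb (cb χ b κ a.1) (cb χ b κ a'.1)) (pos h κ a - pos h κ a')‖ ≤ C * Mk N (p - q) := by
  classical
  set c : ℝ := min c0 (1 / 4) with hc
  have hcpos : 0 < c := lt_min hc0 (by norm_num)
  obtain ⟨C1, M, hC1, hdir⟩ := dirsum m hm N c hcpos
  obtain ⟨C2, hC2, hkern⟩ := K6_kern hχ hb M
  obtain ⟨C3, hC3, hnd⟩ := sum_nd m h hR.hpos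
  obtain ⟨C4, hC4, hdec⟩ := hR.dec (5 * M + (m + 3))
  set A : ℝ := (1 + 3 * Real.sqrt m) ^ 2 with hA
  have hApos : 0 < A := by
    have := Real.sqrt_nonneg (m : ℝ)
    positivity
  set B : ℝ := 1 + c⁻¹ + A with hB
  have hBpos : 0 < B := by positivity
  set C5 : ℝ := (2 * (2 * Real.sqrt m) + 1) ^ m with hC5
  have hC5pos : 0 < C5 := by
    have := Real.sqrt_nonneg (m : ℝ)
    positivity
  set C6 : ℝ := (2 * Real.sqrt m + 1) ^ m with hC6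
  have hC6pos : 0 < C6 := by
    have := Real.sqrt_nonneg (m : ℝ)
    positivity
  refine ⟨C2 * B ^ (4 * M) * A ^ (2 * M) * C4 ^ 2 * (C6 * C3) * (C3 * C5) * C1 * (1 + c⁻¹) ^ ((m : ℝ) / 2),
    by positivity, ?_⟩
  intro κ p q hpq G G' hG hG'
  obtain ⟨k, hk, hk1, hk2⟩ := K6_scale hc0 κ ‖p - q‖ hpq
  -- notation
  set φ : (Fin m → ℤ) → Zn m → ℝ := fun j n => 1 / (1 + ‖nd h n - Lk κ (w κ j) p‖) ^ (m + 3) with hφ
  set ψ : (Fin m → ℤ) → Zn m → ℝ := fun j n => 1 / (1 + ‖nd h n - Lk κ (w κ j) q‖) ^ (m + 3) with hψ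
  set g : (Fin m → ℤ) → ℝ := fun i => 1 / (1 + ‖Lk k (w k i) (p - q)‖) ^ M with hg
  set S : (Fin m → ℤ) → ℝ := fun j => ∑ i ∈ (J m k).filter
    (fun i => ‖w k i - w κ j‖ ≤ 2 * Real.sqrt m * (2 : ℝ)⁻¹ ^ κ), g i with hS
  set ind : (Fin m → ℤ) → (Fin m → ℤ) → ℝ := fun j j' => if ∀ i, |j' i - j i| ≤ 1 then 1 else 0 with hind
  have hφ0 : ∀ j n, 0 ≤ φ j n := fun j n => by positivity
  have hψ0 : ∀ j n, 0 ≤ ψ j n := fun j n => by positivity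
  have hg0 : ∀ i, 0 ≤ g i := fun i => by positivity
  have hS0 : ∀ j, 0 ≤ S j := fun j => Finset.sum_nonneg fun i _ => hg0 i
  have hind0 : ∀ j j', 0 ≤ ind j j' := by
    intro j j'
    simp only [hind]
    split_ifs <;> norm_num
  set K0 : ℝ := C2 * (2 : ℝ)⁻¹ ^ (k * m) * B ^ (4 * M) * A ^ (2 * M) * C4 ^ 2 with hK0
  have hK0pos : 0 < K0 := by positivity
  -- the single term
  have hterm : ∀ a a' : Pk m,
      ‖Φ (nd h a.2 - Lk κ (w κ a.1) p)‖ * ‖Φ (nd h a'.2 - Lk κ (w κ a'.1) q)‖ *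
      ‖Kb (gb (cb χ b κ a.1) (cb χ b κ a'.1)) (pos h κ a - pos h κ a')‖ ≤
      K0 * (φ a.1 a.2 * S a.1 * (ψ a'.1 a'.2 * ind a.1 a'.1)) := by
    rintro ⟨j, n⟩ ⟨j', n'⟩
    simp only
    obtain ⟨hz, hle⟩ := hkern k κ hk j j' (pos h κ (j, n) - pos h κ (j', n'))
    by_cases hj : ∀ i, |j' i - j i| ≤ 1
    · have hi1 : ind j j' = 1 := if_pos hj
      rw [hi1, mul_one]
      set α := ‖nd h n - Lk κ (w κ j) p‖ with hα
      set α' := ‖nd h n' - Lk κ (w κ j') q‖ with hα'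
      have hα0 : 0 ≤ α := norm_nonneg _
      have hα0' : 0 ≤ α' := norm_nonneg _
      have e1 : ‖Φ (nd h n - Lk κ (w κ j) p)‖ ≤ C4 / (1 + α) ^ (5 * M + (m + 3)) := hdec _
      have e2 : ‖Φ (nd h n' - Lk κ (w κ j') q)‖ ≤ C4 / (1 + α') ^ (5 * M + (m + 3)) := hdec _
      have e3 : 1 + |(4 : ℝ)⁻¹ ^ k * (pos h κ (j, n) - pos h κ (j', n')).2.1| ≤ B * ((1 + α) * (1 + α')) :=
        K6_sec hk j j' (nd h n) (nd h n') p q hk2 hcpos
      have e4 : ∑ i ∈ (J m k).filter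
          (fun i => ‖w k i - w κ j‖ ≤ 2 * Real.sqrt m * (2 : ℝ)⁻¹ ^ κ),
          1 / (1 + ‖Lk k (w k i) (pos h κ (j, n) - pos h κ (j', n'))‖) ^ M ≤
          A ^ (2 * M) * ((1 + α) ^ M * (1 + α') ^ M) * S j := by
        simp only [hS]
        rw [Finset.mul_sum]
        refine Finset.sum_le_sum ?_
        intro i hi
        rw [Finset.mem_filter] at hi
        exact K6_peetre hk M j j' hj (nd h n) (nd h n') p q (w k i) hi.2
      have hs4 : 0 ≤ ∑ i ∈ (J m k).filter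
          (fun i => ‖w k i - w κ j‖ ≤ 2 * Real.sqrt m * (2 : ℝ)⁻¹ ^ κ),
          1 / (1 + ‖Lk k (w k i) (pos h κ (j, n) - pos h κ (j', n'))‖) ^ M :=
        Finset.sum_nonneg fun i _ => one_div_nonneg.2 (pow_nonneg (by linarith [norm_nonneg (Lk k (w k i) (pos h κ (j, n) - pos h κ (j', n')))]) _)
      have hs3 : 0 ≤ 1 + |(4 : ℝ)⁻¹ ^ k * (pos h κ (j, n) - pos h κ (j', n')).2.1| := by
        linarith [abs_nonneg ((4 : ℝ)⁻¹ ^ k * (pos h κ (j, n) - pos h κ (j', n')).2.1)]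
      exact K6_alg hC2.le (pow_nonneg (by norm_num) _) hC4.le hα0 hα0' hs3 hs4 (norm_nonneg _)
        (norm_nonneg _) e1 e2 e3 e4 hle
    · rw [hz hj, norm_zero, mul_zero]
      exact mul_nonneg hK0pos.le (mul_nonneg (mul_nonneg (hφ0 _ _) (hS0 _)) (mul_nonneg (hψ0 _ _) (hind0 _ _)))
  -- the inner sum
  have hinner : ∀ j : Fin m → ℤ, ∑ a' ∈ G', ψ a'.1 a'.2 * ind j a'.1 ≤ C6 * C3 := by
    intro j
    refine le_trans (K6_fub G' (J m κ) hG' (fun j' n => ψ j' n * ind j j')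
      (fun j' n => mul_nonneg (hψ0 _ _) (hind0 _ _))) ?_
    have h1 : ∀ j' ∈ J m κ, ∑ n ∈ G'.image Prod.snd, ψ j' n * ind j j' ≤ if ∀ i, |j' i - j i| ≤ 1 then C3 else 0 := by
      intro j' _
      rw [← Finset.sum_mul]
      by_cases hj : ∀ i, |j' i - j i| ≤ 1
      · rw [if_pos hj]
        have hi1 : ind j j' = 1 := if_pos hj
        rw [hi1, mul_one]
        exact hnd _ _
      · rw [if_neg hj]
        have hi0 : ind j j' = 0 := if_neg hj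
        rw [hi0, mul_zero]
    refine le_trans (Finset.sum_le_sum h1) ?_
    rw [← Finset.sum_filter, Finset.sum_const, nsmul_eq_mul]
    refine mul_le_mul_of_nonneg_right ?_ hC3.le
    refine K6_count (Real.sqrt m) (Real.sqrt_nonneg _) (iv j) _ ?_
    intro j' hj'
    rw [Finset.mem_filter] at hj'
    exact (K6_near κ j j' hj'.2).1
  -- the sum over the directions
  have hsumS : ∑ j ∈ J m κ, S j ≤ C5 * ∑ i ∈ J m k, g i := by
    simp only [hS]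
    simp only [Finset.sum_filter]
    rw [Finset.sum_comm, Finset.mul_sum]
    refine Finset.sum_le_sum ?_
    intro i _
    rw [← Finset.sum_filter, Finset.sum_const, nsmul_eq_mul]
    refine mul_le_mul_of_nonneg_right ?_ (hg0 i)
    refine K6_count (2 * Real.sqrt m) (by positivity) ((2 : ℝ) ^ κ • w k i) _ ?_
    intro j hj
    rw [Finset.mem_filter] at hj
    have h2 : (iv j : E m) = (2 : ℝ) ^ κ • w κ j := by
      rw [w, smul_smul, ← mul_pow]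
      norm_num
    rw [h2, ← smul_sub, norm_smul, Real.norm_eq_abs, abs_of_nonneg (by positivity : (0 : ℝ) ≤ (2 : ℝ) ^ κ)]
    calc (2 : ℝ) ^ κ * ‖w k i - w κ j‖ ≤ (2 : ℝ) ^ κ * (2 * Real.sqrt m * (2 : ℝ)⁻¹ ^ κ) :=
          mul_le_mul_of_nonneg_left hj.2 (by positivity)
      _ = 2 * Real.sqrt m := by
          rw [inv_pow]
          field_simp
  have hdir' : ∑ i ∈ J m k, g i ≤ C1 / (1 + abs (ny (p - q) - |rad (p - q)|)) ^ N := hdir k (p - q) hk1 hk2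
  -- the outer sum
  have houter : ∑ a ∈ G, φ a.1 a.2 * S a.1 ≤ C3 * C5 * (C1 / (1 + abs (ny (p - q) - |rad (p - q)|)) ^ N) := by
    refine le_trans (K6_fub G (J m κ) hG (fun j n => φ j n * S j) (fun j n => mul_nonneg (hφ0 _ _) (hS0 _))) ?_
    have h1 : ∀ j ∈ J m κ, ∑ n ∈ G.image Prod.snd, φ j n * S j ≤ C3 * S j := by
      intro j _
      rw [← Finset.sum_mul]
      exact mul_le_mul_of_nonneg_right (hnd _ _) (hS0 j)
    refine le_trans (Finset.sum_le_sum h1) ?_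
    rw [← Finset.mul_sum, mul_assoc]
    refine mul_le_mul_of_nonneg_left ?_ hC3.le
    exact le_trans hsumS (mul_le_mul_of_nonneg_left hdir' hC5pos.le)
  -- the power of the distance
  have hpow : (2 : ℝ)⁻¹ ^ (k * m) ≤ (1 + c⁻¹) ^ ((m : ℝ) / 2) * (1 + ‖p - q‖) ^ (-((m : ℝ) / 2)) := by
    have hτ0 : 0 ≤ ‖p - q‖ := norm_nonneg _
    have h4 : (1 : ℝ) ≤ 4 ^ k := one_le_pow₀ (by norm_num)
    have h1 : 1 + ‖p - q‖ ≤ (1 + c⁻¹) * 4 ^ k := by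
      have : 0 < c⁻¹ := by positivity
      nlinarith
    have h2 : (1 + ‖p - q‖) ^ ((m : ℝ) / 2) ≤ ((1 + c⁻¹) * 4 ^ k) ^ ((m : ℝ) / 2) :=
      Real.rpow_le_rpow (by positivity) h1 (by positivity)
    have h3 : ((4 : ℝ) ^ k) ^ ((m : ℝ) / 2) = 2 ^ (k * m) := by
      rw [← Real.rpow_natCast, ← Real.rpow_mul (by norm_num), show (4 : ℝ) = 2 ^ (2 : ℝ) by norm_num,
        ← Real.rpow_mul (by norm_num), ← Real.rpow_natCast]
      congr 1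
      push_cast
      ring
    rw [Real.mul_rpow (by positivity) (by positivity), h3] at h2
    rw [Real.rpow_neg (by positivity), inv_pow, inv_le_iff_one_le_mul₀ (by positivity), ← div_eq_mul_inv]
    rw [div_mul_eq_mul_div, one_le_div (by positivity)]
    exact h2
  -- conclusion
  calc ∑ a ∈ G, ∑ a' ∈ G', ‖Φ (nd h a.2 - Lk κ (w κ a.1) p)‖ * ‖Φ (nd h a'.2 - Lk κ (w κ a'.1) q)‖ *
        ‖Kb (gb (cb χ b κ a.1) (cb χ b κ a'.1)) (pos h κ a - pos h κ a')‖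
      ≤ ∑ a ∈ G, ∑ a' ∈ G', K0 * (φ a.1 a.2 * S a.1 * (ψ a'.1 a'.2 * ind a.1 a'.1)) :=
        Finset.sum_le_sum fun a _ => Finset.sum_le_sum fun a' _ => hterm a a'
    _ = K0 * ∑ a ∈ G, (φ a.1 a.2 * S a.1) * ∑ a' ∈ G', ψ a'.1 a'.2 * ind a.1 a'.1 := by
        rw [Finset.mul_sum]
        refine Finset.sum_congr rfl fun a _ => ?_
        rw [← Finset.mul_sum, ← Finset.mul_sum]
    _ ≤ K0 * ∑ a ∈ G, (φ a.1 a.2 * S a.1) * (C6 * C3) := by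
        refine mul_le_mul_of_nonneg_left (Finset.sum_le_sum fun a _ => ?_) hK0pos.le
        exact mul_le_mul_of_nonneg_left (hinner a.1) (mul_nonneg (hφ0 _ _) (hS0 _))
    _ = K0 * (C6 * C3) * ∑ a ∈ G, (φ a.1 a.2 * S a.1) := by
        rw [← Finset.sum_mul]
        ring
    _ ≤ K0 * (C6 * C3) * (C3 * C5 * (C1 / (1 + abs (ny (p - q) - |rad (p - q)|)) ^ N)) :=
        mul_le_mul_of_nonneg_left houter (by positivity)
    _ = (C2 * B ^ (4 * M) * A ^ (2 * M) * C4 ^ 2 * (C6 * C3) * (C3 * C5) * C1) * (2 : ℝ)⁻¹ ^ (k * m) *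
          (1 / (1 + abs (ny (p - q) - |rad (p - q)|)) ^ N) := by
        simp only [hK0]
        ring
    _ ≤ (C2 * B ^ (4 * M) * A ^ (2 * M) * C4 ^ 2 * (C6 * C3) * (C3 * C5) * C1) *
          ((1 + c⁻¹) ^ ((m : ℝ) / 2) * (1 + ‖p - q‖) ^ (-((m : ℝ) / 2))) *
          (1 / (1 + abs (ny (p - q) - |rad (p - q)|)) ^ N) := by
        gcongr
    _ = C2 * B ^ (4 * M) * A ^ (2 * M) * C4 ^ 2 * (C6 * C3) * (C3 * C5) * C1 * (1 + c⁻¹) ^ ((m : ℝ) / 2) *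
          Mk N (p - q) := by
        rw [Mk]
        ring

end Pool.LibST49
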