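import Pool.Agent.LibST49.SD
import Pool.Agent.LibST49.A2
import Pool.Agent.LibST49.P5
import Pool.Agent.LibST49.G1

/-
PLAN (L1, MEDIUM/STRONG). gb (cb χ b κ j) (cb χ b κ j') is 0 unless |j-j'|_oo <= 1 and then it is (χ2(2^κ z.1 - iv j)) * gb b b z, χ2(u) = χ(u) χ(u - iv(j'-j)): write it as in kern with
χ1 = χ, k = κ, j, and χ2'(u) = χ(u - iv (j'-j)) (a = iv j), symbol gb b b (gb_sb): with N = m+3,
|Kb(..)(pos a - pos a')| <= C 2^(-κm) (1+|4^-κ (pos a - pos a').2.1|)^(4N) / (1+‖Lk κ (w κ j)(pos a - pos a')‖)^N. (pos a).2.1 = 4^κ h n_σ; pick p in S realising rh (finite nonempty set, compact: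
IsCompact.exists_infDist_eq_dist): |h n_σ - 4^-κ p.2.1| <= rh a; so 4^-κ |..| <= 1 + rh a + rh a' and (1+..)^(4N) <= 2^(4N) (1+rh a)^(4N) (1+rh a')^(4N). M := 4N.
With x_a = c a (1+rh a)^M: the sum is <= C 2^(-κm) SUM_(a,a') x_a x_a' K(a,a'), K(a,a') = 1_(|j-j'| <= 1) / (1+‖Lk κ (w κ j)(pos a - pos a')‖)^(m+3); x x' <= (x^2 + x'^2)/2 and
SUM_a' K(a,a') <= C: for fixed j', ‖Lk κ (w κ j') D‖ <= C ‖Lk κ (w κ j) D‖ (A2, ‖w κ j' - w κ j‖ <= sqrt m 2^-κ) and Lk κ (w κ j') (pos a - pos a') = y - nd h n' with y fixed: sum_nd; 3^m labels j'.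
The sum over a for fixed a' is the same (symmetry: Lk κ (w κ j) (pos a - pos a') = nd h n - y').
-/

set_option autoImplicit false

noncomputable section

open MeasureTheory Metric Set Filter

namespace Pool.LibST49

open Pool.LibSR53

private theorem L1_sum {m : ℕ} (j' : Fin m → ℤ) (C : ℝ) (hC : 0 ≤ C)
    (g : (Fin m → ℤ) → Zn m → ℝ) (hg0 : ∀ j n, 0 ≤ g j n)
    (hg : ∀ j, ∀ T : Finset (Zn m), ∑ n ∈ T, g j n ≤ C) (G : Finset (Pk m)) :
    ∑ a ∈ G, (if ∀ i, |a.1 i - j' i| ≤ 1 then g a.1 a.2 else 0) ≤ 3 ^ m * C := by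
  classical
  have h1 : ∑ a ∈ G, (if ∀ i, |a.1 i - j' i| ≤ 1 then g a.1 a.2 else 0) ≤
      ∑ a ∈ (G.image Prod.fst) ×ˢ (G.image Prod.snd),
        (if ∀ i, |a.1 i - j' i| ≤ 1 then g a.1 a.2 else 0) := by
    apply Finset.sum_le_sum_of_subset_of_nonneg Finset.subset_product
    intro a _ _
    split_ifs
    · exact hg0 _ _
    · exact le_rfl
  refine h1.trans ?_
  rw [Finset.sum_product]
  have h2 : ∀ j ∈ G.image Prod.fst, ∑ n ∈ G.image Prod.snd,
      (if ∀ i, |j i - j' i| ≤ 1 then g j n else 0) ≤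
      if j ∈ Fintype.piFinset (fun i => Finset.Icc (j' i - 1) (j' i + 1)) then C else 0 := by
    intro j _
    by_cases hj : ∀ i, |j i - j' i| ≤ 1
    · have hj' : j ∈ Fintype.piFinset (fun i => Finset.Icc (j' i - 1) (j' i + 1)) := by
        rw [Fintype.mem_piFinset]
        intro i
        have := abs_le.1 (hj i)
        rw [Finset.mem_Icc]
        constructor <;> linarith [this.1, this.2]
      rw [if_pos hj']
      simp only [if_pos hj]
      exact hg j _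
    · simp only [if_neg hj, Finset.sum_const_zero]
      split_ifs
      · exact hC
      · exact le_rfl
  refine (Finset.sum_le_sum h2).trans ?_
  rw [← Finset.sum_filter, Finset.sum_const, nsmul_eq_mul]
  apply mul_le_mul_of_nonneg_right _ hC
  have h3 : (Finset.filter (fun j => j ∈ Fintype.piFinset
      (fun i => Finset.Icc (j' i - 1) (j' i + 1))) (G.image Prod.fst)).card ≤
      (Fintype.piFinset (fun i => Finset.Icc (j' i - 1) (j' i + 1))).card := by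
    apply Finset.card_le_card
    intro j hj
    exact (Finset.mem_filter.1 hj).2
  have h4 : (Fintype.piFinset (fun i => Finset.Icc (j' i - 1) (j' i + 1))).card = 3 ^ m := by
    rw [Fintype.card_piFinset]
    simp only [Int.card_Icc]
    have : ∀ i : Fin m, (j' i + 1 + 1 - (j' i - 1)).toNat = 3 := by
      intro i
      have : j' i + 1 + 1 - (j' i - 1) = 3 := by ring
      rw [this]
      rfl
    simp only [this, Finset.prod_const, Finset.card_univ, Fintype.card_fin]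
  rw [h4] at h3
  exact_mod_cast h3

private theorem L1_w {m : ℕ} (κ : ℕ) (j j' : Fin m → ℤ) (h : ∀ i, |j i - j' i| ≤ 1) :
    ‖(w κ j' : E m) - w κ j‖ ≤ Real.sqrt m * (2 : ℝ)⁻¹ ^ κ := by
  unfold w
  rw [← smul_sub, norm_smul, Real.norm_of_nonneg (by positivity), mul_comm]
  apply mul_le_mul_of_nonneg_right _ (by positivity)
  rw [EuclideanSpace.norm_eq]
  apply Real.sqrt_le_sqrt
  calc ∑ i : Fin m, ‖(iv j' - iv j : E m) i‖ ^ 2 ≤ ∑ _i : Fin m, (1 : ℝ) := by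
        apply Finset.sum_le_sum
        intro i _
        have h1 : (iv j' - iv j : E m) i = (j' i : ℝ) - j i := by
          simp [iv]
        rw [h1]
        have h2 : |(j' i : ℝ) - j i| ≤ 1 := by
          have := h i
          rw [abs_sub_comm] at this
          exact_mod_cast this
        rw [Real.norm_eq_abs]
        exact pow_le_one₀ (abs_nonneg _) h2
    _ = m := by simp

private theorem L1_gb {m : ℕ} (χ : E m → ℝ) (b : V m → ℂ) (κ : ℕ) (j j' : Fin m → ℤ) :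
    gb (cb χ b κ j) (cb χ b κ j') = fun z => (χ ((2 : ℝ) ^ κ • z.1 - iv j) : ℂ) *
      ((χ ((2 : ℝ) ^ κ • z.1 - iv j') : ℂ) * gb b b z) := by
  funext z
  unfold gb cb
  rw [map_mul, Complex.conj_ofReal]
  ring

private theorem L1_zero {m : ℕ} {χ : E m → ℝ} (hχ : Pu χ) (b : V m → ℂ) (κ : ℕ)
    (j j' : Fin m → ℤ) (h : ¬ ∀ i, |j i - j' i| ≤ 1) (Z : X m) :
    Kb (gb (cb χ b κ j) (cb χ b κ j')) Z = 0 := by
  rw [L1_gb]
  have h1 : ∀ z : V m, (χ ((2 : ℝ) ^ κ • z.1 - iv j) : ℂ) *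
      ((χ ((2 : ℝ) ^ κ • z.1 - iv j') : ℂ) * gb b b z) = 0 := by
    intro z
    by_contra hne
    apply h
    intro i
    have hA : χ ((2 : ℝ) ^ κ • z.1 - iv j) ≠ 0 := by
      intro h0
      apply hne
      rw [h0]
      simp
    have hB : χ ((2 : ℝ) ^ κ • z.1 - iv j') ≠ 0 := by
      intro h0
      apply hne
      rw [h0]
      simp
    have a1 := hχ.supp _ hA i
    have a2 := hχ.supp _ hB i
    have b1 : ((2 : ℝ) ^ κ • z.1 - iv j) i = (2 : ℝ) ^ κ * z.1 i - j i := by simp [iv]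
    have b2 : ((2 : ℝ) ^ κ • z.1 - iv j') i = (2 : ℝ) ^ κ * z.1 i - j' i := by simp [iv]
    rw [b1] at a1
    rw [b2] at a2
    have a3 := abs_lt.1 a1
    have a4 := abs_lt.1 a2
    have c1 : |(j i : ℝ) - j' i| < 2 := by
      rw [abs_lt]
      constructor <;> linarith [a3.1, a3.2, a4.1, a4.2]
    have c2 : |j i - j' i| < 2 := by exact_mod_cast c1
    omega
  unfold Kb
  simp only [h1, mul_zero, integral_zero]

private theorem L1_rh {m : ℕ} (h : ℝ) (κ : ℕ) (S : Finset (X m)) (hS : S.Nonempty) (a : Pk m) :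
    ∃ p ∈ S, |(nd h a.2).2.1 - (4 : ℝ)⁻¹ ^ κ * p.2.1| ≤ rh h κ S a := by
  have hne : (Lk κ (w κ a.1) '' (S : Set (X m))).Nonempty := by
    obtain ⟨p, hp⟩ := hS
    exact ⟨_, p, hp, rfl⟩
  have hc : IsCompact (Lk κ (w κ a.1) '' (S : Set (X m))) :=
    (S.finite_toSet.image _).isCompact
  obtain ⟨y, ⟨p, hp, rfl⟩, hy⟩ := hc.exists_infDist_eq_dist hne (nd h a.2)
  refine ⟨p, hp, ?_⟩
  unfold rh
  rw [hy, Prod.dist_eq]
  refine le_trans ?_ (le_max_right _ _)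
  rw [Prod.dist_eq]
  refine le_trans ?_ (le_max_left _ _)
  rw [Real.dist_eq]
  exact le_rfl

private theorem L1_D {m : ℕ} (h : ℝ) (κ : ℕ) (S : Finset (X m)) (hS : S.Nonempty)
    (hSl : ∀ p ∈ S, ∀ q ∈ S, |p.2.1 - q.2.1| ≤ 4 ^ κ) (a a' : Pk m) :
    1 + |(4 : ℝ)⁻¹ ^ κ * (pos h κ a - pos h κ a').2.1| ≤
      2 * ((1 + rh h κ S a) * (1 + rh h κ S a')) := by
  obtain ⟨p, hp, h1⟩ := L1_rh h κ S hS a
  obtain ⟨q, hq, h2⟩ := L1_rh h κ S hS a'
  have r1 : 0 ≤ rh h κ S a := Metric.infDist_nonneg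
  have r2 : 0 ≤ rh h κ S a' := Metric.infDist_nonneg
  have e1 : (4 : ℝ)⁻¹ ^ κ * (pos h κ a - pos h κ a').2.1 =
      (nd h a.2).2.1 - (nd h a'.2).2.1 := by
    have e0 : (4 : ℝ)⁻¹ ^ κ * 4 ^ κ = 1 := by
      rw [← mul_pow]; norm_num
    have e2 : (pos h κ a - pos h κ a').2.1 =
        (4 : ℝ) ^ κ * (nd h a.2).2.1 - (4 : ℝ) ^ κ * (nd h a'.2).2.1 := rfl
    rw [e2, ← mul_sub, ← mul_assoc, e0, one_mul]
  have e3 : |(4 : ℝ)⁻¹ ^ κ * p.2.1 - (4 : ℝ)⁻¹ ^ κ * q.2.1| ≤ 1 := by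
    rw [← mul_sub, abs_mul, abs_of_nonneg (by positivity)]
    calc (4 : ℝ)⁻¹ ^ κ * |p.2.1 - q.2.1| ≤ (4 : ℝ)⁻¹ ^ κ * 4 ^ κ :=
          mul_le_mul_of_nonneg_left (hSl p hp q hq) (by positivity)
      _ = 1 := by rw [← mul_pow]; norm_num
  rw [e1]
  have e4 : |(nd h a.2).2.1 - (nd h a'.2).2.1| ≤ rh h κ S a + 1 + rh h κ S a' := by
    have a1 := abs_le.1 h1
    have a2 := abs_le.1 h2
    have a3 := abs_le.1 e3
    rw [abs_le]
    constructor <;> linarith [a1.1, a1.2, a2.1, a2.2, a3.1, a3.2]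
  nlinarith [mul_nonneg r1 r2]

/-- Schur bound inside one block -/
theorem schur {m : ℕ} (hm : 1 ≤ m) {h v0 v1 : ℝ} (hh : 0 < h) {χ : E m → ℝ}
    (hχ : Pu χ) {b : V m → ℂ} (hb : Sb v0 v1 1 b) : ∃ (C : ℝ) (M : ℕ), 0 < C ∧
    ∀ (κ : ℕ) (S : Finset (X m)), S.Nonempty →
    (∀ p ∈ S, ∀ q ∈ S, |p.2.1 - q.2.1| ≤ 4 ^ κ) → ∀ G : Finset (Pk m),
    (∀ a ∈ G, a.1 ∈ J m κ) → ∀ c : Pk m → ℝ, (∀ a, 0 ≤ c a) →
    ∑ a ∈ G, ∑ a' ∈ G, c a * c a' *
      ‖Kb (gb (cb χ b κ a.1) (cb χ b κ a'.1)) (pos h κ a - pos h κ a')‖ ≤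
      C * (2 : ℝ)⁻¹ ^ (κ * m) * ∑ a ∈ G, (c a * (1 + rh h κ S a) ^ M) ^ 2 := by
  classical
  obtain ⟨C1, hC1, hk⟩ := kern (gb_sb hb hb) hχ.toCt hχ.toCt (m + 3)
  obtain ⟨C5, hC5, hsum⟩ := sum_nd m h hh
  set A : ℝ := ((1 + Real.sqrt m) ^ 2) ^ (m + 3) with hA
  have hs : 0 ≤ Real.sqrt m := Real.sqrt_nonneg _
  have hA1 : 1 ≤ A := by
    rw [hA]
    apply one_le_pow₀
    nlinarith
  have hA0 : 0 < A := by linarith
  refine ⟨C1 * 2 ^ (4 * (m + 3)) * (3 ^ m * (A * C5)), 4 * (m + 3), by positivity, ?_⟩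
  intro κ S hS hSl G hG c hc
  set K : Pk m → Pk m → ℝ := fun a a' => if ∀ i, |a.1 i - a'.1 i| ≤ 1 then
    1 / (1 + ‖Lk κ (w κ a.1) (pos h κ a - pos h κ a')‖) ^ (m + 3) else 0 with hK
  set x : Pk m → ℝ := fun a => c a * (1 + rh h κ S a) ^ (4 * (m + 3)) with hx
  have hrh : ∀ a, 0 ≤ rh h κ S a := fun a => Metric.infDist_nonneg
  have hx0 : ∀ a, 0 ≤ x a := by
    intro a
    have := hrh a
    have := hc a
    simp only [hx]
    positivity
  have hK0 : ∀ a a', 0 ≤ K a a' := by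
    intro a a'
    simp only [hK]
    split_ifs
    · positivity
    · exact le_rfl
  have hpw : ∀ a a' : Pk m, c a * c a' *
      ‖Kb (gb (cb χ b κ a.1) (cb χ b κ a'.1)) (pos h κ a - pos h κ a')‖ ≤
      C1 * 2 ^ (4 * (m + 3)) * (2 : ℝ)⁻¹ ^ (κ * m) * (x a * x a' * K a a') := by
    intro a a'
    by_cases hn : ∀ i, |a.1 i - a'.1 i| ≤ 1
    · have h1 := hk κ κ le_rfl a.1 (iv a'.1) (pos h κ a - pos h κ a')
      rw [← L1_gb] at h1
      have h2 := L1_D h κ S hS hSl a a'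
      have h3 : (1 + |(4 : ℝ)⁻¹ ^ κ * (pos h κ a - pos h κ a').2.1|) ^ (4 * (m + 3)) ≤
          (2 * ((1 + rh h κ S a) * (1 + rh h κ S a'))) ^ (4 * (m + 3)) :=
        pow_le_pow_left₀ (by positivity) h2 _
      have hKe : K a a' =
          1 / (1 + ‖Lk κ (w κ a.1) (pos h κ a - pos h κ a')‖) ^ (m + 3) := by
        simp only [hK, if_pos hn]
      have hca := hc a
      have hca' := hc a'
      have hr1 := hrh a
      have hr2 := hrh a'
      calc c a * c a' * ‖Kb (gb (cb χ b κ a.1) (cb χ b κ a'.1)) (pos h κ a - pos h κ a')‖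
          ≤ c a * c a' * (C1 * (2 : ℝ)⁻¹ ^ (κ * m) *
            (2 * ((1 + rh h κ S a) * (1 + rh h κ S a'))) ^ (4 * (m + 3)) /
            (1 + ‖Lk κ (w κ a.1) (pos h κ a - pos h κ a')‖) ^ (m + 3)) := by
            apply mul_le_mul_of_nonneg_left _ (by positivity)
            refine h1.trans ?_
            gcongr
        _ = C1 * 2 ^ (4 * (m + 3)) * (2 : ℝ)⁻¹ ^ (κ * m) * (x a * x a' * K a a') := by
            rw [hKe]
            simp only [hx]
            rw [mul_pow, mul_pow]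
            ring
    · rw [L1_zero hχ b κ a.1 a'.1 hn, norm_zero, mul_zero]
      have := hx0 a
      have := hx0 a'
      have := hK0 a a'
      positivity
  -- the two row sums
  have hrow1 : ∀ a' : Pk m, ∑ a ∈ G, K a a' ≤ 3 ^ m * (A * C5) := by
    intro a'
    have h1 := L1_sum a'.1 C5 hC5.le
      (fun j n => 1 / (1 + ‖nd h n - Lk κ (w κ j) (pos h κ a')‖) ^ (m + 3))
      (fun j n => by positivity) (fun j T => hsum T _) G
    have h2 : ∑ a ∈ G, K a a' = ∑ a ∈ G, (if ∀ i, |a.1 i - a'.1 i| ≤ 1 then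
        1 / (1 + ‖nd h a.2 - Lk κ (w κ a.1) (pos h κ a')‖) ^ (m + 3) else 0) := by
      apply Finset.sum_congr rfl
      intro a _
      simp only [hK]
      have : Lk κ (w κ a.1) (pos h κ a - pos h κ a') =
          nd h a.2 - Lk κ (w κ a.1) (pos h κ a') := by
        rw [Lk_sub]
        congr 1
        unfold pos
        rw [Lk_Li]
      rw [this]
    rw [h2]
    refine h1.trans ?_
    have : C5 ≤ A * C5 := le_mul_of_one_le_left hC5.le hA1
    gcongr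
  have hrow2 : ∀ a : Pk m, ∑ a' ∈ G, K a a' ≤ 3 ^ m * (A * C5) := by
    intro a
    have h1 := L1_sum a.1 (A * C5) (by positivity)
      (fun j n => A * (1 / (1 + ‖nd h n - Lk κ (w κ j) (pos h κ a)‖) ^ (m + 3)))
      (fun j n => by positivity) (fun j T => by
        rw [← Finset.mul_sum]
        exact mul_le_mul_of_nonneg_left (hsum T _) hA0.le) G
    refine le_trans ?_ h1
    apply Finset.sum_le_sum
    intro a' _
    simp only [hK]
    by_cases hn : ∀ i, |a.1 i - a'.1 i| ≤ 1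
    · have hn' : ∀ i, |a'.1 i - a.1 i| ≤ 1 := by
        intro i
        rw [abs_sub_comm]
        exact hn i
      rw [if_pos hn, if_pos hn']
      have h2 := Lk_comp (Real.sqrt m) hs κ κ le_rfl (w κ a.1) (w κ a'.1)
        (L1_w κ a.1 a'.1 hn) (pos h κ a - pos h κ a')
      have h3 : ‖Lk κ (w κ a'.1) (pos h κ a - pos h κ a')‖ =
          ‖nd h a'.2 - Lk κ (w κ a'.1) (pos h κ a)‖ := by
        rw [Lk_sub, ← norm_neg, neg_sub]
        congr 2
        unfold pos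
        rw [Lk_Li]
      rw [h3] at h2
      set D := ‖Lk κ (w κ a.1) (pos h κ a - pos h κ a')‖ with hD
      set D' := ‖nd h a'.2 - Lk κ (w κ a'.1) (pos h κ a)‖ with hD'
      have hD0 : 0 ≤ D := norm_nonneg _
      have hD'0 : 0 ≤ D' := norm_nonneg _
      have h4 : 1 + D' ≤ (1 + Real.sqrt m) ^ 2 * (1 + D) := by nlinarith
      have h5 : (1 + D') ^ (m + 3) ≤ A * (1 + D) ^ (m + 3) := by
        rw [hA, ← mul_pow]
        exact pow_le_pow_left₀ (by positivity) h4 _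
      rw [mul_one_div, div_le_div_iff₀ (by positivity) (by positivity), one_mul]
      exact h5
    · rw [if_neg hn]
      split_ifs
      · positivity
      · exact le_rfl
  have hxx : ∑ a ∈ G, ∑ a' ∈ G, x a * x a' * K a a' ≤ (3 ^ m * (A * C5)) * ∑ a ∈ G, x a ^ 2 := by
    have h1 : ∑ a ∈ G, ∑ a' ∈ G, x a * x a' * K a a' ≤
        ∑ a ∈ G, ∑ a' ∈ G, (x a ^ 2 / 2 * K a a' + x a' ^ 2 / 2 * K a a') := by
      apply Finset.sum_le_sum
      intro a _
      apply Finset.sum_le_sum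
      intro a' _
      have := hK0 a a'
      nlinarith [sq_nonneg (x a - x a'), mul_nonneg (sq_nonneg (x a - x a')) this]
    refine h1.trans ?_
    simp only [Finset.sum_add_distrib]
    have h2 : ∑ a ∈ G, ∑ a' ∈ G, x a ^ 2 / 2 * K a a' ≤
        ∑ a ∈ G, x a ^ 2 / 2 * (3 ^ m * (A * C5)) := by
      apply Finset.sum_le_sum
      intro a _
      rw [← Finset.mul_sum]
      exact mul_le_mul_of_nonneg_left (hrow2 a) (by positivity)
    have h3 : ∑ a ∈ G, ∑ a' ∈ G, x a' ^ 2 / 2 * K a a' ≤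
        ∑ a' ∈ G, x a' ^ 2 / 2 * (3 ^ m * (A * C5)) := by
      rw [Finset.sum_comm]
      apply Finset.sum_le_sum
      intro a' _
      rw [← Finset.mul_sum]
      exact mul_le_mul_of_nonneg_left (hrow1 a') (by positivity)
    refine (add_le_add h2 h3).trans (le_of_eq ?_)
    rw [← Finset.sum_add_distrib, Finset.mul_sum]
    apply Finset.sum_congr rfl
    intro a _
    ring
  calc ∑ a ∈ G, ∑ a' ∈ G, c a * c a' *
      ‖Kb (gb (cb χ b κ a.1) (cb χ b κ a'.1)) (pos h κ a - pos h κ a')‖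
      ≤ ∑ a ∈ G, ∑ a' ∈ G,
        C1 * 2 ^ (4 * (m + 3)) * (2 : ℝ)⁻¹ ^ (κ * m) * (x a * x a' * K a a') :=
        Finset.sum_le_sum fun a _ => Finset.sum_le_sum fun a' _ => hpw a a'
    _ = C1 * 2 ^ (4 * (m + 3)) * (2 : ℝ)⁻¹ ^ (κ * m) *
        ∑ a ∈ G, ∑ a' ∈ G, x a * x a' * K a a' := by
        simp only [Finset.mul_sum]
    _ ≤ C1 * 2 ^ (4 * (m + 3)) * (2 : ℝ)⁻¹ ^ (κ * m) *
        ((3 ^ m * (A * C5)) * ∑ a ∈ G, x a ^ 2) := by gcongr
    _ = C1 * 2 ^ (4 * (m + 3)) * (3 ^ m * (A * C5)) * (2 : ℝ)⁻¹ ^ (κ * m) *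
        ∑ a ∈ G, (c a * (1 + rh h κ S a) ^ (4 * (m + 3))) ^ 2 := by
        simp only [hx]
        ring

end Pool.LibST49
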