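import Pool.Agent.LibSR53.Defs

/-
LibST49: MP_d34678, all g, Stein-Tomas range, d = m + 1 >= 4, from l^q decoupling.
Coordinates: a frequency xi in R^(m+1) is written (omega, v) with v = |xi| + xi_last, omega = xi'/v, so
xi' = v omega, xi_last = v (1 - |omega|^2)/2, |xi| = v (1 + |omega|^2)/2. A point (z, rho) in R^(m+1) x R is written
Lam (z, rho) = (x, s, t) with x = z', s = (rho - z_last)/2, t = (rho + z_last)/2, and then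
<z, xi> + rho |xi| = v (<x, omega> + s |omega|^2 + t) = ph (Lam (z, rho)) (omega, v).
-/

set_option autoImplicit false

noncomputable section

open MeasureTheory Metric Set Filter

namespace Pool.LibST49

open Pool.LibSR53

/-! ### spaces -/

/-- coordinates (omega, v) of frequencies; also the space of the paraboloid -/
abbrev V (m : ℕ) := E m × ℝ

/-- coordinates (x, s, t) of points -/
abbrev X (m : ℕ) := E m × ℝ × ℝ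

/-- 2 pi i times a real number, exponentiated -/
def e1 (t : ℝ) : ℂ := Complex.exp (2 * (Real.pi : ℂ) * Complex.I * (t : ℂ))

/-- the standard pairing on E m x R -/
def pr2 {m : ℕ} (x z : V m) : ℝ := inner ℝ x.1 z.1 + x.2 * z.2

/-- the standard pairing on X m -/
def pr3 {m : ℕ} (x z : X m) : ℝ := inner ℝ x.1 z.1 + x.2.1 * z.2.1 + x.2.2 * z.2.2

/-- Fourier integral on E m x R -/
def Fi2 {m : ℕ} (g : V m → ℂ) (x : V m) : ℂ := ∫ z : V m, e1 (pr2 x z) * g z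

/-- Fourier integral on X m -/
def Fi3 {m : ℕ} (g : X m → ℂ) (x : X m) : ℂ := ∫ z : X m, e1 (pr3 x z) * g z

/-- l^q decoupling for the paraboloid in R^(m+1), caps of size 2^(-k), with an epsilon loss -/
def PDec (m : ℕ) (q : ℝ) : Prop :=
  ∀ A R0 L ε : ℝ, 0 < ε → ∃ C : ℝ, 0 < C ∧ ∀ (k : ℕ) (ι : Type) (I : Finset ι) (c : ι → E m)
    (g : ι → V m → ℂ),
    (∀ i ∈ I, ‖c i‖ ≤ R0) →
    (∀ z : E m, (({i : ι | i ∈ I ∧ ‖c i - z‖ ≤ (2 : ℝ)⁻¹ ^ k}).ncard : ℝ) ≤ L) →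
    (∀ i ∈ I, Integrable (g i)) →
    (∀ i ∈ I, ∀ z : V m, g i z ≠ 0 →
      ‖z.1 - c i‖ ≤ A * (2 : ℝ)⁻¹ ^ k ∧ |z.2 - ‖z.1‖ ^ 2| ≤ A * (4 : ℝ)⁻¹ ^ k) →
    ∫⁻ x : V m, ‖∑ i ∈ I, Fi2 (g i) x‖ₑ ^ q ≤
      ENNReal.ofReal (C * (2 : ℝ) ^ ((k : ℝ) * (ε + m * (q / 2 - 1)))) *
        ∑ i ∈ I, ∫⁻ x : V m, ‖Fi2 (g i) x‖ₑ ^ q

/-- the hypotheses on a family of functions whose Fourier supports are sectors of angular size
2^(-k) of the 4^(-k) neighbourhood of the cone |zeta_x|^2 = zeta_s zeta_t, v0 <= zeta_t <= v1 -/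
structure Fam (m : ℕ) (A R0 L v0 v1 : ℝ) (k : ℕ) (ι : Type) (I : Finset ι) (c : ι → E m)
    (g : ι → X m → ℂ) : Prop where
  cen : ∀ i ∈ I, ‖c i‖ ≤ R0
  mult : ∀ z : E m, (({i : ι | i ∈ I ∧ ‖c i - z‖ ≤ (2 : ℝ)⁻¹ ^ k}).ncard : ℝ) ≤ L
  int : ∀ i ∈ I, Integrable (g i)
  supp : ∀ i ∈ I, ∀ z : X m, g i z ≠ 0 → v0 ≤ z.2.2 ∧ z.2.2 ≤ v1 ∧
    ‖z.1 - z.2.2 • c i‖ ≤ A * (2 : ℝ)⁻¹ ^ k ∧ |z.2.1 * z.2.2 - ‖z.1‖ ^ 2| ≤ A * (4 : ℝ)⁻¹ ^ k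

/-- l^q decoupling inequality with constant B for the families above -/
def CB (m : ℕ) (q A R0 L v0 v1 : ℝ) (k : ℕ) (B : ℝ) : Prop :=
  ∀ (ι : Type) (I : Finset ι) (c : ι → E m) (g : ι → X m → ℂ), Fam m A R0 L v0 v1 k ι I c g →
    ∫⁻ x : X m, ‖∑ i ∈ I, Fi3 (g i) x‖ₑ ^ q ≤
      ENNReal.ofReal B * ∑ i ∈ I, ∫⁻ x : X m, ‖Fi3 (g i) x‖ₑ ^ q

/-- l^q decoupling for the cone in R^(m+2), sectors of angular size 2^(-k), with an epsilon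
loss -/
def CDec (m : ℕ) (q : ℝ) : Prop :=
  ∀ A R0 L v0 v1 ε : ℝ, 0 < v0 → 0 < ε → ∃ C : ℝ, 0 < C ∧ ∀ k : ℕ,
    CB m q A R0 L v0 v1 k (C * (2 : ℝ) ^ ((k : ℝ) * (ε + m * (q / 2 - 1))))

/-! ### points, planks -/

/-- first coordinates -/
def ini {m : ℕ} (y : E (m + 1)) : E m := WithLp.toLp 2 (fun i => y (Fin.castSucc i))

/-- last coordinate -/
def las {m : ℕ} (y : E (m + 1)) : ℝ := y (Fin.last m)

/-- the coordinates (x, s, t) of a point (y, r) -/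
def Lam {m : ℕ} (p : P (m + 1)) : X m := (ini p.1, (p.2 - las p.1) / 2, (p.2 + las p.1) / 2)

/-- the radius of a point in the coordinates (x, s, t) -/
def rad {m : ℕ} (Z : X m) : ℝ := Z.2.1 + Z.2.2

/-- the length of the centre of a point in the coordinates (x, s, t) -/
def ny {m : ℕ} (Z : X m) : ℝ := Real.sqrt (‖Z.1‖ ^ 2 + (Z.2.2 - Z.2.1) ^ 2)

/-- integer vectors as elements of E m -/
def iv {m : ℕ} (j : Fin m → ℤ) : E m := WithLp.toLp 2 (fun i => (j i : ℝ))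

/-- the direction with label j at scale k -/
def w {m : ℕ} (k : ℕ) (j : Fin m → ℤ) : E m := (2 : ℝ)⁻¹ ^ k • iv j

/-- the labels of the directions -/
def J (m k : ℕ) : Finset (Fin m → ℤ) :=
  Fintype.piFinset fun _ => Finset.Icc (-(2 : ℤ) ^ (k + 1)) ((2 : ℤ) ^ (k + 1))

/-- plank coordinates of scale k and direction c: (B, sigma, A) with B of scale 2^k, sigma of
scale 4^k, A of scale 1 -/
def Lk {m : ℕ} (k : ℕ) (c : E m) (Z : X m) : X m :=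
  ((2 : ℝ)⁻¹ ^ k • (Z.1 + (2 * Z.2.1) • c), (4 : ℝ)⁻¹ ^ k * Z.2.1,
    Z.2.2 + inner ℝ Z.1 c + Z.2.1 * ‖c‖ ^ 2)

/-- the inverse of Lk -/
def Li {m : ℕ} (k : ℕ) (c : E m) (Y : X m) : X m :=
  ((2 : ℝ) ^ k • Y.1 - (2 * ((4 : ℝ) ^ k * Y.2.1)) • c, (4 : ℝ) ^ k * Y.2.1,
    Y.2.2 - (2 : ℝ) ^ k * inner ℝ Y.1 c + (4 : ℝ) ^ k * Y.2.1 * ‖c‖ ^ 2)

/-- lattice indices -/
abbrev Zn (m : ℕ) := (Fin m → ℤ) × ℤ × ℤ

/-- lattice points of spacing h -/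
def nd {m : ℕ} (h : ℝ) (n : Zn m) : X m := (h • iv n.1, h * n.2.1, h * n.2.2)

/-- packet indices: direction and lattice point -/
abbrev Pk (m : ℕ) := (Fin m → ℤ) × Zn m

/-- the position of a packet -/
def pos {m : ℕ} (h : ℝ) (k : ℕ) (a : Pk m) : X m := Li k (w k a.1) (nd h a.2)

/-! ### kernels -/

/-- the phase -/
def ph {m : ℕ} (Z : X m) (z : V m) : ℝ :=
  z.2 * (inner ℝ Z.1 z.1 + Z.2.1 * ‖z.1‖ ^ 2 + Z.2.2)

/-- the half wave kernel with symbol b -/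
def Kb {m : ℕ} (b : V m → ℂ) (Z : X m) : ℂ := ∫ z : V m, e1 (ph Z z) * b z

/-- the half wave kernel in the original coordinates -/
def Ka {d : ℕ} (a : E d → ℂ) (z : E d) (ρ : ℝ) : ℂ := ∫ ξ : E d, e1 (inner ℝ z ξ + ρ * ‖ξ‖) * a ξ

/-- symbols: smooth, v between v0 and v1, omega in the ball of radius ρ -/
structure Sb {m : ℕ} (v0 v1 ρ : ℝ) (b : V m → ℂ) : Prop where
  pos : 0 < v0
  le : v0 ≤ v1
  smooth : ContDiff ℝ (⊤ : ℕ∞) b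
  supp : ∀ z, b z ≠ 0 → v0 ≤ z.2 ∧ z.2 ≤ v1 ∧ ‖z.1‖ ≤ ρ

/-- smooth cut off functions supported in the cube (-R, R)^m -/
structure Ct {m : ℕ} (R : ℝ) (χ : E m → ℝ) : Prop where
  smooth : ContDiff ℝ (⊤ : ℕ∞) χ
  supp : ∀ z, χ z ≠ 0 → ∀ i, |z i| < R

/-- partition of unity by the integer translates of a cut off function -/
structure Pu {m : ℕ} (χ : E m → ℝ) : Prop extends Ct 1 χ where
  le_one : ∀ z, 0 ≤ χ z ∧ χ z ≤ 1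
  sum : ∀ z, HasSum (fun j : Fin m → ℤ => χ (z - iv j)) 1

/-- the symbol b localised to the sector with label j -/
def cb {m : ℕ} (χ : E m → ℝ) (b : V m → ℂ) (k : ℕ) (j : Fin m → ℤ) (z : V m) : ℂ :=
  (χ ((2 : ℝ) ^ k • z.1 - iv j) : ℂ) * b z

/-- the Jacobian of (omega, v) -> xi -/
def Jac {m : ℕ} (z : V m) : ℝ := z.2 ^ m * (1 + ‖z.1‖ ^ 2) / 2

/-- the map (omega, v) -> xi = (v omega, v (1 - |omega|^2)/2) -/
def xi {m : ℕ} (z : V m) : E (m + 1) :=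
  WithLp.toLp 2 (Fin.snoc (fun i => z.2 * z.1 i) (z.2 * (1 - ‖z.1‖ ^ 2) / 2) : Fin (m + 1) → ℝ)

/-- the frequency of (omega, v) in the coordinates dual to Lk k c -/
def ze {m : ℕ} (k : ℕ) (c : E m) (z : V m) : X m :=
  (((2 : ℝ) ^ k * z.2) • (z.1 - c), (4 : ℝ) ^ k * (z.2 * ‖z.1 - c‖ ^ 2), z.2)

/-- the adjoint of Lk k c -/
def Mp {m : ℕ} (k : ℕ) (c : E m) (z : X m) : X m :=
  ((2 : ℝ)⁻¹ ^ k • z.1 + z.2.2 • c,
    (4 : ℝ)⁻¹ ^ k * z.2.1 + 2 * (2 : ℝ)⁻¹ ^ k * inner ℝ z.1 c + z.2.2 * ‖c‖ ^ 2, z.2.2)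

/-- the symbol of the Gram kernel of Kb b and Kb b' -/
def gb {m : ℕ} (b b' : V m → ℂ) (z : V m) : ℂ := (starRingEnd ℂ) (b z) * b' z / (Jac z : ℂ)

/-- sampling functions on X m: Schwartz decay, Fourier transform Φh supported in a box away from
zeta_t = 0, reproducing on the box v0 <= zeta_t <= v1, |zeta_x|, |zeta_s| <= ρ -/
structure Rp {m : ℕ} (h v0 v1 ρ R : ℝ) (Φ Φh : X m → ℂ) : Prop where
  hpos : 0 < h
  hle : h ≤ 1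
  int : Integrable Φh
  cont : Continuous Φ
  supp : ∀ ζ, Φh ζ ≠ 0 → v0 / 2 ≤ ζ.2.2 ∧ ζ.2.2 ≤ 2 * v1 ∧ ‖ζ.1‖ ≤ R ∧ |ζ.2.1| ≤ R
  four : ∀ Z, Φ Z = Fi3 Φh Z
  dec : ∀ N : ℕ, ∃ C : ℝ, 0 < C ∧ ∀ Z, ‖Φ Z‖ ≤ C / (1 + ‖Z‖) ^ N
  rep : ∀ ζ : X m, v0 ≤ ζ.2.2 → ζ.2.2 ≤ v1 → ‖ζ.1‖ ≤ ρ → |ζ.2.1| ≤ ρ → ∀ a : X m,
    HasSum (fun n : Zn m => Φ (nd h n - a) * e1 (-pr3 (nd h n - a) ζ)) 1

/-- distance of the lattice point of a packet from the points of S, in plank coordinates -/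
def rh {m : ℕ} (h : ℝ) (κ : ℕ) (S : Finset (X m)) (a : Pk m) : ℝ :=
  Metric.infDist (nd h a.2) (Lk κ (w κ a.1) '' (S : Set (X m)))

/-- the coefficient of a packet -/
def cf {m : ℕ} (Φ : X m → ℂ) (h : ℝ) (κ : ℕ) (S : Finset (X m)) (γ : X m → ℂ) (a : Pk m) : ℂ :=
  ∑ p ∈ S, γ p * Φ (nd h a.2 - Lk κ (w κ a.1) p)

/-- the wave packets -/
def Wv {m : ℕ} (χ : E m → ℝ) (b : V m → ℂ) (h : ℝ) (κ : ℕ) (s0 : ℝ) (a : Pk m)
    (x : E (m + 1)) : ℂ :=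
  Kb (cb χ b κ a.1) (Lam (x, -s0) - pos h κ a)

/-- the kernel that bounds the interaction of distant points -/
def Mk {m : ℕ} (N : ℕ) (Z : X m) : ℝ :=
  (1 + ‖Z‖) ^ (-((m : ℝ) / 2)) / (1 + abs (ny Z - |rad Z|)) ^ N

/-- the loss exponent: zero at the critical q = 2(m+2)/m -/
def ex0 (m : ℕ) (q : ℝ) : ℝ := -(m : ℝ) + ((m : ℝ) * q / 2 + 2) / (q - 1)

/-- a family of blocks of points: all points of the block i have radius about 2^(k i), the block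
lies in a slab of width 4^κ, different blocks are at distance at least a constant times 4^κ, and
the total interaction of different blocks is bounded by C1 times the total weight -/
structure Bl {m : ℕ} (κ N : ℕ) (C1 : ℝ) {β : Type} [DecidableEq β] (B : Finset β) (k : β → ℕ)
    (S : β → Finset (X m)) : Prop where
  le : ∀ i ∈ B, (4 : ℝ) ^ κ ≤ 2 ^ (k i)
  rad : ∀ i ∈ B, ∀ p ∈ S i, (2 : ℝ) ^ (k i) ≤ rad p ∧ rad p ≤ 2 ^ (k i + 1)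
  slab : ∀ i ∈ B, ∀ p ∈ S i, ∀ q ∈ S i, |p.2.1 - q.2.1| ≤ 4 ^ κ
  sep : ∀ i ∈ B, ∀ p ∈ S i, ∀ q ∈ S i, p ≠ q → 1 / 3 ≤ ‖p - q‖
  far : ∀ i ∈ B, ∀ i' ∈ B, i ≠ i' → ∀ p ∈ S i, ∀ q ∈ S i', (4 : ℝ) ^ κ / 4 ≤ ‖p - q‖
  cross : ∑ i ∈ B, ∑ i' ∈ B.erase i, ∑ p ∈ S i, ∑ q ∈ S i',
    (2 : ℝ) ^ ((((k i : ℕ) : ℝ) + ((k i' : ℕ) : ℝ)) * ((m : ℝ) / 2)) * Mk N (p - q) ≤
      C1 * ∑ i ∈ B, (2 : ℝ) ^ (k i * m) * ((S i).card : ℝ)

/-- the total weight of a family of blocks -/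
def Wt {m : ℕ} {β : Type} (B : Finset β) (k : β → ℕ) (S : β → Finset (X m)) : ℝ :=
  ∑ i ∈ B, (2 : ℝ) ^ (k i * m) * ((S i).card : ℝ)

/-- the function of a family of blocks -/
def Fn {m : ℕ} (b : V m → ℂ) (s0 : ℝ) {β : Type} (B : Finset β) (k : β → ℕ)
    (S : β → Finset (X m)) (γ : β → X m → ℂ) (x : E (m + 1)) : ℂ :=
  ∑ i ∈ B, (((2 : ℝ) ^ ((k i : ℝ) * ((m : ℝ) / 2)) : ℝ) : ℂ) *
    ∑ p ∈ S i, γ i p * Kb b (Lam (x, -s0) - p)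

/-- finite sums of wave packets -/
def Fg {m : ℕ} (χ : E m → ℝ) (b : V m → ℂ) (Φ : X m → ℂ) (h : ℝ) (κ : ℕ) (s0 : ℝ) {β : Type}
    (B : Finset β) (k : β → ℕ) (S : β → Finset (X m)) (γ : β → X m → ℂ)
    (G : β → Finset (Pk m)) (x : E (m + 1)) : ℂ :=
  ∑ i ∈ B, (((2 : ℝ) ^ ((k i : ℝ) * ((m : ℝ) / 2)) : ℝ) : ℂ) *
    ∑ a ∈ G i, cf Φ h κ (S i) (γ i) a * Wv χ b h κ s0 a x

/-- the Stein-Tomas exponent 2(d+1)/(d+3), d = m+1 -/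
def pS (m : ℕ) : ℝ := 2 * ((m : ℝ) + 2) / ((m : ℝ) + 4)

/-- one separated finite sets of points with radii at least one -/
structure Sp {d : ℕ} (S : Finset (P d)) : Prop where
  one_le : ∀ p ∈ S, 1 ≤ p.2
  sep : ∀ p ∈ S, ∀ q ∈ S, p ≠ q → 1 ≤ dist p q

/-- strong type bound at the exponent q for the family of functions F, uniformly over separated
sets with density u, with an epsilon loss -/
def Strong {d : ℕ} (F : P d → E d → ℂ) (q ε C : ℝ) : Prop :=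
  ∀ (S : Finset (P d)) (u : ℝ), Sp S → 1 ≤ u → Dens u S → ∀ γ : P d → ℂ, (∀ p, ‖γ p‖ ≤ 1) →
    ∫⁻ x, ‖∑ p ∈ S, γ p * F p x‖ₑ ^ q ≤ ENNReal.ofReal (C * u ^ ε * wt S)

/-- the half wave atoms with symbol b, shifted in time by s0, with the factor r^nu -/
def Fb {m : ℕ} (b : V m → ℂ) (s0 : ℝ) (p : P (m + 1)) (x : E (m + 1)) : ℂ :=
  ((p.2 ^ nu (m + 1) : ℝ) : ℂ) * Kb b (Lam (x, -s0) - Lam p)

/-- strong type bounds for half wave atoms in the whole Stein-Tomas range -/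
def HST (m : ℕ) : Prop :=
  ∀ (v0 v1 : ℝ) (b : V m → ℂ), Sb v0 v1 1 b → ∀ q : ℝ, 1 < q → q < pS m → ∀ ε : ℝ, 0 < ε →
    ∃ C N : ℝ, 0 < C ∧ 0 ≤ N ∧ ∀ s0 : ℝ, Strong (Fb b s0) q ε (C * (1 + |s0|) ^ N)

end Pool.LibST49
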