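import Pool.Agent.LibST49.L2
import Pool.Agent.LibST49.D5
import Pool.Agent.LibST49.K7

/-
PLAN (B1, STRONG). p := q/(q-1) in (1,2). M := max of the M of total_L2 and m (rh >= 0: larger M only increases the right sides; total_L2 stays true). h_(i,a) := ‖cf‖ (1+rh)^M. W := Wt B k S.
(1) coef_w (δ = 1/3, Bl.sep): SUM_i SUM_(a in G i) 2^(k i m) 2^(-κm) h^p <= C 2^(κ(ex0 m q + ε)) W (with ε' = ε (q-1)).
(2) packet: ‖2^(k i m/2) cf Wv‖_L1 <= C 2^(k i m) 2^(-κm) h (1+|s0|)^(m/2): packet_L1 with Z = pos a; for p in S i nearest (rh attained), |rad (pos a)| <= rad p + 2‖pos a - p‖ <= 2^(k i + 1) +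
C 4^κ rh (pos a - p = Li κ w (nd - Lk p), norm_Li_le) and 4^κ <= 2^(k i): 1 + (|rad|+|s0|)/4^κ <= C (2^(k i)/4^κ)(1+rh)(1+|s0|). (S i empty: cf = 0.)
(3) split G i = {h > λ} + {h <= λ}: Fg = f1 + f2; volume{‖Fg‖ > λ} <= (2/λ)‖f1‖_1 + (4/λ^2)‖f2‖_2^2 (Chebyshev: mul_meas_ge_le_lintegral₀).
λ^(p-1) ‖f1‖_1 <= C (1+|s0|)^(m/2) SUM_(h>λ) 2^(k i m) 2^(-κm) h λ^(p-1) <= ... h^p; λ^(p-2) ‖f2‖_2^2 <= C SUM_(h<=λ) .. h^2 λ^(p-2) + C C1 λ^(p-2) W <= C SUM .. h^p + 2 C C1 W (λ >= 1/2, p <= 2).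
(4) ex0 m q >= 0 because q m <= 2(m+2), so W <= 2^(κ(ex0+ε)) W.
-/

set_option autoImplicit false

noncomputable section

open MeasureTheory Metric Set Filter

namespace Pool.LibST49

open Pool.LibSR53

private theorem b1_Sb {m : ℕ} {v0 v1 : ℝ} {χ : E m → ℝ} (hχ : Pu χ) {b : V m → ℂ}
    (hb : Sb v0 v1 1 b) (k : ℕ) (j : Fin m → ℤ) : Sb v0 v1 1 (cb χ b k j) where
  pos := hb.pos
  le := hb.le
  smooth := by
    have h1 : ContDiff ℝ (⊤ : ℕ∞) (fun z : V m => χ ((2 : ℝ) ^ k • z.1 - iv j)) :=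
      hχ.smooth.comp ((contDiff_fst.const_smul _).sub contDiff_const)
    exact (Complex.ofRealCLM.contDiff.comp h1).mul hb.smooth
  supp := fun z hz => hb.supp z (fun h0 => hz (by unfold cb; rw [h0, mul_zero]))

private theorem b1_cont {m : ℕ} {v0 v1 : ℝ} {χ : E m → ℝ} (hχ : Pu χ) {b : V m → ℂ}
    (hb : Sb v0 v1 1 b) (h : ℝ) (κ : ℕ) (s0 : ℝ) (a : Pk m) :
    Continuous (Wv χ b h κ s0 a) := by
  have h1 := (Kb_cont (b1_Sb hχ hb κ a.1)).1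
  have h2 : Continuous (fun x : E (m + 1) => Lam (x, -s0) - pos h κ a) :=
    (continuous_Lam.comp (continuous_id.prodMk continuous_const)).sub continuous_const
  exact h1.comp h2

private theorem b1_Fcont {m : ℕ} {v0 v1 : ℝ} {χ : E m → ℝ} (hχ : Pu χ) {b : V m → ℂ}
    (hb : Sb v0 v1 1 b) (Φ : X m → ℂ) (h : ℝ) (κ : ℕ) (s0 : ℝ) {β : Type}
    (B : Finset β) (k : β → ℕ) (S : β → Finset (X m)) (γ : β → X m → ℂ)
    (G : β → Finset (Pk m)) : Continuous (Fg χ b Φ h κ s0 B k S γ G) := by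
  unfold Fg
  refine continuous_finsetSum _ fun i _ => continuous_const.mul ?_
  exact continuous_finsetSum _ fun a _ => continuous_const.mul (b1_cont hχ hb h κ s0 a)

private theorem b1_lint {m : ℕ} {v0 v1 : ℝ} {χ : E m → ℝ} (hχ : Pu χ) {b : V m → ℂ}
    (hb : Sb v0 v1 1 b) (Φ : X m → ℂ) (h : ℝ) (κ : ℕ) (s0 : ℝ) {β : Type}
    (B : Finset β) (k : β → ℕ) (S : β → Finset (X m)) (γ : β → X m → ℂ)
    (G : β → Finset (Pk m)) :
    ∫⁻ x, ‖Fg χ b Φ h κ s0 B k S γ G x‖ₑ ≤ ∑ i ∈ B, ∑ a ∈ G i,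
      ENNReal.ofReal ((2 : ℝ) ^ ((k i : ℝ) * ((m : ℝ) / 2))) *
        (‖cf Φ h κ (S i) (γ i) a‖ₑ * ∫⁻ x, ‖Wv χ b h κ s0 a x‖ₑ) := by
  have hmeas : ∀ a, Measurable (fun x => ‖Wv χ b h κ s0 a x‖ₑ) := fun a =>
    (b1_cont hχ hb h κ s0 a).measurable.enorm
  calc ∫⁻ x, ‖Fg χ b Φ h κ s0 B k S γ G x‖ₑ
      ≤ ∫⁻ x, ∑ i ∈ B, ∑ a ∈ G i, ENNReal.ofReal ((2 : ℝ) ^ ((k i : ℝ) * ((m : ℝ) / 2))) *
        (‖cf Φ h κ (S i) (γ i) a‖ₑ * ‖Wv χ b h κ s0 a x‖ₑ) := by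
        refine lintegral_mono fun x => ?_
        unfold Fg
        refine (enorm_sum_le _ _).trans (Finset.sum_le_sum fun i _ => ?_)
        rw [enorm_mul, ← Finset.mul_sum]
        refine mul_le_mul' (le_of_eq ?_) ?_
        · rw [← ofReal_norm, Complex.norm_real, Real.norm_of_nonneg (by positivity)]
        · refine (enorm_sum_le _ _).trans (Finset.sum_le_sum fun a _ => ?_)
          rw [enorm_mul]
    _ = _ := by
        rw [lintegral_finsetSum _ (fun i _ => Finset.measurable_fun_sum _ (fun a _ =>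
          ((hmeas a).const_mul _).const_mul _))]
        refine Finset.sum_congr rfl fun i _ => ?_
        rw [lintegral_finsetSum _ (fun a _ => ((hmeas a).const_mul _).const_mul _)]
        refine Finset.sum_congr rfl fun a _ => ?_
        rw [lintegral_const_mul _ ((hmeas a).const_mul _), lintegral_const_mul _ (hmeas a)]

private theorem b1_key {m : ℕ} {h : ℝ} {κ k : ℕ} (hk : (4 : ℝ) ^ κ ≤ 2 ^ k)
    {S : Finset (X m)} (hS : S.Nonempty) (hrad : ∀ p ∈ S, (2 : ℝ) ^ k ≤ rad p ∧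
      rad p ≤ 2 ^ (k + 1)) (a : Pk m) (ha : a.1 ∈ J m κ) (s0 : ℝ) :
    1 + (|rad (pos h κ a)| + |s0|) / 4 ^ κ ≤ (4 + 2 * (1 + 2 * Real.sqrt m) ^ 2) *
      (((2 : ℝ) ^ k / 4 ^ κ) * (1 + rh h κ S a) * (1 + |s0|)) := by
  have h4 : (1 : ℝ) ≤ 4 ^ κ := one_le_pow₀ (by norm_num)
  have h40 : (0 : ℝ) < 4 ^ κ := by positivity
  have hr0 : 0 ≤ rh h κ S a := Metric.infDist_nonneg
  obtain ⟨y, ⟨p, hp, rfl⟩, hy⟩ : ∃ y ∈ Lk κ (w κ a.1) '' (S : Set (X m)),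
      dist (nd h a.2) y < rh h κ S a + 1 := by
    refine (Metric.infDist_lt_iff ?_).1 ?_
    · exact (Set.Nonempty.image _ (by exact_mod_cast hS))
    · show rh h κ S a < rh h κ S a + 1
      linarith
  have hpos : ‖pos h κ a - p‖ ≤ 4 ^ κ * (1 + 2 * Real.sqrt m) ^ 2 * (rh h κ S a + 1) := by
    have h1 : pos h κ a - p = Li κ (w κ a.1) (nd h a.2 - Lk κ (w κ a.1) p) := by
      have h2 : Lk κ (w κ a.1) (pos h κ a - p) = nd h a.2 - Lk κ (w κ a.1) p := by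
        rw [Lk_sub]
        unfold pos
        rw [Lk_Li]
      rw [← h2, Li_Lk]
    rw [h1]
    refine (norm_Li_le _ _ _).trans ?_
    have h3 : ‖nd h a.2 - Lk κ (w κ a.1) p‖ ≤ rh h κ S a + 1 := by
      rw [← dist_eq_norm]
      exact hy.le
    have h5 : ‖(w κ a.1 : E m)‖ ≤ 2 * Real.sqrt m := norm_w_le κ a.1 ha
    gcongr
  have hradp : |rad (pos h κ a)| ≤ 2 * 2 ^ k + 2 * (4 ^ κ * (1 + 2 * Real.sqrt m) ^ 2 *
      (rh h κ S a + 1)) := by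
    have h1 : rad (pos h κ a) = rad p + rad (pos h κ a - p) := by
      rw [rad_sub]
      ring
    have h2 := abs_rad_le (pos h κ a - p)
    have h3 : |rad p| ≤ 2 * 2 ^ k := by
      have h6 := hrad p hp
      have h7 : (0 : ℝ) < 2 ^ k := by positivity
      rw [abs_of_nonneg (by linarith)]
      calc rad p ≤ 2 ^ (k + 1) := h6.2
        _ = 2 * 2 ^ k := by rw [pow_succ]; ring
    rw [h1]
    refine (abs_add_le _ _).trans ?_
    linarith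
  obtain ⟨A, hA⟩ : ∃ A : ℝ, A = (2 : ℝ) ^ k / 4 ^ κ := ⟨_, rfl⟩
  obtain ⟨Y, hY⟩ : ∃ Y : ℝ, Y = 1 + rh h κ S a := ⟨_, rfl⟩
  obtain ⟨Z, hZ⟩ : ∃ Z : ℝ, Z = 1 + |s0| := ⟨_, rfl⟩
  obtain ⟨c1, hc1⟩ : ∃ c1 : ℝ, c1 = (1 + 2 * Real.sqrt m) ^ 2 := ⟨_, rfl⟩
  have hc10 : 0 ≤ c1 := by rw [hc1]; positivity
  have hA1 : 1 ≤ A := by rw [hA, le_div_iff₀ h40]; linarith
  have hY1 : 1 ≤ Y := by rw [hY]; linarith
  have hZ1 : 1 ≤ Z := by rw [hZ]; linarith [abs_nonneg s0]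
  have hs : |s0| / 4 ^ κ ≤ Z := by
    rw [div_le_iff₀ h40]
    have h8 : |s0| ≤ Z := by rw [hZ]; linarith
    nlinarith
  have hmain : 1 + (|rad (pos h κ a)| + |s0|) / 4 ^ κ ≤ 1 + 2 * A + 2 * c1 * Y + Z := by
    rw [add_div]
    have h9 : |rad (pos h κ a)| / 4 ^ κ ≤ 2 * A + 2 * c1 * Y := by
      rw [div_le_iff₀ h40, hA, hY, hc1]
      refine hradp.trans (le_of_eq ?_)
      field_simp
      ring
    linarith
  rw [← hA, ← hY, ← hZ, ← hc1]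
  refine hmain.trans ?_
  have hAY : 1 ≤ A * Y := one_le_mul_of_one_le_of_one_le hA1 hY1
  have h1 : 1 ≤ A * Y * Z := one_le_mul_of_one_le_of_one_le hAY hZ1
  have h2 : A ≤ A * Y * Z := by
    calc A = A * 1 * 1 := by ring
      _ ≤ A * Y * Z := by gcongr
  have h3 : Y ≤ A * Y * Z := by
    calc Y = 1 * Y * 1 := by ring
      _ ≤ A * Y * Z := by gcongr
  have h5 : Z ≤ A * Y * Z := by
    calc Z = 1 * Z := by ring
      _ ≤ A * Y * Z := by gcongr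
  nlinarith

private theorem b1_real {m : ℕ} {κ k : ℕ} {c5 C3 R A Y Z n : ℝ} {M : ℕ} (hM : m ≤ M)
    (hc5 : 0 ≤ c5) (hC3 : 0 ≤ C3) (hn : 0 ≤ n) (hA : A = (2 : ℝ) ^ k / 4 ^ κ) (hY : 1 ≤ Y)
    (hZ : 1 ≤ Z) (hR0 : 0 ≤ R) (hR : R ≤ c5 * (A * Y * Z)) :
    (2 : ℝ) ^ ((k : ℝ) * ((m : ℝ) / 2)) * (n * (C3 * R ^ ((m : ℝ) / 2))) ≤
      C3 * c5 ^ ((m : ℝ) / 2) * Z ^ ((m : ℝ) / 2) *
        ((2 : ℝ)⁻¹ ^ (κ * m) * (2 ^ (k * m) * (n * Y ^ M))) := by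
  have hA0 : 0 ≤ A := by rw [hA]; positivity
  have h1 : R ^ ((m : ℝ) / 2) ≤ c5 ^ ((m : ℝ) / 2) * (A ^ ((m : ℝ) / 2) * Y ^ ((m : ℝ) / 2) *
      Z ^ ((m : ℝ) / 2)) := by
    refine (Real.rpow_le_rpow hR0 hR (by positivity)).trans (le_of_eq ?_)
    rw [Real.mul_rpow hc5 (by positivity), Real.mul_rpow (by positivity) (by positivity),
      Real.mul_rpow hA0 (by positivity)]
  have h2 : Y ^ ((m : ℝ) / 2) ≤ Y ^ M := by
    rw [← Real.rpow_natCast Y M]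
    refine Real.rpow_le_rpow_of_exponent_le hY ?_
    have : (m : ℝ) ≤ M := by exact_mod_cast hM
    have h0 : (0 : ℝ) ≤ m := Nat.cast_nonneg _
    linarith
  have h3 : (2 : ℝ) ^ ((k : ℝ) * ((m : ℝ) / 2)) * A ^ ((m : ℝ) / 2) =
      (2 : ℝ)⁻¹ ^ (κ * m) * 2 ^ (k * m) := by
    rw [hA, Real.div_rpow (by positivity) (by positivity)]
    have h4 : ((2 : ℝ) ^ k) ^ ((m : ℝ) / 2) = (2 : ℝ) ^ ((k : ℝ) * ((m : ℝ) / 2)) := by
      rw [Real.rpow_mul (by norm_num), Real.rpow_natCast]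
    have h5 : ((4 : ℝ) ^ κ) ^ ((m : ℝ) / 2) = 2 ^ (κ * m) := by
      have h6 : (4 : ℝ) ^ κ = (2 : ℝ) ^ ((2 * κ : ℕ) : ℝ) := by
        rw [Real.rpow_natCast, pow_mul]
        norm_num
      rw [h6, ← Real.rpow_mul (by norm_num), ← Real.rpow_natCast]
      congr 1
      push_cast
      ring
    have h7 : (2 : ℝ) ^ ((k : ℝ) * ((m : ℝ) / 2)) * (2 : ℝ) ^ ((k : ℝ) * ((m : ℝ) / 2)) =
        2 ^ (k * m) := by
      rw [← Real.rpow_add (by norm_num), ← Real.rpow_natCast]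
      congr 1
      push_cast
      ring
    rw [h4, h5, ← mul_div_assoc, h7, inv_pow]
    field_simp
  have h8 : 0 ≤ (2 : ℝ) ^ ((k : ℝ) * ((m : ℝ) / 2)) := by positivity
  calc (2 : ℝ) ^ ((k : ℝ) * ((m : ℝ) / 2)) * (n * (C3 * R ^ ((m : ℝ) / 2)))
      ≤ (2 : ℝ) ^ ((k : ℝ) * ((m : ℝ) / 2)) * (n * (C3 * (c5 ^ ((m : ℝ) / 2) *
        (A ^ ((m : ℝ) / 2) * Y ^ ((m : ℝ) / 2) * Z ^ ((m : ℝ) / 2))))) := by gcongr
    _ = C3 * c5 ^ ((m : ℝ) / 2) * Z ^ ((m : ℝ) / 2) *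
        (((2 : ℝ) ^ ((k : ℝ) * ((m : ℝ) / 2)) * A ^ ((m : ℝ) / 2)) *
          (n * Y ^ ((m : ℝ) / 2))) := by ring
    _ = C3 * c5 ^ ((m : ℝ) / 2) * Z ^ ((m : ℝ) / 2) *
        ((2 : ℝ)⁻¹ ^ (κ * m) * (2 ^ (k * m) * (n * Y ^ ((m : ℝ) / 2)))) := by rw [h3]; ring
    _ ≤ _ := by gcongr

private theorem b1_term {m : ℕ} {Φ : X m → ℂ} {χ : E m → ℝ} {b : V m → ℂ} {h C3 : ℝ}
    (hC3 : 0 < C3)
    (hP : ∀ (κ : ℕ) (j : Fin m → ℤ), j ∈ J m κ →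
      ∀ (Z : X m) (s0 : ℝ), ∫⁻ x : E (m + 1), ‖Kb (cb χ b κ j) (Lam (x, -s0) - Z)‖ₑ ≤
      ENNReal.ofReal (C3 * (1 + (|rad Z| + |s0|) / 4 ^ κ) ^ ((m : ℝ) / 2)))
    {κ k : ℕ} (hk : (4 : ℝ) ^ κ ≤ 2 ^ k) {S : Finset (X m)}
    (hrad : ∀ p ∈ S, (2 : ℝ) ^ k ≤ rad p ∧ rad p ≤ 2 ^ (k + 1)) (γ : X m → ℂ) {M : ℕ}
    (hM : m ≤ M) (a : Pk m) (ha : a.1 ∈ J m κ) (s0 : ℝ) :
    ENNReal.ofReal ((2 : ℝ) ^ ((k : ℝ) * ((m : ℝ) / 2))) *
        (‖cf Φ h κ S γ a‖ₑ * ∫⁻ x, ‖Wv χ b h κ s0 a x‖ₑ) ≤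
      ENNReal.ofReal (C3 * (4 + 2 * (1 + 2 * Real.sqrt m) ^ 2) ^ ((m : ℝ) / 2) *
        (1 + |s0|) ^ ((m : ℝ) / 2) * ((2 : ℝ)⁻¹ ^ (κ * m) * (2 ^ (k * m) *
          (‖cf Φ h κ S γ a‖ * (1 + rh h κ S a) ^ M)))) := by
  rcases S.eq_empty_or_nonempty with hS | hS
  · have h0 : cf Φ h κ S γ a = 0 := by
      unfold cf
      rw [hS, Finset.sum_empty]
    rw [h0]
    simp
  · have h1 := hP κ a.1 ha (pos h κ a) s0
    have hr0 : 0 ≤ rh h κ S a := Metric.infDist_nonneg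
    have hs0 := abs_nonneg s0
    have hR0 : 0 ≤ 1 + (|rad (pos h κ a)| + |s0|) / 4 ^ κ := by positivity
    calc ENNReal.ofReal ((2 : ℝ) ^ ((k : ℝ) * ((m : ℝ) / 2))) *
        (‖cf Φ h κ S γ a‖ₑ * ∫⁻ x, ‖Wv χ b h κ s0 a x‖ₑ)
        ≤ ENNReal.ofReal ((2 : ℝ) ^ ((k : ℝ) * ((m : ℝ) / 2))) *
        (ENNReal.ofReal ‖cf Φ h κ S γ a‖ *
          ENNReal.ofReal (C3 * (1 + (|rad (pos h κ a)| + |s0|) / 4 ^ κ) ^ ((m : ℝ) / 2))) := by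
          rw [← ofReal_norm]
          exact mul_le_mul' le_rfl (mul_le_mul' le_rfl h1)
      _ = ENNReal.ofReal ((2 : ℝ) ^ ((k : ℝ) * ((m : ℝ) / 2)) * (‖cf Φ h κ S γ a‖ *
          (C3 * (1 + (|rad (pos h κ a)| + |s0|) / 4 ^ κ) ^ ((m : ℝ) / 2)))) := by
          rw [← ENNReal.ofReal_mul (norm_nonneg _), ← ENNReal.ofReal_mul (by positivity)]
      _ ≤ _ := by
          refine ENNReal.ofReal_le_ofReal ?_
          exact b1_real hM (by positivity) hC3.le (norm_nonneg _) rfl (by linarith) (by linarith)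
            hR0 (b1_key hk hS hrad a ha s0)

private theorem b1_split {m : ℕ} (χ : E m → ℝ) (b : V m → ℂ) (Φ : X m → ℂ) (h : ℝ) (κ : ℕ)
    (s0 : ℝ) {β : Type} (B : Finset β) (k : β → ℕ) (S : β → Finset (X m)) (γ : β → X m → ℂ)
    (G : β → Finset (Pk m)) (Q : β → Pk m → Prop) [∀ i, DecidablePred (Q i)] (x : E (m + 1)) :
    Fg χ b Φ h κ s0 B k S γ G x = Fg χ b Φ h κ s0 B k S γ (fun i => (G i).filter (Q i)) x +
      Fg χ b Φ h κ s0 B k S γ (fun i => (G i).filter (fun a => ¬ Q i a)) x := by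
  unfold Fg
  rw [← Finset.sum_add_distrib]
  refine Finset.sum_congr rfl fun i _ => ?_
  rw [← mul_add, Finset.sum_filter_add_sum_filter_not]

private theorem b1_wk {m : ℕ} {f1 f2 : E (m + 1) → ℂ} (h1 : Continuous f1)
    (h2 : Continuous f2) {lam p : ℝ} (hl : 0 < lam) :
    ENNReal.ofReal (lam ^ p) * volume {x | lam < ‖f1 x + f2 x‖} ≤
      ENNReal.ofReal (2 * lam ^ (p - 1)) * (∫⁻ x, ‖f1 x‖ₑ) +
        ENNReal.ofReal (4 * lam ^ (p - 2)) * (∫⁻ x, ‖f2 x‖ₑ ^ (2 : ℝ)) := by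
  have hsub : {x | lam < ‖f1 x + f2 x‖} ⊆ {x | ENNReal.ofReal (lam / 2) ≤ ‖f1 x‖ₑ} ∪
      {x | ENNReal.ofReal ((lam / 2) ^ (2 : ℝ)) ≤ ‖f2 x‖ₑ ^ (2 : ℝ)} := by
    intro x hx
    change lam < ‖f1 x + f2 x‖ at hx
    by_cases hc : lam / 2 ≤ ‖f1 x‖
    · left
      show ENNReal.ofReal (lam / 2) ≤ ‖f1 x‖ₑ
      rw [← ofReal_norm]
      exact ENNReal.ofReal_le_ofReal hc
    · right
      show ENNReal.ofReal ((lam / 2) ^ (2 : ℝ)) ≤ ‖f2 x‖ₑ ^ (2 : ℝ)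
      have h3 := norm_add_le (f1 x) (f2 x)
      push Not at hc
      have h4 : lam / 2 ≤ ‖f2 x‖ := by linarith
      rw [← ENNReal.ofReal_rpow_of_nonneg (by positivity) (by norm_num)]
      refine ENNReal.rpow_le_rpow ?_ (by norm_num)
      rw [← ofReal_norm]
      exact ENNReal.ofReal_le_ofReal h4
  have hm1 : ENNReal.ofReal (lam / 2) * volume {x | ENNReal.ofReal (lam / 2) ≤ ‖f1 x‖ₑ} ≤
      ∫⁻ x, ‖f1 x‖ₑ := mul_meas_ge_le_lintegral₀ h1.measurable.enorm.aemeasurable _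
  have hm2 : ENNReal.ofReal ((lam / 2) ^ (2 : ℝ)) *
      volume {x | ENNReal.ofReal ((lam / 2) ^ (2 : ℝ)) ≤ ‖f2 x‖ₑ ^ (2 : ℝ)} ≤
      ∫⁻ x, ‖f2 x‖ₑ ^ (2 : ℝ) :=
    mul_meas_ge_le_lintegral₀ (h2.measurable.enorm.pow_const _).aemeasurable _
  have he1 : ENNReal.ofReal (lam ^ p) = ENNReal.ofReal (2 * lam ^ (p - 1)) *
      ENNReal.ofReal (lam / 2) := by
    rw [← ENNReal.ofReal_mul (by positivity)]
    congr 1
    rw [Real.rpow_sub hl, Real.rpow_one]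
    field_simp
  have he2 : ENNReal.ofReal (lam ^ p) = ENNReal.ofReal (4 * lam ^ (p - 2)) *
      ENNReal.ofReal ((lam / 2) ^ (2 : ℝ)) := by
    rw [← ENNReal.ofReal_mul (by positivity)]
    congr 1
    rw [Real.rpow_sub hl, Real.rpow_two, Real.rpow_two]
    field_simp
    norm_num
  calc ENNReal.ofReal (lam ^ p) * volume {x | lam < ‖f1 x + f2 x‖}
      ≤ ENNReal.ofReal (lam ^ p) * (volume {x | ENNReal.ofReal (lam / 2) ≤ ‖f1 x‖ₑ} +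
      volume {x | ENNReal.ofReal ((lam / 2) ^ (2 : ℝ)) ≤ ‖f2 x‖ₑ ^ (2 : ℝ)}) := by
        gcongr
        exact (measure_mono hsub).trans (measure_union_le _ _)
    _ = ENNReal.ofReal (2 * lam ^ (p - 1)) * (ENNReal.ofReal (lam / 2) *
        volume {x | ENNReal.ofReal (lam / 2) ≤ ‖f1 x‖ₑ}) +
        ENNReal.ofReal (4 * lam ^ (p - 2)) * (ENNReal.ofReal ((lam / 2) ^ (2 : ℝ)) *
      volume {x | ENNReal.ofReal ((lam / 2) ^ (2 : ℝ)) ≤ ‖f2 x‖ₑ ^ (2 : ℝ)}) := by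
        rw [mul_add, ← mul_assoc, ← mul_assoc, ← he1, ← he2]
    _ ≤ _ := add_le_add (mul_le_mul' le_rfl hm1) (mul_le_mul' le_rfl hm2)

private theorem b1_pw1 {lam p n : ℝ} (hl : 0 < lam) (hp : 1 ≤ p) (hn : lam < n) :
    lam ^ (p - 1) * n ≤ n ^ p := by
  have hn0 : 0 < n := hl.trans hn
  have h1 : n ^ p = n ^ (p - 1) * n := by
    rw [Real.rpow_sub hn0, Real.rpow_one]
    field_simp
  rw [h1]
  have h2 : lam ^ (p - 1) ≤ n ^ (p - 1) :=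
    Real.rpow_le_rpow hl.le hn.le (by linarith)
  gcongr

private theorem b1_pw2 {lam p n : ℝ} (hp : 0 < p) (hp2 : p ≤ 2) (hn0 : 0 ≤ n)
    (hn : n ≤ lam) : lam ^ (p - 2) * n ^ 2 ≤ n ^ p := by
  rcases hn0.eq_or_lt with h0 | h0
  · rw [← h0, Real.zero_rpow hp.ne']
    simp
  · have h1 : n ^ p = n ^ (p - 2) * n ^ 2 := by
      rw [Real.rpow_sub h0, Real.rpow_two]
      field_simp
    rw [h1]
    have h2 : lam ^ (p - 2) ≤ n ^ (p - 2) :=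
      Real.rpow_le_rpow_of_nonpos h0 hn (by linarith)
    gcongr

private theorem b1_pw3 {lam p : ℝ} (hl : 1 / 2 ≤ lam) (hp : 1 ≤ p) (hp2 : p ≤ 2) :
    lam ^ (p - 2) ≤ 2 := by
  have h1 : lam ^ (p - 2) ≤ (1 / 2 : ℝ) ^ (p - 2) :=
    Real.rpow_le_rpow_of_nonpos (by norm_num) hl (by linarith)
  refine h1.trans ?_
  have h2 : (1 / 2 : ℝ) ^ (p - 2) ≤ (1 / 2 : ℝ) ^ (-1 : ℝ) :=
    Real.rpow_le_rpow_of_exponent_ge (by norm_num) (by norm_num) (by linarith)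
  refine h2.trans (le_of_eq ?_)
  rw [Real.rpow_neg_one]
  norm_num

/-- weak type bound for finite sums of wave packets -/
theorem weak_fin {m : ℕ} (hm : 1 ≤ m) {h v0 v1 ρ R : ℝ} {Φ Φh : X m → ℂ}
    (hR : Rp h v0 v1 ρ R Φ Φh) {χ : E m → ℝ} (hχ : Pu χ) {b : V m → ℂ} (hb : Sb v0 v1 1 b)
    (q : ℝ) (hq : 2 < q) (hq2 : q * m ≤ 2 * ((m : ℝ) + 2)) (hC : CDec m q) (N : ℕ) (ε : ℝ)
    (hε : 0 < ε) : ∃ C : ℝ, 0 < C ∧ ∀ (C1 : ℝ), 0 ≤ C1 → ∀ (κ : ℕ) (β : Type) [DecidableEq β]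
    (B : Finset β) (k : β → ℕ) (S : β → Finset (X m)), Bl κ N C1 B k S →
    ∀ γ : β → X m → ℂ, (∀ i p, ‖γ i p‖ ≤ 1) → ∀ G : β → Finset (Pk m),
    (∀ i, ∀ a ∈ G i, a.1 ∈ J m κ) → ∀ s0 lam : ℝ, 1 / 2 ≤ lam →
    ENNReal.ofReal (lam ^ (q / (q - 1))) *
      volume {x : E (m + 1) | lam < ‖Fg χ b Φ h κ s0 B k S γ G x‖} ≤
      ENNReal.ofReal (C * (1 + C1) * (1 + |s0|) ^ ((m : ℝ) / 2) *
        (2 : ℝ) ^ ((κ : ℝ) * (ex0 m q + ε)) * Wt B k S) := by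
  obtain ⟨C2, M2, hC2, hL2⟩ := total_L2 hm hR hχ hb N
  obtain ⟨C3, hC3, hL1⟩ := packet_L1 hm hχ hb
  obtain ⟨M, hMdef⟩ : ∃ M : ℕ, M = M2 + m := ⟨_, rfl⟩
  have hq1 : 0 < q - 1 := by linarith
  obtain ⟨Cw, hCw, hw⟩ := coef_w hm hR hb.pos q hq hC (ε * (q - 1)) (by positivity) (1 / 3)
    (by norm_num) M
  obtain ⟨p, hp⟩ : ∃ p : ℝ, p = q / (q - 1) := ⟨_, rfl⟩
  have hp1 : 1 ≤ p := by rw [hp, le_div_iff₀ hq1]; linarith
  have hp2 : p ≤ 2 := by rw [hp, div_le_iff₀ hq1]; linarith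
  have hc5 : (0 : ℝ) < 4 + 2 * (1 + 2 * Real.sqrt m) ^ 2 := by positivity
  obtain ⟨K, hK⟩ : ∃ K : ℝ, K = C3 * (4 + 2 * (1 + 2 * Real.sqrt m) ^ 2) ^ ((m : ℝ) / 2) :=
    ⟨_, rfl⟩
  have hK0 : 0 < K := by rw [hK]; positivity
  refine ⟨2 * K * Cw + 4 * C2 * Cw + 8 * C2, by positivity, ?_⟩
  intro C1 hC1 κ β _ B k S hBl γ hγ G hG s0 lam hlam
  have hl0 : 0 < lam := by linarith
  classical
  -- the weights
  obtain ⟨nr, hnr⟩ : ∃ nr : β → Pk m → ℝ,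
      nr = fun i a => ‖cf Φ h κ (S i) (γ i) a‖ * (1 + rh h κ (S i) a) ^ M := ⟨_, rfl⟩
  have hrh : ∀ i a, 0 ≤ rh h κ (S i) a := fun i a => Metric.infDist_nonneg
  have hnr0 : ∀ i a, 0 ≤ nr i a := fun i a => by
    rw [hnr]
    have := hrh i a
    positivity
  obtain ⟨T, hT⟩ : ∃ T : ℝ, T = ∑ i ∈ B, ∑ a ∈ G i,
      (2 : ℝ)⁻¹ ^ (κ * m) * (2 ^ (k i * m) * nr i a ^ p) := ⟨_, rfl⟩
  obtain ⟨W, hW⟩ : ∃ W : ℝ, W = Wt B k S := ⟨_, rfl⟩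
  have hW0 : 0 ≤ W := by rw [hW]; unfold Wt; positivity
  obtain ⟨Lx, hLx⟩ : ∃ Lx : ℝ, Lx = (2 : ℝ) ^ ((κ : ℝ) * (ex0 m q + ε)) := ⟨_, rfl⟩
  have hex : 0 ≤ ex0 m q := by
    unfold ex0
    have h1 : (m : ℝ) ≤ ((m : ℝ) * q / 2 + 2) / (q - 1) := by
      rw [le_div_iff₀ hq1]
      linarith
    linarith
  have hLx1 : 1 ≤ Lx := by
    rw [hLx]
    exact Real.one_le_rpow (by norm_num) (by positivity)
  obtain ⟨Z, hZ⟩ : ∃ Z : ℝ, Z = (1 + |s0|) ^ ((m : ℝ) / 2) := ⟨_, rfl⟩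
  have hZ1 : 1 ≤ Z := by
    rw [hZ]
    exact Real.one_le_rpow (by linarith [abs_nonneg s0]) (by positivity)
  -- the total
  have hTle : T ≤ Cw * Lx * W := by
    rw [hT, hW]
    unfold Wt
    rw [Finset.mul_sum]
    refine Finset.sum_le_sum fun i hi => ?_
    have h1 := hw κ (S i) (fun a ha b' hb' hab => hBl.sep i hi a ha b' hb' hab) (γ i) (hγ i)
      (G i) (hG i)
    have h2 : ∑ a ∈ G i, (2 : ℝ)⁻¹ ^ (κ * m) * (2 ^ (k i * m) * nr i a ^ p) =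
        (2 : ℝ)⁻¹ ^ (κ * m) * (2 ^ (k i * m) * ∑ a ∈ G i,
          (‖cf Φ h κ (S i) (γ i) a‖ * (1 + rh h κ (S i) a) ^ M) ^ (q / (q - 1))) := by
      rw [← Finset.mul_sum, ← Finset.mul_sum, hnr, hp]
    rw [h2]
    have h3 : (2 : ℝ)⁻¹ ^ (κ * m) * (2 : ℝ) ^ ((κ : ℝ) * ((ε * (q - 1) + m * q / 2 + 2) /
        (q - 1))) = Lx := by
      rw [hLx, inv_pow, ← Real.rpow_natCast, ← Real.rpow_neg (by norm_num),
        ← Real.rpow_add (by norm_num)]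
      congr 1
      unfold ex0
      push_cast
      field_simp
      ring
    calc (2 : ℝ)⁻¹ ^ (κ * m) * (2 ^ (k i * m) * ∑ a ∈ G i,
          (‖cf Φ h κ (S i) (γ i) a‖ * (1 + rh h κ (S i) a) ^ M) ^ (q / (q - 1)))
        ≤ (2 : ℝ)⁻¹ ^ (κ * m) * (2 ^ (k i * m) * (Cw * (2 : ℝ) ^ ((κ : ℝ) *
          ((ε * (q - 1) + m * q / 2 + 2) / (q - 1))) * ((S i).card : ℝ))) := by gcongr
      _ = Cw * ((2 : ℝ)⁻¹ ^ (κ * m) * (2 : ℝ) ^ ((κ : ℝ) *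
          ((ε * (q - 1) + m * q / 2 + 2) / (q - 1)))) * (2 ^ (k i * m) * ((S i).card : ℝ)) := by
          ring
      _ = _ := by rw [h3]
  -- the two parts
  obtain ⟨G1, hG1⟩ : ∃ G1 : β → Finset (Pk m), G1 = fun i => (G i).filter (fun a =>
    lam < nr i a) := ⟨_, rfl⟩
  obtain ⟨G2, hG2⟩ : ∃ G2 : β → Finset (Pk m), G2 = fun i => (G i).filter (fun a =>
    ¬ lam < nr i a) := ⟨_, rfl⟩
  have hfs : ∀ x, Fg χ b Φ h κ s0 B k S γ G x = Fg χ b Φ h κ s0 B k S γ G1 x +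
      Fg χ b Φ h κ s0 B k S γ G2 x := fun x => by
    rw [hG1, hG2]
    exact b1_split χ b Φ h κ s0 B k S γ G (fun i a => lam < nr i a) x
  have hsub1 : ∀ i, G1 i ⊆ G i := fun i => by rw [hG1]; exact Finset.filter_subset _ _
  have hsub2 : ∀ i, G2 i ⊆ G i := fun i => by rw [hG2]; exact Finset.filter_subset _ _
  have hwk := b1_wk (p := p) (b1_Fcont hχ hb Φ h κ s0 B k S γ G1)
    (b1_Fcont hχ hb Φ h κ s0 B k S γ G2) hl0
  have hT0 : ∀ i a, 0 ≤ (2 : ℝ)⁻¹ ^ (κ * m) * (2 ^ (k i * m) * nr i a ^ p) := fun i a => by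
    have := hnr0 i a
    positivity
  -- first part
  have hp1' : ENNReal.ofReal (2 * lam ^ (p - 1)) * (∫⁻ x, ‖Fg χ b Φ h κ s0 B k S γ G1 x‖ₑ) ≤
      ENNReal.ofReal (2 * K * Z * T) := by
    have h1 : ∫⁻ x, ‖Fg χ b Φ h κ s0 B k S γ G1 x‖ₑ ≤
        ENNReal.ofReal (∑ i ∈ B, ∑ a ∈ G1 i, K * Z * ((2 : ℝ)⁻¹ ^ (κ * m) *
          (2 ^ (k i * m) * nr i a))) := by
      refine (b1_lint hχ hb Φ h κ s0 B k S γ G1).trans ?_
      rw [ENNReal.ofReal_sum_of_nonneg (fun i _ => Finset.sum_nonneg fun a _ => by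
        have := hnr0 i a
        have := hK0.le
        positivity)]
      refine Finset.sum_le_sum fun i hi => ?_
      rw [ENNReal.ofReal_sum_of_nonneg (fun a _ => by
        have := hnr0 i a
        have := hK0.le
        positivity)]
      refine Finset.sum_le_sum fun a ha => ?_
      have h2 := b1_term (Φ := Φ) (h := h) hC3 hL1 (hBl.le i hi) (hBl.rad i hi) (γ i)
        (M := M) (by omega) a (hG i a (hsub1 i ha)) s0
      rw [hK, hZ, hnr]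
      exact h2
    calc ENNReal.ofReal (2 * lam ^ (p - 1)) * (∫⁻ x, ‖Fg χ b Φ h κ s0 B k S γ G1 x‖ₑ)
        ≤ ENNReal.ofReal (2 * lam ^ (p - 1)) * ENNReal.ofReal (∑ i ∈ B, ∑ a ∈ G1 i,
          K * Z * ((2 : ℝ)⁻¹ ^ (κ * m) * (2 ^ (k i * m) * nr i a))) := mul_le_mul' le_rfl h1
      _ = ENNReal.ofReal (2 * lam ^ (p - 1) * ∑ i ∈ B, ∑ a ∈ G1 i,
          K * Z * ((2 : ℝ)⁻¹ ^ (κ * m) * (2 ^ (k i * m) * nr i a))) :=
          (ENNReal.ofReal_mul (by positivity)).symm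
      _ ≤ _ := by
          refine ENNReal.ofReal_le_ofReal ?_
          rw [hT, Finset.mul_sum, Finset.mul_sum]
          refine Finset.sum_le_sum fun i hi => ?_
          rw [Finset.mul_sum, Finset.mul_sum]
          refine (Finset.sum_le_sum fun a ha => ?_).trans (Finset.sum_le_sum_of_subset_of_nonneg
            (hsub1 i) (fun a _ _ => mul_nonneg (by positivity) (hT0 i a)))
          have h3 : lam < nr i a := by
            rw [hG1] at ha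
            exact (Finset.mem_filter.1 ha).2
          have h4 := b1_pw1 hl0 hp1 h3
          calc 2 * lam ^ (p - 1) * (K * Z * ((2 : ℝ)⁻¹ ^ (κ * m) * (2 ^ (k i * m) * nr i a)))
              = 2 * K * Z * ((2 : ℝ)⁻¹ ^ (κ * m) * (2 ^ (k i * m) *
                (lam ^ (p - 1) * nr i a))) := by ring
            _ ≤ _ := by gcongr
  -- second part
  have hp2' : ENNReal.ofReal (4 * lam ^ (p - 2)) *
      (∫⁻ x, ‖Fg χ b Φ h κ s0 B k S γ G2 x‖ₑ ^ (2 : ℝ)) ≤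
      ENNReal.ofReal (4 * C2 * T + 8 * C2 * C1 * W) := by
    have h1 := hL2 C1 hC1 κ β B k S hBl γ hγ G2 (fun i a ha => hG i a (hsub2 i ha)) s0
    calc ENNReal.ofReal (4 * lam ^ (p - 2)) *
        (∫⁻ x, ‖Fg χ b Φ h κ s0 B k S γ G2 x‖ₑ ^ (2 : ℝ))
        ≤ ENNReal.ofReal (4 * lam ^ (p - 2)) * ENNReal.ofReal (C2 * ((2 : ℝ)⁻¹ ^ (κ * m) *
          ∑ i ∈ B, ∑ a ∈ G2 i, (2 : ℝ) ^ (k i * m) *
          (‖cf Φ h κ (S i) (γ i) a‖ * (1 + rh h κ (S i) a) ^ M2) ^ 2 + C1 * Wt B k S)) :=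
          mul_le_mul' le_rfl h1
      _ = ENNReal.ofReal (4 * lam ^ (p - 2) * (C2 * ((2 : ℝ)⁻¹ ^ (κ * m) *
          ∑ i ∈ B, ∑ a ∈ G2 i, (2 : ℝ) ^ (k i * m) *
          (‖cf Φ h κ (S i) (γ i) a‖ * (1 + rh h κ (S i) a) ^ M2) ^ 2 + C1 * Wt B k S))) :=
          (ENNReal.ofReal_mul (by positivity)).symm
      _ ≤ _ := by
          refine ENNReal.ofReal_le_ofReal ?_
          rw [← hW]
          have h2 : lam ^ (p - 2) * ((2 : ℝ)⁻¹ ^ (κ * m) *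
              ∑ i ∈ B, ∑ a ∈ G2 i, (2 : ℝ) ^ (k i * m) *
              (‖cf Φ h κ (S i) (γ i) a‖ * (1 + rh h κ (S i) a) ^ M2) ^ 2) ≤ T := by
            rw [hT, Finset.mul_sum, Finset.mul_sum]
            refine Finset.sum_le_sum fun i hi => ?_
            rw [Finset.mul_sum, Finset.mul_sum]
            refine (Finset.sum_le_sum fun a ha => ?_).trans
              (Finset.sum_le_sum_of_subset_of_nonneg (hsub2 i) (fun a _ _ => hT0 i a))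
            have h3 : nr i a ≤ lam := by
              rw [hG2] at ha
              exact not_lt.1 (Finset.mem_filter.1 ha).2
            have h4 := b1_pw2 (by linarith) hp2 (hnr0 i a) h3
            have h5 : ‖cf Φ h κ (S i) (γ i) a‖ * (1 + rh h κ (S i) a) ^ M2 ≤ nr i a := by
              rw [hnr]
              have h6 : (1 + rh h κ (S i) a) ^ M2 ≤ (1 + rh h κ (S i) a) ^ M :=
                pow_le_pow_right₀ (by linarith [hrh i a]) (by omega)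
              exact mul_le_mul_of_nonneg_left h6 (norm_nonneg _)
            have h7 := hrh i a
            calc lam ^ (p - 2) * ((2 : ℝ)⁻¹ ^ (κ * m) * ((2 : ℝ) ^ (k i * m) *
                (‖cf Φ h κ (S i) (γ i) a‖ * (1 + rh h κ (S i) a) ^ M2) ^ 2))
                ≤ lam ^ (p - 2) * ((2 : ℝ)⁻¹ ^ (κ * m) * ((2 : ℝ) ^ (k i * m) *
                  (nr i a) ^ 2)) := by gcongr
              _ = (2 : ℝ)⁻¹ ^ (κ * m) * ((2 : ℝ) ^ (k i * m) *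
                  (lam ^ (p - 2) * (nr i a) ^ 2)) := by ring
              _ ≤ _ := by gcongr
          have h8 := b1_pw3 hlam hp1 hp2
          have h9 : lam ^ (p - 2) * (C1 * W) ≤ 2 * (C1 * W) :=
            mul_le_mul_of_nonneg_right h8 (by positivity)
          have h10 := mul_le_mul_of_nonneg_left h2 (by positivity : 0 ≤ 4 * C2)
          have h11 := mul_le_mul_of_nonneg_left h9 (by positivity : 0 ≤ 4 * C2)
          linarith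
  rw [← hp]
  have hset : {x : E (m + 1) | lam < ‖Fg χ b Φ h κ s0 B k S γ G x‖} = {x | lam <
      ‖Fg χ b Φ h κ s0 B k S γ G1 x + Fg χ b Φ h κ s0 B k S γ G2 x‖} := by
    congr 1
    funext x
    rw [hfs x]
  rw [hset]
  refine hwk.trans ((add_le_add hp1' hp2').trans ?_)
  have hT00 : 0 ≤ T := by
    rw [hT]
    exact Finset.sum_nonneg fun i _ => Finset.sum_nonneg fun a _ => hT0 i a
  rw [← ENNReal.ofReal_add (by positivity) (by positivity)]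
  refine ENNReal.ofReal_le_ofReal ?_
  rw [← hLx, ← hW, ← hZ]
  have hLW : 0 ≤ Lx * W := by positivity
  have e1 : 2 * K * Z * T ≤ 2 * K * Cw * (Z * (Lx * W)) := by
    calc 2 * K * Z * T ≤ 2 * K * Z * (Cw * Lx * W) := by gcongr
      _ = _ := by ring
  have e2 : 4 * C2 * T ≤ 4 * C2 * Cw * (Z * (Lx * W)) := by
    calc 4 * C2 * T ≤ 4 * C2 * (Cw * Lx * W) := by gcongr
      _ = 4 * C2 * Cw * (1 * (Lx * W)) := by ring
      _ ≤ _ := by gcongr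
  have e3 : 8 * C2 * C1 * W ≤ 8 * C2 * C1 * (Z * (Lx * W)) := by
    calc 8 * C2 * C1 * W = 8 * C2 * C1 * (1 * (1 * W)) := by ring
      _ ≤ _ := by gcongr
  have e4 : 0 ≤ (2 * K * Cw + 4 * C2 * Cw) * C1 * (Z * (Lx * W)) := by positivity
  have e5 : 0 ≤ 8 * C2 * (Z * (Lx * W)) := by positivity
  calc 2 * K * Z * T + (4 * C2 * T + 8 * C2 * C1 * W)
      ≤ 2 * K * Cw * (Z * (Lx * W)) + (4 * C2 * Cw * (Z * (Lx * W)) +
        8 * C2 * C1 * (Z * (Lx * W))) := add_le_add e1 (add_le_add e2 e3)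
    _ ≤ (2 * K * Cw + 4 * C2 * Cw + 8 * C2) * (1 + C1) * Z * Lx * W := by nlinarith

end Pool.LibST49
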