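import Pool.Agent.LibST49.B2

/-
PLAN (B4, MEDIUM). See the end of the plan of B2: layer cake from weak_full and L1_full.
-/

set_option autoImplicit false

noncomputable section

open MeasureTheory Metric Set Filter

namespace Pool.LibST49

open Pool.LibSR53

private theorem B4_layer {α : Type*} [MeasurableSpace α] (μ : Measure α) (f : α → ℝ)
    (hf : Measurable f) (hf0 : ∀ x, 0 ≤ f x) (p q1 : ℝ) (h1 : 1 < q1) (h2 : q1 < p)
    (A W : ENNReal) (hA : ∫⁻ x, ENNReal.ofReal (f x) ∂μ ≤ A)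
    (hW : ∀ t : ℝ, 1 ≤ t → ENNReal.ofReal (t ^ p) * μ {x | t < f x} ≤ W) :
    ∫⁻ x, ENNReal.ofReal (f x ^ q1) ∂μ ≤ ENNReal.ofReal q1 *
      (A * ENNReal.ofReal (1 / (q1 - 1)) + W * ENNReal.ofReal (1 / (p - q1))) := by
  have hq0 : 0 < q1 := by linarith
  rw [lintegral_rpow_eq_lintegral_meas_lt_mul μ (Filter.Eventually.of_forall hf0)
    hf.aemeasurable hq0]
  refine mul_le_mul_right ?_ _
  have hsplit : Ioi (0 : ℝ) = Ioc 0 1 ∪ Ioi 1 := (Ioc_union_Ioi_eq_Ioi zero_le_one).symm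
  rw [hsplit]
  refine (lintegral_union_le _ _ _).trans ?_
  refine add_le_add ?_ ?_
  · have hp : ∀ t ∈ Ioc (0 : ℝ) 1, μ {a | t < f a} * ENNReal.ofReal (t ^ (q1 - 1)) ≤
        A * ENNReal.ofReal (t ^ (q1 - 2)) := by
      intro t ht
      have e1 : t ^ (q1 - 1) = t * t ^ (q1 - 2) := by
        have : q1 - 1 = 1 + (q1 - 2) := by ring
        rw [this, Real.rpow_add ht.1, Real.rpow_one]
      rw [e1, ENNReal.ofReal_mul ht.1.le, ← mul_assoc]
      refine mul_le_mul_left ?_ _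
      refine le_trans ?_ hA
      have h3 : μ {a | t < f a} ≤ μ {a | ENNReal.ofReal t ≤ ENNReal.ofReal (f a)} := by
        apply measure_mono
        intro a ha
        exact ENNReal.ofReal_le_ofReal (le_of_lt ha)
      calc μ {a | t < f a} * ENNReal.ofReal t
          ≤ μ {a | ENNReal.ofReal t ≤ ENNReal.ofReal (f a)} * ENNReal.ofReal t :=
            mul_le_mul_left h3 _
        _ = ENNReal.ofReal t * μ {a | ENNReal.ofReal t ≤ ENNReal.ofReal (f a)} := mul_comm _ _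
        _ ≤ ∫⁻ x, ENNReal.ofReal (f x) ∂μ :=
            mul_meas_ge_le_lintegral (ENNReal.measurable_ofReal.comp hf) _
    refine (setLIntegral_mono' measurableSet_Ioc hp).trans ?_
    rw [lintegral_const_mul _ (by fun_prop)]
    refine mul_le_mul_right ?_ _
    have hint : IntegrableOn (fun t : ℝ => t ^ (q1 - 2)) (Ioc 0 1) volume := by
      have := intervalIntegral.intervalIntegrable_rpow' (a := 0) (b := 1) (r := q1 - 2)
        (by linarith)
      rwa [intervalIntegrable_iff_integrableOn_Ioc_of_le zero_le_one] at this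
    rw [← ofReal_integral_eq_lintegral_ofReal hint]
    · apply ENNReal.ofReal_le_ofReal
      rw [← intervalIntegral.integral_of_le zero_le_one, integral_rpow (Or.inl (by linarith))]
      have h4 : q1 - 2 + 1 = q1 - 1 := by ring
      rw [h4, Real.one_rpow, Real.zero_rpow (by linarith), sub_zero]
    · exact (ae_restrict_mem measurableSet_Ioc).mono fun t ht => Real.rpow_nonneg ht.1.le _
  · have hp : ∀ t ∈ Ioi (1 : ℝ), μ {a | t < f a} * ENNReal.ofReal (t ^ (q1 - 1)) ≤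
        W * ENNReal.ofReal (t ^ (q1 - 1 - p)) := by
      intro t ht
      have ht0 : 0 < t := lt_trans zero_lt_one ht
      have e1 : t ^ (q1 - 1) = t ^ p * t ^ (q1 - 1 - p) := by
        rw [← Real.rpow_add ht0]
        congr 1
        ring
      rw [e1, ENNReal.ofReal_mul (Real.rpow_nonneg ht0.le _), ← mul_assoc]
      refine mul_le_mul_left ?_ _
      rw [mul_comm]
      exact hW t (le_of_lt ht)
    refine (setLIntegral_mono' measurableSet_Ioi hp).trans ?_
    rw [lintegral_const_mul _ (by fun_prop)]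
    refine mul_le_mul_right ?_ _
    have hint : IntegrableOn (fun t : ℝ => t ^ (q1 - 1 - p)) (Ioi 1) volume :=
      integrableOn_Ioi_rpow_of_lt (by linarith) zero_lt_one
    rw [← ofReal_integral_eq_lintegral_ofReal hint]
    · apply ENNReal.ofReal_le_ofReal
      rw [integral_Ioi_rpow_of_lt (by linarith) zero_lt_one, Real.one_rpow]
      apply le_of_eq
      have h5 : q1 - 1 - p + 1 = -(p - q1) := by ring
      rw [h5, neg_div_neg_eq]
    · exact (ae_restrict_mem measurableSet_Ioi).mono fun t ht =>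
        Real.rpow_nonneg (lt_trans zero_lt_one ht).le _

/-- strong type bound for families of blocks -/
theorem strong_blk {m : ℕ} (hm : 1 ≤ m) {v0 v1 : ℝ} {b : V m → ℂ} (hb : Sb v0 v1 1 b)
    (q : ℝ) (hq : 2 < q) (hq2 : q * m ≤ 2 * ((m : ℝ) + 2)) (hC : CDec m q) (N : ℕ) (ε : ℝ)
    (hε : 0 < ε) (q1 : ℝ) (h1 : 1 < q1) (h2 : q1 < q / (q - 1)) : ∃ C : ℝ, 0 < C ∧ ∀ (C1 : ℝ),
    0 ≤ C1 → ∀ (κ : ℕ) (β : Type) [DecidableEq β]
    (B : Finset β) (k : β → ℕ) (S : β → Finset (X m)), Bl κ N C1 B k S →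
    ∀ γ : β → X m → ℂ, (∀ i p, ‖γ i p‖ ≤ 1) → ∀ s0 : ℝ,
    ∫⁻ x, ‖Fn b s0 B k S γ x‖ₑ ^ q1 ≤
      ENNReal.ofReal (C * (1 + C1) * (1 + |s0|) ^ ((m : ℝ) / 2) *
        (2 : ℝ) ^ ((κ : ℝ) * (ex0 m q + ε)) * Wt B k S) := by
  obtain ⟨Ca, hCa, HA⟩ := L1_full hm hb N
  obtain ⟨Cw, hCw, HW⟩ := weak_full hm hb q hq hq2 hC N ε hε
  have hq0 : 0 < q1 := by linarith
  have hp1 : 0 < q / (q - 1) - q1 := by linarith
  have hq11 : 0 < q1 - 1 := by linarith
  have hex : 0 ≤ ex0 m q := by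
    unfold ex0
    have hm0 : (0 : ℝ) ≤ m := Nat.cast_nonneg m
    have hq1' : 0 < q - 1 := by linarith
    have : (m : ℝ) ≤ ((m : ℝ) * q / 2 + 2) / (q - 1) := by
      rw [le_div_iff₀ hq1']
      nlinarith
    linarith
  refine ⟨q1 * (Ca * (1 / (q1 - 1)) + Cw * (1 / (q / (q - 1) - q1))), by positivity, ?_⟩
  intro C1 hC1 κ β _ B k S hBl γ hγ s0
  have hcont : Continuous (Fn b s0 B k S γ) := by
    unfold Fn
    refine continuous_finsetSum _ fun i _ => ?_
    refine continuous_const.mul ?_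
    refine continuous_finsetSum _ fun p _ => ?_
    refine continuous_const.mul ?_
    refine (Kb_cont hb).1.comp ?_
    refine Continuous.sub ?_ continuous_const
    exact continuous_Lam.comp (by fun_prop)
  have hWt : 0 ≤ Wt B k S := by
    unfold Wt
    positivity
  set Xv : ℝ := (1 + C1) * (1 + |s0|) ^ ((m : ℝ) / 2) *
    (2 : ℝ) ^ ((κ : ℝ) * (ex0 m q + ε)) * Wt B k S with hXv
  have hX0 : 0 ≤ Xv := by
    rw [hXv]
    positivity
  have hA := HA C1 hC1 κ β B k S hBl γ hγ s0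
  have hA' : ∫⁻ x, ENNReal.ofReal ‖Fn b s0 B k S γ x‖ ≤ ENNReal.ofReal (Ca * Xv) := by
    have e : ∀ x, ENNReal.ofReal ‖Fn b s0 B k S γ x‖ = ‖Fn b s0 B k S γ x‖ₑ :=
      fun x => ofReal_norm _
    simp only [e]
    refine hA.trans (ENNReal.ofReal_le_ofReal ?_)
    rw [mul_assoc]
    refine mul_le_mul_of_nonneg_left ?_ hCa.le
    rw [hXv]
    refine mul_le_mul_of_nonneg_right ?_ hWt
    have g1 : (1 : ℝ) ≤ (2 : ℝ) ^ ((κ : ℝ) * (ex0 m q + ε)) := by
      apply Real.one_le_rpow (by norm_num)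
      positivity
    have g2 : 0 ≤ (1 + |s0|) ^ ((m : ℝ) / 2) := by positivity
    have g3 : (1 + |s0|) ^ ((m : ℝ) / 2) ≤ (1 + C1) * (1 + |s0|) ^ ((m : ℝ) / 2) := by
      nlinarith
    calc (1 + |s0|) ^ ((m : ℝ) / 2) ≤ (1 + C1) * (1 + |s0|) ^ ((m : ℝ) / 2) := g3
      _ ≤ (1 + C1) * (1 + |s0|) ^ ((m : ℝ) / 2) * (2 : ℝ) ^ ((κ : ℝ) * (ex0 m q + ε)) :=
        le_mul_of_one_le_right (by positivity) g1
  have hW' : ∀ t : ℝ, 1 ≤ t → ENNReal.ofReal (t ^ (q / (q - 1))) *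
      volume {x | t < ‖Fn b s0 B k S γ x‖} ≤ ENNReal.ofReal (Cw * Xv) := by
    intro t ht
    refine (HW C1 hC1 κ β B k S hBl γ hγ s0 t ht).trans (le_of_eq ?_)
    congr 1
    rw [hXv]
    ring
  have key := B4_layer volume (fun x => ‖Fn b s0 B k S γ x‖) hcont.norm.measurable
    (fun x => norm_nonneg _) (q / (q - 1)) q1 h1 h2 _ _ hA' hW'
  have e : ∀ x, ‖Fn b s0 B k S γ x‖ₑ ^ q1 = ENNReal.ofReal (‖Fn b s0 B k S γ x‖ ^ q1) := by
    intro x
    rw [← ofReal_norm, ENNReal.ofReal_rpow_of_nonneg (norm_nonneg _) hq0.le]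
  simp only [e]
  refine key.trans (le_of_eq ?_)
  rw [← ENNReal.ofReal_mul (by positivity), ← ENNReal.ofReal_mul (by positivity),
    ← ENNReal.ofReal_add (by positivity) (by positivity), ← ENNReal.ofReal_mul hq0.le]
  congr 1
  rw [hXv]
  ring

end Pool.LibST49
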