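import Pool.Agent.LibST49.A1

/-
PLAN (CV, MEDIUM/STRONG). oi is the inverse of xi on {v > 0}: for z.2 > 0, ‖xi z‖ = z.2 (1+‖z.1‖^2)/2 (‖xi z‖^2 = v^2|ω|^2 + v^2 (1-|ω|^2)^2/4), las (xi z) = v(1-|ω|^2)/2, sum = v.
Change of variables in two steps: identify E(m+1) with E m x R measure preservingly (y -> (ini y, las y): EuclideanSpace.volume_preserving_measurableEquiv, volume_preserving_piFinSuccAbove or
MeasurableEquiv.piFinSuccAbove (Fin.last m)); for fixed xi' = η substitute xi_d = (v - ‖η‖^2/v)/2, v in (0,oo) if η /= 0 (η = 0 is a null set, m >= 1), derivative (1+‖η‖^2/v^2)/2 > 0,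
increasing bijection (0,oo) -> R (integral_image_eq_integral_abs_deriv_smul); then Fubini and for fixed v > 0 substitute η = v ω (dη = v^m dω, Measure.integral_comp_smul).
Alternatively one step with the explicit Jacobian. The same for lintegral if convenient. ph_xi: coordinates. ab_smooth: v(ξ) = ‖ξ‖ + las ξ is continuous, smooth where > 0 (then ξ /= 0);
a = 0 where v(ξ) < v0; so a is smooth; support inside ‖ξ‖ <= v1 (1+ρ^2)/2, closed. int_ab: cv applied to F(ξ) = a(ξ) ψ(ξ); on v > 0 Jac * a(xi z) = b z.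
-/

set_option autoImplicit false

noncomputable section

open MeasureTheory Metric Set Filter

namespace Pool.LibST49

open Pool.LibSR53

/-- the inverse of xi -/
def oi {m : ℕ} (ξ : E (m + 1)) : V m := ((1 / (‖ξ‖ + las ξ)) • ini ξ, ‖ξ‖ + las ξ)

/-- the symbol in the original frequency variable -/
def ab {m : ℕ} (b : V m → ℂ) (ξ : E (m + 1)) : ℂ := b (oi ξ) / (Jac (oi ξ) : ℂ)

/-! ### coordinates -/

private theorem CV_ini_xi {m : ℕ} (z : V m) : ini (xi z) = z.2 • z.1 := by
  ext i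
  simp [ini, xi, Fin.snoc_castSucc]

private theorem CV_las_xi {m : ℕ} (z : V m) : las (xi z) = z.2 * (1 - ‖z.1‖ ^ 2) / 2 := by
  simp [las, xi, Fin.snoc_last]

private theorem CV_inner {m : ℕ} (y y' : E (m + 1)) :
    (inner ℝ y y' : ℝ) = inner ℝ (ini y) (ini y') + las y * las y' := by
  simp only [PiLp.inner_apply, Fin.sum_univ_castSucc, ini, las]
  simp [mul_comm]

private theorem CV_norm_sq {m : ℕ} (y : E (m + 1)) : ‖y‖ ^ 2 = ‖ini y‖ ^ 2 + las y ^ 2 := by
  rw [← real_inner_self_eq_norm_sq, CV_inner, real_inner_self_eq_norm_sq]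
  ring

theorem norm_xi {m : ℕ} (z : V m) (hz : 0 < z.2) : ‖xi z‖ = z.2 * (1 + ‖z.1‖ ^ 2) / 2 := by
  have h0 : (0 : ℝ) ≤ z.2 * (1 + ‖z.1‖ ^ 2) / 2 := by positivity
  rw [← abs_of_nonneg (norm_nonneg (xi z)), ← abs_of_nonneg h0, ← sq_eq_sq_iff_abs_eq_abs, CV_norm_sq,
    CV_ini_xi, CV_las_xi, norm_smul, Real.norm_of_nonneg hz.le]
  ring

theorem oi_xi {m : ℕ} (z : V m) (hz : 0 < z.2) : oi (xi z) = z := by
  have h : ‖xi z‖ + las (xi z) = z.2 := by
    rw [norm_xi z hz, CV_las_xi]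
    ring
  unfold oi
  rw [h, CV_ini_xi, smul_smul, one_div_mul_cancel hz.ne', one_smul]

theorem ph_xi {m : ℕ} (y : E (m + 1)) (ρ : ℝ) (z : V m) (hz : 0 < z.2) :
    ph (Lam (y, ρ)) z = inner ℝ y (xi z) + ρ * ‖xi z‖ := by
  rw [CV_inner, norm_xi z hz, CV_ini_xi, CV_las_xi, inner_smul_right]
  simp only [ph, Lam]
  ring

/-! ### the change of variables -/

/-- the map (η, t) -> y -/
private def CV_T {m : ℕ} (z : V m) : E (m + 1) := WithLp.toLp 2 (Fin.snoc z.1.ofLp z.2 : Fin (m + 1) → ℝ)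

private theorem CV_T_ini_las {m : ℕ} (y : E (m + 1)) : CV_T ((ini y, las y) : V m) = y := by
  ext i
  refine Fin.lastCases ?_ (fun j => ?_) i
  · simp [CV_T, las]
  · simp [CV_T, ini]

private theorem CV_xi_eq {m : ℕ} (z : V m) : xi z = CV_T ((z.2 • z.1, z.2 * (1 - ‖z.1‖ ^ 2) / 2) : V m) := by
  rw [← CV_T_ini_las (xi z), CV_ini_xi, CV_las_xi]

private theorem CV_continuous_T {m : ℕ} : Continuous (CV_T : V m → E (m + 1)) := by
  unfold CV_T
  refine (PiLp.continuous_toLp 2 _).comp ?_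
  refine continuous_pi fun i => ?_
  refine Fin.lastCases ?_ (fun j => ?_) i
  · simpa using continuous_snd
  · simp only [Fin.snoc_castSucc]
    fun_prop

private theorem CV_mp {m : ℕ} :
    MeasurePreserving (fun y : E (m + 1) => ((ini y, las y) : V m)) volume volume := by
  have h1 : MeasurePreserving (fun y : E (m + 1) => y.ofLp) volume volume :=
    PiLp.volume_preserving_ofLp (Fin (m + 1))
  have h2 := volume_preserving_piFinSuccAbove (fun _ : Fin (m + 1) => ℝ) (Fin.last m)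
  have h3 : MeasurePreserving (Prod.swap : ℝ × (Fin m → ℝ) → (Fin m → ℝ) × ℝ) volume volume :=
    Measure.measurePreserving_swap
  have h4 : MeasurePreserving (Prod.map (fun x : Fin m → ℝ => (WithLp.toLp 2 x : E m)) (id : ℝ → ℝ))
      volume volume :=
    (PiLp.volume_preserving_toLp (Fin m)).prod (MeasurePreserving.id volume)
  have h5 := h4.comp (h3.comp (h2.comp h1))
  refine (congrArg (fun f => MeasurePreserving f volume volume) ?_).mp h5
  funext y
  refine Prod.ext ?_ ?_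
  · ext j
    simp [ini, MeasurableEquiv.piFinSuccAbove, Fin.init]
  · simp [las, MeasurableEquiv.piFinSuccAbove]

private theorem CV_lint_prod {m : ℕ} (f : E (m + 1) → ENNReal) (hf : Measurable f) :
    ∫⁻ y, f y = ∫⁻ η : E m, ∫⁻ t : ℝ, f (CV_T (η, t)) := by
  have h1 : Measurable (fun z : V m => f (CV_T z)) := hf.comp CV_continuous_T.measurable
  have h2 := (CV_mp (m := m)).lintegral_comp h1
  simp only [CV_T_ini_las] at h2
  rw [h2]
  exact lintegral_prod _ h1.aemeasurable

/-- the one dimensional substitution -/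
private theorem CV_one {r : ℝ} (hr : 0 < r) (g : ℝ → ENNReal) :
    ∫⁻ t : ℝ, g t = ∫⁻ v in Ioi (0 : ℝ), ENNReal.ofReal ((1 + r ^ 2 / v ^ 2) / 2) *
      g ((v - r ^ 2 / v) / 2) := by
  have hd : ∀ v ∈ Ioi (0 : ℝ), HasDerivWithinAt (fun v : ℝ => (v - r ^ 2 / v) / 2)
      ((1 + r ^ 2 / v ^ 2) / 2) (Ioi 0) v := by
    intro v hv
    have hv' : v ≠ 0 := ne_of_gt hv
    have h1 : HasDerivAt (fun v : ℝ => r ^ 2 / v) (-(r ^ 2) / v ^ 2) v := by
      have h0 := (hasDerivAt_inv hv').const_mul (r ^ 2)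
      refine (h0.congr_deriv ?_).congr_of_eventuallyEq (Eventually.of_forall fun w => ?_)
      · ring
      · exact div_eq_mul_inv _ _
    have h2 := ((hasDerivAt_id v).sub h1).div_const 2
    refine (h2.congr_deriv ?_).hasDerivWithinAt
    ring
  have hinj : InjOn (fun v : ℝ => (v - r ^ 2 / v) / 2) (Ioi 0) := by
    intro v hv w hw h
    have hv' : 0 < v := hv
    have hw' : 0 < w := hw
    have h1 : v - r ^ 2 / v = w - r ^ 2 / w := by
      have : (v - r ^ 2 / v) / 2 = (w - r ^ 2 / w) / 2 := h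
      linarith
    have h2 : (v - w) * (1 + r ^ 2 / (v * w)) = 0 := by
      have : (v - w) * (1 + r ^ 2 / (v * w)) = (v - r ^ 2 / v) - (w - r ^ 2 / w) := by
        field_simp
        ring
      rw [this, h1, sub_self]
    rcases mul_eq_zero.1 h2 with h3 | h3
    · linarith
    · exfalso
      have : 0 < 1 + r ^ 2 / (v * w) := by positivity
      linarith
  have himg : (fun v : ℝ => (v - r ^ 2 / v) / 2) '' (Ioi 0) = univ := by
    refine eq_univ_of_forall fun t => ?_
    have hs : t ^ 2 < t ^ 2 + r ^ 2 := by nlinarith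
    have h0 : 0 < Real.sqrt (t ^ 2 + r ^ 2) := Real.sqrt_pos.2 (by positivity)
    have h1 : |t| < Real.sqrt (t ^ 2 + r ^ 2) := by
      rw [← Real.sqrt_sq_eq_abs]
      exact Real.sqrt_lt_sqrt (sq_nonneg t) hs
    have h2 : 0 < t + Real.sqrt (t ^ 2 + r ^ 2) := by
      have := neg_abs_le t
      linarith
    refine ⟨t + Real.sqrt (t ^ 2 + r ^ 2), h2, ?_⟩
    have h3 : Real.sqrt (t ^ 2 + r ^ 2) ^ 2 = t ^ 2 + r ^ 2 := Real.sq_sqrt (by positivity)
    show (t + Real.sqrt (t ^ 2 + r ^ 2) - r ^ 2 / (t + Real.sqrt (t ^ 2 + r ^ 2))) / 2 = t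
    have h4 : r ^ 2 / (t + Real.sqrt (t ^ 2 + r ^ 2)) = Real.sqrt (t ^ 2 + r ^ 2) - t := by
      rw [div_eq_iff h2.ne']
      linear_combination -h3
    rw [h4]
    ring
  have h := lintegral_image_eq_lintegral_abs_deriv_mul measurableSet_Ioi hd hinj g
  rw [himg, Measure.restrict_univ] at h
  rw [h]
  refine setLIntegral_congr_fun measurableSet_Ioi fun v hv => ?_
  have hv' : (0 : ℝ) < v := hv
  show ENNReal.ofReal |(1 + r ^ 2 / v ^ 2) / 2| * g ((v - r ^ 2 / v) / 2) = _
  rw [abs_of_nonneg (by positivity)]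

/-- dilations -/
private theorem CV_dil {m : ℕ} {v : ℝ} (hv : 0 < v) (G : E m → ENNReal) (hG : Measurable G) :
    ∫⁻ η, G η = ENNReal.ofReal (v ^ m) * ∫⁻ ω, G (v • ω) := by
  have h1 : Measure.map (fun x : E m => v • x) (volume : Measure (E m)) =
      ENNReal.ofReal ((v ^ m)⁻¹) • (volume : Measure (E m)) := by
    rw [Measure.map_addHaar_smul _ hv.ne']
    simp only [finrank_euclideanSpace, Fintype.card_fin]
    rw [abs_of_nonneg (by positivity)]
  have h2 : ∫⁻ ω, G (v • ω) = ENNReal.ofReal ((v ^ m)⁻¹) * ∫⁻ η, G η := by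
    rw [← lintegral_map hG (measurable_const_smul v), h1, lintegral_smul_measure, smul_eq_mul]
  rw [h2, ← mul_assoc, ← ENNReal.ofReal_mul (by positivity), mul_inv_cancel₀ (by positivity),
    ENNReal.ofReal_one, one_mul]

private theorem CV_measurable_xi {m : ℕ} : Measurable (xi : V m → E (m + 1)) := by
  have h : (xi : V m → E (m + 1)) = fun z => CV_T ((z.2 • z.1, z.2 * (1 - ‖z.1‖ ^ 2) / 2) : V m) := by
    funext z
    exact CV_xi_eq z
  rw [h]
  exact CV_continuous_T.measurable.comp (by fun_prop)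

private theorem CV_measurable_Jac {m : ℕ} : Measurable (Jac : V m → ℝ) := by
  unfold Jac
  fun_prop

private theorem CV_lint {m : ℕ} (hm : 1 ≤ m) (f : E (m + 1) → ENNReal) (hf : Measurable f) :
    ∫⁻ y, f y = ∫⁻ z in {z : V m | 0 < z.2}, ENNReal.ofReal (Jac z) * f (xi z) := by
  have hne : Nonempty (Fin m) := ⟨⟨0, hm⟩⟩
  have hT : Measurable (CV_T : V m → E (m + 1)) := CV_continuous_T.measurable
  rw [CV_lint_prod f hf]
  have hae : ∀ᵐ η : E m, η ≠ 0 := by
    have := (Set.countable_singleton (0 : E m)).ae_notMem volume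
    filter_upwards [this] with η hη
    simpa using hη
  have h1 : ∫⁻ η : E m, ∫⁻ t : ℝ, f (CV_T (η, t)) =
      ∫⁻ η : E m, ∫⁻ v in Ioi (0 : ℝ), ENNReal.ofReal ((1 + ‖η‖ ^ 2 / v ^ 2) / 2) *
        f (CV_T (η, (v - ‖η‖ ^ 2 / v) / 2)) := by
    refine lintegral_congr_ae ?_
    filter_upwards [hae] with η hη
    exact CV_one (norm_pos_iff.2 hη) (fun t => f (CV_T (η, t)))
  rw [h1, lintegral_lintegral_swap]
  · have hset : {z : V m | 0 < z.2} = univ ×ˢ Ioi (0 : ℝ) := by
      ext z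
      simp
    have hR : ∫⁻ z in {z : V m | 0 < z.2}, ENNReal.ofReal (Jac z) * f (xi z) =
        ∫⁻ v in Ioi (0 : ℝ), ∫⁻ ω : E m, ENNReal.ofReal (Jac ((ω, v) : V m)) * f (xi ((ω, v) : V m)) := by
      have hvol : (volume : Measure (V m)).restrict {z : V m | 0 < z.2} =
          (volume : Measure (E m)).prod ((volume : Measure ℝ).restrict (Ioi 0)) := by
        rw [hset]
        have := Measure.prod_restrict (μ := (volume : Measure (E m))) (ν := (volume : Measure ℝ)) univ (Ioi 0)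
        rw [Measure.restrict_univ] at this
        exact this.symm
      rw [hvol]
      refine lintegral_prod_symm _ ?_
      exact ((CV_measurable_Jac.ennreal_ofReal).mul (hf.comp CV_measurable_xi)).aemeasurable
    rw [hR]
    refine setLIntegral_congr_fun measurableSet_Ioi fun v hv => ?_
    have hv' : (0 : ℝ) < v := hv
    show ∫⁻ η : E m, ENNReal.ofReal ((1 + ‖η‖ ^ 2 / v ^ 2) / 2) * f (CV_T (η, (v - ‖η‖ ^ 2 / v) / 2)) = _
    rw [CV_dil hv', ← lintegral_const_mul]
    · refine lintegral_congr fun ω => ?_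
      rw [← mul_assoc, ← ENNReal.ofReal_mul (by positivity), CV_xi_eq]
      have e1 : v ^ m * ((1 + ‖v • ω‖ ^ 2 / v ^ 2) / 2) = Jac ((ω, v) : V m) := by
        unfold Jac
        rw [norm_smul, Real.norm_of_nonneg hv'.le]
        field_simp
      have e2 : (v - ‖v • ω‖ ^ 2 / v) / 2 = v * (1 - ‖ω‖ ^ 2) / 2 := by
        rw [norm_smul, Real.norm_of_nonneg hv'.le]
        field_simp
      rw [e1, e2]
    · refine Measurable.mul (by fun_prop) (hf.comp (hT.comp ?_))
      fun_prop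
    · refine Measurable.mul (by fun_prop) (hf.comp (hT.comp ?_))
      fun_prop
  · refine Measurable.aemeasurable (Measurable.mul (by fun_prop) (hf.comp (hT.comp ?_)))
    fun_prop

private theorem CV_map {m : ℕ} (hm : 1 ≤ m) :
    Measure.map xi (((volume : Measure (V m)).restrict {z : V m | 0 < z.2}).withDensity
      (fun z => ENNReal.ofReal (Jac z))) = (volume : Measure (E (m + 1))) := by
  ext s hs
  rw [Measure.map_apply CV_measurable_xi hs, withDensity_apply _ (CV_measurable_xi hs)]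
  have h := CV_lint hm (s.indicator 1) (measurable_one.indicator hs)
  rw [lintegral_indicator_one hs] at h
  rw [h, ← lintegral_indicator (CV_measurable_xi hs)]
  refine lintegral_congr fun z => ?_
  by_cases hz : xi z ∈ s
  · rw [Set.indicator_of_mem (show z ∈ xi ⁻¹' s from hz), Set.indicator_of_mem hz, Pi.one_apply, mul_one]
  · rw [Set.indicator_of_notMem (show z ∉ xi ⁻¹' s from hz), Set.indicator_of_notMem hz, mul_zero]

/-- change of variables xi = xi(omega, v) -/
theorem cv (m : ℕ) (hm : 1 ≤ m) (F : E (m + 1) → ℂ) (hF : Integrable F) :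
    IntegrableOn (fun z : V m => (Jac z : ℂ) * F (xi z)) {z : V m | 0 < z.2} ∧
      ∫ ξ, F ξ = ∫ z in {z : V m | 0 < z.2}, (Jac z : ℂ) * F (xi z) := by
  have hmeas : MeasurableSet {z : V m | 0 < z.2} := measurableSet_lt measurable_const measurable_snd
  have hJm : Measurable (fun z : V m => ENNReal.ofReal (Jac z)) := CV_measurable_Jac.ennreal_ofReal
  have hlt : ∀ᵐ z ∂((volume : Measure (V m)).restrict {z : V m | 0 < z.2}), ENNReal.ofReal (Jac z) < ⊤ :=
    Eventually.of_forall fun z => ENNReal.ofReal_lt_top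
  have hF' : Integrable F (Measure.map xi (((volume : Measure (V m)).restrict {z : V m | 0 < z.2}).withDensity
      (fun z => ENNReal.ofReal (Jac z)))) := by rw [CV_map hm]; exact hF
  have hae : ∀ z ∈ {z : V m | 0 < z.2}, (ENNReal.ofReal (Jac z)).toReal • F (xi z) = (Jac z : ℂ) * F (xi z) := by
    intro z hz
    have hz' : 0 < z.2 := hz
    have hJ : 0 ≤ Jac z := by unfold Jac; positivity
    rw [ENNReal.toReal_ofReal hJ, Complex.real_smul]
  constructor
  · have h1 := (integrable_map_measure hF'.aestronglyMeasurable CV_measurable_xi.aemeasurable).1 hF'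
    have h2 := (integrable_withDensity_iff_integrable_smul' hJm hlt).1 h1
    exact (integrableOn_congr_fun hae hmeas).1 h2
  · have h1 := integral_map (φ := (xi : V m → E (m + 1))) CV_measurable_xi.aemeasurable hF'.aestronglyMeasurable
    rw [CV_map hm, integral_withDensity_eq_integral_toReal_smul hJm hlt] at h1
    rw [h1]
    exact setIntegral_congr_fun hmeas hae

private theorem CV_ini_contDiff {m : ℕ} : ContDiff ℝ (⊤ : ℕ∞) (ini : E (m + 1) → E m) := by
  unfold ini
  rw [contDiff_euclidean]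
  intro i
  simp only
  fun_prop

private theorem CV_las_contDiff {m : ℕ} : ContDiff ℝ (⊤ : ℕ∞) (las : E (m + 1) → ℝ) := by
  unfold las
  fun_prop

private theorem CV_Jac_pos {m : ℕ} {z : V m} (hz : 0 < z.2) : 0 < Jac z := by
  unfold Jac
  positivity

private theorem CV_norm_oi {m : ℕ} (ξ : E (m + 1)) (h : 0 < (oi ξ).2) :
    ‖ξ‖ = (oi ξ).2 * (1 + ‖(oi ξ).1‖ ^ 2) / 2 := by
  have h' : 0 < ‖ξ‖ + las ξ := h
  have h1 := CV_norm_sq ξ
  show ‖ξ‖ = (‖ξ‖ + las ξ) * (1 + ‖(1 / (‖ξ‖ + las ξ)) • ini ξ‖ ^ 2) / 2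
  rw [norm_smul, mul_pow, Real.norm_of_nonneg (by positivity)]
  field_simp
  linear_combination h1

theorem ab_smooth {m : ℕ} (hm : 1 ≤ m) {v0 v1 ρ : ℝ} {b : V m → ℂ} (hb : Sb v0 v1 ρ b) :
    ContDiff ℝ (⊤ : ℕ∞) (ab b) ∧ HasCompactSupport (ab b) := by
  have hv0 := hb.pos
  constructor
  · rw [contDiff_iff_contDiffAt]
    intro ξ
    by_cases h : 0 < ‖ξ‖ + las ξ
    · have hξ : ξ ≠ 0 := by
        rintro rfl
        simp [las] at h
      have hn : ContDiffAt ℝ (⊤ : ℕ∞) (fun y : E (m + 1) => ‖y‖ + las y) ξ :=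
        (contDiffAt_norm ℝ hξ).add CV_las_contDiff.contDiffAt
      have ho : ContDiffAt ℝ (⊤ : ℕ∞) (oi : E (m + 1) → V m) ξ := by
        unfold oi
        refine ContDiffAt.prodMk ?_ hn
        exact (contDiffAt_const.div hn h.ne').smul CV_ini_contDiff.contDiffAt
      have hJ : ContDiff ℝ (⊤ : ℕ∞) (Jac : V m → ℝ) := by
        unfold Jac
        exact (((contDiff_snd.pow m).mul (contDiff_const.add (contDiff_fst.norm_sq ℝ))).div_const 2)
      have hbo : ContDiffAt ℝ (⊤ : ℕ∞) (fun y : E (m + 1) => b (oi y)) ξ :=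
        ContDiffAt.comp (g := b) (f := oi) ξ hb.smooth.contDiffAt ho
      have hJo : ContDiffAt ℝ (⊤ : ℕ∞) (fun y : E (m + 1) => Jac (oi y)) ξ :=
        ContDiffAt.comp (g := Jac) (f := oi) ξ hJ.contDiffAt ho
      have hJc : ContDiffAt ℝ (⊤ : ℕ∞) (fun y : E (m + 1) => ((Jac (oi y) : ℝ) : ℂ)) ξ :=
        ContDiffAt.comp (g := Complex.ofRealCLM) (f := fun y : E (m + 1) => Jac (oi y)) ξ
          Complex.ofRealCLM.contDiff.contDiffAt hJo
      have hp : 0 < Jac (oi ξ) := CV_Jac_pos (z := oi ξ) h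
      have hne : ((Jac (oi ξ) : ℝ) : ℂ) ≠ 0 := by exact_mod_cast hp.ne'
      exact (hbo.mul (hJc.inv hne)).congr_of_eventuallyEq
        (Eventually.of_forall fun y => div_eq_mul_inv _ _)
    · have hc : Continuous (fun y : E (m + 1) => ‖y‖ + las y) := continuous_norm.add CV_las_contDiff.continuous
      have hlt : ‖ξ‖ + las ξ < v0 := by linarith
      have hev : ∀ᶠ y in nhds ξ, ‖y‖ + las y < v0 := hc.continuousAt.eventually_lt continuousAt_const hlt
      refine (contDiffAt_const (c := (0 : ℂ))).congr_of_eventuallyEq ?_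
      filter_upwards [hev] with y hy
      unfold ab
      have h0 : b (oi y) = 0 := by
        by_contra hne
        have := (hb.supp _ hne).1
        have h2 : (oi y).2 = ‖y‖ + las y := rfl
        rw [h2] at this
        linarith
      rw [h0, zero_div]
  · refine HasCompactSupport.of_support_subset_isCompact (isCompact_closedBall (0 : E (m + 1)) (v1 * (1 + ρ ^ 2) / 2)) ?_
    intro ξ hξ
    have hne : b (oi ξ) ≠ 0 := by
      intro h0
      apply hξ
      unfold ab
      rw [h0, zero_div]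
    obtain ⟨h1, h2, h3⟩ := hb.supp _ hne
    rw [mem_closedBall_zero_iff, CV_norm_oi ξ (lt_of_lt_of_le hv0 h1)]
    have h4 : ‖(oi ξ).1‖ ^ 2 ≤ ρ ^ 2 := by
      have := norm_nonneg (oi ξ).1
      nlinarith
    have h5 : (oi ξ).2 * (1 + ‖(oi ξ).1‖ ^ 2) ≤ v1 * (1 + ρ ^ 2) := by
      have h6 : 0 ≤ (oi ξ).2 := by linarith
      have h7 : 0 ≤ v1 := by linarith
      calc (oi ξ).2 * (1 + ‖(oi ξ).1‖ ^ 2) ≤ v1 * (1 + ‖(oi ξ).1‖ ^ 2) := by
            apply mul_le_mul_of_nonneg_right h2; positivity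
        _ ≤ v1 * (1 + ρ ^ 2) := by
            apply mul_le_mul_of_nonneg_left _ h7; linarith
    linarith

theorem int_ab {m : ℕ} (hm : 1 ≤ m) {v0 v1 ρ : ℝ} {b : V m → ℂ} (hb : Sb v0 v1 ρ b)
    (ψ : E (m + 1) → ℂ) (hψ : Continuous ψ) : ∫ ξ, ab b ξ * ψ ξ = ∫ z, b z * ψ (xi z) := by
  obtain ⟨hs, hc⟩ := ab_smooth hm hb
  have hint : Integrable (fun ξ => ab b ξ * ψ ξ) :=
    (hs.continuous.mul hψ).integrable_of_hasCompactSupport hc.mul_right
  rw [(cv m hm _ hint).2]
  have hmeas : MeasurableSet {z : V m | 0 < z.2} := measurableSet_lt measurable_const measurable_snd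
  have h1 : ∫ z in {z : V m | 0 < z.2}, (Jac z : ℂ) * (ab b (xi z) * ψ (xi z)) =
      ∫ z in {z : V m | 0 < z.2}, b z * ψ (xi z) := by
    refine setIntegral_congr_fun hmeas fun z hz => ?_
    have hz' : 0 < z.2 := hz
    have hp : (Jac z : ℂ) ≠ 0 := by exact_mod_cast (CV_Jac_pos hz').ne'
    show (Jac z : ℂ) * (ab b (xi z) * ψ (xi z)) = b z * ψ (xi z)
    unfold ab
    rw [oi_xi z hz']
    field_simp
  rw [h1]
  refine setIntegral_eq_integral_of_forall_compl_eq_zero fun z hz => ?_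
  have h0 : b z = 0 := by
    by_contra hne
    have h2 := (hb.supp _ hne).1
    have h3 := hb.pos
    exact hz (lt_of_lt_of_le h3 h2)
  rw [h0, zero_mul]

end Pool.LibST49
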