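import Pool.Agent.LibST49.P5

/-
PLAN (D1, MEDIUM/STRONG). Let ψ be a Schwartz function on X m (work on EuclideanSpace or with a product of one variable Schwartz functions, as in P1) whose Fourier transform is 1 on the ball of
radius R: f = Fi3 g satisfies f(a) = INT f(a - y) ψ(y) dy (Fubini: INT ψ(y) e1(-pr3 y z) dy = 1 for ‖z‖ <= R; g integrable). |ψ(y)| <= C_N (1+‖y‖)^(-N). Hoelder (q >= 1):
|f(a)|^q <= (INT |ψ|)^(q-1) INT |f(y)|^q |ψ(a-y)| dy; sum over a in T: SUM_a (1+‖a-y‖)^-(m+3) <= C (sum_sep). lintegral form throughout (ENNReal.inner_le_nnorm_mul / lintegral_mul_le_Lp_mul_Lq or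
the power mean inequality for the measure |ψ| dy).
-/

set_option autoImplicit false

noncomputable section

open MeasureTheory Metric Set Filter

namespace Pool.LibST49

open Pool.LibSR53
open scoped FourierTransform SchwartzMap

private abbrev FF (m : ℕ) := WithLp 2 (E m × WithLp 2 (ℝ × ℝ))

private def TTe (m : ℕ) : X m ≃ᵐ FF m :=
  (MeasurableEquiv.prodCongr (MeasurableEquiv.refl (E m))
    (MeasurableEquiv.toLp 2 (ℝ × ℝ))).trans (MeasurableEquiv.toLp 2 (E m × WithLp 2 (ℝ × ℝ)))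

private lemma TTe_apply {m : ℕ} (y : X m) :
    TTe m y = WithLp.toLp 2 (y.1, WithLp.toLp 2 y.2) := rfl

private lemma mp_TTe (m : ℕ) : MeasurePreserving (TTe m) := by
  have h1 : MeasurePreserving (WithLp.toLp 2 : ℝ × ℝ → WithLp 2 (ℝ × ℝ)) :=
    WithLp.volume_preserving_toLp _ _
  have h2 : MeasurePreserving (WithLp.toLp 2 : E m × WithLp 2 (ℝ × ℝ) → FF m) :=
    WithLp.volume_preserving_toLp _ _
  exact h2.comp ((MeasurePreserving.id (volume : Measure (E m))).prod h1)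

private lemma inner_TTe {m : ℕ} (y z : X m) : inner ℝ (TTe m y) (TTe m z) = pr3 y z := by
  rw [TTe_apply, TTe_apply, WithLp.prod_inner_apply, WithLp.prod_inner_apply]
  simp [pr3]; ring

private lemma norm_sq_TTe {m : ℕ} (y : X m) :
    ‖TTe m y‖ ^ 2 = ‖y.1‖ ^ 2 + (y.2.1 ^ 2 + y.2.2 ^ 2) := by
  rw [TTe_apply, WithLp.prod_norm_sq_eq_of_L2, WithLp.prod_norm_sq_eq_of_L2]
  simp

private lemma norm_le_TTe {m : ℕ} (y : X m) : ‖y‖ ≤ ‖TTe m y‖ := by
  have h := norm_sq_TTe y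
  have h0 := norm_nonneg (TTe m y)
  rw [Prod.norm_def, Prod.norm_def]
  refine max_le ?_ (max_le ?_ ?_)
  · exact abs_le_of_sq_le_sq' (by nlinarith [sq_nonneg y.2.1, sq_nonneg y.2.2]) h0 |>.2
  · rw [Real.norm_eq_abs]
    exact abs_le_of_sq_le_sq (by nlinarith [sq_nonneg y.2.2, sq_nonneg ‖y.1‖]) h0
  · rw [Real.norm_eq_abs]
    exact abs_le_of_sq_le_sq (by nlinarith [sq_nonneg y.2.1, sq_nonneg ‖y.1‖]) h0

private lemma norm_TTe_le {m : ℕ} (y : X m) : ‖TTe m y‖ ≤ 2 * ‖y‖ := by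
  have h := norm_sq_TTe y
  have h1 : ‖y.1‖ ≤ ‖y‖ := norm_fst_le y
  have h2 : |y.2.1| ≤ ‖y‖ := (norm_fst_le y.2).trans (norm_snd_le y)
  have h3 : |y.2.2| ≤ ‖y‖ := (norm_snd_le y.2).trans (norm_snd_le y)
  have h4 : y.2.1 ^ 2 ≤ ‖y‖ ^ 2 := sq_le_sq' (abs_le.1 h2).1 (abs_le.1 h2).2
  have h5 : y.2.2 ^ 2 ≤ ‖y‖ ^ 2 := sq_le_sq' (abs_le.1 h3).1 (abs_le.1 h3).2
  have h6 : ‖y.1‖ ^ 2 ≤ ‖y‖ ^ 2 := pow_le_pow_left₀ (norm_nonneg _) h1 2
  have h0 := norm_nonneg y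
  refine abs_le_of_sq_le_sq' (by nlinarith) (by positivity) |>.2

private lemma exists_psi (m : ℕ) (R : ℝ) : ∃ ψ : X m → ℂ, Continuous ψ ∧ Integrable ψ ∧
    (∃ C : ℝ, 0 < C ∧ ∀ y, ‖ψ y‖ ≤ C / (1 + ‖y‖) ^ (m + 3)) ∧
    ∀ z : X m, ‖z‖ ≤ R → ∫ y, e1 (-pr3 y z) * ψ y = 1 := by
  obtain ⟨B, hB⟩ : ∃ B : ContDiffBump (0 : FF m), B.rIn = 2 * |R| + 1 :=
    ⟨⟨2 * |R| + 1, 2 * |R| + 2, by positivity, by linarith⟩, rfl⟩
  have hcs : HasCompactSupport (fun x : FF m => ((B x : ℝ) : ℂ)) :=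
    B.hasCompactSupport.comp_left (g := fun r : ℝ => (r : ℂ)) (by simp)
  have hsm : ContDiff ℝ (⊤ : ℕ∞) (fun x : FF m => ((B x : ℝ) : ℂ)) :=
    Complex.ofRealCLM.contDiff.comp B.contDiff
  set u : 𝓢(FF m, ℂ) := hcs.toSchwartzMap hsm with hu
  set ψ0 : 𝓢(FF m, ℂ) := 𝓕⁻ u with hψ0
  have hcont : Continuous (TTe m) := by
    have : Continuous (fun y : X m => (WithLp.toLp 2 (y.1, WithLp.toLp 2 y.2) : FF m)) := by
      fun_prop
    exact this
  have hlip : ∀ y : X m, ‖y‖ ≤ ‖TTe m y‖ := norm_le_TTe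
  refine ⟨fun y => ψ0 (TTe m y), ψ0.continuous.comp hcont, ?_, ?_, ?_⟩
  · exact (mp_TTe m).integrable_comp_of_integrable ψ0.integrable
  · obtain ⟨C, hC⟩ : ∃ C : ℝ, ∀ x : FF m, (1 + ‖x‖) ^ (m + 3) * ‖ψ0 x‖ ≤ C := by
      refine ⟨2 ^ (m + 3) * ((Finset.Iic (m + 3, 0)).sup fun p =>
        SchwartzMap.seminorm ℝ p.1 p.2) ψ0, fun x => ?_⟩
      have := ψ0.one_add_le_sup_seminorm_apply (𝕜 := ℝ) (m := (m + 3, 0)) (k := m + 3) (n := 0)
        le_rfl le_rfl x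
      simpa using this
    refine ⟨|C| + 1, by positivity, fun y => ?_⟩
    rw [le_div_iff₀ (by positivity)]
    calc ‖ψ0 (TTe m y)‖ * (1 + ‖y‖) ^ (m + 3)
        ≤ ‖ψ0 (TTe m y)‖ * (1 + ‖TTe m y‖) ^ (m + 3) := by
          gcongr
          exact hlip y
      _ = (1 + ‖TTe m y‖) ^ (m + 3) * ‖ψ0 (TTe m y)‖ := mul_comm _ _
      _ ≤ C := hC _
      _ ≤ |C| + 1 := by linarith [le_abs_self C]
  · intro z hz
    have h1 : ∫ y, e1 (-pr3 y z) * ψ0 (TTe m y) =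
        ∫ x : FF m, e1 (-inner ℝ x (TTe m z)) * ψ0 x := by
      rw [← (mp_TTe m).integral_comp (TTe m).measurableEmbedding]
      simp_rw [inner_TTe]
    have h2 : (𝓕 ψ0) (TTe m z) = ∫ x : FF m, e1 (-inner ℝ x (TTe m z)) * ψ0 x := by
      rw [SchwartzMap.fourier_coe, Real.fourier_eq']
      congr 1
      ext x
      rw [smul_eq_mul, e1]
      congr 2
      push_cast
      ring
    rw [h1, ← h2, hψ0, FourierTransform.fourier_fourierInv_eq, hu]
    change ((B (TTe m z) : ℝ) : ℂ) = 1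
    rw [B.one_of_mem_closedBall]
    · simp
    · rw [mem_closedBall, dist_zero_right, hB]
      have := norm_TTe_le z
      have h3 := le_abs_self R
      linarith


private lemma norm_e1 (t : ℝ) : ‖e1 t‖ = 1 := by
  rw [e1, Complex.norm_exp]
  simp

private lemma e1_add (s t : ℝ) : e1 (s + t) = e1 s * e1 t := by
  rw [e1, e1, e1, ← Complex.exp_add]
  congr 1
  push_cast
  ring

private lemma continuous_e1 : Continuous e1 := by
  unfold e1
  fun_prop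

private lemma continuous_Fi3 {m : ℕ} {g : X m → ℂ} (hg : Integrable g) : Continuous (Fi3 g) := by
  unfold Fi3
  refine continuous_of_dominated (bound := fun z => ‖g z‖) ?_ ?_ hg.norm ?_
  · intro x
    refine AEStronglyMeasurable.mul ?_ hg.1
    refine Continuous.aestronglyMeasurable ?_
    refine continuous_e1.comp ?_
    unfold pr3
    fun_prop
  · intro x
    refine Eventually.of_forall fun z => ?_
    rw [norm_mul, norm_e1, one_mul]
  · refine Eventually.of_forall fun z => ?_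
    refine Continuous.mul ?_ continuous_const
    refine continuous_e1.comp ?_
    unfold pr3
    fun_prop

private lemma conv_eq {m : ℕ} {R : ℝ} {ψ g : X m → ℂ} (hψ : Integrable ψ) (hg : Integrable g)
    (h1 : ∀ z : X m, ‖z‖ ≤ R → ∫ y, e1 (-pr3 y z) * ψ y = 1) (hs : ∀ z, g z ≠ 0 → ‖z‖ ≤ R)
    (a : X m) : Fi3 g a = ∫ y, Fi3 g (a - y) * ψ y := by
  have hint : Integrable (Function.uncurry fun (y z : X m) =>
      e1 (pr3 (a - y) z) * (ψ y * g z)) (volume.prod volume) := by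
    refine Integrable.bdd_mul (c := 1) (hψ.mul_prod hg) ?_ ?_
    · refine Continuous.aestronglyMeasurable ?_
      refine continuous_e1.comp ?_
      unfold pr3
      fun_prop
    · exact Eventually.of_forall fun p => (norm_e1 _).le
  calc Fi3 g a = ∫ z, ∫ y, e1 (pr3 (a - y) z) * (ψ y * g z) := by
        unfold Fi3
        congr 1
        ext z
        by_cases hz : g z = 0
        · simp [hz]
        · have h2 : ∀ y, e1 (pr3 (a - y) z) * (ψ y * g z) =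
              (e1 (pr3 a z) * g z) * (e1 (-pr3 y z) * ψ y) := by
            intro y
            have h3 : pr3 (a - y) z = pr3 a z + -pr3 y z := by
              simp only [pr3, Prod.fst_sub, Prod.snd_sub, inner_sub_left]
              ring
            rw [h3, e1_add]
            ring
          simp_rw [h2]
          rw [integral_const_mul, h1 z (hs z hz), mul_one]
    _ = ∫ y, ∫ z, e1 (pr3 (a - y) z) * (ψ y * g z) := (integral_integral_swap hint).symm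
    _ = ∫ y, Fi3 g (a - y) * ψ y := by
        congr 1
        ext y
        unfold Fi3
        rw [← integral_mul_const]
        congr 1
        ext z
        ring

private lemma holder_w {α : Type} [MeasurableSpace α] {μ : Measure α} {q : ℝ} (hq : 1 ≤ q)
    {F G : α → ENNReal} (hF : AEMeasurable F μ) (hG : AEMeasurable G μ) :
    (∫⁻ y, F y * G y ∂μ) ^ q ≤ (∫⁻ y, G y ∂μ) ^ (q - 1) * ∫⁻ y, F y ^ q * G y ∂μ := by
  rcases hq.eq_or_lt with h1 | h1
  · subst h1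
    simp
  · have hq0 : 0 < q := by linarith
    have hpq : q.HolderConjugate (q / (q - 1)) := by
      exact Real.HolderConjugate.conjExponent h1
    have hq' : 0 < q / (q - 1) := div_pos hq0 (by linarith)
    have hsum : 1 / q + 1 / (q / (q - 1)) = 1 := by
      have : q - 1 ≠ 0 := by linarith
      field_simp
      ring
    have h2 : ∫⁻ y, F y * G y ∂μ =
        ∫⁻ y, ((fun y => F y * G y ^ (1 / q)) * fun y => G y ^ (1 / (q / (q - 1)))) y ∂μ := by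
      congr 1
      ext y
      simp only [Pi.mul_apply]
      rw [mul_assoc, ← ENNReal.rpow_add_of_nonneg _ _ (by positivity) (by positivity), hsum,
        ENNReal.rpow_one]
    have h3 : ∫⁻ y, ((fun y => F y * G y ^ (1 / q)) * fun y => G y ^ (1 / (q / (q - 1)))) y ∂μ ≤
        (∫⁻ y, (F y * G y ^ (1 / q)) ^ q ∂μ) ^ (1 / q) *
          (∫⁻ y, (G y ^ (1 / (q / (q - 1)))) ^ (q / (q - 1)) ∂μ) ^ (1 / (q / (q - 1))) :=
      ENNReal.lintegral_mul_le_Lp_mul_Lq μ hpq (hF.mul (hG.pow_const (1 / q)))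
        (hG.pow_const (1 / (q / (q - 1))))
    rw [← h2] at h3
    have h4 : ∀ y, (F y * G y ^ (1 / q)) ^ q = F y ^ q * G y := by
      intro y
      rw [ENNReal.mul_rpow_of_nonneg _ _ hq0.le, ← ENNReal.rpow_mul, one_div,
        inv_mul_cancel₀ hq0.ne', ENNReal.rpow_one]
    have h5 : ∀ y, (G y ^ (1 / (q / (q - 1)))) ^ (q / (q - 1)) = G y := by
      intro y
      rw [← ENNReal.rpow_mul, one_div, inv_mul_cancel₀ hq'.ne', ENNReal.rpow_one]
    simp_rw [h5] at h3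
    calc (∫⁻ y, F y * G y ∂μ) ^ q
        ≤ ((∫⁻ y, (F y * G y ^ (1 / q)) ^ q ∂μ) ^ (1 / q) *
            (∫⁻ y, G y ∂μ) ^ (1 / (q / (q - 1)))) ^ q := by
          gcongr
      _ = (∫⁻ y, G y ∂μ) ^ (q - 1) * ∫⁻ y, F y ^ q * G y ∂μ := by
          simp_rw [h4]
          rw [ENNReal.mul_rpow_of_nonneg _ _ hq0.le, ← ENNReal.rpow_mul, ← ENNReal.rpow_mul,
            one_div, inv_mul_cancel₀ hq0.ne', ENNReal.rpow_one, mul_comm]
          congr 2
          have : q - 1 ≠ 0 := by linarith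
          rw [one_div_div, div_mul_cancel₀ _ hq0.ne']

private lemma haarX' (m : ℕ) [(volume : Measure (X m)).IsAddHaarMeasure] :
    (volume : Measure (X m)).IsNegInvariant := by
  have : (volume : Measure (X m)).Regular := inferInstance
  exact Measure.IsAddHaarMeasure.isNegInvariant_of_regular (μ := (volume : Measure (X m)))

private lemma haarX (m : ℕ) : (volume : Measure (X m)).IsAddHaarMeasure := by
  have h1 : (volume : Measure (ℝ × ℝ)).IsAddHaarMeasure := by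
    rw [Measure.volume_eq_prod]
    infer_instance
  rw [Measure.volume_eq_prod]
  infer_instance

/-- sampling of a band limited function at separated points (Plancherel-Polya) -/
theorem pp (m : ℕ) (q : ℝ) (hq : 1 ≤ q) (δ : ℝ) (hδ : 0 < δ) (R : ℝ) : ∃ C : ℝ, 0 < C ∧
    ∀ g : X m → ℂ, Integrable g → (∀ z, g z ≠ 0 → ‖z‖ ≤ R) → ∀ T : Finset (X m),
    (∀ p ∈ T, ∀ q' ∈ T, p ≠ q' → δ ≤ ‖p - q'‖) →
    ∑ a ∈ T, ‖Fi3 g a‖ₑ ^ q ≤ ENNReal.ofReal C * ∫⁻ x : X m, ‖Fi3 g x‖ₑ ^ q := by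
  have i1 := haarX m
  have i2 := haarX' m
  obtain ⟨ψ, hψc, hψi, ⟨C1, hC1, hψd⟩, hψ1⟩ := exists_psi m R
  obtain ⟨C2, hC2, hsep⟩ := sum_sep m δ hδ
  set K : ENNReal := ∫⁻ y, ‖ψ y‖ₑ with hK
  have hKtop : K ≠ ⊤ := hψi.2.ne
  refine ⟨(K.toReal + 1) ^ (q - 1) * (C1 * C2), by positivity, fun g hg hs T hT => ?_⟩
  have hF : AEMeasurable (fun y => ‖Fi3 g y‖ₑ) (volume : Measure (X m)) :=
    (continuous_Fi3 hg).aestronglyMeasurable.enorm
  have hG : ∀ a : X m, AEMeasurable (fun y => ‖ψ (a - y)‖ₑ) (volume : Measure (X m)) := by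
    intro a
    exact (hψc.comp (continuous_const.sub continuous_id)).aestronglyMeasurable.enorm
  have hKa : ∀ a : X m, ∫⁻ y, ‖ψ (a - y)‖ₑ = K := by
    intro a
    exact lintegral_sub_left_eq_self (fun y => ‖ψ y‖ₑ) a
  have h1 : ∀ a : X m, ‖Fi3 g a‖ₑ ≤ ∫⁻ y, ‖Fi3 g y‖ₑ * ‖ψ (a - y)‖ₑ := by
    intro a
    have h2 : ∫⁻ y, ‖Fi3 g y‖ₑ * ‖ψ (a - y)‖ₑ = ∫⁻ y, ‖Fi3 g (a - y)‖ₑ * ‖ψ y‖ₑ := by
      rw [← lintegral_sub_left_eq_self (fun y => ‖Fi3 g y‖ₑ * ‖ψ (a - y)‖ₑ) a]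
      simp_rw [sub_sub_cancel]
    rw [h2, conv_eq hψi hg hψ1 hs a]
    refine (enorm_integral_le_lintegral_enorm _).trans_eq ?_
    simp_rw [enorm_mul]
  have h3 : ∀ a : X m, ‖Fi3 g a‖ₑ ^ q ≤
      K ^ (q - 1) * ∫⁻ y, ‖Fi3 g y‖ₑ ^ q * ‖ψ (a - y)‖ₑ := by
    intro a
    calc ‖Fi3 g a‖ₑ ^ q ≤ (∫⁻ y, ‖Fi3 g y‖ₑ * ‖ψ (a - y)‖ₑ) ^ q := by
          gcongr
          exact h1 a
      _ ≤ _ := by
          have := holder_w hq hF (hG a)
          rwa [hKa] at this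
  have hsum : ∀ y : X m, ∑ a ∈ T, ‖ψ (a - y)‖ₑ ≤ ENNReal.ofReal (C1 * C2) := by
    intro y
    calc ∑ a ∈ T, ‖ψ (a - y)‖ₑ ≤
          ∑ a ∈ T, ENNReal.ofReal (C1 * (1 / (1 + ‖a - y‖) ^ (m + 3))) := by
          refine Finset.sum_le_sum fun a _ => ?_
          rw [← ofReal_norm_eq_enorm]
          refine ENNReal.ofReal_le_ofReal ((hψd _).trans_eq ?_)
          ring
      _ = ENNReal.ofReal (C1 * ∑ a ∈ T, 1 / (1 + ‖a - y‖) ^ (m + 3)) := by
          rw [← ENNReal.ofReal_sum_of_nonneg (fun a _ => by positivity), Finset.mul_sum]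
      _ ≤ ENNReal.ofReal (C1 * C2) := by
          refine ENNReal.ofReal_le_ofReal ?_
          gcongr
          exact hsep T hT y
  calc ∑ a ∈ T, ‖Fi3 g a‖ₑ ^ q
      ≤ ∑ a ∈ T, K ^ (q - 1) * ∫⁻ y, ‖Fi3 g y‖ₑ ^ q * ‖ψ (a - y)‖ₑ :=
        Finset.sum_le_sum fun a _ => h3 a
    _ = K ^ (q - 1) * ∫⁻ y, ‖Fi3 g y‖ₑ ^ q * ∑ a ∈ T, ‖ψ (a - y)‖ₑ := by
        have h4 : ∀ y : X m, ‖Fi3 g y‖ₑ ^ q * ∑ a ∈ T, ‖ψ (a - y)‖ₑ =
            ∑ a ∈ T, ‖Fi3 g y‖ₑ ^ q * ‖ψ (a - y)‖ₑ := fun y => Finset.mul_sum _ _ _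
        simp_rw [h4]
        rw [lintegral_finset_sum' T
          (f := fun a y => ‖Fi3 g y‖ₑ ^ q * ‖ψ (a - y)‖ₑ)
          (fun a _ => (hF.pow_const q).mul (hG a)), Finset.mul_sum]
    _ ≤ K ^ (q - 1) * ∫⁻ y, ‖Fi3 g y‖ₑ ^ q * ENNReal.ofReal (C1 * C2) := by
        gcongr with y
        exact hsum y
    _ = K ^ (q - 1) * ENNReal.ofReal (C1 * C2) * ∫⁻ y, ‖Fi3 g y‖ₑ ^ q := by
        rw [lintegral_mul_const' _ _ ENNReal.ofReal_ne_top]
        ring
    _ ≤ ENNReal.ofReal ((K.toReal + 1) ^ (q - 1) * (C1 * C2)) * ∫⁻ y, ‖Fi3 g y‖ₑ ^ q := by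
        refine mul_le_mul' ?_ le_rfl
        rw [ENNReal.ofReal_mul (p := (K.toReal + 1) ^ (q - 1)) (q := C1 * C2) (by positivity)]
        have h5 : K ^ (q - 1) ≤ ENNReal.ofReal ((K.toReal + 1) ^ (q - 1)) := by
          rw [← ENNReal.ofReal_rpow_of_pos (by positivity)]
          refine ENNReal.rpow_le_rpow ?_ (by linarith)
          calc K = ENNReal.ofReal K.toReal := (ENNReal.ofReal_toReal hKtop).symm
            _ ≤ ENNReal.ofReal (K.toReal + 1) := ENNReal.ofReal_le_ofReal (by linarith)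
        exact mul_le_mul' h5 le_rfl

end Pool.LibST49
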