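import Pool.Agent.LibST49.P5

/-
PLAN (D2, MEDIUM). lintegral of F(Lk k c P) dP = 2^(k(m+2)) lintegral F: Lk k c is a linear map = (scaling by 2^-k, 4^-k, 1) after shears; use Measure.addHaar_image / map_linearMap with the determinant,
or Fubini: fixed s: substitute x -> 2^-k (x + 2 s c) (factor 2^(km)), t -> t + ... (translation), s -> 4^-k s (factor 4^k). Then with Y = Lk k c P:
|SUM e_n Φ(nd h n - Y)|^q <= (SUM |Φ(nd h n - Y)|)^(q-1) SUM |e_n|^q |Φ(nd h n - Y)| (inner_le_Lp_mul_Lq / power mean, q >= 1), SUM_n |Φ| <= C (Rp.dec with m+3, sum_nd), INT |Φ(nd - Y)| dY <= C.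
-/

set_option autoImplicit false

noncomputable section

open MeasureTheory Metric Set Filter

namespace Pool.LibST49

open Pool.LibSR53

private theorem D2_smul {E' : Type*} [NormedAddCommGroup E'] [NormedSpace ℝ E']
    [MeasurableSpace E'] [BorelSpace E'] [FiniteDimensional ℝ E'] (μ : Measure E')
    [μ.IsAddHaarMeasure] (r : ℝ) (hr : 0 < r) (f : E' → ENNReal) (hf : Measurable f) :
    ∫⁻ x, f (r • x) ∂μ = ENNReal.ofReal ((r ^ Module.finrank ℝ E')⁻¹) * ∫⁻ x, f x ∂μ := by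
  have h := Measure.map_addHaar_smul μ hr.ne'
  have h2 : ∫⁻ x, f (r • x) ∂μ = ∫⁻ x, f x ∂(Measure.map (r • ·) μ) :=
    (lintegral_map hf (measurable_const_smul r)).symm
  rw [h2, h, lintegral_smul_measure, abs_of_pos (by positivity), smul_eq_mul]

private theorem D2_prod3 {m : ℕ} (G : X m → ENNReal) (hG : Measurable G) :
    ∫⁻ Z : X m, G Z = ∫⁻ x : E m, ∫⁻ s : ℝ, ∫⁻ t : ℝ, G (x, (s, t)) := by
  have h1 : ∫⁻ Z : X m, G Z = ∫⁻ x : E m, ∫⁻ y : ℝ × ℝ, G (x, y) :=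
    lintegral_prod G hG.aemeasurable
  rw [h1]
  refine lintegral_congr fun x => ?_
  exact lintegral_prod (fun y : ℝ × ℝ => G (x, y)) (hG.comp measurable_prodMk_left).aemeasurable

theorem lintegral_Lk {m : ℕ} (k : ℕ) (c : E m) (F : X m → ENNReal) (hF : Measurable F) :
    ∫⁻ Z : X m, F (Lk k c Z) = ENNReal.ofReal ((2 : ℝ) ^ (k * (m + 2))) * ∫⁻ Y : X m, F Y := by
  have hL : Measurable (fun Z : X m => F (Lk k c Z)) := hF.comp (continuous_Lk k c).measurable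
  rw [D2_prod3 _ hL, D2_prod3 F hF]
  have hH : Measurable (fun z : E m × ℝ => ∫⁻ t : ℝ, F (z.1, (z.2, t))) := by
    apply Measurable.lintegral_prod_right'
      (f := fun w : (E m × ℝ) × ℝ => F (w.1.1, (w.1.2, w.2)))
    exact hF.comp (by fun_prop)
  have e1 : ∀ (x : E m) (s : ℝ), ∫⁻ t : ℝ, F (Lk k c (x, (s, t))) =
      ∫⁻ t : ℝ, F ((2 : ℝ)⁻¹ ^ k • (x + (2 * s) • c), ((4 : ℝ)⁻¹ ^ k * s, t)) := by
    intro x s
    have h := lintegral_add_right_eq_self (μ := (volume : Measure ℝ))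
      (fun t : ℝ => F ((2 : ℝ)⁻¹ ^ k • (x + (2 * s) • c), ((4 : ℝ)⁻¹ ^ k * s, t)))
      (inner ℝ x c + s * ‖c‖ ^ 2)
    rw [← h]
    refine lintegral_congr fun t => ?_
    show F ((2 : ℝ)⁻¹ ^ k • (x + (2 * s) • c), ((4 : ℝ)⁻¹ ^ k * s,
      t + inner ℝ x c + s * ‖c‖ ^ 2)) = _
    rw [add_assoc]
  have e2 : ∫⁻ x : E m, ∫⁻ s : ℝ, ∫⁻ t : ℝ, F (Lk k c (x, (s, t))) =
      ∫⁻ x : E m, ∫⁻ s : ℝ, ∫⁻ t : ℝ,
        F ((2 : ℝ)⁻¹ ^ k • (x + (2 * s) • c), ((4 : ℝ)⁻¹ ^ k * s, t)) :=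
    lintegral_congr fun x => lintegral_congr fun s => e1 x s
  rw [e2]
  have hm2 : Measurable (fun z : E m × ℝ => ∫⁻ t : ℝ,
      F ((2 : ℝ)⁻¹ ^ k • (z.1 + (2 * z.2) • c), ((4 : ℝ)⁻¹ ^ k * z.2, t))) :=
    hH.comp (g := fun z : E m × ℝ => ∫⁻ t : ℝ, F (z.1, (z.2, t)))
      (f := fun z : E m × ℝ => ((2 : ℝ)⁻¹ ^ k • (z.1 + (2 * z.2) • c), (4 : ℝ)⁻¹ ^ k * z.2))
      (by fun_prop)
  rw [lintegral_lintegral_swap hm2.aemeasurable, lintegral_lintegral_swap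
    (f := fun (x : E m) (s : ℝ) => ∫⁻ t : ℝ, F (x, (s, t))) hH.aemeasurable]
  have e3 : ∀ s : ℝ, ∫⁻ x : E m, ∫⁻ t : ℝ,
      F ((2 : ℝ)⁻¹ ^ k • (x + (2 * s) • c), ((4 : ℝ)⁻¹ ^ k * s, t)) =
      ENNReal.ofReal ((2 : ℝ) ^ (k * m)) * ∫⁻ x : E m, ∫⁻ t : ℝ,
        F (x, ((4 : ℝ)⁻¹ ^ k * s, t)) := by
    intro s
    have h := lintegral_add_right_eq_self (μ := (volume : Measure (E m)))
      (fun x : E m => ∫⁻ t : ℝ, F ((2 : ℝ)⁻¹ ^ k • x, ((4 : ℝ)⁻¹ ^ k * s, t))) ((2 * s) • c)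
    rw [h]
    have h2 := D2_smul (volume : Measure (E m)) ((2 : ℝ)⁻¹ ^ k) (by positivity)
      (fun x : E m => ∫⁻ t : ℝ, F (x, ((4 : ℝ)⁻¹ ^ k * s, t)))
      (hH.comp (g := fun z : E m × ℝ => ∫⁻ t : ℝ, F (z.1, (z.2, t)))
        (f := fun x : E m => (x, (4 : ℝ)⁻¹ ^ k * s)) (by fun_prop))
    rw [h2]
    congr 2
    rw [finrank_euclideanSpace_fin, ← pow_mul, inv_pow, inv_inv]
  rw [lintegral_congr e3]
  have hK : Measurable (fun s : ℝ => ∫⁻ x : E m, ∫⁻ t : ℝ, F (x, (s, t))) := by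
    have h := Measurable.lintegral_prod_left' (f := fun z : E m × ℝ => ∫⁻ t : ℝ, F (z.1, (z.2, t)))
      (μ := (volume : Measure (E m))) hH
    exact h
  have hK' : Measurable (fun s : ℝ => ∫⁻ x : E m, ∫⁻ t : ℝ, F (x, ((4 : ℝ)⁻¹ ^ k * s, t))) :=
    hK.comp (g := fun s : ℝ => ∫⁻ x : E m, ∫⁻ t : ℝ, F (x, (s, t)))
      (f := fun s : ℝ => (4 : ℝ)⁻¹ ^ k * s) (by fun_prop)
  rw [lintegral_const_mul _ hK']
  have h4 := D2_smul (volume : Measure ℝ) ((4 : ℝ)⁻¹ ^ k) (by positivity)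
    (fun s : ℝ => ∫⁻ x : E m, ∫⁻ t : ℝ, F (x, (s, t))) hK
  simp only [smul_eq_mul] at h4
  rw [h4, ← mul_assoc, ← ENNReal.ofReal_mul (by positivity)]
  congr 2
  rw [Module.finrank_self, pow_one, inv_pow, inv_inv, show (4 : ℝ) = 2 ^ 2 by norm_num,
    ← pow_mul, ← pow_add]
  congr 1
  ring

/-- synthesis bound -/
theorem synth {m : ℕ} {h v0 v1 ρ R : ℝ} {Φ Φh : X m → ℂ} (hR : Rp h v0 v1 ρ R Φ Φh) (q : ℝ)
    (hq : 1 ≤ q) : ∃ C : ℝ, 0 < C ∧ ∀ (k : ℕ) (c : E m) (T : Finset (Zn m)) (e : Zn m → ℂ),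
    ∫⁻ Z : X m, ‖∑ n ∈ T, e n * Φ (nd h n - Lk k c Z)‖ₑ ^ q ≤
      ENNReal.ofReal (C * 2 ^ (k * (m + 2))) * ∑ n ∈ T, ‖e n‖ₑ ^ q := by
  have hH0 : ((volume : Measure ℝ).prod (volume : Measure ℝ)).IsAddHaarMeasure := inferInstance
  have hH1 : ((volume : Measure (E m)).prod
    ((volume : Measure ℝ).prod (volume : Measure ℝ))).IsAddHaarMeasure := inferInstance
  have hH2 : (volume : Measure (X m)).IsAddHaarMeasure := hH1
  have hH3 : (volume : Measure (X m)).IsNegInvariant := by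
    have h0 : (volume : Measure (X m)).Regular := inferInstanceAs
      (Measure.Regular ((volume : Measure (E m)).prod
        ((volume : Measure ℝ).prod (volume : Measure ℝ))))
    exact Measure.IsAddHaarMeasure.isNegInvariant_of_regular _
  obtain ⟨C0, hC0, hsum⟩ := sum_nd m h hR.hpos
  obtain ⟨C1, hC1, hdec⟩ := hR.dec (m + 3)
  have hq0 : 0 < q := by linarith
  -- the sum of the absolute values
  have hw : ∀ (T : Finset (Zn m)) (a : X m), ∑ n ∈ T, ‖Φ (nd h n - a)‖ₑ ≤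
      ENNReal.ofReal (C1 * C0) := by
    intro T a
    have h1 : ∀ n ∈ T, ‖Φ (nd h n - a)‖ₑ ≤
        ENNReal.ofReal (C1 * (1 / (1 + ‖nd h n - a‖) ^ (m + 3))) := by
      intro n _
      rw [← ofReal_norm]
      apply ENNReal.ofReal_le_ofReal
      rw [mul_one_div]
      exact hdec _
    refine le_trans (Finset.sum_le_sum h1) ?_
    rw [← ENNReal.ofReal_sum_of_nonneg (fun n _ => by positivity), ← Finset.mul_sum]
    exact ENNReal.ofReal_le_ofReal (mul_le_mul_of_nonneg_left (hsum T a) hC1.le)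
  -- the integral of the absolute value
  have hfin : ∫⁻ Y : X m, ‖Φ Y‖ₑ < ⊤ := by
    have hint : Integrable (fun Y : X m => (1 + ‖Y‖) ^ (-((m : ℝ) + 3))) := by
      apply integrable_one_add_norm
      have : Module.finrank ℝ (X m) = m + 2 := by
        rw [Module.finrank_prod, Module.finrank_prod, finrank_euclideanSpace_fin,
          Module.finrank_self]
      rw [this]
      push_cast
      linarith
    have h1 : ∀ Y : X m, ‖Φ Y‖ₑ ≤ ENNReal.ofReal C1 *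
        ‖((1 + ‖Y‖) ^ (-((m : ℝ) + 3)) : ℝ)‖ₑ := by
      intro Y
      have hpos : 0 < 1 + ‖Y‖ := by positivity
      have h2 : (1 + ‖Y‖) ^ (-((m : ℝ) + 3)) = 1 / (1 + ‖Y‖) ^ (m + 3) := by
        rw [Real.rpow_neg hpos.le, one_div]
        congr 1
        have : (m : ℝ) + 3 = ((m + 3 : ℕ) : ℝ) := by push_cast; ring
        rw [this, Real.rpow_natCast]
      rw [h2, ← ofReal_norm, ← ofReal_norm, ← ENNReal.ofReal_mul hC1.le]
      apply ENNReal.ofReal_le_ofReal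
      rw [Real.norm_of_nonneg (by positivity), mul_one_div]
      exact hdec Y
    refine lt_of_le_of_lt (lintegral_mono h1) ?_
    rw [lintegral_const_mul' _ _ ENNReal.ofReal_ne_top]
    exact ENNReal.mul_lt_top ENNReal.ofReal_lt_top hint.2
  set B : ℝ := (∫⁻ Y : X m, ‖Φ Y‖ₑ).toReal with hB
  have hB0 : 0 ≤ B := ENNReal.toReal_nonneg
  have hBe : ∫⁻ Y : X m, ‖Φ Y‖ₑ = ENNReal.ofReal B := (ENNReal.ofReal_toReal hfin.ne).symm
  have hΦm : Measurable (fun Y : X m => ‖Φ Y‖ₑ) := hR.cont.enorm.measurable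
  have hone : ∀ (k : ℕ) (c : E m) (a : X m), ∫⁻ Z : X m, ‖Φ (a - Lk k c Z)‖ₑ =
      ENNReal.ofReal ((2 : ℝ) ^ (k * (m + 2)) * B) := by
    intro k c a
    have h1 := lintegral_Lk k c (fun Y : X m => ‖Φ (a - Y)‖ₑ)
      (hΦm.comp (g := fun Y : X m => ‖Φ Y‖ₑ) (f := fun Y : X m => a - Y) (by fun_prop))
    rw [h1, lintegral_sub_left_eq_self (fun Y : X m => ‖Φ Y‖ₑ) a, hBe,
      ← ENNReal.ofReal_mul (by positivity)]
  refine ⟨(C1 * C0) ^ (q - 1) * B + 1, by positivity, ?_⟩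
  intro k c T e
  have hpt : ∀ Z : X m, ‖∑ n ∈ T, e n * Φ (nd h n - Lk k c Z)‖ₑ ^ q ≤
      ENNReal.ofReal ((C1 * C0) ^ (q - 1)) *
        ∑ n ∈ T, ‖e n‖ₑ ^ q * ‖Φ (nd h n - Lk k c Z)‖ₑ := by
    intro Z
    have h1 : ‖∑ n ∈ T, e n * Φ (nd h n - Lk k c Z)‖ₑ ≤
        ∑ n ∈ T, ‖Φ (nd h n - Lk k c Z)‖ₑ * ‖e n‖ₑ := by
      refine le_trans (enorm_sum_le _ _) (Finset.sum_le_sum fun n _ => ?_)
      rw [enorm_mul, mul_comm]
    have h2 := ENNReal.inner_le_weight_mul_Lp_of_nonneg T hq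
      (fun n => ‖Φ (nd h n - Lk k c Z)‖ₑ) (fun n => ‖e n‖ₑ)
    have h3 := ENNReal.rpow_le_rpow (le_trans h1 h2) hq0.le
    refine le_trans h3 ?_
    rw [ENNReal.mul_rpow_of_nonneg _ _ hq0.le, ← ENNReal.rpow_mul, ← ENNReal.rpow_mul,
      inv_mul_cancel₀ hq0.ne', ENNReal.rpow_one, sub_mul, one_mul, inv_mul_cancel₀ hq0.ne']
    refine mul_le_mul' ?_ (le_of_eq (Finset.sum_congr rfl fun n _ => mul_comm _ _))
    rw [← ENNReal.ofReal_rpow_of_nonneg (by positivity) (by linarith)]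
    exact ENNReal.rpow_le_rpow (hw T _) (by linarith)
  refine le_trans (lintegral_mono hpt) ?_
  rw [lintegral_const_mul' _ _ ENNReal.ofReal_ne_top, lintegral_finsetSum' T (fun n _ => by
    have h5 : Measurable (fun Z : X m => ‖Φ (nd h n - Lk k c Z)‖ₑ) :=
      hΦm.comp (g := fun Y : X m => ‖Φ Y‖ₑ) (f := fun Z : X m => nd h n - Lk k c Z)
        ((continuous_const.sub (continuous_Lk k c)).measurable)
    exact (h5.const_mul _).aemeasurable)]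
  have h6 : ∀ n ∈ T, ∫⁻ Z : X m, ‖e n‖ₑ ^ q * ‖Φ (nd h n - Lk k c Z)‖ₑ =
      ENNReal.ofReal ((2 : ℝ) ^ (k * (m + 2)) * B) * ‖e n‖ₑ ^ q := by
    intro n _
    have h5 : Measurable (fun Z : X m => ‖Φ (nd h n - Lk k c Z)‖ₑ) :=
      hΦm.comp (g := fun Y : X m => ‖Φ Y‖ₑ) (f := fun Z : X m => nd h n - Lk k c Z)
        ((continuous_const.sub (continuous_Lk k c)).measurable)
    rw [lintegral_const_mul _ h5, hone, mul_comm]
  rw [Finset.sum_congr rfl h6, ← Finset.mul_sum, ← mul_assoc, ← ENNReal.ofReal_mul (by positivity)]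
  refine mul_le_mul_left (ENNReal.ofReal_le_ofReal ?_) _
  have h8 : (0 : ℝ) < 2 ^ (k * (m + 2)) := by positivity
  have h9 : ((C1 * C0) ^ (q - 1) * B + 1) * 2 ^ (k * (m + 2)) -
      (C1 * C0) ^ (q - 1) * (2 ^ (k * (m + 2)) * B) = 2 ^ (k * (m + 2)) := by ring
  linarith

end Pool.LibST49
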