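import Pool.Agent.LibST49.A1

/-
PLAN (D3, MEDIUM). conj (Φ(nd n - Lk Z)) = conj INT e1(pr3 (nd n - Lk Z) y) Φh y = INT e1(pr3 (Lk Z) y) e1(-pr3 (nd n) y) conj(Φh y) dy = INT e1(pr3 Z (Mp k c y)) G y dy (pr3_Lk), with
G y = SUM_n conj(e n) e1(-pr3 (nd n) y) conj(Φh y), integrable. Change variables z = Mp k c y: Mp is a bijective linear map with determinant 2^(-km) 4^(-k); inverse
y = (2^k (z.1 - z.2.2 c), 4^k (z.2.1 - 2 <z.1,c> + z.2.2 |c|^2), z.2.2) (check: z.1 = 2^-k y.1 + z.2.2 c). g z = 2^(k(m+2)) G(Mp^-1 z) (same determinant as in D2: you may prove it the same way).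
Support: y = Mp^-1 z in supp Φh: v0/2 <= z.2.2 <= 2 v1, ‖z.1 - z.2.2 c‖ = 2^-k ‖y.1‖ <= R 2^-k, and z.2.1 z.2.2 - ‖z.1‖^2 = 4^-k (y.2.1 y.2.2 - ‖y.1‖^2): <= 4^-k (2 R v1 + R^2). A = R + 2 R v1 + R^2
(R may be taken >= 0 here: if R < 0 then Φh = 0 and g = 0 works with A = 0... use A := |R| + 2|R||v1| + R^2).
-/

set_option autoImplicit false

noncomputable section

open MeasureTheory Metric Set Filter

namespace Pool.LibST49

open Pool.LibSR53

private theorem d3_add (a b : ℝ) : e1 (a + b) = e1 a * e1 b := by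
  unfold e1
  rw [← Complex.exp_add]
  congr 1
  push_cast
  ring

private theorem d3_conj (a : ℝ) : (starRingEnd ℂ) (e1 a) = e1 (-a) := by
  unfold e1
  rw [← Complex.exp_conj]
  congr 1
  simp only [map_mul, Complex.conj_I, Complex.conj_ofReal, map_ofNat]
  push_cast
  ring

private theorem d3_norm (a : ℝ) : ‖e1 a‖ = 1 := by
  unfold e1
  rw [show 2 * (Real.pi : ℂ) * Complex.I * (a : ℂ) = ((2 * Real.pi * a : ℝ) : ℂ) * Complex.I by
    push_cast; ring]
  exact Complex.norm_exp_ofReal_mul_I _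

private theorem d3_cont : Continuous e1 := by
  unfold e1
  exact Complex.continuous_exp.comp (continuous_const.mul Complex.continuous_ofReal)

private theorem d3_pr3 {m : ℕ} (x : X m) : Continuous (fun z : X m => pr3 x z) := by
  unfold pr3
  fun_prop

private theorem d3_equiv {m : ℕ} (k : ℕ) (c : E m) : ∃ M : X m ≃L[ℝ] X m,
    (∀ y, M y = Mp k c y) ∧ True := by
  have h2 : (2 : ℝ)⁻¹ ^ k * 2 ^ k = 1 := by
    rw [← mul_pow]
    norm_num
  have h4 : (4 : ℝ)⁻¹ ^ k * 4 ^ k = 1 := by
    rw [← mul_pow]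
    norm_num
  let L : X m ≃ₗ[ℝ] X m :=
    { toFun := Mp k c
      invFun := fun z => ((2 : ℝ) ^ k • (z.1 - z.2.2 • c),
        (4 : ℝ) ^ k * (z.2.1 - 2 * inner ℝ z.1 c + z.2.2 * ‖c‖ ^ 2), z.2.2)
      map_add' := by
        intro x y
        unfold Mp
        refine Prod.ext ?_ (Prod.ext ?_ ?_)
        · simp only [Prod.fst_add, Prod.snd_add, smul_add, add_smul]
          abel
        · simp only [Prod.fst_add, Prod.snd_add, inner_add_left]
          ring
        · simp only [Prod.snd_add]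
      map_smul' := by
        intro r x
        unfold Mp
        refine Prod.ext ?_ (Prod.ext ?_ ?_)
        · simp only [Prod.smul_fst, Prod.smul_snd, RingHom.id_apply, smul_add, smul_smul,
            smul_eq_mul]
          congr 2
          ring
        · simp only [Prod.smul_fst, Prod.smul_snd, RingHom.id_apply, smul_eq_mul,
            inner_smul_left, conj_trivial]
          ring
        · simp only [Prod.smul_snd, RingHom.id_apply]
      left_inv := by
        intro y
        unfold Mp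
        refine Prod.ext ?_ (Prod.ext ?_ ?_)
        · simp only [add_sub_cancel_right, smul_smul]
          rw [mul_comm, h2, one_smul]
        · simp only [inner_add_left, inner_smul_left, conj_trivial, real_inner_self_eq_norm_sq]
          linear_combination y.2.1 * h4
        · rfl
      right_inv := by
        intro z
        unfold Mp
        refine Prod.ext ?_ (Prod.ext ?_ ?_)
        · simp only [smul_smul]
          rw [h2, one_smul, sub_add_cancel]
        · simp only [inner_sub_left, inner_smul_left, conj_trivial, real_inner_self_eq_norm_sq]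
          linear_combination (z.2.1 - 2 * inner ℝ z.1 c + z.2.2 * ‖c‖ ^ 2) * h4 +
            2 * (inner ℝ z.1 c - z.2.2 * ‖c‖ ^ 2) * h2
        · rfl }
  exact ⟨L.toContinuousLinearEquiv, fun y => rfl, trivial⟩

/-- the dual functions are Fourier integrals supported in sectors of the cone -/
theorem dual_fs {m : ℕ} {h v0 v1 ρ R : ℝ} {Φ Φh : X m → ℂ} (hR : Rp h v0 v1 ρ R Φ Φh)
    (h0 : 0 < v0) : ∃ A : ℝ, 0 ≤ A ∧ ∀ (k : ℕ) (c : E m) (T : Finset (Zn m)) (e : Zn m → ℂ),
    ∃ g : X m → ℂ, Integrable g ∧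
      (∀ z, g z ≠ 0 → v0 / 2 ≤ z.2.2 ∧ z.2.2 ≤ 2 * v1 ∧ ‖z.1 - z.2.2 • c‖ ≤ A * (2 : ℝ)⁻¹ ^ k ∧
        |z.2.1 * z.2.2 - ‖z.1‖ ^ 2| ≤ A * (4 : ℝ)⁻¹ ^ k) ∧
      ∀ Z : X m, (starRingEnd ℂ) (∑ n ∈ T, e n * Φ (nd h n - Lk k c Z)) = Fi3 g Z := by
  refine ⟨|R| + 2 * |R| * |v1| + R ^ 2, by positivity, ?_⟩
  intro k c T e
  obtain ⟨M, hM, hMi⟩ := d3_equiv (m := m) k c
  -- the density before the change of variables
  obtain ⟨G, hG⟩ : ∃ G : X m → ℂ, G = fun y => ∑ n ∈ T,
      (starRingEnd ℂ) (e n) * (e1 (-pr3 (nd h n) y) * (starRingEnd ℂ) (Φh y)) := ⟨_, rfl⟩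
  have hint : ∀ (r : ℂ) (φ : X m → ℝ), Continuous φ →
      Integrable (fun y => r * (e1 (φ y) * (starRingEnd ℂ) (Φh y))) := by
    intro r φ hφ
    refine Integrable.const_mul ?_ r
    have hc : Integrable (fun y => (starRingEnd ℂ) (Φh y)) := by
      refine hR.int.norm.mono' ?_ (Filter.Eventually.of_forall fun y => ?_)
      · exact Complex.continuous_conj.comp_aestronglyMeasurable hR.int.1
      · simp
    exact hc.bdd_mul (c := 1) ((d3_cont.comp hφ).aestronglyMeasurable)
      (Filter.Eventually.of_forall fun y => (d3_norm _).le)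
  have hGint : Integrable G := by
    rw [hG]
    exact integrable_finsetSum _ fun n _ => hint _ _ (d3_pr3 _).neg
  obtain ⟨κ, hκ0, hκ⟩ : ∃ κ : ℝ, 0 < κ ∧
      Measure.map M (volume : Measure (X m)) = ENNReal.ofReal κ • volume := by
    have hdet : LinearMap.det (M.toLinearEquiv : X m →ₗ[ℝ] X m) ≠ 0 :=
      (LinearEquiv.isUnit_det' M.toLinearEquiv).ne_zero
    have i1 : (volume : Measure (ℝ × ℝ)).IsAddHaarMeasure :=
      Measure.prod.instIsAddHaarMeasure _ _
    have i2 : (volume : Measure (X m)).IsAddHaarMeasure :=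
      Measure.prod.instIsAddHaarMeasure _ _
    refine ⟨|(LinearMap.det (M.toLinearEquiv : X m →ₗ[ℝ] X m))⁻¹|,
      abs_pos.2 (inv_ne_zero hdet), ?_⟩
    exact Measure.map_linearMap_addHaar_eq_smul_addHaar volume hdet
  have hemb : MeasurableEmbedding (M : X m → X m) := M.toHomeomorph.measurableEmbedding
  have hκ1 : ENNReal.ofReal κ ≠ 0 := by
    rw [Ne, ENNReal.ofReal_eq_zero, not_le]
    exact hκ0
  refine ⟨fun z => (κ : ℂ) * G (M.symm z), ?_, ?_, ?_⟩
  · refine Integrable.const_mul ?_ _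
    have h1 : Integrable (fun z => G (M.symm z)) (Measure.map M (volume : Measure (X m))) := by
      rw [hemb.integrable_map_iff]
      refine hGint.congr (Filter.Eventually.of_forall fun y => ?_)
      simp
    rw [hκ] at h1
    exact (integrable_smul_measure hκ1 ENNReal.ofReal_ne_top).1 h1
  · intro z hz
    have hy : Φh (M.symm z) ≠ 0 := by
      intro h1
      apply hz
      rw [hG]
      simp [h1]
    obtain ⟨y, hyd⟩ : ∃ y, y = M.symm z := ⟨_, rfl⟩
    have hzy : z = Mp k c y := by
      rw [hyd, ← hM]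
      simp
    rw [← hyd] at hy
    obtain ⟨h1, h2, h3, h4⟩ := hR.supp y hy
    have hR0 : 0 ≤ R := (norm_nonneg _).trans h3
    have hz22 : z.2.2 = y.2.2 := by rw [hzy]; rfl
    have hp : (0 : ℝ) < (2 : ℝ)⁻¹ ^ k := by positivity
    have hp4 : (0 : ℝ) < (4 : ℝ)⁻¹ ^ k := by positivity
    have hR1 : R ≤ |R| + 2 * |R| * |v1| + R ^ 2 := by
      have := le_abs_self R
      have : 0 ≤ 2 * |R| * |v1| := by positivity
      nlinarith [sq_nonneg R]
    refine ⟨by rw [hz22]; exact h1, by rw [hz22]; exact h2, ?_, ?_⟩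
    · have h5 : z.1 - z.2.2 • c = (2 : ℝ)⁻¹ ^ k • y.1 := by
        rw [hzy]
        unfold Mp
        simp
      rw [h5, norm_smul, Real.norm_of_nonneg hp.le, mul_comm]
      exact mul_le_mul_of_nonneg_right (h3.trans hR1) hp.le
    · have h5 : z.2.1 * z.2.2 - ‖z.1‖ ^ 2 = (4 : ℝ)⁻¹ ^ k * (y.2.1 * y.2.2 - ‖y.1‖ ^ 2) := by
        rw [hzy]
        unfold Mp
        simp only
        rw [norm_add_sq_real, norm_smul, norm_smul, inner_smul_left, inner_smul_right,
          Real.norm_of_nonneg hp.le, mul_pow, mul_pow, Real.norm_eq_abs, sq_abs, ← pow_mul,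
          show (4 : ℝ)⁻¹ ^ k = (2 : ℝ)⁻¹ ^ (k * 2) by
            rw [mul_comm k 2, pow_mul]; norm_num]
        simp only [conj_trivial]
        ring
      rw [h5, abs_mul, abs_of_pos hp4, mul_comm]
      refine mul_le_mul_of_nonneg_right ?_ hp4.le
      have hv : |y.2.2| ≤ 2 * |v1| := by
        rw [abs_of_pos (by linarith)]
        exact h2.trans (by linarith [le_abs_self v1])
      have h6 : |y.2.1 * y.2.2| ≤ R * (2 * |v1|) := by
        rw [abs_mul]
        exact mul_le_mul h4 hv (abs_nonneg _) hR0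
      have h7 : |‖y.1‖ ^ 2| ≤ R ^ 2 := by
        rw [abs_of_nonneg (by positivity)]
        exact pow_le_pow_left₀ (norm_nonneg _) h3 2
      have h8 : R * (2 * |v1|) = 2 * |R| * |v1| := by
        rw [abs_of_nonneg hR0]
        ring
      have h9 := abs_sub (y.2.1 * y.2.2) (‖y.1‖ ^ 2)
      have h10 := abs_nonneg R
      linarith
  · intro Z
    have h1 : ∀ n, (starRingEnd ℂ) (Φ (nd h n - Lk k c Z)) =
        ∫ y : X m, e1 (pr3 (Lk k c Z) y) * (e1 (-pr3 (nd h n) y) * (starRingEnd ℂ) (Φh y)) := by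
      intro n
      rw [hR.four]
      unfold Fi3
      rw [← integral_conj]
      refine integral_congr_ae (Filter.Eventually.of_forall fun y => ?_)
      simp only [map_mul, d3_conj]
      rw [← mul_assoc, ← d3_add]
      congr 2
      unfold pr3
      simp only [Prod.fst_sub, Prod.snd_sub, inner_sub_left]
      ring
    have h2 : (starRingEnd ℂ) (∑ n ∈ T, e n * Φ (nd h n - Lk k c Z)) =
        ∫ y : X m, e1 (pr3 (Lk k c Z) y) * G y := by
      rw [map_sum, hG]
      simp only [map_mul, h1, Finset.mul_sum]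
      rw [integral_finsetSum]
      · refine Finset.sum_congr rfl fun n _ => ?_
        rw [← integral_const_mul]
        refine integral_congr_ae (Filter.Eventually.of_forall fun y => ?_)
        simp only
        ring
      · intro n _
        have h3 := hint ((starRingEnd ℂ) (e n)) (fun y => pr3 (Lk k c Z) y + -pr3 (nd h n) y)
          ((d3_pr3 _).add (d3_pr3 _).neg)
        refine h3.congr (Filter.Eventually.of_forall fun y => ?_)
        simp only
        rw [d3_add]
        ring
    rw [h2]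
    unfold Fi3
    have h3 : ∫ y : X m, e1 (pr3 (Lk k c Z) y) * G y =
        ∫ z, e1 (pr3 Z z) * G (M.symm z) ∂(Measure.map M (volume : Measure (X m))) := by
      rw [hemb.integral_map]
      refine integral_congr_ae (Filter.Eventually.of_forall fun y => ?_)
      simp only [ContinuousLinearEquiv.symm_apply_apply]
      rw [hM, pr3_Lk]
    rw [h3, hκ, integral_smul_measure, ENNReal.toReal_ofReal hκ0.le, ← integral_smul]
    refine integral_congr_ae (Filter.Eventually.of_forall fun z => ?_)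
    simp only [Complex.real_smul]
    ring

end Pool.LibST49
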