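import Pool.Agent.LibST49.D1
import Pool.Agent.LibST49.D2
import Pool.Agent.LibST49.D3

/-
PLAN (D4, STRONG). p := q/(q-1), 1/p + 1/q = 1. c_a := cf Φ h κ S γ a, e_a := conj(c_a) |c_a|^(p-2) (0 if c_a = 0): c_a e_a = |c_a|^p = |e_a|^q. Acal := SUM_(a in G) |c_a|^p =
SUM_a c_a e_a = SUM_(p in S) γ p H(p), H(Z) = SUM_(a in G) e_a Φ(nd h a.2 - Lk κ (w κ a.1) Z) = SUM_(j in I) H_j(Z), I = labels of G.
Hoelder: Acal <= (#S)^(1/p) (SUM_(p in S) |H(p)|^q)^(1/q). conj H = SUM_j Fi3 g_j = Fi3 (SUM g_j) (dual_fs), all supports in a fixed ball (z.2.2 <= 2 v1, ‖z.1‖ <= A + 2 v1 2 sqrt m,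
|z.2.1| <= (A + ‖z.1‖^2)/(v0/2)), so pp: SUM_p |H(p)|^q <= C INT |H|^q. CDec m q with A, R0 = 2 sqrt m (norm_w_le), L = 3^m (number of j with ‖2^-κ iv j - z‖ <= 2^-κ), window
[v0/2, 2 v1], ε: INT |SUM_j Fi3 g_j|^q <= C 2^(κ(ε + m(q/2-1))) SUM_j INT |H_j|^q, synth: INT |H_j|^q <= C 2^(κ(m+2)) SUM_(a, label j) |e_a|^q. So
Acal <= (#S)^(1/p) (C 2^(κ(ε + m q/2 + 2)) Acal)^(1/q) [m(q/2-1) + m + 2 = m q/2 + 2], i.e. Acal <= #S (C 2^(κ(ε+mq/2+2)))^(p-1), p - 1 = 1/(q-1). (Acal finite; Acal = 0 trivial.)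
-/

set_option autoImplicit false

noncomputable section

open MeasureTheory Metric Set Filter

namespace Pool.LibST49

open Pool.LibSR53

private lemma norm_e1 (t : ℝ) : ‖e1 t‖ = 1 := by
  unfold e1
  have h : 2 * (Real.pi : ℂ) * Complex.I * (t : ℂ) = ((2 * Real.pi * t : ℝ) : ℂ) * Complex.I := by
    push_cast
    ring
  rw [h, Complex.norm_exp_ofReal_mul_I]

private lemma continuous_e1 : Continuous e1 := by
  unfold e1
  fun_prop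

private lemma continuous_pr3 {m : ℕ} (x : X m) : Continuous (fun z : X m => pr3 x z) := by
  unfold pr3
  fun_prop

private lemma integrable_e1_mul {m : ℕ} (x : X m) {g : X m → ℂ} (hg : Integrable g) :
    Integrable (fun z : X m => e1 (pr3 x z) * g z) := by
  refine hg.bdd_mul (c := 1) ?_ ?_
  · exact (continuous_e1.comp (continuous_pr3 x)).aestronglyMeasurable
  · exact Filter.Eventually.of_forall fun z => (norm_e1 _).le

private lemma Fi3_sum {m : ℕ} {ι : Type} (I : Finset ι) (g : ι → X m → ℂ)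
    (hg : ∀ i ∈ I, Integrable (g i)) (x : X m) :
    Fi3 (fun z => ∑ i ∈ I, g i z) x = ∑ i ∈ I, Fi3 (g i) x := by
  unfold Fi3
  rw [← integral_finsetSum I (fun i hi => integrable_e1_mul x (hg i hi))]
  refine integral_congr_ae (Filter.Eventually.of_forall fun z => ?_)
  simp only [Finset.mul_sum]

/-- at most three integers at distance at most one from a real number -/
private lemma card_Icc_le (x : ℝ) : (Finset.Icc ⌈x - 1⌉ ⌊x + 1⌋).card ≤ 3 := by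
  rw [Int.card_Icc]
  have h1 : (⌊x + 1⌋ : ℝ) ≤ x + 1 := Int.floor_le _
  have h2 : x - 1 ≤ (⌈x - 1⌉ : ℝ) := Int.le_ceil _
  have h3 : (⌊x + 1⌋ : ℝ) - ⌈x - 1⌉ ≤ 2 := by linarith
  have h4 : ⌊x + 1⌋ - ⌈x - 1⌉ ≤ 2 := by exact_mod_cast h3
  omega

private lemma mult_w {m : ℕ} (κ : ℕ) (I : Finset (Fin m → ℤ)) (z : E m) :
    (({j : Fin m → ℤ | j ∈ I ∧ ‖(w κ j : E m) - z‖ ≤ (2 : ℝ)⁻¹ ^ κ}).ncard : ℝ) ≤ 3 ^ m := by
  classical
  have hsub : {j : Fin m → ℤ | j ∈ I ∧ ‖(w κ j : E m) - z‖ ≤ (2 : ℝ)⁻¹ ^ κ} ⊆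
      ((Fintype.piFinset fun i : Fin m =>
        Finset.Icc ⌈(2 : ℝ) ^ κ * z i - 1⌉ ⌊(2 : ℝ) ^ κ * z i + 1⌋ : Finset (Fin m → ℤ)) :
        Set (Fin m → ℤ)) := by
    intro j hj
    have hj2 := hj.2
    rw [Finset.mem_coe, Fintype.mem_piFinset]
    intro i
    have h1 : ‖((w κ j : E m) - z) i‖ ≤ (2 : ℝ)⁻¹ ^ κ := (PiLp.norm_apply_le _ i).trans hj2
    have h2 : ((w κ j : E m) - z) i = (2 : ℝ)⁻¹ ^ κ * (j i : ℝ) - z i := by
      simp [w, iv]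
    rw [h2, Real.norm_eq_abs] at h1
    have hp : (0 : ℝ) < 2 ^ κ := by positivity
    have h3 : |(j i : ℝ) - 2 ^ κ * z i| ≤ 1 := by
      have h4 : (j i : ℝ) - 2 ^ κ * z i = 2 ^ κ * ((2 : ℝ)⁻¹ ^ κ * (j i : ℝ) - z i) := by
        rw [inv_pow]
        field_simp
      rw [h4, abs_mul, abs_of_pos hp]
      calc (2 : ℝ) ^ κ * |(2 : ℝ)⁻¹ ^ κ * (j i : ℝ) - z i| ≤ 2 ^ κ * (2 : ℝ)⁻¹ ^ κ :=
            mul_le_mul_of_nonneg_left h1 hp.le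
        _ = 1 := by
            rw [inv_pow]
            field_simp
    rw [abs_le] at h3
    rw [Finset.mem_Icc]
    constructor
    · rw [Int.ceil_le]
      linarith [h3.1]
    · rw [Int.le_floor]
      linarith [h3.2]
  have h1 := Set.ncard_le_ncard hsub (Finset.finite_toSet _)
  rw [Set.ncard_coe_finset, Fintype.card_piFinset] at h1
  have h2 : ∏ i : Fin m, (Finset.Icc ⌈(2 : ℝ) ^ κ * z i - 1⌉ ⌊(2 : ℝ) ^ κ * z i + 1⌋).card ≤ 3 ^ m := by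
    calc ∏ i : Fin m, (Finset.Icc ⌈(2 : ℝ) ^ κ * z i - 1⌉ ⌊(2 : ℝ) ^ κ * z i + 1⌋).card
        ≤ ∏ _i : Fin m, 3 := Finset.prod_le_prod' fun i _ => card_Icc_le _
      _ = 3 ^ m := by simp
  exact_mod_cast h1.trans h2

/-- the estimate for the dual function -/
private lemma H_est {m : ℕ} {h v0 v1 ρ R : ℝ} {Φ Φh : X m → ℂ}
    (hR : Rp h v0 v1 ρ R Φ Φh) (h0 : 0 < v0) (q : ℝ) (hq : 2 < q) (hC : CDec m q) (ε : ℝ)
    (hε : 0 < ε) (δ : ℝ) (hδ : 0 < δ) : ∃ C : ℝ, 0 < C ∧ ∀ (κ : ℕ) (S : Finset (X m)),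
    (∀ p ∈ S, ∀ q' ∈ S, p ≠ q' → δ ≤ ‖p - q'‖) →
    ∀ G : Finset (Pk m), (∀ a ∈ G, a.1 ∈ J m κ) → ∀ e : Pk m → ℂ,
    ∑ P ∈ S, ‖∑ a ∈ G, e a * Φ (nd h a.2 - Lk κ (w κ a.1) P)‖ₑ ^ q ≤
      ENNReal.ofReal (C * (2 : ℝ) ^ ((κ : ℝ) * (ε + m * q / 2 + 2))) * ∑ a ∈ G, ‖e a‖ₑ ^ q := by
  classical
  have hq0 : 0 < q := by linarith
  have hq1 : 1 ≤ q := by linarith
  obtain ⟨A, hA, hdual⟩ := dual_fs hR h0
  obtain ⟨Cd, hCd, hdec⟩ := hC A (2 * Real.sqrt m) (3 ^ m) (v0 / 2) (2 * v1) ε (by positivity) hε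
  obtain ⟨Cs, hCs, hsyn⟩ := synth hR q hq1
  obtain ⟨Rx, hRx⟩ : ∃ Rx : ℝ, Rx = A + 2 * |v1| * (2 * Real.sqrt m) := ⟨_, rfl⟩
  have hRx0 : 0 ≤ Rx := by rw [hRx]; positivity
  obtain ⟨Rb, hRb⟩ : ∃ Rb : ℝ, Rb = Rx + (A + Rx ^ 2) / (v0 / 2) + 2 * |v1| := ⟨_, rfl⟩
  obtain ⟨Cp, hCp, hpp⟩ := pp m q hq1 δ hδ Rb
  refine ⟨Cp * Cd * Cs, by positivity, ?_⟩
  intro κ S hS G hG e
  -- grouping
  let I : Finset (Fin m → ℤ) := G.image Prod.fst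
  let T : (Fin m → ℤ) → Finset (Zn m) := fun j => (G.filter (fun a => a.1 = j)).image Prod.snd
  have hIJ : ∀ j ∈ I, j ∈ J m κ := by
    intro j hj
    obtain ⟨a, ha, rfl⟩ := Finset.mem_image.1 hj
    exact hG a ha
  have hmem : ∀ p : (Fin m → ℤ) × Zn m, p ∈ G ↔ p.1 ∈ I ∧ p.2 ∈ T p.1 := by
    intro p
    constructor
    · intro hp
      exact ⟨Finset.mem_image.2 ⟨p, hp, rfl⟩,
        Finset.mem_image.2 ⟨p, Finset.mem_filter.2 ⟨hp, rfl⟩, rfl⟩⟩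
    · rintro ⟨-, hp⟩
      obtain ⟨a, ha, ha2⟩ := Finset.mem_image.1 hp
      obtain ⟨ha1, ha3⟩ := Finset.mem_filter.1 ha
      have : a = p := Prod.ext ha3 ha2
      rw [← this]
      exact ha1
  have hinv1 : ((2 : ℝ)⁻¹) ^ κ ≤ 1 := pow_le_one₀ (by norm_num) (by norm_num)
  have hinv2 : ((4 : ℝ)⁻¹) ^ κ ≤ 1 := pow_le_one₀ (by norm_num) (by norm_num)
  have hex : ∀ j : Fin m → ℤ, ∃ g : X m → ℂ, Integrable g ∧
      (∀ z, g z ≠ 0 → v0 / 2 ≤ z.2.2 ∧ z.2.2 ≤ 2 * v1 ∧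
        ‖z.1 - z.2.2 • (w κ j : E m)‖ ≤ A * (2 : ℝ)⁻¹ ^ κ ∧
        |z.2.1 * z.2.2 - ‖z.1‖ ^ 2| ≤ A * (4 : ℝ)⁻¹ ^ κ) ∧
      ∀ Z : X m, (starRingEnd ℂ) (∑ n ∈ T j, e (j, n) * Φ (nd h n - Lk κ (w κ j) Z)) = Fi3 g Z :=
    fun j => hdual κ (w κ j) (T j) (fun n => e (j, n))
  choose g hgi hgs hgF using hex
  have hGi : Integrable (fun z => ∑ j ∈ I, g j z) := integrable_finsetSum I fun j _ => hgi j
  have hGs : ∀ z : X m, (∑ j ∈ I, g j z) ≠ 0 → ‖z‖ ≤ Rb := by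
    intro z hz
    obtain ⟨j, hj, hjz⟩ := Finset.exists_ne_zero_of_sum_ne_zero hz
    obtain ⟨h1, h2, h3, h4⟩ := hgs j z hjz
    have hw := norm_w_le κ j (hIJ j hj)
    have hz22 : 0 < z.2.2 := by linarith
    have hv1 : 0 < v1 := by linarith
    have hv1' : |v1| = v1 := abs_of_pos hv1
    have hz1 : ‖z.1‖ ≤ Rx := by
      have h5 : ‖z.1‖ ≤ ‖z.1 - z.2.2 • (w κ j : E m)‖ + ‖z.2.2 • (w κ j : E m)‖ := by
        calc ‖z.1‖ = ‖(z.1 - z.2.2 • (w κ j : E m)) + z.2.2 • (w κ j : E m)‖ := by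
              rw [sub_add_cancel]
          _ ≤ _ := norm_add_le _ _
      have h6 : ‖z.2.2 • (w κ j : E m)‖ ≤ 2 * |v1| * (2 * Real.sqrt m) := by
        rw [norm_smul, Real.norm_eq_abs, abs_of_pos hz22, hv1']
        exact mul_le_mul h2 hw (norm_nonneg _) (by positivity)
      have h7 : ‖z.1 - z.2.2 • (w κ j : E m)‖ ≤ A :=
        h3.trans (mul_le_of_le_one_right hA hinv1)
      rw [hRx]
      linarith
    have hz21 : |z.2.1| ≤ (A + Rx ^ 2) / (v0 / 2) := by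
      rw [le_div_iff₀ (by positivity)]
      have h5 : |z.2.1 * z.2.2| ≤ A + Rx ^ 2 := by
        have h6 : |z.2.1 * z.2.2| ≤ |z.2.1 * z.2.2 - ‖z.1‖ ^ 2| + |‖z.1‖ ^ 2| := by
          have := abs_add_le (z.2.1 * z.2.2 - ‖z.1‖ ^ 2) (‖z.1‖ ^ 2)
          simpa using this
        have h7 : |z.2.1 * z.2.2 - ‖z.1‖ ^ 2| ≤ A := h4.trans (mul_le_of_le_one_right hA hinv2)
        have h8 : |‖z.1‖ ^ 2| ≤ Rx ^ 2 := by
          rw [abs_of_nonneg (by positivity)]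
          exact pow_le_pow_left₀ (norm_nonneg _) hz1 2
        linarith
      rw [abs_mul, abs_of_pos hz22] at h5
      calc |z.2.1| * (v0 / 2) ≤ |z.2.1| * z.2.2 :=
            mul_le_mul_of_nonneg_left h1 (abs_nonneg _)
        _ ≤ _ := h5
    have hq1' : 0 ≤ (A + Rx ^ 2) / (v0 / 2) := by positivity
    have hv1n : 0 ≤ |v1| := abs_nonneg _
    rw [Prod.norm_def, Prod.norm_def]
    refine max_le ?_ (max_le ?_ ?_)
    · rw [hRb]; linarith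
    · rw [Real.norm_eq_abs, hRb]; linarith
    · rw [Real.norm_eq_abs, abs_of_pos hz22, hRb, hv1']
      linarith
  -- the function H
  have hH : ∀ Z : X m, (starRingEnd ℂ) (∑ a ∈ G, e a * Φ (nd h a.2 - Lk κ (w κ a.1) Z)) =
      ∑ j ∈ I, Fi3 (g j) Z := by
    intro Z
    rw [Finset.sum_finset_product G I T hmem, map_sum]
    exact Finset.sum_congr rfl fun j _ => hgF j Z
  have hHn : ∀ Z : X m, ‖∑ a ∈ G, e a * Φ (nd h a.2 - Lk κ (w κ a.1) Z)‖ₑ =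
      ‖∑ j ∈ I, Fi3 (g j) Z‖ₑ := by
    intro Z
    rw [← hH Z, ← ofReal_norm, ← ofReal_norm, RCLike.norm_conj]
  have hjn : ∀ (j : Fin m → ℤ) (Z : X m), ‖Fi3 (g j) Z‖ₑ =
      ‖∑ n ∈ T j, e (j, n) * Φ (nd h n - Lk κ (w κ j) Z)‖ₑ := by
    intro j Z
    rw [← hgF j Z, ← ofReal_norm, ← ofReal_norm, RCLike.norm_conj]
  -- step 1: sampling
  have s1 : ∑ P ∈ S, ‖∑ a ∈ G, e a * Φ (nd h a.2 - Lk κ (w κ a.1) P)‖ₑ ^ q ≤
      ENNReal.ofReal Cp * ∫⁻ x : X m, ‖∑ j ∈ I, Fi3 (g j) x‖ₑ ^ q := by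
    have h1 := hpp (fun z => ∑ j ∈ I, g j z) hGi hGs S hS
    have h2 : ∀ x : X m, Fi3 (fun z => ∑ j ∈ I, g j z) x = ∑ j ∈ I, Fi3 (g j) x :=
      fun x => Fi3_sum I g (fun j _ => hgi j) x
    simp only [h2] at h1
    simp only [hHn]
    exact h1
  -- step 2: decoupling
  have hFam : Fam m A (2 * Real.sqrt m) (3 ^ m) (v0 / 2) (2 * v1) κ (Fin m → ℤ) I
      (fun j => (w κ j : E m)) g :=
    { cen := fun j hj => norm_w_le κ j (hIJ j hj)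
      mult := fun z => mult_w κ I z
      int := fun j _ => hgi j
      supp := fun j _ z hz => hgs j z hz }
  have s2 := hdec κ (Fin m → ℤ) I (fun j => (w κ j : E m)) g hFam
  -- step 3: synthesis
  have s3 : ∑ j ∈ I, ∫⁻ x : X m, ‖Fi3 (g j) x‖ₑ ^ q ≤
      ENNReal.ofReal (Cs * 2 ^ (κ * (m + 2))) * ∑ a ∈ G, ‖e a‖ₑ ^ q := by
    rw [Finset.sum_finset_product G I T hmem, Finset.mul_sum]
    refine Finset.sum_le_sum fun j _ => ?_
    simp only [hjn]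
    exact hsyn κ (w κ j) (T j) (fun n => e (j, n))
  have hpow : (2 : ℝ) ^ ((κ : ℝ) * (ε + m * (q / 2 - 1))) * 2 ^ (κ * (m + 2)) =
      (2 : ℝ) ^ ((κ : ℝ) * (ε + m * q / 2 + 2)) := by
    rw [← Real.rpow_natCast 2 (κ * (m + 2)), ← Real.rpow_add (by norm_num)]
    congr 1
    push_cast
    ring
  calc ∑ P ∈ S, ‖∑ a ∈ G, e a * Φ (nd h a.2 - Lk κ (w κ a.1) P)‖ₑ ^ q
      ≤ ENNReal.ofReal Cp * ∫⁻ x : X m, ‖∑ j ∈ I, Fi3 (g j) x‖ₑ ^ q := s1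
    _ ≤ ENNReal.ofReal Cp * (ENNReal.ofReal (Cd * (2 : ℝ) ^ ((κ : ℝ) * (ε + m * (q / 2 - 1)))) *
          (ENNReal.ofReal (Cs * 2 ^ (κ * (m + 2))) * ∑ a ∈ G, ‖e a‖ₑ ^ q)) := by
        gcongr
        exact s2.trans (by gcongr)
    _ = ENNReal.ofReal (Cp * Cd * Cs * (2 : ℝ) ^ ((κ : ℝ) * (ε + m * q / 2 + 2))) *
          ∑ a ∈ G, ‖e a‖ₑ ^ q := by
        rw [← hpow, ← mul_assoc, ← mul_assoc, ← ENNReal.ofReal_mul hCp.le,
          ← ENNReal.ofReal_mul (by positivity)]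
        congr 2
        ring

/-- the coefficients of the wave packets: dual decoupling -/
theorem coef_dual {m : ℕ} (hm : 1 ≤ m) {h v0 v1 ρ R : ℝ} {Φ Φh : X m → ℂ}
    (hR : Rp h v0 v1 ρ R Φ Φh) (h0 : 0 < v0) (q : ℝ) (hq : 2 < q) (hC : CDec m q) (ε : ℝ)
    (hε : 0 < ε) (δ : ℝ) (hδ : 0 < δ) : ∃ C : ℝ, 0 < C ∧ ∀ (κ : ℕ) (S : Finset (X m)),
    (∀ p ∈ S, ∀ q' ∈ S, p ≠ q' → δ ≤ ‖p - q'‖) → ∀ γ : X m → ℂ, (∀ p, ‖γ p‖ ≤ 1) →
    ∀ G : Finset (Pk m), (∀ a ∈ G, a.1 ∈ J m κ) →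
    ∑ a ∈ G, ‖cf Φ h κ S γ a‖ ^ (q / (q - 1)) ≤
      C * (2 : ℝ) ^ ((κ : ℝ) * ((ε + m * q / 2 + 2) / (q - 1))) * (S.card : ℝ) := by
  obtain ⟨K, hK, hest⟩ := H_est hR h0 q hq hC ε hε δ hδ
  have hq0 : 0 < q := by linarith
  have hq1 : 0 < q - 1 := by linarith
  refine ⟨K ^ (1 / (q - 1)), by positivity, ?_⟩
  intro κ S hS γ hγ G hG
  obtain ⟨c, hc⟩ : ∃ c : Pk m → ℂ, c = fun a => cf Φ h κ S γ a := ⟨_, rfl⟩
  obtain ⟨p, hp⟩ : ∃ p : ℝ, p = q / (q - 1) := ⟨_, rfl⟩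
  have hp0 : 0 < p := by rw [hp]; positivity
  have hpq : (p - 1) * q = p := by
    rw [hp]
    field_simp
    ring
  obtain ⟨e, he⟩ : ∃ e : Pk m → ℂ,
    e = fun a => (starRingEnd ℂ) (c a) * ((‖c a‖ ^ (p - 2) : ℝ) : ℂ) := ⟨_, rfl⟩
  have hp1 : 0 < p - 1 := by
    have : p - 1 = 1 / (q - 1) := by
      rw [hp]
      field_simp
      ring
    rw [this]
    positivity
  have hce : ∀ a, c a * e a = ((‖c a‖ ^ p : ℝ) : ℂ) := by
    intro a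
    rw [he]
    simp only
    rw [← mul_assoc, Complex.mul_conj, ← Complex.ofReal_mul]
    congr 1
    rw [Complex.normSq_eq_norm_sq]
    by_cases hca : ‖c a‖ = 0
    · rw [hca, Real.zero_rpow hp0.ne']
      simp
    · have hpos : 0 < ‖c a‖ := lt_of_le_of_ne (norm_nonneg _) (Ne.symm hca)
      rw [← Real.rpow_natCast, ← Real.rpow_add hpos]
      congr 1
      push_cast
      ring
  have hen : ∀ a, ‖e a‖ ^ q = ‖c a‖ ^ p := by
    intro a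
    rw [he]
    simp only
    rw [norm_mul, RCLike.norm_conj, Complex.norm_real, Real.norm_eq_abs,
      abs_of_nonneg (by positivity)]
    by_cases hca : ‖c a‖ = 0
    · rw [hca, Real.zero_rpow hp0.ne', zero_mul, Real.zero_rpow hq0.ne']
    · have hpos : 0 < ‖c a‖ := lt_of_le_of_ne (norm_nonneg _) (Ne.symm hca)
      have h1 : ‖c a‖ * ‖c a‖ ^ (p - 2) = ‖c a‖ ^ (p - 1) := by
        nth_rw 1 [← Real.rpow_one ‖c a‖]
        rw [← Real.rpow_add hpos]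
        congr 1
        ring
      rw [h1, ← Real.rpow_mul (norm_nonneg _), hpq]
  obtain ⟨Ac, hAc⟩ : ∃ Ac : ℝ, Ac = ∑ a ∈ G, ‖c a‖ ^ p := ⟨_, rfl⟩
  have hAc0 : 0 ≤ Ac := by
    rw [hAc]
    exact Finset.sum_nonneg fun a _ => by positivity
  obtain ⟨H, hH⟩ : ∃ H : X m → ℂ,
    H = fun P => ∑ a ∈ G, e a * Φ (nd h a.2 - Lk κ (w κ a.1) P) := ⟨_, rfl⟩
  -- duality
  have hsum : (Ac : ℂ) = ∑ P ∈ S, γ P * H P := by
    rw [hAc, Complex.ofReal_sum]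
    calc ∑ a ∈ G, ((‖c a‖ ^ p : ℝ) : ℂ) = ∑ a ∈ G, c a * e a :=
          Finset.sum_congr rfl fun a _ => (hce a).symm
      _ = ∑ a ∈ G, ∑ P ∈ S, γ P * (e a * Φ (nd h a.2 - Lk κ (w κ a.1) P)) := by
          refine Finset.sum_congr rfl fun a _ => ?_
          rw [hc]
          simp only [cf]
          rw [Finset.sum_mul]
          refine Finset.sum_congr rfl fun P _ => ?_
          ring
      _ = ∑ P ∈ S, γ P * H P := by
          rw [Finset.sum_comm]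
          refine Finset.sum_congr rfl fun P _ => ?_
          rw [hH, Finset.mul_sum]
  have hle : Ac ≤ ∑ P ∈ S, ‖H P‖ := by
    calc Ac = ‖(Ac : ℂ)‖ := by rw [Complex.norm_real, Real.norm_eq_abs, abs_of_nonneg hAc0]
      _ = ‖∑ P ∈ S, γ P * H P‖ := by rw [hsum]
      _ ≤ ∑ P ∈ S, ‖γ P * H P‖ := norm_sum_le _ _
      _ ≤ ∑ P ∈ S, ‖H P‖ := by
          refine Finset.sum_le_sum fun P _ => ?_
          rw [norm_mul]
          exact mul_le_of_le_one_left (norm_nonneg _) (hγ P)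
  have hpm : Ac ^ q ≤ (S.card : ℝ) ^ (q - 1) * ∑ P ∈ S, ‖H P‖ ^ q :=
    (Real.rpow_le_rpow hAc0 hle hq0.le).trans
      (Real.rpow_sum_le_const_mul_sum_rpow_of_nonneg S (by linarith)
        (fun P _ => norm_nonneg (H P)))
  obtain ⟨B, hB⟩ : ∃ B : ℝ, B = K * (2 : ℝ) ^ ((κ : ℝ) * (ε + m * q / 2 + 2)) := ⟨_, rfl⟩
  have hB0 : 0 < B := by rw [hB]; positivity
  have hreal : ∑ P ∈ S, ‖H P‖ ^ q ≤ B * Ac := by
    have h1 := hest κ S hS G hG e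
    have h2 : ∀ z : ℂ, ‖z‖ₑ ^ q = ENNReal.ofReal (‖z‖ ^ q) := by
      intro z
      rw [← ofReal_norm, ENNReal.ofReal_rpow_of_nonneg (norm_nonneg _) hq0.le]
    simp only [h2] at h1
    rw [← ENNReal.ofReal_sum_of_nonneg (fun P _ => by positivity),
      ← ENNReal.ofReal_sum_of_nonneg (fun a _ => by positivity),
      ← ENNReal.ofReal_mul (by positivity)] at h1
    have h3 : ∑ a ∈ G, ‖e a‖ ^ q = Ac := by
      rw [hAc]
      exact Finset.sum_congr rfl fun a _ => hen a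
    rw [h3, ← hB] at h1
    have h4 := (ENNReal.ofReal_le_ofReal_iff (by positivity)).1 h1
    rw [hH]
    exact h4
  have hmain : Ac ≤ K ^ (1 / (q - 1)) *
      (2 : ℝ) ^ ((κ : ℝ) * ((ε + m * q / 2 + 2) / (q - 1))) * (S.card : ℝ) := by
    rcases hAc0.eq_or_lt with h00 | hpos
    · rw [← h00]
      positivity
    · have h1 : Ac ^ q ≤ (S.card : ℝ) ^ (q - 1) * (B * Ac) :=
        hpm.trans (mul_le_mul_of_nonneg_left hreal (by positivity))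
      have h2 : Ac ^ (q - 1) ≤ (S.card : ℝ) ^ (q - 1) * B := by
        have h3 : Ac ^ q = Ac ^ (q - 1) * Ac := by
          nth_rw 3 [← Real.rpow_one Ac]
          rw [← Real.rpow_add hpos]
          congr 1
          ring
        rw [h3, ← mul_assoc] at h1
        exact le_of_mul_le_mul_right h1 hpos
      have h4 : Ac = (Ac ^ (q - 1)) ^ (1 / (q - 1)) := by
        rw [← Real.rpow_mul hAc0, mul_one_div_cancel hq1.ne', Real.rpow_one]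
      rw [h4]
      calc (Ac ^ (q - 1)) ^ (1 / (q - 1)) ≤ ((S.card : ℝ) ^ (q - 1) * B) ^ (1 / (q - 1)) :=
            Real.rpow_le_rpow (by positivity) h2 (by positivity)
        _ = (S.card : ℝ) * B ^ (1 / (q - 1)) := by
            rw [Real.mul_rpow (Real.rpow_nonneg (Nat.cast_nonneg _) _) hB0.le, ← Real.rpow_mul (Nat.cast_nonneg _),
              mul_one_div_cancel hq1.ne', Real.rpow_one]
        _ = _ := by
            rw [hB, Real.mul_rpow hK.le (by positivity), ← Real.rpow_mul (by norm_num)]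
            have h5 : (κ : ℝ) * (ε + m * q / 2 + 2) * (1 / (q - 1)) =
                (κ : ℝ) * ((ε + m * q / 2 + 2) / (q - 1)) := by ring
            rw [h5]
            ring
  rw [hAc, hc, hp] at hmain
  exact hmain

end Pool.LibST49
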