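import Pool.Agent.LibST49.S4
import Pool.Agent.LibCN33.A10

set_option autoImplicit false

noncomputable section

open MeasureTheory Metric Set Filter

namespace Pool.LibST49

open Pool.LibSR53

/-- strong type bounds for half wave atoms in the whole Stein-Tomas range, unconditionally -/
theorem hst (m : ℕ) (hm : 3 ≤ m) : HST m := by
  refine hst_of_cdec' m hm fun q h1 h2 => Pool.LibCN33.cdec m q h1 ?_
  have hm0 : (0 : ℝ) < m := by
    have : 0 < m := by omega
    exact_mod_cast this
  rwa [lt_div_iff₀ hm0] at h2

end Pool.LibST49
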