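import Pool.Agent.LibST49.Defs

/-
PLAN (K1, MEDIUM, ONLY MATHLIB). Real.pow_mul_norm_iteratedFDeriv_fourier_le (k = 0, n) gives ‖y‖^n ‖𝓕 g y‖ <= C_n SUM_(i <= n) INT ‖iteratedFDeriv i g‖ (look at the exact form in
Mathlib/Analysis/Fourier/FourierTransformDeriv.lean), each integral <= M vol(ball 0 R) (iteratedFDeriv vanishes off the closed support: tsupport_iteratedFDeriv_subset). The integral here is
𝓕 g (-y) (Real.fourier_eq / fourierIntegral with e(-<v,w>)). (1+‖y‖)^N <= 2^N (1 + ‖y‖^N). The statement is for a general finite dimensional inner product space.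
-/

set_option autoImplicit false

noncomputable section

open MeasureTheory Metric Set Filter

namespace Pool.LibST49

open Pool.LibSR53

private theorem K1_four {W : Type} [NormedAddCommGroup W] [InnerProductSpace ℝ W]
    [FiniteDimensional ℝ W] [MeasurableSpace W] [BorelSpace W] (g : W → ℂ) (y : W) :
    ∫ z, e1 (inner ℝ y z) * g z = FourierTransform.fourier g (-y) := by
  rw [Real.fourier_eq']
  refine integral_congr_ae (Filter.Eventually.of_forall fun z => ?_)
  simp only [e1, smul_eq_mul, inner_neg_right]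
  rw [real_inner_comm]
  congr 2
  push_cast
  ring

private theorem K1_supp {W : Type} [NormedAddCommGroup W] [InnerProductSpace ℝ W]
    [FiniteDimensional ℝ W] [MeasurableSpace W] [BorelSpace W] (R : ℝ) (g : W → ℂ)
    (hs : ∀ z, g z ≠ 0 → ‖z‖ ≤ R) : tsupport g ⊆ closedBall 0 R := by
  refine closure_minimal (fun z hz => ?_) isClosed_closedBall
  rw [mem_closedBall, dist_zero_right]
  exact hs z hz

private theorem K1_int {W : Type} [NormedAddCommGroup W] [InnerProductSpace ℝ W]
    [FiniteDimensional ℝ W] [MeasurableSpace W] [BorelSpace W] (N : ℕ) (R : ℝ) (g : W → ℂ)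
    (hg : ContDiff ℝ (⊤ : ℕ∞) g) (hs : ∀ z, g z ≠ 0 → ‖z‖ ≤ R) (M : ℝ)
    (hM : ∀ n ≤ N, ∀ z, ‖iteratedFDeriv ℝ n g z‖ ≤ M) (n : ℕ) (hn : n ≤ N) :
    Integrable (fun v => ‖iteratedFDeriv ℝ n g v‖) ∧
      ∫ v, ‖iteratedFDeriv ℝ n g v‖ ≤ M * volume.real (closedBall (0 : W) R) := by
  have hts := K1_supp R g hs
  have hcs : HasCompactSupport g :=
    (isCompact_closedBall (0 : W) R).of_isClosed_subset (isClosed_tsupport g) hts
  have hcont : Continuous (iteratedFDeriv ℝ n g) := hg.continuous_iteratedFDeriv (by exact_mod_cast le_top)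
  have hint : Integrable (fun v => ‖iteratedFDeriv ℝ n g v‖) :=
    (hcont.integrable_of_hasCompactSupport (hcs.iteratedFDeriv n)).norm
  refine ⟨hint, ?_⟩
  have hfin : volume (closedBall (0 : W) R) ≠ ⊤ := (measure_closedBall_lt_top).ne
  calc ∫ v, ‖iteratedFDeriv ℝ n g v‖ ≤ ∫ v, (closedBall (0 : W) R).indicator (fun _ => M) v := by
        refine integral_mono hint ?_ fun v => ?_
        · exact (integrable_indicator_iff measurableSet_closedBall).2
            (integrableOn_const hfin)
        · by_cases hv : v ∈ closedBall (0 : W) R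
          · simp only [indicator_of_mem hv]
            exact hM n hn v
          · simp only [indicator_of_notMem hv]
            have : iteratedFDeriv ℝ n g v = 0 := by
              by_contra h
              exact hv (hts (support_iteratedFDeriv_subset n h))
            rw [this, norm_zero]
    _ = M * volume.real (closedBall (0 : W) R) := by
        rw [integral_indicator measurableSet_closedBall, setIntegral_const, smul_eq_mul, mul_comm]

/-- decay of Fourier integrals of smooth compactly supported functions, uniformly -/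
theorem fdecay {W : Type} [NormedAddCommGroup W] [InnerProductSpace ℝ W] [FiniteDimensional ℝ W]
    [MeasurableSpace W] [BorelSpace W] (N : ℕ) (R : ℝ) : ∃ C : ℝ, 0 < C ∧ ∀ g : W → ℂ,
    ContDiff ℝ (⊤ : ℕ∞) g → (∀ z, g z ≠ 0 → ‖z‖ ≤ R) → ∀ M : ℝ,
    (∀ n ≤ N, ∀ z, ‖iteratedFDeriv ℝ n g z‖ ≤ M) → ∀ y : W,
    ‖∫ z, e1 (inner ℝ y z) * g z‖ ≤ C * M / (1 + ‖y‖) ^ N := by
  set v0 : ℝ := volume.real (closedBall (0 : W) R) with hv0
  have hv : 0 ≤ v0 := measureReal_nonneg
  refine ⟨2 ^ N * (v0 + 2 ^ N * ((N + 1) * v0)) + 1, by positivity, ?_⟩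
  intro g hg hs M hM y
  have hM0 : 0 ≤ M := (norm_nonneg _).trans (hM 0 (Nat.zero_le _) 0)
  rw [K1_four]
  set F := FourierTransform.fourier g with hF
  have key : ∀ n ≤ N, ‖-y‖ ^ n * ‖F (-y)‖ ≤ 2 ^ n * ((n + 1) * (M * v0)) := by
    intro n hn
    have h := Real.pow_mul_norm_iteratedFDeriv_fourier_le (K := 0) (N := (n : ℕ∞)) (f := g)
      (hg.of_le (by exact_mod_cast le_top)) ?_ (k := 0) (n := n) le_rfl le_rfl (-y)
    · rw [norm_iteratedFDeriv_zero] at h
      refine h.trans ?_
      simp only [pow_zero, one_mul, Nat.cast_zero, mul_zero, zero_add]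
      gcongr
      calc ∑ p ∈ Finset.range 1 ×ˢ Finset.range (n + 1),
            ∫ v, ‖v‖ ^ p.1 * ‖iteratedFDeriv ℝ p.2 g v‖
          ≤ ∑ p ∈ Finset.range 1 ×ˢ Finset.range (n + 1), M * v0 := by
            refine Finset.sum_le_sum fun p hp => ?_
            rw [Finset.mem_product, Finset.mem_range, Finset.mem_range] at hp
            have hp1 : p.1 = 0 := by omega
            simp only [hp1, pow_zero, one_mul]
            exact (K1_int N R g hg hs M hM p.2 (by omega)).2
        _ = (n + 1) * (M * v0) := by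
            rw [Finset.sum_const, Finset.card_product, Finset.card_range, Finset.card_range,
              nsmul_eq_mul]
            push_cast
            ring
    · intro k n' hk hn'
      have hk0 : k = 0 := by simpa using hk
      subst hk0
      simp only [pow_zero, one_mul]
      exact (K1_int N R g hg hs M hM n' (by
        have : n' ≤ n := by exact_mod_cast hn'
        omega)).1
  have h0 := key 0 (Nat.zero_le _)
  have hN := key N le_rfl
  simp only [pow_zero, one_mul, Nat.cast_zero, zero_add] at h0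
  rw [norm_neg] at hN
  rw [le_div_iff₀ (by positivity)]
  have h1 : (1 + ‖y‖) ^ N ≤ 2 ^ N * (1 + ‖y‖ ^ N) := by
    refine (add_pow_le (by norm_num) (norm_nonneg y) N).trans ?_
    rw [one_pow]
    gcongr
    · norm_num
    · omega
  calc ‖F (-y)‖ * (1 + ‖y‖) ^ N ≤ ‖F (-y)‖ * (2 ^ N * (1 + ‖y‖ ^ N)) := by gcongr
    _ = 2 ^ N * (‖F (-y)‖ + ‖y‖ ^ N * ‖F (-y)‖) := by ring
    _ ≤ 2 ^ N * (M * v0 + 2 ^ N * ((N + 1) * (M * v0))) := by gcongr
    _ ≤ (2 ^ N * (v0 + 2 ^ N * ((N + 1) * v0)) + 1) * M := by nlinarith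

end Pool.LibST49
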