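import Pool.Agent.LibST49.K1

/-
PLAN (K2, MEDIUM/STRONG). (i) for fixed ζ integrate in v first: INT e1(v θ) G(ζ,v) dv with θ = A + <B,ζ> + σ‖ζ‖^2: fdecay (W = R) with N' = 2N: <= C M/(1+|θ|)^(2N), and
1+|A| <= (1+|θ|)(1+R‖B‖+R^2|σ|) gives <= C M (1+|A|)^(-2N) (1+‖B‖)^(2N) (1+|σ|)^(2N); integrate over ‖ζ‖ <= R. (ii) for fixed v integrate in ζ: the function
ζ -> e1(v σ ‖ζ‖^2) G(ζ,v) has derivatives of order n <= 4N bounded by C M (1+|σ|)^n on ‖ζ‖ <= R (norm_iteratedFDeriv_mul_le, and iterated derivatives of e1(v σ ‖ζ‖^2): induction or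
norm_iteratedFDeriv_comp_le; |v| <= v1), so fdecay with 4N and y = v B, ‖vB‖ >= v0‖B‖: <= C M (1+|σ|)^(4N) (1+‖B‖)^(-4N). Geometric mean: (1+|A|)^-N (1+‖B‖)^-N (1+|σ|)^(3N), and
1+‖(B,σ,A)‖ <= (1+|A|)(1+‖B‖)(1+|σ|). Partial functions: iteratedFDeriv of ζ -> G(ζ,v) is bounded by that of G (composition with an affine isometric embedding). If you prefer, assume more
derivatives (n <= 4N is what is given; ask for 5N if needed and tell me). Integrability: continuous with compact support; Fubini.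
-/

set_option autoImplicit false

noncomputable section

open MeasureTheory Metric Set Filter

namespace Pool.LibST49

open Pool.LibSR53

private theorem K2_norm (t : ℝ) : ‖e1 t‖ = 1 := by
  unfold e1
  rw [show 2 * (Real.pi : ℂ) * Complex.I * (t : ℂ) =
    ((2 * Real.pi * t : ℝ) : ℂ) * Complex.I by push_cast; ring]
  exact Complex.norm_exp_ofReal_mul_I _

private theorem K2_add (s t : ℝ) : e1 (s + t) = e1 s * e1 t := by
  unfold e1
  rw [← Complex.exp_add]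
  congr 1
  push_cast
  ring

private theorem K2_smooth : ContDiff ℝ (⊤ : ℕ∞) e1 := by
  unfold e1
  exact (contDiff_const.mul Complex.ofRealCLM.contDiff).cexp

private theorem K2_deriv (n : ℕ) : iteratedDeriv n e1 =
    fun s => (2 * (Real.pi : ℂ) * Complex.I) ^ n * e1 s := by
  induction n with
  | zero => simp
  | succ n ih =>
    rw [iteratedDeriv_succ, ih]
    funext s
    have h : HasDerivAt e1 (2 * (Real.pi : ℂ) * Complex.I * e1 s) s := by
      unfold e1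
      have h1 : HasDerivAt (fun t : ℝ => 2 * (Real.pi : ℂ) * Complex.I * (t : ℂ))
          (2 * (Real.pi : ℂ) * Complex.I) s := by
        simpa using (Complex.ofRealCLM.hasDerivAt (x := s)).const_mul
          (2 * (Real.pi : ℂ) * Complex.I)
      refine h1.cexp.congr_deriv ?_
      ring
    rw [(h.const_mul _).deriv]
    ring

private theorem K2_bound (n : ℕ) (s : ℝ) : ‖iteratedFDeriv ℝ n e1 s‖ ≤ (2 * Real.pi) ^ n := by
  rw [norm_iteratedFDeriv_eq_norm_iteratedDeriv, K2_deriv]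
  simp only [norm_mul, norm_pow, K2_norm, Complex.norm_I, mul_one, Complex.norm_real]
  rw [Real.norm_of_nonneg Real.pi_pos.le]
  simp

private theorem K2_slice {X Y : Type} [NormedAddCommGroup X] [NormedSpace ℝ X]
    [NormedAddCommGroup Y] [NormedSpace ℝ Y] (G : Y → ℂ) (hG : ContDiff ℝ (⊤ : ℕ∞) G) (a : Y)
    (L : X →L[ℝ] Y) (hL : ‖L‖ ≤ 1) (n : ℕ) (x : X) :
    ‖iteratedFDeriv ℝ n (fun x => G (a + L x)) x‖ ≤ ‖iteratedFDeriv ℝ n G (a + L x)‖ := by
  have hG' : ContDiff ℝ (⊤ : ℕ∞) (fun y => G (a + y)) := hG.comp (contDiff_const.add contDiff_id)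
  have h := ContinuousLinearMap.iteratedFDeriv_comp_right L hG' x (i := n)
    (by exact_mod_cast le_top)
  have h' : iteratedFDeriv ℝ n (fun x => G (a + L x)) x =
      (iteratedFDeriv ℝ n (fun y => G (a + y)) (L x)).compContinuousLinearMap fun _ => L := h
  rw [h', iteratedFDeriv_comp_add_left]
  refine (ContinuousMultilinearMap.norm_compContinuousLinearMap_le _ _).trans ?_
  rw [Finset.prod_const]
  exact mul_le_of_le_one_right (norm_nonneg _) (pow_le_one₀ (norm_nonneg _) hL)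

private theorem K2_sq (m N : ℕ) (R : ℝ) : ∃ D : ℝ, 1 ≤ D ∧ ∀ i ≤ N, ∀ x : E m, ‖x‖ ≤ R →
    ‖iteratedFDeriv ℝ i (fun ζ : E m => ‖ζ‖ ^ 2) x‖ ≤ D := by
  have h : ∀ i : ℕ, ∃ D : ℝ, ∀ x ∈ closedBall (0 : E m) R,
      ‖iteratedFDeriv ℝ i (fun ζ : E m => ‖ζ‖ ^ 2) x‖ ≤ D := by
    intro i
    refine (isCompact_closedBall (0 : E m) R).exists_bound_of_continuousOn ?_
    exact ((contDiff_norm_sq ℝ (E := E m) (n := (⊤ : ℕ∞))).continuous_iteratedFDeriv
      (by exact_mod_cast le_top)).continuousOn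
  choose D hD using h
  refine ⟨1 + ∑ i ∈ Finset.range (N + 1), |D i|, ?_, fun i hi x hx => ?_⟩
  · have : 0 ≤ ∑ i ∈ Finset.range (N + 1), |D i| := Finset.sum_nonneg fun i _ => abs_nonneg _
    linarith
  · refine (hD i x (by rwa [mem_closedBall, dist_zero_right])).trans ?_
    have h1 : |D i| ≤ ∑ i ∈ Finset.range (N + 1), |D i| :=
      Finset.single_le_sum (f := fun i => |D i|) (fun i _ => abs_nonneg _)
        (Finset.mem_range.2 (by omega))
    have h2 := le_abs_self (D i)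
    linarith

/-- derivatives of the Gaussian factor -/
private theorem K2_gauss (m N : ℕ) (R : ℝ) : ∃ C : ℝ, 1 ≤ C ∧ ∀ n ≤ N, ∀ (t : ℝ) (x : E m),
    ‖x‖ ≤ R → ‖iteratedFDeriv ℝ n (fun ζ : E m => e1 (t * ‖ζ‖ ^ 2)) x‖ ≤ C * (1 + |t|) ^ N := by
  obtain ⟨D, hD1, hD⟩ := K2_sq m N R
  have hpi := Real.pi_gt_three
  refine ⟨N.factorial * (2 * Real.pi) ^ N * D ^ N, ?_, ?_⟩
  · have h1 : (1 : ℝ) ≤ N.factorial := by exact_mod_cast N.factorial_pos
    have h2 : (1 : ℝ) ≤ (2 * Real.pi) ^ N := one_le_pow₀ (by linarith)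
    have h3 : (1 : ℝ) ≤ D ^ N := one_le_pow₀ hD1
    exact one_le_mul_of_one_le_of_one_le (one_le_mul_of_one_le_of_one_le h1 h2) h3
  intro n hn t x hx
  have hsq : ContDiff ℝ (⊤ : ℕ∞) (fun ζ : E m => t * ‖ζ‖ ^ 2) :=
    contDiff_const.mul (contDiff_norm_sq ℝ)
  have h := norm_iteratedFDeriv_comp_le (g := e1) (f := fun ζ : E m => t * ‖ζ‖ ^ 2) (n := n)
    (N := (⊤ : ℕ∞)) K2_smooth hsq (by exact_mod_cast le_top) x (C := (2 * Real.pi) ^ N)
    (D := D * (1 + |t|)) ?_ ?_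
  · refine le_trans h ?_
    have ht : 1 ≤ 1 + |t| := by linarith [abs_nonneg t]
    have hDt : 1 ≤ D * (1 + |t|) := one_le_mul_of_one_le_of_one_le hD1 ht
    calc (n.factorial : ℝ) * (2 * Real.pi) ^ N * (D * (1 + |t|)) ^ n
        ≤ N.factorial * (2 * Real.pi) ^ N * (D * (1 + |t|)) ^ N := by
          gcongr
      _ = _ := by rw [mul_pow D]; ring
  · intro i hi
    refine (K2_bound i _).trans ?_
    exact pow_le_pow_right₀ (by linarith) (hi.trans hn)
  · intro i h1 hi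
    have e : iteratedFDeriv ℝ i (fun ζ : E m => t * ‖ζ‖ ^ 2) x =
        t • iteratedFDeriv ℝ i (fun ζ : E m => ‖ζ‖ ^ 2) x := by
      have := iteratedFDeriv_const_smul_apply (𝕜 := ℝ) (i := i) (a := t) (x := x)
        (f := fun ζ : E m => ‖ζ‖ ^ 2) (((contDiff_norm_sq ℝ (n := i)).contDiffAt))
      exact this
    rw [e, norm_smul, Real.norm_eq_abs]
    have hDi := hD i (hi.trans hn) x hx
    have ht : 1 ≤ 1 + |t| := by linarith [abs_nonneg t]
    calc |t| * ‖iteratedFDeriv ℝ i (fun ζ : E m => ‖ζ‖ ^ 2) x‖ ≤ (1 + |t|) * D := by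
          gcongr
          linarith
      _ = (D * (1 + |t|)) ^ 1 := by ring
      _ ≤ (D * (1 + |t|)) ^ i :=
          pow_le_pow_right₀ (one_le_mul_of_one_le_of_one_le hD1 ht) h1

/-- integration in v -/
private theorem K2_one (m N : ℕ) (R v0 v1 : ℝ) (h0 : 0 < v0) (hR : 0 ≤ R) :
    ∃ C : ℝ, 0 < C ∧ ∀ G : V m → ℂ,
    ContDiff ℝ (⊤ : ℕ∞) G → (∀ z, G z ≠ 0 → ‖z.1‖ ≤ R ∧ v0 ≤ z.2 ∧ z.2 ≤ v1) → ∀ M : ℝ,
    (∀ n ≤ 4 * N, ∀ z, ‖iteratedFDeriv ℝ n G z‖ ≤ M) → ∀ (B : E m) (σ A : ℝ),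
    Integrable (fun z : V m => e1 (z.2 * (A + inner ℝ B z.1 + σ * ‖z.1‖ ^ 2)) * G z) →
    ‖∫ z : V m, e1 (z.2 * (A + inner ℝ B z.1 + σ * ‖z.1‖ ^ 2)) * G z‖ ≤
      C * M * ((1 + ‖B‖) * (1 + |σ|)) ^ (2 * N) / (1 + |A|) ^ (2 * N) := by
  obtain ⟨C, hC, hdec⟩ := fdecay (W := ℝ) (2 * N) v1
  have hvol : 0 ≤ volume.real (closedBall (0 : E m) R) := measureReal_nonneg
  refine ⟨C * ((1 + R) ^ 2) ^ (2 * N) * (volume.real (closedBall (0 : E m) R) + 1), by positivity,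
    ?_⟩
  intro G hG hs M hM B σ A hint
  have hM0 : 0 ≤ M := (norm_nonneg _).trans (hM 0 (Nat.zero_le _) 0)
  rw [Measure.volume_eq_prod, integral_prod _ hint]
  have hzero : ∀ ζ : E m, ζ ∉ closedBall (0 : E m) R →
      ∫ v : ℝ, e1 (v * (A + inner ℝ B ζ + σ * ‖ζ‖ ^ 2)) * G (ζ, v) = 0 := by
    intro ζ hζ
    have : ∀ v : ℝ, G (ζ, v) = 0 := by
      intro v
      by_contra h
      exact hζ (by rw [mem_closedBall, dist_zero_right]; exact (hs (ζ, v) h).1)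
    simp only [this, mul_zero, integral_zero]
  rw [← setIntegral_eq_integral_of_forall_compl_eq_zero hzero]
  have hb : ∀ ζ ∈ closedBall (0 : E m) R,
      ‖∫ v : ℝ, e1 (v * (A + inner ℝ B ζ + σ * ‖ζ‖ ^ 2)) * G (ζ, v)‖ ≤
      C * M * ((1 + R) ^ 2 * ((1 + ‖B‖) * (1 + |σ|))) ^ (2 * N) / (1 + |A|) ^ (2 * N) := by
    intro ζ hζ
    rw [mem_closedBall, dist_zero_right] at hζ
    set θ := A + inner ℝ B ζ + σ * ‖ζ‖ ^ 2 with hθ
    have e : (fun v : ℝ => G (ζ, v)) = fun v : ℝ => G ((ζ, 0) + ContinuousLinearMap.inr ℝ (E m) ℝ v) := by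
      funext v
      simp
    have h1 := hdec (fun v => G (ζ, v)) ?_ ?_ M ?_ θ
    · have e2 : (∫ v : ℝ, e1 (inner ℝ θ v) * G (ζ, v)) = ∫ v : ℝ, e1 (v * θ) * G (ζ, v) := by
        refine integral_congr_ae (Filter.Eventually.of_forall fun v => ?_)
        simp [mul_comm]
      rw [e2] at h1
      refine h1.trans ?_
      rw [Real.norm_eq_abs]
      have hA : 1 + |A| ≤ (1 + |θ|) * ((1 + R) ^ 2 * ((1 + ‖B‖) * (1 + |σ|))) := by
        have hin : |inner ℝ B ζ| ≤ ‖B‖ * R :=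
          (abs_real_inner_le_norm B ζ).trans (by gcongr)
        have hsq : |σ * ‖ζ‖ ^ 2| ≤ |σ| * R ^ 2 := by
          rw [abs_mul, abs_of_nonneg (sq_nonneg ‖ζ‖)]
          gcongr
        have hA1 : |A| ≤ |θ| + ‖B‖ * R + |σ| * R ^ 2 := by
          have : A = θ - inner ℝ B ζ - σ * ‖ζ‖ ^ 2 := by rw [hθ]; ring
          rw [this]
          refine (abs_sub _ _).trans ?_
          have := abs_sub θ (inner ℝ B ζ)
          linarith
        have hB := norm_nonneg B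
        have hσ := abs_nonneg σ
        have hθ0 := abs_nonneg θ
        have hq : 1 + ‖B‖ * R + |σ| * R ^ 2 ≤ (1 + R) ^ 2 * ((1 + ‖B‖) * (1 + |σ|)) := by
          have e1' : (1 + R) ^ 2 * ((1 + ‖B‖) * (1 + |σ|)) - (1 + ‖B‖ * R + |σ| * R ^ 2) =
              (2 * R + R ^ 2) + ‖B‖ * (1 + R + R ^ 2) + |σ| * (1 + 2 * R) +
              ‖B‖ * |σ| * (1 + R) ^ 2 := by ring
          have : 0 ≤ (2 * R + R ^ 2) + ‖B‖ * (1 + R + R ^ 2) + |σ| * (1 + 2 * R) +
              ‖B‖ * |σ| * (1 + R) ^ 2 := by positivity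
          linarith
        calc 1 + |A| ≤ |θ| + (1 + ‖B‖ * R + |σ| * R ^ 2) := by linarith
          _ ≤ (1 + |θ|) * (1 + ‖B‖ * R + |σ| * R ^ 2) := by
              have : 0 ≤ ‖B‖ * R + |σ| * R ^ 2 := by positivity
              nlinarith
          _ ≤ _ := by gcongr
      rw [div_le_div_iff₀ (by positivity) (by positivity), mul_assoc (C * M), ← mul_pow]
      have := pow_le_pow_left₀ (by positivity) hA (2 * N)
      have hCM : 0 ≤ C * M := by positivity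
      rw [mul_comm ((1 + R) ^ 2 * ((1 + ‖B‖) * (1 + |σ|))) (1 + |θ|)]
      gcongr
    · rw [e]
      exact hG.comp (contDiff_const.add (ContinuousLinearMap.contDiff _))
    · intro v hvne
      have := hs (ζ, v) hvne
      rw [Real.norm_eq_abs, abs_of_nonneg (h0.le.trans this.2.1)]
      exact this.2.2
    · intro n hn v
      rw [e]
      refine (K2_slice G hG (ζ, 0) _ (ContinuousLinearMap.norm_inr_le_one ℝ (E m) ℝ) n v).trans ?_
      exact hM n (by omega) _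
  refine (norm_setIntegral_le_of_norm_le_const measure_closedBall_lt_top hb).trans ?_
  rw [mul_pow, div_mul_eq_mul_div]
  refine div_le_div_of_nonneg_right ?_ (by positivity)
  have hX : 0 ≤ C * M * (((1 + R) ^ 2) ^ (2 * N) * ((1 + ‖B‖) * (1 + |σ|)) ^ (2 * N)) := by
    positivity
  nlinarith

/-- integration in ζ -/
private theorem K2_two (m N : ℕ) (R v0 v1 : ℝ) (h0 : 0 < v0) (hv : v0 ≤ v1) :
    ∃ C : ℝ, 0 < C ∧ ∀ G : V m → ℂ,
    ContDiff ℝ (⊤ : ℕ∞) G → (∀ z, G z ≠ 0 → ‖z.1‖ ≤ R ∧ v0 ≤ z.2 ∧ z.2 ≤ v1) → ∀ M : ℝ,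
    (∀ n ≤ 4 * N, ∀ z, ‖iteratedFDeriv ℝ n G z‖ ≤ M) → ∀ (B : E m) (σ A : ℝ),
    Integrable (fun z : V m => e1 (z.2 * (A + inner ℝ B z.1 + σ * ‖z.1‖ ^ 2)) * G z) →
    ‖∫ z : V m, e1 (z.2 * (A + inner ℝ B z.1 + σ * ‖z.1‖ ^ 2)) * G z‖ ≤
      C * M * (1 + |σ|) ^ (4 * N) / (1 + ‖B‖) ^ (4 * N) := by
  obtain ⟨C, hC, hdec⟩ := fdecay (W := E m) (4 * N) R
  obtain ⟨C1, hC1, hg⟩ := K2_gauss m (4 * N) R
  set c0 : ℝ := min 1 v0 with hc0
  have hc0p : 0 < c0 := lt_min one_pos h0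
  have hv1 : 0 < v1 := h0.trans_le hv
  refine ⟨C * (2 ^ (4 * N) * (C1 * (1 + v1) ^ (4 * N))) / c0 ^ (4 * N) * (v1 - v0 + 1),
    by have : 0 < v1 - v0 + 1 := by linarith
       positivity, ?_⟩
  intro G hG hs M hM B σ A hint
  have hM0 : 0 ≤ M := (norm_nonneg _).trans (hM 0 (Nat.zero_le _) 0)
  rw [Measure.volume_eq_prod, integral_prod_symm _ hint]
  have hzero : ∀ v : ℝ, v ∉ Icc v0 v1 →
      ∫ ζ : E m, e1 (v * (A + inner ℝ B ζ + σ * ‖ζ‖ ^ 2)) * G (ζ, v) = 0 := by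
    intro v hv'
    have : ∀ ζ : E m, G (ζ, v) = 0 := by
      intro ζ
      by_contra h
      exact hv' ⟨(hs (ζ, v) h).2.1, (hs (ζ, v) h).2.2⟩
    simp only [this, mul_zero, integral_zero]
  rw [← setIntegral_eq_integral_of_forall_compl_eq_zero hzero]
  have hb : ∀ v ∈ Icc v0 v1,
      ‖∫ ζ : E m, e1 (v * (A + inner ℝ B ζ + σ * ‖ζ‖ ^ 2)) * G (ζ, v)‖ ≤
      C * (2 ^ (4 * N) * (C1 * ((1 + v1) * (1 + |σ|)) ^ (4 * N)) * M) /
        (c0 * (1 + ‖B‖)) ^ (4 * N) := by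
    intro v hv'
    have hvp : 0 < v := h0.trans_le hv'.1
    have e : (fun ζ : E m => G (ζ, v)) =
        fun ζ : E m => G ((0, v) + ContinuousLinearMap.inl ℝ (E m) ℝ ζ) := by
      funext ζ
      simp
    have hGv : ContDiff ℝ (⊤ : ℕ∞) (fun ζ : E m => G (ζ, v)) := by
      rw [e]
      exact hG.comp (contDiff_const.add (ContinuousLinearMap.contDiff _))
    have hev : ContDiff ℝ (⊤ : ℕ∞) (fun ζ : E m => e1 (v * σ * ‖ζ‖ ^ 2)) :=
      K2_smooth.comp (contDiff_const.mul (contDiff_norm_sq ℝ))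
    have e2 : (∫ ζ : E m, e1 (v * (A + inner ℝ B ζ + σ * ‖ζ‖ ^ 2)) * G (ζ, v)) =
        e1 (v * A) * ∫ ζ : E m, e1 (inner ℝ (v • B) ζ) * (e1 (v * σ * ‖ζ‖ ^ 2) * G (ζ, v)) := by
      rw [← integral_const_mul]
      refine integral_congr_ae (Filter.Eventually.of_forall fun ζ => ?_)
      simp only
      rw [show v * (A + inner ℝ B ζ + σ * ‖ζ‖ ^ 2) =
        v * A + (inner ℝ (v • B) ζ + v * σ * ‖ζ‖ ^ 2) by
          rw [real_inner_smul_left]; ring, K2_add, K2_add]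
      ring
    rw [e2, norm_mul, K2_norm, one_mul]
    have h1 := hdec (fun ζ => e1 (v * σ * ‖ζ‖ ^ 2) * G (ζ, v)) (hev.mul hGv) ?_
      (2 ^ (4 * N) * (C1 * ((1 + v1) * (1 + |σ|)) ^ (4 * N)) * M) ?_ (v • B)
    · refine h1.trans ?_
      rw [norm_smul, Real.norm_of_nonneg hvp.le]
      have h2 : c0 * (1 + ‖B‖) ≤ 1 + v * ‖B‖ := by
        have ha : c0 ≤ 1 := min_le_left _ _
        have hb' : c0 ≤ v := (min_le_right _ _).trans hv'.1
        have := norm_nonneg B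
        nlinarith [mul_le_mul_of_nonneg_right hb' this]
      refine div_le_div_of_nonneg_left (by positivity) (by positivity) ?_
      exact pow_le_pow_left₀ (by positivity) h2 _
    · intro ζ hne
      have : G (ζ, v) ≠ 0 := fun h => hne (by rw [h, mul_zero])
      exact (hs (ζ, v) this).1
    · intro n hn ζ
      by_cases hζ : ‖ζ‖ ≤ R
      · refine (norm_iteratedFDeriv_mul_le (N := (⊤ : ℕ∞)) hev hGv ζ
          (by exact_mod_cast le_top)).trans ?_
        have hterm : ∀ i ∈ Finset.range (n + 1), (n.choose i : ℝ) *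
            ‖iteratedFDeriv ℝ i (fun ζ : E m => e1 (v * σ * ‖ζ‖ ^ 2)) ζ‖ *
            ‖iteratedFDeriv ℝ (n - i) (fun ζ : E m => G (ζ, v)) ζ‖ ≤
            (n.choose i : ℝ) * (C1 * ((1 + v1) * (1 + |σ|)) ^ (4 * N)) * M := by
          intro i hi
          rw [Finset.mem_range] at hi
          have a1 : ‖iteratedFDeriv ℝ i (fun ζ : E m => e1 (v * σ * ‖ζ‖ ^ 2)) ζ‖ ≤
              C1 * ((1 + v1) * (1 + |σ|)) ^ (4 * N) := by
            refine (hg i (by omega) (v * σ) ζ hζ).trans ?_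
            have : 1 + |v * σ| ≤ (1 + v1) * (1 + |σ|) := by
              rw [abs_mul, abs_of_pos hvp]
              have := abs_nonneg σ
              nlinarith [mul_le_mul_of_nonneg_right hv'.2 this]
            gcongr
          have a2 : ‖iteratedFDeriv ℝ (n - i) (fun ζ : E m => G (ζ, v)) ζ‖ ≤ M := by
            rw [e]
            refine (K2_slice G hG (0, v) _ (ContinuousLinearMap.norm_inl_le_one ℝ (E m) ℝ)
              (n - i) ζ).trans ?_
            exact hM _ (by omega) _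
          gcongr
        refine (Finset.sum_le_sum hterm).trans ?_
        rw [← Finset.sum_mul, ← Finset.sum_mul]
        have hch : ∑ i ∈ Finset.range (n + 1), (n.choose i : ℝ) = 2 ^ n := by
          have := Nat.sum_range_choose n
          exact_mod_cast this
        rw [hch]
        have hp : (2 : ℝ) ^ n ≤ 2 ^ (4 * N) := pow_le_pow_right₀ (by norm_num) hn
        gcongr
      · have hz : iteratedFDeriv ℝ n (fun ζ : E m => e1 (v * σ * ‖ζ‖ ^ 2) * G (ζ, v)) ζ = 0 := by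
          by_contra h
          have h1 : ζ ∈ tsupport (fun ζ : E m => e1 (v * σ * ‖ζ‖ ^ 2) * G (ζ, v)) :=
            support_iteratedFDeriv_subset n h
          have h2 : tsupport (fun ζ : E m => e1 (v * σ * ‖ζ‖ ^ 2) * G (ζ, v)) ⊆
              closedBall 0 R := by
            refine closure_minimal (fun ζ' hζ' => ?_) isClosed_closedBall
            rw [mem_closedBall, dist_zero_right]
            have : G (ζ', v) ≠ 0 := fun h => hζ' (by simp only [h, mul_zero])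
            exact (hs (ζ', v) this).1
          have h3 := h2 h1
          rw [mem_closedBall, dist_zero_right] at h3
          exact hζ h3
        rw [hz, norm_zero]
        positivity
  refine (norm_setIntegral_le_of_norm_le_const (by simp) hb).trans ?_
  rw [Real.volume_real_Icc_of_le hv]
  have hcp : 0 < c0 ^ (4 * N) := by positivity
  have hBp : 0 < (1 + ‖B‖) ^ (4 * N) := by positivity
  have key : C * (2 ^ (4 * N) * (C1 * ((1 + v1) * (1 + |σ|)) ^ (4 * N)) * M) /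
        (c0 * (1 + ‖B‖)) ^ (4 * N) =
      C * (2 ^ (4 * N) * (C1 * (1 + v1) ^ (4 * N))) / c0 ^ (4 * N) * M *
        (1 + |σ|) ^ (4 * N) / (1 + ‖B‖) ^ (4 * N) := by
    rw [mul_pow, mul_pow]
    field_simp
  rw [key]
  set Q := C * (2 ^ (4 * N) * (C1 * (1 + v1) ^ (4 * N))) / c0 ^ (4 * N) with hQ
  have hQ0 : 0 ≤ Q := by positivity
  have : Q * M * (1 + |σ|) ^ (4 * N) / (1 + ‖B‖) ^ (4 * N) * (v1 - v0) ≤
      Q * M * (1 + |σ|) ^ (4 * N) / (1 + ‖B‖) ^ (4 * N) * (v1 - v0 + 1) := by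
    refine mul_le_mul_of_nonneg_left (by linarith) (by positivity)
  refine this.trans (le_of_eq ?_)
  ring

private theorem K2_int (m : ℕ) (R v0 v1 : ℝ) (G : V m → ℂ)
    (hG : ContDiff ℝ (⊤ : ℕ∞) G) (hs : ∀ z, G z ≠ 0 → ‖z.1‖ ≤ R ∧ v0 ≤ z.2 ∧ z.2 ≤ v1)
    (B : E m) (σ A : ℝ) :
    Integrable (fun z : V m => e1 (z.2 * (A + inner ℝ B z.1 + σ * ‖z.1‖ ^ 2)) * G z) := by
  refine Continuous.integrable_of_hasCompactSupport ?_ ?_
  · refine Continuous.mul (K2_smooth.continuous.comp ?_) hG.continuous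
    fun_prop
  · refine HasCompactSupport.intro ((isCompact_closedBall (0 : E m) R).prod
      (isCompact_Icc (a := v0) (b := v1))) fun z hz => ?_
    have : G z = 0 := by
      by_contra h
      have := hs z h
      exact hz ⟨by rw [mem_closedBall, dist_zero_right]; exact this.1, this.2.1, this.2.2⟩
    rw [this, mul_zero]

/-- oscillatory integrals with the phase v (A + <B,ζ> + σ |ζ|^2) -/
theorem osc (m N : ℕ) (R v0 v1 : ℝ) (h0 : 0 < v0) : ∃ C : ℝ, 0 < C ∧ ∀ G : V m → ℂ,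
    ContDiff ℝ (⊤ : ℕ∞) G → (∀ z, G z ≠ 0 → ‖z.1‖ ≤ R ∧ v0 ≤ z.2 ∧ z.2 ≤ v1) → ∀ M : ℝ,
    (∀ n ≤ 4 * N, ∀ z, ‖iteratedFDeriv ℝ n G z‖ ≤ M) → ∀ (B : E m) (σ A : ℝ),
    ‖∫ z : V m, e1 (z.2 * (A + inner ℝ B z.1 + σ * ‖z.1‖ ^ 2)) * G z‖ ≤
      C * M * (1 + |σ|) ^ (4 * N) / (1 + ‖((B, σ, A) : X m)‖) ^ N := by
  obtain ⟨K1, hK1, h1⟩ := K2_one m N (max R 0) v0 (max v1 v0) h0 (le_max_right _ _)
  obtain ⟨K2, hK2, h2⟩ := K2_two m N (max R 0) v0 (max v1 v0) h0 (le_max_right _ _)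
  refine ⟨K1 + K2, by positivity, ?_⟩
  intro G hG hs M hM B σ A
  have hM0 : 0 ≤ M := (norm_nonneg _).trans (hM 0 (Nat.zero_le _) 0)
  have hs' : ∀ z, G z ≠ 0 → ‖z.1‖ ≤ max R 0 ∧ v0 ≤ z.2 ∧ z.2 ≤ max v1 v0 := fun z hz =>
    ⟨(hs z hz).1.trans (le_max_left _ _), (hs z hz).2.1, (hs z hz).2.2.trans (le_max_left _ _)⟩
  have hint := K2_int m R v0 v1 G hG hs B σ A
  have b1 := h1 G hG hs' M hM B σ A hint
  have b2 := h2 G hG hs' M hM B σ A hint
  set a := ‖∫ z : V m, e1 (z.2 * (A + inner ℝ B z.1 + σ * ‖z.1‖ ^ 2)) * G z‖ with ha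
  have ha0 : 0 ≤ a := norm_nonneg _
  set x := 1 + |A| with hx
  set y := 1 + ‖B‖ with hy
  set s := 1 + |σ| with hs0
  have hx1 : 1 ≤ x := by rw [hx]; linarith [abs_nonneg A]
  have hy1 : 1 ≤ y := by rw [hy]; linarith [norm_nonneg B]
  have hs1 : 1 ≤ s := by rw [hs0]; linarith [abs_nonneg σ]
  have hx0 : 0 < x := by linarith
  have hy0 : 0 < y := by linarith
  have hs00 : 0 < s := by linarith
  have hsq : a ^ 2 ≤ ((K1 + K2) * M * s ^ (3 * N) / (x * y) ^ N) ^ 2 := by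
    calc a ^ 2 = a * a := sq a
      _ ≤ (K1 * M * (y * s) ^ (2 * N) / x ^ (2 * N)) * (K2 * M * s ^ (4 * N) / y ^ (4 * N)) := by
          gcongr
      _ = K1 * K2 * (M * s ^ (3 * N) / (x * y) ^ N) ^ 2 := by
          rw [div_mul_div_comm, div_pow, mul_div_assoc']
          rw [div_eq_div_iff (by positivity) (by positivity)]
          simp only [mul_pow, ← pow_mul]
          ring
      _ ≤ (K1 + K2) ^ 2 * (M * s ^ (3 * N) / (x * y) ^ N) ^ 2 := by
          gcongr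
          nlinarith
      _ = _ := by ring
  have hq0 : 0 ≤ (K1 + K2) * M * s ^ (3 * N) / (x * y) ^ N := by positivity
  have hle : a ≤ (K1 + K2) * M * s ^ (3 * N) / (x * y) ^ N := by
    exact (pow_le_pow_iff_left₀ ha0 hq0 two_ne_zero).1 hsq
  refine hle.trans ?_
  have hnorm : 1 + ‖((B, σ, A) : X m)‖ ≤ x * y * s := by
    have hn : ‖((B, σ, A) : X m)‖ ≤ ‖B‖ + |σ| + |A| := by
      rw [Prod.norm_mk, Prod.norm_mk, Real.norm_eq_abs, Real.norm_eq_abs]
      have h1 := norm_nonneg B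
      have h2 := abs_nonneg σ
      have h3 := abs_nonneg A
      refine max_le (by linarith) (max_le (by linarith) (by linarith))
    have h1 := norm_nonneg B
    have h2 := abs_nonneg σ
    have h3 := abs_nonneg A
    rw [hx, hy, hs0]
    have : (1 + |A|) * (1 + ‖B‖) * (1 + |σ|) = 1 + (‖B‖ + |σ| + |A|) +
      (|A| * ‖B‖ + |A| * |σ| + ‖B‖ * |σ| + |A| * ‖B‖ * |σ|) := by ring
    rw [this]
    have : 0 ≤ |A| * ‖B‖ + |A| * |σ| + ‖B‖ * |σ| + |A| * ‖B‖ * |σ| := by positivity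
    linarith
  have hpos : 0 < 1 + ‖((B, σ, A) : X m)‖ := by positivity
  rw [div_le_div_iff₀ (by positivity) (by positivity)]
  have hp := pow_le_pow_left₀ hpos.le hnorm N
  calc (K1 + K2) * M * s ^ (3 * N) * (1 + ‖((B, σ, A) : X m)‖) ^ N
      ≤ (K1 + K2) * M * s ^ (3 * N) * (x * y * s) ^ N := by gcongr
    _ = (K1 + K2) * M * s ^ (4 * N) * (x * y) ^ N := by
        rw [mul_pow (x * y) s]
        ring

end Pool.LibST49
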