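import Pool.Agent.LibST49.L1
import Pool.Agent.LibST49.K6
import Pool.Agent.LibST49.G1

/-
PLAN (L2, MEDIUM/STRONG). Fg is a finite sum of MemLp 2 functions; INT |Fg|^2 = Re SUM over pairs ((i,a),(i',a')) of conj(coef) coef' INT conj(Wv a) Wv a' and gram (Z = pos a, Z' = pos a') gives
Kb (gb (cb χ b κ a.1) (cb χ b κ a'.1)) (pos a - pos a') (cb χ b κ j is a symbol: Sb v0 v1 1). i = i': schur with c a = ‖cf‖ (block with S i empty: cf = 0), factor (2^(k i m/2))^2 = 2^(k i m).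
i /= i': ‖cf_i a‖ <= SUM_(p in S i) ‖Φ(nd h a.2 - Lk κ (w κ a.1) p)‖; exchange sums; gram_far (c0 = 1/4, Bl.far) bounds the sum over (a,a') in G i x G i' for each pair p, q by C Mk N (p-q); Bl.cross.
(lintegral of ‖.‖ₑ^2 against the integral of the square: MemLp 2; use exponent (2 : ℝ).)
-/

set_option autoImplicit false

noncomputable section

open MeasureTheory Metric Set Filter

namespace Pool.LibST49

open Pool.LibSR53

/-- abstract L2 bound by the Gram matrix -/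
private theorem l2_gram {Y τ : Type} [MeasurableSpace Y] {μ : Measure Y} (I : Finset τ)
    (f : τ → Y → ℂ) (hf : ∀ t ∈ I, MemLp (f t) 2 μ) (c : τ → ℂ) :
    ∫⁻ x, ‖∑ t ∈ I, c t * f t x‖ₑ ^ (2 : ℝ) ∂μ ≤
      ENNReal.ofReal (∑ t ∈ I, ∑ t' ∈ I, ‖c t‖ * ‖c t'‖ *
        ‖∫ x, (starRingEnd ℂ) (f t x) * f t' x ∂μ‖) := by
  have hF : MemLp (fun x => ∑ t ∈ I, c t * f t x) 2 μ :=
    memLp_finsetSum I fun t ht => (hf t ht).const_mul (c t)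
  have hint : Integrable (fun x => ‖∑ t ∈ I, c t * f t x‖ ^ 2) μ := by
    have h1 := hF.integrable_norm_pow (by norm_num : (2 : ℕ) ≠ 0)
    exact h1
  have h1 : ∫⁻ x, ‖∑ t ∈ I, c t * f t x‖ₑ ^ (2 : ℝ) ∂μ
      = ENNReal.ofReal (∫ x, ‖∑ t ∈ I, c t * f t x‖ ^ 2 ∂μ) := by
    rw [ofReal_integral_eq_lintegral_ofReal hint (Eventually.of_forall fun x => by positivity)]
    refine lintegral_congr fun x => ?_
    rw [← ofReal_norm, ENNReal.ofReal_rpow_of_nonneg (norm_nonneg _) (by norm_num)]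
    norm_num
  rw [h1]
  apply ENNReal.ofReal_le_ofReal
  have hpair : ∀ t ∈ I, ∀ t' ∈ I, Integrable (fun x => (starRingEnd ℂ) (f t x) * f t' x) μ := by
    intro t ht t' ht'
    have hs : MemLp (fun x => (starRingEnd ℂ) (f t x)) 2 μ := (hf t ht).star
    exact hs.integrable_mul (hf t' ht')
  have h2 : ((∫ x, ‖∑ t ∈ I, c t * f t x‖ ^ 2 ∂μ : ℝ) : ℂ)
      = ∑ t ∈ I, ∑ t' ∈ I, (starRingEnd ℂ) (c t) * c t' *
        ∫ x, (starRingEnd ℂ) (f t x) * f t' x ∂μ := by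
    rw [← integral_complex_ofReal]
    have h3 : ∀ x, ((‖∑ t ∈ I, c t * f t x‖ ^ 2 : ℝ) : ℂ)
        = ∑ t ∈ I, ∑ t' ∈ I, (starRingEnd ℂ) (c t) * c t' *
          ((starRingEnd ℂ) (f t x) * f t' x) := by
      intro x
      push_cast
      rw [← Complex.conj_mul', map_sum, Finset.sum_mul_sum]
      refine Finset.sum_congr rfl fun t _ => Finset.sum_congr rfl fun t' _ => ?_
      rw [map_mul]
      ring
    simp_rw [h3]
    rw [integral_finsetSum]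
    · refine Finset.sum_congr rfl fun t ht => ?_
      rw [integral_finsetSum]
      · refine Finset.sum_congr rfl fun t' _ => ?_
        rw [integral_const_mul]
      · intro t' ht'
        exact (hpair t ht t' ht').const_mul _
    · intro t ht
      refine integrable_finsetSum _ fun t' ht' => ?_
      exact (hpair t ht t' ht').const_mul _
  have h4 : ∫ x, ‖∑ t ∈ I, c t * f t x‖ ^ 2 ∂μ
      = ‖((∫ x, ‖∑ t ∈ I, c t * f t x‖ ^ 2 ∂μ : ℝ) : ℂ)‖ := by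
    rw [Complex.norm_real, Real.norm_eq_abs, abs_of_nonneg]
    exact integral_nonneg fun x => by positivity
  rw [h4, h2]
  refine le_trans (norm_sum_le _ _) (Finset.sum_le_sum fun t _ => ?_)
  refine le_trans (norm_sum_le _ _) (Finset.sum_le_sum fun t' _ => ?_)
  rw [norm_mul, norm_mul, RCLike.norm_conj]

/-- localised symbols are symbols -/
private theorem cb_sb {m : ℕ} {v0 v1 : ℝ} {χ : E m → ℝ} (hχ : Pu χ) {b : V m → ℂ}
    (hb : Sb v0 v1 1 b) (κ : ℕ) (j : Fin m → ℤ) : Sb v0 v1 1 (cb χ b κ j) := by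
  refine ⟨hb.pos, hb.le, ?_, ?_⟩
  · unfold cb
    refine ContDiff.mul ?_ hb.smooth
    have h1 : ContDiff ℝ (⊤ : ℕ∞) fun z : V m => χ ((2 : ℝ) ^ κ • z.1 - iv j) :=
      hχ.smooth.comp ((contDiff_fst.const_smul _).sub contDiff_const)
    exact Complex.ofRealCLM.contDiff.comp h1
  · intro z hz
    apply hb.supp
    intro h0
    apply hz
    unfold cb
    rw [h0, mul_zero]

/-- L2 bound for arbitrary finite subfamilies of wave packets -/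
theorem total_L2 {m : ℕ} (hm : 1 ≤ m) {h v0 v1 ρ R : ℝ} {Φ Φh : X m → ℂ}
    (hR : Rp h v0 v1 ρ R Φ Φh) {χ : E m → ℝ} (hχ : Pu χ) {b : V m → ℂ} (hb : Sb v0 v1 1 b)
    (N : ℕ) : ∃ (C : ℝ) (M : ℕ), 0 < C ∧ ∀ (C1 : ℝ), 0 ≤ C1 → ∀ (κ : ℕ) (β : Type)
    [DecidableEq β] (B : Finset β) (k : β → ℕ) (S : β → Finset (X m)), Bl κ N C1 B k S →
    ∀ γ : β → X m → ℂ, (∀ i p, ‖γ i p‖ ≤ 1) → ∀ G : β → Finset (Pk m),
    (∀ i, ∀ a ∈ G i, a.1 ∈ J m κ) → ∀ s0 : ℝ,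
    ∫⁻ x, ‖Fg χ b Φ h κ s0 B k S γ G x‖ₑ ^ (2 : ℝ) ≤
      ENNReal.ofReal (C * ((2 : ℝ)⁻¹ ^ (κ * m) * ∑ i ∈ B, ∑ a ∈ G i, (2 : ℝ) ^ (k i * m) *
        (‖cf Φ h κ (S i) (γ i) a‖ * (1 + rh h κ (S i) a) ^ M) ^ 2 + C1 * Wt B k S)) := by
  obtain ⟨Cs, M, hCs, hschur⟩ := schur hm hR.hpos hχ hb
  obtain ⟨Cg, hCg, hfar⟩ := gram_far hm hR hχ hb N (1 / 4) (by norm_num)
  refine ⟨Cs + Cg, M, by positivity, ?_⟩
  intro C1 hC1 κ β _ B k S hBl γ hγ G hG s0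
  -- the coefficients
  let cc : (Σ _ : β, Pk m) → ℂ := fun t =>
    (((2 : ℝ) ^ ((k t.1 : ℝ) * ((m : ℝ) / 2)) : ℝ) : ℂ) * cf Φ h κ (S t.1) (γ t.1) t.2
  let ff : (Σ _ : β, Pk m) → E (m + 1) → ℂ := fun t x => Wv χ b h κ s0 t.2 x
  have hFg : ∀ x, Fg χ b Φ h κ s0 B k S γ G x = ∑ t ∈ B.sigma G, cc t * ff t x := by
    intro x
    rw [Finset.sum_sigma]
    unfold Fg
    refine Finset.sum_congr rfl fun i _ => ?_
    rw [Finset.mul_sum]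
    refine Finset.sum_congr rfl fun a _ => ?_
    simp only [cc, ff]
    ring
  have hmem : ∀ t ∈ B.sigma G, MemLp (ff t) 2 volume := by
    intro t _
    exact (gram hm (cb_sb hχ hb κ t.2.1) (cb_sb hχ hb κ t.2.1) s0 (pos h κ t.2) (pos h κ t.2)).1
  have hgram : ∀ t t', ∫ x, (starRingEnd ℂ) (ff t x) * ff t' x
      = Kb (gb (cb χ b κ t.2.1) (cb χ b κ t'.2.1)) (pos h κ t.2 - pos h κ t'.2) := by
    intro t t'
    exact (gram hm (cb_sb hχ hb κ t.2.1) (cb_sb hχ hb κ t'.2.1) s0 (pos h κ t.2)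
      (pos h κ t'.2)).2
  simp_rw [hFg]
  refine le_trans (l2_gram (B.sigma G) ff hmem cc) ?_
  apply ENNReal.ofReal_le_ofReal
  simp_rw [hgram]
  have hccn : ∀ t, ‖cc t‖ = (2 : ℝ) ^ ((k t.1 : ℝ) * ((m : ℝ) / 2)) *
      ‖cf Φ h κ (S t.1) (γ t.1) t.2‖ := by
    intro t
    simp only [cc]
    rw [norm_mul, Complex.norm_real, Real.norm_eq_abs, abs_of_pos (by positivity)]
  -- the blocks
  let Q : β → β → ℝ := fun i i' => ∑ a ∈ G i, ∑ a' ∈ G i',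
    ((2 : ℝ) ^ ((k i : ℝ) * ((m : ℝ) / 2)) * ‖cf Φ h κ (S i) (γ i) a‖) *
    ((2 : ℝ) ^ ((k i' : ℝ) * ((m : ℝ) / 2)) * ‖cf Φ h κ (S i') (γ i') a'‖) *
    ‖Kb (gb (cb χ b κ a.1) (cb χ b κ a'.1)) (pos h κ a - pos h κ a')‖
  have hsum : ∑ t ∈ B.sigma G, ∑ t' ∈ B.sigma G, ‖cc t‖ * ‖cc t'‖ *
      ‖Kb (gb (cb χ b κ t.2.1) (cb χ b κ t'.2.1)) (pos h κ t.2 - pos h κ t'.2)‖
      = ∑ i ∈ B, ∑ i' ∈ B, Q i i' := by
    rw [Finset.sum_sigma]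
    refine Finset.sum_congr rfl fun i _ => ?_
    have hcomm : ∑ i' ∈ B, Q i i' = ∑ a ∈ G i, ∑ i' ∈ B, ∑ a' ∈ G i',
        ((2 : ℝ) ^ ((k i : ℝ) * ((m : ℝ) / 2)) * ‖cf Φ h κ (S i) (γ i) a‖) *
        ((2 : ℝ) ^ ((k i' : ℝ) * ((m : ℝ) / 2)) * ‖cf Φ h κ (S i') (γ i') a'‖) *
        ‖Kb (gb (cb χ b κ a.1) (cb χ b κ a'.1)) (pos h κ a - pos h κ a')‖ := Finset.sum_comm
    rw [hcomm]
    refine Finset.sum_congr rfl fun a _ => ?_
    rw [Finset.sum_sigma]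
    refine Finset.sum_congr rfl fun i' _ => Finset.sum_congr rfl fun a' _ => ?_
    rw [hccn, hccn]
  rw [hsum]
  have hsplit : ∑ i ∈ B, ∑ i' ∈ B, Q i i' = ∑ i ∈ B, Q i i + ∑ i ∈ B, ∑ i' ∈ B.erase i, Q i i' := by
    rw [← Finset.sum_add_distrib]
    refine Finset.sum_congr rfl fun i hi => ?_
    rw [Finset.add_sum_erase B (fun i' => Q i i') hi]
  -- diagonal
  have hdiag : ∀ i ∈ B, Q i i ≤ Cs * (2 : ℝ)⁻¹ ^ (κ * m) * ∑ a ∈ G i, (2 : ℝ) ^ (k i * m) *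
      (‖cf Φ h κ (S i) (γ i) a‖ * (1 + rh h κ (S i) a) ^ M) ^ 2 := by
    intro i hi
    have h22 : (2 : ℝ) ^ ((k i : ℝ) * ((m : ℝ) / 2)) * (2 : ℝ) ^ ((k i : ℝ) * ((m : ℝ) / 2))
        = (2 : ℝ) ^ (k i * m) := by
      rw [← Real.rpow_add (by norm_num), ← Real.rpow_natCast]
      congr 1
      push_cast
      ring
    have hQ : Q i i = (2 : ℝ) ^ (k i * m) * ∑ a ∈ G i, ∑ a' ∈ G i,
        ‖cf Φ h κ (S i) (γ i) a‖ * ‖cf Φ h κ (S i) (γ i) a'‖ *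
        ‖Kb (gb (cb χ b κ a.1) (cb χ b κ a'.1)) (pos h κ a - pos h κ a')‖ := by
      simp only [Q]
      rw [Finset.mul_sum]
      refine Finset.sum_congr rfl fun a _ => ?_
      rw [Finset.mul_sum]
      refine Finset.sum_congr rfl fun a' _ => ?_
      rw [← h22]
      ring
    rw [hQ, ← Finset.mul_sum]
    rcases (S i).eq_empty_or_nonempty with hS | hS
    · have h0 : ∀ a, cf Φ h κ (S i) (γ i) a = 0 := by
        intro a
        unfold cf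
        rw [hS, Finset.sum_empty]
      simp only [h0, norm_zero, zero_mul]
      simp
    · have h1 := hschur κ (S i) hS (hBl.slab i hi) (G i) (hG i)
        (fun a => ‖cf Φ h κ (S i) (γ i) a‖) (fun a => norm_nonneg _)
      calc (2 : ℝ) ^ (k i * m) * ∑ a ∈ G i, ∑ a' ∈ G i,
            ‖cf Φ h κ (S i) (γ i) a‖ * ‖cf Φ h κ (S i) (γ i) a'‖ *
            ‖Kb (gb (cb χ b κ a.1) (cb χ b κ a'.1)) (pos h κ a - pos h κ a')‖
          ≤ (2 : ℝ) ^ (k i * m) * (Cs * (2 : ℝ)⁻¹ ^ (κ * m) *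
            ∑ a ∈ G i, (‖cf Φ h κ (S i) (γ i) a‖ * (1 + rh h κ (S i) a) ^ M) ^ 2) :=
            mul_le_mul_of_nonneg_left h1 (by positivity)
        _ = _ := by ring
  -- off diagonal
  have hcfn : ∀ i a, ‖cf Φ h κ (S i) (γ i) a‖ ≤
      ∑ p ∈ S i, ‖Φ (nd h a.2 - Lk κ (w κ a.1) p)‖ := by
    intro i a
    unfold cf
    refine le_trans (norm_sum_le _ _) (Finset.sum_le_sum fun p _ => ?_)
    rw [norm_mul]
    calc ‖γ i p‖ * ‖Φ (nd h a.2 - Lk κ (w κ a.1) p)‖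
        ≤ 1 * ‖Φ (nd h a.2 - Lk κ (w κ a.1) p)‖ :=
          mul_le_mul_of_nonneg_right (hγ i p) (norm_nonneg _)
      _ = _ := one_mul _
  have hoff : ∀ i ∈ B, ∀ i' ∈ B.erase i, Q i i' ≤ Cg * ∑ p ∈ S i, ∑ q ∈ S i',
      (2 : ℝ) ^ ((((k i : ℕ) : ℝ) + ((k i' : ℕ) : ℝ)) * ((m : ℝ) / 2)) * Mk N (p - q) := by
    intro i hi i' hi'
    have hne : i ≠ i' := fun h => (Finset.mem_erase.mp hi').1 h.symm
    have hi'B := (Finset.mem_erase.mp hi').2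
    have h22 : (2 : ℝ) ^ ((k i : ℝ) * ((m : ℝ) / 2)) * (2 : ℝ) ^ ((k i' : ℝ) * ((m : ℝ) / 2))
        = (2 : ℝ) ^ ((((k i : ℕ) : ℝ) + ((k i' : ℕ) : ℝ)) * ((m : ℝ) / 2)) := by
      rw [← Real.rpow_add (by norm_num)]
      congr 1
      ring
    set D : ℝ := (2 : ℝ) ^ ((((k i : ℕ) : ℝ) + ((k i' : ℕ) : ℝ)) * ((m : ℝ) / 2)) with hD
    have hD0 : 0 < D := by positivity
    have h1 : Q i i' ≤ ∑ a ∈ G i, ∑ a' ∈ G i', D *
        ∑ p ∈ S i, ∑ q ∈ S i', ‖Φ (nd h a.2 - Lk κ (w κ a.1) p)‖ *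
          ‖Φ (nd h a'.2 - Lk κ (w κ a'.1) q)‖ *
          ‖Kb (gb (cb χ b κ a.1) (cb χ b κ a'.1)) (pos h κ a - pos h κ a')‖ := by
      simp only [Q]
      refine Finset.sum_le_sum fun a _ => Finset.sum_le_sum fun a' _ => ?_
      have h3 : ∑ p ∈ S i, ∑ q ∈ S i', ‖Φ (nd h a.2 - Lk κ (w κ a.1) p)‖ *
          ‖Φ (nd h a'.2 - Lk κ (w κ a'.1) q)‖ *
          ‖Kb (gb (cb χ b κ a.1) (cb χ b κ a'.1)) (pos h κ a - pos h κ a')‖
          = (∑ p ∈ S i, ‖Φ (nd h a.2 - Lk κ (w κ a.1) p)‖) *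
            (∑ q ∈ S i', ‖Φ (nd h a'.2 - Lk κ (w κ a'.1) q)‖) *
            ‖Kb (gb (cb χ b κ a.1) (cb χ b κ a'.1)) (pos h κ a - pos h κ a')‖ := by
        rw [Finset.sum_mul_sum, Finset.sum_mul]
        refine Finset.sum_congr rfl fun p _ => ?_
        rw [Finset.sum_mul]
      rw [h3]
      calc ((2 : ℝ) ^ ((k i : ℝ) * ((m : ℝ) / 2)) * ‖cf Φ h κ (S i) (γ i) a‖) *
            ((2 : ℝ) ^ ((k i' : ℝ) * ((m : ℝ) / 2)) * ‖cf Φ h κ (S i') (γ i') a'‖) *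
            ‖Kb (gb (cb χ b κ a.1) (cb χ b κ a'.1)) (pos h κ a - pos h κ a')‖
          = D * (‖cf Φ h κ (S i) (γ i) a‖ * ‖cf Φ h κ (S i') (γ i') a'‖ *
            ‖Kb (gb (cb χ b κ a.1) (cb χ b κ a'.1)) (pos h κ a - pos h κ a')‖) := by
            rw [← h22]
            ring
        _ ≤ D * ((∑ p ∈ S i, ‖Φ (nd h a.2 - Lk κ (w κ a.1) p)‖) *
            (∑ q ∈ S i', ‖Φ (nd h a'.2 - Lk κ (w κ a'.1) q)‖) *
            ‖Kb (gb (cb χ b κ a.1) (cb χ b κ a'.1)) (pos h κ a - pos h κ a')‖) := by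
            gcongr
            · exact hcfn i a
            · exact hcfn i' a'
    refine le_trans h1 ?_
    -- exchange the sums
    have h4 : ∑ a ∈ G i, ∑ a' ∈ G i', D *
        ∑ p ∈ S i, ∑ q ∈ S i', ‖Φ (nd h a.2 - Lk κ (w κ a.1) p)‖ *
          ‖Φ (nd h a'.2 - Lk κ (w κ a'.1) q)‖ *
          ‖Kb (gb (cb χ b κ a.1) (cb χ b κ a'.1)) (pos h κ a - pos h κ a')‖
        = D * ∑ p ∈ S i, ∑ q ∈ S i', ∑ a ∈ G i, ∑ a' ∈ G i',
          ‖Φ (nd h a.2 - Lk κ (w κ a.1) p)‖ * ‖Φ (nd h a'.2 - Lk κ (w κ a'.1) q)‖ *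
          ‖Kb (gb (cb χ b κ a.1) (cb χ b κ a'.1)) (pos h κ a - pos h κ a')‖ := by
      simp_rw [← Finset.mul_sum]
      congr 1
      calc ∑ a ∈ G i, ∑ a' ∈ G i', ∑ p ∈ S i, ∑ q ∈ S i', _
          = ∑ a ∈ G i, ∑ p ∈ S i, ∑ a' ∈ G i', ∑ q ∈ S i', _ :=
            Finset.sum_congr rfl fun a _ => Finset.sum_comm
        _ = ∑ p ∈ S i, ∑ a ∈ G i, ∑ a' ∈ G i', ∑ q ∈ S i', _ := Finset.sum_comm
        _ = ∑ p ∈ S i, ∑ a ∈ G i, ∑ q ∈ S i', ∑ a' ∈ G i', _ :=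
            Finset.sum_congr rfl fun p _ => Finset.sum_congr rfl fun a _ => Finset.sum_comm
        _ = ∑ p ∈ S i, ∑ q ∈ S i', ∑ a ∈ G i, ∑ a' ∈ G i', _ :=
            Finset.sum_congr rfl fun p _ => Finset.sum_comm
    rw [h4, Finset.mul_sum, Finset.mul_sum]
    refine Finset.sum_le_sum fun p hp => ?_
    rw [Finset.mul_sum, Finset.mul_sum]
    refine Finset.sum_le_sum fun q hq => ?_
    have h5 := hfar κ p q (by
      have := hBl.far i hi i' hi'B hne p hp q hq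
      linarith) (G i) (G i') (hG i) (hG i')
    calc D * ∑ a ∈ G i, ∑ a' ∈ G i',
          ‖Φ (nd h a.2 - Lk κ (w κ a.1) p)‖ * ‖Φ (nd h a'.2 - Lk κ (w κ a'.1) q)‖ *
          ‖Kb (gb (cb χ b κ a.1) (cb χ b κ a'.1)) (pos h κ a - pos h κ a')‖
        ≤ D * (Cg * Mk N (p - q)) := mul_le_mul_of_nonneg_left h5 hD0.le
      _ = Cg * (D * Mk N (p - q)) := by ring
  rw [hsplit]
  have hA : ∑ i ∈ B, Q i i ≤ Cs * ((2 : ℝ)⁻¹ ^ (κ * m) * ∑ i ∈ B, ∑ a ∈ G i,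
      (2 : ℝ) ^ (k i * m) * (‖cf Φ h κ (S i) (γ i) a‖ * (1 + rh h κ (S i) a) ^ M) ^ 2) := by
    refine le_trans (Finset.sum_le_sum hdiag) ?_
    rw [← Finset.mul_sum, mul_assoc]
  have hBB : ∑ i ∈ B, ∑ i' ∈ B.erase i, Q i i' ≤ Cg * (C1 * Wt B k S) := by
    refine le_trans (Finset.sum_le_sum fun i hi => Finset.sum_le_sum (hoff i hi)) ?_
    simp_rw [← Finset.mul_sum]
    refine mul_le_mul_of_nonneg_left ?_ hCg.le
    have h6 := hBl.cross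
    unfold Wt
    simp_rw [← Finset.mul_sum] at h6 ⊢
    exact h6
  have hX0 : 0 ≤ (2 : ℝ)⁻¹ ^ (κ * m) * ∑ i ∈ B, ∑ a ∈ G i,
      (2 : ℝ) ^ (k i * m) * (‖cf Φ h κ (S i) (γ i) a‖ * (1 + rh h κ (S i) a) ^ M) ^ 2 := by
    refine mul_nonneg (by positivity) (Finset.sum_nonneg fun i _ => Finset.sum_nonneg fun a _ => ?_)
    exact mul_nonneg (by positivity) (sq_nonneg _)
  have hW0 : 0 ≤ C1 * Wt B k S := by
    refine mul_nonneg hC1 (Finset.sum_nonneg fun i _ => ?_)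
    positivity
  nlinarith [mul_nonneg hCg.le hX0, mul_nonneg hCs.le hW0]

end Pool.LibST49
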