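import Pool.Agent.LibST49.B4
import Pool.Agent.LibST49.S0
import Pool.Agent.LibSR53.L1
import Pool.Agent.LibSR53.L3

/-
PLAN (S2, STRONG; two parts). d = m+1 >= 4. Points p of S with 4^κ <= p.2 lie in sc k S with k >= 2κ. For residues c (mod 3, of k) and c' (mod 3, of the slab index l(p) = floor((Lam p).2.1/4^κ)): B = the pairs
(k,l) in ℕ × ℤ that occur (k >= 2κ, k = c, l = c' mod 3), block = image under Lam of {p in sc k S : l(p) = l}. N := m+3. Bl: far: same k: |s_p - s_q| >= 2 4^κ; k+3 <= k': ‖Lam p - Lam q‖ >= |q.2 - p.2|/2 >= 2^(k'-2) >= 4^κ/4.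
cross (cross_bound below, constant C1 absolute): same k: for p fixed, SUM over q in sc k S with dist p q >= L := max 1 (4^κ/8) (Lam_le_dist, Sp.sep) of Mk N <= C u L^(1-nu) (Mk_same, far_sum), and
L^(nu-1) >= c 4^(κ(m/2-1)) = c 2^(κ(m-2)) >= c 2^κ >= c u (m >= 3); factor 2^(km), sum over p: <= C 2^(km) # sc k S.
k + 3 <= k': for q fixed, SUM_(p in sc k S) 2^((k+k')m/2) Mk N <= C 2^(k m/2) u 2^k 2^(k' m)/2^(k m) (Mk_cross, count_shell + row_L3 of LibSR53.L3) = C u 2^(-k(m/2-1)) 2^(k' m); sum over k >= 2κ: geometric,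
<= C u 2^(-κ(m-2)) 2^(k' m) <= C 2^(k' m). Both orders (Mk_neg). γ: as in S1, γ (p.2/2^k)^(m/2) 2^(-m/2). 9 classes.
-/

set_option autoImplicit false

noncomputable section

open MeasureTheory Metric Set Filter

namespace Pool.LibST49

open Pool.LibSR53

/-- total interaction of points at distance at least 4^κ / 4 in a set of density u <= 2^κ: one
point of the larger scale against everything -/
theorem cross_same {m : ℕ} (hm : 3 ≤ m) : ∃ C : ℝ, 0 < C ∧ ∀ (κ k : ℕ) (u : ℝ)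
    (S : Finset (P (m + 1))), Sp S → 0 ≤ u → u ≤ 2 ^ κ → Dens u S → ∀ p ∈ sc k S,
    ∀ T : Finset (P (m + 1)), T ⊆ sc k S →
    (∀ q ∈ T, q ≠ p ∧ (4 : ℝ) ^ κ / 4 ≤ ‖Lam p - Lam q‖) →
    ∑ q ∈ T, Mk (m + 3) (Lam p - Lam q) ≤ C := by
  classical
  obtain ⟨C0, hC0, hMk⟩ := Mk_same m (m + 3) le_rfl
  obtain ⟨C1, hC1, hfar⟩ := far_sum (m + 1) (by omega)
  refine ⟨C0 * (C1 * 3), by positivity, ?_⟩
  intro κ k u S hSp hu0 hu hD p hp T hT hq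
  set L : ℝ := max 1 (4 ^ κ / 8) with hL
  have hL1 : 1 ≤ L := le_max_left _ _
  have hL0 : 0 < L := by linarith
  have hmem : ∀ x ∈ sc k S, x ∈ S ∧ (2 : ℝ) ^ k ≤ x.2 ∧ x.2 < 2 ^ (k + 1) := by
    intro x hx
    unfold sc at hx
    rw [Finset.mem_filter] at hx
    exact hx
  have hsub : T ⊆ far (sc k S) p L := by
    intro q hqT
    obtain ⟨hne, hdist⟩ := hq q hqT
    refine Finset.mem_filter.2 ⟨hT hqT, ?_⟩
    apply max_le
    · exact hSp.sep q (hmem q (hT hqT)).1 p (hmem p hp).1 hne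
    · have h1 := Lam_le_dist p q
      rw [dist_comm]
      linarith
  have hterm0 : ∀ q : P (m + 1), 0 ≤ (1 + dist p q) ^ (-nu (m + 1)) /
      (1 + dist p q / 2 ^ k) ^ (m + 1 + 2) := by
    intro q
    have : 0 ≤ dist p q := dist_nonneg
    positivity
  have h1 : ∑ q ∈ T, Mk (m + 3) (Lam p - Lam q) ≤ C0 * (C1 * u * L ^ (1 - nu (m + 1))) := by
    calc ∑ q ∈ T, Mk (m + 3) (Lam p - Lam q)
        ≤ ∑ q ∈ T, C0 * ((1 + dist p q) ^ (-nu (m + 1)) /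
            (1 + dist p q / 2 ^ k) ^ (m + 1 + 2)) := by
          refine Finset.sum_le_sum fun q hqT => ?_
          obtain ⟨-, hp1, hp2⟩ := hmem p hp
          obtain ⟨-, hq1, hq2⟩ := hmem q (hT hqT)
          exact hMk k p q hp1 hp2 hq1 hq2
      _ = C0 * ∑ q ∈ T, ((1 + dist p q) ^ (-nu (m + 1)) /
            (1 + dist p q / 2 ^ k) ^ (m + 1 + 2)) := by rw [Finset.mul_sum]
      _ ≤ C0 * ∑ q ∈ far (sc k S) p L, ((1 + dist p q) ^ (-nu (m + 1)) /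
            (1 + dist p q / 2 ^ k) ^ (m + 1 + 2)) := by
          refine mul_le_mul_of_nonneg_left ?_ hC0.le
          exact Finset.sum_le_sum_of_subset_of_nonneg hsub fun q _ _ => hterm0 q
      _ ≤ _ := mul_le_mul_of_nonneg_left (hfar k u S hu0 hD p hp L hL1) hC0.le
  have hnu : 1 - nu (m + 1) ≤ -(1 / 2 : ℝ) := by
    unfold nu
    have : (3 : ℝ) ≤ (m : ℝ) := by exact_mod_cast hm
    push_cast
    linarith
  have h2κ : (0 : ℝ) < 2 ^ κ := by positivity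
  have hLb : ((2 : ℝ) ^ κ / 3) ^ 2 ≤ L := by
    refine le_trans ?_ (le_max_right _ _)
    have h4 : (4 : ℝ) ^ κ = (2 ^ κ) ^ 2 := by
      rw [← pow_mul, mul_comm, pow_mul]; norm_num
    rw [h4, div_pow]
    have : (0 : ℝ) < (2 ^ κ) ^ 2 := by positivity
    linarith
  have h2 : L ^ (1 - nu (m + 1)) ≤ 3 / 2 ^ κ := by
    calc L ^ (1 - nu (m + 1)) ≤ L ^ (-(1 / 2 : ℝ)) :=
          Real.rpow_le_rpow_of_exponent_le hL1 hnu
      _ ≤ (((2 : ℝ) ^ κ / 3) ^ 2) ^ (-(1 / 2 : ℝ)) :=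
          Real.rpow_le_rpow_of_nonpos (by positivity) hLb (by norm_num)
      _ = 3 / 2 ^ κ := by
          rw [← Real.rpow_natCast ((2 : ℝ) ^ κ / 3) 2, ← Real.rpow_mul (by positivity)]
          have : ((2 : ℕ) : ℝ) * -(1 / 2 : ℝ) = -1 := by norm_num
          rw [this, Real.rpow_neg_one, inv_div]
  refine h1.trans ?_
  refine mul_le_mul_of_nonneg_left ?_ hC0.le
  calc C1 * u * L ^ (1 - nu (m + 1)) ≤ C1 * u * (3 / 2 ^ κ) :=
        mul_le_mul_of_nonneg_left h2 (by positivity)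
    _ = C1 * 3 * (u / 2 ^ κ) := by ring
    _ ≤ C1 * 3 * 1 := by
        refine mul_le_mul_of_nonneg_left ?_ (by positivity)
        rw [div_le_one h2κ]
        exact hu
    _ = C1 * 3 := by ring

theorem cross_diff {m : ℕ} (hm : 3 ≤ m) : ∃ C : ℝ, 0 < C ∧ ∀ (κ l : ℕ) (u : ℝ)
    (S : Finset (P (m + 1))), Sp S → 0 ≤ u → u ≤ 2 ^ κ → Dens u S → ∀ q ∈ sc l S,
    ∀ K : Finset ℕ, (∀ k ∈ K, 2 * κ ≤ k ∧ k + 3 ≤ l) →
    ∑ k ∈ K, ∑ p ∈ sc k S, (2 : ℝ) ^ (((k : ℝ) + (l : ℝ)) * ((m : ℝ) / 2)) *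
      Mk (m + 3) (Lam p - Lam q) ≤ C * 2 ^ (l * m) := by
  classical
  obtain ⟨C0, hC0, hMk⟩ := Mk_cross m (m + 3) (by omega)
  obtain ⟨C1, hC1, hcount⟩ := count_shell (m + 1) (by omega)
  set r : ℝ := (2 : ℝ) ^ (-(1 / 2 : ℝ)) with hr
  have hr0 : 0 < r := Real.rpow_pos_of_pos (by norm_num) _
  have hr1 : r < 1 := Real.rpow_lt_one_of_one_lt_of_neg (by norm_num) (by norm_num)
  have h1r : 0 < 1 - r := by linarith
  have hm' : (3 : ℝ) ≤ (m : ℝ) := by exact_mod_cast hm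
  refine ⟨C0 * (2 * (C1 * 4 ^ (m + 1 + 1))) / (1 - r), by positivity, ?_⟩
  intro κ l u S hSp hu0 hu hD q hq K hK
  have hmem : ∀ (k : ℕ) (x : P (m + 1)), x ∈ sc k S →
      x ∈ S ∧ (2 : ℝ) ^ k ≤ x.2 ∧ x.2 < 2 ^ (k + 1) := by
    intro k x hx
    unfold sc at hx
    rw [Finset.mem_filter] at hx
    exact hx
  obtain ⟨hqS, hq1, hq2⟩ := hmem l q hq
  have hq0 : 0 ≤ q.2 := le_trans (by positivity) hq1
  have hper : ∀ k ∈ K, ∑ p ∈ sc k S, (2 : ℝ) ^ (((k : ℝ) + (l : ℝ)) * ((m : ℝ) / 2)) *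
      Mk (m + 3) (Lam p - Lam q) ≤
      C0 * (2 * (C1 * 4 ^ (m + 1 + 1))) * u * 2 ^ (l * m) * r ^ k := by
    intro k hk
    obtain ⟨hk1, hk2⟩ := hK k hk
    have hrow := row_L3 (d := m + 1) (by omega) hC1 hcount (k := k) (l := l) (S := S) (by omega)
      hu0 hD q hq0 hq2.le
    have hpos : (0 : ℝ) < (2 : ℝ) ^ (((k : ℝ) + (l : ℝ)) * ((m : ℝ) / 2)) := by positivity
    have hpos2 : (0 : ℝ) < (2 : ℝ) ^ (-((l : ℝ) * ((m : ℝ) / 2))) := by positivity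
    have e1 : (2 : ℝ) ^ (((k : ℝ) + (l : ℝ)) * ((m : ℝ) / 2)) *
        (2 : ℝ) ^ (-((l : ℝ) * ((m : ℝ) / 2))) = (2 : ℝ) ^ ((k : ℝ) * ((m : ℝ) / 2)) := by
      rw [← Real.rpow_add (by norm_num)]
      congr 1
      ring
    have e2 : (2 : ℝ) ^ ((k : ℝ) * ((m : ℝ) / 2)) * (2 ^ k / 2 ^ (k * m)) ≤ r ^ k := by
      rw [hr, ← Real.rpow_natCast ((2 : ℝ) ^ (-(1 / 2 : ℝ))) k, ← Real.rpow_mul (by norm_num),
        ← Real.rpow_natCast 2 k, ← Real.rpow_natCast 2 (k * m),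
        ← Real.rpow_sub (by norm_num), ← Real.rpow_add (by norm_num)]
      apply Real.rpow_le_rpow_of_exponent_le (by norm_num)
      have hk0 : (0 : ℝ) ≤ (k : ℝ) := Nat.cast_nonneg k
      push_cast
      nlinarith
    calc ∑ p ∈ sc k S, (2 : ℝ) ^ (((k : ℝ) + (l : ℝ)) * ((m : ℝ) / 2)) *
          Mk (m + 3) (Lam p - Lam q)
        ≤ ∑ p ∈ sc k S, (2 : ℝ) ^ (((k : ℝ) + (l : ℝ)) * ((m : ℝ) / 2)) *
            (C0 * (2 : ℝ) ^ (-((l : ℝ) * ((m : ℝ) / 2))) *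
              (1 / (1 + |‖p.1 - q.1‖ - q.2| / 2 ^ (k + 1)) ^ (m + 1 + 1))) := by
          refine Finset.sum_le_sum fun p hp => ?_
          obtain ⟨-, hp1, hp2⟩ := hmem k p hp
          exact mul_le_mul_of_nonneg_left (hMk k l hk2 p q hp1 hp2 hq1 hq2) hpos.le
      _ = C0 * ((2 : ℝ) ^ (((k : ℝ) + (l : ℝ)) * ((m : ℝ) / 2)) *
            (2 : ℝ) ^ (-((l : ℝ) * ((m : ℝ) / 2)))) *
            ∑ p ∈ sc k S, (1 / (1 + |‖p.1 - q.1‖ - q.2| / 2 ^ (k + 1)) ^ (m + 1 + 1)) := by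
          rw [Finset.mul_sum]
          refine Finset.sum_congr rfl fun p _ => ?_
          ring
      _ ≤ C0 * (2 : ℝ) ^ ((k : ℝ) * ((m : ℝ) / 2)) *
            (2 * (C1 * u * 2 ^ k * 2 ^ (l * (m + 1 - 1)) / 2 ^ (k * (m + 1 - 1)) *
              4 ^ (m + 1 + 1))) := by
          rw [e1]
          exact mul_le_mul_of_nonneg_left hrow (by positivity)
      _ = C0 * (2 * (C1 * 4 ^ (m + 1 + 1))) * u * 2 ^ (l * m) *
            ((2 : ℝ) ^ ((k : ℝ) * ((m : ℝ) / 2)) * (2 ^ k / 2 ^ (k * m))) := by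
          rw [Nat.add_sub_cancel]
          ring
      _ ≤ _ := mul_le_mul_of_nonneg_left e2 (by positivity)
  have hgeom : ∑ k ∈ K, r ^ k ≤ r ^ (2 * κ) / (1 - r) :=
    geom_tail_aux r hr0.le hr1 (2 * κ) K fun k hk => (hK k hk).1
  have hrκ : r ^ (2 * κ) = 1 / 2 ^ κ := by
    rw [hr, ← Real.rpow_natCast ((2 : ℝ) ^ (-(1 / 2 : ℝ))) (2 * κ),
      ← Real.rpow_mul (by norm_num)]
    have : -(1 / 2 : ℝ) * ((2 * κ : ℕ) : ℝ) = -(κ : ℝ) := by push_cast; ring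
    rw [this, Real.rpow_neg (by norm_num), Real.rpow_natCast, one_div]
  have h2κ : (0 : ℝ) < 2 ^ κ := by positivity
  calc ∑ k ∈ K, ∑ p ∈ sc k S, (2 : ℝ) ^ (((k : ℝ) + (l : ℝ)) * ((m : ℝ) / 2)) *
        Mk (m + 3) (Lam p - Lam q)
      ≤ ∑ k ∈ K, C0 * (2 * (C1 * 4 ^ (m + 1 + 1))) * u * 2 ^ (l * m) * r ^ k :=
        Finset.sum_le_sum hper
    _ = C0 * (2 * (C1 * 4 ^ (m + 1 + 1))) * u * 2 ^ (l * m) * ∑ k ∈ K, r ^ k := by
        rw [Finset.mul_sum]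
    _ ≤ C0 * (2 * (C1 * 4 ^ (m + 1 + 1))) * u * 2 ^ (l * m) * (r ^ (2 * κ) / (1 - r)) :=
        mul_le_mul_of_nonneg_left hgeom (by positivity)
    _ = C0 * (2 * (C1 * 4 ^ (m + 1 + 1))) / (1 - r) * 2 ^ (l * m) * (u / 2 ^ κ) := by
        rw [hrκ]; ring
    _ ≤ C0 * (2 * (C1 * 4 ^ (m + 1 + 1))) / (1 - r) * 2 ^ (l * m) * 1 := by
        refine mul_le_mul_of_nonneg_left ?_ (by positivity)
        rw [div_le_one h2κ]
        exact hu
    _ = _ := by ring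

end Pool.LibST49
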