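import Pool.Agent.LibST49.S2

/-
S3: all large scales together; cross_same and cross_diff are cited.
-/

set_option autoImplicit false

noncomputable section

open MeasureTheory Metric Set Filter

namespace Pool.LibST49

open Pool.LibSR53

private theorem Lam_inj {m : ℕ} : Function.Injective (Lam : P (m + 1) → X m) := by
  intro p q h
  have h1 := dist_le_Lam p q
  rw [h, sub_self, norm_zero, mul_zero] at h1
  exact dist_le_zero.1 h1

private theorem ex0_nonneg {m : ℕ} {q : ℝ} (hq : 2 < q) (hq2 : q * m ≤ 2 * ((m : ℝ) + 2)) :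
    0 ≤ ex0 m q := by
  unfold ex0
  have h0 : 0 < q - 1 := by linarith
  have h1 : (m : ℝ) ≤ ((m : ℝ) * q / 2 + 2) / (q - 1) := by
    rw [le_div_iff₀ h0]
    nlinarith
  linarith

/-- the coefficient of a point in its block -/
private def gam {m : ℕ} (γ : P (m + 1) → ℂ) (k : ℕ) (Z : X m) : ℂ :=
  open scoped Classical in
  if (2 : ℝ) ^ k ≤ rad Z ∧ rad Z ≤ 2 ^ (k + 1) then
    γ (Function.invFun Lam Z) *
      (((rad Z / 2 ^ k) ^ ((m : ℝ) / 2) * (2 : ℝ) ^ (-((m : ℝ) / 2)) : ℝ) : ℂ)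
  else 0

private theorem gam_le {m : ℕ} (γ : P (m + 1) → ℂ) (hγ : ∀ p, ‖γ p‖ ≤ 1) (k : ℕ) (Z : X m) :
    ‖gam γ k Z‖ ≤ 1 := by
  unfold gam
  split_ifs with h
  · rw [norm_mul, Complex.norm_real, Real.norm_eq_abs]
    have h2 : (0 : ℝ) < 2 ^ k := by positivity
    have h3 : 1 ≤ rad Z / 2 ^ k := by rw [le_div_iff₀ h2]; linarith [h.1]
    have h4 : rad Z / 2 ^ k ≤ 2 := by
      rw [div_le_iff₀ h2]
      have := h.2
      rw [pow_succ] at this
      linarith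
    have hm0 : (0 : ℝ) ≤ (m : ℝ) / 2 := by positivity
    have h5 : (rad Z / 2 ^ k) ^ ((m : ℝ) / 2) ≤ (2 : ℝ) ^ ((m : ℝ) / 2) :=
      Real.rpow_le_rpow (by linarith) h4 hm0
    have h6 : (2 : ℝ) ^ ((m : ℝ) / 2) * (2 : ℝ) ^ (-((m : ℝ) / 2)) = 1 := by
      rw [← Real.rpow_add (by norm_num), add_neg_cancel, Real.rpow_zero]
    have h7 : 0 ≤ (rad Z / 2 ^ k) ^ ((m : ℝ) / 2) * (2 : ℝ) ^ (-((m : ℝ) / 2)) := by positivity
    rw [abs_of_nonneg h7]
    have h8 : (rad Z / 2 ^ k) ^ ((m : ℝ) / 2) * (2 : ℝ) ^ (-((m : ℝ) / 2)) ≤ 1 := by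
      rw [← h6]
      gcongr
    calc _ ≤ 1 * 1 := mul_le_mul (hγ _) h8 h7 zero_le_one
      _ = 1 := one_mul 1
  · simp

private theorem gam_Lam {m : ℕ} (γ : P (m + 1) → ℂ) (b : V m → ℂ) (s0 : ℝ) (k : ℕ)
    (p : P (m + 1)) (h1 : (2 : ℝ) ^ k ≤ p.2) (h2 : p.2 < 2 ^ (k + 1)) (x : E (m + 1)) :
    γ p * Fb b s0 p x = (((2 : ℝ) ^ ((m : ℝ) / 2) : ℝ) : ℂ) *
      ((((2 : ℝ) ^ ((k : ℝ) * ((m : ℝ) / 2)) : ℝ) : ℂ) *
        (gam γ k (Lam p) * Kb b (Lam (x, -s0) - Lam p))) := by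
  unfold gam Fb
  have h3 : (0 : ℝ) < 2 ^ k := by positivity
  have hp : 0 < p.2 := lt_of_lt_of_le h3 h1
  rw [if_pos (by rw [rad_Lam]; exact ⟨h1, h2.le⟩), rad_Lam,
    Function.leftInverse_invFun Lam_inj p]
  have h4 : p.2 ^ nu (m + 1) = (2 : ℝ) ^ ((m : ℝ) / 2) * ((2 : ℝ) ^ ((k : ℝ) * ((m : ℝ) / 2)) *
      ((p.2 / 2 ^ k) ^ ((m : ℝ) / 2) * (2 : ℝ) ^ (-((m : ℝ) / 2)))) := by
    have e1 : nu (m + 1) = (m : ℝ) / 2 := by
      unfold nu; push_cast; ring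
    have e2 : (2 : ℝ) ^ ((k : ℝ) * ((m : ℝ) / 2)) = ((2 : ℝ) ^ k) ^ ((m : ℝ) / 2) := by
      rw [Real.rpow_mul (by norm_num), Real.rpow_natCast]
    have e3 : (2 : ℝ) ^ ((m : ℝ) / 2) * (2 : ℝ) ^ (-((m : ℝ) / 2)) = 1 := by
      rw [← Real.rpow_add (by norm_num), add_neg_cancel, Real.rpow_zero]
    rw [e1, e2, Real.div_rpow hp.le h3.le]
    have e4 : ((2 : ℝ) ^ k) ^ ((m : ℝ) / 2) ≠ 0 := (Real.rpow_pos_of_pos h3 _).ne'
    calc p.2 ^ ((m : ℝ) / 2) = ((2 : ℝ) ^ ((m : ℝ) / 2) * (2 : ℝ) ^ (-((m : ℝ) / 2))) *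
        p.2 ^ ((m : ℝ) / 2) := by rw [e3, one_mul]
      _ = _ := by field_simp
  rw [h4]
  push_cast
  ring

private theorem Wt_nn {m : ℕ} {β : Type} (B : Finset β) (k : β → ℕ) (S : β → Finset (X m)) :
    0 ≤ Wt B k S := by
  unfold Wt
  positivity

private theorem color_blk {m : ℕ} (hm : 1 ≤ m) {v0 v1 : ℝ} {b : V m → ℂ} (hb : Sb v0 v1 1 b)
    (q : ℝ) (hq : 2 < q) (hq2 : q * m ≤ 2 * ((m : ℝ) + 2)) (hC : CDec m q) (ε : ℝ)
    (hε : 0 < ε) (q1 : ℝ) (h1 : 1 < q1) (h2 : q1 < q / (q - 1)) (n : ℕ) : ∃ C : ℝ, 0 < C ∧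
    ∀ (C1 : ℝ), 0 ≤ C1 → ∀ (κ : ℕ) (T : Finset (P (m + 1))) (β : Type) [DecidableEq β]
    (kk : β → ℕ) (key : P (m + 1) → β) (col : β → ℕ),
    (∀ p ∈ T, col (key p) < n) →
    (∀ p ∈ T, (2 : ℝ) ^ (kk (key p)) ≤ p.2 ∧ p.2 < 2 ^ (kk (key p) + 1)) →
    (∀ c < n, Bl κ (m + 3) C1 ((T.image key).filter (fun i => col i = c)) kk
      (fun i => (T.filter (fun p => key p = i)).image Lam)) →
    ∀ γ : P (m + 1) → ℂ, (∀ p, ‖γ p‖ ≤ 1) →
    ∀ s0 : ℝ, ∫⁻ x, ‖∑ p ∈ T, γ p * Fb b s0 p x‖ₑ ^ q1 ≤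
      ENNReal.ofReal (C * (1 + C1) * (1 + |s0|) ^ ((m : ℝ) / 2) *
        (2 : ℝ) ^ ((κ : ℝ) * (ex0 m q + ε)) * wt T) := by
  obtain ⟨C, hCpos, hblk⟩ := strong_blk hm hb q hq hq2 hC (m + 3) ε hε q1 h1 h2
  set M : ℝ := (2 : ℝ) ^ ((m : ℝ) / 2) with hM
  have hMpos : 0 < M := by positivity
  refine ⟨M ^ q1 * ((n : ℝ) + 1) ^ (q1 - 1) * C, by positivity, ?_⟩
  intro C1 hC1 κ T β _ kk key col hcol hkk hBl γ hγ s0
  set B : ℕ → Finset β := fun c => (T.image key).filter (fun i => col i = c) with hB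
  set Sf : β → Finset (X m) := fun i => (T.filter (fun p => key p = i)).image Lam with hSf
  set g : β → X m → ℂ := fun i => gam γ (kk i) with hg
  have hg1 : ∀ i p, ‖g i p‖ ≤ 1 := fun i p => gam_le γ hγ (kk i) p
  -- the decomposition
  have hdec : ∀ x, ∑ p ∈ T, γ p * Fb b s0 p x =
      (M : ℂ) * ∑ c ∈ Finset.range n, Fn b s0 (B c) kk Sf g x := by
    intro x
    have e1 : ∑ p ∈ T, γ p * Fb b s0 p x =
        ∑ i ∈ T.image key, ∑ p ∈ T.filter (fun p => key p = i), γ p * Fb b s0 p x := by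
      rw [Finset.sum_fiberwise_of_maps_to]
      intro p hp
      exact Finset.mem_image_of_mem _ hp
    have e2 : ∀ i ∈ T.image key, ∑ p ∈ T.filter (fun p => key p = i), γ p * Fb b s0 p x =
        (M : ℂ) * ((((2 : ℝ) ^ ((kk i : ℝ) * ((m : ℝ) / 2)) : ℝ) : ℂ) *
          ∑ Z ∈ Sf i, g i Z * Kb b (Lam (x, -s0) - Z)) := by
      intro i _
      rw [hSf, Finset.sum_image (fun a _ b _ h => Lam_inj h), Finset.mul_sum, Finset.mul_sum]
      refine Finset.sum_congr rfl fun p hp => ?_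
      rw [Finset.mem_filter] at hp
      have h3 := hkk p hp.1
      rw [hp.2] at h3
      exact gam_Lam γ b s0 (kk i) p h3.1 h3.2 x
    rw [e1, Finset.sum_congr rfl e2, ← Finset.mul_sum]
    congr 1
    have e3 : ∀ i ∈ T.image key, col i ∈ Finset.range n := by
      intro i hi
      rw [Finset.mem_image] at hi
      obtain ⟨p, hp, rfl⟩ := hi
      exact Finset.mem_range.2 (hcol p hp)
    rw [← Finset.sum_fiberwise_of_maps_to e3]
    rfl
  -- measurability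
  have hmeas : ∀ c, Measurable (fun x => ‖Fn b s0 (B c) kk Sf g x‖ₑ ^ q1) := by
    intro c
    have hcont : Continuous (fun x => Fn b s0 (B c) kk Sf g x) := by
      unfold Fn
      refine continuous_finsetSum _ fun i _ => continuous_const.mul ?_
      refine continuous_finsetSum _ fun Z _ => continuous_const.mul ?_
      refine (Kb_cont hb).1.comp ?_
      exact (continuous_Lam.comp (by fun_prop)).sub continuous_const
    exact (hcont.measurable.enorm).pow_const q1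
  have hpt : ∀ x, ‖∑ p ∈ T, γ p * Fb b s0 p x‖ₑ ^ q1 ≤
      ENNReal.ofReal (M ^ q1 * ((n : ℝ) + 1) ^ (q1 - 1)) *
        ∑ c ∈ Finset.range n, ‖Fn b s0 (B c) kk Sf g x‖ₑ ^ q1 := by
    intro x
    rw [hdec x, enorm_mul, ENNReal.mul_rpow_of_nonneg _ _ (by linarith)]
    have e1 : ‖(M : ℂ)‖ₑ ^ q1 = ENNReal.ofReal (M ^ q1) := by
      rw [← ofReal_norm, Complex.norm_real, Real.norm_of_nonneg hMpos.le,
        ENNReal.ofReal_rpow_of_pos hMpos]
    rw [e1, ENNReal.ofReal_mul (by positivity), mul_assoc]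
    gcongr
    calc ‖∑ c ∈ Finset.range n, Fn b s0 (B c) kk Sf g x‖ₑ ^ q1
        ≤ (∑ c ∈ Finset.range n, ‖Fn b s0 (B c) kk Sf g x‖ₑ) ^ q1 := by
          gcongr
          exact enorm_sum_le _ _
      _ ≤ ((Finset.range n).card : ENNReal) ^ (q1 - 1) *
          ∑ c ∈ Finset.range n, ‖Fn b s0 (B c) kk Sf g x‖ₑ ^ q1 :=
          ENNReal.rpow_sum_le_const_mul_sum_rpow _ _ h1.le
      _ ≤ _ := by
          gcongr
          rw [Finset.card_range, ← ENNReal.ofReal_rpow_of_pos (by positivity)]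
          refine ENNReal.rpow_le_rpow ?_ (by linarith)
          rw [← ENNReal.ofReal_natCast]
          exact ENNReal.ofReal_le_ofReal (by linarith)
  have hWt : ∑ c ∈ Finset.range n, Wt (B c) kk Sf ≤ wt T := by
    have e3 : ∀ i ∈ T.image key, col i ∈ Finset.range n := by
      intro i hi
      rw [Finset.mem_image] at hi
      obtain ⟨p, hp, rfl⟩ := hi
      exact Finset.mem_range.2 (hcol p hp)
    have e4 : ∑ c ∈ Finset.range n, Wt (B c) kk Sf =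
        ∑ i ∈ T.image key, (2 : ℝ) ^ (kk i * m) * ((Sf i).card : ℝ) := by
      rw [← Finset.sum_fiberwise_of_maps_to e3]
      rfl
    rw [e4]
    have e5 : wt T = ∑ i ∈ T.image key, ∑ p ∈ T.filter (fun p => key p = i),
        p.2 ^ (m + 1 - 1) := by
      unfold wt
      rw [Finset.sum_fiberwise_of_maps_to]
      intro p hp
      exact Finset.mem_image_of_mem _ hp
    rw [e5]
    refine Finset.sum_le_sum fun i _ => ?_
    calc (2 : ℝ) ^ (kk i * m) * ((Sf i).card : ℝ)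
        ≤ (2 : ℝ) ^ (kk i * m) * ((T.filter (fun p => key p = i)).card : ℝ) := by
          gcongr
          exact Finset.card_image_le
      _ = ∑ p ∈ T.filter (fun p => key p = i), ((2 : ℝ) ^ (kk i)) ^ m := by
          rw [Finset.sum_const, nsmul_eq_mul, pow_mul, mul_comm]
      _ ≤ _ := by
          refine Finset.sum_le_sum fun p hp => ?_
          rw [Finset.mem_filter] at hp
          have h3 := hkk p hp.1
          rw [hp.2] at h3
          rw [Nat.add_sub_cancel]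
          exact pow_le_pow_left₀ (by positivity) h3.1 m
  have hD0 : 0 ≤ C * (1 + C1) * (1 + |s0|) ^ ((m : ℝ) / 2) *
        (2 : ℝ) ^ ((κ : ℝ) * (ex0 m q + ε)) := by positivity
  obtain ⟨D, hD⟩ : ∃ D : ℝ, D = C * (1 + C1) * (1 + |s0|) ^ ((m : ℝ) / 2) *
        (2 : ℝ) ^ ((κ : ℝ) * (ex0 m q + ε)) := ⟨_, rfl⟩
  rw [← hD] at hD0
  have hb2 : ∀ c ∈ Finset.range n, ∫⁻ x, ‖Fn b s0 (B c) kk Sf g x‖ₑ ^ q1 ≤
      ENNReal.ofReal (D * Wt (B c) kk Sf) := by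
    intro c hc
    have := hblk C1 hC1 κ β (B c) kk Sf (hBl c (Finset.mem_range.1 hc)) g hg1 s0
    rw [← hD] at this
    exact this
  have hnn : ∀ c ∈ Finset.range n, 0 ≤ D * Wt (B c) kk Sf := by
    intro c _
    exact mul_nonneg hD0 (Wt_nn _ _ _)
  obtain ⟨K, hK⟩ : ∃ K : ℝ, K = M ^ q1 * ((n : ℝ) + 1) ^ (q1 - 1) := ⟨_, rfl⟩
  have hK0 : 0 ≤ K := by rw [hK]; positivity
  rw [← hK] at hpt
  have hgoal : M ^ q1 * ((n : ℝ) + 1) ^ (q1 - 1) * C * (1 + C1) * (1 + |s0|) ^ ((m : ℝ) / 2) *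
        (2 : ℝ) ^ ((κ : ℝ) * (ex0 m q + ε)) * wt T = K * (D * wt T) := by
    rw [hK, hD]; ring
  rw [hgoal]
  calc ∫⁻ x, ‖∑ p ∈ T, γ p * Fb b s0 p x‖ₑ ^ q1
      ≤ ∫⁻ x, ENNReal.ofReal K *
        ∑ c ∈ Finset.range n, ‖Fn b s0 (B c) kk Sf g x‖ₑ ^ q1 := lintegral_mono hpt
    _ = ENNReal.ofReal K *
        ∑ c ∈ Finset.range n, ∫⁻ x, ‖Fn b s0 (B c) kk Sf g x‖ₑ ^ q1 := by
        rw [lintegral_const_mul' _ _ ENNReal.ofReal_ne_top, lintegral_finsetSum]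
        exact fun c _ => hmeas c
    _ ≤ ENNReal.ofReal K *
        ∑ c ∈ Finset.range n, ENNReal.ofReal (D * Wt (B c) kk Sf) :=
        mul_le_mul_right (Finset.sum_le_sum hb2) _
    _ = ENNReal.ofReal (K * (D * ∑ c ∈ Finset.range n, Wt (B c) kk Sf)) := by
        rw [← ENNReal.ofReal_sum_of_nonneg hnn, ← ENNReal.ofReal_mul hK0, ← Finset.mul_sum]
    _ ≤ _ := by
        refine ENNReal.ofReal_le_ofReal ?_
        exact mul_le_mul_of_nonneg_left (mul_le_mul_of_nonneg_left hWt hD0) hK0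

private theorem kf_ex (x : ℝ) : ∃ n : ℕ, 1 ≤ x → (2 : ℝ) ^ n ≤ x ∧ x < 2 ^ (n + 1) := by
  by_cases h : 1 ≤ x
  · obtain ⟨n, hn⟩ := exists_nat_pow_near h (by norm_num : (1 : ℝ) < 2)
    exact ⟨n, fun _ => hn⟩
  · exact ⟨0, fun h' => absurd h' h⟩

/-- the scale of a point -/
private def kf (x : ℝ) : ℕ := (kf_ex x).choose

private theorem kf_spec {x : ℝ} (h : 1 ≤ x) : (2 : ℝ) ^ kf x ≤ x ∧ x < 2 ^ (kf x + 1) :=
  (kf_ex x).choose_spec h

private theorem kf_unique {x : ℝ} (h : 1 ≤ x) {k : ℕ} (h1 : (2 : ℝ) ^ k ≤ x)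
    (h2 : x < 2 ^ (k + 1)) : kf x = k := by
  obtain ⟨h3, h4⟩ := kf_spec h
  have h5 : (2 : ℝ) ^ kf x < 2 ^ (k + 1) := lt_of_le_of_lt h3 h2
  have h6 : (2 : ℝ) ^ k < 2 ^ (kf x + 1) := lt_of_le_of_lt h1 h4
  rw [pow_lt_pow_iff_right₀ (by norm_num)] at h5 h6
  omega

/-- the weight of a pair -/
private def wp {m : ℕ} (p q : P (m + 1)) : ℝ :=
  (2 : ℝ) ^ (((kf p.2 : ℝ) + (kf q.2 : ℝ)) * ((m : ℝ) / 2)) * Mk (m + 3) (Lam p - Lam q)

private theorem wp_nonneg {m : ℕ} (p q : P (m + 1)) : 0 ≤ wp p q :=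
  mul_nonneg (by positivity) (Mk_nonneg _ _)

private theorem wp_symm {m : ℕ} (p q : P (m + 1)) : wp p q = wp q p := by
  unfold wp
  rw [add_comm, ← Mk_neg, neg_sub]

private theorem low_sum {m : ℕ} (hm : 3 ≤ m) : ∃ C : ℝ, 0 < C ∧ ∀ (κ : ℕ) (u : ℝ)
    (S : Finset (P (m + 1))), Sp S → 0 ≤ u → u ≤ 2 ^ κ → Dens u S → ∀ q ∈ S,
    ∀ T : Finset (P (m + 1)), T ⊆ S → (∀ p ∈ T, 2 * κ ≤ kf p.2 ∧ kf p.2 + 3 ≤ kf q.2) →
    ∑ p ∈ T, wp p q ≤ C * 2 ^ (kf q.2 * m) := by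
  classical
  obtain ⟨C, hC, hcd⟩ := cross_diff hm
  refine ⟨C, hC, ?_⟩
  intro κ u S hS hu hu2 hD q hq T hTS hT
  have hqsc : q ∈ sc (kf q.2) S := by
    unfold sc
    rw [Finset.mem_filter]
    exact ⟨hq, kf_spec (hS.one_le q hq)⟩
  have h1 := hcd κ (kf q.2) u S hS hu hu2 hD q hqsc (T.image fun p => kf p.2) (by
    intro k hk
    rw [Finset.mem_image] at hk
    obtain ⟨p, hp, rfl⟩ := hk
    exact hT p hp)
  refine le_trans ?_ h1
  rw [← Finset.sum_fiberwise_of_maps_to (g := fun p : P (m + 1) => kf p.2)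
    (t := T.image fun p => kf p.2) (fun p hp => Finset.mem_image_of_mem _ hp)]
  refine Finset.sum_le_sum fun k _ => ?_
  calc ∑ p ∈ T.filter (fun p => kf p.2 = k), wp p q
      = ∑ p ∈ T.filter (fun p => kf p.2 = k), (2 : ℝ) ^ (((k : ℝ) + (kf q.2 : ℝ)) * ((m : ℝ) / 2)) *
        Mk (m + 3) (Lam p - Lam q) := by
        refine Finset.sum_congr rfl fun p hp => ?_
        rw [Finset.mem_filter] at hp
        unfold wp
        rw [hp.2]
    _ ≤ _ := by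
        refine Finset.sum_le_sum_of_subset_of_nonneg ?_ ?_
        · intro p hp
          rw [Finset.mem_filter] at hp
          unfold sc
          rw [Finset.mem_filter]
          have h3 := kf_spec (hS.one_le p (hTS hp.1))
          rw [hp.2] at h3
          exact ⟨hTS hp.1, h3⟩
        · intro p _ _
          exact mul_nonneg (by positivity) (Mk_nonneg _ _)

private theorem pair_sum {m : ℕ} (hm : 3 ≤ m) : ∃ C : ℝ, 0 < C ∧ ∀ (κ : ℕ) (u : ℝ)
    (S : Finset (P (m + 1))), Sp S → 0 ≤ u → u ≤ 2 ^ κ → Dens u S →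
    ∀ U : Finset (P (m + 1)), U ⊆ S → (∀ p ∈ U, 2 * κ ≤ kf p.2) →
    ∀ V : P (m + 1) → Finset (P (m + 1)), (∀ p ∈ U, V p ⊆ U) →
    (∀ p ∈ U, ∀ q ∈ V p, kf q.2 + 3 ≤ kf p.2 ∨ kf p.2 + 3 ≤ kf q.2 ∨
      (kf q.2 = kf p.2 ∧ q ≠ p ∧ (4 : ℝ) ^ κ / 4 ≤ ‖Lam p - Lam q‖)) →
    ∑ p ∈ U, ∑ q ∈ V p, wp p q ≤ C * ∑ p ∈ U, (2 : ℝ) ^ (kf p.2 * m) := by
  classical
  obtain ⟨C, hC, hlow⟩ := low_sum hm
  obtain ⟨C', hC', hsame⟩ := cross_same hm
  refine ⟨2 * C + C', by positivity, ?_⟩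
  intro κ u S hS hu hu2 hD U hUS hUκ V hVU hV
  have hsplit : ∀ p ∈ U, ∑ q ∈ V p, wp p q ≤
      ∑ q ∈ U.filter (fun q => kf q.2 + 3 ≤ kf p.2), wp p q +
      ∑ q ∈ U.filter (fun q => kf p.2 + 3 ≤ kf q.2), wp p q +
      ∑ q ∈ U.filter (fun q => kf q.2 = kf p.2 ∧ q ≠ p ∧ (4 : ℝ) ^ κ / 4 ≤ ‖Lam p - Lam q‖),
        wp p q := by
    intro p hp
    rw [Finset.sum_filter, Finset.sum_filter, Finset.sum_filter, ← Finset.sum_add_distrib,
      ← Finset.sum_add_distrib]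
    refine le_trans (Finset.sum_le_sum fun q hq => ?_) (Finset.sum_le_sum_of_subset_of_nonneg
      (hVU p hp) ?_)
    · have h0 := wp_nonneg p q
      rcases hV p hp q hq with h | h | h
      · rw [if_pos h]
        have h1 : (0 : ℝ) ≤ if kf p.2 + 3 ≤ kf q.2 then wp p q else 0 := by split_ifs <;> simp [h0]
        have h2 : (0 : ℝ) ≤ if kf q.2 = kf p.2 ∧ q ≠ p ∧ (4 : ℝ) ^ κ / 4 ≤ ‖Lam p - Lam q‖
          then wp p q else 0 := by split_ifs <;> simp [h0]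
        linarith
      · rw [if_pos h]
        have h1 : (0 : ℝ) ≤ if kf q.2 + 3 ≤ kf p.2 then wp p q else 0 := by split_ifs <;> simp [h0]
        have h2 : (0 : ℝ) ≤ if kf q.2 = kf p.2 ∧ q ≠ p ∧ (4 : ℝ) ^ κ / 4 ≤ ‖Lam p - Lam q‖
          then wp p q else 0 := by split_ifs <;> simp [h0]
        linarith
      · rw [if_pos h]
        have h1 : (0 : ℝ) ≤ if kf q.2 + 3 ≤ kf p.2 then wp p q else 0 := by split_ifs <;> simp [h0]
        have h2 : (0 : ℝ) ≤ if kf p.2 + 3 ≤ kf q.2 then wp p q else 0 := by split_ifs <;> simp [h0]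
        linarith
    · intro q _ _
      have h0 := wp_nonneg p q
      have h1 : (0 : ℝ) ≤ if kf q.2 + 3 ≤ kf p.2 then wp p q else 0 := by split_ifs <;> simp [h0]
      have h2 : (0 : ℝ) ≤ if kf p.2 + 3 ≤ kf q.2 then wp p q else 0 := by split_ifs <;> simp [h0]
      have h3 : (0 : ℝ) ≤ if kf q.2 = kf p.2 ∧ q ≠ p ∧ (4 : ℝ) ^ κ / 4 ≤ ‖Lam p - Lam q‖
        then wp p q else 0 := by split_ifs <;> simp [h0]
      linarith
  have hlow1 : ∀ p ∈ U, ∑ q ∈ U.filter (fun q => kf q.2 + 3 ≤ kf p.2), wp q p ≤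
      C * 2 ^ (kf p.2 * m) := by
    intro p hp
    refine hlow κ u S hS hu hu2 hD p (hUS hp) _ ((Finset.filter_subset _ _).trans hUS) ?_
    intro q hq
    rw [Finset.mem_filter] at hq
    exact ⟨hUκ q hq.1, hq.2⟩
  have hA : ∑ p ∈ U, ∑ q ∈ U.filter (fun q => kf q.2 + 3 ≤ kf p.2), wp p q ≤
      C * ∑ p ∈ U, (2 : ℝ) ^ (kf p.2 * m) := by
    rw [Finset.mul_sum]
    refine Finset.sum_le_sum fun p hp => ?_
    refine le_trans (le_of_eq ?_) (hlow1 p hp)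
    exact Finset.sum_congr rfl fun q _ => wp_symm p q
  have hB : ∑ p ∈ U, ∑ q ∈ U.filter (fun q => kf p.2 + 3 ≤ kf q.2), wp p q ≤
      C * ∑ p ∈ U, (2 : ℝ) ^ (kf p.2 * m) := by
    rw [Finset.mul_sum]
    have e1 : ∑ p ∈ U, ∑ q ∈ U.filter (fun q => kf p.2 + 3 ≤ kf q.2), wp p q =
        ∑ q ∈ U, ∑ p ∈ U.filter (fun p => kf p.2 + 3 ≤ kf q.2), wp p q := by
      refine Finset.sum_comm' ?_
      intro p q
      simp only [Finset.mem_filter]
      tauto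
    rw [e1]
    exact Finset.sum_le_sum fun q hq => hlow1 q hq
  have hCs : ∑ p ∈ U, ∑ q ∈ U.filter (fun q => kf q.2 = kf p.2 ∧ q ≠ p ∧
      (4 : ℝ) ^ κ / 4 ≤ ‖Lam p - Lam q‖), wp p q ≤ C' * ∑ p ∈ U, (2 : ℝ) ^ (kf p.2 * m) := by
    rw [Finset.mul_sum]
    refine Finset.sum_le_sum fun p hp => ?_
    have hpsc : p ∈ sc (kf p.2) S := by
      unfold sc
      rw [Finset.mem_filter]
      exact ⟨hUS hp, kf_spec (hS.one_le p (hUS hp))⟩
    have h1 := hsame κ (kf p.2) u S hS hu hu2 hD p hpsc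
      (U.filter (fun q => kf q.2 = kf p.2 ∧ q ≠ p ∧ (4 : ℝ) ^ κ / 4 ≤ ‖Lam p - Lam q‖)) (by
        intro q hq
        rw [Finset.mem_filter] at hq
        unfold sc
        rw [Finset.mem_filter]
        have h3 := kf_spec (hS.one_le q (hUS hq.1))
        rw [hq.2.1] at h3
        exact ⟨hUS hq.1, h3⟩) (by
        intro q hq
        rw [Finset.mem_filter] at hq
        exact hq.2.2)
    calc _ = ∑ q ∈ U.filter (fun q => kf q.2 = kf p.2 ∧ q ≠ p ∧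
        (4 : ℝ) ^ κ / 4 ≤ ‖Lam p - Lam q‖), (2 : ℝ) ^ (kf p.2 * m) * Mk (m + 3) (Lam p - Lam q) := by
          refine Finset.sum_congr rfl fun q hq => ?_
          rw [Finset.mem_filter] at hq
          unfold wp
          rw [hq.2.1]
          congr 1
          rw [← Real.rpow_natCast]
          congr 1
          push_cast
          ring
      _ = (2 : ℝ) ^ (kf p.2 * m) * ∑ q ∈ U.filter (fun q => kf q.2 = kf p.2 ∧ q ≠ p ∧
        (4 : ℝ) ^ κ / 4 ≤ ‖Lam p - Lam q‖), Mk (m + 3) (Lam p - Lam q) := by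
          rw [Finset.mul_sum]
      _ ≤ (2 : ℝ) ^ (kf p.2 * m) * C' := by gcongr
      _ = _ := mul_comm _ _
  calc ∑ p ∈ U, ∑ q ∈ V p, wp p q ≤ _ := Finset.sum_le_sum hsplit
    _ = _ := by rw [Finset.sum_add_distrib, Finset.sum_add_distrib]
    _ ≤ _ := add_le_add (add_le_add hA hB) hCs
    _ = _ := by ring

private theorem norm_ge {m : ℕ} (p q : P (m + 1)) :
    |(Lam p).2.1 - (Lam q).2.1| ≤ ‖Lam p - Lam q‖ := by
  have e7 : ‖(Lam p - Lam q).2‖ ≤ ‖Lam p - Lam q‖ := norm_snd_le _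
  have e8 : ‖(Lam p - Lam q).2.1‖ ≤ ‖(Lam p - Lam q).2‖ := norm_fst_le _
  rw [Real.norm_eq_abs] at e8
  exact e8.trans e7

private theorem norm_ge_rad {m : ℕ} (p q : P (m + 1)) :
    |p.2 - q.2| ≤ 2 * ‖Lam p - Lam q‖ := by
  have := abs_rad_le (Lam p - Lam q)
  rwa [rad_sub, rad_Lam, rad_Lam] at this

/-- points of distant scales are far apart -/
private theorem far_scales {m : ℕ} (p q : P (m + 1)) (hp : 1 ≤ p.2) (hq : 1 ≤ q.2)
    (h : kf p.2 + 3 ≤ kf q.2) (κ : ℕ) (hκ : (4 : ℝ) ^ κ ≤ q.2) :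
    (4 : ℝ) ^ κ / 4 ≤ ‖Lam p - Lam q‖ := by
  have h1 := (kf_spec hp).2
  have h2 := (kf_spec hq).1
  have h3 : (2 : ℝ) ^ (kf p.2 + 3) ≤ 2 ^ (kf q.2) := pow_le_pow_right₀ (by norm_num) h
  have h4 : (2 : ℝ) ^ (kf p.2 + 3) = 4 * 2 ^ (kf p.2 + 1) := by
    rw [pow_add, pow_add]; norm_num; ring
  have h5 := norm_ge_rad p q
  have h6 := neg_le_abs (p.2 - q.2)
  linarith

open scoped Classical in
/-- all large scales together -/
theorem large {m : ℕ} (hm : 3 ≤ m) {v0 v1 : ℝ} {b : V m → ℂ} (hb : Sb v0 v1 1 b)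
    (q : ℝ) (hq : 2 < q) (hq2 : q * m ≤ 2 * ((m : ℝ) + 2)) (hC : CDec m q) (ε : ℝ)
    (hε : 0 < ε) (q1 : ℝ) (h1 : 1 < q1) (h2 : q1 < q / (q - 1)) : ∃ C : ℝ, 0 < C ∧
    ∀ (κ : ℕ) (u : ℝ) (S : Finset (P (m + 1))), Sp S → 0 ≤ u → u ≤ 2 ^ κ → Dens u S →
    ∀ γ : P (m + 1) → ℂ, (∀ p, ‖γ p‖ ≤ 1) → ∀ s0 : ℝ,
    ∫⁻ x, ‖∑ p ∈ S.filter (fun p => (4 : ℝ) ^ κ ≤ p.2), γ p * Fb b s0 p x‖ₑ ^ q1 ≤
      ENNReal.ofReal (C * (1 + |s0|) ^ ((m : ℝ) / 2) * (2 : ℝ) ^ ((κ : ℝ) * (ex0 m q + ε)) *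
        wt S) := by
  obtain ⟨C, hCpos, hcb⟩ := color_blk (by omega : 1 ≤ m) hb q hq hq2 hC ε hε q1 h1 h2 9
  obtain ⟨C1, hC1, hpair⟩ := pair_sum hm
  refine ⟨C * (1 + C1), by positivity, ?_⟩
  intro κ u S hS hu hu2 hD γ hγ s0
  obtain ⟨T, hT⟩ : ∃ T : Finset (P (m + 1)), T = S.filter (fun p => (4 : ℝ) ^ κ ≤ p.2) :=
    ⟨_, rfl⟩
  rw [← hT]
  have hTS : ∀ p ∈ T, p ∈ S ∧ (4 : ℝ) ^ κ ≤ p.2 ∧ 1 ≤ p.2 := by
    intro p hp
    rw [hT, Finset.mem_filter] at hp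
    exact ⟨hp.1, hp.2, hS.one_le p hp.1⟩
  have hTκ : ∀ p ∈ T, 2 * κ ≤ kf p.2 := by
    intro p hp
    obtain ⟨_, h4, h5⟩ := hTS p hp
    have h6 := (kf_spec h5).2
    have h7 : (2 : ℝ) ^ (2 * κ) < 2 ^ (kf p.2 + 1) := by
      calc (2 : ℝ) ^ (2 * κ) = 4 ^ κ := by rw [pow_mul]; norm_num
        _ ≤ p.2 := h4
        _ < _ := h6
    rw [pow_lt_pow_iff_right₀ (by norm_num)] at h7
    omega
  have h4pos : (0 : ℝ) < 4 ^ κ := by positivity
  obtain ⟨lf, hlf⟩ : ∃ lf : P (m + 1) → ℤ, ∀ p, lf p = ⌊(Lam p).2.1 / 4 ^ κ⌋ := ⟨_, fun _ => rfl⟩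
  have hlf1 : ∀ p, (lf p : ℝ) * 4 ^ κ ≤ (Lam p).2.1 ∧ (Lam p).2.1 < (lf p + 1) * 4 ^ κ := by
    intro p
    rw [hlf]
    constructor
    · rw [← le_div_iff₀ h4pos]; exact Int.floor_le _
    · rw [← div_lt_iff₀ h4pos]; exact Int.lt_floor_add_one _
  obtain ⟨key, hkey⟩ : ∃ key : P (m + 1) → ℕ × ℤ, ∀ p, key p = (kf p.2, lf p) :=
    ⟨fun p => (kf p.2, lf p), fun _ => rfl⟩
  obtain ⟨col, hcol⟩ : ∃ col : ℕ × ℤ → ℕ, ∀ i, col i = i.1 % 3 + 3 * (i.2 % 3).toNat :=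
    ⟨fun i => i.1 % 3 + 3 * (i.2 % 3).toNat, fun _ => rfl⟩
  have hcol1 : ∀ i j : ℕ × ℤ, col i = col j → i.1 % 3 = j.1 % 3 ∧ i.2 % 3 = j.2 % 3 := by
    intro i j hij
    rw [hcol, hcol] at hij
    have e1 := Int.emod_nonneg i.2 (show (3 : ℤ) ≠ 0 by norm_num)
    have e2 := Int.emod_nonneg j.2 (show (3 : ℤ) ≠ 0 by norm_num)
    have e3 := Int.emod_lt_of_pos i.2 (show (0 : ℤ) < 3 by norm_num)
    have e4 := Int.emod_lt_of_pos j.2 (show (0 : ℤ) < 3 by norm_num)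
    omega
  -- two points of the same colour with different keys
  have hfar : ∀ p ∈ T, ∀ p' ∈ T, key p ≠ key p' → col (key p) = col (key p') →
      (kf p'.2 + 3 ≤ kf p.2 ∨ kf p.2 + 3 ≤ kf p'.2 ∨
        (kf p'.2 = kf p.2 ∧ p' ≠ p ∧ (4 : ℝ) ^ κ / 4 ≤ ‖Lam p - Lam p'‖)) := by
    intro p hp p' hp' hne hc
    obtain ⟨hc1, hc2⟩ := hcol1 _ _ hc
    rw [hkey, hkey] at hc1 hc2 hne
    simp only at hc1 hc2
    by_cases hk : kf p'.2 = kf p.2
    · right; right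
      have hl : lf p ≠ lf p' := by
        intro h
        apply hne
        rw [hk, h]
      refine ⟨hk, fun h => hl (by rw [h]), ?_⟩
      have e4 : (3 : ℤ) ≤ |lf p - lf p'| := by
        rcases abs_cases (lf p - lf p') with ⟨h, _⟩ | ⟨h, _⟩ <;> rw [h] <;> omega
      have e5 : (3 : ℝ) ≤ |(lf p : ℝ) - (lf p' : ℝ)| := by exact_mod_cast e4
      refine le_trans ?_ (norm_ge p p')
      have hp1 := hlf1 p
      have hp2 := hlf1 p'
      rcases abs_cases ((lf p : ℝ) - (lf p' : ℝ)) with ⟨h, _⟩ | ⟨h, _⟩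
      · rw [h] at e5
        refine le_trans ?_ (le_abs_self _)
        nlinarith
      · rw [h] at e5
        refine le_trans ?_ (neg_le_abs _)
        nlinarith
    · omega
  have hfar2 : ∀ p ∈ T, ∀ p' ∈ T, key p ≠ key p' → col (key p) = col (key p') →
      (4 : ℝ) ^ κ / 4 ≤ ‖Lam p - Lam p'‖ := by
    intro p hp p' hp' hne hc
    rcases hfar p hp p' hp' hne hc with h | h | h
    · rw [norm_sub_rev]
      exact far_scales p' p (hTS p' hp').2.2 (hTS p hp).2.2 h κ (hTS p hp).2.1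
    · exact far_scales p p' (hTS p hp).2.2 (hTS p' hp').2.2 h κ (hTS p' hp').2.1
    · exact h.2.2
  have hBl : ∀ c < 9, Bl κ (m + 3) C1
      ((T.image key).filter (fun i => col i = c)) (fun i : ℕ × ℤ => i.1)
      (fun i => (T.filter (fun p => key p = i)).image Lam) := by
    intro c _
    refine ⟨?_, ?_, ?_, ?_, ?_, ?_⟩
    · intro i hi
      rw [Finset.mem_filter, Finset.mem_image] at hi
      obtain ⟨⟨p, hp, rfl⟩, _⟩ := hi
      rw [hkey]
      calc (4 : ℝ) ^ κ = 2 ^ (2 * κ) := by rw [pow_mul]; norm_num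
        _ ≤ 2 ^ (kf p.2) := pow_le_pow_right₀ (by norm_num) (hTκ p hp)
    · intro i _ Z hZ
      rw [Finset.mem_image] at hZ
      obtain ⟨p, hp, rfl⟩ := hZ
      rw [Finset.mem_filter] at hp
      obtain ⟨hp1, rfl⟩ := hp
      have := kf_spec (hTS p hp1).2.2
      rw [rad_Lam, hkey]
      exact ⟨this.1, this.2.le⟩
    · intro i _ Z hZ Z' hZ'
      rw [Finset.mem_image] at hZ hZ'
      obtain ⟨p, hp, rfl⟩ := hZ
      obtain ⟨p', hp', rfl⟩ := hZ'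
      rw [Finset.mem_filter] at hp hp'
      have e0 : lf p = lf p' := by
        have := hp.2.trans hp'.2.symm
        rw [hkey, hkey] at this
        exact (Prod.mk.inj this).2
      have e1 := hlf1 p
      have e2 := hlf1 p'
      rw [e0] at e1
      rw [abs_le]
      constructor <;> nlinarith
    · intro i _ Z hZ Z' hZ' hne
      rw [Finset.mem_image] at hZ hZ'
      obtain ⟨p, hp, rfl⟩ := hZ
      obtain ⟨p', hp', rfl⟩ := hZ'
      rw [Finset.mem_filter] at hp hp'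
      have e1 := hS.sep p (hTS p hp.1).1 p' (hTS p' hp'.1).1 (fun h => hne (by rw [h]))
      have e2 := dist_le_Lam p p'
      linarith
    · intro i hi i' hi' hne Z hZ Z' hZ'
      rw [Finset.mem_image] at hZ hZ'
      obtain ⟨p, hp, rfl⟩ := hZ
      obtain ⟨p', hp', rfl⟩ := hZ'
      rw [Finset.mem_filter] at hp hp' hi hi'
      exact hfar2 p hp.1 p' hp'.1 (by rw [hp.2, hp'.2]; exact hne)
        (by rw [hp.2, hp'.2, hi.2, hi'.2])
    · obtain ⟨B, hB⟩ : ∃ B : Finset (ℕ × ℤ), B = (T.image key).filter (fun i => col i = c) :=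
        ⟨_, rfl⟩
      rw [← hB]
      have hBc : ∀ i ∈ B, col i = c := by
        intro i hi
        rw [hB, Finset.mem_filter] at hi
        exact hi.2
      have hp := hpair κ u S hS hu hu2 hD (T.filter (fun p => key p ∈ B)) (by
          intro p hp
          exact (hTS p (Finset.mem_filter.1 hp).1).1) (by
          intro p hp
          exact hTκ p (Finset.mem_filter.1 hp).1)
        (fun p => T.filter (fun q => key q ∈ B.erase (key p))) (by
          intro p _ q hq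
          rw [Finset.mem_filter] at hq ⊢
          exact ⟨hq.1, (Finset.mem_erase.1 hq.2).2⟩) (by
          intro p hp q hq
          rw [Finset.mem_filter] at hp hq
          obtain ⟨hq1, hq2⟩ := hq
          rw [Finset.mem_erase] at hq2
          exact hfar p hp.1 q hq1 (fun h => hq2.1 h.symm) (by rw [hBc _ hp.2, hBc _ hq2.2]))
      have eR : ∑ i ∈ B, (2 : ℝ) ^ (i.1 * m) *
          (((T.filter (fun p => key p = i)).image (Lam : P (m + 1) → X m)).card : ℝ) =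
          ∑ p ∈ T.filter (fun p => key p ∈ B), (2 : ℝ) ^ (kf p.2 * m) := by
        rw [← Finset.sum_fiberwise_eq_sum_filter]
        refine Finset.sum_congr rfl fun i _ => ?_
        rw [Finset.card_image_of_injective _ Lam_inj]
        rw [Finset.sum_congr rfl (g := fun _ => (2 : ℝ) ^ (i.1 * m)) (fun p hp => by
          rw [Finset.mem_filter, hkey] at hp
          rw [← hp.2]), Finset.sum_const, nsmul_eq_mul, mul_comm]
      have eL : ∑ i ∈ B, ∑ i' ∈ B.erase i,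
          ∑ p ∈ (T.filter (fun p => key p = i)).image (Lam : P (m + 1) → X m),
          ∑ q ∈ (T.filter (fun p => key p = i')).image (Lam : P (m + 1) → X m),
          (2 : ℝ) ^ ((((i.1 : ℕ) : ℝ) + ((i'.1 : ℕ) : ℝ)) * ((m : ℝ) / 2)) * Mk (m + 3) (p - q) =
          ∑ p ∈ T.filter (fun p => key p ∈ B),
            ∑ q ∈ T.filter (fun q => key q ∈ B.erase (key p)), wp p q := by
        rw [← Finset.sum_fiberwise_eq_sum_filter]
        refine Finset.sum_congr rfl fun i _ => ?_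
        rw [Finset.sum_comm, Finset.sum_image (fun a _ b _ h => Lam_inj h)]
        refine Finset.sum_congr rfl fun p hp => ?_
        rw [Finset.mem_filter] at hp
        rw [hp.2, ← Finset.sum_fiberwise_eq_sum_filter]
        refine Finset.sum_congr rfl fun i' _ => ?_
        rw [Finset.sum_image (fun a _ b _ h => Lam_inj h)]
        refine Finset.sum_congr rfl fun q hq => ?_
        rw [Finset.mem_filter] at hq
        unfold wp
        have e1 := hp.2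
        have e2 := hq.2
        rw [hkey] at e1 e2
        rw [← e1, ← e2]
      rw [eL, eR]
      exact hp
  have hmain := hcb C1 hC1.le κ T (ℕ × ℤ) (fun i => i.1) key col
    (fun p _ => by
      have e1 := Int.emod_nonneg (key p).2 (show (3 : ℤ) ≠ 0 by norm_num)
      have e2 := Int.emod_lt_of_pos (key p).2 (show (0 : ℤ) < 3 by norm_num)
      rw [hcol]
      omega)
    (fun p hp => by
      rw [hkey]
      exact kf_spec (hTS p hp).2.2) hBl γ hγ s0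
  refine hmain.trans (ENNReal.ofReal_le_ofReal ?_)
  have hwt : wt T ≤ wt S := by
    unfold wt
    refine Finset.sum_le_sum_of_subset_of_nonneg (fun p hp => (hTS p hp).1) ?_
    intro p hp _
    have := hS.one_le p hp
    exact pow_nonneg (by linarith) _
  gcongr

end Pool.LibST49
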