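import Pool.Agent.LibST49.S1
import Pool.Agent.LibST49.S3

/-
PLAN (S4, MEDIUM). Given q1 := the q of HST in (1, pS m) and ε > 0. Choose q2 in (2, 2(m+2)/m) (m >= 3: 2(m+2)/m > 2) close to the right end with q1 < q2/(q2-1) (at the end q2/(q2-1) = pS m > q1) and
ex0 m q2 <= ε/8 (ex0 is continuous and 0 at the right end; ex0 >= 0 before). CDec m q2 by h. ε' := ε/8. Given u >= 1 take the κ with 2^(κ-1) < u <= 2^κ or κ = 0. Then S = {4^κ <= p.2} + the scales k < 2κ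
(p.2 >= 1): large + one_scale for k < 2κ, |SUM_(2κ+1 terms)|^q1 <= (2κ+1)^(q1-1) SUM; 2^(k (ex0+ε')) <= 2^(2κ ε/4), 2^κ <= 2u, (2κ+1)^(q1) <= C 2^(κ ε/4), SUM wt (sc k S) <= wt S. So
<= C (1+|s0|)^(m/2) u^ε wt S. N = m/2.
-/

set_option autoImplicit false

noncomputable section

open MeasureTheory Metric Set Filter

namespace Pool.LibST49

open Pool.LibSR53

private theorem s4_sc {d : ℕ} {k : ℕ} {S : Finset (P d)} {p : P d} :
    p ∈ sc k S ↔ p ∈ S ∧ ((2 : ℝ) ^ k ≤ p.2 ∧ p.2 < (2 : ℝ) ^ (k + 1)) := by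
  unfold sc
  simp only [Finset.mem_filter]

open scoped Classical in
private theorem s4_split {d : ℕ} (S : Finset (P d)) (hS : ∀ p ∈ S, 1 ≤ p.2) (κ : ℕ)
    {M : Type*} [AddCommMonoid M] (f : P d → M) :
    ∑ p ∈ S, f p = ∑ p ∈ S.filter (fun p => (4 : ℝ) ^ κ ≤ p.2), f p +
      ∑ k ∈ Finset.range (2 * κ), ∑ p ∈ sc k S, f p := by
  rw [← Finset.sum_filter_add_sum_filter_not S (fun p => (4 : ℝ) ^ κ ≤ p.2)]
  congr 1
  have h4 : (4 : ℝ) ^ κ = 2 ^ (2 * κ) := by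
    rw [pow_mul]
    norm_num
  rw [← Finset.sum_biUnion]
  · refine Finset.sum_congr ?_ fun _ _ => rfl
    ext p
    simp only [Finset.mem_filter, Finset.mem_biUnion, Finset.mem_range, s4_sc, not_le]
    constructor
    · rintro ⟨hp, hlt⟩
      obtain ⟨k, hk1, hk2⟩ := exists_nat_pow_near (hS p hp) (one_lt_two : (1 : ℝ) < 2)
      refine ⟨k, ?_, hp, hk1, hk2⟩
      rw [h4] at hlt
      exact (pow_lt_pow_iff_right₀ (one_lt_two : (1 : ℝ) < 2)).1 (hk1.trans_lt hlt)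
    · rintro ⟨k, hk, hp, hk1, hk2⟩
      refine ⟨hp, hk2.trans_le ?_⟩
      rw [h4]
      exact pow_le_pow_right₀ one_le_two hk
  · intro i _ j _ hij
    rw [Function.onFun, Finset.disjoint_left]
    intro p hp hq
    rw [s4_sc] at hp hq
    apply hij
    have h1 : i < j + 1 :=
      (pow_lt_pow_iff_right₀ (one_lt_two : (1 : ℝ) < 2)).1 (hp.2.1.trans_lt hq.2.2)
    have h2 : j < i + 1 :=
      (pow_lt_pow_iff_right₀ (one_lt_two : (1 : ℝ) < 2)).1 (hq.2.1.trans_lt hp.2.2)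
    omega

private theorem s4_lin (ε q : ℝ) (hε : 0 < ε) (hq : 1 < q) : ∃ D : ℝ, 0 < D ∧ ∀ κ : ℕ,
    (2 * (κ : ℝ) + 1) ^ (q - 1) ≤ D * (2 : ℝ) ^ ((κ : ℝ) * (ε / 2)) := by
  set δ := ε / 2 / (q - 1) with hδ
  have hq1 : 0 < q - 1 := by linarith
  have hδ0 : 0 < δ := by positivity
  have hr : (1 : ℝ) < 2 ^ δ := Real.one_lt_rpow one_lt_two hδ0
  set r := (2 : ℝ) ^ δ with hrd
  have hr1 : 0 < r - 1 := by linarith
  refine ⟨(1 + 2 / (r - 1)) ^ (q - 1), by positivity, fun κ => ?_⟩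
  have h1 : 2 * (κ : ℝ) + 1 ≤ (1 + 2 / (r - 1)) * r ^ κ := by
    have h2 : 1 + (κ : ℝ) * (r - 1) ≤ r ^ κ := by
      have := one_add_mul_le_pow (show (-2 : ℝ) ≤ r - 1 by linarith) κ
      simpa using this
    have h3 : (1 + 2 / (r - 1)) * (1 + (κ : ℝ) * (r - 1)) =
        1 + (κ : ℝ) * (r - 1) + 2 / (r - 1) + 2 * κ := by
      field_simp
      ring
    have h4 : (1 + 2 / (r - 1)) * (1 + (κ : ℝ) * (r - 1)) ≤ (1 + 2 / (r - 1)) * r ^ κ :=
      mul_le_mul_of_nonneg_left h2 (by positivity)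
    have h5 : 0 ≤ (κ : ℝ) * (r - 1) := by positivity
    have h6 : 0 ≤ 2 / (r - 1) := by positivity
    linarith
  calc (2 * (κ : ℝ) + 1) ^ (q - 1) ≤ ((1 + 2 / (r - 1)) * r ^ κ) ^ (q - 1) :=
        Real.rpow_le_rpow (by positivity) h1 hq1.le
    _ = (1 + 2 / (r - 1)) ^ (q - 1) * (2 : ℝ) ^ ((κ : ℝ) * (ε / 2)) := by
        rw [Real.mul_rpow (by positivity) (by positivity)]
        congr 1
        rw [hrd, ← Real.rpow_natCast, ← Real.rpow_mul (by positivity), ← Real.rpow_mul (by positivity)]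
        congr 1
        rw [hδ]
        field_simp

private theorem s4_exp (m : ℕ) (hm : 3 ≤ m) (q1 ε : ℝ) (h1 : q1 < pS m) (hε : 0 < ε) :
    ∃ q : ℝ, 2 < q ∧ q < 2 * ((m : ℝ) + 2) / m ∧ q1 < q / (q - 1) ∧ ex0 m q ≤ ε := by
  have hm3 : (3 : ℝ) ≤ m := by exact_mod_cast hm
  have hm0 : (0 : ℝ) < m := by linarith
  set Q := 2 * ((m : ℝ) + 2) / m with hQ
  have hQ2 : 2 < Q := by
    rw [hQ, lt_div_iff₀ hm0]
    linarith
  have hQ1 : Q - 1 ≠ 0 := by
    intro h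
    linarith
  have hQ1' : Q - 1 = ((m : ℝ) + 4) / m := by
    rw [hQ]
    field_simp
    ring
  have hc1 : ContinuousAt (fun q : ℝ => q / (q - 1)) Q :=
    continuousAt_id.div (continuousAt_id.sub continuousAt_const) hQ1
  have hc2 : ContinuousAt (fun q : ℝ => ex0 m q) Q := by
    unfold ex0
    exact continuousAt_const.add (((((continuousAt_const.mul continuousAt_id).div_const 2).add
      continuousAt_const)).div (continuousAt_id.sub continuousAt_const) hQ1)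
  have hv1 : Q / (Q - 1) = pS m := by
    rw [hQ1', hQ]
    unfold pS
    field_simp
  have hv2 : ex0 m Q = 0 := by
    unfold ex0
    rw [hQ1', hQ]
    field_simp
    ring
  have e1 : ∀ᶠ q in nhds Q, q1 < q / (q - 1) :=
    hc1.eventually (lt_mem_nhds (by change q1 < Q / (Q - 1); rw [hv1]; exact h1))
  have e2 : ∀ᶠ q in nhds Q, ex0 m q < ε :=
    hc2.eventually (gt_mem_nhds (by change ex0 m Q < ε; rw [hv2]; exact hε))
  have e3 : ∀ᶠ q in nhds Q, 2 < q := lt_mem_nhds hQ2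
  have e : ∀ᶠ q in nhdsWithin Q (Iio Q), (q1 < q / (q - 1) ∧ ex0 m q < ε ∧ 2 < q) ∧ q < Q :=
    ((e1.and (e2.and e3)).filter_mono nhdsWithin_le_nhds).and self_mem_nhdsWithin
  obtain ⟨q, ⟨h1, h2, h3⟩, h4⟩ := e.exists
  exact ⟨q, h3, h4, h1, h2.le⟩

/-- the middle part: from decoupling for the cone to strong type bounds for half wave atoms -/
theorem hst_of_cdec' (m : ℕ) (hm : 3 ≤ m)
    (h : ∀ q : ℝ, 2 < q → q < 2 * ((m : ℝ) + 2) / m → CDec m q) : HST m := by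
  classical
  intro v0 v1 b hb q1 hq1 hq1' ε hε
  obtain ⟨q, hq2, hqQ, hq1q, hex⟩ := s4_exp m hm q1 (ε / 8) hq1' (by positivity)
  have hm3 : (3 : ℝ) ≤ m := by exact_mod_cast hm
  have hm0 : (0 : ℝ) < m := by linarith
  have hqm : q * m ≤ 2 * ((m : ℝ) + 2) := by
    rw [lt_div_iff₀ hm0] at hqQ
    exact hqQ.le
  have hCD := h q hq2 hqQ
  obtain ⟨C1, hC1, H1⟩ := large hm hb q hq2 hqm hCD (ε / 8) (by positivity) q1 hq1 hq1q
  obtain ⟨C2, hC2, H2⟩ := one_scale (by omega) hb q hq2 hqm hCD (ε / 8) (by positivity) q1 hq1 hq1q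
  obtain ⟨D, hD, HD⟩ := s4_lin ε q1 hε hq1
  set e0 := ex0 m q + ε / 8 with he0
  have he : e0 ≤ ε / 4 := by rw [he0]; linarith
  refine ⟨D * (C1 + C2) * 2 ^ ε, (m : ℝ) / 2, by positivity, by positivity, fun s0 S u hS hu hd γ hγ => ?_⟩
  obtain ⟨n, hn1, hn2⟩ := exists_nat_pow_near hu (one_lt_two : (1 : ℝ) < 2)
  set κ := n + 1 with hκ
  have hκu : (2 : ℝ) ^ κ ≤ 2 * u := by
    rw [hκ, pow_succ]
    linarith
  have hu0 : 0 < u := by linarith
  have hcont : ∀ p : P (m + 1), Continuous (Fb b s0 p) := by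
    intro p
    unfold Fb
    refine continuous_const.mul ((Kb_cont hb).1.comp ?_)
    exact (continuous_Lam.comp (continuous_id.prodMk continuous_const)).sub continuous_const
  have hmeas : ∀ T : Finset (P (m + 1)),
      Measurable (fun x => ‖∑ p ∈ T, γ p * Fb b s0 p x‖ₑ ^ q1) := by
    intro T
    have : Continuous (fun x => ∑ p ∈ T, γ p * Fb b s0 p x) :=
      continuous_finsetSum _ fun p _ => continuous_const.mul (hcont p)
    exact this.measurable.enorm.pow_const q1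
  set F := S.filter (fun p => (4 : ℝ) ^ κ ≤ p.2) with hF
  set G : ℕ → Finset (P (m + 1)) := fun k => if k < 2 * κ then sc k S else F with hG
  have hsplit : ∀ x, ∑ p ∈ S, γ p * Fb b s0 p x =
      ∑ k ∈ Finset.range (2 * κ + 1), ∑ p ∈ G k, γ p * Fb b s0 p x := by
    intro x
    rw [s4_split S hS.one_le κ, Finset.sum_range_succ, add_comm]
    congr 1
    · refine Finset.sum_congr rfl fun k hk => ?_
      rw [hG]
      simp only [if_pos (Finset.mem_range.1 hk)]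
    · rw [hG]
      simp only [lt_irrefl, if_false]
      rfl
  have hE : ∀ k : ℕ, k ≤ 2 * κ → (2 : ℝ) ^ ((k : ℝ) * e0) ≤ 2 ^ ((κ : ℝ) * (ε / 2)) := by
    intro k hk
    refine Real.rpow_le_rpow_of_exponent_le one_le_two ?_
    have hk' : (k : ℝ) ≤ 2 * κ := by exact_mod_cast hk
    calc (k : ℝ) * e0 ≤ k * (ε / 4) := mul_le_mul_of_nonneg_left he (by positivity)
      _ ≤ 2 * κ * (ε / 4) := mul_le_mul_of_nonneg_right hk' (by positivity)
      _ = κ * (ε / 2) := by ring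
  set W : ℝ := (C1 + C2) * (1 + |s0|) ^ ((m : ℝ) / 2) * (2 : ℝ) ^ ((κ : ℝ) * (ε / 2)) with hW
  have hs : (0 : ℝ) < 1 + |s0| := by positivity
  have hwt0 : ∀ T ⊆ S, 0 ≤ wt T := by
    intro T hT
    unfold wt
    exact Finset.sum_nonneg fun p hp => pow_nonneg (zero_le_one.trans (hS.one_le p (hT hp))) _
  have hscS : ∀ k, sc k S ⊆ S := fun k p hp => (s4_sc.1 hp).1
  have hA : ∫⁻ x, ‖∑ p ∈ F, γ p * Fb b s0 p x‖ₑ ^ q1 ≤
      ENNReal.ofReal (C1 * (1 + |s0|) ^ ((m : ℝ) / 2) * 2 ^ ((κ : ℝ) * (ε / 2)) * wt S) := by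
    refine (H1 κ u S hS hu0.le hn2.le hd γ hγ s0).trans (ENNReal.ofReal_le_ofReal ?_)
    refine mul_le_mul_of_nonneg_right ?_ (hwt0 S (Finset.Subset.refl S))
    exact mul_le_mul_of_nonneg_left (hE κ (by omega)) (by positivity)
  have hB : ∀ k < 2 * κ, ∫⁻ x, ‖∑ p ∈ sc k S, γ p * Fb b s0 p x‖ₑ ^ q1 ≤
      ENNReal.ofReal (C2 * (1 + |s0|) ^ ((m : ℝ) / 2) * 2 ^ ((κ : ℝ) * (ε / 2)) *
        wt (sc k S)) := by
    intro k hk
    refine (H2 k S hS γ hγ s0).trans (ENNReal.ofReal_le_ofReal ?_)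
    refine mul_le_mul_of_nonneg_right ?_ (hwt0 _ (hscS k))
    exact mul_le_mul_of_nonneg_left (hE k hk.le) (by positivity)
  have hwts : ∑ k ∈ Finset.range (2 * κ), wt (sc k S) ≤ wt S := by
    have h1 : wt S = ∑ p ∈ F, p.2 ^ (m + 1 - 1) + ∑ k ∈ Finset.range (2 * κ), wt (sc k S) :=
      s4_split S hS.one_le κ (fun p => p.2 ^ (m + 1 - 1))
    have h2 : 0 ≤ ∑ p ∈ F, p.2 ^ (m + 1 - 1) := hwt0 F (Finset.filter_subset _ _)
    linarith
  have hsum : ∑ k ∈ Finset.range (2 * κ + 1), ∫⁻ x, ‖∑ p ∈ G k, γ p * Fb b s0 p x‖ₑ ^ q1 ≤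
      ENNReal.ofReal (W * wt S) := by
    rw [Finset.sum_range_succ]
    have hG1 : G (2 * κ) = F := by
      rw [hG]
      simp only [lt_irrefl, if_false]
    rw [hG1]
    have hG2 : ∑ k ∈ Finset.range (2 * κ), ∫⁻ x, ‖∑ p ∈ G k, γ p * Fb b s0 p x‖ₑ ^ q1 ≤
        ENNReal.ofReal (C2 * (1 + |s0|) ^ ((m : ℝ) / 2) * 2 ^ ((κ : ℝ) * (ε / 2)) * wt S) := by
      calc ∑ k ∈ Finset.range (2 * κ), ∫⁻ x, ‖∑ p ∈ G k, γ p * Fb b s0 p x‖ₑ ^ q1
          ≤ ∑ k ∈ Finset.range (2 * κ), ENNReal.ofReal (C2 * (1 + |s0|) ^ ((m : ℝ) / 2) *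
            2 ^ ((κ : ℝ) * (ε / 2)) * wt (sc k S)) := by
            refine Finset.sum_le_sum fun k hk => ?_
            have hk' := Finset.mem_range.1 hk
            have : G k = sc k S := by
              rw [hG]
              simp only [if_pos hk']
            rw [this]
            exact hB k hk'
        _ = ENNReal.ofReal (∑ k ∈ Finset.range (2 * κ), C2 * (1 + |s0|) ^ ((m : ℝ) / 2) *
            2 ^ ((κ : ℝ) * (ε / 2)) * wt (sc k S)) := by
            rw [ENNReal.ofReal_sum_of_nonneg]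
            intro k _
            have := hwt0 _ (hscS k)
            positivity
        _ ≤ _ := by
            refine ENNReal.ofReal_le_ofReal ?_
            rw [← Finset.mul_sum]
            exact mul_le_mul_of_nonneg_left hwts (by positivity)
    refine (add_le_add hG2 hA).trans ?_
    have hwS := hwt0 S (Finset.Subset.refl S)
    rw [← ENNReal.ofReal_add (by positivity) (by positivity)]
    refine ENNReal.ofReal_le_ofReal (le_of_eq ?_)
    rw [hW]
    ring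
  calc ∫⁻ x, ‖∑ p ∈ S, γ p * Fb b s0 p x‖ₑ ^ q1
      ≤ ∫⁻ x, ((2 * κ + 1 : ℕ) : ENNReal) ^ (q1 - 1) *
        ∑ k ∈ Finset.range (2 * κ + 1), ‖∑ p ∈ G k, γ p * Fb b s0 p x‖ₑ ^ q1 := by
        refine lintegral_mono fun x => ?_
        rw [hsplit x]
        refine (ENNReal.rpow_le_rpow (enorm_sum_le _ _) (by linarith)).trans ?_
        have := ENNReal.rpow_sum_le_const_mul_sum_rpow (Finset.range (2 * κ + 1))
          (fun k => ‖∑ p ∈ G k, γ p * Fb b s0 p x‖ₑ) hq1.le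
        rwa [Finset.card_range] at this
    _ = ((2 * κ + 1 : ℕ) : ENNReal) ^ (q1 - 1) *
        ∑ k ∈ Finset.range (2 * κ + 1), ∫⁻ x, ‖∑ p ∈ G k, γ p * Fb b s0 p x‖ₑ ^ q1 := by
        rw [lintegral_const_mul _ (Finset.measurable_fun_sum _ fun k _ => hmeas _),
          lintegral_finsetSum _ fun k _ => hmeas _]
    _ ≤ ENNReal.ofReal ((2 * (κ : ℝ) + 1) ^ (q1 - 1)) * ENNReal.ofReal (W * wt S) := by
        refine mul_le_mul' (le_of_eq ?_) hsum
        rw [← ENNReal.ofReal_rpow_of_nonneg (by positivity) (by linarith)]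
        congr 1
        rw [show (2 * (κ : ℝ) + 1) = ((2 * κ + 1 : ℕ) : ℝ) by push_cast; ring,
          ENNReal.ofReal_natCast]
    _ ≤ ENNReal.ofReal (D * (C1 + C2) * 2 ^ ε * (1 + |s0|) ^ ((m : ℝ) / 2) * u ^ ε * wt S) := by
        rw [← ENNReal.ofReal_mul (by positivity)]
        refine ENNReal.ofReal_le_ofReal ?_
        have hwS := hwt0 S (Finset.Subset.refl S)
        have hW0 : 0 ≤ W := by rw [hW]; positivity
        have h2u : (2 : ℝ) ^ ((κ : ℝ) * ε) ≤ 2 ^ ε * u ^ ε := by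
          rw [← Real.mul_rpow (by norm_num) hu0.le, Real.rpow_mul (by norm_num), Real.rpow_natCast]
          exact Real.rpow_le_rpow (by positivity) hκu hε.le
        calc (2 * (κ : ℝ) + 1) ^ (q1 - 1) * (W * wt S)
            ≤ D * 2 ^ ((κ : ℝ) * (ε / 2)) * (W * wt S) :=
              mul_le_mul_of_nonneg_right (HD κ) (by positivity)
          _ = D * (C1 + C2) * (1 + |s0|) ^ ((m : ℝ) / 2) * 2 ^ ((κ : ℝ) * ε) * wt S := by
              rw [hW, show (κ : ℝ) * ε = κ * (ε / 2) + κ * (ε / 2) by ring,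
                Real.rpow_add (by norm_num)]
              ring
          _ ≤ D * (C1 + C2) * (1 + |s0|) ^ ((m : ℝ) / 2) * (2 ^ ε * u ^ ε) * wt S := by
              refine mul_le_mul_of_nonneg_right ?_ hwS
              exact mul_le_mul_of_nonneg_left h2u (by positivity)
          _ = _ := by ring

end Pool.LibST49
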