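import Pool.Agent.LibST49.K3
import Pool.Agent.LibST49.P3

/-
PLAN (SD, MEDIUM). Insert SUM_(j in J m k) χ(2^k ω - iv j) = 1 (‖ω‖ <= 1 on the support of b; as in Kb_sum), so the kernel is the sum over j in J m k of the kernels of kern with χ1 = χ.
If the product χ(2^k ω - iv j) χ2(2^κ ω - a) is not identically zero then |ω_i - 2^-k j_i| <= 2^-k and |ω_i - 2^-κ a_i| <= R2 2^-κ for all i, so ‖w k j - 2^-κ a‖ <= sqrt m (1+R2) 2^-κ; the other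
terms vanish.
-/

set_option autoImplicit false

noncomputable section

open MeasureTheory Metric Set Filter

namespace Pool.LibST49

open Pool.LibSR53

private theorem sd_norm_le {m : ℕ} (x : E m) {c : ℝ} (hc : 0 ≤ c) (h : ∀ i, |x i| ≤ c) :
    ‖x‖ ≤ Real.sqrt m * c := by
  have h1 : ‖x‖ ^ 2 ≤ (Real.sqrt m * c) ^ 2 := by
    rw [EuclideanSpace.norm_sq_eq, mul_pow, Real.sq_sqrt (Nat.cast_nonneg m)]
    calc ∑ i, ‖x i‖ ^ 2 ≤ ∑ _i : Fin m, c ^ 2 := by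
          refine Finset.sum_le_sum fun i _ => ?_
          rw [Real.norm_eq_abs]
          exact pow_le_pow_left₀ (abs_nonneg _) (h i) 2
      _ = m * c ^ 2 := by
          rw [Finset.sum_const, Finset.card_univ, Fintype.card_fin, nsmul_eq_mul]
  exact le_of_sq_le_sq h1 (by positivity)

private theorem sd_Sb {m : ℕ} {v0 v1 R2 : ℝ} {b : V m → ℂ} {χ2 : E m → ℝ}
    (hb : Sb v0 v1 1 b) (h2 : Ct R2 χ2) (κ : ℕ) (a : E m) :
    Sb v0 v1 1 (fun z => (χ2 ((2 : ℝ) ^ κ • z.1 - a) : ℂ) * b z) := by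
  refine ⟨hb.pos, hb.le, ?_, ?_⟩
  · refine ContDiff.mul ?_ hb.smooth
    refine Complex.ofRealCLM.contDiff.comp ?_
    refine h2.smooth.comp ?_
    exact (contDiff_fst.const_smul ((2 : ℝ) ^ κ)).sub contDiff_const
  · intro z hz
    exact hb.supp z (right_ne_zero_of_mul hz)

open scoped Classical in
/-- kernel of a coarse sector: sum over the finer sectors inside -/
theorem subdec {m : ℕ} {v0 v1 R2 : ℝ} {b : V m → ℂ} {χ χ2 : E m → ℝ} (hχ : Pu χ)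
    (hb : Sb v0 v1 1 b) (h2 : Ct R2 χ2) (hR2 : 0 ≤ R2) (N : ℕ) : ∃ C : ℝ, 0 < C ∧
    ∀ (k κ : ℕ), κ ≤ k → ∀ (a : E m) (Z : X m),
    ‖Kb (fun z => (χ2 ((2 : ℝ) ^ κ • z.1 - a) : ℂ) * b z) Z‖ ≤
      C * (2 : ℝ)⁻¹ ^ (k * m) * (1 + |(4 : ℝ)⁻¹ ^ k * Z.2.1|) ^ (4 * N) *
        ∑ j ∈ (J m k).filter
          (fun j => ‖w k j - (2 : ℝ)⁻¹ ^ κ • a‖ ≤ Real.sqrt m * (1 + R2) * (2 : ℝ)⁻¹ ^ κ),
          1 / (1 + ‖Lk k (w k j) Z‖) ^ N := by
  obtain ⟨C, hC, hk⟩ := kern hb hχ.toCt h2 N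
  refine ⟨C, hC, ?_⟩
  intro k κ hκ a Z
  set b' : V m → ℂ := fun z => (χ2 ((2 : ℝ) ^ κ • z.1 - a) : ℂ) * b z with hb'
  rw [Kb_sum hχ (sd_Sb hb h2 κ a) k Z]
  have hzero : ∀ j ∈ J m k, j ∉ (J m k).filter
      (fun j => ‖w k j - (2 : ℝ)⁻¹ ^ κ • a‖ ≤ Real.sqrt m * (1 + R2) * (2 : ℝ)⁻¹ ^ κ) →
      Kb (cb χ b' k j) Z = 0 := by
    intro j hj hnot
    have hall : ∀ z, cb χ b' k j z = 0 := by
      intro z
      by_contra hne
      apply hnot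
      rw [Finset.mem_filter]
      refine ⟨hj, ?_⟩
      unfold cb at hne
      have hne1 : χ ((2 : ℝ) ^ k • z.1 - iv j) ≠ 0 := by
        intro h0
        apply hne
        rw [h0]
        simp
      have hne2 : χ2 ((2 : ℝ) ^ κ • z.1 - a) ≠ 0 := by
        intro h0
        apply hne
        rw [hb']
        simp only
        rw [h0]
        simp
      have s1 := hχ.toCt.supp _ hne1
      have s2 := h2.supp _ hne2
      rw [mul_assoc]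
      refine sd_norm_le _ (by positivity) fun i => ?_
      have t1 := s1 i
      have t2 := s2 i
      have e1' : ((2 : ℝ) ^ k • z.1 - iv j) i = (2 : ℝ) ^ k * z.1 i - j i := by
        simp [iv]
      have e2' : ((2 : ℝ) ^ κ • z.1 - a) i = (2 : ℝ) ^ κ * z.1 i - a i := by
        simp
      have e3' : (w k j - (2 : ℝ)⁻¹ ^ κ • a) i = (2 : ℝ)⁻¹ ^ k * j i - (2 : ℝ)⁻¹ ^ κ * a i := by
        simp [w, iv]
      rw [e1'] at t1
      rw [e2'] at t2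
      rw [e3']
      have hk1 : (2 : ℝ)⁻¹ ^ k * (2 : ℝ) ^ k = 1 := by
        rw [← mul_pow]; norm_num
      have hk2 : (2 : ℝ)⁻¹ ^ κ * (2 : ℝ) ^ κ = 1 := by
        rw [← mul_pow]; norm_num
      have hle : (2 : ℝ)⁻¹ ^ k ≤ (2 : ℝ)⁻¹ ^ κ :=
        pow_le_pow_of_le_one (by norm_num) (by norm_num) hκ
      have hpk : (0 : ℝ) < (2 : ℝ)⁻¹ ^ k := by positivity
      have hpκ : (0 : ℝ) < (2 : ℝ)⁻¹ ^ κ := by positivity
      have e4 : (2 : ℝ)⁻¹ ^ k * j i - (2 : ℝ)⁻¹ ^ κ * a i =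
          -((2 : ℝ)⁻¹ ^ k * ((2 : ℝ) ^ k * z.1 i - j i)) +
            (2 : ℝ)⁻¹ ^ κ * ((2 : ℝ) ^ κ * z.1 i - a i) := by
        linear_combination (-z.1 i) * (-hk1) + (z.1 i) * (-hk2)
      rw [e4]
      calc |-((2 : ℝ)⁻¹ ^ k * ((2 : ℝ) ^ k * z.1 i - j i)) +
            (2 : ℝ)⁻¹ ^ κ * ((2 : ℝ) ^ κ * z.1 i - a i)|
          ≤ |-((2 : ℝ)⁻¹ ^ k * ((2 : ℝ) ^ k * z.1 i - j i))| +
            |(2 : ℝ)⁻¹ ^ κ * ((2 : ℝ) ^ κ * z.1 i - a i)| := abs_add_le _ _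
        _ = (2 : ℝ)⁻¹ ^ k * |(2 : ℝ) ^ k * z.1 i - j i| +
            (2 : ℝ)⁻¹ ^ κ * |(2 : ℝ) ^ κ * z.1 i - a i| := by
            rw [abs_neg, abs_mul, abs_mul, abs_of_pos hpk, abs_of_pos hpκ]
        _ ≤ (2 : ℝ)⁻¹ ^ κ * 1 + (2 : ℝ)⁻¹ ^ κ * R2 := by
            refine add_le_add (mul_le_mul hle t1.le (abs_nonneg _) hpκ.le) ?_
            exact mul_le_mul_of_nonneg_left t2.le hpκ.le
        _ = (1 + R2) * (2 : ℝ)⁻¹ ^ κ := by ring
    unfold Kb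
    simp [hall]
  rw [← Finset.sum_subset (Finset.filter_subset _ (J m k)) hzero, Finset.mul_sum]
  refine (norm_sum_le _ _).trans (Finset.sum_le_sum fun j _ => ?_)
  have h := hk k κ hκ j a Z
  rw [mul_one_div]
  exact h

end Pool.LibST49
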