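import Pool.Agent.LibST49.ZD

/-
PLAN (Z1, MEDIUM/STRONG, ONLY MATHLIB). Put k = ν(ν-1), G_r(s) = g(2π r s) (real, s > 0), I(χ) = ∫ e1(-(ρ s)) G_r(s) χ(s) ds for every χ smooth, compactly supported, zero for s <= c0
(c0 fixed). On s > 0: G_r'' = (k/s^2 - 4π^2 r^2) G_r (chain rule on h1, h2). Choose R with χ = 0 outside (c0, R); all integrals are interval integrals over [c0, R] and the boundary
terms vanish (χ and its derivatives vanish at c0 and R), so two integrations by parts (intervalIntegral.integral_mul_deriv_eq_deriv_mul, G_r is C^2 on [c0,R]) give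
   ∫ G_r'' χ e = ∫ G_r (χ e)'' = I(χ'') - 4π i ρ I(χ') - 4π^2 ρ^2 I(χ),     e(s) = e1(-(ρ s)).
Hence   4π^2 (r^2 - ρ^2) I(χ) = k I(χ/s^2) - I(χ'') + 4π i ρ I(χ').      (*)
Prove by induction on N, for ALL such χ at once: ∃ C, ∀ r >= 1, ∀ ρ, |I(χ)| <= C/(1+||ρ|-r|)^N. N = 0: |I(χ)| <= B ∫|χ|. Step: with δ = ||ρ|-r|: if δ <= 1 use N = 0 with factor 2^(N+1);
if δ > 1: |r^2-ρ^2| = δ (r+|ρ|) and 1 + |ρ| <= r + |ρ|, so (*) and the case N for χ/s^2, χ'', χ' give |I(χ)| <= C' (1+|ρ|)/(δ (r+|ρ|)) /(1+δ)^N <= C' /(δ (1+δ)^N) and δ >= (1+δ)/2.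
χ/s^2, χ', χ'' are again smooth (χ vanishes for s <= c0, so χ/s^2 is smooth: contDiff_iff_contDiffAt, near points s < c0 the function is zero), compactly supported, zero for s <= c0
(derivatives vanish at s <= c0 because χ vanishes on (-oo,c0] and the derivatives are continuous; at c0 by continuity from the left).
Tools: ContDiff.iterate_deriv', contDiff_infty_iff_deriv, HasCompactSupport.deriv.
-/

set_option autoImplicit false

noncomputable section

open MeasureTheory Metric Set Filter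

namespace Pool.LibST49

open Pool.LibSR53

/-- the class of windows -/
private def Z1_W (c0 : ℝ) (χ : ℝ → ℂ) : Prop :=
  ContDiff ℝ (⊤ : ℕ∞) χ ∧ HasCompactSupport χ ∧ ∀ s, s ≤ c0 → χ s = 0

private lemma Z1_deriv {c0 : ℝ} {χ : ℝ → ℂ} (h : Z1_W c0 χ) : Z1_W c0 (deriv χ) := by
  obtain ⟨h1, h2, h3⟩ := h
  have hd : ContDiff ℝ (⊤ : ℕ∞) (deriv χ) := (contDiff_infty_iff_deriv.1 h1).2
  refine ⟨hd, h2.deriv, ?_⟩
  have hlt : ∀ s, s < c0 → deriv χ s = 0 := by
    intro s hs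
    have h4 : χ =ᶠ[nhds s] fun _ => 0 := by
      filter_upwards [Iio_mem_nhds hs] with x hx
      exact h3 x (le_of_lt hx)
    rw [h4.deriv_eq]
    simp
  have hcl : IsClosed {s | deriv χ s = 0} := isClosed_eq hd.continuous continuous_const
  have hsub : Iic c0 ⊆ {s | deriv χ s = 0} := by
    rw [← closure_Iio c0]
    exact hcl.closure_subset_iff.2 (fun s hs => hlt s hs)
  intro s hs
  exact hsub hs

private lemma Z1_div {c0 : ℝ} (hc0 : 0 < c0) {χ : ℝ → ℂ} (h : Z1_W c0 χ) :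
    Z1_W c0 (fun s => χ s / (s : ℂ) ^ 2) := by
  obtain ⟨h1, h2, h3⟩ := h
  refine ⟨?_, ?_, ?_⟩
  · rw [contDiff_iff_contDiffAt]
    intro s
    rcases lt_or_ge s c0 with hs | hs
    · have h4 : (fun s : ℝ => χ s / (s : ℂ) ^ 2) =ᶠ[nhds s] fun _ => 0 := by
        filter_upwards [Iio_mem_nhds hs] with x hx
        rw [h3 x (le_of_lt hx), zero_div]
      exact contDiffAt_const.congr_of_eventuallyEq h4
    · have hs0 : (s : ℂ) ≠ 0 := by
        have : (0 : ℝ) < s := lt_of_lt_of_le hc0 hs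
        exact_mod_cast this.ne'
      have h5 : ContDiffAt ℝ (⊤ : ℕ∞) (fun s : ℝ => ((s : ℂ) ^ 2)⁻¹) s := by
        refine ContDiffAt.inv ?_ (pow_ne_zero 2 hs0)
        exact (Complex.ofRealCLM.contDiff.pow 2).contDiffAt
      have h6 := h1.contDiffAt (x := s) |>.mul h5
      simpa only [div_eq_mul_inv] using h6
  · have h4 : (fun s : ℝ => χ s / (s : ℂ) ^ 2) = χ * fun s : ℝ => ((s : ℂ) ^ 2)⁻¹ := by
      ext s
      simp [div_eq_mul_inv]
    rw [h4]
    exact h2.mul_right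
  · intro s hs
    simp [h3 s hs]

/-- the integrand -/
private def Z1_F (g : ℝ → ℝ) (r ρ : ℝ) (ψ : ℝ → ℂ) (s : ℝ) : ℂ :=
  e1 (-(ρ * s)) * (((g (2 * Real.pi * (r * s)) : ℝ) : ℂ) * ψ s)

private lemma Z1_e (ρ s : ℝ) : HasDerivAt (fun s : ℝ => e1 (-(ρ * s)))
    ((-(2 * (Real.pi : ℂ) * Complex.I * ρ)) * e1 (-(ρ * s))) s := by
  have h1 : HasDerivAt (fun s : ℝ => (2 * (Real.pi : ℂ) * Complex.I * ((-(ρ * s) : ℝ) : ℂ)))
      (2 * (Real.pi : ℂ) * Complex.I * ((-ρ : ℝ) : ℂ)) s := by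
    have h2 : HasDerivAt (fun s : ℝ => -(ρ * s)) (-ρ) s := by
      have h := (hasDerivAt_id' s).const_mul (-ρ)
      have e : (fun y : ℝ => -ρ * y) = fun y => -(ρ * y) := by
        ext y
        ring
      rw [mul_one, e] at h
      exact h
    exact (h2.ofReal_comp).const_mul _
  have h3 := h1.cexp
  unfold e1
  convert h3 using 1
  push_cast
  ring

private lemma Z1_norm_e (t : ℝ) : ‖e1 t‖ = 1 := by
  unfold e1
  rw [Complex.norm_exp]
  simp

private lemma Z1_arg {c0 r s : ℝ} (hc0 : 0 < c0) (hr : 1 ≤ r) (hs : c0 ≤ s) :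
    0 < 2 * Real.pi * (r * s) := by
  have h1 : 0 < s := lt_of_lt_of_le hc0 hs
  have h2 : 0 < r := by linarith
  positivity

private lemma Z1_lin (r s : ℝ) : HasDerivAt (fun s : ℝ => 2 * Real.pi * (r * s))
    (2 * Real.pi * r) s := by
  simpa using (((hasDerivAt_id s).const_mul r).const_mul (2 * Real.pi))

private lemma Z1_cont {g g1 : ℝ → ℝ} (h1 : ∀ t, 0 < t → HasDerivAt g (g1 t) t) {c0 : ℝ}
    (hc0 : 0 < c0) {r : ℝ} (hr : 1 ≤ r) (ρ : ℝ) {ψ : ℝ → ℂ} (hψ : Z1_W c0 ψ) :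
    Continuous (Z1_F g r ρ ψ) := by
  obtain ⟨p1, p2, p3⟩ := hψ
  rw [continuous_iff_continuousAt]
  intro s
  rcases lt_or_ge s c0 with hs | hs
  · have h4 : Z1_F g r ρ ψ =ᶠ[nhds s] fun _ => 0 := by
      filter_upwards [Iio_mem_nhds hs] with x hx
      unfold Z1_F
      rw [p3 x (le_of_lt hx)]
      simp
    exact continuousAt_const.congr h4.symm
  · have ht := Z1_arg hc0 hr hs
    have h5 : ContinuousAt (fun s : ℝ => g (2 * Real.pi * (r * s))) s :=
      ContinuousAt.comp (f := fun s : ℝ => 2 * Real.pi * (r * s)) (h1 _ ht).continuousAt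
        (Z1_lin r s).continuousAt
    have h6 : ContinuousAt (fun s : ℝ => ((g (2 * Real.pi * (r * s)) : ℝ) : ℂ)) s :=
      Complex.continuous_ofReal.continuousAt.comp h5
    exact (Z1_e ρ s).continuousAt.mul (h6.mul p1.continuous.continuousAt)

private lemma Z1_int {g g1 : ℝ → ℝ} (h1 : ∀ t, 0 < t → HasDerivAt g (g1 t) t) {c0 : ℝ}
    (hc0 : 0 < c0) {r : ℝ} (hr : 1 ≤ r) (ρ : ℝ) {ψ : ℝ → ℂ} (hψ : Z1_W c0 ψ) :
    Integrable (Z1_F g r ρ ψ) := by
  refine (Z1_cont h1 hc0 hr ρ hψ).integrable_of_hasCompactSupport ?_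
  refine HasCompactSupport.intro hψ.2.1.isCompact ?_
  intro s hs
  unfold Z1_F
  rw [image_eq_zero_of_notMem_tsupport hs]
  simp

private lemma Z1_bound {g g1 : ℝ → ℝ} (h1 : ∀ t, 0 < t → HasDerivAt g (g1 t) t) {B : ℝ}
    (hB : ∀ t, 0 < t → |g t| ≤ B) {c0 : ℝ} (hc0 : 0 < c0) {ψ : ℝ → ℂ} (hψ : Z1_W c0 ψ) :
    ∀ r ρ : ℝ, 1 ≤ r → ‖∫ s, Z1_F g r ρ ψ s‖ ≤ B * ∫ s, ‖ψ s‖ := by
  intro r ρ hr
  have hi : Integrable ψ := hψ.1.continuous.integrable_of_hasCompactSupport hψ.2.1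
  refine (norm_integral_le_integral_norm _).trans ?_
  rw [← integral_const_mul]
  refine integral_mono (Z1_int h1 hc0 hr ρ hψ).norm (hi.norm.const_mul B) ?_
  intro s
  show ‖Z1_F g r ρ ψ s‖ ≤ B * ‖ψ s‖
  unfold Z1_F
  rw [norm_mul, norm_mul, Z1_norm_e, one_mul, Complex.norm_real, Real.norm_eq_abs]
  rcases lt_or_ge s c0 with hs | hs
  · rw [hψ.2.2 s hs.le]
    simp
  · exact mul_le_mul_of_nonneg_right (hB _ (Z1_arg hc0 hr hs)) (norm_nonneg _)

private lemma Z1_split (a b c d : ℂ) {f1 f2 f3 f4 : ℝ → ℂ} (i1 : Integrable f1)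
    (i2 : Integrable f2) (i3 : Integrable f3) (i4 : Integrable f4) :
    ∫ s, (a * f1 s - b * f2 s - f3 s - c * f4 s - d * f2 s) =
      a * (∫ s, f1 s) - b * (∫ s, f2 s) - (∫ s, f3 s) - c * (∫ s, f4 s) - d * ∫ s, f2 s := by
  have j1 : Integrable (fun s => a * f1 s) := i1.const_mul a
  have j2 : Integrable (fun s => b * f2 s) := i2.const_mul b
  have j4 : Integrable (fun s => c * f4 s) := i4.const_mul c
  have j5 : Integrable (fun s => d * f2 s) := i2.const_mul d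
  have k2 : Integrable (fun s => a * f1 s - b * f2 s) := j1.sub j2
  have k3 : Integrable (fun s => a * f1 s - b * f2 s - f3 s) := k2.sub i3
  have k4 : Integrable (fun s => a * f1 s - b * f2 s - f3 s - c * f4 s) := k3.sub j4
  rw [integral_sub k4 j5, integral_sub k3 j4, integral_sub k2 i3, integral_sub j1 j2]
  simp only [integral_const_mul]

private lemma Z1_identity (ν : ℝ) {g g1 : ℝ → ℝ} (h1 : ∀ t, 0 < t → HasDerivAt g (g1 t) t)
    (h2 : ∀ t, 0 < t → HasDerivAt g1 ((ν * (ν - 1) / t ^ 2 - 1) * g t) t) {c0 : ℝ}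
    (hc0 : 0 < c0) {χ : ℝ → ℂ} (hχ : Z1_W c0 χ) (r ρ : ℝ) (hr : 1 ≤ r) :
    ((4 * Real.pi ^ 2 * (r ^ 2 - ρ ^ 2) : ℝ) : ℂ) * ∫ s, Z1_F g r ρ χ s =
      ((ν * (ν - 1) : ℝ) : ℂ) * (∫ s, Z1_F g r ρ (fun s => χ s / (s : ℂ) ^ 2) s) -
        (∫ s, Z1_F g r ρ (deriv (deriv χ)) s) +
        (4 * (Real.pi : ℂ) * Complex.I * ρ) * ∫ s, Z1_F g r ρ (deriv χ) s := by
  have hχ1 := Z1_deriv hχ
  have hχ2 := Z1_deriv hχ1
  have hχd := Z1_div hc0 hχ
  set c : ℂ := -(2 * (Real.pi : ℂ) * Complex.I * ρ) with hc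
  set Φ : ℝ → ℂ := fun s => ((2 * Real.pi * r * g1 (2 * Real.pi * (r * s)) : ℝ) : ℂ) *
      (χ s * e1 (-(ρ * s))) - ((g (2 * Real.pi * (r * s)) : ℝ) : ℂ) *
      (deriv χ s * e1 (-(ρ * s)) + χ s * (c * e1 (-(ρ * s)))) with hΦ
  set D : ℝ → ℂ := fun s => ((ν * (ν - 1) : ℝ) : ℂ) *
      Z1_F g r ρ (fun s => χ s / (s : ℂ) ^ 2) s -
      ((4 * Real.pi ^ 2 * r ^ 2 : ℝ) : ℂ) * Z1_F g r ρ χ s - Z1_F g r ρ (deriv (deriv χ)) s -
      2 * c * Z1_F g r ρ (deriv χ) s - c ^ 2 * Z1_F g r ρ χ s with hD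
  have hder : ∀ s, HasDerivAt Φ (D s) s := by
    intro s
    rcases lt_or_ge s c0 with hs | hs
    · have h4 : Φ =ᶠ[nhds s] fun _ => 0 := by
        filter_upwards [Iio_mem_nhds hs] with x hx
        rw [hΦ]
        simp only
        rw [hχ.2.2 x (le_of_lt hx), hχ1.2.2 x (le_of_lt hx)]
        simp
      have h5 : D s = 0 := by
        rw [hD]
        simp only [Z1_F]
        rw [hχ.2.2 s hs.le, hχ1.2.2 s hs.le, hχ2.2.2 s hs.le]
        simp
      rw [h5]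
      exact (hasDerivAt_const s (0 : ℂ)).congr_of_eventuallyEq h4
    · have ht := Z1_arg hc0 hr hs
      have hs0 : 0 < s := lt_of_lt_of_le hc0 hs
      have hr0 : 0 < r := by linarith
      have hG : HasDerivAt (fun s : ℝ => ((g (2 * Real.pi * (r * s)) : ℝ) : ℂ))
          ((g1 (2 * Real.pi * (r * s)) * (2 * Real.pi * r) : ℝ) : ℂ) s :=
        (HasDerivAt.comp (h := fun s : ℝ => 2 * Real.pi * (r * s)) s (h1 _ ht)
          (Z1_lin r s)).ofReal_comp
      have hG1 : HasDerivAt (fun s : ℝ => ((2 * Real.pi * r * g1 (2 * Real.pi * (r * s)) : ℝ) : ℂ))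
          ((2 * Real.pi * r * (((ν * (ν - 1) / (2 * Real.pi * (r * s)) ^ 2 - 1) *
            g (2 * Real.pi * (r * s))) * (2 * Real.pi * r)) : ℝ) : ℂ) s :=
        ((HasDerivAt.comp (h := fun s : ℝ => 2 * Real.pi * (r * s)) s (h2 _ ht)
          (Z1_lin r s)).const_mul (2 * Real.pi * r)).ofReal_comp
      have hx0 : HasDerivAt χ (deriv χ s) s :=
        (hχ.1.differentiable (by simp)).differentiableAt.hasDerivAt
      have hx1 : HasDerivAt (deriv χ) (deriv (deriv χ) s) s :=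
        (hχ1.1.differentiable (by simp)).differentiableAt.hasDerivAt
      have he := Z1_e ρ s
      rw [← hc] at he
      have hmain := (hG1.mul (hx0.mul he)).sub (hG.mul ((hx1.mul he).add
        (hx0.mul (he.const_mul c))))
      have hval : ((2 * Real.pi * r * (((ν * (ν - 1) / (2 * Real.pi * (r * s)) ^ 2 - 1) *
            g (2 * Real.pi * (r * s))) * (2 * Real.pi * r)) : ℝ) : ℂ) =
          (((ν * (ν - 1) : ℝ) : ℂ) / (s : ℂ) ^ 2 - ((4 * Real.pi ^ 2 * r ^ 2 : ℝ) : ℂ)) *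
            ((g (2 * Real.pi * (r * s)) : ℝ) : ℂ) := by
        have hreal : 2 * Real.pi * r * (((ν * (ν - 1) / (2 * Real.pi * (r * s)) ^ 2 - 1) *
            g (2 * Real.pi * (r * s))) * (2 * Real.pi * r)) =
            (ν * (ν - 1) / s ^ 2 - 4 * Real.pi ^ 2 * r ^ 2) * g (2 * Real.pi * (r * s)) := by
          have hpi := Real.pi_pos
          have h7 : 2 * Real.pi * r * (2 * Real.pi * r) *
              (ν * (ν - 1) / (2 * Real.pi * (r * s)) ^ 2 - 1) =
              ν * (ν - 1) / s ^ 2 - 4 * Real.pi ^ 2 * r ^ 2 := by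
            field_simp
            ring
          rw [← h7]
          ring
        rw [hreal]
        push_cast
        ring
      rw [hval] at hmain
      have hmain' : HasDerivAt Φ _ s := hmain
      refine hmain'.congr_deriv ?_
      rw [hD]
      simp only [Z1_F, Pi.mul_apply, Pi.add_apply]
      push_cast
      ring
  have hi0 := Z1_int h1 hc0 hr ρ hχ
  have hi1 := Z1_int h1 hc0 hr ρ hχ1
  have hi2 := Z1_int h1 hc0 hr ρ hχ2
  have hid := Z1_int h1 hc0 hr ρ hχd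
  have hDi : Integrable D :=
    ((((hid.const_mul _).sub (hi0.const_mul _)).sub hi2).sub (hi1.const_mul _)).sub
      (hi0.const_mul _)
  have hΦc : Continuous Φ := continuous_iff_continuousAt.2 fun s => (hder s).continuousAt
  have hΦs : HasCompactSupport Φ := by
    refine HasCompactSupport.intro hχ.2.1.isCompact ?_
    intro s hs
    have h4 : χ s = 0 := image_eq_zero_of_notMem_tsupport hs
    have h5 : deriv χ s = 0 := by
      by_contra h6
      exact hs (support_deriv_subset h6)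
    rw [hΦ]
    simp only
    rw [h4, h5]
    simp
  have hzero := integral_eq_zero_of_hasDerivAt_of_integrable hder hDi
    (hΦc.integrable_of_hasCompactSupport hΦs)
  have hsplit : ∫ s, D s = ((ν * (ν - 1) : ℝ) : ℂ) *
      (∫ s, Z1_F g r ρ (fun s => χ s / (s : ℂ) ^ 2) s) -
      ((4 * Real.pi ^ 2 * r ^ 2 : ℝ) : ℂ) * (∫ s, Z1_F g r ρ χ s) -
      (∫ s, Z1_F g r ρ (deriv (deriv χ)) s) - 2 * c * (∫ s, Z1_F g r ρ (deriv χ) s) -
      c ^ 2 * ∫ s, Z1_F g r ρ χ s := by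
    exact Z1_split _ _ _ _ hid hi0 hi2 hi1
  rw [hsplit] at hzero
  have hc2 : c ^ 2 = -((4 * Real.pi ^ 2 * ρ ^ 2 : ℝ) : ℂ) := by
    rw [hc]
    push_cast
    linear_combination (4 * (Real.pi : ℂ) ^ 2 * (ρ : ℂ) ^ 2) * Complex.I_sq
  rw [hc2, hc] at hzero
  push_cast at hzero ⊢
  linear_combination -hzero

/-- the Fourier transform of a window of a solution of g'' = (ν(ν-1)/t^2 - 1) g, dilated by r, is
concentrated at the frequencies r and -r -/
theorem window (ν : ℝ) (g g1 : ℝ → ℝ) (h1 : ∀ t, 0 < t → HasDerivAt g (g1 t) t)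
    (h2 : ∀ t, 0 < t → HasDerivAt g1 ((ν * (ν - 1) / t ^ 2 - 1) * g t) t)
    (B : ℝ) (hB : ∀ t, 0 < t → |g t| ≤ B) (c0 : ℝ) (hc0 : 0 < c0) (N : ℕ) (χ : ℝ → ℂ)
    (hχ : ContDiff ℝ (⊤ : ℕ∞) χ) (hχs : HasCompactSupport χ) (hχ0 : ∀ s, s ≤ c0 → χ s = 0) :
    ∃ C : ℝ, 0 < C ∧ ∀ r ρ : ℝ, 1 ≤ r →
      ‖∫ s : ℝ, e1 (-(ρ * s)) * (((g (2 * Real.pi * (r * s)) : ℝ) : ℂ) * χ s)‖ ≤
        C / (1 + |(|ρ|) - r|) ^ N := by
  have hgen : ∀ N : ℕ, ∀ χ : ℝ → ℂ, Z1_W c0 χ → ∃ C : ℝ, 0 < C ∧ ∀ r ρ : ℝ, 1 ≤ r →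
      ‖∫ s : ℝ, Z1_F g r ρ χ s‖ ≤ C / (1 + |(|ρ|) - r|) ^ N := by
    intro N
    induction N with
    | zero =>
      intro χ hχ
      have hBn : 0 ≤ B := (abs_nonneg _).trans (hB 1 one_pos)
      have hin : 0 ≤ ∫ s, ‖χ s‖ := integral_nonneg fun s => norm_nonneg _
      refine ⟨B * (∫ s, ‖χ s‖) + 1, by positivity, ?_⟩
      intro r ρ hr
      rw [pow_zero, div_one]
      have := Z1_bound h1 hB hc0 hχ r ρ hr
      linarith
    | succ N ih =>
      intro χ hχ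
      have hBn : 0 ≤ B := (abs_nonneg _).trans (hB 1 one_pos)
      have hin : 0 ≤ ∫ s, ‖χ s‖ := integral_nonneg fun s => norm_nonneg _
      obtain ⟨C1, hC1, hC1b⟩ := ih _ (Z1_deriv hχ)
      obtain ⟨C2, hC2, hC2b⟩ := ih _ (Z1_deriv (Z1_deriv hχ))
      obtain ⟨C3, hC3, hC3b⟩ := ih _ (Z1_div hc0 hχ)
      set C0 : ℝ := B * (∫ s, ‖χ s‖) + 1 with hC0
      have hC0p : 0 < C0 := by positivity
      set K : ℝ := |ν * (ν - 1)| * C3 + C2 + 4 * Real.pi * C1 with hK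
      have hKp : 0 < K := by positivity
      refine ⟨C0 * 2 ^ (N + 1) + 2 * K, by positivity, ?_⟩
      intro r ρ hr
      set δ : ℝ := |(|ρ|) - r| with hδ
      have hδ0 : 0 ≤ δ := abs_nonneg _
      rcases le_or_gt δ 1 with hδ1 | hδ1
      · have h3 : ‖∫ s : ℝ, Z1_F g r ρ χ s‖ ≤ C0 := by
          have := Z1_bound h1 hB hc0 hχ r ρ hr
          linarith
        rw [le_div_iff₀ (by positivity)]
        have h4 : (1 + δ) ^ (N + 1) ≤ 2 ^ (N + 1) :=
          pow_le_pow_left₀ (by positivity) (by linarith) _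
        calc ‖∫ s : ℝ, Z1_F g r ρ χ s‖ * (1 + δ) ^ (N + 1) ≤ C0 * 2 ^ (N + 1) :=
              mul_le_mul h3 h4 (by positivity) hC0p.le
          _ ≤ _ := by linarith
      · have hidn := Z1_identity ν h1 h2 hc0 hχ r ρ hr
        have hpi := Real.pi_pos
        have hr0 : 0 < r := by linarith
        have hfac : |r ^ 2 - ρ ^ 2| = δ * (r + |ρ|) := by
          have h3 : r ^ 2 - ρ ^ 2 = -((|ρ| - r) * (r + |ρ|)) := by
            rw [← sq_abs ρ]
            ring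
          rw [h3, abs_neg, abs_mul, abs_of_pos (by positivity : 0 < r + |ρ|)]
        have h4 : 4 * Real.pi ^ 2 * (δ * (r + |ρ|)) * ‖∫ s : ℝ, Z1_F g r ρ χ s‖ ≤
            |ν * (ν - 1)| * (C3 / (1 + δ) ^ N) + C2 / (1 + δ) ^ N +
              4 * Real.pi * |ρ| * (C1 / (1 + δ) ^ N) := by
          have h5 := congrArg norm hidn
          rw [norm_mul, Complex.norm_real, Real.norm_eq_abs, abs_mul,
            abs_of_pos (by positivity : 0 < 4 * Real.pi ^ 2), hfac] at h5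
          rw [h5]
          refine (norm_add_le _ _).trans ?_
          refine add_le_add ((norm_sub_le _ _).trans (add_le_add ?_ (hC2b r ρ hr))) ?_
          · rw [norm_mul, Complex.norm_real, Real.norm_eq_abs]
            exact mul_le_mul_of_nonneg_left (hC3b r ρ hr) (abs_nonneg _)
          · rw [norm_mul]
            have h6 : ‖(4 * (Real.pi : ℂ) * Complex.I * ρ)‖ = 4 * Real.pi * |ρ| := by
              rw [norm_mul, norm_mul, norm_mul, Complex.norm_I, Complex.norm_real,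
                Complex.norm_real, Real.norm_eq_abs, Real.norm_eq_abs, abs_of_pos hpi]
              norm_num
            rw [h6]
            exact mul_le_mul_of_nonneg_left (hC1b r ρ hr) (by positivity)
        have h7 : |ν * (ν - 1)| * (C3 / (1 + δ) ^ N) + C2 / (1 + δ) ^ N +
            4 * Real.pi * |ρ| * (C1 / (1 + δ) ^ N) ≤ K * (r + |ρ|) / (1 + δ) ^ N := by
          have h8 : |ν * (ν - 1)| * C3 + C2 + 4 * Real.pi * |ρ| * C1 ≤ K * (r + |ρ|) := by
            rw [hK]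
            have ha := abs_nonneg ρ
            have hx : 0 ≤ |ν * (ν - 1)| * C3 := by positivity
            have hy : 0 ≤ 4 * Real.pi * C1 := by positivity
            nlinarith [mul_nonneg hx ha, mul_nonneg hC2.le ha, mul_nonneg hy ha,
              mul_nonneg hx (sub_nonneg.2 hr), mul_nonneg hC2.le (sub_nonneg.2 hr),
              mul_nonneg hy hr0.le]
          calc _ = (|ν * (ν - 1)| * C3 + C2 + 4 * Real.pi * |ρ| * C1) / (1 + δ) ^ N := by ring
            _ ≤ _ := by gcongr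
        have h9 : 4 * Real.pi ^ 2 * (δ * (r + |ρ|)) * ‖∫ s : ℝ, Z1_F g r ρ χ s‖ ≤
            K * (r + |ρ|) / (1 + δ) ^ N := h4.trans h7
        have hrp : 0 < r + |ρ| := by positivity
        have h10 : δ * ‖∫ s : ℝ, Z1_F g r ρ χ s‖ ≤ K / (1 + δ) ^ N := by
          have h11 : (δ * ‖∫ s : ℝ, Z1_F g r ρ χ s‖) * (r + |ρ|) ≤
              K / (1 + δ) ^ N * (r + |ρ|) := by
            have h12 : (1 : ℝ) ≤ 4 * Real.pi ^ 2 := by
              have := Real.pi_gt_three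
              nlinarith
            have h13 : 0 ≤ (δ * ‖∫ s : ℝ, Z1_F g r ρ χ s‖) * (r + |ρ|) := by positivity
            calc (δ * ‖∫ s : ℝ, Z1_F g r ρ χ s‖) * (r + |ρ|) ≤
                4 * Real.pi ^ 2 * ((δ * ‖∫ s : ℝ, Z1_F g r ρ χ s‖) * (r + |ρ|)) :=
                  le_mul_of_one_le_left h13 h12
              _ = 4 * Real.pi ^ 2 * (δ * (r + |ρ|)) * ‖∫ s : ℝ, Z1_F g r ρ χ s‖ := by ring
              _ ≤ K * (r + |ρ|) / (1 + δ) ^ N := h9
              _ = _ := by ring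
          exact le_of_mul_le_mul_right h11 hrp
        have h14 : (1 + δ) / 2 * ‖∫ s : ℝ, Z1_F g r ρ χ s‖ ≤ K / (1 + δ) ^ N := by
          refine le_trans ?_ h10
          exact mul_le_mul_of_nonneg_right (by linarith) (norm_nonneg _)
        have h15 : ‖∫ s : ℝ, Z1_F g r ρ χ s‖ ≤ 2 * K / (1 + δ) ^ (N + 1) := by
          rw [le_div_iff₀ (by positivity)] at h14 ⊢
          calc ‖∫ s : ℝ, Z1_F g r ρ χ s‖ * (1 + δ) ^ (N + 1) =
              2 * ((1 + δ) / 2 * ‖∫ s : ℝ, Z1_F g r ρ χ s‖ * (1 + δ) ^ N) := by ring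
            _ ≤ _ := by linarith
        refine h15.trans ?_
        gcongr
        have : 0 ≤ C0 * 2 ^ (N + 1) := by positivity
        linarith
  exact hgen N χ ⟨hχ, hχs, hχ0⟩

end Pool.LibST49
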