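import Pool.Agent.LibST49.ZD
import Pool.Agent.LibST49.CV

/-
PLAN (Z6, MEDIUM). An c0 c1 a: a is continuous with compact support, hence integrable. Ka_cont: continuity of parameter integrals (continuous_of_dominated with bound ‖a ξ‖, |e1| = 1).
Ka_le: norm_integral_le. Ka_rot: substitution ξ = U⁻¹ ζ (LinearIsometryEquiv.measurePreserving / integral_comp), <z,ξ> = <U z, U ξ>. Ka_conj: conj e1 t = e1 (-t), substitution ξ -> -ξ
(integral_neg_eq_self), integral_conj. Ka_sum: integral_finset_sum.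
Ka_Kb: v0 = c0, v1 = max c0 (2 c1), b z = if 0 < z.2 then (Jac z : ℂ) * a (xi z) else 0. cv (CV.lean) with F ξ = e1(<z,ξ> + ρ‖ξ‖) * a ξ and ph_xi give Ka a z ρ = ∫ over 0 < z.2 of
Jac * F(xi z) = Kb b (Lam (z, ρ)) (setIntegral = integral of the indicator). Sb: if b z ≠ 0 then z.2 > 0, a(xi z) ≠ 0, so las (xi z) = z.2 (1-‖z.1‖^2)/2 >= 0 gives ‖z.1‖ <= 1; ‖xi z‖ + las (xi z)
= z.2 (norm_xi), so c0 <= ‖xi z‖ <= z.2 <= 2 ‖xi z‖ <= 2 c1. Smoothness: z ↦ Jac z * a (xi z) is smooth on everything (xi is polynomial; a smooth), b agrees with it on 0 < z.2 and is zero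
on z.2 < c0 (by the support statement): the two open sets cover (contDiff_iff_contDiffAt).
-/

set_option autoImplicit false

noncomputable section

open MeasureTheory Metric Set Filter

namespace Pool.LibST49

open Pool.LibSR53

private theorem Z6_norm_e1 (t : ℝ) : ‖e1 t‖ = 1 := by
  have h : e1 t = Complex.exp (((2 * Real.pi * t : ℝ) : ℂ) * Complex.I) := by
    unfold e1
    congr 1
    push_cast
    ring
  rw [h, Complex.norm_exp_ofReal_mul_I]

private theorem Z6_cont_e1 : Continuous e1 := by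
  unfold e1
  fun_prop

private theorem Z6_conj_e1 (t : ℝ) : (starRingEnd ℂ) (e1 t) = e1 (-t) := by
  unfold e1
  rw [← Complex.exp_conj]
  congr 1
  simp only [map_mul, Complex.conj_ofReal, Complex.conj_I, Complex.ofReal_neg]
  have h2 : (starRingEnd ℂ) (2 : ℂ) = 2 := by
    have := Complex.conj_ofReal 2
    simpa using this
  rw [h2]
  ring

private theorem Z6_cpt {d : ℕ} {c0 c1 : ℝ} {a : E d → ℂ} (ha : An c0 c1 a) :
    HasCompactSupport a := by
  refine HasCompactSupport.intro (isCompact_closedBall (0 : E d) c1) fun x hx => ?_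
  by_contra h
  apply hx
  rw [mem_closedBall, dist_zero_right]
  exact (ha.supp x h).2

private theorem Z6_cont_ph {d : ℕ} (z : E d) (ρ : ℝ) :
    Continuous (fun ξ : E d => e1 (inner ℝ z ξ + ρ * ‖ξ‖)) := by
  apply Z6_cont_e1.comp
  fun_prop

private theorem Z6_int {d : ℕ} {a : E d → ℂ} (ha : Integrable a) (z : E d) (ρ : ℝ) :
    Integrable (fun ξ : E d => e1 (inner ℝ z ξ + ρ * ‖ξ‖) * a ξ) := by
  refine ha.norm.mono' ((Z6_cont_ph z ρ).aestronglyMeasurable.mul ha.aestronglyMeasurable) ?_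
  refine Filter.Eventually.of_forall fun ξ => ?_
  rw [norm_mul, Z6_norm_e1, one_mul]

theorem An_integrable {d : ℕ} {c0 c1 : ℝ} {a : E d → ℂ} (ha : An c0 c1 a) : Integrable a :=
  ha.smooth.continuous.integrable_of_hasCompactSupport (Z6_cpt ha)

theorem Ka_cont {d : ℕ} {c0 c1 : ℝ} {a : E d → ℂ} (ha : An c0 c1 a) :
    Continuous (fun z : E d × ℝ => Ka a z.1 z.2) := by
  unfold Ka
  refine continuous_of_dominated (bound := fun ξ => ‖a ξ‖) ?_ ?_ (An_integrable ha).norm ?_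
  · intro z
    exact (Z6_int (An_integrable ha) z.1 z.2).aestronglyMeasurable
  · intro z
    refine Filter.Eventually.of_forall fun ξ => ?_
    rw [norm_mul, Z6_norm_e1, one_mul]
  · refine Filter.Eventually.of_forall fun ξ => ?_
    refine Continuous.mul (Z6_cont_e1.comp ?_) continuous_const
    fun_prop

theorem Ka_le {d : ℕ} (a : E d → ℂ) (z : E d) (ρ : ℝ) : ‖Ka a z ρ‖ ≤ ∫ ξ, ‖a ξ‖ := by
  unfold Ka
  refine (norm_integral_le_integral_norm _).trans (le_of_eq ?_)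
  congr 1
  funext ξ
  rw [norm_mul, Z6_norm_e1, one_mul]

theorem Ka_rot {d : ℕ} (a : E d → ℂ) (U : E d ≃ₗᵢ[ℝ] E d) (z : E d) (ρ : ℝ) :
    Ka (fun ξ => a (U ξ)) z ρ = Ka a (U z) ρ := by
  unfold Ka
  have h := U.measurePreserving.integral_comp U.toHomeomorph.measurableEmbedding
    (fun ζ : E d => e1 (inner ℝ (U z) ζ + ρ * ‖ζ‖) * a ζ)
  rw [← h]
  congr 1
  funext ξ
  rw [U.inner_map_map, U.norm_map]

theorem Ka_conj {d : ℕ} (a : E d → ℂ) (z : E d) (ρ : ℝ) :
    Ka a z ρ = (starRingEnd ℂ) (Ka (fun ξ => (starRingEnd ℂ) (a (-ξ))) z (-ρ)) := by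
  unfold Ka
  rw [← integral_conj]
  have h := integral_neg_eq_self (fun ξ : E d => e1 (inner ℝ z ξ + ρ * ‖ξ‖) * a ξ) volume
  rw [← h]
  congr 1
  funext ξ
  rw [map_mul, Z6_conj_e1, Complex.conj_conj, norm_neg, inner_neg_right]
  congr 2
  ring

theorem An_conj {d : ℕ} {c0 c1 : ℝ} {a : E d → ℂ} (ha : An c0 c1 a) :
    An c0 c1 (fun ξ => (starRingEnd ℂ) (a (-ξ))) := by
  refine ⟨ha.pos, ?_, ?_⟩
  · exact Complex.conjCLE.contDiff.comp (ha.smooth.comp contDiff_neg)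
  · intro ξ hξ
    have h1 : a (-ξ) ≠ 0 := by
      intro h
      apply hξ
      rw [h, map_zero]
    have h2 := ha.supp (-ξ) h1
    rwa [norm_neg] at h2

theorem Ka_sum {d : ℕ} {ι : Type} (I : Finset ι) (a : ι → E d → ℂ)
    (ha : ∀ i ∈ I, Integrable (a i)) (z : E d) (ρ : ℝ) :
    Ka (fun ξ => ∑ i ∈ I, a i ξ) z ρ = ∑ i ∈ I, Ka (a i) z ρ := by
  unfold Ka
  rw [← integral_finsetSum I fun i hi => Z6_int (ha i hi) z ρ]
  congr 1
  funext ξ
  rw [Finset.mul_sum]

private theorem Z6_las_xi {m : ℕ} (z : V m) : las (xi z) = z.2 * (1 - ‖z.1‖ ^ 2) / 2 := by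
  change (Fin.snoc (α := fun _ => ℝ) (fun i => z.2 * z.1 i) (z.2 * (1 - ‖z.1‖ ^ 2) / 2) :
    Fin (m + 1) → ℝ) (Fin.last m) = _
  rw [Fin.snoc_last]

private theorem Z6_xi_smooth {m : ℕ} : ContDiff ℝ (⊤ : ℕ∞) (xi : V m → E (m + 1)) := by
  rw [contDiff_euclidean]
  intro i
  have hfst : ContDiff ℝ (⊤ : ℕ∞) (fun z : V m => z.1) := contDiff_fst
  have hsnd : ContDiff ℝ (⊤ : ℕ∞) (fun z : V m => z.2) := contDiff_snd
  refine Fin.lastCases ?_ (fun j => ?_) i
  · have h : (fun z : V m => (xi z) (Fin.last m)) = fun z => z.2 * (1 - ‖z.1‖ ^ 2) / 2 := by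
      funext z
      exact Z6_las_xi z
    rw [h]
    exact (hsnd.mul (contDiff_const.sub (hfst.norm_sq ℝ))).div_const 2
  · have h : (fun z : V m => (xi z) (Fin.castSucc j)) = fun z => z.2 * z.1 j := by
      funext z
      change (Fin.snoc (α := fun _ => ℝ) (fun i => z.2 * z.1 i) (z.2 * (1 - ‖z.1‖ ^ 2) / 2) :
        Fin (m + 1) → ℝ) (Fin.castSucc j) = _
      rw [Fin.snoc_castSucc]
    rw [h]
    exact hsnd.mul ((EuclideanSpace.proj j : E m →L[ℝ] ℝ).contDiff.comp hfst)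

private theorem Z6_Jac_smooth {m : ℕ} :
    ContDiff ℝ (⊤ : ℕ∞) (fun z : V m => (Jac z : ℂ)) := by
  have hfst : ContDiff ℝ (⊤ : ℕ∞) (fun z : V m => z.1) := contDiff_fst
  have hsnd : ContDiff ℝ (⊤ : ℕ∞) (fun z : V m => z.2) := contDiff_snd
  have h : ContDiff ℝ (⊤ : ℕ∞) (fun z : V m => Jac z) := by
    unfold Jac
    exact ((hsnd.pow m).mul (contDiff_const.add (hfst.norm_sq ℝ))).div_const 2
  exact Complex.ofRealCLM.contDiff.comp h

/-- a half wave kernel with symbol in a half space in the coordinates (x, s, t) -/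
theorem Ka_Kb {m : ℕ} (hm : 1 ≤ m) {c0 c1 : ℝ} {a : E (m + 1) → ℂ} (ha : An c0 c1 a)
    (hl : ∀ ξ, a ξ ≠ 0 → 0 ≤ las ξ) :
    ∃ (v0 v1 : ℝ) (b : V m → ℂ), Sb v0 v1 1 b ∧
      ∀ (z : E (m + 1)) (ρ : ℝ), Ka a z ρ = Kb b (Lam (z, ρ)) := by
  classical
  set b : V m → ℂ := fun z => if 0 < z.2 then (Jac z : ℂ) * a (xi z) else 0 with hb
  have hbpos : ∀ z : V m, 0 < z.2 → b z = (Jac z : ℂ) * a (xi z) := fun z hz => if_pos hz
  have hbneg : ∀ z : V m, ¬ 0 < z.2 → b z = 0 := fun z hz => if_neg hz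
  have hsupp : ∀ z, b z ≠ 0 → c0 ≤ z.2 ∧ z.2 ≤ max c0 (2 * c1) ∧ ‖z.1‖ ≤ 1 := by
    intro z hz
    have hz2 : 0 < z.2 := by
      by_contra h
      exact hz (hbneg z h)
    have haz : a (xi z) ≠ 0 := by
      intro h
      apply hz
      rw [hbpos z hz2, h, mul_zero]
    obtain ⟨h1, h2⟩ := ha.supp _ haz
    have h3 := hl _ haz
    rw [Z6_las_xi] at h3
    rw [norm_xi z hz2] at h1 h2
    have hn : 0 ≤ ‖z.1‖ := norm_nonneg _
    have h4 : ‖z.1‖ ^ 2 ≤ 1 := by
      by_contra h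
      push Not at h
      have : z.2 * (1 - ‖z.1‖ ^ 2) < 0 := mul_neg_of_pos_of_neg hz2 (by linarith)
      linarith
    refine ⟨?_, ?_, ?_⟩
    · nlinarith
    · refine le_trans ?_ (le_max_right _ _)
      nlinarith [sq_nonneg ‖z.1‖]
    · nlinarith
  have hsmooth : ContDiff ℝ (⊤ : ℕ∞) b := by
    rw [contDiff_iff_contDiffAt]
    intro z
    rcases lt_or_ge 0 z.2 with hz | hz
    · have h1 : ContDiffAt ℝ (⊤ : ℕ∞) (fun z : V m => (Jac z : ℂ) * a (xi z)) z :=
        (Z6_Jac_smooth.mul (ha.smooth.comp Z6_xi_smooth)).contDiffAt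
      refine h1.congr_of_eventuallyEq ?_
      have hopen : IsOpen {z : V m | 0 < z.2} := isOpen_lt continuous_const continuous_snd
      filter_upwards [hopen.mem_nhds hz] with y hy
      exact hbpos y hy
    · have h1 : ContDiffAt ℝ (⊤ : ℕ∞) (fun _ : V m => (0 : ℂ)) z := contDiffAt_const
      refine h1.congr_of_eventuallyEq ?_
      have hopen : IsOpen {z : V m | z.2 < c0} := isOpen_lt continuous_snd continuous_const
      filter_upwards [hopen.mem_nhds (lt_of_le_of_lt hz ha.pos)] with y hy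
      by_contra h
      exact absurd (hsupp y h).1 (not_le.2 hy)
  refine ⟨c0, max c0 (2 * c1), b, ⟨ha.pos, le_max_left _ _, hsmooth, hsupp⟩, ?_⟩
  intro z ρ
  have hF := Z6_int (An_integrable ha) z ρ
  have h1 := (cv m hm _ hF).2
  have hmeas : MeasurableSet {z : V m | 0 < z.2} :=
    (isOpen_lt continuous_const continuous_snd).measurableSet
  unfold Ka Kb
  rw [h1, ← integral_indicator hmeas]
  congr 1
  funext y
  by_cases hy : 0 < y.2
  · rw [indicator_of_mem (show y ∈ {z : V m | 0 < z.2} from hy), hbpos y hy, ph_xi z ρ y hy]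
    ring
  · rw [indicator_of_notMem (show y ∉ {z : V m | 0 < z.2} from hy), hbneg y hy, mul_zero]

end Pool.LibST49
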