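import Pool.Agent.LibST49.ZD

/-
PLAN (Z7, MEDIUM, ONLY MATHLIB). Elementary algebra of Strong. Note wt S >= 0 for Sp S and u^ε > 0 for u >= 1.
strong_mono: ENNReal.ofReal_le_ofReal. strong_congr: the sums over S agree (radii >= 1). strong_const: ‖c * f‖ₑ^q = ‖c‖ₑ^q ‖f‖ₑ^q, lintegral_const_mul' (finite constant), ENNReal.ofReal_rpow.
strong_conj: conj (∑ γ F) = ∑ conj γ conj F; apply h with the conjugate coefficients; ‖conj z‖ₑ = ‖z‖ₑ. strong_shift: lintegral_sub_right_eq_self.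
strong_add: ‖f + g‖ₑ^q <= 2^(q-1) (‖f‖ₑ^q + ‖g‖ₑ^q) (ENNReal.rpow_add_le_mul_rpow_add_rpow), lintegral_add_left' with the measurability of the first function.
strong_sum: Finset induction is NOT needed: ENNReal.rpow_sum_le_const_mul_sum_rpow (card^(q-1)), lintegral_finset_sum', ENNReal.ofReal_sum_of_nonneg. I empty: both sides are zero
(0^q = 0 as q > 0; wt S >= 0).
strong_iso: substitution x = U⁻¹ x' (U is measure preserving) turns the integral into the one of the family S' = S.image (fun p => (U p.1, p.2)), γ' p = γ (U⁻¹ p.1, p.2). The map is an isometry of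
E d x ℝ (sup metric) and preserves the radius, so Sp S', Dens u S' (sc k S' = image of sc k S, nb likewise, same cardinality) and wt S' = wt S (Finset.sum_image).
-/

set_option autoImplicit false

noncomputable section

open MeasureTheory Metric Set Filter

namespace Pool.LibST49

open Pool.LibSR53

theorem wt_nonneg {d : ℕ} {S : Finset (P d)} (hS : Sp S) : 0 ≤ wt S := Finset.sum_nonneg fun p hp => pow_nonneg (zero_le_one.trans (hS.one_le p hp)) _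

private theorem Z7_mono {d : ℕ} {S : Finset (P d)} {u ε C C' : ℝ} (hu : 1 ≤ u) (hS : Sp S) (hC : C ≤ C') :
    ENNReal.ofReal (C * u ^ ε * wt S) ≤ ENNReal.ofReal (C' * u ^ ε * wt S) :=
  ENNReal.ofReal_le_ofReal (mul_le_mul_of_nonneg_right
    (mul_le_mul_of_nonneg_right hC (Real.rpow_nonneg (zero_le_one.trans hu) _)) (wt_nonneg hS))

theorem strong_mono {d : ℕ} {F : P d → E d → ℂ} {q ε C C' : ℝ} (hC : C ≤ C')
    (h : Strong F q ε C) : Strong F q ε C' := fun S u hS hu hD γ hγ => (h S u hS hu hD γ hγ).trans (Z7_mono hu hS hC)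

theorem strong_congr {d : ℕ} {F G : P d → E d → ℂ} {q ε C : ℝ}
    (hFG : ∀ p : P d, 1 ≤ p.2 → ∀ x, F p x = G p x) (h : Strong F q ε C) : Strong G q ε C := by
  intro S u hS hu hD γ hγ
  refine le_trans (le_of_eq ?_) (h S u hS hu hD γ hγ)
  refine lintegral_congr fun x => ?_
  rw [Finset.sum_congr rfl fun p hp => by rw [← hFG p (hS.one_le p hp) x]]

theorem strong_const {d : ℕ} {F : P d → E d → ℂ} {q ε C : ℝ} (hq : 0 < q) (c : ℂ)
    (h : Strong F q ε C) : Strong (fun p x => c * F p x) q ε (‖c‖ ^ q * C) := by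
  intro S u hS hu hD γ hγ
  have h1 : ∀ x, ‖∑ p ∈ S, γ p * (c * F p x)‖ₑ ^ q = ‖c‖ₑ ^ q * ‖∑ p ∈ S, γ p * F p x‖ₑ ^ q := by
    intro x
    rw [← ENNReal.mul_rpow_of_nonneg _ _ hq.le, ← enorm_mul, Finset.mul_sum]
    congr 2
    exact Finset.sum_congr rfl fun p _ => by ring
  have h2 : ‖c‖ₑ ^ q = ENNReal.ofReal (‖c‖ ^ q) := by
    rw [← ENNReal.ofReal_rpow_of_nonneg (norm_nonneg c) hq.le, ofReal_norm]
  calc ∫⁻ x, ‖∑ p ∈ S, γ p * (c * F p x)‖ₑ ^ q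
      = ∫⁻ x, ‖c‖ₑ ^ q * ‖∑ p ∈ S, γ p * F p x‖ₑ ^ q := lintegral_congr h1
    _ = ‖c‖ₑ ^ q * ∫⁻ x, ‖∑ p ∈ S, γ p * F p x‖ₑ ^ q :=
        lintegral_const_mul' _ _ (ENNReal.rpow_ne_top_of_nonneg hq.le enorm_ne_top)
    _ ≤ ‖c‖ₑ ^ q * ENNReal.ofReal (C * u ^ ε * wt S) :=
        mul_le_mul_right (h S u hS hu hD γ hγ) _
    _ = ENNReal.ofReal (‖c‖ ^ q * C * u ^ ε * wt S) := by
        rw [h2, ← ENNReal.ofReal_mul (Real.rpow_nonneg (norm_nonneg c) _)]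
        congr 1
        ring

theorem strong_conj {d : ℕ} {F : P d → E d → ℂ} {q ε C : ℝ} (h : Strong F q ε C) :
    Strong (fun p x => (starRingEnd ℂ) (F p x)) q ε C := by
  intro S u hS hu hD γ hγ
  refine le_trans (le_of_eq ?_) (h S u hS hu hD (fun p => (starRingEnd ℂ) (γ p)) fun p => by
    rw [RCLike.norm_conj]
    exact hγ p)
  refine lintegral_congr fun x => ?_
  have h1 : ∑ p ∈ S, γ p * (starRingEnd ℂ) (F p x) =
      (starRingEnd ℂ) (∑ p ∈ S, (starRingEnd ℂ) (γ p) * F p x) := by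
    rw [map_sum]
    exact Finset.sum_congr rfl fun p _ => by rw [map_mul, Complex.conj_conj]
  rw [h1, ← ofReal_norm, ← ofReal_norm, RCLike.norm_conj]

theorem strong_shift {d : ℕ} {F : P d → E d → ℂ} {q ε C : ℝ} (w : E d) (h : Strong F q ε C) :
    Strong (fun p x => F p (x - w)) q ε C := by
  intro S u hS hu hD γ hγ
  refine le_trans (le_of_eq ?_) (h S u hS hu hD γ hγ)
  exact lintegral_sub_right_eq_self (fun x => ‖∑ p ∈ S, γ p * F p x‖ₑ ^ q) w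

theorem strong_add {d : ℕ} {F G : P d → E d → ℂ} {q ε C C' : ℝ} (hq : 1 ≤ q) (hC : 0 ≤ C)
    (hC' : 0 ≤ C') (hF : ∀ p : P d, 1 ≤ p.2 → AEStronglyMeasurable (F p) volume)
    (h : Strong F q ε C) (h' : Strong G q ε C') :
    Strong (fun p x => F p x + G p x) q ε (2 ^ (q - 1) * (C + C')) := by
  intro S u hS hu hD γ hγ
  have hq0 : 0 ≤ q - 1 := sub_nonneg.2 hq
  have hm : AEStronglyMeasurable (fun x => ∑ p ∈ S, γ p * F p x) volume :=
    Finset.aestronglyMeasurable_fun_sum S fun p hp => (hF p (hS.one_le p hp)).const_mul (γ p)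
  have hw : 0 ≤ u ^ ε * wt S := mul_nonneg (Real.rpow_nonneg (zero_le_one.trans hu) _) (wt_nonneg hS)
  have h1 : ∀ x, ‖∑ p ∈ S, γ p * (F p x + G p x)‖ₑ ^ q ≤
      2 ^ (q - 1) * (‖∑ p ∈ S, γ p * F p x‖ₑ ^ q + ‖∑ p ∈ S, γ p * G p x‖ₑ ^ q) := by
    intro x
    have h2 : ∑ p ∈ S, γ p * (F p x + G p x) = ∑ p ∈ S, γ p * F p x + ∑ p ∈ S, γ p * G p x := by
      rw [← Finset.sum_add_distrib]
      exact Finset.sum_congr rfl fun p _ => mul_add _ _ _
    rw [h2]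
    exact (ENNReal.rpow_le_rpow (enorm_add_le _ _) (by linarith)).trans
      (ENNReal.rpow_add_le_mul_rpow_add_rpow _ _ hq)
  have h3 : (2 : ENNReal) ^ (q - 1) = ENNReal.ofReal (2 ^ (q - 1)) := by
    rw [← ENNReal.ofReal_rpow_of_nonneg (by norm_num) hq0, ENNReal.ofReal_ofNat]
  calc ∫⁻ x, ‖∑ p ∈ S, γ p * (F p x + G p x)‖ₑ ^ q
      ≤ ∫⁻ x, 2 ^ (q - 1) * (‖∑ p ∈ S, γ p * F p x‖ₑ ^ q + ‖∑ p ∈ S, γ p * G p x‖ₑ ^ q) :=
        lintegral_mono h1
    _ = 2 ^ (q - 1) * ∫⁻ x, (‖∑ p ∈ S, γ p * F p x‖ₑ ^ q + ‖∑ p ∈ S, γ p * G p x‖ₑ ^ q) :=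
        lintegral_const_mul' _ _ (ENNReal.rpow_ne_top_of_nonneg hq0 (by norm_num))
    _ = 2 ^ (q - 1) * ((∫⁻ x, ‖∑ p ∈ S, γ p * F p x‖ₑ ^ q) + ∫⁻ x, ‖∑ p ∈ S, γ p * G p x‖ₑ ^ q) := by
        rw [lintegral_add_left' (hm.enorm.pow_const q)]
    _ ≤ 2 ^ (q - 1) * (ENNReal.ofReal (C * u ^ ε * wt S) + ENNReal.ofReal (C' * u ^ ε * wt S)) :=
        mul_le_mul_right (add_le_add (h S u hS hu hD γ hγ) (h' S u hS hu hD γ hγ)) _
    _ = ENNReal.ofReal (2 ^ (q - 1) * (C + C') * u ^ ε * wt S) := by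
        rw [h3, ← ENNReal.ofReal_add (by rw [mul_assoc]; exact mul_nonneg hC hw)
          (by rw [mul_assoc]; exact mul_nonneg hC' hw), ← ENNReal.ofReal_mul (Real.rpow_nonneg (by norm_num) _)]
        congr 1
        ring

theorem strong_sum {d : ℕ} {ι : Type} (I : Finset ι) (F : ι → P d → E d → ℂ) (q ε : ℝ)
    (C : ι → ℝ) (hq : 1 ≤ q) (hC : ∀ i ∈ I, 0 ≤ C i)
    (hF : ∀ i ∈ I, ∀ p : P d, 1 ≤ p.2 → AEStronglyMeasurable (F i p) volume)
    (h : ∀ i ∈ I, Strong (F i) q ε (C i)) :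
    Strong (fun p x => ∑ i ∈ I, F i p x) q ε ((I.card : ℝ) ^ (q - 1) * ∑ i ∈ I, C i) := by
  intro S u hS hu hD γ hγ
  have hq0 : 0 ≤ q - 1 := sub_nonneg.2 hq
  have hm : ∀ i ∈ I, AEStronglyMeasurable (fun x => ∑ p ∈ S, γ p * F i p x) volume := fun i hi =>
    Finset.aestronglyMeasurable_fun_sum S fun p hp => (hF i hi p (hS.one_le p hp)).const_mul (γ p)
  have hw : 0 ≤ u ^ ε * wt S := mul_nonneg (Real.rpow_nonneg (zero_le_one.trans hu) _) (wt_nonneg hS)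
  have h1 : ∀ x, ‖∑ p ∈ S, γ p * ∑ i ∈ I, F i p x‖ₑ ^ q ≤
      (I.card : ENNReal) ^ (q - 1) * ∑ i ∈ I, ‖∑ p ∈ S, γ p * F i p x‖ₑ ^ q := by
    intro x
    have h2 : ∑ p ∈ S, γ p * ∑ i ∈ I, F i p x = ∑ i ∈ I, ∑ p ∈ S, γ p * F i p x := by
      rw [Finset.sum_comm]
      exact Finset.sum_congr rfl fun p _ => Finset.mul_sum _ _ _
    rw [h2]
    exact (ENNReal.rpow_le_rpow (enorm_sum_le _ _) (by linarith)).trans
      (ENNReal.rpow_sum_le_const_mul_sum_rpow I _ hq)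
  have h3 : (I.card : ENNReal) ^ (q - 1) = ENNReal.ofReal ((I.card : ℝ) ^ (q - 1)) := by
    rw [← ENNReal.ofReal_rpow_of_nonneg (Nat.cast_nonneg _) hq0, ENNReal.ofReal_natCast]
  calc ∫⁻ x, ‖∑ p ∈ S, γ p * ∑ i ∈ I, F i p x‖ₑ ^ q
      ≤ ∫⁻ x, (I.card : ENNReal) ^ (q - 1) * ∑ i ∈ I, ‖∑ p ∈ S, γ p * F i p x‖ₑ ^ q :=
        lintegral_mono h1
    _ = (I.card : ENNReal) ^ (q - 1) * ∫⁻ x, ∑ i ∈ I, ‖∑ p ∈ S, γ p * F i p x‖ₑ ^ q :=
        lintegral_const_mul' _ _ (ENNReal.rpow_ne_top_of_nonneg hq0 (ENNReal.natCast_ne_top _))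
    _ = (I.card : ENNReal) ^ (q - 1) * ∑ i ∈ I, ∫⁻ x, ‖∑ p ∈ S, γ p * F i p x‖ₑ ^ q := by
        rw [lintegral_finsetSum' I fun i hi => (hm i hi).enorm.pow_const q]
    _ ≤ (I.card : ENNReal) ^ (q - 1) * ∑ i ∈ I, ENNReal.ofReal (C i * u ^ ε * wt S) :=
        mul_le_mul_right (Finset.sum_le_sum fun i hi => h i hi S u hS hu hD γ hγ) _
    _ = ENNReal.ofReal ((I.card : ℝ) ^ (q - 1) * (∑ i ∈ I, C i) * u ^ ε * wt S) := by
        rw [h3, ← ENNReal.ofReal_sum_of_nonneg (fun i hi => by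
            rw [mul_assoc]
            exact mul_nonneg (hC i hi) hw), ← ENNReal.ofReal_mul (Real.rpow_nonneg (Nat.cast_nonneg _) _)]
        congr 1
        rw [mul_assoc, mul_assoc, Finset.sum_mul]
        congr 1
        exact Finset.sum_congr rfl fun i _ => mul_assoc _ _ _

private def Z7_T {d : ℕ} (U : E d ≃ₗᵢ[ℝ] E d) (p : P d) : P d := (U p.1, p.2)

private theorem Z7_inj {d : ℕ} (U : E d ≃ₗᵢ[ℝ] E d) : Function.Injective (Z7_T U) := by
  intro p q h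
  have h1 : U p.1 = U q.1 := congrArg Prod.fst h
  have h2 : p.2 = q.2 := by
    have h3 := congrArg Prod.snd h
    exact h3
  exact Prod.ext (U.injective h1) h2

private theorem Z7_dist {d : ℕ} (U : E d ≃ₗᵢ[ℝ] E d) (p q : P d) : dist (Z7_T U p) (Z7_T U q) = dist p q := by
  rw [Prod.dist_eq, Prod.dist_eq]
  show max (dist (U p.1) (U q.1)) (dist p.2 q.2) = _
  rw [U.dist_map]

private theorem Z7_dens {d : ℕ} (U : E d ≃ₗᵢ[ℝ] E d) [DecidableEq (P d)] {S : Finset (P d)} {u : ℝ}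
    (h : Dens u S) : Dens u (S.image (Z7_T U)) := by
  intro k p' hp' i hi
  have hmem : ∀ q', q' ∈ sc k (S.image (Z7_T U)) → ∃ q ∈ sc k S, Z7_T U q = q' := by
    intro q' hq'
    unfold sc at hq'
    rw [Finset.mem_filter, Finset.mem_image] at hq'
    obtain ⟨⟨q, hq, rfl⟩, hr⟩ := hq'
    refine ⟨q, ?_, rfl⟩
    unfold sc
    rw [Finset.mem_filter]
    exact ⟨hq, hr⟩
  obtain ⟨p, hp, rfl⟩ := hmem p' hp'
  refine le_trans ?_ (h k p hp i hi)
  have hsub : nb (sc k (S.image (Z7_T U))) (Z7_T U p) ((2 : ℝ) ^ i) ⊆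
      (nb (sc k S) p ((2 : ℝ) ^ i)).image (Z7_T U) := by
    intro q' hq'
    unfold nb at hq'
    rw [Finset.mem_filter] at hq'
    obtain ⟨q, hq, rfl⟩ := hmem q' hq'.1
    refine Finset.mem_image_of_mem _ ?_
    unfold nb
    rw [Finset.mem_filter]
    refine ⟨hq, ?_⟩
    rw [← Z7_dist U]
    exact hq'.2
  exact_mod_cast (Finset.card_le_card hsub).trans Finset.card_image_le

theorem strong_iso {d : ℕ} {F : P d → E d → ℂ} {q ε C : ℝ} (U : E d ≃ₗᵢ[ℝ] E d)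
    (h : Strong F q ε C) : Strong (fun p x => F (U p.1, p.2) (U x)) q ε C := by
  classical
  intro S u hS hu hD γ hγ
  have hS' : Sp (S.image (Z7_T U)) := by
    refine ⟨?_, ?_⟩
    · intro p' hp'
      obtain ⟨p, hp, rfl⟩ := Finset.mem_image.1 hp'
      exact hS.one_le p hp
    · intro p' hp' q' hq' hne
      obtain ⟨p, hp, rfl⟩ := Finset.mem_image.1 hp'
      obtain ⟨q, hq, rfl⟩ := Finset.mem_image.1 hq'
      rw [Z7_dist]
      exact hS.sep p hp q hq fun h => hne (by rw [h])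
  have hwt : wt (S.image (Z7_T U)) = wt S := by
    unfold wt
    rw [Finset.sum_image fun p _ q _ h => Z7_inj U h]
    rfl
  have h1 := h (S.image (Z7_T U)) u hS' hu (Z7_dens U hD) (fun p' => γ (U.symm p'.1, p'.2)) fun p' => hγ _
  rw [hwt] at h1
  refine le_trans (le_of_eq ?_) h1
  have h2 := (LinearIsometryEquiv.measurePreserving U).lintegral_comp_emb
    U.toHomeomorph.measurableEmbedding (fun x => ‖∑ p ∈ S, γ p * F (U p.1, p.2) x‖ₑ ^ q)
  refine h2.trans (lintegral_congr fun x => ?_)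
  rw [Finset.sum_image fun p _ q _ h => Z7_inj U h]
  congr 2
  refine Finset.sum_congr rfl fun p _ => ?_
  show γ p * F (U p.1, p.2) x = γ (U.symm (U p.1), p.2) * F (U p.1, p.2) x
  rw [U.symm_apply_apply]

end Pool.LibST49
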