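import Pool.Agent.LibST49.Z5
import Pool.Agent.LibST49.Z6
import Pool.Agent.LibST49.Z7
import Pool.Agent.LibST49.A1

/-
PLAN (Z10, MEDIUM). split gives b_i, U_i; Ka_Kb for each b_i gives v0 i, v1 i, B_i with Sb and Ka (b_i) z ρ = Kb B_i (Lam (z, ρ)). Since x - p.1 and -(p.2 + s0) form the point
(x, -s0) - p, Lam_sub (A1) gives Fa (b_i) s0 p x = Fb B_i s0 p x exactly. HST m (h) at (v0 i, v1 i, B_i, q, ε): C_i, N_i. Ka_rot and Ka_sum: Fa a s0 p x = ∑_i Fa (b_i) s0 (U_i p.1, p.2) (U_i x)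
(U_i linear: U_i x - U_i p.1). strong_iso, then strong_sum (q >= 1) with C i = C_i (1+|s0|)^(N_i) <= C_i (1+|s0|)^N, N = ∑ N_i (or a maximum), C = card^(q-1) ∑ C_i + 1 (strong_mono).
Measurability of the pieces: continuous by Ka_cont.
-/

set_option autoImplicit false

noncomputable section

open MeasureTheory Metric Set Filter

namespace Pool.LibST49

open Pool.LibSR53

private theorem Z10_c2 {d : ℕ} {c0 c1 : ℝ} {a : E d → ℂ} (ha : An c0 c1 a)
    (U : E d ≃ₗᵢ[ℝ] E d) (y : E d) (r : ℝ) : Continuous (fun x : E d => Ka a (U x - y) r) := by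
  have h0 : Continuous (fun x : E d => ((U x - y, r) : E d × ℝ)) :=
    (U.continuous.sub continuous_const).prodMk continuous_const
  have h1 := Ka_cont ha
  have h2 := h1.comp h0
  exact h2

/-- strong type bounds for half wave atoms with an arbitrary symbol -/
theorem strong_Fa (m : ℕ) (hm : 2 ≤ m) (h : HST m) {c0 c1 : ℝ} {a : E (m + 1) → ℂ}
    (ha : An c0 c1 a) (q : ℝ) (hq1 : 1 < q) (hq2 : q < pS m) (ε : ℝ) (hε : 0 < ε) :
    ∃ C N : ℝ, 0 < C ∧ 0 ≤ N ∧ ∀ s0 : ℝ, Strong (Fa a s0) q ε (C * (1 + |s0|) ^ N) := by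
  obtain ⟨b, U, hb, hl, hsum⟩ := split ha
  have hK := fun i => Ka_Kb (by omega) (hb i) (hl i)
  choose v0 v1 B hB hBK using hK
  have hH := fun i => h (v0 i) (v1 i) (B i) (hB i) q hq1 hq2 ε hε
  choose C N hC hN hS using hH
  have hF : ∀ i s0, Fa (b i) s0 = Fb (B i) s0 := by
    intro i s0
    funext p x
    unfold Fa Fb
    rw [hBK, ← Lam_sub]
    have h1 : ((x - p.1, -(p.2 + s0)) : P (m + 1)) = (x, -s0) - p := by
      ext1
      · simp
      · simp only [Prod.snd_sub]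
        ring
    rw [h1]
  have hAU : ∀ i, An c0 c1 (fun ξ => b i (U i ξ)) := by
    intro i
    refine ⟨(hb i).pos, (hb i).smooth.comp (U i).contDiff, ?_⟩
    intro ξ hξ
    have h1 := (hb i).supp (U i ξ) hξ
    rwa [LinearIsometryEquiv.norm_map] at h1
  have hKa : ∀ z ρ, Ka a z ρ = ∑ i, Ka (b i) (U i z) ρ := by
    intro z ρ
    have h1 : a = fun ξ => ∑ i, b i (U i ξ) := funext hsum
    rw [h1, Ka_sum Finset.univ (fun i ξ => b i (U i ξ)) (fun i _ => An_integrable (hAU i))]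
    exact Finset.sum_congr rfl fun i _ => Ka_rot (b i) (U i) z ρ
  have hFa : ∀ s0, Fa a s0 = fun p x => ∑ i, Fa (b i) s0 (U i p.1, p.2) (U i x) := by
    intro s0
    funext p x
    unfold Fa
    rw [hKa, Finset.mul_sum]
    refine Finset.sum_congr rfl fun i _ => ?_
    rw [map_sub]
  have hN0 : 0 ≤ ∑ i, N i := Finset.sum_nonneg fun i _ => hN i
  have hC0 : 0 ≤ ∑ i, C i := Finset.sum_nonneg fun i _ => (hC i).le
  have hk0 : (0 : ℝ) ≤ ((Finset.univ : Finset (Fin (m + 1) × Bool)).card : ℝ) ^ (q - 1) :=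
    Real.rpow_nonneg (Nat.cast_nonneg _) _
  refine ⟨((Finset.univ : Finset (Fin (m + 1) × Bool)).card : ℝ) ^ (q - 1) * ∑ i, C i + 1,
    ∑ i, N i, by positivity, hN0, ?_⟩
  intro s0
  rw [hFa s0]
  have hT : (1 : ℝ) ≤ 1 + |s0| := by linarith [abs_nonneg s0]
  have h1 : ∀ i ∈ (Finset.univ : Finset (Fin (m + 1) × Bool)),
      Strong (fun p x => Fa (b i) s0 (U i p.1, p.2) (U i x)) q ε (C i * (1 + |s0|) ^ (N i)) := by
    intro i _
    refine strong_iso (U i) ?_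
    rw [hF]
    exact hS i s0
  have hT0 : ∀ i, (0 : ℝ) ≤ C i * (1 + |s0|) ^ (N i) := fun i =>
    mul_nonneg (hC i).le (Real.rpow_nonneg (by linarith) _)
  have hm1 : ∀ i ∈ (Finset.univ : Finset (Fin (m + 1) × Bool)), ∀ p : P (m + 1), 1 ≤ p.2 →
      AEStronglyMeasurable (fun x => Fa (b i) s0 (U i p.1, p.2) (U i x)) volume := by
    intro i _ p _
    refine Continuous.aestronglyMeasurable ?_
    exact continuous_const.mul (Z10_c2 (hb i) (U i) (U i p.1) (-(p.2 + s0)))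
  have h2 : Strong (fun p x => ∑ i, Fa (b i) s0 (U i p.1, p.2) (U i x)) q ε
      (((Finset.univ : Finset (Fin (m + 1) × Bool)).card : ℝ) ^ (q - 1) *
        ∑ i, C i * (1 + |s0|) ^ (N i)) :=
    strong_sum Finset.univ (fun i p x => Fa (b i) s0 (U i p.1, p.2) (U i x)) q ε
      (fun i => C i * (1 + |s0|) ^ (N i)) hq1.le (fun i _ => hT0 i) hm1 h1
  refine strong_mono ?_ h2
  have hT1 : (1 : ℝ) ≤ (1 + |s0|) ^ (∑ i, N i) := Real.one_le_rpow hT hN0
  have h3 : ∑ i, C i * (1 + |s0|) ^ (N i) ≤ (∑ i, C i) * (1 + |s0|) ^ (∑ i, N i) := by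
    rw [Finset.sum_mul]
    refine Finset.sum_le_sum fun i _ => ?_
    exact mul_le_mul_of_nonneg_left (Real.rpow_le_rpow_of_exponent_le hT
      (Finset.single_le_sum (fun j _ => hN j) (Finset.mem_univ i))) (hC i).le
  calc _ ≤ ((Finset.univ : Finset (Fin (m + 1) × Bool)).card : ℝ) ^ (q - 1) *
        ((∑ i, C i) * (1 + |s0|) ^ (∑ i, N i)) := mul_le_mul_of_nonneg_left h3 hk0
    _ ≤ _ := by
        rw [add_mul, one_mul, mul_assoc]
        linarith

end Pool.LibST49
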