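import Pool.Agent.LibST49.ZD

/-
PLAN (Z9, MEDIUM/STRONG, ONLY MATHLIB). For S, γ: ∑ γ p F p x = ∫ ∑ γ p c p t H t p x dτ (integral_finset_sum with hint)
= ∫ w t * G t x dτ, G t x = ∑_(p in S) γ' t p * H t p x with γ' t p = γ p c p t / w t for p in S (0 if w t = 0, 0 if p not in S): ‖γ' t p‖ <= 1. Jensen/Hoelder:
‖∫ w G dτ‖ₑ^q <= (∫⁻ ofReal(w))^(q-1) ∫⁻ ofReal(w t) ‖G t x‖ₑ^q dτ   [‖∫ wG‖ₑ <= ∫⁻ ofReal(w)^(1-1/q) (ofReal(w)^(1/q) ‖G‖ₑ), ENNReal.lintegral_mul_le_Lp_mul_Lq; or apply the power mean inequality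
for the measure τ.withDensity (ofReal w)]. Integrate in x, Tonelli (lintegral_lintegral_swap; (t,x) ↦ G t x is measurable: hc, hH, hw), and hs t with γ' t:
∫⁻ ‖G t x‖ₑ^q dx <= ofReal(B t u^ε wt S). ∫⁻ ofReal(w t) ofReal(B t u^ε wt S) dτ = ofReal(∫ w B) ofReal(u^ε wt S). In the product the total factor is finite.
-/

set_option autoImplicit false

noncomputable section

open MeasureTheory Metric Set Filter

namespace Pool.LibST49

open Pool.LibSR53

private theorem Z9_holder {T : Type} [MeasurableSpace T] (τ : Measure T) (q : ℝ) (hq : 1 < q)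
    (W G : T → ENNReal) (hW : Measurable W) (hG : Measurable G) :
    (∫⁻ t, W t * G t ∂τ) ^ q ≤ (∫⁻ t, W t ∂τ) ^ (q - 1) * ∫⁻ t, W t * G t ^ q ∂τ := by
  have hq0 : 0 < q := by linarith
  have hq1 : 0 < q - 1 := by linarith
  have hpq : (q / (q - 1)).HolderConjugate q := (Real.HolderConjugate.conjExponent hq).symm
  have h1 := ENNReal.lintegral_mul_le_Lp_mul_Lq τ hpq (f := fun t => W t ^ (1 - 1 / q))
    (g := fun t => W t ^ (1 / q) * G t) (hW.pow_const _).aemeasurable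
    ((hW.pow_const _).mul hG).aemeasurable
  have e1 : ∀ t, ((fun t => W t ^ (1 - 1 / q)) * (fun t => W t ^ (1 / q) * G t)) t =
      W t * G t := by
    intro t
    have hle : 0 ≤ 1 - 1 / q := by
      rw [sub_nonneg, div_le_one hq0]
      exact hq.le
    rw [Pi.mul_apply, ← mul_assoc, ← ENNReal.rpow_add_of_nonneg _ _ hle (by positivity),
      sub_add_cancel, ENNReal.rpow_one]
  have e2 : ∀ t, (W t ^ (1 - 1 / q)) ^ (q / (q - 1)) = W t := by
    intro t
    rw [← ENNReal.rpow_mul]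
    have : (1 - 1 / q) * (q / (q - 1)) = 1 := by
      field_simp
    rw [this, ENNReal.rpow_one]
  have e3 : ∀ t, (W t ^ (1 / q) * G t) ^ q = W t * G t ^ q := by
    intro t
    rw [ENNReal.mul_rpow_of_nonneg _ _ hq0.le, ← ENNReal.rpow_mul, one_div_mul_cancel hq0.ne',
      ENNReal.rpow_one]
  simp only [e1, e2, e3] at h1
  refine (ENNReal.rpow_le_rpow h1 hq0.le).trans (le_of_eq ?_)
  rw [ENNReal.mul_rpow_of_nonneg _ _ hq0.le, ← ENNReal.rpow_mul, ← ENNReal.rpow_mul,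
    one_div_mul_cancel hq0.ne', ENNReal.rpow_one]
  congr 2
  field_simp

/-- strong type bounds for superpositions -/
theorem superpose {d : ℕ} {T : Type} [MeasurableSpace T] (τ : Measure T) [SFinite τ] (q ε : ℝ)
    (hq : 1 < q) (F : P d → E d → ℂ) (H : T → P d → E d → ℂ) (c : P d → T → ℂ) (w B : T → ℝ)
    (hc : ∀ p, 1 ≤ p.2 → Measurable (c p))
    (hH : ∀ p, 1 ≤ p.2 → Measurable (fun z : T × E d => H z.1 p z.2))
    (hw : Measurable w) (hw0 : ∀ t, 0 ≤ w t) (hcw : ∀ p, 1 ≤ p.2 → ∀ t, ‖c p t‖ ≤ w t)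
    (hwi : Integrable w τ) (hB : ∀ t, 0 ≤ B t) (hwB : Integrable (fun t => w t * B t) τ)
    (hs : ∀ t, Strong (H t) q ε (B t))
    (hint : ∀ p, 1 ≤ p.2 → ∀ x, Integrable (fun t => c p t * H t p x) τ)
    (hF : ∀ p, 1 ≤ p.2 → ∀ x, F p x = ∫ t, c p t * H t p x ∂τ) :
    Strong F q ε ((∫ t, w t ∂τ) ^ (q - 1) * ∫ t, w t * B t ∂τ) := by
  classical
  intro S u hS hu hd γ hγ
  have hq0 : 0 < q := by linarith
  have hS1 : ∀ p ∈ S, 1 ≤ p.2 := hS.one_le
  have hwt : 0 ≤ wt S := by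
    unfold wt
    exact Finset.sum_nonneg fun p hp => pow_nonneg (zero_le_one.trans (hS1 p hp)) _
  set g : T → P d → ℂ := fun t p => γ p * (c p t / (w t : ℂ)) with hg
  set G : T → E d → ℂ := fun t x => ∑ p ∈ S, g t p * H t p x with hG
  have hGm : Measurable (fun z : T × E d => G z.1 z.2) := by
    rw [hG]
    refine Finset.measurable_fun_sum _ fun p hp => ?_
    refine Measurable.mul ?_ (hH p (hS1 p hp))
    rw [hg]
    refine measurable_const.mul ?_
    exact ((hc p (hS1 p hp)).comp measurable_fst).div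
      (Complex.measurable_ofReal.comp (hw.comp measurable_fst))
  have hgle : ∀ t, ∀ p ∈ S, ‖g t p‖ ≤ 1 := by
    intro t p hp
    rw [hg]
    simp only
    rw [norm_mul, norm_div, Complex.norm_real, Real.norm_of_nonneg (hw0 t)]
    have h1 : ‖c p t‖ / w t ≤ 1 := div_le_one_of_le₀ (hcw p (hS1 p hp) t) (hw0 t)
    exact mul_le_one₀ (hγ p) (by have := hw0 t; positivity) h1
  have hwG : ∀ t x, ∑ p ∈ S, γ p * (c p t * H t p x) = (w t : ℂ) * G t x := by
    intro t x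
    rw [hG]
    simp only
    rw [Finset.mul_sum]
    refine Finset.sum_congr rfl fun p hp => ?_
    rw [hg]
    simp only
    by_cases h0 : w t = 0
    · have hc0 : c p t = 0 := by
        have := hcw p (hS1 p hp) t
        rw [h0] at this
        exact norm_le_zero_iff.1 this
      rw [hc0, h0]
      simp
    · have h0' : (w t : ℂ) ≠ 0 := by exact_mod_cast h0
      field_simp
  have hpt : ∀ x, ‖∑ p ∈ S, γ p * F p x‖ₑ ≤ ∫⁻ t, ENNReal.ofReal (w t) * ‖G t x‖ₑ ∂τ := by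
    intro x
    have h1 : ∑ p ∈ S, γ p * F p x = ∫ t, (w t : ℂ) * G t x ∂τ := by
      simp only [← hwG]
      rw [integral_finsetSum]
      · refine Finset.sum_congr rfl fun p hp => ?_
        rw [hF p (hS1 p hp) x, integral_const_mul]
      · intro p hp
        exact (hint p (hS1 p hp) x).const_mul _
    rw [h1]
    refine (enorm_integral_le_lintegral_enorm _).trans (le_of_eq ?_)
    refine lintegral_congr fun t => ?_
    rw [enorm_mul]
    congr 1
    rw [← ofReal_norm, Complex.norm_real, Real.norm_of_nonneg (hw0 t)]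
  have hGx : ∀ x, Measurable (fun t => ‖G t x‖ₑ) := fun x =>
    (hGm.comp (measurable_id.prodMk measurable_const)).enorm
  have hWm : Measurable (fun t => ENNReal.ofReal (w t)) := hw.ennreal_ofReal
  have hpt2 : ∀ x, ‖∑ p ∈ S, γ p * F p x‖ₑ ^ q ≤ (∫⁻ t, ENNReal.ofReal (w t) ∂τ) ^ (q - 1) *
      ∫⁻ t, ENNReal.ofReal (w t) * ‖G t x‖ₑ ^ q ∂τ := fun x =>
    (ENNReal.rpow_le_rpow (hpt x) hq0.le).trans (Z9_holder τ q hq _ _ hWm (hGx x))
  have hI : ∫⁻ t, ENNReal.ofReal (w t) ∂τ = ENNReal.ofReal (∫ t, w t ∂τ) :=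
    (ofReal_integral_eq_lintegral_ofReal hwi (Eventually.of_forall hw0)).symm
  have hI0 : 0 ≤ ∫ t, w t ∂τ := integral_nonneg hw0
  have hBI : ∫⁻ t, ENNReal.ofReal (w t * B t) ∂τ = ENNReal.ofReal (∫ t, w t * B t ∂τ) :=
    (ofReal_integral_eq_lintegral_ofReal hwB
      (Eventually.of_forall fun t => mul_nonneg (hw0 t) (hB t))).symm
  have hBI0 : 0 ≤ ∫ t, w t * B t ∂τ := integral_nonneg fun t => mul_nonneg (hw0 t) (hB t)
  have hK0 : 0 ≤ u ^ ε * wt S := by positivity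
  have hGs : ∀ t, ∫⁻ x, ‖G t x‖ₑ ^ q ≤ ENNReal.ofReal (B t * u ^ ε * wt S) := by
    intro t
    have h1 := hs t S u hS hu hd (fun p => if p ∈ S then g t p else 0) (fun p => by
      by_cases hp : p ∈ S
      · simp only [hp, if_true]
        exact hgle t p hp
      · simp only [hp, if_false, norm_zero, zero_le_one])
    refine (le_of_eq ?_).trans h1
    refine lintegral_congr fun x => ?_
    rw [hG]
    simp only
    congr 2
    refine Finset.sum_congr rfl fun p hp => ?_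
    rw [if_pos hp]
  have hjm : Measurable (fun z : T × E d => ENNReal.ofReal (w z.1) * ‖G z.1 z.2‖ₑ ^ q) :=
    (hWm.comp measurable_fst).mul (hGm.enorm.pow_const q)
  have hfin : (ENNReal.ofReal (∫ t, w t ∂τ)) ^ (q - 1) ≠ ⊤ :=
    ENNReal.rpow_ne_top_of_nonneg (by linarith) ENNReal.ofReal_ne_top
  calc ∫⁻ x, ‖∑ p ∈ S, γ p * F p x‖ₑ ^ q
      ≤ ∫⁻ x, (ENNReal.ofReal (∫ t, w t ∂τ)) ^ (q - 1) *
        ∫⁻ t, ENNReal.ofReal (w t) * ‖G t x‖ₑ ^ q ∂τ := by
        refine lintegral_mono fun x => ?_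
        rw [← hI]
        exact hpt2 x
    _ = (ENNReal.ofReal (∫ t, w t ∂τ)) ^ (q - 1) *
        ∫⁻ x, ∫⁻ t, ENNReal.ofReal (w t) * ‖G t x‖ₑ ^ q ∂τ := lintegral_const_mul' _ _ hfin
    _ = (ENNReal.ofReal (∫ t, w t ∂τ)) ^ (q - 1) *
        ∫⁻ t, (∫⁻ x, ENNReal.ofReal (w t) * ‖G t x‖ₑ ^ q) ∂τ := by
        congr 1
        exact (lintegral_lintegral_swap (μ := τ) (ν := (volume : Measure (E d)))
          (f := fun t x => ENNReal.ofReal (w t) * ‖G t x‖ₑ ^ q) hjm.aemeasurable).symm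
    _ ≤ (ENNReal.ofReal (∫ t, w t ∂τ)) ^ (q - 1) *
        ∫⁻ t, ENNReal.ofReal (w t * B t) * ENNReal.ofReal (u ^ ε * wt S) ∂τ := by
        refine mul_le_mul_right (lintegral_mono fun t => ?_) _
        rw [lintegral_const_mul' _ _ ENNReal.ofReal_ne_top]
        refine (mul_le_mul_right (hGs t) _).trans (le_of_eq ?_)
        rw [← ENNReal.ofReal_mul (hw0 t), ← ENNReal.ofReal_mul (mul_nonneg (hw0 t) (hB t))]
        congr 1
        ring
    _ = ENNReal.ofReal ((∫ t, w t ∂τ) ^ (q - 1)) *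
        (ENNReal.ofReal (∫ t, w t * B t ∂τ) * ENNReal.ofReal (u ^ ε * wt S)) := by
        rw [ENNReal.ofReal_rpow_of_nonneg hI0 (by linarith),
          lintegral_mul_const' _ _ ENNReal.ofReal_ne_top, hBI]
    _ = _ := by
        rw [← ENNReal.ofReal_mul hBI0, ← ENNReal.ofReal_mul (Real.rpow_nonneg hI0 _)]
        congr 1
        ring

end Pool.LibST49
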