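import Pool.Agent.LibST49.Z4
import Pool.Agent.LibST49.Z6
import Pool.Agent.LibST49.Z7
import Pool.Agent.LibST49.Z9
import Pool.Agent.LibST49.Z10

/-
PLAN (Z11, MEDIUM/STRONG). a, μ from waves (Z4). For p with r = p.2 >= 1:
∫ ρ, μ r ρ Ka a (x-y) ρ = ∫ over ρ < 0 + ∫ over ρ > 0 (integrable: Ka_le and the bound of μ with N = 2). In the first ρ = -(r+s), s > -r; in the second ρ = r+s, s > -r, and
Ka a (x-y) (r+s) = conj (Ka a' (x-y) (-(r+s))) (Ka_conj), a' ξ = conj (a (-ξ)), An_conj. So Fk = F1 + F2 (for r >= 1),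
F1 p x = ∫ s, c1 p s * Fa a s p x, c1 p s = if -p.2 < s then μ p.2 (-(p.2+s)) else 0;  F2 p x = ∫ s, c2 p s * conj (Fa a' s p x), c2 p s = if -p.2 < s then μ p.2 (p.2+s) else 0.
For s > -r both arguments ρ have ||ρ|-r| = |s|, so ‖c p s‖ <= w s = C_M/(1+|s|)^M. strong_Fa for a and a': constants C, N; M a natural number >= N + 2; B s = C (1+|s|)^N; w and w B are
integrable (<= const (1+|s|)^(-2): integrable_one_add_norm or the comparison with (1+s^2)⁻¹). superpose (Z9) with T = ℝ for both (strong_conj for the second), strong_add, strong_congr,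
strong_mono. Joint measurability of (s,x) ↦ Fa a s p x: continuous (Ka_cont). Measurability of c p: piecewise continuous (for p with p.2 >= 1; μ is only known to be continuous for r >= 1).
hint: ‖c p s * H‖ <= w s * const. Measurability of F1 in x (for strong_add): superpose does not give it; F1 p is continuous by continuous_of_dominated, or define F1 := Fk - F2 on the nose.
-/

set_option autoImplicit false

noncomputable section

open MeasureTheory Metric Set Filter

namespace Pool.LibST49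

open Pool.LibSR53

private theorem Z11_w (n : ℕ) (A N : ℝ) (hA : 0 ≤ A) (hN : N ≤ n) :
    Integrable (fun t : ℝ => A / (1 + |t|) ^ (n + 2) * (1 + |t|) ^ N) := by
  have h1 : ∀ t : ℝ, 1 ≤ 1 + |t| := fun t => by linarith [abs_nonneg t]
  have h0 : ∀ t : ℝ, 0 < 1 + |t| := fun t => by linarith [abs_nonneg t]
  refine Integrable.mono' (integrable_inv_one_add_sq.const_mul A) ?_ ?_
  · refine Measurable.aestronglyMeasurable ?_
    refine Measurable.mul ?_ ?_
    · exact measurable_const.div ((measurable_const.add measurable_id.abs).pow_const _)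
    · exact (measurable_const.add measurable_id.abs).pow_const _
  · refine Eventually.of_forall fun t => ?_
    have h2 : (1 + |t|) ^ N ≤ (1 + |t|) ^ n := by
      rw [← Real.rpow_natCast (1 + |t|) n]
      exact Real.rpow_le_rpow_of_exponent_le (h1 t) hN
    have h3 : (0 : ℝ) < (1 + |t|) ^ N := Real.rpow_pos_of_pos (h0 t) _
    rw [Real.norm_eq_abs, abs_of_nonneg (by have := h0 t; positivity)]
    have h4 : A / (1 + |t|) ^ (n + 2) * (1 + |t|) ^ N ≤
        A / (1 + |t|) ^ (n + 2) * (1 + |t|) ^ n :=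
      mul_le_mul_of_nonneg_left h2 (by have := h0 t; positivity)
    refine h4.trans ?_
    have h5 : A / (1 + |t|) ^ (n + 2) * (1 + |t|) ^ n = A * ((1 + |t|) ^ 2)⁻¹ := by
      have := (h0 t).ne'
      rw [pow_add]
      field_simp
    rw [h5]
    refine mul_le_mul_of_nonneg_left ?_ hA
    refine inv_anti₀ (by positivity) ?_
    nlinarith [abs_nonneg t, sq_abs t]

private theorem Z11_w0 (n : ℕ) (A : ℝ) (hA : 0 ≤ A) :
    Integrable (fun t : ℝ => A / (1 + |t|) ^ (n + 2)) := by
  have h := Z11_w n A 0 hA (by positivity)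
  simpa using h

private theorem Z11_Fa_cont {d : ℕ} {c0 c1 : ℝ} {a : E d → ℂ} (ha : An c0 c1 a) (p : P d) :
    Continuous (fun z : ℝ × E d => Fa a z.1 p z.2) := by
  unfold Fa
  refine continuous_const.mul ?_
  exact (Ka_cont ha).comp (f := fun z : ℝ × E d => (z.2 - p.1, -(p.2 + z.1))) (by fun_prop)

private theorem Z11_Fa_le {d : ℕ} (a : E d → ℂ) (p : P d) (s : ℝ) (x : E d) (hp : 0 ≤ p.2) :
    ‖Fa a s p x‖ ≤ p.2 ^ nu d * ∫ ξ, ‖a ξ‖ := by
  unfold Fa
  rw [norm_mul, Complex.norm_real, Real.norm_eq_abs, abs_of_nonneg (Real.rpow_nonneg hp _)]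
  exact mul_le_mul_of_nonneg_left (Ka_le a _ _) (Real.rpow_nonneg hp _)

/-- a piece of the superposition -/
private theorem Z11_piece {d : ℕ} (c : P d → ℝ → ℂ) (H : ℝ → P d → E d → ℂ) (n : ℕ)
    (A C N q ε : ℝ) (hA : 0 < A) (hC : 0 < C) (hNn : N ≤ n) (hq1 : 1 < q)
    (hc : ∀ p : P d, 1 ≤ p.2 → Measurable (c p))
    (hH : ∀ p : P d, Continuous (fun z : ℝ × E d => H z.1 p z.2))
    (hb : ∀ p : P d, 1 ≤ p.2 → ∀ x, ∃ K : ℝ, ∀ s, ‖H s p x‖ ≤ K)
    (hcw : ∀ p : P d, 1 ≤ p.2 → ∀ t, ‖c p t‖ ≤ A / (1 + |t|) ^ (n + 2))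
    (hs : ∀ s : ℝ, Strong (H s) q ε (C * (1 + |s|) ^ N)) :
    (∀ p : P d, 1 ≤ p.2 → ∀ x, Integrable (fun s => c p s * H s p x)) ∧
    (∀ p : P d, 1 ≤ p.2 → AEStronglyMeasurable (fun x => ∫ s, c p s * H s p x) volume) ∧
    ∃ K : ℝ, 0 ≤ K ∧ Strong (fun p x => ∫ s, c p s * H s p x) q ε K := by
  have h0 : ∀ t : ℝ, 0 < 1 + |t| := fun t => by linarith [abs_nonneg t]
  have hint : ∀ p : P d, 1 ≤ p.2 → ∀ x, Integrable (fun s => c p s * H s p x) := by
    intro p hp x
    obtain ⟨K, hK⟩ := hb p hp x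
    refine Integrable.mono' ((Z11_w0 n A hA.le).mul_const K) ?_ ?_
    · refine ((hc p hp).mul ?_).aestronglyMeasurable
      exact ((hH p).comp (f := fun s : ℝ => (s, x)) (by fun_prop)).measurable
    · refine Eventually.of_forall fun s => ?_
      rw [norm_mul]
      exact mul_le_mul (hcw p hp s) (hK s) (norm_nonneg _) (by have := h0 s; positivity)
  refine ⟨hint, ?_, ?_⟩
  · intro p hp
    have hm : Measurable (fun z : E d × ℝ => c p z.2 * H z.2 p z.1) :=
      ((hc p hp).comp measurable_snd).mul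
        (((hH p).comp (f := fun z : E d × ℝ => (z.2, z.1)) (by fun_prop)).measurable)
    exact (hm.stronglyMeasurable.integral_prod_right (ν := volume)
      (f := fun (x : E d) (s : ℝ) => c p s * H s p x)).aestronglyMeasurable
  · have hB0 : ∀ t : ℝ, 0 ≤ C * (1 + |t|) ^ N := fun t =>
      mul_nonneg hC.le (Real.rpow_nonneg (h0 t).le _)
    have hw0 : ∀ t : ℝ, 0 ≤ A / (1 + |t|) ^ (n + 2) := fun t => by have := h0 t; positivity
    have hwB : Integrable (fun t : ℝ => A / (1 + |t|) ^ (n + 2) * (C * (1 + |t|) ^ N)) := by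
      have h := (Z11_w n A N hA.le hNn).const_mul C
      refine h.congr (Eventually.of_forall fun t => ?_)
      beta_reduce
      ring
    refine ⟨_, ?_, superpose (volume : Measure ℝ) q ε hq1 (fun p x => ∫ s, c p s * H s p x) H c
      (fun t => A / (1 + |t|) ^ (n + 2)) (fun t => C * (1 + |t|) ^ N) hc
      (fun p _ => (hH p).measurable) ?_ hw0 hcw (Z11_w0 n A hA.le) hB0 hwB hs hint
      (fun p _ x => rfl)⟩
    · exact mul_nonneg (Real.rpow_nonneg (integral_nonneg hw0) _)
        (integral_nonneg fun t => mul_nonneg (hw0 t) (hB0 t))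
    · exact measurable_const.div ((measurable_const.add measurable_id.abs).pow_const _)

/-- strong type bounds for the atoms of a band limited function -/
theorem strong_band (m : ℕ) (hm : 2 ≤ m) (h : HST m) (η φ : SchwartzMap (E (m + 1)) ℂ)
    (hφ : ∀ v, η v = ∫ ξ, ex v ξ * φ ξ) (c0 c1 : ℝ) (hc0 : 0 < c0)
    (hs : ∀ ξ, φ ξ ≠ 0 → c0 ≤ ‖ξ‖ ∧ ‖ξ‖ ≤ c1) (q : ℝ) (hq1 : 1 < q) (hq2 : q < pS m) (ε : ℝ)
    (hε : 0 < ε) : ∃ C : ℝ, 0 < C ∧ Strong (fun p x => Fk η p.1 p.2 x) q ε C := by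
  obtain ⟨a, μ, ha, hμc, hμb, hFk⟩ := waves (d := m + 1) (by omega) η φ hφ c0 c1 hc0 hs
  have ha' := An_conj ha
  obtain ⟨C1, N1, hC1, hN1, hs1⟩ := strong_Fa m hm h ha q hq1 hq2 ε hε
  obtain ⟨C2, N2, hC2, hN2, hs2⟩ := strong_Fa m hm h ha' q hq1 hq2 ε hε
  obtain ⟨n, hn⟩ := exists_nat_ge (max N1 N2)
  have hn1 : N1 ≤ n := (le_max_left _ _).trans hn
  have hn2 : N2 ≤ n := (le_max_right _ _).trans hn
  obtain ⟨A, hA, hAb⟩ := hμb (n + 2)
  obtain ⟨i1, m1, K1, hK1, S1⟩ := Z11_piece (d := m + 1)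
    (fun p s => if 0 < p.2 + s then μ p.2 (-(p.2 + s)) else 0) (fun s p x => Fa a s p x) n
    A C1 N1 q ε hA hC1 hn1 hq1
    (fun p hp => Measurable.ite (measurableSet_lt measurable_const (by fun_prop))
      ((hμc p.2 hp).comp (f := fun s : ℝ => -(p.2 + s)) (by fun_prop)).measurable
      measurable_const)
    (fun p => Z11_Fa_cont ha p)
    (fun p hp x => ⟨_, fun s => Z11_Fa_le a p s x (by linarith)⟩)
    (by
      intro p hp t
      beta_reduce
      split_ifs with hc
      · have h1 := hAb p.2 (-(p.2 + t)) hp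
        rw [abs_neg, abs_of_pos hc, add_sub_cancel_left] at h1
        exact h1
      · rw [norm_zero]
        positivity)
    hs1
  obtain ⟨i2, m2, K2, hK2, S2⟩ := Z11_piece (d := m + 1)
    (fun p s => if 0 ≤ p.2 + s then μ p.2 (p.2 + s) else 0)
    (fun s p x => (starRingEnd ℂ) (Fa (fun ξ => (starRingEnd ℂ) (a (-ξ))) s p x)) n
    A C2 N2 q ε hA hC2 hn2 hq1
    (fun p hp => Measurable.ite (measurableSet_le measurable_const (by fun_prop))
      ((hμc p.2 hp).comp (f := fun s : ℝ => (p.2 + s)) (by fun_prop)).measurable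
      measurable_const)
    (fun p => Complex.continuous_conj.comp (Z11_Fa_cont ha' p))
    (fun p hp x => ⟨_, fun s => by
      rw [RCLike.norm_conj]
      exact Z11_Fa_le _ p s x (by linarith)⟩)
    (by
      intro p hp t
      beta_reduce
      split_ifs with hc
      · have h1 := hAb p.2 (p.2 + t) hp
        rw [abs_of_nonneg hc, add_sub_cancel_left] at h1
        exact h1
      · rw [norm_zero]
        positivity)
    (fun s => strong_conj (hs2 s))
  have S3 := strong_add hq1.le hK1 hK2 m1 S1 S2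
  refine ⟨2 ^ (q - 1) * (K1 + K2) + 1, by positivity, ?_⟩
  refine strong_mono (by linarith) (strong_congr ?_ S3)
  intro p hp x
  beta_reduce
  have j1 := (i1 p hp x).comp_sub_right p.2
  have j1' := j1.comp_neg
  have j2 := (i2 p hp x).comp_sub_right p.2
  rw [← integral_sub_right_eq_self (fun s => (if 0 < p.2 + s then μ p.2 (-(p.2 + s)) else 0) *
      Fa a s p x) p.2,
    ← integral_neg_eq_self (fun s => (if 0 < p.2 + (s - p.2) then μ p.2 (-(p.2 + (s - p.2)))
      else 0) * Fa a (s - p.2) p x) volume,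
    ← integral_sub_right_eq_self (fun s => (if 0 ≤ p.2 + s then μ p.2 (p.2 + s) else 0) *
      (starRingEnd ℂ) (Fa (fun ξ => (starRingEnd ℂ) (a (-ξ))) s p x)) p.2,
    ← integral_add j1' j2, hFk p hp x, ← integral_const_mul]
  refine integral_congr_ae (Eventually.of_forall fun ρ => ?_)
  beta_reduce
  unfold Fa
  rw [map_mul, Complex.conj_ofReal]
  have e1 : p.2 + (-ρ - p.2) = -ρ := by ring
  have e2 : p.2 + (ρ - p.2) = ρ := by ring
  rw [e1, e2, neg_neg, ← Ka_conj a (x - p.1) ρ]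
  by_cases hρ : 0 ≤ ρ
  · rw [if_neg (by linarith), if_pos hρ]
    ring
  · rw [if_pos (by linarith), if_neg hρ]
    ring

end Pool.LibST49
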