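import Pool.Agent.LibST49.ZD
import Pool.Agent.LibSR53.K1

/-
PLAN (Z12, MEDIUM, ONLY MATHLIB and K1). 2^(ld) κ(2^l v) = 2^(ld) ∫ ex (2^l v) ξ φ ξ dξ = ∫ ex v ξ φ(2^-l ξ) dξ (substitution; Measure.integral_comp_smul; <2^l v, ξ> = <v, 2^l ξ>). Insert, Fubini
(ϑ integrable, ξ ↦ φ(2^-l ξ) integrable, |ex| = 1): ∫ ϑ w ex (x-w) ξ dw = ex x ξ * ∫ ex (-w) ξ ϑ w dw = ex x ξ * (𝓕 ϑ) ξ (ex_add_left and fourier_ex, K1.lean).
-/

set_option autoImplicit false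

noncomputable section

open MeasureTheory Metric Set Filter
open scoped FourierTransform

namespace Pool.LibST49

open Pool.LibSR53

private theorem Z12_ex_smul {d : ℕ} (R : ℝ) (v ξ : E d) : ex (R • v) ξ = ex v (R • ξ) := by
  unfold ex
  rw [real_inner_smul_left, real_inner_smul_right]

private theorem Z12_norm_ex {d : ℕ} (v ξ : E d) : ‖ex v ξ‖ = 1 := by
  unfold ex
  have h : (2 * (Real.pi : ℂ) * Complex.I * ((inner ℝ v ξ : ℝ) : ℂ)) =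
      ((2 * Real.pi * inner ℝ v ξ : ℝ) : ℂ) * Complex.I := by
    push_cast; ring
  rw [h, Complex.norm_exp_ofReal_mul_I]

private theorem Z12_cont {d : ℕ} (x : E d) :
    Continuous (fun z : E d × E d => ex (x - z.1) z.2) := by
  unfold ex
  fun_prop

private theorem Z12_dil {d : ℕ} (κ φ : E d → ℂ) (hφ : ∀ v, κ v = ∫ ξ, ex v ξ * φ ξ) {R : ℝ}
    (hR : 0 < R) (v : E d) :
    ((R ^ d : ℝ) : ℂ) * κ (R • v) = ∫ ξ, ex v ξ * φ (R⁻¹ • ξ) := by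
  have h1 := Measure.integral_comp_smul (volume : Measure (E d))
    (fun ξ => ex v ξ * φ (R⁻¹ • ξ)) R
  have h2 : ∀ ξ : E d, ex v (R • ξ) * φ (R⁻¹ • R • ξ) = ex (R • v) ξ * φ ξ := by
    intro ξ
    rw [Z12_ex_smul, smul_smul, inv_mul_cancel₀ hR.ne', one_smul]
  simp only [h2] at h1
  rw [hφ (R • v), h1, finrank_euclideanSpace_fin, abs_of_pos (by positivity),
    Complex.real_smul, ← mul_assoc]
  push_cast
  rw [mul_inv_cancel₀, one_mul]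
  exact_mod_cast (pow_pos hR d).ne'

/-- convolution with a dilated Schwartz function on the Fourier side -/
theorem conv_dil {d : ℕ} (ϑ κ φ : SchwartzMap (E d) ℂ) (hφ : ∀ v, κ v = ∫ ξ, ex v ξ * φ ξ)
    (l : ℕ) (x : E d) :
    ∫ w, ϑ w * ((((2 : ℝ) ^ (l * d) : ℝ) : ℂ) * κ ((2 : ℝ) ^ l • (x - w))) =
      ∫ ξ, ex x ξ * ((𝓕 ϑ : SchwartzMap (E d) ℂ) ξ * φ ((2 : ℝ)⁻¹ ^ l • ξ)) := by
  have hR : (0 : ℝ) < (2 : ℝ) ^ l := by positivity
  have hpow : (2 : ℝ) ^ (l * d) = ((2 : ℝ) ^ l) ^ d := pow_mul _ _ _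
  have hinv : (2 : ℝ)⁻¹ ^ l = ((2 : ℝ) ^ l)⁻¹ := inv_pow _ _
  rw [hpow, hinv]
  have h1 : ∀ w : E d, ϑ w * ((((((2 : ℝ) ^ l) ^ d : ℝ)) : ℂ) * κ ((2 : ℝ) ^ l • (x - w))) =
      ∫ ξ, ϑ w * (ex (x - w) ξ * φ (((2 : ℝ) ^ l)⁻¹ • ξ)) := by
    intro w
    rw [Z12_dil (⇑κ) (⇑φ) hφ hR (x - w), integral_const_mul]
  simp only [h1]
  have hϑ : Integrable (fun w : E d => ϑ w) := ϑ.integrable
  have hφi : Integrable (fun ξ : E d => φ (((2 : ℝ) ^ l)⁻¹ • ξ)) :=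
    (φ.integrable (μ := volume)).comp_smul (inv_ne_zero hR.ne')
  have hprod : Integrable (fun z : E d × E d => ϑ z.1 * φ (((2 : ℝ) ^ l)⁻¹ • z.2))
      (volume.prod volume) := hϑ.mul_prod hφi
  have hint : Integrable (fun z : E d × E d =>
      ϑ z.1 * φ (((2 : ℝ) ^ l)⁻¹ • z.2) * ex (x - z.1) z.2) (volume.prod volume) := by
    refine Integrable.mono' hprod.norm
      (hprod.aestronglyMeasurable.mul (Z12_cont x).aestronglyMeasurable) (ae_of_all _ fun z => ?_)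
    rw [norm_mul, Z12_norm_ex, mul_one]
  have hunc : (Function.uncurry fun (w ξ : E d) =>
      ϑ w * (ex (x - w) ξ * φ (((2 : ℝ) ^ l)⁻¹ • ξ))) =
      (fun z : E d × E d => ϑ z.1 * φ (((2 : ℝ) ^ l)⁻¹ • z.2) * ex (x - z.1) z.2) := by
    funext z
    simp only [Function.uncurry]
    ring
  have hsw := integral_integral_swap (μ := (volume : Measure (E d)))
    (ν := (volume : Measure (E d)))
    (f := fun (w ξ : E d) => ϑ w * (ex (x - w) ξ * φ (((2 : ℝ) ^ l)⁻¹ • ξ))) (hunc ▸ hint)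
  rw [hsw]
  refine integral_congr_ae (ae_of_all _ fun ξ => ?_)
  simp only
  have h2 : ∀ w : E d, ϑ w * (ex (x - w) ξ * φ (((2 : ℝ) ^ l)⁻¹ • ξ)) =
      ex x ξ * φ (((2 : ℝ) ^ l)⁻¹ • ξ) * (ex (-w) ξ * ϑ w) := by
    intro w
    rw [sub_eq_add_neg, ex_add_left]
    ring
  simp only [h2]
  rw [integral_const_mul, ← fourier_ex]
  ring

end Pool.LibST49
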