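import Pool.Agent.LibST49.Z12

/-
PLAN (Z13, MEDIUM/STRONG, ONLY MATHLIB, K1, Z12). h = 𝓕 η (Schwartz); Van η ε says h ξ = 0 for ‖ξ‖ < ε (fourier_ex; the exponential in Van is ex (-x) ξ). ψ ξ = Real.smoothTransition (2 - ‖ξ‖^2):
smooth, = 1 for ‖ξ‖ <= 1, = 0 for ‖ξ‖^2 >= 2, compact support, values in [0,1]. χ ξ = ψ(ξ/2) - ψ ξ: smooth, zero unless 1 <= ‖ξ‖ <= 2 sqrt 2. ∑_(l < L) χ(2^-l ξ) = ψ(2^-L ξ) - ψ ξ (telescopes).
φ0 = ψ h (Schwartz: smooth compactly supported times Schwartz, or the compactly supported smooth function made into a Schwartz function: see exists_eta in LibTP53/MA.lean, or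
HasCompactSupport.toSchwartzMap), η0 = 𝓕⁻ φ0 (fourierInv_ex), support in ε <= ‖ξ‖ <= sqrt 2. φ ξ = ‖ξ‖^(-2K) χ ξ: smooth (χ vanishes for ‖ξ‖ < 1), compactly supported; κ = 𝓕⁻ φ. ϑ = 𝓕⁻ (‖ξ‖^(2K) h)
(smulLeftCLM with a function of temperate growth, as in exists_Psi1 in K1.lean). c0 = min ε 1, c1 = 3.
conv_dil: the l-th integral is ∫ ex x ξ ‖ξ‖^(2K) h ξ ‖2^-l ξ‖^(-2K) χ(2^-l ξ) dξ = 2^(2Kl) ∫ ex x ξ h ξ χ(2^-l ξ) dξ. So the l-th term is T_l = ∫ ex x ξ h ξ χ(2^-l ξ) dξ and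
∫ ‖h ξ‖ |χ(2^-l ξ)| <= 2^-l ∫ ‖ξ‖ ‖h ξ‖ (χ(2^-l ξ) ≠ 0 implies ‖ξ‖ >= 2^l; |χ| <= 1): summable. hasSum_integral_of_summable_integral_norm: HasSum T_l (∫ ex x ξ h ξ ∑'_l χ(2^-l ξ)), and
∑'_l χ(2^-l ξ) = 1 - ψ ξ (finite sum for each ξ by the telescoping; ψ(2^-L ξ) = 1 for large L). η x = ∫ ex x ξ h ξ (Fourier inversion for Schwartz functions, fourierInv_ex), η0 x = ∫ ex x ξ ψ ξ h ξ.
-/

set_option autoImplicit false

noncomputable section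

open MeasureTheory Metric Set Filter
open scoped FourierTransform

namespace Pool.LibST49

open Pool.LibSR53

/-- the cut off function -/
private def Z13_psi (d : ℕ) : ContDiffBump (0 : E d) := ⟨1, 3 / 2, by norm_num, by norm_num⟩

private theorem Z13_psi_one {d : ℕ} (ξ : E d) (h : ‖ξ‖ ≤ 1) : Z13_psi d ξ = 1 := by
  refine (Z13_psi d).one_of_mem_closedBall ?_
  rw [mem_closedBall, dist_zero_right]
  exact h

private theorem Z13_psi_zero {d : ℕ} (ξ : E d) (h : 3 / 2 ≤ ‖ξ‖) : Z13_psi d ξ = 0 := by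
  refine (Z13_psi d).zero_of_le_dist ?_
  rw [dist_zero_right]
  exact h

/-- the annular function -/
private def Z13_chi {d : ℕ} (ξ : E d) : ℝ := Z13_psi d ((2 : ℝ)⁻¹ • ξ) - Z13_psi d ξ

private theorem Z13_chi_supp {d : ℕ} (ξ : E d) (h : Z13_chi ξ ≠ 0) : 1 < ‖ξ‖ ∧ ‖ξ‖ < 3 := by
  constructor
  · by_contra hc
    apply h
    push Not at hc
    unfold Z13_chi
    rw [Z13_psi_one ξ hc, Z13_psi_one]
    · simp
    · rw [norm_smul, Real.norm_of_nonneg (by norm_num)]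
      linarith [norm_nonneg ξ]
  · by_contra hc
    apply h
    push Not at hc
    unfold Z13_chi
    rw [Z13_psi_zero ξ (by linarith), Z13_psi_zero]
    · simp
    · rw [norm_smul, Real.norm_of_nonneg (by norm_num)]
      linarith

private theorem Z13_chi_abs {d : ℕ} (ξ : E d) : |Z13_chi ξ| ≤ 1 := by
  unfold Z13_chi
  have h1 := (Z13_psi d).nonneg (x := ξ)
  have h2 := (Z13_psi d).nonneg (x := (2 : ℝ)⁻¹ • ξ)
  have h3 := (Z13_psi d).le_one (x := ξ)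
  have h4 := (Z13_psi d).le_one (x := (2 : ℝ)⁻¹ • ξ)
  rw [abs_le]
  constructor <;> linarith

private theorem Z13_chi_smooth {d : ℕ} :
    ContDiff ℝ ((⊤ : ℕ∞) : WithTop ℕ∞) (Z13_chi : E d → ℝ) := by
  unfold Z13_chi
  exact ((Z13_psi d).contDiff.comp (contDiff_const_smul _)).sub (Z13_psi d).contDiff

private theorem Z13_chi_cpt {d : ℕ} : HasCompactSupport (Z13_chi : E d → ℝ) := by
  refine HasCompactSupport.intro (isCompact_closedBall (0 : E d) 3) fun ξ hξ => ?_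
  by_contra hc
  apply hξ
  rw [mem_closedBall, dist_zero_right]
  exact (Z13_chi_supp ξ hc).2.le

private theorem Z13_chi_abs2 {d : ℕ} (ξ : E d) : |Z13_chi ξ| ≤ ‖ξ‖ := by
  by_cases h : Z13_chi ξ = 0
  · rw [h, abs_zero]
    exact norm_nonneg _
  · exact (Z13_chi_abs ξ).trans (Z13_chi_supp ξ h).1.le

private theorem Z13_tel {d : ℕ} (ξ : E d) (L : ℕ) :
    ∑ l ∈ Finset.range L, Z13_chi ((2 : ℝ)⁻¹ ^ l • ξ) =
      Z13_psi d ((2 : ℝ)⁻¹ ^ L • ξ) - Z13_psi d ξ := by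
  induction L with
  | zero => simp
  | succ n ih =>
    rw [Finset.sum_range_succ, ih]
    unfold Z13_chi
    rw [smul_smul, ← pow_succ']
    ring

private theorem Z13_hasSum {d : ℕ} (ξ : E d) :
    HasSum (fun l : ℕ => Z13_chi ((2 : ℝ)⁻¹ ^ l • ξ)) (1 - Z13_psi d ξ) := by
  obtain ⟨L, hL⟩ : ∃ L : ℕ, ∀ l, L ≤ l → ‖(2 : ℝ)⁻¹ ^ l • ξ‖ ≤ 1 := by
    have h1 : Tendsto (fun l : ℕ => (2 : ℝ)⁻¹ ^ l * ‖ξ‖) atTop (nhds (0 * ‖ξ‖)) :=
      (tendsto_pow_atTop_nhds_zero_of_lt_one (by norm_num) (by norm_num)).mul_const _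
    rw [zero_mul] at h1
    obtain ⟨L, hL⟩ := eventually_atTop.1 (h1.eventually_le_const (show (0 : ℝ) < 1 by norm_num))
    refine ⟨L, fun l hl => ?_⟩
    rw [norm_smul, Real.norm_of_nonneg (by positivity)]
    exact hL l hl
  have h2 : HasSum (fun l : ℕ => Z13_chi ((2 : ℝ)⁻¹ ^ l • ξ))
      (∑ l ∈ Finset.range L, Z13_chi ((2 : ℝ)⁻¹ ^ l • ξ)) := by
    refine hasSum_sum_of_ne_finset_zero fun l hl => ?_
    by_contra hc
    have h3 := (Z13_chi_supp _ hc).1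
    have h4 := hL l (by simpa using hl)
    linarith
  rw [Z13_tel, Z13_psi_one _ (hL L le_rfl)] at h2
  exact h2

private theorem Z13_phi_smooth {d : ℕ} (K : ℕ) :
    ContDiff ℝ ((⊤ : ℕ∞) : WithTop ℕ∞)
      (fun ξ : E d => (((((‖ξ‖ ^ 2) ^ K)⁻¹ * Z13_chi ξ : ℝ)) : ℂ)) := by
  refine Complex.ofRealCLM.contDiff.comp ?_
  rw [contDiff_iff_contDiffAt]
  intro ξ
  by_cases hξ : ‖ξ‖ < 1
  · have h1 : (fun ξ : E d => ((‖ξ‖ ^ 2) ^ K)⁻¹ * Z13_chi ξ) =ᶠ[nhds ξ] fun _ => (0 : ℝ) := by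
      have h2 : ∀ᶠ ζ in nhds ξ, ‖ζ‖ < 1 := continuous_norm.continuousAt.eventually_lt_const hξ
      filter_upwards [h2] with ζ hζ
      have h3 : Z13_chi ζ = 0 := by
        by_contra hc
        have := (Z13_chi_supp ζ hc).1
        linarith
      rw [h3, mul_zero]
    exact contDiffAt_const.congr_of_eventuallyEq h1
  · have h0 : ξ ≠ 0 := by
      rintro rfl
      simp at hξ
    have h1 : (‖ξ‖ ^ 2) ^ K ≠ 0 := by
      have := norm_pos_iff.2 h0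
      positivity
    exact ((((contDiff_norm_sq ℝ).contDiffAt).pow K).inv h1).mul Z13_chi_smooth.contDiffAt

/-- Littlewood-Paley decomposition of a Schwartz function whose Fourier transform vanishes near
the origin, with rapidly decaying coefficients and only one high frequency profile -/
theorem lp {d : ℕ} (η : SchwartzMap (E d) ℂ) (ε : ℝ) (hε : 0 < ε) (hη : Van η ε) (K : ℕ) :
    ∃ (η0 φ0 κ φ ϑ : SchwartzMap (E d) ℂ) (c0 c1 : ℝ), 0 < c0 ∧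
      (∀ v, η0 v = ∫ ξ, ex v ξ * φ0 ξ) ∧ (∀ ξ, φ0 ξ ≠ 0 → c0 ≤ ‖ξ‖ ∧ ‖ξ‖ ≤ c1) ∧
      (∀ v, κ v = ∫ ξ, ex v ξ * φ ξ) ∧ (∀ ξ, φ ξ ≠ 0 → c0 ≤ ‖ξ‖ ∧ ‖ξ‖ ≤ c1) ∧
      ∀ x, HasSum (fun l : ℕ => (((2 : ℝ)⁻¹ ^ (2 * K * l) : ℝ) : ℂ) *
        ∫ w, ϑ w * ((((2 : ℝ) ^ (l * d) : ℝ) : ℂ) * κ ((2 : ℝ) ^ l • (x - w))))
        (η x - η0 x) := by
  set h : SchwartzMap (E d) ℂ := 𝓕 η with hh
  have hh0 : ∀ ξ, ‖ξ‖ < ε → h ξ = 0 := by
    intro ξ hξ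
    rw [hh, fourier_ex, ← hη ξ hξ]
    refine integral_congr_ae (Eventually.of_forall fun w => ?_)
    simp only [ex, inner_neg_left]
    congr 2
    push_cast
    ring
  -- the low frequency part
  have hcs0 : HasCompactSupport fun ξ : E d => ((Z13_psi d ξ : ℝ) : ℂ) * h ξ := by
    have h1 : HasCompactSupport fun ξ : E d => ((Z13_psi d ξ : ℝ) : ℂ) :=
      (Z13_psi d).hasCompactSupport.comp_left (g := fun x : ℝ => (x : ℂ)) (by simp)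
    exact h1.mul_right
  have hcd0 : ContDiff ℝ ((⊤ : ℕ∞) : WithTop ℕ∞)
      fun ξ : E d => ((Z13_psi d ξ : ℝ) : ℂ) * h ξ :=
    (Complex.ofRealCLM.contDiff.comp (Z13_psi d).contDiff).mul (h.smooth ⊤)
  obtain ⟨φ0, hφ0⟩ : ∃ φ0 : SchwartzMap (E d) ℂ, ∀ ξ, φ0 ξ = ((Z13_psi d ξ : ℝ) : ℂ) * h ξ :=
    ⟨hcs0.toSchwartzMap hcd0, fun ξ => rfl⟩
  -- the high frequency profile
  have hcs1 : HasCompactSupport
      (fun ξ : E d => (((((‖ξ‖ ^ 2) ^ K)⁻¹ * Z13_chi ξ : ℝ)) : ℂ)) := by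
    have h1 : HasCompactSupport fun ξ : E d => ((‖ξ‖ ^ 2) ^ K)⁻¹ * Z13_chi ξ :=
      Z13_chi_cpt.mul_left
    exact h1.comp_left (g := fun x : ℝ => (x : ℂ)) (by simp)
  obtain ⟨φ, hφ⟩ : ∃ φ : SchwartzMap (E d) ℂ, ∀ ξ,
      φ ξ = (((((‖ξ‖ ^ 2) ^ K)⁻¹ * Z13_chi ξ : ℝ)) : ℂ) :=
    ⟨hcs1.toSchwartzMap (Z13_phi_smooth K), fun ξ => rfl⟩
  -- the function ϑ
  have hg1 : Function.HasTemperateGrowth (fun ξ : E d => ((‖ξ‖ ^ 2) ^ K : ℝ)) :=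
    (Function.hasTemperateGrowth_norm_sq (E d)).pow K
  have hg : Function.HasTemperateGrowth (fun ξ : E d => (((‖ξ‖ ^ 2) ^ K : ℝ) : ℂ)) :=
    Function.HasTemperateGrowth.comp Function.Complex.hasTemperateGrowth_ofReal hg1
  obtain ⟨ϑ, hϑ⟩ : ∃ ϑ : SchwartzMap (E d) ℂ, ∀ ξ,
      (𝓕 ϑ : SchwartzMap (E d) ℂ) ξ = (((‖ξ‖ ^ 2) ^ K : ℝ) : ℂ) * h ξ := by
    refine ⟨𝓕⁻ (SchwartzMap.smulLeftCLM ℂ (fun ξ : E d => (((‖ξ‖ ^ 2) ^ K : ℝ) : ℂ)) h), ?_⟩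
    intro ξ
    rw [FourierTransform.fourier_fourierInv_eq, SchwartzMap.smulLeftCLM_apply_apply hg,
      smul_eq_mul]
  refine ⟨𝓕⁻ φ0, φ0, 𝓕⁻ φ, φ, ϑ, min ε 1, 3, lt_min hε one_pos, fun v => fourierInv_ex φ0 v,
    ?_, fun v => fourierInv_ex φ v, ?_, ?_⟩
  · intro ξ hξ
    rw [hφ0] at hξ
    have h1 : Z13_psi d ξ ≠ 0 := fun hc => hξ (by rw [hc]; simp)
    have h2 : h ξ ≠ 0 := fun hc => hξ (by rw [hc]; simp)
    constructor
    · by_contra hc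
      push Not at hc
      exact h2 (hh0 ξ (hc.trans_le (min_le_left _ _)))
    · by_contra hc
      push Not at hc
      exact h1 (Z13_psi_zero ξ (by linarith))
  · intro ξ hξ
    rw [hφ] at hξ
    have h1 : Z13_chi ξ ≠ 0 := fun hc => hξ (by rw [hc]; simp)
    obtain ⟨h2, h3⟩ := Z13_chi_supp ξ h1
    exact ⟨(min_le_right _ _).trans h2.le, h3.le⟩
  · intro x
    -- the terms
    set F : ℕ → E d → ℂ := fun l ξ => ex x ξ * (h ξ * ((Z13_chi ((2 : ℝ)⁻¹ ^ l • ξ) : ℝ) : ℂ))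
      with hF
    have hterm : ∀ l : ℕ, (((2 : ℝ)⁻¹ ^ (2 * K * l) : ℝ) : ℂ) *
        ∫ w, ϑ w * ((((2 : ℝ) ^ (l * d) : ℝ) : ℂ) *
          (𝓕⁻ φ : SchwartzMap (E d) ℂ) ((2 : ℝ) ^ l • (x - w))) = ∫ ξ, F l ξ := by
      intro l
      rw [conv_dil ϑ (𝓕⁻ φ) φ (fun v => fourierInv_ex φ v) l x, ← integral_const_mul]
      refine integral_congr_ae (Eventually.of_forall fun ξ => ?_)
      simp only [hF]
      rw [hϑ, hφ]
      by_cases h0 : ξ = 0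
      · subst h0
        have h1 : Z13_chi ((2 : ℝ)⁻¹ ^ l • (0 : E d)) = 0 := by
          by_contra hc
          have := (Z13_chi_supp _ hc).1
          simp at this
          linarith
        rw [h1]
        simp
      · have h1 : ‖ξ‖ ≠ 0 := norm_ne_zero_iff.2 h0
        have h2 : ((‖(2 : ℝ)⁻¹ ^ l • ξ‖ ^ 2) ^ K)⁻¹ =
            (2 : ℝ) ^ (2 * K * l) * ((‖ξ‖ ^ 2) ^ K)⁻¹ := by
          rw [norm_smul, Real.norm_of_nonneg (by positivity), mul_pow, mul_pow, mul_inv]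
          congr 1
          rw [inv_pow, inv_pow, inv_pow, inv_inv, ← pow_mul, ← pow_mul]
          congr 1
          ring
        rw [h2]
        have h3 : ((2 : ℝ)⁻¹ ^ (2 * K * l)) * (2 : ℝ) ^ (2 * K * l) = 1 := by
          rw [← mul_pow]
          norm_num
        have h4 : ((‖ξ‖ ^ 2) ^ K : ℝ) * ((‖ξ‖ ^ 2) ^ K)⁻¹ = 1 :=
          mul_inv_cancel₀ (by positivity)
        have h3' : (((2 : ℝ)⁻¹ ^ (2 * K * l) : ℝ) : ℂ) * (((2 : ℝ) ^ (2 * K * l) : ℝ) : ℂ) = 1 := by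
          rw [← Complex.ofReal_mul, h3, Complex.ofReal_one]
        have h4' : (((‖ξ‖ ^ 2) ^ K : ℝ) : ℂ) * ((((‖ξ‖ ^ 2) ^ K)⁻¹ : ℝ) : ℂ) = 1 := by
          rw [← Complex.ofReal_mul, h4, Complex.ofReal_one]
        rw [Complex.ofReal_mul, Complex.ofReal_mul]
        linear_combination (ex x ξ * (h ξ * ((Z13_chi ((2 : ℝ)⁻¹ ^ l • ξ) : ℝ) : ℂ))) *
          ((((‖ξ‖ ^ 2) ^ K : ℝ) : ℂ) * ((((‖ξ‖ ^ 2) ^ K)⁻¹ : ℝ) : ℂ)) * h3' +
          (ex x ξ * (h ξ * ((Z13_chi ((2 : ℝ)⁻¹ ^ l • ξ) : ℝ) : ℂ))) * h4'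
    have hexn : ∀ ξ : E d, ‖ex x ξ‖ = 1 := by
      intro ξ
      unfold ex
      rw [show (2 * (Real.pi : ℂ) * Complex.I * ((inner ℝ x ξ : ℝ) : ℂ)) =
        ((2 * Real.pi * inner ℝ x ξ : ℝ) : ℂ) * Complex.I by push_cast; ring]
      exact Complex.norm_exp_ofReal_mul_I _
    have hexc : Continuous fun ξ : E d => ex x ξ := by
      unfold ex
      fun_prop
    have hFc : ∀ l, Continuous (F l) := by
      intro l
      have h1 : Continuous fun ξ : E d => Z13_chi ((2 : ℝ)⁻¹ ^ l • ξ) :=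
        Z13_chi_smooth.continuous.comp (continuous_const_smul _)
      exact hexc.mul (h.continuous.mul (Complex.continuous_ofReal.comp h1))
    have hFn : ∀ l ξ, ‖F l ξ‖ = ‖h ξ‖ * |Z13_chi ((2 : ℝ)⁻¹ ^ l • ξ)| := by
      intro l ξ
      simp only [hF]
      rw [norm_mul, hexn, one_mul, norm_mul, Complex.norm_real, Real.norm_eq_abs]
    have hFi : ∀ l, Integrable (F l) := by
      intro l
      refine h.integrable.norm.mono' (hFc l).aestronglyMeasurable (Eventually.of_forall fun ξ => ?_)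
      rw [hFn]
      exact mul_le_of_le_one_right (norm_nonneg _) (Z13_chi_abs _)
    have hI1 : Integrable fun ξ : E d => ‖ξ‖ ^ 1 * ‖h ξ‖ := h.integrable_pow_mul volume 1
    have hsum : Summable fun l => ∫ ξ, ‖F l ξ‖ := by
      refine Summable.of_nonneg_of_le (fun l => integral_nonneg fun ξ => norm_nonneg _)
        (f := fun l => (2 : ℝ)⁻¹ ^ l * ∫ ξ : E d, ‖ξ‖ ^ 1 * ‖h ξ‖) (fun l => ?_)
        ((summable_geometric_of_lt_one (by norm_num) (by norm_num)).mul_right _)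
      rw [← integral_const_mul]
      refine integral_mono (hFi l).norm (hI1.const_mul _) fun ξ => ?_
      simp only
      rw [hFn]
      have h1 := Z13_chi_abs2 ((2 : ℝ)⁻¹ ^ l • ξ)
      rw [norm_smul, Real.norm_of_nonneg (by positivity : (0 : ℝ) ≤ (2 : ℝ)⁻¹ ^ l)] at h1
      calc ‖h ξ‖ * |Z13_chi ((2 : ℝ)⁻¹ ^ l • ξ)| ≤ ‖h ξ‖ * ((2 : ℝ)⁻¹ ^ l * ‖ξ‖) :=
            mul_le_mul_of_nonneg_left h1 (norm_nonneg _)
        _ = (2 : ℝ)⁻¹ ^ l * (‖ξ‖ ^ 1 * ‖h ξ‖) := by ring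
    have hmain := hasSum_integral_of_summable_integral_norm hFi hsum
    have hpt : ∀ ξ, ∑' l, F l ξ = ex x ξ * (h ξ * (1 - ((Z13_psi d ξ : ℝ) : ℂ))) := by
      intro ξ
      have h1 : HasSum (fun l : ℕ => ((Z13_chi ((2 : ℝ)⁻¹ ^ l • ξ) : ℝ) : ℂ))
          (((1 - Z13_psi d ξ : ℝ)) : ℂ) := Complex.hasSum_ofReal.2 (Z13_hasSum ξ)
      have h2 := (h1.mul_left (h ξ)).mul_left (ex x ξ)
      rw [show F = fun l ξ => ex x ξ * (h ξ * ((Z13_chi ((2 : ℝ)⁻¹ ^ l • ξ) : ℝ) : ℂ)) from rfl]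
      rw [h2.tsum_eq]
      push_cast
      rfl
    have hval : ∫ ξ, ∑' l, F l ξ = η x - (𝓕⁻ φ0 : SchwartzMap (E d) ℂ) x := by
      have h1 : η x = ∫ ξ, ex x ξ * h ξ := by
        rw [← fourierInv_ex, hh, FourierTransform.fourierInv_fourier_eq]
      have h2 : (𝓕⁻ φ0 : SchwartzMap (E d) ℂ) x = ∫ ξ, ex x ξ * φ0 ξ := fourierInv_ex φ0 x
      have hi : ∀ f : SchwartzMap (E d) ℂ, Integrable fun ξ => ex x ξ * f ξ := by
        intro f
        refine f.integrable.norm.mono' (hexc.mul f.continuous).aestronglyMeasurable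
          (Eventually.of_forall fun ξ => ?_)
        rw [norm_mul, hexn, one_mul]
      rw [h1, h2, ← integral_sub (hi h) (hi φ0)]
      refine integral_congr_ae (Eventually.of_forall fun ξ => ?_)
      simp only
      rw [hpt, hφ0]
      ring
    rw [hval] at hmain
    simp_rw [hterm]
    exact hmain

end Pool.LibST49
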