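import Pool.Agent.LibST49.Z3

/-
PLAN (Z14, MEDIUM). Fk η p - Fk η0 p = ∫ (η - η0)(x - ζ - y) dsg_r(ζ) (y = p.1, r = p.2 >= 1; integrable: bounded continuous, finite measure). Insert h at x - ζ - y and exchange sum and integral
(hasSum_integral_of_summable_integral_norm): the l-th function of ζ is bounded by 2^(-2Kl) 2^(ld) sup‖κ‖ ∫‖ϑ‖ and 2K > d, so the norms are summable (geometric). Each term: Fubini in (ζ, w)
(bounded by ‖ϑ w‖ 2^(ld) sup‖κ‖ on the product of the finite measure sg and volume) and Fk_dil at the point x - w: (x - w) - ζ - y = (x - ζ - y) - w.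
-/

set_option autoImplicit false

noncomputable section

open MeasureTheory Metric Set Filter

namespace Pool.LibST49

open Pool.LibSR53

private theorem Z14_int {d : ℕ} {μ : Measure (E d)} [IsFiniteMeasure μ] (k : E d → E d → ℂ)
    (hk : Continuous fun p : E d × E d => k p.1 p.2) (B : ℝ) (hb : ∀ z ξ, ‖k z ξ‖ ≤ B)
    (g : E d → ℂ) (hg : Integrable g) :
    Integrable (Function.uncurry fun ζ ξ => g ξ * k ζ ξ) (μ.prod volume) :=
  (hg.comp_snd μ).mul_bdd (g := fun p : E d × E d => k p.1 p.2) (c := B) hk.aestronglyMeasurable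
    (Eventually.of_forall fun p => hb p.1 p.2)

private theorem Z14_swap {d : ℕ} {μ : Measure (E d)} [IsFiniteMeasure μ] (k : E d → E d → ℂ)
    (hk : Continuous fun p : E d × E d => k p.1 p.2) (B : ℝ) (hb : ∀ z ξ, ‖k z ξ‖ ≤ B)
    (g : E d → ℂ) (hg : Integrable g) :
    ∫ ζ, ∫ ξ, g ξ * k ζ ξ ∂volume ∂μ = ∫ ξ, g ξ * (∫ ζ, k ζ ξ ∂μ) := by
  rw [integral_integral_swap (Z14_int k hk B hb g hg)]
  refine integral_congr_ae (Eventually.of_forall fun ξ => ?_)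
  exact integral_const_mul (g ξ) fun ζ => k ζ ξ

private theorem Z14_bd {d : ℕ} (f : SchwartzMap (E d) ℂ) : ∃ B : ℝ, 0 ≤ B ∧ ∀ v, ‖f v‖ ≤ B := by
  obtain ⟨C, hC, h⟩ := f.decay 0 0
  refine ⟨C, hC.le, fun v => ?_⟩
  have := h v
  simpa using this

private theorem Z14_fint {d : ℕ} (hd : 2 ≤ d) (f : SchwartzMap (E d) ℂ) (y : E d) (r : ℝ)
    (hr : 0 < r) (x : E d) : Integrable (fun ζ => f (x - ζ - y)) (sg d r) := by
  have := sg_fin d hd r hr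
  obtain ⟨B, -, hB⟩ := Z14_bd f
  refine Integrable.of_bound (C := B) ?_ (Eventually.of_forall fun ζ => hB _)
  exact (f.continuous.comp (by fun_prop : Continuous fun ζ : E d => x - ζ - y)).aestronglyMeasurable

/-- Littlewood-Paley decomposition of the atoms -/
theorem Fk_lp {d : ℕ} (hd : 2 ≤ d) (η η0 κ ϑ : SchwartzMap (E d) ℂ) (K : ℕ) (hK : d < 2 * K)
    (h : ∀ x, HasSum (fun l : ℕ => (((2 : ℝ)⁻¹ ^ (2 * K * l) : ℝ) : ℂ) *
        ∫ w, ϑ w * ((((2 : ℝ) ^ (l * d) : ℝ) : ℂ) * κ ((2 : ℝ) ^ l • (x - w)))) (η x - η0 x))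
    (p : P d) (hp : 1 ≤ p.2) (x : E d) :
    HasSum (fun l : ℕ => (((2 : ℝ)⁻¹ ^ (2 * K * l) : ℝ) : ℂ) *
        ∫ w, ϑ w * ((((2 : ℝ) ^ l : ℝ) : ℂ) *
          Fk κ (Dl l p).1 (Dl l p).2 ((2 : ℝ) ^ l • (x - w))))
      (Fk η p.1 p.2 x - Fk η0 p.1 p.2 x) := by
  have hr : 0 < p.2 := lt_of_lt_of_le one_pos hp
  have hfin := sg_fin d hd p.2 hr
  obtain ⟨B, hB0, hB⟩ := Z14_bd κ
  have hϑ : Integrable (fun w => ϑ w) := ϑ.integrable
  -- the kernel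
  have hkc : ∀ l : ℕ, Continuous fun q : E d × E d =>
      (fun ζ w : E d => (((2 : ℝ) ^ (l * d) : ℝ) : ℂ) * κ ((2 : ℝ) ^ l • (x - ζ - p.1 - w)))
        q.1 q.2 := by
    intro l
    refine continuous_const.mul (κ.continuous.comp ?_)
    fun_prop
  have hkb : ∀ l : ℕ, ∀ ζ w : E d,
      ‖(((2 : ℝ) ^ (l * d) : ℝ) : ℂ) * κ ((2 : ℝ) ^ l • (x - ζ - p.1 - w))‖ ≤
        (2 : ℝ) ^ (l * d) * B := by
    intro l ζ w
    rw [norm_mul, Complex.norm_real, Real.norm_of_nonneg (by positivity)]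
    exact mul_le_mul_of_nonneg_left (hB _) (by positivity)
  -- the terms
  let G : ℕ → E d → ℂ := fun l ζ => (((2 : ℝ)⁻¹ ^ (2 * K * l) : ℝ) : ℂ) *
      ∫ w, ϑ w * ((((2 : ℝ) ^ (l * d) : ℝ) : ℂ) * κ ((2 : ℝ) ^ l • (x - ζ - p.1 - w)))
  have hFint : ∀ l : ℕ, Integrable (G l) (sg d p.2) := by
    intro l
    refine Integrable.const_mul ?_ _
    exact (Z14_int _ (hkc l) _ (hkb l) _ hϑ).integral_prod_left
  have hFb : ∀ l : ℕ, ∀ ζ, ‖G l ζ‖ ≤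
      ((∫ w, ‖ϑ w‖) * B) * ((2 : ℝ)⁻¹ ^ (2 * K - d)) ^ l := by
    intro l ζ
    change ‖(((2 : ℝ)⁻¹ ^ (2 * K * l) : ℝ) : ℂ) *
      ∫ w, ϑ w * ((((2 : ℝ) ^ (l * d) : ℝ) : ℂ) * κ ((2 : ℝ) ^ l • (x - ζ - p.1 - w)))‖ ≤ _
    rw [norm_mul, Complex.norm_real, Real.norm_of_nonneg (by positivity)]
    have h1 : ‖∫ w, ϑ w * ((((2 : ℝ) ^ (l * d) : ℝ) : ℂ) *
        κ ((2 : ℝ) ^ l • (x - ζ - p.1 - w)))‖ ≤ (∫ w, ‖ϑ w‖) * ((2 : ℝ) ^ (l * d) * B) := by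
      rw [← integral_mul_const]
      refine norm_integral_le_of_norm_le (hϑ.norm.mul_const _)
        (Eventually.of_forall fun w => ?_)
      rw [norm_mul]
      exact mul_le_mul_of_nonneg_left (hkb l ζ w) (norm_nonneg _)
    refine (mul_le_mul_of_nonneg_left h1 (by positivity)).trans (le_of_eq ?_)
    have h2 : (2 : ℝ)⁻¹ ^ (2 * K * l) * (2 : ℝ) ^ (l * d) = ((2 : ℝ)⁻¹ ^ (2 * K - d)) ^ l := by
      obtain ⟨n, hn⟩ : ∃ n, 2 * K = n + d := ⟨2 * K - d, by omega⟩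
      rw [hn, Nat.add_sub_cancel, ← pow_mul, add_mul, pow_add, mul_comm l d, mul_assoc, ← mul_pow]
      norm_num
    calc (2 : ℝ)⁻¹ ^ (2 * K * l) * ((∫ w, ‖ϑ w‖) * ((2 : ℝ) ^ (l * d) * B)) =
        ((∫ w, ‖ϑ w‖) * B) * ((2 : ℝ)⁻¹ ^ (2 * K * l) * (2 : ℝ) ^ (l * d)) := by ring
      _ = _ := by rw [h2]
  have hsum : Summable fun l : ℕ => ∫ ζ, ‖G l ζ‖ ∂(sg d p.2) := by
    have hq : (2 : ℝ)⁻¹ ^ (2 * K - d) < 1 := pow_lt_one₀ (by norm_num) (by norm_num) (by omega)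
    have hg := (summable_geometric_of_lt_one (by positivity : (0 : ℝ) ≤ (2 : ℝ)⁻¹ ^ (2 * K - d))
      hq).mul_left ((sg d p.2).real univ * ((∫ w, ‖ϑ w‖) * B))
    refine Summable.of_nonneg_of_le (fun l => integral_nonneg fun ζ => norm_nonneg _)
      (fun l => ?_) hg
    calc ∫ ζ, ‖G l ζ‖ ∂(sg d p.2)
        ≤ ∫ ζ, ((∫ w, ‖ϑ w‖) * B) * ((2 : ℝ)⁻¹ ^ (2 * K - d)) ^ l ∂(sg d p.2) :=
          integral_mono_of_nonneg (Eventually.of_forall fun ζ => norm_nonneg _)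
            (integrable_const _) (Eventually.of_forall fun ζ => hFb l ζ)
      _ = _ := by
          rw [integral_const, smul_eq_mul]
          ring
  have hmain := hasSum_integral_of_summable_integral_norm hFint hsum
  have hval : ∫ ζ, ∑' l : ℕ, G l ζ ∂(sg d p.2) = Fk η p.1 p.2 x - Fk η0 p.1 p.2 x := by
    unfold Fk
    rw [← integral_sub (Z14_fint hd η p.1 p.2 hr x) (Z14_fint hd η0 p.1 p.2 hr x)]
    exact integral_congr_ae (Eventually.of_forall fun ζ => (h (x - ζ - p.1)).tsum_eq)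
  rw [hval] at hmain
  suffices hfg : (fun l : ℕ => (((2 : ℝ)⁻¹ ^ (2 * K * l) : ℝ) : ℂ) *
        ∫ w, ϑ w * ((((2 : ℝ) ^ l : ℝ) : ℂ) *
          Fk κ (Dl l p).1 (Dl l p).2 ((2 : ℝ) ^ l • (x - w)))) =
      fun l : ℕ => ∫ ζ, G l ζ ∂(sg d p.2) by
    rw [hfg]
    exact hmain
  funext l
  have h3 : ∫ ζ, G l ζ ∂(sg d p.2) = (((2 : ℝ)⁻¹ ^ (2 * K * l) : ℝ) : ℂ) * ∫ ζ,
      (∫ w, ϑ w * ((((2 : ℝ) ^ (l * d) : ℝ) : ℂ) * κ ((2 : ℝ) ^ l • (x - ζ - p.1 - w))))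
      ∂(sg d p.2) := integral_const_mul _ _
  rw [h3]
  congr 1
  rw [Z14_swap _ (hkc l) _ (hkb l) _ hϑ]
  refine integral_congr_ae (Eventually.of_forall fun w => ?_)
  beta_reduce
  congr 1
  have h4 := Fk_dil hd κ l p.1 p.2 hr (x - w)
  unfold Dl
  rw [← h4]
  refine integral_congr_ae (Eventually.of_forall fun ζ => ?_)
  beta_reduce
  rw [show x - w - ζ - p.1 = x - ζ - p.1 - w by abel]

end Pool.LibST49
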