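import Pool.Agent.LibST49.ZD

/-
PLAN (Z8, MEDIUM, ONLY MATHLIB). λ = 2^l >= 1. Substitution x' = λ x: ∫⁻ f(λ x) dx = λ^(-d) ∫⁻ f (Measure.lintegral_comp_smul or addHaar scaling, finrank = d) turns the left side into λ^(-d) times
the integral for S' = S.image (Dl l) (injective), γ' q = γ (Dl l)⁻¹ q. Claims: Sp S' (radii λ r >= 1, dist (Dl p) (Dl q) = λ dist p q >= 1), wt S' = λ^(d-1) wt S, Dens u S':
if k < l then sc k S' is empty (radius >= 2^l); if k >= l then sc k S' = image of sc (k-l) S; for i <= k: nb (sc k S') (Dl p) 2^i is the image of {q in sc (k-l) S : λ dist q p <= 2^i};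
if i >= l this is nb (sc (k-l) S) p 2^(i-l): card <= u 2^(i-l) <= u 2^i; if i < l then dist q p < 1 forces q = p: card <= 1 <= u 2^i. Constant: λ^(-d) λ^(d-1) = 1/λ (d >= 1).
-/

set_option autoImplicit false

noncomputable section

open MeasureTheory Metric Set Filter

namespace Pool.LibST49

open Pool.LibSR53

private theorem Z8_eq {d : ℕ} (l : ℕ) (p : P d) : Dl l p = (2 : ℝ) ^ l • p := rfl

private theorem Z8_dist {d : ℕ} (l : ℕ) (p q : P d) :
    dist (Dl l p) (Dl l q) = (2 : ℝ) ^ l * dist p q := by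
  rw [Z8_eq, Z8_eq, dist_smul₀, Real.norm_of_nonneg (by positivity)]

private theorem Z8_inj {d : ℕ} (l : ℕ) : Function.Injective (Dl l : P d → P d) := by
  intro p q h
  have h1 := Z8_dist l p q
  rw [h, dist_self] at h1
  have h2 : (0 : ℝ) < 2 ^ l := by positivity
  have h3 : dist p q = 0 := by
    rcases mul_eq_zero.1 h1.symm with h4 | h4
    · exact absurd h4 h2.ne'
    · exact h4
  exact dist_eq_zero.1 h3

/-- dilation invariance of the strong type bounds -/
theorem strong_dil {d : ℕ} (hd : 1 ≤ d) {F : P d → E d → ℂ} {q ε C : ℝ} (l : ℕ)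
    (h : Strong F q ε C) :
    Strong (fun p x => F (Dl l p) ((2 : ℝ) ^ l • x)) q ε (C / 2 ^ l) := by
  intro S u hS hu hD γ hγ
  have hl0 : (0 : ℝ) < 2 ^ l := by positivity
  have hl1 : (1 : ℝ) ≤ 2 ^ l := one_le_pow₀ (by norm_num)
  obtain ⟨S', hS'⟩ : ∃ S' : Finset (P d), S' = S.map ⟨Dl l, Z8_inj l⟩ := ⟨_, rfl⟩
  have hmem : ∀ {q' : P d}, q' ∈ S' ↔ ∃ q ∈ S, Dl l q = q' := by
    intro q'
    rw [hS', Finset.mem_map]
    rfl
  have hSp : Sp S' := by
    refine ⟨?_, ?_⟩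
    · intro p' hp'
      obtain ⟨p, hp, rfl⟩ := hmem.1 hp'
      have h1 := hS.one_le p hp
      change 1 ≤ (2 : ℝ) ^ l * p.2
      nlinarith
    · intro p' hp' q' hq' hne
      obtain ⟨p, hp, rfl⟩ := hmem.1 hp'
      obtain ⟨q, hq, rfl⟩ := hmem.1 hq'
      have h1 := hS.sep p hp q hq (fun h => hne (by rw [h]))
      rw [Z8_dist]
      nlinarith
  have hDens : Dens u S' := by
    intro k p' hp' i hi
    unfold sc at hp'
    rw [Finset.mem_filter] at hp'
    obtain ⟨hp1, hp2, hp3⟩ := hp'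
    obtain ⟨p, hp, rfl⟩ := hmem.1 hp1
    change (2 : ℝ) ^ k ≤ (2 : ℝ) ^ l * p.2 at hp2
    change (2 : ℝ) ^ l * p.2 < (2 : ℝ) ^ (k + 1) at hp3
    have h1 := hS.one_le p hp
    have hkl : l ≤ k := by
      by_contra hkl
      have h2 : (2 : ℝ) ^ (k + 1) ≤ 2 ^ l := pow_le_pow_right₀ (by norm_num) (by omega)
      nlinarith
    obtain ⟨j, rfl⟩ := Nat.exists_eq_add_of_le hkl
    have hscm : ∀ q : P d, q ∈ S → (2 : ℝ) ^ (l + j) ≤ (2 : ℝ) ^ l * q.2 →
        (2 : ℝ) ^ l * q.2 < (2 : ℝ) ^ (l + j + 1) → q ∈ sc j S := by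
      intro q hq h2 h3
      unfold sc
      rw [Finset.mem_filter]
      refine ⟨hq, ?_, ?_⟩
      · rw [pow_add] at h2
        exact le_of_mul_le_mul_left h2 hl0
      · rw [show l + j + 1 = l + (j + 1) by ring, pow_add] at h3
        exact lt_of_mul_lt_mul_left h3 hl0.le
    have hpj : p ∈ sc j S := hscm p hp hp2 hp3
    rcases le_or_gt l i with hli | hli
    · obtain ⟨i', rfl⟩ := Nat.exists_eq_add_of_le hli
      have h2 := hD j p hpj i' (by omega)
      have h3 : (nb (sc (l + j) S') (Dl l p) ((2 : ℝ) ^ (l + i'))).card ≤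
          (nb (sc j S) p ((2 : ℝ) ^ i')).card := by
        refine (Finset.card_le_card
          (t := (nb (sc j S) p ((2 : ℝ) ^ i')).map ⟨Dl l, Z8_inj l⟩) fun q' hq' => ?_).trans
          (Finset.card_map _).le
        unfold nb sc at hq'
        rw [Finset.mem_filter, Finset.mem_filter] at hq'
        obtain ⟨⟨hq1, hq2, hq3⟩, hq4⟩ := hq'
        obtain ⟨q, hq, rfl⟩ := hmem.1 hq1
        rw [Finset.mem_map]
        refine ⟨q, ?_, rfl⟩
        unfold nb
        rw [Finset.mem_filter]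
        refine ⟨hscm q hq hq2 hq3, ?_⟩
        rw [Z8_dist, pow_add] at hq4
        exact le_of_mul_le_mul_left hq4 hl0
      have h4 : ((nb (sc (l + j) S') (Dl l p) ((2 : ℝ) ^ (l + i'))).card : ℝ) ≤
          ((nb (sc j S) p ((2 : ℝ) ^ i')).card : ℝ) := by exact_mod_cast h3
      refine h4.trans (h2.trans ?_)
      rw [pow_add]
      have h5 : (0 : ℝ) < 2 ^ i' := by positivity
      have h6 : 0 ≤ u * 2 ^ i' := by positivity
      nlinarith
    · have h3 : (nb (sc (l + j) S') (Dl l p) ((2 : ℝ) ^ i)).card ≤ 1 := by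
        rw [Finset.card_le_one_iff_subset_singleton]
        refine ⟨Dl l p, fun q' hq' => ?_⟩
        unfold nb sc at hq'
        rw [Finset.mem_filter, Finset.mem_filter] at hq'
        obtain ⟨⟨hq1, hq2, hq3⟩, hq4⟩ := hq'
        obtain ⟨q, hq, rfl⟩ := hmem.1 hq1
        rw [Finset.mem_singleton]
        by_contra hne
        have h5 := hS.sep q hq p hp (fun h => hne (by rw [h]))
        rw [Z8_dist] at hq4
        have h6 : (2 : ℝ) ^ i < 2 ^ l := pow_lt_pow_right₀ (by norm_num) hli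
        nlinarith
      have h4 : ((nb (sc (l + j) S') (Dl l p) ((2 : ℝ) ^ i)).card : ℝ) ≤ 1 := by
        exact_mod_cast h3
      have h5 : (1 : ℝ) ≤ 2 ^ i := one_le_pow₀ (by norm_num)
      nlinarith
  obtain ⟨γ', hγ'⟩ : ∃ γ' : P d → ℂ,
      γ' = fun q => γ (((2 : ℝ) ^ l)⁻¹ • q.1, ((2 : ℝ) ^ l)⁻¹ * q.2) := ⟨_, rfl⟩
  have hγd : ∀ p : P d, γ' (Dl l p) = γ p := by
    intro p
    rw [hγ']
    unfold Dl
    simp only [smul_smul, ← mul_assoc]
    rw [inv_mul_cancel₀ hl0.ne', one_smul, one_mul]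
  have hmain := h S' u hSp hu hDens γ' (fun p => by rw [hγ']; exact hγ _)
  have hsum : ∀ x : E d, ∑ p ∈ S', γ' p * F p x = ∑ p ∈ S, γ p * F (Dl l p) x := by
    intro x
    rw [hS', Finset.sum_map]
    refine Finset.sum_congr rfl fun p _ => ?_
    simp only [Function.Embedding.coeFn_mk]
    rw [hγd]
  have hwt : wt S' = ((2 : ℝ) ^ l) ^ (d - 1) * wt S := by
    unfold wt
    rw [hS', Finset.sum_map, Finset.mul_sum]
    refine Finset.sum_congr rfl fun p _ => ?_
    simp only [Function.Embedding.coeFn_mk, Dl]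
    rw [mul_pow]
  simp only [hsum] at hmain
  rw [hwt] at hmain
  have hint : ∫⁻ x : E d, ‖∑ p ∈ S, γ p * F (Dl l p) ((2 : ℝ) ^ l • x)‖ₑ ^ q =
      ENNReal.ofReal (((2 : ℝ) ^ l) ^ d)⁻¹ *
        ∫⁻ x : E d, ‖∑ p ∈ S, γ p * F (Dl l p) x‖ₑ ^ q := by
    have hemb : MeasurableEmbedding (fun x : E d => (2 : ℝ) ^ l • x) :=
      (Homeomorph.smulOfNeZero ((2 : ℝ) ^ l) hl0.ne').measurableEmbedding
    rw [← hemb.lintegral_map (fun x => ‖∑ p ∈ S, γ p * F (Dl l p) x‖ₑ ^ q),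
      Measure.map_addHaar_smul volume hl0.ne', lintegral_smul_measure, smul_eq_mul]
    congr 2
    rw [finrank_euclideanSpace, Fintype.card_fin]
    exact abs_of_pos (by positivity)
  change ∫⁻ x : E d, ‖∑ p ∈ S, γ p * F (Dl l p) ((2 : ℝ) ^ l • x)‖ₑ ^ q ≤ _
  rw [hint]
  refine (mul_le_mul_right hmain _).trans (le_of_eq ?_)
  rw [← ENNReal.ofReal_mul (by positivity)]
  congr 1
  obtain ⟨d', rfl⟩ := Nat.exists_eq_add_of_le hd
  rw [show 1 + d' - 1 = d' by omega, pow_add]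
  field_simp

end Pool.LibST49
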