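import Pool.Agent.LibST49.Z7
import Pool.Agent.LibST49.Z8
import Pool.Agent.LibST49.Z9
import Pool.Agent.LibST49.Z11
import Pool.Agent.LibST49.Z13
import Pool.Agent.LibST49.Z14
import Pool.Agent.LibSR53.V2

/-
PLAN (Z15, MEDIUM/STRONG). d = m+1, K = d + 2 (so d < 2K and 2K > q + 1). lp gives η0, κ, ϑ, ...; strong_band for η0 (constant A0) and κ (constant A). For l ∈ ℕ:
G_l p x = 2^l * Fk κ (Dl l p).1 (Dl l p).2 (2^l • x) is Strong with constant (2^l)^q * (A / 2^l) (strong_dil, strong_const).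
H_l p x = ∫ w, ϑ w * G_l p (x - w): superpose with T = E d, τ = volume, c p w = ϑ w, w = ‖ϑ w‖, B = const (strong_shift): Strong with constant B_l = W^(q-1) * (W * ((2^l)^q * (A/2^l))) <= A' 4^l,
W = ∫‖ϑ‖ (q < 2: pS m < 2). Then Fk η - Fk η0 = ∑_l 2^(-2Kl) H_l (Fk_lp) = integral over (ℕ, count) (integral_countable' / integral_count; integrable_count_iff for hint, from
HasSum.summable.norm in ℂ), superpose with T = ℕ, τ = Measure.count, w l = 2^(-2Kl), B l = A' 4^l: summable. Finally strong_add with Fk η0, strong_congr, strong_mono.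
Measurability: Fk κ at a fixed index point with positive radius is continuous (Fk_continuous, V1.lean) and bounded (Fk_le), so (w, x) ↦ G_l p (x - w) is continuous; H_l p is continuous or
measurable (StronglyMeasurable.integral_prod_right'); on ℕ × E d measurable_from_prod_countable_left/right.
-/

set_option autoImplicit false

noncomputable section

open MeasureTheory Metric Set Filter

namespace Pool.LibST49

open Pool.LibSR53

/-- the dilated atom of level l -/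
private def Z15_G {d : ℕ} (κ : SchwartzMap (E d) ℂ) (l : ℕ) (p : P d) (x : E d) : ℂ :=
  (((2 : ℝ) ^ l : ℝ) : ℂ) * Fk κ (Dl l p).1 (Dl l p).2 ((2 : ℝ) ^ l • x)

/-- the convolution of the dilated atom with ϑ -/
private def Z15_H {d : ℕ} (ϑ κ : SchwartzMap (E d) ℂ) (l : ℕ) (p : P d) (x : E d) : ℂ :=
  ∫ w, ϑ w * Z15_G κ l p (x - w)

private theorem Z15_pos {d : ℕ} (l : ℕ) {p : P d} (hp : 1 ≤ p.2) : 0 < (Dl l p).2 := by
  have : (Dl l p).2 = (2 : ℝ) ^ l * p.2 := rfl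
  rw [this]
  have : 0 < p.2 := by linarith
  positivity

private theorem Z15_G_cont {d : ℕ} (hd : 2 ≤ d) (κ : SchwartzMap (E d) ℂ) (l : ℕ) {p : P d}
    (hp : 1 ≤ p.2) : Continuous (Z15_G κ l p) := by
  have h1 := Fk_continuous hd κ (Dl l p).1 (Dl l p).2 (Z15_pos l hp)
  have h2 : Continuous (fun x : E d => Fk κ (Dl l p).1 (Dl l p).2 ((2 : ℝ) ^ l • x)) :=
    h1.comp (continuous_const_smul _)
  exact continuous_const.mul h2

private theorem Z15_G_le {d : ℕ} (hd : 2 ≤ d) (κ : SchwartzMap (E d) ℂ) (l : ℕ) {p : P d}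
    (hp : 1 ≤ p.2) : ∃ C : ℝ, ∀ x, ‖Z15_G κ l p x‖ ≤ C := by
  obtain ⟨C, hC, H⟩ := Fk_le hd κ
  refine ⟨2 ^ l * (C * (Dl l p).2 ^ (d - 1)), fun x => ?_⟩
  have h1 := H (Dl l p).1 (Dl l p).2 ((2 : ℝ) ^ l • x) (Z15_pos l hp)
  unfold Z15_G
  rw [norm_mul, Complex.norm_real, Real.norm_of_nonneg (by positivity)]
  exact mul_le_mul_of_nonneg_left h1 (by positivity)

private theorem Z15_int {d : ℕ} (hd : 2 ≤ d) (ϑ κ : SchwartzMap (E d) ℂ) (l : ℕ) {p : P d}
    (hp : 1 ≤ p.2) (x : E d) : Integrable (fun w => ϑ w * Z15_G κ l p (x - w)) := by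
  obtain ⟨C, hC⟩ := Z15_G_le hd κ l hp
  have hc : Continuous (fun w => Z15_G κ l p (x - w)) :=
    (Z15_G_cont hd κ l hp).comp (by fun_prop)
  exact (ϑ.integrable (μ := volume)).mul_bdd (c := C) hc.aestronglyMeasurable
    (Eventually.of_forall fun w => hC _)

private theorem Z15_H_cont {d : ℕ} (hd : 2 ≤ d) (ϑ κ : SchwartzMap (E d) ℂ) (l : ℕ) {p : P d}
    (hp : 1 ≤ p.2) : Continuous (Z15_H ϑ κ l p) := by
  obtain ⟨C, hC⟩ := Z15_G_le hd κ l hp
  unfold Z15_H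
  refine continuous_of_dominated (bound := fun w => ‖ϑ w‖ * C) ?_ ?_ ?_ ?_
  · intro x
    exact (Z15_int hd ϑ κ l hp x).aestronglyMeasurable
  · intro x
    refine Eventually.of_forall fun w => ?_
    rw [norm_mul]
    exact mul_le_mul_of_nonneg_left (hC _) (norm_nonneg _)
  · exact (ϑ.integrable (μ := volume)).norm.mul_const C
  · refine Eventually.of_forall fun w => ?_
    exact continuous_const.mul ((Z15_G_cont hd κ l hp).comp (by fun_prop))

private theorem Z15_H_strong {m : ℕ} {q ε : ℝ} (hq1 : 1 < q)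
    (ϑ κ : SchwartzMap (E (m + 1)) ℂ) (hd : 2 ≤ m + 1) {A : ℝ} (hA : 0 < A)
    (hκ : Strong (fun p x => Fk κ p.1 p.2 x) q ε A) (l : ℕ) :
    Strong (Z15_H ϑ κ l) q ε ((∫ w, ‖ϑ w‖) ^ (q - 1) *
      ∫ w, ‖ϑ w‖ * (‖(((2 : ℝ) ^ l : ℝ) : ℂ)‖ ^ q * (A / 2 ^ l))) := by
  have hG0 : Strong (fun p x => Fk κ (Dl l p).1 (Dl l p).2 ((2 : ℝ) ^ l • x)) q ε (A / 2 ^ l) :=
    strong_dil (F := fun p x => Fk κ p.1 p.2 x) (by omega) l hκ
  have hG : Strong (Z15_G κ l) q ε (‖(((2 : ℝ) ^ l : ℝ) : ℂ)‖ ^ q * (A / 2 ^ l)) :=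
    strong_const (F := fun p x => Fk κ (Dl l p).1 (Dl l p).2 ((2 : ℝ) ^ l • x)) (by linarith)
      (((2 : ℝ) ^ l : ℝ) : ℂ) hG0
  refine superpose (volume : Measure (E (m + 1))) q ε hq1 (Z15_H ϑ κ l)
    (fun w p x => Z15_G κ l p (x - w)) (fun _ w => ϑ w) (fun w => ‖ϑ w‖)
    (fun _ => ‖(((2 : ℝ) ^ l : ℝ) : ℂ)‖ ^ q * (A / 2 ^ l)) ?_ ?_ ?_ ?_ ?_ ?_ ?_ ?_ ?_ ?_ ?_
  · intro p _
    exact ϑ.continuous.measurable
  · intro p hp
    exact ((Z15_G_cont hd κ l hp).comp (continuous_snd.sub continuous_fst)).measurable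
  · exact ϑ.continuous.norm.measurable
  · intro w
    exact norm_nonneg _
  · intro p _ w
    exact le_rfl
  · exact (ϑ.integrable (μ := volume)).norm
  · intro w
    positivity
  · exact (ϑ.integrable (μ := volume)).norm.mul_const _
  · intro w
    exact strong_shift w hG
  · intro p hp x
    exact Z15_int hd ϑ κ l hp x
  · intro p _ x
    rfl

/-- strong type bounds for the atoms of every Schwartz function whose Fourier transform vanishes
near the origin -/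
theorem strong_all (m : ℕ) (hm : 2 ≤ m) (h : HST m) (η : SchwartzMap (E (m + 1)) ℂ) (ε0 : ℝ)
    (hε0 : 0 < ε0) (hη : Van η ε0) (q : ℝ) (hq1 : 1 < q) (hq2 : q < pS m) (ε : ℝ) (hε : 0 < ε) :
    ∃ C : ℝ, 0 < C ∧ Strong (fun p x => Fk η p.1 p.2 x) q ε C := by
  have hd : 2 ≤ m + 1 := by omega
  have hq3 : q < 2 := by
    refine hq2.trans ?_
    unfold pS
    rw [div_lt_iff₀ (by positivity)]
    linarith
  set K : ℕ := m + 3 with hK
  obtain ⟨η0, φ0, κ, φ, ϑ, c0, c1, hc0, h1, h2, h3, h4, h5⟩ := lp η ε0 hε0 hη K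
  obtain ⟨A0, hA0, S0⟩ := strong_band m hm h η0 φ0 h1 c0 c1 hc0 h2 q hq1 hq2 ε hε
  obtain ⟨A, hA, Sκ⟩ := strong_band m hm h κ φ h3 c0 c1 hc0 h4 q hq1 hq2 ε hε
  set W : ℝ := ∫ w, ‖ϑ w‖ with hW
  have hW0 : 0 ≤ W := integral_nonneg fun w => norm_nonneg _
  -- the constants
  set Bl : ℕ → ℝ := fun l => W ^ (q - 1) *
      ∫ w, ‖ϑ w‖ * (‖(((2 : ℝ) ^ l : ℝ) : ℂ)‖ ^ q * (A / 2 ^ l)) with hBl
  have hBl0 : ∀ l, 0 ≤ Bl l := by
    intro l
    rw [hBl]
    have : 0 ≤ ∫ w, ‖ϑ w‖ * (‖(((2 : ℝ) ^ l : ℝ) : ℂ)‖ ^ q * (A / 2 ^ l)) :=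
      integral_nonneg fun w => by positivity
    positivity
  have hBl1 : ∀ l, Bl l ≤ W ^ (q - 1) * (W * A) * 2 ^ l := by
    intro l
    rw [hBl]
    simp only
    rw [integral_mul_const, ← hW, Complex.norm_real, Real.norm_of_nonneg (by positivity)]
    have h6 : ((2 : ℝ) ^ l) ^ q ≤ ((2 : ℝ) ^ l) ^ (2 : ℝ) :=
      Real.rpow_le_rpow_of_exponent_le (one_le_pow₀ one_le_two) hq3.le
    rw [Real.rpow_two] at h6
    have h7 : ((2 : ℝ) ^ l) ^ q * (A / 2 ^ l) ≤ A * 2 ^ l := by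
      calc ((2 : ℝ) ^ l) ^ q * (A / 2 ^ l) ≤ ((2 : ℝ) ^ l) ^ 2 * (A / 2 ^ l) :=
            mul_le_mul_of_nonneg_right h6 (by positivity)
        _ = A * 2 ^ l := by
            have : (2 : ℝ) ^ l ≠ 0 := by positivity
            field_simp
    calc W ^ (q - 1) * (W * (((2 : ℝ) ^ l) ^ q * (A / 2 ^ l)))
        ≤ W ^ (q - 1) * (W * (A * 2 ^ l)) := by gcongr
      _ = _ := by ring
  have hHs : ∀ l, Strong (Z15_H ϑ κ l) q ε (Bl l) := fun l => Z15_H_strong hq1 ϑ κ hd hA Sκ l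
  -- geometric series
  have hgeo : Summable (fun l : ℕ => (2 : ℝ)⁻¹ ^ l) :=
    summable_geometric_of_lt_one (by norm_num) (by norm_num)
  have hw1 : ∀ l : ℕ, (2 : ℝ)⁻¹ ^ (2 * K * l) ≤ (2 : ℝ)⁻¹ ^ (2 * l) := by
    intro l
    refine pow_le_pow_of_le_one (by norm_num) (by norm_num) ?_
    refine Nat.mul_le_mul_right l ?_
    omega
  have hw2 : ∀ l : ℕ, (2 : ℝ)⁻¹ ^ (2 * l) ≤ (2 : ℝ)⁻¹ ^ l := by
    intro l
    exact pow_le_pow_of_le_one (by norm_num) (by norm_num) (by omega)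
  have hwi : Integrable (fun l : ℕ => (2 : ℝ)⁻¹ ^ (2 * K * l)) Measure.count := by
    rw [integrable_count_iff]
    refine Summable.of_nonneg_of_le (fun l => norm_nonneg _) (fun l => ?_) hgeo
    rw [Real.norm_of_nonneg (by positivity)]
    exact (hw1 l).trans (hw2 l)
  have hwB : Integrable (fun l : ℕ => (2 : ℝ)⁻¹ ^ (2 * K * l) * Bl l) Measure.count := by
    rw [integrable_count_iff]
    refine Summable.of_nonneg_of_le (fun l => norm_nonneg _) (fun l => ?_)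
      (hgeo.mul_left (W ^ (q - 1) * (W * A)))
    rw [Real.norm_of_nonneg (mul_nonneg (by positivity) (hBl0 l))]
    calc (2 : ℝ)⁻¹ ^ (2 * K * l) * Bl l
        ≤ (2 : ℝ)⁻¹ ^ (2 * l) * (W ^ (q - 1) * (W * A) * 2 ^ l) :=
          mul_le_mul (hw1 l) (hBl1 l) (hBl0 l) (by positivity)
      _ = W ^ (q - 1) * (W * A) * (2 : ℝ)⁻¹ ^ l := by
          rw [show 2 * l = l + l by ring, pow_add]
          have : (2 : ℝ)⁻¹ ^ l * 2 ^ l = 1 := by
            rw [← mul_pow]; norm_num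
          linear_combination (W ^ (q - 1) * (W * A) * (2 : ℝ)⁻¹ ^ l) * this
  -- the difference
  have hsum : ∀ p : P (m + 1), 1 ≤ p.2 → ∀ x, HasSum
      (fun l : ℕ => (((2 : ℝ)⁻¹ ^ (2 * K * l) : ℝ) : ℂ) * Z15_H ϑ κ l p x)
      (Fk η p.1 p.2 x - Fk η0 p.1 p.2 x) := by
    intro p hp x
    exact Fk_lp hd η η0 κ ϑ K (by omega) h5 p hp x
  have hD : Strong (fun p x => Fk η p.1 p.2 x - Fk η0 p.1 p.2 x) q ε
      ((∫ l : ℕ, (2 : ℝ)⁻¹ ^ (2 * K * l) ∂Measure.count) ^ (q - 1) *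
        ∫ l : ℕ, (2 : ℝ)⁻¹ ^ (2 * K * l) * Bl l ∂Measure.count) := by
    refine superpose (Measure.count : Measure ℕ) q ε hq1 _
      (fun l => Z15_H ϑ κ l) (fun _ l => (((2 : ℝ)⁻¹ ^ (2 * K * l) : ℝ) : ℂ))
      (fun l => (2 : ℝ)⁻¹ ^ (2 * K * l)) Bl ?_ ?_ ?_ ?_ ?_ hwi hBl0 hwB hHs ?_ ?_
    · intro p _
      exact measurable_of_countable _
    · intro p hp
      refine measurable_from_prod_countable_right fun l => ?_
      exact (Z15_H_cont hd ϑ κ l hp).measurable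
    · exact measurable_of_countable _
    · intro l
      positivity
    · intro p _ l
      rw [Complex.norm_real, Real.norm_of_nonneg (by positivity)]
    · intro p hp x
      rw [integrable_count_iff]
      exact (hsum p hp x).summable.norm
    · intro p hp x
      have hi : Integrable (fun l : ℕ =>
          (((2 : ℝ)⁻¹ ^ (2 * K * l) : ℝ) : ℂ) * Z15_H ϑ κ l p x) Measure.count := by
        rw [integrable_count_iff]
        exact (hsum p hp x).summable.norm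
      rw [integral_countable hi]
      simp only [measureReal_def, Measure.count_singleton, ENNReal.toReal_one, one_smul]
      exact (hsum p hp x).tsum_eq.symm
  have hC1 : 0 ≤ (∫ l : ℕ, (2 : ℝ)⁻¹ ^ (2 * K * l) ∂Measure.count) ^ (q - 1) *
        ∫ l : ℕ, (2 : ℝ)⁻¹ ^ (2 * K * l) * Bl l ∂Measure.count := by
    have h8 : 0 ≤ ∫ l : ℕ, (2 : ℝ)⁻¹ ^ (2 * K * l) ∂Measure.count :=
      integral_nonneg fun l => by positivity
    have h9 : 0 ≤ ∫ l : ℕ, (2 : ℝ)⁻¹ ^ (2 * K * l) * Bl l ∂Measure.count :=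
      integral_nonneg fun l => mul_nonneg (by positivity) (hBl0 l)
    positivity
  refine ⟨_, ?_, strong_congr ?_ (strong_add hq1.le hA0.le hC1 ?_ S0 hD)⟩
  · have : 0 < A0 + _ := add_pos_of_pos_of_nonneg hA0 hC1
    positivity
  · intro p _ x
    ring
  · intro p hp
    exact (Fk_continuous hd η0 p.1 p.2 (by linarith)).aestronglyMeasurable

end Pool.LibST49
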