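import Pool.Agent.LibST49.ZD
import Pool.Agent.LibSR53.S6

/-
PLAN (Z2, MEDIUM). From LibSR53: exists_J (S3) gives J, J1, J2 with t J2 + 2 ν J1 + t J = 0, ν = nu d >= 1/2, and J t = ∫ cos(t <ζ,e>) dsg_1 for unit vectors e; ode_decay (S4):
|J t| <= C (1+t)^(-ν) for t >= 0; sh_scale (S5): sh d r ξ = r^(d-1) sh d 1 (r ξ). Put g t = t^ν J t, g1 t = ν t^(ν-1) J t + t^ν J1 t. For t > 0:
g1' = ν(ν-1) t^(ν-2) J + 2ν t^(ν-1) J1 + t^ν J2 and t^ν J2 = -2ν t^(ν-1) J1 - t^ν J, so g1' = (ν(ν-1)/t^2 - 1) t^ν J (see the beginning of the proof of ode_decay in S4.lean).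
|g t| <= C t^ν (1+t)^(-ν) <= C. Last claim: sh d 1 (r ξ) = ∫ cos(2π <ζ, rξ>) = ∫ cos((2π r ‖ξ‖) <ζ, ξ/‖ξ‖>) = J(2π r ‖ξ‖), and with X = 2π ‖ξ‖ > 0:
r^ν X^(-ν) (r X)^ν J = r^ν r^ν J = r^(d-1) J as 2ν = d-1 (Real.mul_rpow, Real.rpow_add, Real.rpow_natCast).
-/

set_option autoImplicit false

noncomputable section

open MeasureTheory Metric Set Filter

namespace Pool.LibST49

open Pool.LibSR53

/-- the Fourier transform of the sphere through a bounded solution of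
g'' = (ν(ν-1)/t^2 - 1) g -/
theorem exists_g (d : ℕ) (hd : 2 ≤ d) : ∃ (g g1 : ℝ → ℝ) (B : ℝ),
    (∀ t, 0 < t → HasDerivAt g (g1 t) t) ∧
    (∀ t, 0 < t → HasDerivAt g1 ((nu d * (nu d - 1) / t ^ 2 - 1) * g t) t) ∧
    (∀ t, 0 < t → |g t| ≤ B) ∧
    ∀ r : ℝ, 0 < r → ∀ ξ : E d, ξ ≠ 0 →
      sh d r ξ = r ^ nu d * ((2 * Real.pi * ‖ξ‖) ^ (-nu d) * g (2 * Real.pi * (r * ‖ξ‖))) := by
  obtain ⟨J, J1, J2, hJ, h1, h2, h⟩ := exists_J d hd
  obtain ⟨C, hC, hdec⟩ := ode_decay (nu d) J J1 J2 h1 h2 h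
  have hd2 : (2 : ℝ) ≤ (d : ℝ) := by exact_mod_cast hd
  have hnu : 0 ≤ nu d := by
    rw [nu]
    linarith
  set ν : ℝ := nu d with hν
  refine ⟨fun t => t ^ ν * J t, fun t => ν * t ^ (ν - 1) * J t + t ^ ν * J1 t, C, ?_, ?_, ?_, ?_⟩
  · intro t ht
    have h3 := (Real.hasDerivAt_rpow_const (x := t) (p := ν) (Or.inl ht.ne')).mul (h1 t)
    exact h3
  · intro t ht
    have h3 := ((Real.hasDerivAt_rpow_const (x := t) (p := ν - 1) (Or.inl ht.ne')).const_mul ν).mul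
      (h1 t)
    have h4 := (Real.hasDerivAt_rpow_const (x := t) (p := ν) (Or.inl ht.ne')).mul (h2 t)
    have h5 := h3.add h4
    have e1 : t ^ (ν - 1) = t ^ ν / t := Real.rpow_sub_one ht.ne' ν
    have e2 : t ^ (ν - 1 - 1) = t ^ ν / t / t := by
      rw [Real.rpow_sub_one ht.ne', e1]
    have e3 : J2 t = -(2 * ν * J1 t) / t - J t := by
      have := h t
      field_simp
      linarith
    have e4 : ν * ((ν - 1) * t ^ (ν - 1 - 1)) * J t + ν * t ^ (ν - 1) * J1 t +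
        (ν * t ^ (ν - 1) * J1 t + t ^ ν * J2 t) = (ν * (ν - 1) / t ^ 2 - 1) * (t ^ ν * J t) := by
      rw [e2, e1, e3]
      field_simp
      ring
    rw [← e4]
    exact h5
  · intro t ht
    have h3 := hdec t ht.le
    have ht1 : 0 < 1 + t := by linarith
    have h4 : 0 < t ^ ν := Real.rpow_pos_of_pos ht ν
    have h5 : t ^ ν ≤ (1 + t) ^ ν := Real.rpow_le_rpow ht.le (by linarith) hnu
    have h6 : (1 + t) ^ ν * (1 + t) ^ (-ν) = 1 := by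
      rw [← Real.rpow_add ht1, add_neg_cancel, Real.rpow_zero]
    have h7 : 0 < (1 + t) ^ (-ν) := Real.rpow_pos_of_pos ht1 _
    rw [abs_mul, abs_of_pos h4]
    calc t ^ ν * |J t| ≤ t ^ ν * (C * (1 + t) ^ (-ν)) := mul_le_mul_of_nonneg_left h3 h4.le
      _ ≤ (1 + t) ^ ν * (C * (1 + t) ^ (-ν)) :=
          mul_le_mul_of_nonneg_right h5 (mul_nonneg hC.le h7.le)
      _ = C * ((1 + t) ^ ν * (1 + t) ^ (-ν)) := by ring
      _ = C := by rw [h6, mul_one]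
  · intro r hr ξ hξ
    have hn : 0 < ‖ξ‖ := norm_pos_iff.2 hξ
    have hpi : 0 < 2 * Real.pi := by positivity
    have hX : 0 < 2 * Real.pi * ‖ξ‖ := mul_pos hpi hn
    have e1 : sh d 1 (r • ξ) = J (2 * Real.pi * (r * ‖ξ‖)) := by
      have he : ‖(‖ξ‖⁻¹ • ξ : E d)‖ = 1 := by
        rw [norm_smul, norm_inv, norm_norm, inv_mul_cancel₀ hn.ne']
      rw [hJ _ he, sh]
      refine integral_congr_ae (Eventually.of_forall (fun ζ => ?_))
      show Real.cos (2 * Real.pi * inner ℝ ζ (r • ξ)) =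
        Real.cos (2 * Real.pi * (r * ‖ξ‖) * inner ℝ ζ (‖ξ‖⁻¹ • ξ : E d))
      rw [real_inner_smul_right, real_inner_smul_right]
      congr 1
      field_simp
    rw [sh_scale d hd r hr, e1]
    show r ^ (d - 1) * J (2 * Real.pi * (r * ‖ξ‖)) = r ^ ν * ((2 * Real.pi * ‖ξ‖) ^ (-ν) *
      ((2 * Real.pi * (r * ‖ξ‖)) ^ ν * J (2 * Real.pi * (r * ‖ξ‖))))
    have e2 : 2 * Real.pi * (r * ‖ξ‖) = r * (2 * Real.pi * ‖ξ‖) := by ring
    have e3 : (2 * Real.pi * (r * ‖ξ‖)) ^ ν = r ^ ν * (2 * Real.pi * ‖ξ‖) ^ ν := by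
      rw [e2, Real.mul_rpow hr.le hX.le]
    have e4 : (2 * Real.pi * ‖ξ‖) ^ (-ν) * (2 * Real.pi * ‖ξ‖) ^ ν = 1 := by
      rw [← Real.rpow_add hX, neg_add_cancel, Real.rpow_zero]
    have e5 : r ^ ν * r ^ ν = r ^ (d - 1) := by
      rw [← Real.rpow_add hr, ← Real.rpow_natCast]
      congr 1
      rw [hν, nu, Nat.cast_sub (by omega : 1 ≤ d), Nat.cast_one]
      ring
    rw [e3, ← e5]
    calc r ^ ν * r ^ ν * J (2 * Real.pi * (r * ‖ξ‖))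
        = r ^ ν * r ^ ν * J (2 * Real.pi * (r * ‖ξ‖)) *
          ((2 * Real.pi * ‖ξ‖) ^ (-ν) * (2 * Real.pi * ‖ξ‖) ^ ν) := by rw [e4, mul_one]
      _ = _ := by ring

end Pool.LibST49
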