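import Pool.Agent.LibST49.ZD
import Pool.Agent.LibSR53.K3

/-
PLAN (Z3, SHORT/MEDIUM). Fk_fourier: Fk η y r x = ∫ η(x - ζ - y) dsg_r(ζ); insert hφ: η(x-ζ-y) = ∫ ex (x-y) ξ * ex (-ζ) ξ * φ ξ dξ, Fubini (integral_integral_swap; sg d r is finite:
S5.sg_fin; |ex| = 1, φ integrable), ∫ ex (-ζ) ξ dsg_r = sh d r ξ (sh_exp with -ξ and sh_neg, ex (-ζ) ξ = ex ζ (-ξ)). See the proof of Ip_fourier in K3.lean, which does the same twice.
Fk_dil: sg d r = ofReal(r^(d-1)) • map (r • .) (sg d 1) (S2/S5: sg_scale). Both sides become integrals over sg d 1: left r^(d-1) 2^(ld) ∫ Ψ(2^l (x - rζ - y)), right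
2^l (2^l r)^(d-1) ∫ Ψ(2^l x - 2^l r ζ - 2^l y); 2^(ld) = 2^l (2^l)^(d-1) as d >= 1.
-/

set_option autoImplicit false

noncomputable section

open MeasureTheory Metric Set Filter

namespace Pool.LibST49

open Pool.LibSR53

private theorem Z3_norm_ex {d : ℕ} (v ξ : E d) : ‖ex v ξ‖ = 1 := by
  unfold ex
  rw [show 2 * (Real.pi : ℂ) * Complex.I * ((inner ℝ v ξ : ℝ) : ℂ) =
    ((2 * Real.pi * inner ℝ v ξ : ℝ) : ℂ) * Complex.I by push_cast; ring]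
  exact Complex.norm_exp_ofReal_mul_I _

private theorem Z3_ex_add {d : ℕ} (v w ξ : E d) : ex (v + w) ξ = ex v ξ * ex w ξ := by
  unfold ex
  rw [← Complex.exp_add, inner_add_left]
  congr 1
  push_cast
  ring

private theorem Z3_ex_neg {d : ℕ} (v ξ : E d) : ex (-v) ξ = ex v (-ξ) := by
  unfold ex
  rw [inner_neg_left, inner_neg_right]

private theorem Z3_cont {d : ℕ} : Continuous fun p : E d × E d => ex p.1 p.2 := by
  unfold ex
  fun_prop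

private theorem Z3_swap {d : ℕ} {μ : Measure (E d)} [IsFiniteMeasure μ] (k : E d → E d → ℂ)
    (hk : Continuous fun p : E d × E d => k p.1 p.2) (hb : ∀ z ξ, ‖k z ξ‖ ≤ 1) (g : E d → ℂ)
    (hg : Integrable g) :
    ∫ ζ, ∫ ξ, k ζ ξ * g ξ ∂volume ∂μ = ∫ ξ, (∫ ζ, k ζ ξ ∂μ) * g ξ := by
  have h1 : Integrable (Function.uncurry fun ζ ξ => k ζ ξ * g ξ) (μ.prod volume) :=
    (hg.comp_snd μ).bdd_mul (f := fun p : E d × E d => k p.1 p.2) hk.aestronglyMeasurable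
      (c := 1) (Eventually.of_forall fun p => hb p.1 p.2)
  rw [integral_integral_swap h1]
  refine integral_congr_ae (Eventually.of_forall fun ξ => ?_)
  exact integral_mul_const (g ξ) fun ζ => k ζ ξ

private theorem Z3_sg {d : ℕ} (hd : 2 ≤ d) (f : E d → ℂ) (hf : Continuous f) {r : ℝ}
    (hr : 0 < r) :
    ∫ ζ, f ζ ∂(sg d r) = (((r ^ (d - 1) : ℝ)) : ℂ) * ∫ w, f (r • w) ∂(sg d 1) := by
  rw [sg_scale d hd r hr, integral_smul_measure, ENNReal.toReal_ofReal (by positivity),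
    integral_map (continuous_const_smul r).measurable.aemeasurable hf.aestronglyMeasurable,
    Complex.real_smul]

/-- the atoms on the Fourier side -/
theorem Fk_fourier {d : ℕ} (hd : 2 ≤ d) (η φ : SchwartzMap (E d) ℂ)
    (hφ : ∀ v, η v = ∫ ξ, ex v ξ * φ ξ) (y : E d) (r : ℝ) (hr : 0 < r) (x : E d) :
    Fk η y r x = ∫ ξ, ex (x - y) ξ * (φ ξ * (sh d r ξ : ℂ)) := by
  have i1 := sg_fin d hd r hr
  unfold Fk
  have h1 : ∀ ζ, η (x - ζ - y) = ∫ ξ, (ex (x - y) ξ * ex ζ (-ξ)) * φ ξ := by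
    intro ζ
    rw [hφ]
    refine integral_congr_ae (Eventually.of_forall fun ξ => ?_)
    beta_reduce
    rw [show x - ζ - y = (x - y) + (-ζ) by abel, Z3_ex_add, Z3_ex_neg]
  rw [integral_congr_ae (Eventually.of_forall h1)]
  rw [Z3_swap (fun ζ ξ => ex (x - y) ξ * ex ζ (-ξ)) ?_ ?_ φ φ.integrable]
  · refine integral_congr_ae (Eventually.of_forall fun ξ => ?_)
    beta_reduce
    have h2 : ∫ ζ, ex (x - y) ξ * ex ζ (-ξ) ∂(sg d r) = ex (x - y) ξ * (sh d r ξ : ℂ) := by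
      rw [integral_const_mul, sh_exp d hd r hr, sh_neg]
    rw [h2]
    ring
  · exact (Z3_cont.comp (continuous_const.prodMk continuous_snd)).mul
      (Z3_cont.comp (continuous_fst.prodMk continuous_snd.neg))
  · intro z ξ
    rw [norm_mul, Z3_norm_ex, Z3_norm_ex, one_mul]

/-- the atoms of a dilated function -/
theorem Fk_dil {d : ℕ} (hd : 2 ≤ d) (Ψ : SchwartzMap (E d) ℂ) (l : ℕ) (y : E d) (r : ℝ)
    (hr : 0 < r) (x : E d) :
    ∫ ζ, (((2 : ℝ) ^ (l * d) : ℝ) : ℂ) * Ψ ((2 : ℝ) ^ l • (x - ζ - y)) ∂(sg d r) =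
      (((2 : ℝ) ^ l : ℝ) : ℂ) *
        Fk Ψ ((2 : ℝ) ^ l • y) ((2 : ℝ) ^ l * r) ((2 : ℝ) ^ l • x) := by
  have h2 : (0 : ℝ) < 2 ^ l := by positivity
  unfold Fk
  rw [Z3_sg hd (fun ζ => (((2 : ℝ) ^ (l * d) : ℝ) : ℂ) * Ψ ((2 : ℝ) ^ l • (x - ζ - y)))
      (continuous_const.mul (Ψ.continuous.comp (by fun_prop))) hr,
    Z3_sg hd (fun ζ => Ψ ((2 : ℝ) ^ l • x - ζ - (2 : ℝ) ^ l • y))
      (Ψ.continuous.comp (by fun_prop)) (mul_pos h2 hr), integral_const_mul]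
  have h3 : ∀ w : E d, (2 : ℝ) ^ l • (x - r • w - y) =
      (2 : ℝ) ^ l • x - ((2 : ℝ) ^ l * r) • w - (2 : ℝ) ^ l • y := by
    intro w
    rw [smul_sub, smul_sub, mul_smul]
  simp_rw [h3]
  rw [← mul_assoc, ← mul_assoc]
  congr 1
  obtain ⟨e, rfl⟩ : ∃ e, d = e + 1 := ⟨d - 1, by omega⟩
  rw [Nat.add_sub_cancel]
  push_cast
  ring

end Pool.LibST49
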