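import Pool.Agent.LibST49.Z1
import Pool.Agent.LibST49.Z2
import Pool.Agent.LibST49.Z3

/-
PLAN (Z4, MEDIUM/STRONG). ν = nu d; g, g1, B from exists_g. a ξ = (2π‖ξ‖)^(-ν) φ ξ (zero near 0 because φ is: φ ξ ≠ 0 → c0 <= ‖ξ‖): An c0 c1 a (smooth away from 0: ContDiffAt of the norm and of
Real.rpow at positive points; near 0 it is zero; use that φ vanishes on the open ball ‖ξ‖ < c0). χ0 : R → C smooth, compactly supported, = 1 on [c0, c1], = 0 for s <= c0/2 (ContDiffBump at the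
centre (c0+c1)/2, or a product of Real.smoothTransition's; if c1 < c0 then φ = 0 and everything is trivial with χ0 = 0, or take c1' = max c0 c1). h_r s = g(2π(r s)) χ0 s is continuous with
compact support. μ r ρ = ∫ s, e1 (-(ρ s)) * h_r s = 𝓕 h_r ρ; continuous (continuous_of_dominated or Real.fourierIntegral continuity); the bound is Z1 (window, with c0/2); N = 2 gives
integrability of μ r; Fourier inversion (Continuous.fourierInv_fourier_eq): h_r s = ∫ μ r ρ * e1 (ρ s) dρ for every s. Fk_fourier: Fk = ∫ ex (x-y) ξ φ ξ sh d r ξ, and for ξ with φ ξ ≠ 0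
sh d r ξ φ ξ = r^ν a ξ g(2π(r‖ξ‖)) = r^ν a ξ h_r(‖ξ‖) = r^ν a ξ ∫ μ r ρ e1(ρ‖ξ‖) dρ. Fubini in (ξ, ρ) (a is continuous with compact support, hence integrable; μ r integrable):
ex (x-y) ξ * e1(ρ‖ξ‖) = e1(<x-y,ξ> + ρ‖ξ‖).
-/

set_option autoImplicit false

noncomputable section

open MeasureTheory Metric Set Filter

namespace Pool.LibST49

open Pool.LibSR53

private lemma Z4_norm_e1 (t : ℝ) : ‖e1 t‖ = 1 := by
  unfold e1
  rw [show 2 * (Real.pi : ℂ) * Complex.I * (t : ℂ) =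
    ((2 * Real.pi * t : ℝ) : ℂ) * Complex.I by push_cast; ring]
  exact Complex.norm_exp_ofReal_mul_I _

private lemma Z4_cont_e1 : Continuous e1 := by
  unfold e1
  fun_prop

private lemma Z4_e1_add (s t : ℝ) : e1 (s + t) = e1 s * e1 t := by
  unfold e1
  rw [← Complex.exp_add]
  congr 1
  push_cast
  ring

private lemma Z4_ex {d : ℕ} (v ξ : E d) : ex v ξ = e1 (inner ℝ v ξ) := rfl

/-- a smooth compactly supported function equal to one on [c0, c1] and zero for s <= c0/2 -/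
private lemma Z4_chi (c0 c1 : ℝ) (hc0 : 0 < c0) : ∃ χ : ℝ → ℂ, ContDiff ℝ (⊤ : ℕ∞) χ ∧
    HasCompactSupport χ ∧ (∀ s, s ≤ c0 / 2 → χ s = 0) ∧ ∀ s, c0 ≤ s → s ≤ c1 → χ s = 1 := by
  obtain ⟨c, hc1, hc2⟩ : ∃ c, c0 ≤ c ∧ c1 ≤ c := ⟨max c0 c1, le_max_left _ _, le_max_right _ _⟩
  let f : ContDiffBump ((c0 + c) / 2) := ⟨c / 2 - c0 / 4, c / 2, by linarith, by linarith⟩
  refine ⟨fun s => (f s : ℂ), ?_, ?_, ?_, ?_⟩
  · exact Complex.ofRealCLM.contDiff.comp f.contDiff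
  · exact f.hasCompactSupport.comp_left (g := fun x : ℝ => (x : ℂ)) Complex.ofReal_zero
  · intro s hs
    have h : f s = 0 := by
      refine f.zero_of_le_dist ?_
      rw [Real.dist_eq, abs_sub_comm, abs_of_nonneg (by linarith)]
      change c / 2 ≤ _
      linarith
    beta_reduce
    rw [h, Complex.ofReal_zero]
  · intro s hs hs1
    have h : f s = 1 := by
      refine f.one_of_mem_closedBall ?_
      rw [mem_closedBall, Real.dist_eq]
      change _ ≤ c / 2 - c0 / 4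
      rw [abs_le]
      constructor <;> linarith
    beta_reduce
    rw [h, Complex.ofReal_one]

private lemma Z4_hcont (g g1 : ℝ → ℝ) (h1 : ∀ t, 0 < t → HasDerivAt g (g1 t) t) (c : ℝ)
    (hc : 0 < c) (χ : ℝ → ℂ) (hχ : Continuous χ) (hχ0 : ∀ s, s ≤ c → χ s = 0) (r : ℝ)
    (hr : 0 < r) : Continuous fun s => ((g (2 * Real.pi * (r * s)) : ℝ) : ℂ) * χ s := by
  rw [continuous_iff_continuousAt]
  intro s
  rcases lt_or_ge s c with hs | hs
  · have h : (fun s => ((g (2 * Real.pi * (r * s)) : ℝ) : ℂ) * χ s) =ᶠ[nhds s] fun _ => 0 := by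
      filter_upwards [Iio_mem_nhds hs] with t ht
      rw [hχ0 t (le_of_lt ht), mul_zero]
    exact continuousAt_const.congr h.symm
  · have hs0 : 0 < s := lt_of_lt_of_le hc hs
    have hpos : 0 < 2 * Real.pi * (r * s) := by positivity
    have hg : ContinuousAt g (2 * Real.pi * (r * s)) := (h1 _ hpos).continuousAt
    refine ContinuousAt.mul ?_ hχ.continuousAt
    refine Complex.continuous_ofReal.continuousAt.comp ?_
    exact ContinuousAt.comp (f := fun s => 2 * Real.pi * (r * s)) hg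
      (by fun_prop)

private lemma Z4_mu (h : ℝ → ℂ) (ρ : ℝ) :
    FourierTransform.fourier h ρ = ∫ s, e1 (-(ρ * s)) * h s := by
  rw [Real.fourier_real_eq_integral_exp_smul]
  refine integral_congr_ae (Eventually.of_forall fun s => ?_)
  beta_reduce
  rw [smul_eq_mul, e1]
  congr 2
  push_cast
  ring

private lemma Z4_int (m : ℝ → ℂ) (hm : Continuous m) (C r : ℝ) (hr : 0 ≤ r)
    (hb : ∀ ρ, ‖m ρ‖ ≤ C / (1 + |(|ρ|) - r|) ^ 2) : Integrable m := by
  have hC : 0 ≤ C := by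
    have h := (norm_nonneg _).trans (hb 0)
    by_contra hC
    push Not at hC
    have : C / (1 + |(|(0 : ℝ)|) - r|) ^ 2 < 0 := div_neg_of_neg_of_pos hC (by positivity)
    linarith
  have hi : Integrable (fun ρ : ℝ => C * (1 + r) ^ 2 * (1 + ρ ^ 2)⁻¹) :=
    integrable_inv_one_add_sq.const_mul _
  refine hi.mono' hm.aestronglyMeasurable (Eventually.of_forall fun ρ => ?_)
  refine (hb ρ).trans ?_
  have hu : 0 ≤ |(|ρ|) - r| := abs_nonneg _
  have h1 : |ρ| ≤ |(|ρ|) - r| + r := by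
    have := le_abs_self ((|ρ|) - r)
    linarith
  have h2 : 1 + |ρ| ≤ (1 + r) * (1 + |(|ρ|) - r|) := by nlinarith [mul_nonneg hr hu]
  have h3 : 1 + ρ ^ 2 ≤ (1 + |ρ|) ^ 2 := by
    have := sq_abs ρ
    nlinarith [abs_nonneg ρ]
  have h4 : (1 + |ρ|) ^ 2 ≤ ((1 + r) * (1 + |(|ρ|) - r|)) ^ 2 :=
    pow_le_pow_left₀ (by positivity) h2 2
  rw [← div_eq_mul_inv, div_le_div_iff₀ (by positivity) (by positivity)]
  have h5 : 1 + ρ ^ 2 ≤ (1 + r) ^ 2 * (1 + |(|ρ|) - r|) ^ 2 := by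
    rw [← mul_pow]
    exact h3.trans h4
  calc C * (1 + ρ ^ 2) ≤ C * ((1 + r) ^ 2 * (1 + |(|ρ|) - r|) ^ 2) :=
        mul_le_mul_of_nonneg_left h5 hC
    _ = _ := by ring

private lemma Z4_inv (h : ℝ → ℂ) (hc : Continuous h) (hs : HasCompactSupport h) (m : ℝ → ℂ)
    (hm : ∀ ρ, m ρ = ∫ s, e1 (-(ρ * s)) * h s) (hi : Integrable m) (s : ℝ) :
    h s = ∫ ρ, e1 (ρ * s) * m ρ := by
  have hh : Integrable h := hc.integrable_of_hasCompactSupport hs
  have e : m = FourierTransform.fourier h := by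
    funext ρ
    rw [hm, Z4_mu]
  have hi' : Integrable (FourierTransform.fourier h) := e ▸ hi
  have h2 := congrFun (hc.fourierInv_fourier_eq hh hi') s
  rw [← h2, ← e, Real.fourierInv_eq']
  refine integral_congr_ae (Eventually.of_forall fun ρ => ?_)
  beta_reduce
  rw [smul_eq_mul, e1]
  congr 2
  simp only [RCLike.inner_apply, conj_trivial]
  push_cast
  ring

private lemma Z4_mucont (h : ℝ → ℂ) (hc : Continuous h) (hs : HasCompactSupport h) :
    Continuous fun ρ : ℝ => ∫ s, e1 (-(ρ * s)) * h s := by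
  have hh : Integrable h := hc.integrable_of_hasCompactSupport hs
  refine continuous_of_dominated (bound := fun s => ‖h s‖) ?_ ?_ hh.norm ?_
  · intro ρ
    exact ((Z4_cont_e1.comp (by fun_prop)).mul hc).aestronglyMeasurable
  · intro ρ
    refine Eventually.of_forall fun s => ?_
    rw [norm_mul, Z4_norm_e1, one_mul]
  · refine Eventually.of_forall fun s => ?_
    exact (Z4_cont_e1.comp (by fun_prop)).mul continuous_const

private lemma Z4_An {d : ℕ} (φ : SchwartzMap (E d) ℂ) (c0 c1 : ℝ) (hc0 : 0 < c0)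
    (hs : ∀ ξ, φ ξ ≠ 0 → c0 ≤ ‖ξ‖ ∧ ‖ξ‖ ≤ c1) (ν : ℝ) :
    An c0 c1 fun ξ => (((2 * Real.pi * ‖ξ‖) ^ (-ν) : ℝ) : ℂ) * φ ξ := by
  refine ⟨hc0, ?_, ?_⟩
  · rw [contDiff_iff_contDiffAt]
    intro ξ
    by_cases hξ : ξ = 0
    · have h : (fun ξ => (((2 * Real.pi * ‖ξ‖) ^ (-ν) : ℝ) : ℂ) * φ ξ) =ᶠ[nhds ξ] fun _ => 0 := by
        have hb : ball (0 : E d) c0 ∈ nhds ξ := by
          rw [hξ]
          exact ball_mem_nhds _ hc0
        filter_upwards [hb] with t ht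
        have : φ t = 0 := by
          by_contra hne
          have := (hs t hne).1
          rw [mem_ball, dist_zero_right] at ht
          linarith
        rw [this, mul_zero]
      exact contDiffAt_const.congr_of_eventuallyEq h
    · refine ContDiffAt.mul ?_ (φ.smooth _).contDiffAt
      have hn : 0 < ‖ξ‖ := norm_pos_iff.mpr hξ
      have hp : (2 * Real.pi * ‖ξ‖) ≠ 0 := by positivity
      have h1 : ContDiffAt ℝ (⊤ : ℕ∞) (fun ξ : E d => (2 * Real.pi * ‖ξ‖) ^ (-ν)) ξ :=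
        (contDiffAt_const.mul (contDiffAt_norm ℝ hξ)).rpow_const_of_ne hp
      exact Complex.ofRealCLM.contDiff.contDiffAt.comp ξ h1
  · intro ξ h
    exact hs ξ (right_ne_zero_of_mul h)

private lemma Z4_fub {d : ℕ} (a : E d → ℂ) (ha : Integrable a) (m : ℝ → ℂ) (hm : Integrable m)
    (z : E d) : ∫ ξ, ex z ξ * (a ξ * ∫ ρ, e1 (ρ * ‖ξ‖) * m ρ) = ∫ ρ, m ρ * Ka a z ρ := by
  have hF : Integrable (Function.uncurry fun (ξ : E d) (ρ : ℝ) =>
      e1 (inner ℝ z ξ + ρ * ‖ξ‖) * (a ξ * m ρ)) (volume.prod volume) := by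
    refine (ha.mul_prod hm).bdd_mul
      (f := fun p : E d × ℝ => e1 (inner ℝ z p.1 + p.2 * ‖p.1‖)) ?_ (c := 1)
      (Eventually.of_forall fun p => (Z4_norm_e1 _).le)
    exact (Z4_cont_e1.comp (by fun_prop)).aestronglyMeasurable
  calc ∫ ξ, ex z ξ * (a ξ * ∫ ρ, e1 (ρ * ‖ξ‖) * m ρ)
      = ∫ ξ, ∫ ρ, e1 (inner ℝ z ξ + ρ * ‖ξ‖) * (a ξ * m ρ) := by
        refine integral_congr_ae (Eventually.of_forall fun ξ => ?_)
        beta_reduce
        rw [← mul_assoc, ← integral_const_mul]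
        refine integral_congr_ae (Eventually.of_forall fun ρ => ?_)
        beta_reduce
        rw [Z4_e1_add, Z4_ex]
        ring
    _ = ∫ ρ, ∫ ξ, e1 (inner ℝ z ξ + ρ * ‖ξ‖) * (a ξ * m ρ) := integral_integral_swap hF
    _ = ∫ ρ, m ρ * Ka a z ρ := by
        refine integral_congr_ae (Eventually.of_forall fun ρ => ?_)
        beta_reduce
        unfold Ka
        rw [← integral_const_mul]
        refine integral_congr_ae (Eventually.of_forall fun ξ => ?_)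
        beta_reduce
        ring

/-- the atoms of a band limited function are superpositions of half waves at the times close to
r and -r -/
theorem waves {d : ℕ} (hd : 2 ≤ d) (η φ : SchwartzMap (E d) ℂ)
    (hφ : ∀ v, η v = ∫ ξ, ex v ξ * φ ξ) (c0 c1 : ℝ) (hc0 : 0 < c0)
    (hs : ∀ ξ, φ ξ ≠ 0 → c0 ≤ ‖ξ‖ ∧ ‖ξ‖ ≤ c1) :
    ∃ (a : E d → ℂ) (μ : ℝ → ℝ → ℂ), An c0 c1 a ∧ (∀ r, 1 ≤ r → Continuous (μ r)) ∧
      (∀ N : ℕ, ∃ C : ℝ, 0 < C ∧ ∀ r ρ : ℝ, 1 ≤ r → ‖μ r ρ‖ ≤ C / (1 + |(|ρ|) - r|) ^ N) ∧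
      ∀ p : P d, 1 ≤ p.2 → ∀ x : E d,
        Fk η p.1 p.2 x = ((p.2 ^ nu d : ℝ) : ℂ) * ∫ ρ : ℝ, μ p.2 ρ * Ka a (x - p.1) ρ := by
  obtain ⟨g, g1, B, hg1, hg2, hgB, hgs⟩ := exists_g d hd
  obtain ⟨χ, hχ, hχs, hχ0, hχ1⟩ := Z4_chi c0 c1 hc0
  have hc2 : 0 < c0 / 2 := by positivity
  have hAn := Z4_An φ c0 c1 hc0 hs (nu d)
  have hhc : ∀ r, 1 ≤ r → Continuous fun s => ((g (2 * Real.pi * (r * s)) : ℝ) : ℂ) * χ s :=
    fun r hr => Z4_hcont g g1 hg1 (c0 / 2) hc2 χ hχ.continuous hχ0 r (by linarith)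
  have hhs : ∀ r : ℝ, HasCompactSupport
      fun s => ((g (2 * Real.pi * (r * s)) : ℝ) : ℂ) * χ s := fun r => hχs.mul_left
  refine ⟨fun ξ => (((2 * Real.pi * ‖ξ‖) ^ (-nu d) : ℝ) : ℂ) * φ ξ,
    fun r ρ => ∫ s : ℝ, e1 (-(ρ * s)) * (((g (2 * Real.pi * (r * s)) : ℝ) : ℂ) * χ s),
    hAn, ?_, ?_, ?_⟩
  · intro r hr
    exact Z4_mucont _ (hhc r hr) (hhs r)
  · intro N
    exact window (nu d) g g1 hg1 hg2 B hgB (c0 / 2) hc2 N χ hχ hχs hχ0
  · intro p hp x
    have hp0 : 0 < p.2 := by linarith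
    obtain ⟨C, hC, hCb⟩ := window (nu d) g g1 hg1 hg2 B hgB (c0 / 2) hc2 2 χ hχ hχs hχ0
    have hmi : Integrable fun ρ : ℝ => ∫ s : ℝ, e1 (-(ρ * s)) *
        (((g (2 * Real.pi * (p.2 * s)) : ℝ) : ℂ) * χ s) :=
      Z4_int _ (Z4_mucont _ (hhc p.2 hp) (hhs p.2)) C p.2 (by linarith)
        fun ρ => hCb p.2 ρ hp
    have hinv := Z4_inv _ (hhc p.2 hp) (hhs p.2) _ (fun ρ => rfl) hmi
    have hac : HasCompactSupport
        fun ξ : E d => (((2 * Real.pi * ‖ξ‖) ^ (-nu d) : ℝ) : ℂ) * φ ξ := by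
      refine HasCompactSupport.of_support_subset_isCompact (isCompact_closedBall (0 : E d) c1) ?_
      intro ξ hξ
      rw [mem_closedBall, dist_zero_right]
      exact (hAn.supp ξ hξ).2
    have hai : Integrable fun ξ : E d => (((2 * Real.pi * ‖ξ‖) ^ (-nu d) : ℝ) : ℂ) * φ ξ :=
      hAn.smooth.continuous.integrable_of_hasCompactSupport hac
    rw [Fk_fourier hd η φ hφ p.1 p.2 hp0 x, ← Z4_fub _ hai _ hmi, ← integral_const_mul]
    refine integral_congr_ae (Eventually.of_forall fun ξ => ?_)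
    beta_reduce
    rw [← hinv ‖ξ‖]
    by_cases h0 : φ ξ = 0
    · rw [h0]
      ring
    · obtain ⟨h1, h2⟩ := hs ξ h0
      have hne : ξ ≠ 0 := by
        intro h
        rw [h, norm_zero] at h1
        linarith
      rw [hgs p.2 hp0 ξ hne, hχ1 ‖ξ‖ h1 h2]
      push_cast
      ring

end Pool.LibST49
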