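import Pool.Agent.LibST49.ZD

/-
PLAN (Z5, MEDIUM, ONLY MATHLIB). Index i = (j, s), s = true/false the sign. θ = expNegInvGlue (smooth, >= 0, = 0 for t <= 0, > 0 for t > 0). W ξ = ∑ over (j,s) of θ (± ξ j) is smooth, and
> 0 for ξ ≠ 0 (some coordinate is nonzero). a_i ξ = (θ(± ξ j) / W ξ : ℝ) * a ξ: smooth (near points with ‖ξ‖ < c0 it vanishes, elsewhere ξ ≠ 0 and W > 0), supported where a ξ ≠ 0 and
± ξ j > 0, and ∑ a_i = a (at ξ = 0 both sides vanish). U_i: linear isometry with U_i (± e_j) = e_last (unit vectors): the reflection in (ℝ ∙ (u - v))ᗮ,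
Submodule.reflection_sub (used in LibSR53/S3.lean, S5.lean); if u = v it is the identity, which the same formula covers. b_i ζ = a_i (U_i.symm ζ); then b_i (U_i ξ) = a_i ξ;
norm preserved; las ζ = <ζ, e_last> = <U_i⁻¹ ζ, ± e_j> = ± (U_i⁻¹ ζ) j >= 0 on the support.
-/

set_option autoImplicit false

noncomputable section

open MeasureTheory Metric Set Filter

namespace Pool.LibST49

open Pool.LibSR53

private def Z5_s (s : Bool) : ℝ := if s then 1 else -1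

private lemma Z5_s_abs (s : Bool) : |Z5_s s| = 1 := by
  unfold Z5_s
  cases s <;> simp

private def Z5_t {d : ℕ} (i : Fin d × Bool) (ξ : E d) : ℝ :=
  expNegInvGlue (Z5_s i.2 * ξ i.1)

private lemma Z5_t_nonneg {d : ℕ} (i : Fin d × Bool) (ξ : E d) : 0 ≤ Z5_t i ξ :=
  expNegInvGlue.nonneg _

private lemma Z5_t_smooth {d : ℕ} (i : Fin d × Bool) :
    ContDiff ℝ (⊤ : ℕ∞) (fun ξ : E d => Z5_t i ξ) := by
  unfold Z5_t
  apply expNegInvGlue.contDiff.comp
  apply contDiff_const.mul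
  exact (EuclideanSpace.proj i.1 : E d →L[ℝ] ℝ).contDiff

private def Z5_W {d : ℕ} (ξ : E d) : ℝ := ∑ i : Fin d × Bool, Z5_t i ξ

private lemma Z5_W_smooth {d : ℕ} : ContDiff ℝ (⊤ : ℕ∞) (fun ξ : E d => Z5_W ξ) := by
  unfold Z5_W
  exact ContDiff.sum fun i _ => Z5_t_smooth i

private lemma Z5_W_pos {d : ℕ} {ξ : E d} (hξ : ξ ≠ 0) : 0 < Z5_W ξ := by
  obtain ⟨j, hj⟩ : ∃ j, ξ j ≠ 0 := by
    by_contra h
    push Not at h
    exact hξ (by ext j; exact h j)
  unfold Z5_W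
  obtain ⟨s, hs⟩ : ∃ s : Bool, 0 < Z5_s s * ξ j := by
    rcases lt_or_gt_of_ne hj with h | h
    · exact ⟨false, by unfold Z5_s; simpa using h⟩
    · exact ⟨true, by unfold Z5_s; simpa using h⟩
  refine lt_of_lt_of_le ?_ (Finset.single_le_sum (f := fun i => Z5_t i ξ)
    (fun i _ => Z5_t_nonneg i ξ) (Finset.mem_univ (j, s)))
  exact expNegInvGlue.pos_of_pos hs

private def Z5_a {d : ℕ} (a : E d → ℂ) (i : Fin d × Bool) (ξ : E d) : ℂ :=
  ((Z5_t i ξ / Z5_W ξ : ℝ) : ℂ) * a ξ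

private lemma Z5_a_smooth {d : ℕ} {c0 c1 : ℝ} {a : E d → ℂ} (ha : An c0 c1 a)
    (i : Fin d × Bool) : ContDiff ℝ (⊤ : ℕ∞) (Z5_a a i) := by
  rw [contDiff_iff_contDiffAt]
  intro ξ
  by_cases h : ‖ξ‖ < c0
  · have h0 : Z5_a a i =ᶠ[nhds ξ] fun _ => 0 := by
      have ho : IsOpen {ζ : E d | ‖ζ‖ < c0} := isOpen_lt continuous_norm continuous_const
      filter_upwards [ho.mem_nhds h] with ζ hζ
      unfold Z5_a
      have : a ζ = 0 := by
        by_contra hne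
        exact absurd (ha.supp ζ hne).1 (not_le.2 hζ)
      rw [this, mul_zero]
    exact contDiffAt_const.congr_of_eventuallyEq h0
  · have hξ : ξ ≠ 0 := by
      intro h0
      apply h
      rw [h0, norm_zero]
      exact ha.pos
    unfold Z5_a
    apply ContDiffAt.mul
    · have h1 : ContDiffAt ℝ (⊤ : ℕ∞) (fun ζ : E d => Z5_t i ζ / Z5_W ζ) ξ :=
        (Z5_t_smooth i).contDiffAt.div Z5_W_smooth.contDiffAt (Z5_W_pos hξ).ne'
      exact Complex.ofRealCLM.contDiff.contDiffAt.comp ξ h1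
    · exact ha.smooth.contDiffAt

private lemma Z5_a_supp {d : ℕ} (a : E d → ℂ) (i : Fin d × Bool) (ξ : E d)
    (h : Z5_a a i ξ ≠ 0) : a ξ ≠ 0 ∧ 0 < Z5_s i.2 * ξ i.1 := by
  unfold Z5_a at h
  refine ⟨right_ne_zero_of_mul h, ?_⟩
  by_contra hle
  apply left_ne_zero_of_mul h
  have : Z5_t i ξ = 0 := expNegInvGlue.zero_of_nonpos (not_lt.1 hle)
  rw [this, zero_div, Complex.ofReal_zero]

private lemma Z5_a_sum {d : ℕ} {c0 c1 : ℝ} {a : E d → ℂ} (ha : An c0 c1 a) (ξ : E d) :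
    a ξ = ∑ i, Z5_a a i ξ := by
  by_cases hξ : ξ = 0
  · have h0 : a ξ = 0 := by
      by_contra hne
      have h1 := (ha.supp ξ hne).1
      rw [hξ, norm_zero] at h1
      exact absurd ha.pos (not_lt.2 h1)
    unfold Z5_a
    rw [h0]
    simp
  · unfold Z5_a
    rw [← Finset.sum_mul, ← Complex.ofReal_sum, ← Finset.sum_div]
    change a ξ = ((Z5_W ξ / Z5_W ξ : ℝ) : ℂ) * a ξ
    rw [div_self (Z5_W_pos hξ).ne', Complex.ofReal_one, one_mul]

/-- splitting of a symbol into pieces which are supported in half spaces up to rotation -/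
theorem split {m : ℕ} {c0 c1 : ℝ} {a : E (m + 1) → ℂ} (ha : An c0 c1 a) :
    ∃ (b : Fin (m + 1) × Bool → E (m + 1) → ℂ)
      (U : Fin (m + 1) × Bool → (E (m + 1) ≃ₗᵢ[ℝ] E (m + 1))),
      (∀ i, An c0 c1 (b i)) ∧ (∀ i ξ, b i ξ ≠ 0 → 0 ≤ las ξ) ∧
      ∀ ξ, a ξ = ∑ i, b i (U i ξ) := by
  obtain ⟨v, hv⟩ : ∃ v : E (m + 1), v = EuclideanSpace.single (Fin.last m) (1 : ℝ) := ⟨_, rfl⟩
  obtain ⟨u, hu⟩ : ∃ u : Fin (m + 1) × Bool → E (m + 1),
      u = fun i => Z5_s i.2 • EuclideanSpace.single i.1 (1 : ℝ) := ⟨_, rfl⟩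
  have hv1 : ‖v‖ = 1 := by
    rw [hv, EuclideanSpace.norm_single, norm_one]
  have hu1 : ∀ i, ‖u i‖ = 1 := by
    intro i
    rw [hu]
    change ‖Z5_s i.2 • EuclideanSpace.single i.1 (1 : ℝ)‖ = 1
    rw [norm_smul, EuclideanSpace.norm_single, norm_one, Real.norm_eq_abs, Z5_s_abs, mul_one]
  obtain ⟨U, hU⟩ : ∃ U : Fin (m + 1) × Bool → (E (m + 1) ≃ₗᵢ[ℝ] E (m + 1)),
      ∀ i, U i (u i) = v :=
    ⟨fun i => Submodule.reflection (Submodule.span ℝ {u i - v})ᗮ,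
      fun i => Submodule.reflection_sub ((hu1 i).trans hv1.symm)⟩
  refine ⟨fun i ζ => Z5_a a i ((U i).symm ζ), U, ?_, ?_, ?_⟩
  · intro i
    refine ⟨ha.pos, ?_, ?_⟩
    · exact (Z5_a_smooth ha i).comp (U i).symm.contDiff
    · intro ζ hζ
      have h1 := ha.supp _ (Z5_a_supp a i _ hζ).1
      rw [LinearIsometryEquiv.norm_map] at h1
      exact h1
  · intro i ξ hξ
    have h1 := (Z5_a_supp a i _ hξ).2
    have h2 : inner ℝ (u i) ((U i).symm ξ) = Z5_s i.2 * ((U i).symm ξ) i.1 := by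
      rw [hu]
      change inner ℝ (Z5_s i.2 • EuclideanSpace.single i.1 (1 : ℝ)) ((U i).symm ξ) = _
      rw [real_inner_smul_left, EuclideanSpace.inner_single_left]
      simp
    have h3 : inner ℝ v ξ = las ξ := by
      rw [hv, EuclideanSpace.inner_single_left]
      simp [las]
    have h4 : inner ℝ (u i) ((U i).symm ξ) = inner ℝ v ξ := by
      have h5 := (U i).inner_map_map (u i) ((U i).symm ξ)
      rw [hU i, LinearIsometryEquiv.apply_symm_apply] at h5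
      exact h5.symm
    rw [← h3, ← h4, h2]
    exact h1.le
  · intro ξ
    rw [Z5_a_sum ha ξ]
    apply Finset.sum_congr rfl
    intro i _
    change Z5_a a i ξ = Z5_a a i ((U i).symm (U i ξ))
    rw [LinearIsometryEquiv.symm_apply_apply]

end Pool.LibST49
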