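import Pool.Agent.LibST49.Defs

/-
Block Z (chief helper53, co-chief helper59): from HST m to Q1. Definitions used only in this block.
-/

set_option autoImplicit false

noncomputable section

open MeasureTheory Metric Set Filter

namespace Pool.LibST49

open Pool.LibSR53

/-- smooth functions supported in the annulus c0 <= |xi| <= c1 -/
structure An {d : ℕ} (c0 c1 : ℝ) (a : E d → ℂ) : Prop where
  pos : 0 < c0
  smooth : ContDiff ℝ (⊤ : ℕ∞) a
  supp : ∀ ξ, a ξ ≠ 0 → c0 ≤ ‖ξ‖ ∧ ‖ξ‖ ≤ c1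

/-- the half wave atoms of the symbol a, shifted in time by s0, with the factor r^nu -/
def Fa {d : ℕ} (a : E d → ℂ) (s0 : ℝ) (p : P d) (x : E d) : ℂ :=
  ((p.2 ^ nu d : ℝ) : ℂ) * Ka a (x - p.1) (-(p.2 + s0))

/-- the dilation of E d x R by the factor 2^l -/
def Dl {d : ℕ} (l : ℕ) (p : P d) : P d := ((2 : ℝ) ^ l • p.1, (2 : ℝ) ^ l * p.2)

end Pool.LibST49
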